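import Mathlib

set_option autoImplicit false

namespace Pool.Agent.H9

/-- check P on all numbers s * 2 ^ d + m with m < 2 ^ d, with logarithmic recursion depth -/
def allR (P : ℕ → Bool) : ℕ → ℕ → Bool
  | 0, s => P s
  | d + 1, s => allR P d (2 * s) && allR P d (2 * s + 1)

theorem allR_aux (P : ℕ → Bool) : ∀ d s, allR P d s = true → ∀ m < 2 ^ d, P (s * 2 ^ d + m) = true
  | 0, s, h, m, hm => by
    obtain rfl : m = 0 := by simpa using hm
    simpa [allR] using h
  | d + 1, s, h, m, hm => by
    simp only [allR, Bool.and_eq_true] at h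
    by_cases hlt : m < 2 ^ d
    · have := allR_aux P d _ h.1 m hlt
      rwa [show 2 * s * 2 ^ d + m = s * 2 ^ (d + 1) + m by ring] at this
    · have := allR_aux P d _ h.2 (m - 2 ^ d) (by rw [pow_succ] at hm; omega)
      rwa [show (2 * s + 1) * 2 ^ d + (m - 2 ^ d) = s * 2 ^ (d + 1) + m by
        rw [add_mul, one_mul, pow_succ, add_assoc, Nat.add_sub_cancel' (by omega)]; ring] at this

theorem allR_sound (P : ℕ → Bool) (d : ℕ) (h : allR P d 0 = true) : ∀ m < 2 ^ d, P m = true := by
  intro m hm
  simpa using allR_aux P d 0 h m hm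

end Pool.Agent.H9
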