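import Mathlib

set_option autoImplicit false

namespace Pool.Agent.H9

/-- compatibility of value a at position i with all earlier values -/
def chk (R : ℕ → ℕ → ℕ → ℕ → Bool) (i a : ℕ) : ℕ → List ℕ → Bool
  | j + 1, b :: t => R i a j b && chk R i a j t
  | _, _ => true

/-- backtracking search for a binary constraint problem with domains D i -/
def bt (D : ℕ → List ℕ) (R : ℕ → ℕ → ℕ → ℕ → Bool) : ℕ → ℕ → List ℕ → Bool
  | 0, _, _ => true
  | r + 1, i, l => (D i).any fun a => chk R i a i l && bt D R r (i + 1) (a :: l)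

/-- the list of the first i values of f, last first -/
def pre (f : ℕ → ℕ) : ℕ → List ℕ
  | 0 => []
  | i + 1 => f i :: pre f i

theorem chk_pre (R : ℕ → ℕ → ℕ → ℕ → Bool) (f : ℕ → ℕ) (i a : ℕ) :
    ∀ j, (∀ m < j, R i a m (f m) = true) → chk R i a j (pre f j) = true
  | 0, _ => by simp [chk]
  | j + 1, h => by
    simp only [pre, chk, Bool.and_eq_true]
    exact ⟨h j (by omega), chk_pre R f i a j fun m hm => h m (by omega)⟩

theorem bt_pre (D : ℕ → List ℕ) (R : ℕ → ℕ → ℕ → ℕ → Bool) (f : ℕ → ℕ) (n : ℕ)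
    (hD : ∀ i < n, f i ∈ D i) (hR : ∀ i < n, ∀ j < i, R i (f i) j (f j) = true) :
    ∀ r i, i + r = n → bt D R r i (pre f i) = true
  | 0, _, _ => by simp [bt]
  | r + 1, i, h => by
    simp only [bt, List.any_eq_true, Bool.and_eq_true]
    refine ⟨f i, hD i (by omega), chk_pre R f i (f i) i (hR i (by omega)), ?_⟩
    exact bt_pre D R f n hD hR r (i + 1) (by omega)

theorem bt_sound (D : ℕ → List ℕ) (R : ℕ → ℕ → ℕ → ℕ → Bool) (n : ℕ)
    (h : bt D R n 0 [] = false) (f : ℕ → ℕ)
    (hD : ∀ i < n, f i ∈ D i) (hR : ∀ i < n, ∀ j < i, R i (f i) j (f j) = true) : False := by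
  have := bt_pre D R f n hD hR n 0 (by omega)
  simp [pre, h] at this

/-- adjacency read from a list of neighbourhood bit masks -/
def adjB (L : List ℕ) (i j : ℕ) : Bool := (L.getD i 0).testBit j

/-- colouring constraint -/
def colR (L : List ℕ) (i a j b : ℕ) : Bool := !(adjB L i j) || a != b

theorem not_colorable {n k : ℕ} (G : SimpleGraph (Fin n)) (L : List ℕ)
    (hL : ∀ i j : Fin n, adjB L i j = true → G.Adj i j)
    (h : bt (fun _ => List.range k) (colR L) n 0 [] = false) : ¬ G.Colorable k := by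
  rintro ⟨c⟩
  refine bt_sound _ _ n h (fun i => if hi : i < n then (c ⟨i, hi⟩ : ℕ) else 0) ?_ ?_
  · intro i hi
    simp [hi]
  · intro i hi j hj
    have hj' : j < n := by omega
    simp only [hi, hj', dite_true, colR, Bool.or_eq_true, Bool.not_eq_true', bne_iff_ne]
    by_cases ha : adjB L i j = true
    · right
      have := c.valid (hL ⟨i, hi⟩ ⟨j, hj'⟩ ha)
      exact fun e => this (Fin.ext e)
    · left; simpa using ha

end Pool.Agent.H9
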