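import Mathlib

set_option autoImplicit false

namespace Pool.Agent.H9.Brauer
open Filter
open scoped Classical

theorem compact {κ : Type} [Finite κ] (P : (ℕ → κ) → ℕ → Prop)
    (hloc : ∀ χ χ' M, (∀ n ≤ M, χ n = χ' n) → P χ M → P χ' M)
    (hmono : ∀ χ M M', M ≤ M' → P χ M → P χ M') (h : ∀ χ, ∃ M, P χ M) : ∃ M, ∀ χ, P χ M := by
  by_contra hc
  push Not at hc
  choose f hf using hc
  have : ∀ n, ∃ c, ∀ᶠ M in (hyperfilter ℕ : Filter ℕ), f M n = c := by
    intro n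
    obtain ⟨c, hc⟩ := Ultrafilter.eq_pure_of_finite ((hyperfilter ℕ).map (fun M => f M n))
    refine ⟨c, ?_⟩
    have : {c} ∈ (hyperfilter ℕ).map (fun M => f M n) := by rw [hc]; simp
    exact this
  choose χ hχ using this
  obtain ⟨M, hM⟩ := h χ
  have h1 : ∀ᶠ K in (hyperfilter ℕ : Filter ℕ), ∀ n ∈ Finset.range (M + 1), f K n = χ n :=
    (eventually_all_finset _).2 fun n _ => hχ n
  have h2 : ∀ᶠ K in (hyperfilter ℕ : Filter ℕ), M ≤ K :=
    (Nat.hyperfilter_le_atTop) (eventually_ge_atTop M)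
  obtain ⟨K, k1, k2⟩ := (h1.and h2).exists
  exact hf K (hmono _ _ _ k2 (hloc χ _ M
    (fun n hn => (k1 n (Finset.mem_range.2 (by omega))).symm) hM))

def Sol {κ : Type} (χ : ℕ → κ) (M : ℕ) : Prop :=
  ∃ y u, 0 < y ∧ 0 < u ∧ y + 2 * u ≤ M ∧ χ y = χ u ∧ χ (y + 2 * u) = χ u

theorem brauer_aux {κ : Type} [Fintype κ] : ∀ (n : ℕ) (C : Finset κ), C.card = n →
    ∃ M, ∀ χ : ℕ → κ, (∀ j, 0 < j → j ≤ M → χ j ∈ C) → Sol χ M := by
  intro n
  induction n with
  | zero =>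
    intro C hC
    rw [Finset.card_eq_zero] at hC
    subst hC
    exact ⟨1, fun χ h => by simpa using h 1 one_pos le_rfl⟩
  | succ n ih =>
    intro C hC
    have : ∀ c, ∃ M, c ∈ C → ∀ χ : ℕ → κ, (∀ j, 0 < j → j ≤ M → χ j ∈ C.erase c) → Sol χ M := by
      intro c
      by_cases h : c ∈ C
      · obtain ⟨M, hM⟩ := ih (C.erase c) (by rw [Finset.card_erase_of_mem h, hC]; rfl)
        exact ⟨M, fun _ => hM⟩
      · exact ⟨0, fun k => absurd k h⟩
    choose m hm using this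
    refine compact (fun χ M => (∀ j, 0 < j → j ≤ M → χ j ∈ C) → Sol χ M) ?_ ?_ ?_
    · intro χ χ' M e h h'
      obtain ⟨y, u, a1, a2, a3, a4, a5⟩ := h fun j k1 k2 => (e j k2).symm ▸ h' j k1 k2
      exact ⟨y, u, a1, a2, a3, by rw [← e y (by omega), ← e u (by omega), a4],
        by rw [← e _ a3, ← e u (by omega), a5]⟩
    · intro χ M M' e h h'
      obtain ⟨y, u, a1, a2, a3, a4, a5⟩ := h fun j k1 k2 => h' j k1 (k2.trans e)
      exact ⟨y, u, a1, a2, a3.trans e, a4, a5⟩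
    · intro χ
      by_cases hall : ∀ j, 0 < j → χ j ∈ C
      swap
      · push Not at hall
        obtain ⟨j, k1, k2⟩ := hall
        exact ⟨j, fun h => absurd (h j k1 le_rfl) k2⟩
      obtain ⟨a, ha, b, c, h⟩ := Combinatorics.exists_mono_homothetic_copy
        (Finset.range (2 * Finset.univ.sup m + 2)) χ
      simp only [smul_eq_mul, Finset.mem_range] at h
      have h1 : χ (a + b) = c := by simpa using h 1 (by omega)
      have hc : c ∈ C := h1 ▸ hall _ (by omega)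
      have hs : m c ≤ Finset.univ.sup m := Finset.le_sup (Finset.mem_univ c)
      by_cases k : ∃ j, 0 < j ∧ j ≤ m c ∧ χ (a * j) = c
      · obtain ⟨j, k1, k2, k3⟩ := k
        refine ⟨_, fun _ => ⟨a + b, a * j, by omega, by positivity, le_rfl, by rw [h1, k3], ?_⟩⟩
        rw [k3, ← h (2 * j + 1) (by omega)]
        congr 1; ring
      · push Not at k
        obtain ⟨y, u, a1, a2, _, a4, a5⟩ := hm c hc (fun j => χ (a * j)) fun j k1 k2 =>
          Finset.mem_erase.2 ⟨k j k1 k2, hall _ (by positivity)⟩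
        refine ⟨_, fun _ => ⟨a * y, a * u, by positivity, by positivity, le_rfl, a4, ?_⟩⟩
        refine Eq.trans ?_ a5
        show χ _ = χ _
        congr 1; ring

theorem brauer {κ : Type} [Fintype κ] (χ : ℕ+ → κ) :
    ∃ y u : ℕ+, χ y = χ u ∧ χ (y + 2 * u) = χ u := by
  obtain ⟨M, hM⟩ := brauer_aux _ (Finset.univ : Finset κ) rfl
  obtain ⟨y, u, a1, a2, _, a4, a5⟩ := hM (fun n => χ n.toPNat') (fun _ _ _ => Finset.mem_univ _)
  refine ⟨y.toPNat', u.toPNat', a4, ?_⟩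
  refine Eq.trans ?_ a5
  show χ _ = χ _
  congr 1
  apply PNat.eq
  simp [Nat.toPNat'_coe, a1, a2]

attribute [local instance] Ultrafilter.mul Ultrafilter.semigroup

def S : Set (Ultrafilter ℕ+) := {U | ∀ A ∈ U, ∃ y u : ℕ+, y ∈ A ∧ u ∈ A ∧ y + 2 * u ∈ A}

theorem S_ne : S.Nonempty := by
  obtain ⟨U, hU⟩ := Ultrafilter.exists_ultrafilter_of_finite_inter_nonempty
    {B : Set ℕ+ | ¬ ∃ y u : ℕ+, y ∈ Bᶜ ∧ u ∈ Bᶜ ∧ y + 2 * u ∈ Bᶜ} (by
      intro T hT
      by_contra h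
      have : ∀ n : ℕ+, ∃ B : T, n ∉ B.1 := by
        intro n
        by_contra k
        push Not at k
        exact h ⟨n, fun B hB => k ⟨B, hB⟩⟩
      choose χ hχ using this
      obtain ⟨y, u, a, b⟩ := brauer χ
      exact hT (χ u).2 ⟨y, u, a ▸ hχ y, hχ u, b ▸ hχ _⟩)
  refine ⟨U, fun A hA => ?_⟩
  by_contra h
  have : Aᶜ ∈ U := hU (by simpa using h)
  exact (Ultrafilter.compl_mem_iff_notMem.1 this) hA

theorem S_closed : IsClosed S := by
  have : S = ⋂ A ∈ {A : Set ℕ+ | ¬ ∃ y u : ℕ+, y ∈ A ∧ u ∈ A ∧ y + 2 * u ∈ A}, {U | Aᶜ ∈ U} := by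
    ext U
    simp only [S, Set.mem_ofPred_eq, Set.mem_iInter, Ultrafilter.compl_mem_iff_notMem]
    exact forall_congr' fun A => ⟨fun h a b => a (h b), fun h a => by_contra fun b => h b a⟩
  rw [this]
  exact isClosed_biInter fun A _ => ultrafilter_isClosed_basic _

theorem S_mul : ∀ U ∈ S, ∀ V ∈ S, U * V ∈ S := by
  intro U _ V hV A hA
  obtain ⟨m, hm⟩ := ((Ultrafilter.eventually_mul U V (· ∈ A)).1 hA).exists
  obtain ⟨y, u, a, b, c⟩ := hV _ hm
  refine ⟨m * y, m * u, a, b, ?_⟩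
  have : m * y + 2 * (m * u) = m * (y + 2 * u) := by
    apply PNat.eq; push_cast; ring
  rw [this]; exact c

theorem main {κ : Type} [Finite κ] (χ : ℕ+ → κ) : ∃ y w z : ℕ+, χ y = χ z ∧ χ w = χ z ∧
    χ (z * w) = χ z ∧ χ (y + 2 * (z * w)) = χ z := by
  obtain ⟨U, hU, hi⟩ := exists_idempotent_in_compact_subsemigroup
    Ultrafilter.continuous_mul_left S S_ne S_closed.isCompact S_mul
  obtain ⟨c, hc⟩ := Ultrafilter.eq_pure_of_finite (U.map χ)
  have hA : ∀ᶠ n in (U : Filter ℕ+), χ n = c := by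
    have : {c} ∈ U.map χ := by rw [hc]; simp
    exact this
  have h2 := hA
  rw [← hi, Ultrafilter.eventually_mul] at h2
  obtain ⟨z, z1, z2⟩ := (hA.and h2).exists
  obtain ⟨y, u, a, b, d⟩ := hU _ (hA.and z2)
  refine ⟨z * y, u, z, a.2.trans z1.symm, b.1.trans z1.symm, b.2.trans z1.symm, ?_⟩
  have : z * y + 2 * (z * u) = z * (y + 2 * u) := by
    apply PNat.eq; push_cast; ring
  rw [this]; exact d.2.trans z1.symm

end Pool.Agent.H9.Brauer
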