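import Pool.Agent.H9.CRDefs

set_option autoImplicit false

namespace Pool.Agent.H9.CR

open Finset SimpleGraph

section basic
variable {V V' W W' : Type}

theorem FreeColorable.emb {H : SimpleGraph V} {H' : SimpleGraph V'} {F : SimpleGraph W} {k : ℕ}
    (h : FreeColorable H' F k) (e : H ↪g H') : FreeColorable H F k := by
  obtain ⟨c, hc⟩ := h
  exact ⟨fun v => c (e v), fun f => hc (e.comp f)⟩

theorem FreeColorable.mono [Nonempty W] {H : SimpleGraph V} {F : SimpleGraph W} {k l : ℕ}
    (h : FreeColorable H F k) (hkl : k ≤ l) : FreeColorable H F l := by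
  obtain ⟨c, hc⟩ := h
  refine ⟨fun v => Fin.castLE hkl (c v), fun f ⟨i, hi⟩ => hc f ?_⟩
  obtain ⟨x⟩ := ‹Nonempty W›
  exact ⟨c (f x), fun y => Fin.castLE_injective hkl ((hi y).trans (hi x).symm)⟩

theorem freeChi_eq [Nonempty W] {H : SimpleGraph V} {F : SimpleGraph W} {k : ℕ}
    (h1 : FreeColorable H F (k + 1)) (h2 : ¬ FreeColorable H F k) : freeChi H F = k + 1 := by
  apply le_antisymm (Nat.sInf_le h1)
  refine le_csInf ⟨k + 1, h1⟩ fun m hm => ?_
  by_contra hlt
  exact h2 (FreeColorable.mono hm (by omega))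

theorem relatedAt_of [Fintype V] [Nonempty W] [Nonempty W'] (H : SimpleGraph V)
    {F : SimpleGraph W} {G : SimpleGraph W'} {k : ℕ}
    (h1 : FreeColorable H F (k + 1)) (h2 : ¬ FreeColorable H F k)
    (h3 : FreeColorable H G (k + 1)) (h4 : ¬ FreeColorable H G k) : RelatedAt F G (k + 1) :=
  ⟨Fintype.card V, H.overFin rfl,
    freeChi_eq (h1.emb (H.overFinIso rfl).symm.toEmbedding)
      fun h => h2 (h.emb (H.overFinIso rfl).toEmbedding),
    freeChi_eq (h3.emb (H.overFinIso rfl).symm.toEmbedding)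
      fun h => h4 (h.emb (H.overFinIso rfl).toEmbedding)⟩

theorem FreeColorable.compl {H : SimpleGraph V} {F : SimpleGraph W} {k : ℕ}
    (h : FreeColorable H F k) : FreeColorable Hᶜ Fᶜ k := by
  obtain ⟨c, hc⟩ := h
  exact ⟨c, fun f => hc (Embedding.complEquiv.symm f)⟩

theorem freeColorable_compl {H : SimpleGraph V} {F : SimpleGraph W} {k : ℕ} :
    FreeColorable Hᶜ Fᶜ k ↔ FreeColorable H F k :=
  ⟨fun h => by simpa using h.compl, FreeColorable.compl⟩

theorem RelatedAt.compl {F : SimpleGraph W} {G : SimpleGraph W'} {n : ℕ} (h : RelatedAt F G n) :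
    RelatedAt Fᶜ Gᶜ n := by
  obtain ⟨m, H, h1, h2⟩ := h
  refine ⟨m, Hᶜ, ?_, ?_⟩
  · rw [← h1]; simp only [freeChi, freeColorable_compl]
  · rw [← h2]; simp only [freeChi, freeColorable_compl]

theorem RelatedAt.symm {F : SimpleGraph W} {G : SimpleGraph W'} {n : ℕ} (h : RelatedAt F G n) :
    RelatedAt G F n := by
  obtain ⟨m, H, h1, h2⟩ := h
  exact ⟨m, H, h2, h1⟩

theorem freeColorable_of_colorable {H : SimpleGraph V} {F : SimpleGraph W} {k : ℕ} {a b : W}
    (hab : F.Adj a b) (h : H.Colorable k) : FreeColorable H F k := by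
  obtain ⟨c⟩ := h
  refine ⟨c, fun f ⟨i, hi⟩ => ?_⟩
  exact c.valid (f.map_adj_iff.2 hab) ((hi a).trans (hi b).symm)

theorem FreeColorable.sum [Nonempty W] {H : SimpleGraph V} {H' : SimpleGraph V'}
    {F : SimpleGraph W} {k : ℕ} (hF : F.Preconnected)
    (h : FreeColorable H F k) (h' : FreeColorable H' F k) : FreeColorable (H ⊕g H') F k := by
  obtain ⟨c, hc⟩ := h
  obtain ⟨c', hc'⟩ := h'
  refine ⟨Sum.elim c c', fun f ⟨i, hi⟩ => ?_⟩
  obtain ⟨x0⟩ := ‹Nonempty W›
  have hr : ∀ x y, (H ⊕g H').Reachable (f x) (f y) := fun x y => (hF x y).map f.toHom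
  cases h0 : f x0 with
  | inl v0 =>
    have : ∀ x, ∃ v, f x = .inl v := by
      intro x
      cases hx : f x with
      | inl v => exact ⟨v, rfl⟩
      | inr v => exact absurd (h0 ▸ hx ▸ hr x0 x) (not_reachable_sum_inl_inr _ _)
    choose g hg using this
    refine hc ⟨⟨g, fun x y hxy => f.injective (by rw [hg, hg, hxy])⟩, ?_⟩ ⟨i, fun x => ?_⟩
    · intro x y
      rw [← f.map_adj_iff, hg, hg]; simp
    · have := hi x
      rw [hg] at this
      exact this
  | inr v0 =>
    have : ∀ x, ∃ v, f x = .inr v := by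
      intro x
      cases hx : f x with
      | inr v => exact ⟨v, rfl⟩
      | inl v => exact absurd (h0 ▸ hx ▸ hr x x0) (not_reachable_sum_inl_inr _ _)
    choose g hg using this
    refine hc' ⟨⟨g, fun x y hxy => f.injective (by rw [hg, hg, hxy])⟩, ?_⟩ ⟨i, fun x => ?_⟩
    · intro x y
      rw [← f.map_adj_iff, hg, hg]; simp
    · have := hi x
      rw [hg] at this
      exact this

/-- an induced subgraph needing exactly k + 1 classes -/
theorem exists_exact [Fintype V] [Nontrivial W] (H : SimpleGraph V) (F : SimpleGraph W) (k : ℕ)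
    (h : ¬ FreeColorable H F k) : ∃ s : Finset V,
      FreeColorable (H.induce (s : Set V)) F (k + 1) ∧ ¬ FreeColorable (H.induce (s : Set V)) F k := by
  classical
  have hne : (univ.filter fun s : Finset V => ¬ FreeColorable (H.induce (s : Set V)) F k).Nonempty := by
    refine ⟨univ, mem_filter.2 ⟨mem_univ _, fun h' => h (h'.emb ?_)⟩⟩
    exact ⟨⟨fun v => ⟨v, by simp⟩, fun a b hab => by simpa using hab⟩, by simp⟩
  obtain ⟨s, hs, hmin⟩ := exists_min_image _ Finset.card hne
  have hs' := (mem_filter.1 hs).2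
  refine ⟨s, ?_, hs'⟩
  rcases s.eq_empty_or_nonempty with rfl | ⟨v, hv⟩
  · refine ⟨fun _ => 0, fun f _ => ?_⟩
    obtain ⟨x⟩ := (inferInstance : Nonempty W)
    simpa using (f x).2
  · have : FreeColorable (H.induce ((s.erase v : Finset V) : Set V)) F k := by
      by_contra hc
      have := hmin (s.erase v) (mem_filter.2 ⟨mem_univ _, hc⟩)
      rw [card_erase_of_mem hv] at this
      have := card_pos.2 ⟨v, hv⟩
      omega
    obtain ⟨c, hc⟩ := this
    refine ⟨fun x => if hx : x.1 = v then Fin.last k else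
      Fin.castSucc (c ⟨x.1, by simpa [hx] using x.2⟩), fun f ⟨i, hi⟩ => ?_⟩
    have hnv : ∀ x, (f x).1 ≠ v := by
      intro x hx
      obtain ⟨y, hy⟩ := exists_ne x
      have hy' : (f y).1 ≠ v := fun e => hy (f.injective (Subtype.ext (e.trans hx.symm)))
      have e1 := hi x
      have e2 := hi y
      simp only [hx, hy', dite_true, dite_false] at e1 e2
      exact (Fin.castSucc_lt_last _).ne (e2.trans e1.symm)
    obtain ⟨x0⟩ := (inferInstance : Nonempty W)
    refine hc ⟨⟨fun x => ⟨(f x).1, by simpa [hnv x] using (f x).2⟩, fun x y hxy =>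
      f.injective (Subtype.ext (by simpa using hxy))⟩, ?_⟩ ⟨c ⟨(f x0).1, by simpa [hnv x0] using (f x0).2⟩, fun x => ?_⟩
    · intro x y
      rw [← f.map_adj_iff]; simp
    · have e1 := hi x
      have e2 := hi x0
      simp only [hnv, dite_false] at e1 e2
      exact Fin.castSucc_injective _ (e1.trans e2.symm)

end basic

theorem major {α : Type} [Fintype α] {r : ℕ} (hr : 0 < r) (c : α → Fin r) :
    ∃ i, Fintype.card α ≤ r * (univ.filter fun x => c x = i).card := by
  have : Nonempty (Fin r) := ⟨⟨0, hr⟩⟩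
  have h := card_eq_sum_card_fiberwise (s := (univ : Finset α)) (t := (univ : Finset (Fin r)))
    (f := c) (fun _ _ => mem_univ _)
  obtain ⟨i, -, hi⟩ := exists_le_of_sum_le (s := (univ : Finset (Fin r))) univ_nonempty
    (f := fun _ => Fintype.card α) (g := fun i => r * (univ.filter fun x => c x = i).card)
    (by rw [← mul_sum, ← h]; simp)
  exact ⟨i, hi⟩

theorem exists_w0 (r g : ℕ) : ∃ w0 : ℕ, ∀ w, w0 ≤ w → r * (g * w ^ g) < 2 ^ w := by
  have h := tendsto_pow_const_div_const_pow_of_one_lt g (r := 2) (by norm_num)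
  have h2 := h.const_mul ((r * g : ℕ) : ℝ)
  rw [mul_zero] at h2
  obtain ⟨w0, hw⟩ := Filter.eventually_atTop.1 (h2.eventually (gt_mem_nhds one_pos))
  refine ⟨w0, fun w hw0 => ?_⟩
  have := hw w hw0
  rw [← mul_div_assoc, div_lt_one (by positivity)] at this
  rw [← mul_assoc]
  exact_mod_cast this

theorem exists_shatter {V : Type} [Fintype V] [DecidableEq V] (r g : ℕ) (A : Finset V)
    (hA0 : 1 ≤ A.card) (hA : r * (g * A.card ^ g) < 2 ^ A.card) (𝒜 : Finset (Finset V))
    (h : 2 ^ Fintype.card V ≤ r * 𝒜.card) : ∃ T ⊆ A, T.card = g ∧ 𝒜.Shatters T := by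
  by_contra hc
  push Not at hc
  set ℬ := 𝒜.image fun u => A ∩ u with hℬ
  have h1 : 𝒜.card ≤ 2 ^ (Fintype.card V - A.card) * ℬ.card := by
    refine card_le_mul_card_image _ _ fun b _ => ?_
    rw [← card_compl, ← card_powerset]
    refine card_le_card_of_injOn (fun u => u \ A) (fun u _ => ?_) fun u hu u' hu' e => ?_
    · simp only [coe_powerset, Set.mem_preimage, Set.mem_powerset_iff]
      intro x hx
      simp at hx ⊢
      exact hx.2
    · simp only [coe_filter, Set.mem_ofPred_eq] at hu hu'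
      rw [← sdiff_union_inter u A, ← sdiff_union_inter u' A, inter_comm u, inter_comm u', hu.2,
        hu'.2]
      exact congrArg (· ∪ b) e
  have h2 : ℬ.shatterer ⊆ (range g).biUnion fun i => A.powersetCard i := by
    intro T hT
    rw [mem_shatterer] at hT
    have hTA : T ⊆ A := by
      obtain ⟨t, ht, hTt⟩ := hT.exists_superset
      obtain ⟨u, -, rfl⟩ := mem_image.1 ht
      exact hTt.trans inter_subset_left
    have hT' : 𝒜.Shatters T := by
      intro t ht
      obtain ⟨u, hu, e⟩ := hT ht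
      obtain ⟨u', hu', rfl⟩ := mem_image.1 hu
      refine ⟨u', hu', ?_⟩
      rw [← e, ← inter_assoc, inter_eq_left.2 hTA]
    simp only [mem_biUnion, mem_range, mem_powersetCard]
    refine ⟨T.card, ?_, hTA, rfl⟩
    by_contra hge
    obtain ⟨T', hT'T, hc'⟩ := exists_subset_card_eq (s := T) (n := g) (by omega)
    exact hc T' (hT'T.trans hTA) hc' (hT'.mono_right hT'T)
  have h3 : ℬ.card ≤ g * A.card ^ g := by
    refine (card_le_card_shatterer ℬ).trans ((card_le_card h2).trans (card_biUnion_le.trans ?_))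
    calc ∑ i ∈ range g, (A.powersetCard i).card ≤ ∑ _i ∈ range g, A.card ^ g := by
          refine sum_le_sum fun i hi => ?_
          rw [card_powersetCard]
          exact (Nat.choose_le_pow _ _).trans
            (Nat.pow_le_pow_right hA0 (mem_range.1 hi).le)
      _ = g * A.card ^ g := by simp
  have h4 : A.card ≤ Fintype.card V := card_le_univ A
  have h5 : 2 ^ Fintype.card V = 2 ^ (Fintype.card V - A.card) * 2 ^ A.card := by
    rw [← pow_add]; congr 1; omega
  have h6 : r * 𝒜.card ≤ 2 ^ (Fintype.card V - A.card) * (r * (g * A.card ^ g)) := by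
    calc r * 𝒜.card ≤ r * (2 ^ (Fintype.card V - A.card) * (g * A.card ^ g)) := by
          gcongr
          exact h1.trans (by gcongr)
      _ = _ := by ring
  have h7 : 2 ^ (Fintype.card V - A.card) * (r * (g * A.card ^ g)) <
      2 ^ (Fintype.card V - A.card) * 2 ^ A.card := by gcongr
  omega

/-- add one new vertex for every subset -/
def ext {V : Type} (H : SimpleGraph V) : SimpleGraph (V ⊕ Finset V) where
  Adj
    | .inl a, .inl b => H.Adj a b
    | .inl a, .inr S => a ∈ S
    | .inr S, .inl a => a ∈ S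
    | .inr _, .inr _ => False
  symm := ⟨by rintro (a | a) (b | b) h <;> first | exact h | exact h.symm⟩
  loopless := ⟨by rintro (a | a) h; exacts [H.irrefl h, h]⟩

theorem embed_ext {V W : Type} [DecidableEq V] [Fintype W] (G : SimpleGraph W)
    (hG : G.Colorable 2) (H : SimpleGraph V) (T : Finset V) (hT : T.card = Fintype.card W)
    (hind : ∀ a ∈ T, ∀ b ∈ T, ¬ H.Adj a b) (𝒜 : Finset (Finset V)) (hs : 𝒜.Shatters T) :
    ∃ f : G ↪g ext H, ∀ x, (∃ a ∈ T, f x = .inl a) ∨ ∃ S ∈ 𝒜, f x = .inr S := by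
  classical
  obtain ⟨col⟩ := hG
  obtain ⟨e0⟩ : Nonempty (W ≃ T) := Fintype.card_eq.1 (by simp [hT])
  let e : W → V := fun x => (e0 x).1
  have he : Function.Injective e := fun x y h => e0.injective (Subtype.ext h)
  have heT : ∀ x, e x ∈ T := fun x => (e0 x).2
  have : ∀ y : W, ∃ u ∈ 𝒜, T ∩ u = (univ.filter fun x => G.Adj x y ∨ x = y).image e := by
    intro y
    apply hs
    intro v hv
    obtain ⟨x, -, rfl⟩ := mem_image.1 hv
    exact heT x
  choose u hu hu' using this
  have key : ∀ x y, e x ∈ u y ↔ G.Adj x y ∨ x = y := by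
    intro x y
    have : e x ∈ T ∩ u y ↔ G.Adj x y ∨ x = y := by
      rw [hu', he.mem_finset_image]; simp
    rw [← this]; simp [heT]
  have two : ∀ a b : Fin 2, a ≠ 0 → b ≠ 0 → a = b := by decide
  refine ⟨⟨⟨fun x => if col x = 0 then .inl (e x) else .inr (u x), fun x y h => ?_⟩, ?_⟩, ?_⟩
  · by_cases hx : col x = 0 <;> by_cases hy : col y = 0 <;>
      simp only [hx, hy, if_true, if_false, Sum.inl.injEq, Sum.inr.injEq, reduceCtorEq] at h
    · exact he h
    · rcases (key x y).1 (h ▸ (key x x).2 (Or.inr rfl)) with h' | h'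
      · exact absurd (two _ _ hx hy) (col.valid h')
      · exact h'
  · intro x y
    by_cases hx : col x = 0 <;> by_cases hy : col y = 0 <;>
      simp only [Function.Embedding.coeFn_mk, hx, hy, if_true, if_false, ext]
    · exact ⟨fun h => absurd h (hind _ (heT x) _ (heT y)),
        fun h => absurd (hx.trans hy.symm) (col.valid h)⟩
    · rw [key]
      exact ⟨fun h => h.resolve_right fun e => hy (e ▸ hx), Or.inl⟩
    · rw [key, G.adj_comm]
      exact ⟨fun h => h.resolve_right fun e => hx (e ▸ hy), Or.inl⟩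
    · exact ⟨False.elim, fun h => absurd (two _ _ hx hy) (col.valid h)⟩
  · intro x
    by_cases hx : col x = 0
    · exact Or.inl ⟨e x, heT x, if_pos hx⟩
    · exact Or.inr ⟨u x, hu x, if_neg hx⟩

theorem tower {W : Type} [Fintype W] (G : SimpleGraph W) (hG : G.Colorable 2) (r w0 : ℕ)
    (hr : 0 < r) (hw1 : 1 ≤ w0)
    (hw : ∀ w, w0 ≤ w → r * (Fintype.card W * w ^ Fintype.card W) < 2 ^ w) (l : ℕ) :
    ∃ (V : Type) (_ : Fintype V) (H : SimpleGraph V), r * w0 ≤ Fintype.card V ∧
      H.Colorable (l + 1) ∧ ∀ c : V → Fin r, (∀ f : G ↪g H, ¬ ∃ i, ∀ x, c (f x) = i) →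
        ∃ C : Finset (Fin r), C.card = l + 1 ∧ ∀ i ∈ C, ∃ A : Finset V, w0 ≤ A.card ∧
          (∀ a ∈ A, c a = i) ∧ ∀ a ∈ A, ∀ b ∈ A, ¬ H.Adj a b := by
  classical
  induction l with
  | zero =>
    refine ⟨Fin (r * w0), inferInstance, ⊥, by simp, ⟨⟨fun _ => 0, by simp⟩⟩, fun c _ => ?_⟩
    obtain ⟨i, hi⟩ := major hr c
    refine ⟨{i}, by simp, fun j hj => ⟨univ.filter fun x => c x = i, ?_, ?_, by simp⟩⟩
    · rw [Fintype.card_fin] at hi
      exact Nat.le_of_mul_le_mul_left hi hr
    · intro a ha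
      rw [mem_singleton.1 hj]
      exact (mem_filter.1 ha).2
  | succ l ih =>
    obtain ⟨V, hV, H, hN, ⟨col⟩, hH⟩ := ih
    refine ⟨V ⊕ Finset V, inferInstance, ext H,
      by rw [Fintype.card_sum]; exact hN.trans (Nat.le_add_right _ _), ?_, fun c hc => ?_⟩
    · refine ⟨Coloring.mk (Sum.elim (fun v => Fin.castSucc (col v)) fun _ => Fin.last _) ?_⟩
      rintro (a | a) (b | b) h
      · exact fun e => col.valid h (Fin.castSucc_injective _ e)
      · exact (Fin.castSucc_lt_last _).ne
      · exact (Fin.castSucc_lt_last _).ne'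
      · exact h.elim
    · let ι : H ↪g ext H := ⟨Function.Embedding.inl, Iff.rfl⟩
      obtain ⟨C, hC, hCA⟩ := hH (fun v => c (.inl v)) fun f => hc (ι.comp f)
      obtain ⟨j, hj⟩ := major hr fun S : Finset V => c (.inr S)
      rw [Fintype.card_finset] at hj
      have hjC : j ∉ C := by
        intro hjC
        obtain ⟨A, hA, hAc, hAi⟩ := hCA j hjC
        obtain ⟨T, hTA, hT, hs⟩ := exists_shatter r (Fintype.card W) A (by omega) (hw _ hA) _ hj
        obtain ⟨f, hf⟩ := embed_ext G hG H T hT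
          (fun a ha b hb => hAi a (hTA ha) b (hTA hb)) _ hs
        refine hc f ⟨j, fun x => ?_⟩
        rcases hf x with ⟨a, ha, e⟩ | ⟨S, hS, e⟩
        · rw [e]; exact hAc a (hTA ha)
        · rw [e]; exact (mem_filter.1 hS).2
      refine ⟨insert j C, by rw [card_insert_of_notMem hjC, hC], fun i hi => ?_⟩
      rcases mem_insert.1 hi with rfl | hi
      · refine ⟨(univ.filter fun S : Finset V => c (.inr S) = i).map Function.Embedding.inr,
          ?_, ?_, ?_⟩
        · rw [card_map]
          have : Fintype.card V < 2 ^ Fintype.card V := Nat.lt_two_pow_self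
          exact Nat.le_of_mul_le_mul_left (by omega) hr
        · intro a ha
          obtain ⟨S, hS, rfl⟩ := mem_map.1 ha
          exact (mem_filter.1 hS).2
        · intro a ha b hb
          obtain ⟨S, hS, rfl⟩ := mem_map.1 ha
          obtain ⟨S', hS', rfl⟩ := mem_map.1 hb
          exact fun h => h
      · obtain ⟨A, hA, hAc, hAi⟩ := hCA i hi
        refine ⟨A.map Function.Embedding.inl, by rwa [card_map], ?_, ?_⟩
        · intro a ha
          obtain ⟨v, hv, rfl⟩ := mem_map.1 ha
          exact hAc v hv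
        · intro a ha b hb
          obtain ⟨v, hv, rfl⟩ := mem_map.1 ha
          obtain ⟨v', hv', rfl⟩ := mem_map.1 hb
          exact hAi v hv v' hv'

theorem exists_W1 {W : Type} [Fintype W] (G : SimpleGraph W) (hG : G.Colorable 2) (k : ℕ) :
    ∃ (V : Type) (_ : Fintype V) (H : SimpleGraph V), H.Colorable (k + 1) ∧
      ¬ FreeColorable H G k := by
  rcases Nat.eq_zero_or_pos k with rfl | hk
  · exact ⟨Unit, inferInstance, ⊥, ⟨⟨fun _ => 0, by simp⟩⟩, fun ⟨c, _⟩ => (c ()).elim0⟩
  · obtain ⟨w0, hw⟩ := exists_w0 k (Fintype.card W)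
    obtain ⟨V, hV, H, -, hcol, hH⟩ := tower G hG k (w0 + 1) hk (by omega)
      (fun w h => hw w (by omega)) k
    refine ⟨V, hV, H, hcol, fun ⟨c, hc⟩ => ?_⟩
    obtain ⟨C, hC, -⟩ := hH c hc
    have := card_le_univ C
    simp at this
    omega

end Pool.Agent.H9.CR
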