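import Pool.Agent.H9.CR1

set_option autoImplicit false

namespace Pool.Agent.H9.CR

open Finset SimpleGraph

/-- disjoint cliques -/
def cl (t s : ℕ) : SimpleGraph (Fin t × Fin s) where
  Adj x y := x.1 = y.1 ∧ x.2 ≠ y.2
  symm := ⟨fun _ _ h => ⟨h.1.symm, h.2.symm⟩⟩
  loopless := ⟨fun _ h => h.2 rfl⟩

theorem fib_small (a n : ℕ) (ha : 0 < a) {W : Type} [Fintype W] (hW : Fintype.card W = a + 1)
    (g : W → Fin (n * a)) (hg : Function.Injective g) (i : ℕ) (h : ∀ x, (g x : ℕ) / a = i) :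
    False := by
  have : Function.Injective fun x => (⟨(g x : ℕ) % a, Nat.mod_lt _ ha⟩ : Fin a) := by
    intro x y hxy
    apply hg
    apply Fin.ext
    simp only [Fin.mk.injEq] at hxy
    rw [← Nat.div_add_mod (g x) a, ← Nat.div_add_mod (g y) a, h x, h y, hxy]
  have := Fintype.card_le_of_injective _ this
  simp at this
  omega

theorem fib_big (a k : ℕ) (ha : 0 < a) {W : Type} [Fintype W] (hW : Fintype.card W = a + 1)
    (c : Fin ((k + 1) * a) → Fin k) :
    ∃ (g : W → Fin ((k + 1) * a)) (i : Fin k), Function.Injective g ∧ ∀ x, c (g x) = i := by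
  classical
  obtain ⟨i, hi⟩ := Fintype.exists_lt_card_fiber_of_mul_lt_card c (n := a)
    (by simp only [Fintype.card_fin]; nlinarith)
  obtain ⟨e⟩ : Nonempty (W ↪ (univ.filter fun x => c x = i : Finset _)) :=
    Function.Embedding.nonempty_of_card_le (by rw [Fintype.card_coe]; omega)
  exact ⟨fun x => (e x).1, i, fun x y h => e.injective (Subtype.ext h),
    fun x => (mem_filter.1 (e x).2).2⟩

theorem div_lt' {n a : ℕ} (x : Fin (n * a)) : (x : ℕ) / a < n :=
  Nat.div_lt_of_lt_mul (x.2.trans_eq (mul_comm _ _))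

theorem bot_top {W W' : Type} [Fintype W] [Fintype W'] (hW : 2 ≤ Fintype.card W)
    (hW' : 2 ≤ Fintype.card W') : Related (⊥ : SimpleGraph W) (⊤ : SimpleGraph W') := by
  intro n hn
  obtain ⟨k, rfl⟩ : ∃ k, n = k + 1 := ⟨n - 1, by omega⟩
  obtain ⟨a, ha⟩ : ∃ a, Fintype.card W = a + 1 := ⟨Fintype.card W - 1, by omega⟩
  obtain ⟨b, hb⟩ : ∃ b, Fintype.card W' = b + 1 := ⟨Fintype.card W' - 1, by omega⟩
  have : Nonempty W := Fintype.card_pos_iff.1 (by omega)
  have : Nonempty W' := Fintype.card_pos_iff.1 (by omega)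
  have ha0 : 0 < a := by omega
  have hb0 : 0 < b := by omega
  refine relatedAt_of (cl ((k + 1) * a) ((k + 1) * b)) ?_ ?_ ?_ ?_
  · refine ⟨fun x => ⟨_, div_lt' x.1⟩, fun f ⟨i, hi⟩ => ?_⟩
    refine fib_small a (k + 1) ha0 ha (fun x => (f x).1) (fun x y h => ?_) i
      fun x => congrArg Fin.val (hi x)
    by_contra hne
    have h2 : (f x).2 ≠ (f y).2 := fun e => hne (f.injective (Prod.ext h e))
    exact (f.map_adj_iff.1 ⟨h, h2⟩ : (⊥ : SimpleGraph W).Adj x y)
  · rintro ⟨c, hc⟩
    obtain ⟨g, i, hg, hi⟩ := fib_big a k ha0 ha fun x => c (x, ⟨0, by positivity⟩)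
    refine hc ⟨⟨fun x => (g x, ⟨0, by positivity⟩), fun x y h => hg (congrArg Prod.fst h)⟩, ?_⟩
      ⟨i, hi⟩
    intro x y
    simp [cl]
  · refine ⟨fun x => ⟨_, div_lt' x.2⟩, fun f ⟨i, hi⟩ => ?_⟩
    refine fib_small b (k + 1) hb0 hb (fun x => (f x).2) (fun x y h => ?_) i
      fun x => congrArg Fin.val (hi x)
    by_contra hne
    exact (f.map_adj_iff.2 (show (⊤ : SimpleGraph W').Adj x y from hne)).2 h
  · rintro ⟨c, hc⟩
    obtain ⟨g, i, hg, hi⟩ := fib_big b k hb0 hb fun x => c (⟨0, by positivity⟩, x)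
    refine hc ⟨⟨fun x => (⟨0, by positivity⟩, g x), fun x y h => hg (congrArg Prod.snd h)⟩, ?_⟩
      ⟨i, hi⟩
    intro x y
    simp [cl, hg.eq_iff]

theorem freeChi_top_two {V : Type} [Finite V] (H : SimpleGraph V) (n : ℕ)
    (h : freeChi H (⊤ : SimpleGraph (Fin 2)) = n) : H.chromaticNumber = n := by
  have e : ∀ k, FreeColorable H (⊤ : SimpleGraph (Fin 2)) k ↔ H.Colorable k := by
    intro k
    refine ⟨fun ⟨c, hc⟩ => ⟨Coloring.mk c fun {v w} hvw e => ?_⟩,
      freeColorable_of_colorable (a := 0) (b := 1) (by decide)⟩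
    refine hc ⟨⟨![v, w], ?_⟩, ?_⟩ ⟨c w, ?_⟩
    · intro x y hxy
      fin_cases x <;> fin_cases y <;> simp_all
    · intro x y
      fin_cases x <;> fin_cases y <;> simp [hvw, hvw.symm]
    · intro x
      fin_cases x <;> simp [e]
  cases nonempty_fintype V
  rw [(H.colorable_of_fintype).chromaticNumber_eq_sInf, ← h]
  simp only [freeChi, e]

theorem bip_related {W : Type} [Fintype W] (G : SimpleGraph W) (hW : 2 ≤ Fintype.card W)
    (hG : G.Colorable 2) : Related G (⊤ : SimpleGraph (Fin 2)) := by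
  by_cases h : G = ⊥
  · rw [h]; exact bot_top hW (by simp)
  · intro n hn
    obtain ⟨k, rfl⟩ : ∃ k, n = k + 1 := ⟨n - 1, by omega⟩
    obtain ⟨a, b, hab⟩ := ne_bot_iff_exists_adj.1 h
    have : Nonempty W := ⟨a⟩
    obtain ⟨V, hV, H, h1, h2⟩ := exists_W1 G hG k
    refine relatedAt_of H (freeColorable_of_colorable hab h1) h2
      (freeColorable_of_colorable (a := 0) (b := 1) (by decide) h1) fun ⟨c, hc⟩ => h2 ⟨c, ?_⟩
    rintro f ⟨i, hi⟩
    refine hc (f.comp ⟨⟨![a, b], ?_⟩, ?_⟩) ⟨i, fun x => hi _⟩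
    · intro x y hxy
      have := hab.ne
      fin_cases x <;> fin_cases y <;> simp_all
    · intro x y
      fin_cases x <;> fin_cases y <;> simp [hab, hab.symm]

/-- lexicographic product -/
def lex {W V : Type} (F : SimpleGraph W) (L : SimpleGraph V) : SimpleGraph (W × V) where
  Adj x y := F.Adj x.1 y.1 ∨ (x.1 = y.1 ∧ L.Adj x.2 y.2)
  symm := ⟨fun _ _ h => h.imp (fun h => h.symm) fun h => ⟨h.1.symm, h.2.symm⟩⟩
  loopless := ⟨fun _ h => h.elim F.irrefl fun h => L.irrefl h.2⟩

theorem path_prime {W : Type} (m : ℕ) (p : Fin (m + 4) → W)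
    (hp : ∀ x y z, p x = p y → p z ≠ p x → (pathGraph (m + 4)).Adj z x →
      (pathGraph (m + 4)).Adj z y) : Function.Injective p ∨ ∀ x y, p x = p y := by
  by_contra hc
  push Not at hc
  obtain ⟨h1, h2⟩ := hc
  obtain ⟨x, y, hxy, hne⟩ : ∃ x y, p x = p y ∧ x ≠ y := by
    by_contra h; push Not at h; exact h1 fun x y e => h x y e
  have hz : ∃ z u, p z ≠ p x ∧ p u = p x ∧ (pathGraph (m + 4)).Adj z u := by
    by_contra h
    push Not at h
    have : ∀ z, p z = p x := by
      intro z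
      obtain ⟨w⟩ := pathGraph_preconnected (m + 4) z x
      induction w with
      | nil => rfl
      | @cons a b c hab w ih =>
        by_contra ha
        exact h a b ha (ih hxy hne h) hab
    obtain ⟨a, b, hab⟩ := h2
    exact hab ((this a).trans (this b).symm)
  obtain ⟨z, u, hz, hu, hzu⟩ := hz
  have all : ∀ v, p v = p x → (pathGraph (m + 4)).Adj z v := fun v hv =>
    hp u v z (hu.trans hv.symm) (hu ▸ hz) hzu
  have hx := all x rfl
  have hy := all y hxy.symm
  have hne' : (x : ℕ) ≠ y := fun e => hne (Fin.ext e)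
  rw [pathGraph_adj] at hx hy
  have fin : ∀ t : Fin (m + 4), ((t : ℕ) = z + 2 ∨ (t : ℕ) + 2 = z) → False := by
    intro t ht
    have htx : p t ≠ p x := by
      intro e
      have := all t e
      rw [pathGraph_adj] at this
      omega
    have a1 := hp x y t hxy htx
    have a2 := hp y x t hxy.symm (hxy ▸ htx)
    rw [pathGraph_adj, pathGraph_adj] at a1 a2
    omega
  have := x.2
  have := y.2
  by_cases hz2 : (z : ℕ) + 2 < m + 4
  · exact fin ⟨z + 2, hz2⟩ (Or.inl rfl)
  · exact fin ⟨z - 2, by omega⟩ (Or.inr (by simp; omega))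

theorem lex_pow {W : Type} [Fintype W] (F : SimpleGraph W) (m : ℕ)
    (hm : Fintype.card W < m + 4) (k : ℕ) :
    ∃ (V : Type) (_ : Fintype V) (L : SimpleGraph V), Nonempty V ∧
      IsEmpty (pathGraph (m + 4) ↪g L) ∧ ∀ (c : V → ℕ) (C : Finset ℕ), C.card = k →
        (∀ v, c v ∈ C) → Nonempty W → ∃ f : F ↪g L, ∃ i, ∀ x, c (f x) = i := by
  classical
  by_cases hW : IsEmpty W
  · refine ⟨Unit, inferInstance, ⊥, inferInstance, ⟨fun f => ?_⟩, fun _ _ _ _ h => ?_⟩
    · have := Fintype.card_le_of_injective _ f.injective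
      simp at this
    · exact absurd h (by simpa using hW)
  rw [not_isEmpty_iff] at hW
  induction k with
  | zero =>
    refine ⟨Unit, inferInstance, ⊥, inferInstance, ⟨fun f => ?_⟩, fun c C hC h _ => ?_⟩
    · have := Fintype.card_le_of_injective _ f.injective
      simp at this
    · rw [card_eq_zero] at hC
      simpa [hC] using h ()
  | succ k ih =>
    obtain ⟨V, hV, L, hne, hP, hL⟩ := ih
    refine ⟨W × V, inferInstance, lex F L, inferInstance, ⟨fun f => ?_⟩, fun c C hC h _ => ?_⟩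
    · rcases path_prime m (fun x => (f x).1) (fun x y z hxy hz hzx => by
        rw [← f.map_adj_iff] at hzx ⊢
        rcases hzx with h | h
        · exact Or.inl (hxy ▸ h)
        · exact absurd h.1 hz) with h | h
      · have := Fintype.card_le_of_injective _ h
        simp at this
        omega
      · refine hP.false ⟨⟨fun x => (f x).2, fun x y e => f.injective (Prod.ext (h x y) e)⟩, ?_⟩
        intro x y
        rw [← f.map_adj_iff]
        have : (f x).1 = (f y).1 := h x y
        show L.Adj (f x).2 (f y).2 ↔ F.Adj (f x).1 (f y).1 ∨ (f x).1 = (f y).1 ∧ L.Adj (f x).2 (f y).2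
        rw [this]
        simp
    · obtain ⟨i, hi⟩ : C.Nonempty := card_pos.1 (by omega)
      by_cases hall : ∀ a, ∃ v, c (a, v) = i
      · choose g hg using hall
        refine ⟨⟨⟨fun a => (a, g a), fun a b e => congrArg Prod.fst e⟩, ?_⟩, i, hg⟩
        intro a b
        simp only [Function.Embedding.coeFn_mk, lex]
        exact ⟨fun h => h.elim id fun h => absurd (h.1 ▸ h.2) L.irrefl, Or.inl⟩
      · push Not at hall
        obtain ⟨a, ha⟩ := hall
        obtain ⟨f, j, hj⟩ := hL (fun v => c (a, v)) (C.erase i)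
          (by rw [card_erase_of_mem hi, hC]; rfl) (fun v => mem_erase.2 ⟨ha v, h _⟩) hW
        refine ⟨⟨⟨fun x => (a, f x), fun x y e => f.injective (congrArg Prod.snd e)⟩, ?_⟩, j, hj⟩
        intro x y
        simp [lex]

theorem exists_W2 {W : Type} [Fintype W] [Nontrivial W] (F : SimpleGraph W) (m : ℕ)
    (hm : Fintype.card W < m + 4) (k : ℕ) :
    ∃ (V : Type) (_ : Fintype V) (L : SimpleGraph V), FreeColorable L F (k + 1) ∧
      ¬ FreeColorable L F k ∧ FreeColorable L (pathGraph (m + 4)) (k + 1) := by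
  obtain ⟨V, hV, L, -, hP, hL⟩ := lex_pow F m hm k
  have : ¬ FreeColorable L F k := by
    rintro ⟨c, hc⟩
    obtain ⟨f, i, hi⟩ := hL (fun v => c v) (range k) (by simp) (fun v => by simp) inferInstance
    obtain ⟨x⟩ := (inferInstance : Nonempty W)
    exact hc f ⟨c (f x), fun y => Fin.ext ((hi y).trans (hi x).symm)⟩
  obtain ⟨s, h1, h2⟩ := exists_exact L F k this
  refine ⟨s, inferInstance, _, h1, h2, ?_⟩
  exact FreeColorable.emb ⟨fun _ => 0, fun f _ => hP.false f⟩ (Embedding.induce _)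

theorem path_bip (n : ℕ) : (pathGraph n).Colorable 2 := by
  refine ⟨Coloring.mk (fun x => ⟨(x : ℕ) % 2, Nat.mod_lt _ (by norm_num)⟩) ?_⟩
  intro v w h e
  rw [pathGraph_adj] at h
  simp only [Fin.mk.injEq] at e
  omega

theorem path_compl (m : ℕ) : (pathGraph (m + 4))ᶜ.Preconnected := by
  have adj : ∀ x y : Fin (m + 4), (x : ℕ) + 2 ≤ y → (pathGraph (m + 4))ᶜ.Reachable x y := by
    intro x y h
    apply Adj.reachable
    rw [compl_adj, pathGraph_adj]
    exact ⟨fun e => by rw [e] at h; omega, by omega⟩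
  have h0 : ∀ y : Fin (m + 4), (pathGraph (m + 4))ᶜ.Reachable ⟨0, by omega⟩ y := by
    intro y
    by_cases h : 2 ≤ (y : ℕ)
    · exact adj _ _ (by simpa using h)
    · by_cases h' : (y : ℕ) = 0
      · rw [show y = ⟨0, by omega⟩ from Fin.ext h']
      · exact (adj ⟨0, by omega⟩ ⟨3, by omega⟩ (by simp)).trans
          (adj y ⟨3, by omega⟩ (by simp; omega)).symm
  exact fun x y => (h0 x).symm.trans (h0 y)

theorem related_path {W : Type} [Fintype W] (F : SimpleGraph W) (hF : F ≠ ⊥) (m : ℕ)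
    (hm : Fintype.card W < m + 4) : Related F (pathGraph (m + 4)) := by
  intro n hn
  obtain ⟨k, rfl⟩ : ∃ k, n = k + 1 := ⟨n - 1, by omega⟩
  obtain ⟨a, b, hab⟩ := ne_bot_iff_exists_adj.1 hF
  have : Nontrivial W := ⟨a, b, hab.ne⟩
  obtain ⟨V1, hV1, H1, h1, h2⟩ := exists_W1 (pathGraph (m + 4)) (path_bip _) k
  obtain ⟨V2, hV2, H2, h3, h4, h5⟩ := exists_W2 F m hm k
  have h6 := freeColorable_of_colorable hab h1
  have h7 : FreeColorable H1 (pathGraph (m + 4)) (k + 1) :=
    freeColorable_of_colorable (a := ⟨0, by omega⟩) (b := ⟨1, by omega⟩)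
      (by rw [pathGraph_adj]; simp) h1
  rcases F.connected_or_preconnected_compl with hc | hc
  · exact relatedAt_of (H1 ⊕g H2) (h6.sum hc.preconnected h3) (fun h => h4 (h.emb Embedding.sumInr))
      (h7.sum (pathGraph_preconnected _) h5) (fun h => h2 (h.emb Embedding.sumInl))
  · have := (relatedAt_of (H1ᶜ ⊕g H2ᶜ) (h6.compl.sum hc h3.compl)
      (fun h => h4 (freeColorable_compl.1 (h.emb Embedding.sumInr)))
      (h7.compl.sum (path_compl m) h5.compl)
      (fun h => h2 (freeColorable_compl.1 (h.emb Embedding.sumInl)))).compl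
    simpa using this

theorem related_self {W : Type} [Fintype W] [Nontrivial W] (F : SimpleGraph W) : Related F F := by
  intro n hn
  obtain ⟨k, rfl⟩ : ∃ k, n = k + 1 := ⟨n - 1, by omega⟩
  obtain ⟨V2, hV2, H2, h3, h4, -⟩ := exists_W2 F (Fintype.card W) (by omega) k
  exact relatedAt_of H2 h3 h4 h3 h4

theorem Related.symm {W W' : Type} {F : SimpleGraph W} {G : SimpleGraph W'} (h : Related F G) :
    Related G F := fun n hn => (h n hn).symm

theorem Related.compl {W W' : Type} {F : SimpleGraph W} {G : SimpleGraph W'} (h : Related F G) :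
    Related Fᶜ Gᶜ := fun n hn => (h n hn).compl

theorem dist_two (a b : ℕ) (F : SimpleGraph (Fin a)) (G : SimpleGraph (Fin b)) (ha : 2 ≤ a)
    (hb : 2 ≤ b) : ∃ (m : ℕ) (H : SimpleGraph (Fin m)), 2 ≤ m ∧ Related F H ∧ Related H G := by
  have : Nontrivial (Fin a) := Fin.nontrivial_iff_two_le.2 ha
  have : Nontrivial (Fin b) := Fin.nontrivial_iff_two_le.2 hb
  by_cases h1 : F ≠ ⊥ ∧ G ≠ ⊥
  · exact ⟨a + b + 4, pathGraph _, by omega, related_path F h1.1 _ (by simp; omega),
      (related_path G h1.2 _ (by simp; omega)).symm⟩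
  by_cases h2 : F ≠ ⊤ ∧ G ≠ ⊤
  · refine ⟨a + b + 4, (pathGraph _)ᶜ, by omega, ?_, ?_⟩
    · simpa using (related_path Fᶜ (by simpa using h2.1) (a + b) (by simp; omega)).compl
    · simpa using (related_path Gᶜ (by simpa using h2.2) (a + b) (by simp; omega)).compl.symm
  refine ⟨a, F, ha, related_self F, ?_⟩
  by_cases hF : F = ⊥
  · have hG : G = ⊤ := by
      by_contra hG
      exact h2 ⟨by rw [hF]; exact bot_ne_top, hG⟩
    rw [hF, hG]
    exact bot_top (by simpa) (by simpa)
  · have hG : G = ⊥ := by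
      by_contra hG
      exact h1 ⟨hF, hG⟩
    have hF' : F = ⊤ := by
      by_contra hF'
      exact h2 ⟨hF', by rw [hG]; exact bot_ne_top⟩
    rw [hF', hG]
    exact (bot_top (by simpa) (by simpa)).symm

end Pool.Agent.H9.CR
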