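import Pool.Agent.H9.CR1
import Pool.Agent.H9.AllR

set_option autoImplicit false

namespace Pool.Agent.H9.CR

open Finset SimpleGraph

def crF : SimpleGraph (Fin 5) where
  Adj i j := i ≠ j ∧ (i = 0 ∨ j = 0 ∨ (i = 1 ∧ j = 2) ∨ (i = 2 ∧ j = 1))
  symm := ⟨by decide⟩
  loopless := ⟨by decide⟩

instance : DecidableRel crF.Adj := fun i j =>
  inferInstanceAs (Decidable (i ≠ j ∧ (i = 0 ∨ j = 0 ∨ (i = 1 ∧ j = 2) ∨ (i = 2 ∧ j = 1))))

def adjR (a b : ℕ) : Bool := Nat.testBit 5658 ((a + 13 - b) % 13)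

def adjS (a b : ℕ) : Bool := Nat.blt a 13 && Nat.blt b 13 && adjR a b

def adjG (a b : ℕ) : Bool := (a / 14 != b / 14) || adjS (a % 14) (b % 14)

def crG : SimpleGraph (Fin 28) where
  Adj i j := adjG i j = true
  symm := ⟨by intro i j; revert i j; decide +kernel⟩
  loopless := ⟨by intro i; revert i; decide +kernel⟩

instance : DecidableRel crG.Adj := fun i j => inferInstanceAs (Decidable (adjG i j = true))

def CrFree {V : Type} (X : SimpleGraph V) (p : V → Prop) : Prop :=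
  ∀ c x y z w, p c → p x → p y → p z → p w → X.Adj c x → X.Adj c y → X.Adj c z → X.Adj c w →
    X.Adj x y → ¬ X.Adj x z → ¬ X.Adj x w → ¬ X.Adj y z → ¬ X.Adj y w → ¬ X.Adj z w → z ≠ w → False

theorem crFree_of {V : Type} (X : SimpleGraph V) (p : V → Prop)
    (h : ∀ f : crF ↪g X, ¬ ∀ i, p (f i)) : CrFree X p := by
  intro c x y z w pc px py pz pw a1 a2 a3 a4 a5 b1 b2 b3 b4 b5 hzw
  have n1 := a1.ne
  have n2 := a2.ne
  have n3 := a3.ne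
  have n4 := a4.ne
  have n5 := a5.ne
  have n6 : x ≠ z := fun e => b3 (e ▸ a5.symm)
  have n7 : x ≠ w := fun e => b4 (e ▸ a5.symm)
  have n8 : y ≠ z := fun e => b1 (e ▸ a5)
  have n9 : y ≠ w := fun e => b2 (e ▸ a5)
  have c1 : ¬ X.Adj z x := fun e => b1 e.symm
  have c2 : ¬ X.Adj w x := fun e => b2 e.symm
  have c3 : ¬ X.Adj z y := fun e => b3 e.symm
  have c4 : ¬ X.Adj w y := fun e => b4 e.symm
  have c5 : ¬ X.Adj w z := fun e => b5 e.symm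
  have hadj : ∀ i j, X.Adj (![c, x, y, z, w] i) (![c, x, y, z, w] j) ↔ crF.Adj i j := by
    simp [Fin.forall_fin_succ, crF, a1, a2, a3, a4, a5, b1, b2, b3, b4, b5, c1, c2, c3, c4, c5,
      a1.symm, a2.symm, a3.symm, a4.symm, a5.symm]
  have hinj : ∀ i j, ![c, x, y, z, w] i = ![c, x, y, z, w] j → i = j := by
    simp [Fin.forall_fin_succ, n1, n2, n3, n4, n5, n6, n7, n8, n9, hzw, n1.symm, n2.symm, n3.symm,
      n4.symm, n5.symm, n6.symm, n7.symm, n8.symm, n9.symm, hzw.symm]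
  have hp : ∀ i, p (![c, x, y, z, w] i) := by
    simp [Fin.forall_fin_succ, pc, px, py, pz, pw]
  exact h ⟨⟨![c, x, y, z, w], hinj⟩, hadj _ _⟩ hp

theorem of_crFree {V : Type} (X : SimpleGraph V) (p : V → Prop) (h : CrFree X p)
    (f : crF ↪g X) : ¬ ∀ i, p (f i) := by
  intro hp
  refine h (f 0) (f 1) (f 2) (f 3) (f 4) (hp _) (hp _) (hp _) (hp _) (hp _) ?_ ?_ ?_ ?_ ?_ ?_ ?_
    ?_ ?_ ?_ (f.injective.ne (by decide)) <;> rw [f.map_adj_iff] <;> decide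

def EE (m a b : ℕ) : Bool :=
  if a = 13 then m.testBit b else if b = 13 then m.testBit a else adjR a b

def isCr (m : ℕ) (t : ℕ × ℕ × ℕ × ℕ × ℕ) : Bool :=
  EE m t.1 t.2.1 && EE m t.1 t.2.2.1 && EE m t.1 t.2.2.2.1 && EE m t.1 t.2.2.2.2 &&
    EE m t.2.1 t.2.2.1 && !EE m t.2.1 t.2.2.2.1 && !EE m t.2.1 t.2.2.2.2 &&
    !EE m t.2.2.1 t.2.2.2.1 && !EE m t.2.2.1 t.2.2.2.2 && !EE m t.2.2.2.1 t.2.2.2.2

def L1 : List (ℕ × ℕ × ℕ × ℕ × ℕ × ℕ × ℕ) := [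
  (531, 1, 0, 1, 4, 9, 13), (523, 3, 0, 1, 13, 3, 9), (523, 513, 0, 9, 13, 1, 3),
  (23, 2, 1, 0, 4, 2, 13), (141, 12, 3, 2, 13, 0, 7), (57, 16, 4, 0, 3, 5, 13),
  (646, 646, 13, 1, 2, 7, 9), (141, 9, 3, 0, 13, 2, 7), (77, 8, 3, 2, 6, 0, 13),
  (1416, 136, 7, 3, 13, 8, 10), (177, 48, 4, 5, 13, 0, 7), (1666, 1152, 10, 7, 13, 1, 9),
  (177, 17, 4, 0, 13, 5, 7), (2832, 768, 8, 9, 13, 4, 11), (2089, 2089, 13, 0, 3, 5, 11),
  (1128, 96, 6, 5, 13, 3, 10), (2256, 144, 7, 4, 13, 6, 11), (330, 330, 13, 3, 6, 1, 8),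
  (4361, 4096, 12, 0, 3, 8, 13), (6274, 2176, 11, 7, 13, 1, 12), (4166, 6, 2, 1, 13, 6, 12),
  (1155, 1024, 10, 0, 1, 7, 13), (833, 513, 9, 0, 13, 6, 8), (1124, 64, 6, 2, 5, 10, 13),
  (5200, 5200, 13, 6, 10, 4, 12), (610, 32, 5, 6, 9, 1, 13), (4184, 4104, 3, 12, 13, 4, 6),
  (2256, 192, 7, 6, 13, 4, 11), (2092, 2052, 2, 11, 13, 3, 5), (3332, 2304, 11, 8, 13, 2, 10),
  (4166, 68, 2, 6, 13, 1, 12), (1046, 1026, 1, 10, 13, 2, 4), (708, 68, 6, 2, 13, 7, 9),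
  (5664, 1536, 9, 10, 13, 5, 12), (3137, 3072, 10, 11, 13, 0, 6), (2124, 4, 2, 3, 6, 11, 13),
  (294, 32, 5, 1, 2, 8, 13), (1128, 72, 6, 3, 13, 5, 10), (708, 192, 6, 7, 13, 2, 9),
  (4512, 288, 8, 5, 13, 7, 12), (282, 18, 4, 1, 13, 3, 8), (4166, 4100, 2, 12, 13, 1, 6),
  (1046, 6, 1, 2, 13, 4, 10), (3137, 1088, 10, 6, 13, 0, 11), (5160, 5160, 13, 3, 12, 5, 10),
  (1232, 128, 7, 6, 10, 4, 13), (325, 325, 13, 2, 6, 0, 8), (3332, 3072, 11, 10, 13, 2, 8),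
  (4357, 4352, 12, 8, 13, 0, 2), (564, 36, 5, 2, 13, 4, 9), (5137, 1025, 0, 10, 13, 4, 12),
  (2083, 2050, 1, 11, 13, 0, 5), (4673, 512, 9, 0, 12, 6, 13), (6664, 4608, 12, 9, 13, 3, 11),
  (1290, 1290, 13, 1, 10, 3, 8), (2092, 12, 2, 3, 13, 5, 11), (5664, 544, 9, 5, 13, 10, 12),
  (6664, 4104, 12, 3, 13, 9, 11), (4258, 4258, 13, 1, 5, 7, 12), (2580, 2580, 13, 2, 11, 4, 9),
  (1035, 1, 0, 1, 10, 3, 13), (354, 96, 5, 6, 13, 1, 8), (4400, 256, 8, 4, 5, 12, 13),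
  (833, 576, 9, 6, 13, 0, 8), (2434, 2048, 11, 7, 8, 1, 13), (323, 323, 13, 0, 1, 6, 8),
  (2129, 2129, 13, 0, 4, 6, 11), (645, 645, 13, 0, 9, 2, 7), (1285, 1285, 13, 0, 10, 2, 8),
  (4257, 4257, 13, 0, 12, 5, 7), (4178, 4178, 13, 1, 4, 6, 12), (2570, 2570, 13, 1, 11, 3, 9),
  (1292, 1292, 13, 2, 3, 8, 10), (165, 165, 13, 2, 5, 0, 7), (5140, 5140, 13, 2, 12, 4, 10),
  (2584, 2584, 13, 3, 4, 9, 11), (650, 650, 13, 3, 7, 1, 9), (5168, 5168, 13, 4, 5, 10, 12),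
  (660, 660, 13, 4, 7, 2, 9), (1300, 1300, 13, 4, 8, 2, 10), (2145, 2145, 13, 5, 6, 0, 11),
  (1320, 1320, 13, 5, 8, 3, 10), (2600, 2600, 13, 5, 9, 3, 11), (4290, 4290, 13, 6, 7, 1, 12),
  (2640, 2640, 13, 6, 9, 4, 11), (389, 389, 13, 7, 8, 0, 2), (5280, 5280, 13, 7, 10, 5, 12),
  (2209, 2209, 13, 7, 11, 0, 5), (778, 778, 13, 8, 9, 1, 3), (2369, 2369, 13, 8, 11, 0, 6),
  (4418, 4418, 13, 8, 12, 1, 6), (1556, 1556, 13, 9, 10, 2, 4), (4738, 4738, 13, 9, 12, 1, 7),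
  (3112, 3112, 13, 10, 11, 3, 5), (6224, 6224, 13, 11, 12, 4, 6)]

theorem D1a : ∀ m < 2 ^ 13, (m == 0 || L1.any fun q => m &&& q.1 == q.2.1) = true :=
  allR_sound _ 13 (by decide +kernel)

def okB (k a : ℕ) : Bool := Nat.blt a 14 && (a == 13 || k.testBit a)

set_option synthInstance.maxSize 2000 in
theorem D1b : ∀ q ∈ L1, isCr q.2.1 q.2.2 = true ∧ q.2.1.testBit 13 = false ∧
    okB q.1 q.2.2.1 = true ∧ okB q.1 q.2.2.2.1 = true ∧ okB q.1 q.2.2.2.2.1 = true ∧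
    okB q.1 q.2.2.2.2.2.1 = true ∧ okB q.1 q.2.2.2.2.2.2 = true ∧
    q.2.2.2.2.2.1 ≠ q.2.2.2.2.2.2 := by decide +kernel

theorem D1 (m : ℕ) (hm : m < 2 ^ 13) : m = 0 ∨ ∃ t : ℕ × ℕ × ℕ × ℕ × ℕ, isCr m t = true ∧
    t.1 < 14 ∧ t.2.1 < 14 ∧ t.2.2.1 < 14 ∧ t.2.2.2.1 < 14 ∧ t.2.2.2.2 < 14 ∧
    t.2.2.2.1 ≠ t.2.2.2.2 := by
  have := D1a m hm
  rw [Bool.or_eq_true, beq_iff_eq, List.any_eq_true] at this
  refine this.imp id fun ⟨q, hq, e⟩ => ?_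
  rw [beq_iff_eq] at e
  obtain ⟨h1, h2, o1, o2, o3, o4, o5, h3⟩ := D1b q hq
  have hb : ∀ a, okB q.1 a = true → m.testBit a = q.2.1.testBit a ∧ a < 14 := by
    intro a ha
    simp only [okB, Bool.and_eq_true, Nat.blt_eq, Bool.or_eq_true, beq_iff_eq] at ha
    refine ⟨?_, ha.1⟩
    rcases ha.2 with rfl | h
    · rw [h2, Nat.testBit_lt_two_pow hm]
    · rw [← e, Nat.testBit_and, h, Bool.and_true]
  have hE : ∀ a b, okB q.1 a = true → okB q.1 b = true → EE m a b = EE q.2.1 a b := by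
    intro a b ha hb'
    simp only [EE, (hb a ha).1, (hb b hb').1]
  refine ⟨q.2.2, ?_, (hb _ o1).2, (hb _ o2).2, (hb _ o3).2, (hb _ o4).2, (hb _ o5).2, h3⟩
  rw [← h1]
  simp only [isCr, hE _ _ o1 o2, hE _ _ o1 o3, hE _ _ o1 o4, hE _ _ o1 o5, hE _ _ o2 o3,
    hE _ _ o2 o4, hE _ _ o2 o5, hE _ _ o3 o4, hE _ _ o3 o5, hE _ _ o4 o5]

theorem rigid {V : Type} (X : SimpleGraph V) (p : V → Prop) (h : CrFree X p) (e : Fin 13 → V)
    (he : Function.Injective e) (hadj : ∀ a b, X.Adj (e a) (e b) ↔ adjR a b = true)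
    (hp : ∀ a, p (e a)) (v : V) (hv : p v) (a0 : Fin 13) (ha0 : X.Adj v (e a0)) :
    ∃ a, e a = v := by
  classical
  by_contra hne
  push Not at hne
  let m := Nat.ofBits fun a : Fin 13 => decide (X.Adj v (e a))
  have hm : ∀ a : Fin 13, m.testBit a = decide (X.Adj v (e a)) := fun a =>
    Nat.testBit_ofBits_lt _ _ a.2
  have hm13 : m.testBit 13 = false := Nat.testBit_ofBits_ge _ _ le_rfl
  let φ : ℕ → V := fun i => if hi : i < 13 then e ⟨i, hi⟩ else v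
  have hφ : ∀ a < 14, ∀ b < 14, (EE m a b = true ↔ X.Adj (φ a) (φ b)) := by
    intro a ha b hb
    by_cases h1 : a < 13 <;> by_cases h2 : b < 13
    · simp only [EE, φ, h1, h2, h1.ne, h2.ne, if_false, dite_true]
      exact (hadj ⟨a, h1⟩ ⟨b, h2⟩).symm
    · obtain rfl : b = 13 := by omega
      simp only [EE, φ, h1, h1.ne, if_false, if_true, dite_true, lt_irrefl, dite_false]
      rw [hm ⟨a, h1⟩, X.adj_comm]; simp
    · obtain rfl : a = 13 := by omega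
      simp only [EE, φ, h2, if_true, dite_true, lt_irrefl, dite_false]
      rw [hm ⟨b, h2⟩]; simp
    · obtain rfl : a = 13 := by omega
      obtain rfl : b = 13 := by omega
      simp [EE, hm13]
  have hφp : ∀ a, p (φ a) := by
    intro a
    by_cases h1 : a < 13 <;> simp only [φ, h1, dite_true, dite_false]
    exacts [hp _, hv]
  have hφi : ∀ a < 14, ∀ b < 14, a ≠ b → φ a ≠ φ b := by
    intro a ha b hb hab
    by_cases h1 : a < 13 <;> by_cases h2 : b < 13 <;> simp only [φ, h1, h2, dite_true, dite_false]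
    · exact he.ne fun e => hab (congrArg Fin.val e)
    · exact hne _
    · exact (hne _).symm
    · omega
  rcases D1 m (Nat.ofBits_lt_two_pow _) with h0 | h0
  · have := hm a0
    rw [h0] at this
    simp [ha0] at this
  · obtain ⟨t, hc, t1, t2, t3, t4, t5, t6⟩ := h0
    simp only [isCr, Bool.and_eq_true, Bool.not_eq_true', ← Bool.not_eq_true] at hc
    obtain ⟨⟨⟨⟨⟨⟨⟨⟨⟨a1, a2⟩, a3⟩, a4⟩, a5⟩, b1⟩, b2⟩, b3⟩, b4⟩, b5⟩ := hc
    rw [hφ _ ‹_› _ ‹_›] at a1 a2 a3 a4 a5 b1 b2 b3 b4 b5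
    exact h _ _ _ _ _ (hφp _) (hφp _) (hφp _) (hφp _) (hφp _) a1 a2 a3 a4 a5 b1 b2 b3 b4 b5
      (hφi _ t4 _ t5 t6)

def L2 : List (ℕ × ℕ × ℕ × ℕ × ℕ) := [
  (323, 0, 1, 6, 8), (2089, 0, 3, 5, 11), (4258, 1, 5, 7, 12), (6224, 11, 12, 4, 6),
  (10754, 1, 11, 9, 13), (8213, 0, 4, 2, 13), (9504, 5, 8, 10, 13), (13320, 3, 12, 10, 13),
  (8385, 6, 7, 0, 13), (1556, 9, 10, 2, 4), (8460, 2, 3, 8, 13), (650, 3, 7, 1, 9),
  (8274, 1, 4, 6, 13), (10880, 7, 11, 9, 13), (12321, 0, 12, 5, 13), (389, 7, 8, 0, 2),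
  (8356, 2, 5, 7, 13), (12546, 8, 12, 1, 13), (1290, 1, 10, 3, 8), (8728, 3, 4, 9, 13),
  (10250, 1, 11, 3, 13), (8323, 0, 1, 7, 13), (8259, 0, 1, 6, 13), (10560, 8, 11, 6, 13),
  (11280, 10, 11, 4, 13), (12432, 4, 7, 12, 13), (2369, 8, 11, 0, 6), (13316, 2, 12, 10, 13),
  (5160, 3, 12, 5, 10), (8744, 5, 9, 3, 13), (646, 1, 2, 7, 9), (9376, 7, 10, 5, 13),
  (8964, 8, 9, 2, 13), (9473, 0, 10, 8, 13), (10312, 3, 6, 11, 13), (9249, 0, 10, 5, 13),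
  (8266, 3, 6, 1, 13), (10288, 4, 5, 11, 13), (8840, 3, 7, 9, 13), (1320, 5, 8, 3, 10),
  (8481, 5, 8, 0, 13), (4418, 8, 12, 1, 6), (12353, 0, 12, 6, 13), (165, 2, 5, 0, 7),
  (9252, 2, 5, 10, 13), (12384, 5, 6, 12, 13), (13314, 1, 10, 12, 13), (8864, 5, 9, 7, 13),
  (9348, 7, 10, 2, 13), (10249, 0, 3, 11, 13), (330, 3, 6, 1, 8), (8528, 4, 8, 6, 13),
  (8454, 1, 2, 8, 13), (12298, 3, 12, 1, 13), (8578, 7, 8, 1, 13), (8457, 0, 3, 8, 13),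
  (4178, 1, 4, 6, 12), (8722, 1, 4, 9, 13), (10306, 1, 11, 6, 13), (8276, 2, 6, 4, 13),
  (12420, 2, 12, 7, 13), (9240, 3, 4, 10, 13), (12816, 9, 12, 4, 13), (8233, 0, 3, 5, 13),
  (645, 0, 9, 2, 7), (1285, 0, 10, 2, 8), (8716, 2, 3, 9, 13), (10245, 2, 11, 0, 13),
  (2580, 2, 11, 4, 9), (5140, 2, 12, 4, 10), (13440, 7, 10, 12, 13), (3112, 10, 11, 3, 5),
  (14368, 11, 12, 5, 13), (2129, 0, 4, 6, 11), (10753, 0, 9, 11, 13), (4257, 0, 12, 5, 7),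
  (8710, 1, 2, 9, 13), (2570, 1, 11, 3, 9), (1292, 2, 3, 8, 10), (325, 2, 6, 0, 8),
  (2584, 3, 4, 9, 11), (10264, 3, 4, 11, 13), (8360, 3, 7, 5, 13), (5168, 4, 5, 10, 12),
  (660, 4, 7, 2, 9), (1300, 4, 8, 2, 10), (2145, 5, 6, 0, 11), (2600, 5, 9, 3, 11),
  (4290, 6, 7, 1, 12), (2640, 6, 9, 4, 11), (5200, 6, 10, 4, 12), (5280, 7, 10, 5, 12),
  (2209, 7, 11, 0, 5), (778, 8, 9, 1, 3), (4738, 9, 12, 1, 7)]

theorem D2 : ∀ m < 2 ^ 14, (L2.any fun q => m &&& q.1 == q.1 || m &&& q.1 == 0) = true :=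
  allR_sound _ 14 (by decide +kernel)

set_option synthInstance.maxSize 2000 in
theorem D2' : ∀ q ∈ L2, (q.1.testBit q.2.1 = true ∧ q.1.testBit q.2.2.1 = true ∧
    q.1.testBit q.2.2.2.1 = true ∧ q.1.testBit q.2.2.2.2 = true) ∧
    q.2.1 < 14 ∧ q.2.2.1 < 14 ∧ q.2.2.2.1 < 14 ∧ q.2.2.2.2 < 14 ∧
    adjS q.2.1 q.2.2.1 = true ∧ adjS q.2.1 q.2.2.2.1 = false ∧ adjS q.2.1 q.2.2.2.2 = false ∧
    adjS q.2.2.1 q.2.2.2.1 = false ∧ adjS q.2.2.1 q.2.2.2.2 = false ∧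
    adjS q.2.2.2.1 q.2.2.2.2 = false ∧ q.2.2.2.1 ≠ q.2.2.2.2 := by decide +kernel

theorem codi (q : Fin 14 → Prop) : ∃ x y z w : Fin 14, adjS x y = true ∧ adjS x z = false ∧
    adjS x w = false ∧ adjS y z = false ∧ adjS y w = false ∧ adjS z w = false ∧ z ≠ w ∧
    (q x ↔ q y) ∧ (q x ↔ q z) ∧ (q x ↔ q w) := by
  classical
  let m := Nat.ofBits fun a : Fin 14 => decide (q a)
  have hm : ∀ a (ha : a < 14), m.testBit a = decide (q ⟨a, ha⟩) := fun a ha =>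
    Nat.testBit_ofBits_lt _ _ ha
  obtain ⟨t, ht, hc⟩ := List.any_eq_true.1 (D2 m (Nat.ofBits_lt_two_pow _))
  obtain ⟨⟨s1, s2, s3, s4⟩, t1, t2, t3, t4, a1, a2, a3, a4, a5, a6, a7⟩ := D2' t ht
  have key : ∀ a b (ha : a < 14) (hb : b < 14), t.1.testBit a = true → t.1.testBit b = true →
      (q ⟨a, ha⟩ ↔ q ⟨b, hb⟩) := by
    intro a b ha hb sa sb
    rw [← decide_eq_decide, ← hm a ha, ← hm b hb]
    have ea : (m &&& t.1).testBit a = m.testBit a := by rw [Nat.testBit_and, sa, Bool.and_true]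
    have eb : (m &&& t.1).testBit b = m.testBit b := by rw [Nat.testBit_and, sb, Bool.and_true]
    rw [← ea, ← eb]
    simp only [Bool.or_eq_true, beq_iff_eq] at hc
    rcases hc with e | e <;> rw [e]
    · rw [sa, sb]
    · simp
  exact ⟨⟨_, t1⟩, ⟨_, t2⟩, ⟨_, t3⟩, ⟨_, t4⟩, a1, a2, a3, a4, a5, a6,
    fun e => a7 (congrArg Fin.val e), key _ _ _ _ s1 s2, key _ _ _ _ s1 s3, key _ _ _ _ s1 s4⟩

def sd (σ : Fin 2) (x : Fin 14) : Fin 28 := ⟨14 * σ + x, by omega⟩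

theorem sd_adj : ∀ σ x y, crG.Adj (sd σ x) (sd σ y) ↔ adjS x y = true := by decide +kernel

theorem sd_adj' : ∀ σ τ x y, σ ≠ τ → crG.Adj (sd σ x) (sd τ y) := by decide +kernel

theorem sd_inj : ∀ σ x y, sd σ x = sd σ y → x = y := by decide +kernel

theorem side (p : Fin 28 → Prop) (h : CrFree crG p) (σ τ : Fin 2) (hστ : σ ≠ τ) (c x y z w : Fin 14)
    (pc : p (sd σ c)) (px : p (sd τ x)) (py : p (sd τ y)) (pz : p (sd τ z)) (pw : p (sd τ w))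
    (a1 : adjS x y = true) (a2 : adjS x z = false) (a3 : adjS x w = false)
    (a4 : adjS y z = false) (a5 : adjS y w = false) (a6 : adjS z w = false) (a7 : z ≠ w) :
    False := by
  refine h _ _ _ _ _ pc px py pz pw (sd_adj' _ _ _ _ hστ) (sd_adj' _ _ _ _ hστ)
    (sd_adj' _ _ _ _ hστ) (sd_adj' _ _ _ _ hστ) ?_ ?_ ?_ ?_ ?_ ?_
    fun e => a7 (sd_inj _ _ _ e) <;> rw [sd_adj] <;> simp [*]

theorem split (p : Fin 28 → Prop) (h1 : CrFree crG p) (h2 : CrFree crG fun v => ¬ p v) :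
    ∃ σ, ∀ x, ¬ p (sd σ x) := by
  by_contra hc
  push Not at hc
  obtain ⟨a0, ha0⟩ := hc 0
  obtain ⟨a1, ha1⟩ := hc 1
  obtain ⟨x, y, z, w, b1, b2, b3, b4, b5, b6, b7, e1, e2, e3⟩ := codi fun x => p (sd 1 x)
  have hx : ¬ p (sd 1 x) := fun hx =>
    side p h1 0 1 (by decide) a0 x y z w ha0 hx (e1.1 hx) (e2.1 hx) (e3.1 hx) b1 b2 b3 b4 b5 b6 b7
  obtain ⟨x', y', z', w', c1, c2, c3, c4, c5, c6, c7, f1, f2, f3⟩ := codi fun x => p (sd 0 x)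
  by_cases hx' : p (sd 0 x')
  · exact side p h1 1 0 (by decide) a1 x' y' z' w' ha1 hx' (f1.1 hx') (f2.1 hx') (f3.1 hx')
      c1 c2 c3 c4 c5 c6 c7
  · exact side _ h2 1 0 (by decide) x x' y' z' w' hx hx' (f1.not.1 hx') (f2.not.1 hx')
      (f3.not.1 hx') c1 c2 c3 c4 c5 c6 c7

theorem CrFree.pull {V V' : Type} {X : SimpleGraph V} {Y : SimpleGraph V'} {p : V → Prop}
    (h : CrFree X p) (g : Y ↪g X) (q : V' → Prop) (hq : ∀ u, q u → p (g u)) : CrFree Y q :=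
  crFree_of _ _ fun f hf => of_crFree _ _ h (g.comp f) fun i => hq _ (hf i)

theorem adjS_R : ∀ a b : Fin 13, adjS (a.castSucc : Fin 14) (b.castSucc : Fin 14) = adjR a b := by
  decide +kernel

theorem three_two {m : ℕ} (H : SimpleGraph (Fin m)) (h : FreeColorable H crF 3) :
    FreeColorable H crG 2 := by
  classical
  obtain ⟨c, hc⟩ := h
  have hs : ∀ i, CrFree H fun v => c v = i := fun i => crFree_of _ _ fun f hf => hc f ⟨i, hf⟩
  let Cp : (Fin 13 → Fin m) → Prop := fun e => Function.Injective e ∧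
    (∀ a b, H.Adj (e a) (e b) ↔ adjR a b = true) ∧ ∀ a, c (e a) = 2
  let M : Fin m → Prop := fun v => ∃ e, Cp e ∧ (∃ a, e a = v) ∧ ∀ a, v ≤ e a
  have hM : ∀ u v, M u → M v → ¬ H.Adj u v := by
    have : ∀ u v, M u → M v → H.Adj u v → v ≤ u := by
      rintro u v ⟨e', he', ⟨a', rfl⟩, -⟩ ⟨e, he, ⟨a, rfl⟩, hle⟩ hadj
      obtain ⟨b, hb⟩ := rigid H _ (hs 2) e he.1 he.2.1 he.2.2 (e' a') (he'.2.2 a') a hadj
      exact hb ▸ hle b
    exact fun u v hu hv hadj => hadj.ne (le_antisymm (this v u hv hu hadj.symm) (this u v hu hv hadj))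
  refine ⟨fun v => if c v = 0 then 0 else if c v = 1 then 1 else if M v then 1 else 0,
    fun g ⟨j, hj⟩ => ?_⟩
  have h3 : ∀ i : Fin 3, i ≠ 2 → i = 0 ∨ i = 1 := by decide
  obtain ⟨σ, hσ⟩ := split (fun u => c (g u) ≠ 2)
    ((hs j.castSucc).pull g _ fun u hu => by
      have := hj u
      rcases h3 _ hu with e | e <;> simp only [e] at this ⊢ <;> rw [← this] <;> rfl)
    ((hs 2).pull g _ fun u hu => not_not.1 hu)
  let e : Fin 13 → Fin m := fun a => g (sd σ a.castSucc)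
  have he : Cp e := ⟨fun a b hab => Fin.castSucc_injective _ (sd_inj _ _ _ (g.injective hab)),
    fun a b => by rw [g.map_adj_iff, sd_adj, adjS_R], fun a => not_not.1 (hσ _)⟩
  have hd : ∀ a, (if M (e a) then (1 : Fin 2) else 0) = j := by
    intro a
    have := hj (sd σ a.castSucc)
    have h2 : c (g (sd σ a.castSucc)) = 2 := he.2.2 a
    simpa [h2] using this
  obtain ⟨a, -, ha⟩ := exists_min_image univ e univ_nonempty
  have hMa : M (e a) := ⟨e, he, ⟨a, rfl⟩, fun b => ha b (mem_univ _)⟩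
  have hj1 : j = 1 := by rw [← hd a, if_pos hMa]
  have hall : ∀ b, M (e b) := by
    intro b
    by_contra hb
    have := hd b
    rw [if_neg hb, hj1] at this
    exact absurd this (by decide)
  exact hM _ _ (hall 0) (hall 1) ((he.2.1 0 1).2 (by decide))

theorem not_rel3 : ¬ RelatedAt crF crG 3 := by
  rintro ⟨m, H, h1, h2⟩
  have : FreeColorable H crF 3 := by
    have hne : {k : ℕ | FreeColorable H crF k}.Nonempty :=
      Nat.nonempty_of_pos_sInf (by unfold freeChi at h1; omega)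
    have := Nat.sInf_mem hne
    unfold freeChi at h1
    rwa [h1] at this
  have := Nat.sInf_le (s := {k : ℕ | FreeColorable H crG k}) (three_two H this)
  unfold freeChi at h2
  omega

set_option synthInstance.maxSize 4000 in
theorem sideFree : ∀ c x : Fin 28, (c : ℕ) / 14 = x / 14 → crG.Adj c x →
    ∀ y : Fin 28, (c : ℕ) / 14 = y / 14 → crG.Adj c y → crG.Adj x y →
    ∀ z : Fin 28, (c : ℕ) / 14 = z / 14 → crG.Adj c z → ¬ crG.Adj x z → ¬ crG.Adj y z →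
    ∀ w : Fin 28, (c : ℕ) / 14 = w / 14 → crG.Adj c w → ¬ crG.Adj x w → ¬ crG.Adj y w →
      ¬ crG.Adj z w → z = w := by decide +kernel

theorem chi_GF : freeChi crG crF = 2 := by
  refine freeChi_eq (k := 1) ⟨fun v => ⟨v / 14, by omega⟩, ?_⟩ ?_
  · rintro f ⟨i, hi⟩
    refine of_crFree crG (fun v => (v : ℕ) / 14 = i) ?_ f fun x => congrArg Fin.val (hi x)
    intro c x y z w pc px py pz pw a1 a2 a3 a4 a5 b1 b2 b3 b4 b5 hzw
    exact hzw (sideFree c x (pc.trans px.symm) a1 y (pc.trans py.symm) a2 a5 z (pc.trans pz.symm)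
      a3 b1 b3 w (pc.trans pw.symm) a4 b2 b4 b5)
  · rintro ⟨c, hc⟩
    refine crFree_of crG (fun _ => True) (fun f _ => hc f ⟨0, fun x => Subsingleton.elim _ _⟩)
      14 0 1 6 8 trivial trivial trivial trivial trivial ?_ ?_ ?_ ?_ ?_ ?_ ?_ ?_ ?_ ?_ ?_ <;> decide

theorem chi_GG : freeChi crG crG = 2 := by
  refine freeChi_eq (k := 1) ⟨fun v => ⟨v / 14, by omega⟩, fun f ⟨i, hi⟩ => ?_⟩
    fun ⟨c, hc⟩ => hc Embedding.refl ⟨0, fun x => Subsingleton.elim _ _⟩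
  have hs : Function.Surjective f := Finite.injective_iff_surjective.1 f.injective
  obtain ⟨a, ha⟩ := hs 0
  obtain ⟨b, hb⟩ := hs 14
  have := (hi a).trans (hi b).symm
  rw [ha, hb] at this
  exact absurd this (by decide)

theorem chi_FG : freeChi crF crG ≤ 2 := by
  refine Nat.sInf_le ⟨fun _ => 0, fun f _ => ?_⟩
  have := Fintype.card_le_of_injective _ f.injective
  simp at this

end Pool.Agent.H9.CR
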