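import Mathlib

set_option autoImplicit false

namespace Pool.Agent.H9.CR

/-- V(H) splits into at most k classes, none containing an induced copy of F -/
def FreeColorable {V W : Type} (H : SimpleGraph V) (F : SimpleGraph W) (k : ℕ) : Prop :=
  ∃ c : V → Fin k, ∀ f : F ↪g H, ¬ ∃ i, ∀ x, c (f x) = i

noncomputable def freeChi {V W : Type} (H : SimpleGraph V) (F : SimpleGraph W) : ℕ :=
  sInf {k : ℕ | FreeColorable H F k}

def RelatedAt {V W : Type} (F : SimpleGraph V) (G : SimpleGraph W) (n : ℕ) : Prop :=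
  ∃ (m : ℕ) (H : SimpleGraph (Fin m)), freeChi H F = n ∧ freeChi H G = n

def Related {V W : Type} (F : SimpleGraph V) (G : SimpleGraph W) : Prop :=
  ∀ n : ℕ, 1 ≤ n → RelatedAt F G n

end Pool.Agent.H9.CR
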