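import Mathlib

set_option autoImplicit false

namespace Pool.Agent.H9.Cake

open Finset MeasureTheory

def v : Fin 3 → Fin 12 → ℕ :=
  ![![1, 16, 23, 26, 4, 10, 12, 19, 9, 0, 0, 0], ![1, 16, 22, 26, 4, 9, 13, 20, 9, 0, 0, 0],
    ![1, 15, 23, 25, 4, 10, 13, 20, 9, 0, 0, 0]]

def t (i a : Fin 3) (x : ℕ) : ℕ := if a = i then x else 0

set_option synthInstance.maxSize 4000 in
theorem fst0 : ∀ a0 a1 a2 a3 a4 a5 a6 a7 a8 : Fin 3,
    40 ≤ t 0 a0 1 + t 0 a1 16 + t 0 a2 23 + t 0 a3 26 + t 0 a4 4 + t 0 a5 10 + t 0 a6 12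
      + t 0 a7 19 + t 0 a8 9 →
    40 ≤ t 1 a0 1 + t 1 a1 16 + t 1 a2 22 + t 1 a3 26 + t 1 a4 4 + t 1 a5 9 + t 1 a6 13
      + t 1 a7 20 + t 1 a8 9 →
    40 ≤ t 2 a0 1 + t 2 a1 15 + t 2 a2 23 + t 2 a3 25 + t 2 a4 4 + t 2 a5 10 + t 2 a6 13
      + t 2 a7 20 + t 2 a8 9 → False := by decide +kernel

theorem sum12 (g : Fin 12 → ℕ) : ∑ j, g j =
    g 0 + g 1 + g 2 + g 3 + g 4 + g 5 + g 6 + g 7 + g 8 + g 9 + g 10 + g 11 := by
  simp only [Fin.sum_univ_succ, Fin.sum_univ_zero, Fin.reduceSucc]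
  simp only [← add_assoc, add_zero]

theorem fst1 (a : Fin 12 → Fin 3) (h : ∀ i, 40 ≤ ∑ j, t i (a j) (v i j)) : False := by
  have h0 := h 0
  have h1 := h 1
  have h2 := h 2
  rw [sum12] at h0 h1 h2
  have z : ∀ i b, t i b 0 = 0 := by intro i b; simp [t]
  refine fst0 (a 0) (a 1) (a 2) (a 3) (a 4) (a 5) (a 6) (a 7) (a 8) ?_ ?_ ?_
  · simpa [v, z] using h0
  · simpa [v, z] using h1
  · simpa [v, z] using h2

theorem v_le : ∀ i j, v i j ≤ 26 := by decide

theorem comb (f : Fin 3 → Fin 12 → ℝ) (S : Fin 3 → Finset (Fin 12)) (hS : ∀ i, (S i).card ≤ 4)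
    (h0 : ∀ i j, j ∉ S i → f i j = 0) (hnn : ∀ i j, 0 ≤ f i j) (h1 : ∀ i j, f i j ≤ 1)
    (h2 : ∀ i i' j, i ≠ i' → f i j + f i' j ≤ 1)
    (hv : ∀ i, (480 : ℝ) ≤ ∑ j, ((110 + v i j : ℕ) : ℝ) * f i j) : False := by
  have hv' : ∀ i, (480 : ℝ) ≤ ∑ j ∈ S i, ((110 + v i j : ℕ) : ℝ) * f i j := by
    intro i
    rw [sum_subset (subset_univ (S i))]
    · exact hv i
    · intro j _ hj; simp [h0 i j hj]
  have hw : ∀ i j, ((110 + v i j : ℕ) : ℝ) ≤ 136 := by
    intro i j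
    have := v_le i j
    exact_mod_cast (by omega : 110 + v i j ≤ 136)
  have hhalf : ∀ i, ∀ j ∈ S i, 1 / 2 < f i j := by
    intro i j hj
    by_contra hle
    push Not at hle
    have e := hv' i
    rw [← add_sum_erase _ _ hj] at e
    have e2 : ∑ x ∈ (S i).erase j, ((110 + v i x : ℕ) : ℝ) * f i x ≤ ∑ _x ∈ (S i).erase j, (136 : ℝ) :=
      sum_le_sum fun x _ => by nlinarith [hw i x, h1 i x, hnn i x]
    rw [sum_const, card_erase_of_mem hj, nsmul_eq_mul] at e2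
    have e3 : (((S i).card - 1 : ℕ) : ℝ) ≤ 3 := by
      have := hS i
      exact_mod_cast (by omega : (S i).card - 1 ≤ 3)
    nlinarith [hw i j, hnn i j]
  have hdis : ∀ i i' j, j ∈ S i → j ∈ S i' → i = i' := by
    intro i i' j hj hj'
    by_contra hne
    linarith [h2 i i' j hne, hhalf i j hj, hhalf i' j hj']
  have h40 : ∀ i, 40 ≤ ∑ j ∈ S i, v i j := by
    intro i
    have e2 : ∑ x ∈ S i, ((110 + v i x : ℕ) : ℝ) * f i x ≤ ∑ x ∈ S i, ((110 + v i x : ℕ) : ℝ) :=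
      sum_le_sum fun x _ => by
        have : (0 : ℝ) ≤ ((110 + v i x : ℕ) : ℝ) := Nat.cast_nonneg _
        nlinarith [h1 i x]
    have e3 := (hv' i).trans e2
    rw [← Nat.cast_sum, sum_add_distrib, sum_const, smul_eq_mul] at e3
    have e4 : 480 ≤ (S i).card * 110 + ∑ j ∈ S i, v i j := by exact_mod_cast e3
    have := hS i
    omega
  refine fst1 (fun j => if j ∈ S 0 then 0 else if j ∈ S 1 then 1 else 2) fun i => ?_
  refine (h40 i).trans (le_trans (le_of_eq ?_) (sum_le_sum_of_subset (subset_univ (S i))))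
  refine sum_congr rfl fun j hj => ?_
  have : (if j ∈ S 0 then (0 : Fin 3) else if j ∈ S 1 then 1 else 2) = i := by
    split_ifs with a b
    · exact hdis _ _ j a hj
    · exact hdis _ _ j b hj
    · fin_cases i
      · exact absurd hj a
      · exact absurd hj b
      · rfl
  simp [t, this]

def I (j : ℕ) : Set ℝ := Set.Icc (2 * (j : ℝ)) (2 * (j : ℝ) + 1)

theorem volI (j : ℕ) : volume (I j) = 1 := by simp [I]

noncomputable def mu (i : Fin 3) : Measure ℝ :=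
  ∑ j : Fin 12, ((110 + v i j : ℕ) : ENNReal) • volume.restrict (I j)

theorem mu_apply (i : Fin 3) (s : Set ℝ) (hs : MeasurableSet s) :
    mu i s = ∑ j : Fin 12, ((110 + v i j : ℕ) : ENNReal) * volume (s ∩ I j) := by
  simp only [mu, Measure.finsetSum_apply, Measure.smul_apply, Measure.restrict_apply hs,
    smul_eq_mul]

theorem vol_le (s : Set ℝ) (j : ℕ) : volume (s ∩ I j) ≤ 1 :=
  (measure_mono Set.inter_subset_right).trans (volI j).le

theorem mu_fin (i : Fin 3) : IsFiniteMeasure (mu i) := by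
  constructor
  rw [mu_apply _ _ MeasurableSet.univ]
  refine ENNReal.sum_lt_top.2 fun j _ => ENNReal.mul_lt_top (by simp) ?_
  exact (vol_le _ _).trans_lt (by simp)

theorem mu_ac (i : Fin 3) : mu i ≪ volume := by
  refine Measure.AbsolutelyContinuous.mk fun s hs h => ?_
  rw [mu_apply _ _ hs]
  refine sum_eq_zero fun j _ => ?_
  rw [measure_mono_null Set.inter_subset_left h, mul_zero]

theorem mu_real (i : Fin 3) (s : Set ℝ) (hs : MeasurableSet s) :
    (mu i s).toReal = ∑ j : Fin 12, ((110 + v i j : ℕ) : ℝ) * (volume (s ∩ I j)).toReal := by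
  rw [mu_apply _ _ hs, ENNReal.toReal_sum]
  · refine sum_congr rfl fun j _ => ?_
    rw [ENNReal.toReal_mul, ENNReal.toReal_natCast]
  · intro j _
    exact ENNReal.mul_ne_top (by simp) ((vol_le _ _).trans_lt (by simp)).ne

theorem I_disj (j j' : ℕ) (x : ℝ) (h : x ∈ I j) (h' : x ∈ I j') : j = j' := by
  simp only [I, Set.mem_Icc] at h h'
  have a : (j : ℝ) < j' + 1 := by linarith
  have b : (j' : ℝ) < j + 1 := by linarith
  have a' : j < j' + 1 := by exact_mod_cast a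
  have b' : j' < j + 1 := by exact_mod_cast b
  omega

def q : Fin 3 → Fin 3 → Fin 4 → Fin 12 :=
  ![![![0, 1, 2, 9], ![3, 4, 5, 10], ![6, 7, 8, 11]],
    ![![0, 3, 6, 9], ![1, 4, 7, 10], ![2, 5, 8, 11]],
    ![![1, 3, 9, 10], ![2, 4, 6, 11], ![0, 5, 7, 8]]]

theorem q_dis : ∀ i p p' l l', p ≠ p' → q i p l ≠ q i p' l' := by decide

theorem q_val : ∀ i p, 480 ≤ ∑ j ∈ univ.image (q i p), (110 + v i j) := by decide

theorem piece_val (i p : Fin 3) : (480 : ℝ) ≤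
    (mu i (⋃ l, Set.Ioo (2 * ((q i p l : ℕ) : ℝ)) (2 * ((q i p l : ℕ) : ℝ) + 1))).toReal := by
  rw [mu_real _ _ (MeasurableSet.iUnion fun _ => measurableSet_Ioo)]
  have h1 : (480 : ℝ) ≤ ∑ j ∈ univ.image (q i p), ((110 + v i j : ℕ) : ℝ) := by
    rw [← Nat.cast_sum]; exact_mod_cast q_val i p
  refine h1.trans (le_trans (sum_le_sum fun j hj => ?_)
    (sum_le_sum_of_subset_of_nonneg (subset_univ _) fun j _ _ => by positivity))
  obtain ⟨l, -, rfl⟩ := mem_image.1 hj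
  refine le_mul_of_one_le_right (Nat.cast_nonneg _) ?_
  rw [← ENNReal.toReal_one]
  refine ENNReal.toReal_mono ((vol_le _ _).trans_lt (by simp)).ne ?_
  refine le_trans ?_ (measure_mono (s := Set.Ioo (2 * ((q i p l : ℕ) : ℝ))
    (2 * ((q i p l : ℕ) : ℝ) + 1)) (Set.subset_inter (Set.subset_iUnion
      (fun l => Set.Ioo (2 * ((q i p l : ℕ) : ℝ)) (2 * ((q i p l : ℕ) : ℝ) + 1)) l)
      Set.Ioo_subset_Icc_self))
  simp

theorem main (a b : Fin 3 → Fin 4 → ℝ)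
    (h1 : ∀ i l, ∃ j : ℕ, j < 12 ∧
        Set.Ioo (a i l) (b i l) ⊆ Set.Icc (2 * (j : ℝ)) (2 * (j : ℝ) + 1))
    (h2 : ∀ i i', i ≠ i' →
        Disjoint (⋃ l, Set.Ioo (a i l) (b i l)) (⋃ l, Set.Ioo (a i' l) (b i' l)))
    (h3 : ∀ i, ∀ c d : Fin 3 → Fin 4 → ℝ,
        (∀ p l, ∃ j : ℕ, j < 12 ∧
          Set.Ioo (c p l) (d p l) ⊆ Set.Icc (2 * (j : ℝ)) (2 * (j : ℝ) + 1)) →
        (∀ p p', p ≠ p' →
          Disjoint (⋃ l, Set.Ioo (c p l) (d p l)) (⋃ l, Set.Ioo (c p' l) (d p' l))) →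
        ∃ p, mu i (⋃ l, Set.Ioo (c p l) (d p l)) ≤ mu i (⋃ l, Set.Ioo (a i l) (b i l))) :
    False := by
  choose J hJ hJ' using h1
  have hX : ∀ i, MeasurableSet (⋃ l, Set.Ioo (a i l) (b i l)) := fun i =>
    MeasurableSet.iUnion fun _ => measurableSet_Ioo
  refine comb (fun i j => (volume ((⋃ l, Set.Ioo (a i l) (b i l)) ∩ I j)).toReal)
    (fun i => univ.image fun l => (⟨J i l, hJ i l⟩ : Fin 12)) ?_ ?_ ?_ ?_ ?_ ?_
  · intro i
    exact card_image_le.trans (by simp)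
  · intro i j hj
    have : (⋃ l, Set.Ioo (a i l) (b i l)) ∩ I j = ∅ := by
      rw [Set.eq_empty_iff_forall_notMem]
      rintro x ⟨hx, hx'⟩
      obtain ⟨l, hl⟩ := Set.mem_iUnion.1 hx
      exact hj (mem_image.2 ⟨l, mem_univ _, Fin.ext (I_disj _ _ x (hJ' i l hl) hx')⟩)
    simp [this]
  · intro i j; exact ENNReal.toReal_nonneg
  · intro i j
    rw [← ENNReal.toReal_one]
    exact ENNReal.toReal_mono (by simp) (vol_le _ _)
  · intro i i' j hne
    have hm : MeasurableSet ((⋃ l, Set.Ioo (a i' l) (b i' l)) ∩ I j) :=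
      (hX i').inter measurableSet_Icc
    rw [← ENNReal.toReal_add ((vol_le _ _).trans_lt (by simp)).ne
      ((vol_le _ _).trans_lt (by simp)).ne, ← measure_union
      ((h2 i i' hne).mono Set.inter_subset_left Set.inter_subset_left) hm,
      ← Set.union_inter_distrib_right, ← ENNReal.toReal_one]
    exact ENNReal.toReal_mono (by simp) (vol_le _ _)
  · intro i
    obtain ⟨p, hp⟩ := h3 i (fun p l => 2 * ((q i p l : ℕ) : ℝ))
      (fun p l => 2 * ((q i p l : ℕ) : ℝ) + 1)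
      (fun p l => ⟨q i p l, (q i p l).2, Set.Ioo_subset_Icc_self⟩) (by
        intro p p' hne
        rw [Set.disjoint_left]
        intro x hx hx'
        obtain ⟨l, hl⟩ := Set.mem_iUnion.1 hx
        obtain ⟨l', hl'⟩ := Set.mem_iUnion.1 hx'
        exact q_dis i p p' l l' hne (Fin.ext (I_disj _ _ x (Set.Ioo_subset_Icc_self hl)
          (Set.Ioo_subset_Icc_self hl'))))
    rw [← mu_real _ _ (hX i)]
    have := mu_fin i
    exact (piece_val i p).trans (ENNReal.toReal_mono (measure_ne_top _ _) hp)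

end Pool.Agent.H9.Cake
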