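import Mathlib

set_option autoImplicit false

namespace Pool.Agent.H9.Circ

open Finset

theorem count_bad {Z D E : Type} [Fintype Z] [Fintype D] [Fintype E] [DecidableEq Z] [DecidableEq D]
    [DecidableEq E] (ι : Z × D → E) (hι : Function.Injective ι) (τ : D → Bool) :
    (univ.filter fun g : E → Bool => ∀ z, ∃ d, g (ι (z, d)) ≠ τ d).card *
      (2 ^ Fintype.card D) ^ Fintype.card Z ≤
      (2 ^ Fintype.card D - 1) ^ Fintype.card Z * 2 ^ Fintype.card E := by
  classical
  have h1 := Fintype.card_le_of_injective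
    (α := {g : E → Bool // ∀ z, ∃ d, g (ι (z, d)) ≠ τ d})
    (β := (Z → {h : D → Bool // ¬ h = τ}) × ({e // ¬ e ∈ Set.range ι} → Bool))
    (fun g => (fun z => ⟨fun d => g.1 (ι (z, d)), fun e => by
      obtain ⟨d, hd⟩ := g.2 z; exact hd (congrFun e d)⟩, fun e => g.1 e.1)) (by
      intro g g' h
      refine Subtype.ext (funext fun e => ?_)
      by_cases p : e ∈ Set.range ι
      · obtain ⟨⟨z, d⟩, rfl⟩ := p
        exact congrFun (congrArg Subtype.val (congrFun (congrArg Prod.fst h) z)) d
      · exact congrFun (congrArg Prod.snd h) ⟨e, p⟩)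
  rw [Fintype.card_subtype, Fintype.card_prod, Fintype.card_fun, Fintype.card_fun,
    Fintype.card_subtype_compl, Fintype.card_subtype_compl, Fintype.card_subtype_eq,
    Fintype.card_fun, Fintype.card_bool] at h1
  have h2 : Fintype.card {e // e ∈ Set.range ι} = Fintype.card Z * Fintype.card D := by
    rw [← Fintype.card_prod]; exact Set.card_range_of_injective hι
  have h3 := Fintype.card_subtype_le fun e => e ∈ Set.range ι
  rw [h2] at h1 h3
  refine (Nat.mul_le_mul_right _ h1).trans (le_of_eq ?_)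
  rw [mul_assoc, ← pow_mul, ← pow_add, mul_comm (Fintype.card D), Nat.sub_add_cancel h3]

theorem exists_L (A u R : ℕ) (hR : 0 < R) :
    ∃ L : ℕ, 0 < L ∧ (A * L) ^ (u * L) * (R - 1) ^ (L * L) < R ^ (L * L) := by
  have hR' : (0 : ℝ) < R := by exact_mod_cast hR
  have h1 : |((R - 1 : ℕ) : ℝ) / R| < 1 := by
    rw [abs_of_nonneg (by positivity), div_lt_one hR']
    exact_mod_cast (by omega : R - 1 < R)
  have h2 := (tendsto_pow_const_mul_const_pow_of_abs_lt_one u h1).const_mul ((A : ℝ) ^ u)
  rw [mul_zero] at h2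
  obtain ⟨L, h3, h4⟩ := ((h2.eventually (gt_mem_nhds zero_lt_one)).and
    (Filter.eventually_gt_atTop 0)).exists
  refine ⟨L, h4, ?_⟩
  rw [pow_mul, pow_mul, pow_mul, ← mul_pow]
  refine Nat.pow_lt_pow_left ?_ h4.ne'
  rw [div_pow, ← mul_assoc, ← mul_pow, ← mul_div_assoc, div_lt_one (by positivity)] at h3
  exact_mod_cast h3

theorem greedy {k : ℕ} (h : Fin k → ℕ → ℕ) (hk : 0 < k) : ∀ r ≤ k, ∃ π : ℕ → Fin k,
    ∀ j < r, (∀ l < j, π l ≠ π j) ∧ ∀ i, (∀ l < j, π l ≠ i) → h (π j) j ≤ h i j := by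
  intro r
  induction r with
  | zero => exact fun _ => ⟨fun _ => ⟨0, hk⟩, by simp⟩
  | succ r ih =>
    intro hr
    obtain ⟨π, hπ⟩ := ih (by omega)
    obtain ⟨i, hi, hm⟩ := exists_min_image (univ \ (range r).image π) (fun i => h i r) (by
      rw [← card_pos, card_univ_sdiff, Fintype.card_fin]
      have : ((range r).image π).card ≤ r := card_image_le.trans (card_range r).le
      omega)
    simp only [mem_sdiff, mem_univ, true_and, mem_image, mem_range, not_exists, not_and] at hi hm
    refine ⟨fun j => if j < r then π j else i, fun j hj => ?_⟩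
    by_cases q : j < r
    · simp only [q, if_true]
      exact ⟨fun l hl => by rw [if_pos (by omega)]; exact (hπ j q).1 l hl, fun i' h' =>
        (hπ j q).2 i' fun l hl => by simpa [show l < r by omega] using h' l hl⟩
    · obtain rfl : j = r := by omega
      simp only [q, if_false]
      exact ⟨fun l hl => by rw [if_pos hl]; exact hi l hl, fun i' h' =>
        hm i' fun l hl => by simpa [hl] using h' l hl⟩

theorem frame {k B : ℕ} (hk : 0 < k) (hB : 0 < B) (c : Fin k × Fin (k * B) → ℕ)
    (hc : Function.Injective c) : ∃ e : Fin (k * B) → Fin k × Fin (k * B),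
      (∀ a b, (e a).1 = (e b).1 ↔ a.val / B = b.val / B) ∧ StrictMono (c ∘ e) := by
  have hs : ∀ i, StrictMono ((fun a => c (i, a)) ∘ Tuple.sort fun a => c (i, a)) := fun i =>
    (Tuple.monotone_sort _).strictMono_of_injective
      ((hc.comp (Prod.mk_right_injective i)).comp (Equiv.injective _))
  obtain ⟨π, hπ⟩ := greedy (fun i j => if h : j * B + B - 1 < k * B then
    c (i, Tuple.sort (fun a => c (i, a)) ⟨_, h⟩) else 0) hk k le_rfl
  have hlt : ∀ a : Fin (k * B), a.val / B < k := fun a => (Nat.div_lt_iff_lt_mul hB).2 a.2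
  refine ⟨fun a => (π (a.val / B), Tuple.sort (fun x => c (π (a.val / B), x)) a), fun a b => ?_,
    fun a b hab => ?_⟩
  · refine ⟨fun e => ?_, fun e => by simp only [e]⟩
    rcases lt_trichotomy (a.val / B) (b.val / B) with p | p | p
    · exact absurd e ((hπ _ (hlt b)).1 _ p)
    · exact p
    · exact absurd e.symm ((hπ _ (hlt a)).1 _ p)
  · rcases (Nat.div_le_div_right (c := B) (show a.val ≤ b.val from hab.le)).eq_or_lt with p | p
    · simp only [Function.comp, p]
      exact hs _ hab
    have h1 := Nat.lt_div_mul_add (a := a.val) hB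
    have h2 : a.val / B * B + B ≤ b.val := by
      have := Nat.mul_le_mul_right B (Nat.succ_le_of_lt p)
      have := Nat.div_mul_le_self b.val B
      rw [Nat.succ_mul] at *
      omega
    have h3 : a.val / B * B + B - 1 < k * B := by have := b.2; omega
    have h4 := (hπ _ (hlt a)).2 (π (b.val / B)) fun l hl => (hπ _ (hlt b)).1 l (by omega)
    simp only [dif_pos h3] at h4
    exact ((hs _).monotone (show a ≤ ⟨_, h3⟩ from Fin.le_def.2 (by simp only; omega))).trans_lt
      (h4.trans_lt (hs _ (show (⟨_, h3⟩ : Fin _) < b from Fin.lt_def.2 (by simp only; omega))))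

theorem ordering {W : Type} [Fintype W] (P : SimpleGraph W) (k m : ℕ) (hk : 0 < k) (hm : 0 < m)
    (q : W → ℕ) (hq : ∀ x, q x < k * m) (hqi : Function.Injective q)
    (hP : ∀ x y, P.Adj x y → q x / m ≠ q y / m) :
    ∃ (V : Type) (_ : Fintype V) (G : SimpleGraph V), G.Colorable k ∧
      ∀ c : V → ℕ, Function.Injective c →
        ∃ ψ : P ↪g G, ∀ x y, q x < q y → c (ψ x) < c (ψ y) := by
  classical
  let D := {p : W × W // q p.1 / m < q p.2 / m}
  obtain ⟨L, hL, hbig⟩ := exists_L (k * (k * (m * k))) (Fintype.card W * k) (2 ^ Fintype.card D)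
    (by positivity)
  let V := Fin k × Fin (k * (m * (k * L)))
  have ht : ∀ x, q x / m < k := fun x => (Nat.div_lt_iff_lt_mul hm).2 (hq x)
  let sl : Fin L × Fin L → W → W × Fin (k * L) := fun z x => (x, ⟨z.1 + q x / m * z.2, by
    have := Nat.mul_le_mul (Nat.succ_le_of_lt (ht x)) (le_refl L)
    have := Nat.mul_le_mul (le_refl (q x / m)) z.2.2.le
    have := z.1.2
    rw [Nat.succ_mul] at *
    omega⟩)
  let ι : (W × Fin (k * L) → V) → (Fin L × Fin L) × D → Sym2 V := fun f p =>
    s(f (sl p.1 p.2.1.1), f (sl p.1 p.2.1.2))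
  have hι : ∀ f, Function.Injective f → Function.Injective (ι f) := by
    rintro f hf ⟨z, ⟨x, y⟩, h⟩ ⟨z', ⟨x', y'⟩, h'⟩ e
    rcases Sym2.eq_iff.1 e with ⟨a, b⟩ | ⟨a, b⟩ <;>
      obtain ⟨rfl, a⟩ := Prod.mk.inj (hf a) <;> obtain ⟨rfl, b⟩ := Prod.mk.inj (hf b)
    · simp only [Fin.mk.injEq] at a b h
      have e2 : z.2.val = z'.2.val := by
        by_contra n
        rcases Nat.lt_or_gt_of_ne n with n | n <;> nlinarith
      rw [e2] at a
      rw [Prod.ext (Fin.ext (by omega)) (Fin.ext e2) (x := z) (y := z')]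
    · exact absurd h' (not_lt.2 h.le)
  obtain ⟨g, hg⟩ : ∃ g : Sym2 V → Bool, ∀ f, Function.Injective f →
      ∃ z, ∀ d : D, g (ι f (z, d)) = decide (P.Adj d.1.1 d.1.2) := by
    by_contra hc
    push Not at hc
    have h1 : (univ : Finset (Sym2 V → Bool)) ⊆ (univ.filter Function.Injective).biUnion fun f =>
        univ.filter fun g => ∀ z, ∃ d : D, g (ι f (z, d)) ≠ decide (P.Adj d.1.1 d.1.2) := by
      intro g _
      obtain ⟨f, a, b⟩ := hc g
      exact mem_biUnion.2 ⟨f, by simpa using a, by simpa using b⟩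
    have h2 := Nat.mul_le_mul_right ((2 ^ Fintype.card D) ^ (L * L))
      ((card_le_card h1).trans card_biUnion_le)
    rw [sum_mul] at h2
    have h3 := h2.trans (sum_le_card_nsmul _ _
      ((2 ^ Fintype.card D - 1) ^ (L * L) * 2 ^ Fintype.card (Sym2 V)) fun f hf => by
        have := count_bad (ι f) (hι f (mem_filter.1 hf).2) fun d => decide (P.Adj d.1.1 d.1.2)
        rwa [Fintype.card_prod, Fintype.card_fin] at this)
    have h4 := h3.trans (Nat.mul_le_mul_right _ (card_le_univ _))
    rw [card_univ, Fintype.card_fun, Fintype.card_fun, Fintype.card_bool, Fintype.card_prod,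
      Fintype.card_prod, Fintype.card_fin, Fintype.card_fin, Fintype.card_fin] at h4
    have h6 : 0 < 2 ^ Fintype.card (Sym2 V) := by positivity
    generalize 2 ^ Fintype.card (Sym2 V) = w at h4 h6
    rw [← mul_assoc, mul_comm w] at h4
    have h5 := Nat.le_of_mul_le_mul_right h4 h6
    rw [show k * (k * (m * (k * L))) = k * (k * (m * k)) * L by ring, ← mul_assoc (Fintype.card W)] at h5
    omega
  let G : SimpleGraph V :=
    { Adj := fun u v => u.1 ≠ v.1 ∧ g s(u, v) = true
      symm := ⟨fun u v h => ⟨h.1.symm, by rw [Sym2.eq_swap]; exact h.2⟩⟩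
      loopless := ⟨fun u h => h.1 rfl⟩ }
  refine ⟨V, inferInstance, G, ⟨SimpleGraph.Coloring.mk Prod.fst fun h => h.1⟩, fun c hc => ?_⟩
  obtain ⟨e, e1, e2⟩ := frame hk (by positivity) c hc
  have hkL : 0 < k * L := by positivity
  let pos : W × Fin (k * L) → Fin (k * (m * (k * L))) := fun p => ⟨q p.1 * (k * L) + p.2, by
    have := Nat.mul_le_mul_right (k * L) (Nat.succ_le_of_lt (hq p.1))
    have := p.2.2
    rw [Nat.succ_mul, mul_assoc] at *
    omega⟩
  have p1 : ∀ p, (pos p).val / (k * L) = q p.1 := fun p => by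
    simp only [pos]
    rw [mul_comm (q _), Nat.mul_add_div hkL, Nat.div_eq_of_lt p.2.2, add_zero]
  have p2 : ∀ p, (pos p).val / (m * (k * L)) = q p.1 / m := fun p => by
    rw [← p1, Nat.div_div_eq_div_mul, mul_comm (k * L) m]
  have p3 : Function.Injective pos := fun a b h => by
    have h1 : a.1 = b.1 := hqi (by rw [← p1, h, p1])
    simp only [pos, h1, Fin.mk.injEq] at h
    exact Prod.ext h1 (Fin.ext (by omega))
  have hf : Function.Injective (e ∘ pos) := (Function.Injective.of_comp e2.injective).comp p3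
  obtain ⟨z, hz⟩ := hg _ hf
  refine ⟨⟨⟨fun x => e (pos (sl z x)), fun x y h => congrArg Prod.fst (hf h)⟩, ?_⟩, ?_⟩
  · intro x y
    change (_ ≠ _ ∧ _) ↔ _
    simp only [Function.Embedding.coeFn_mk, ne_eq, e1, p2]
    rcases lt_trichotomy (q x / m) (q y / m) with h | h | h
    · have := hz ⟨(x, y), h⟩
      simp only [ι, Function.comp] at this
      rw [this]
      simp [sl, h.ne]
    · exact iff_of_false (fun p => p.1 h) fun p => hP _ _ p h
    · have := hz ⟨(y, x), h⟩
      simp only [ι, Function.comp] at this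
      rw [Sym2.eq_swap, this, P.adj_comm]
      simp [sl, h.ne']
  · intro x y h
    refine e2 (Fin.lt_def.2 (Nat.lt_of_div_lt_div (c := k * L) ?_))
    rwa [p1, p1]

def Cyc (a b c : ℕ) : Prop := (a < b ∧ b < c) ∨ (b < c ∧ c < a) ∨ (c < a ∧ a < b)

def rho (N v x : ℕ) : ℕ := if v ≤ x then x - v else x + N - v

def K (N m : ℕ) : SimpleGraph (Fin N) where
  Adj x y := x ≠ y ∧ m ≤ rho N x y ∧ m ≤ rho N y x
  symm := ⟨fun _ _ h => ⟨h.1.symm, h.2.symm⟩⟩
  loopless := ⟨fun _ h => h.1 rfl⟩

theorem K_not (k m : ℕ) (hk : 2 ≤ k) (hm : 0 < m) : ¬ (K (k * m + 1) m).Colorable k := by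
  classical
  rintro ⟨c⟩
  have h2 : 2 * m ≤ k * m := Nat.mul_le_mul_right _ hk
  have := card_le_mul_card_image_of_maps_to (f := c) (s := univ) (t := univ)
    (fun _ _ => mem_univ _) m fun i _ => by
      rcases (univ.filter fun x => c x = i).eq_empty_or_nonempty with e | ⟨v, hv⟩
      · simp [e]
      have key : ∀ x ∈ univ.filter fun x => c x = i, ∀ y ∈ univ.filter fun x => c x = i,
          x.val = y.val ∨ rho (k * m + 1) x y < m ∨ rho (k * m + 1) y x < m := by
        intro x hx y hy
        by_contra p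
        push Not at p
        exact c.valid ⟨fun e => p.1 (by rw [e]), p.2⟩
          ((mem_filter.1 hx).2.trans (mem_filter.1 hy).2.symm)
      refine le_trans (card_le_card_of_injOn (t := range m) (fun x => if rho (k * m + 1) v x < m
        then rho (k * m + 1) v x else rho (k * m + 1) v x - (k * m + 1 - m)) ?_ ?_) (card_range m).le
      · intro x hx
        have := key v hv x hx
        have := x.2; have := v.2
        simp only [coe_range, Set.mem_Iio, rho] at *
        split_ifs at * <;> omega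
      · intro x hx y hy e
        have h3 := key v hv x hx
        have h4 := key v hv y hy
        have h5 := key x hx y hy
        have := x.2; have := v.2; have := y.2
        refine Fin.ext ?_
        simp only [rho] at h3 h4 h5 e
        split_ifs at h3 h4 h5 e <;> omega
  simp only [card_univ, Fintype.card_fin] at this
  rw [mul_comm m] at this
  omega

theorem main (k : ℕ) (hk : 2 ≤ k) (F : Set (Σ n, SimpleGraph (Fin n))) (hF : F.Finite)
    (h : ∀ (V : Type) [Fintype V] (G : SimpleGraph V), G.Colorable k → ∃ c : V → ℕ,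
      Function.Injective c ∧ ∀ p ∈ F, ¬ ∃ φ : p.2 ↪g G, ∀ x y z : Fin p.1,
        Cyc x y z ↔ Cyc (c (φ x)) (c (φ y)) (c (φ z))) :
    ∃ (N : ℕ) (G : SimpleGraph (Fin N)), ¬ G.Colorable k ∧ ∀ p ∈ F, ¬ ∃ φ : p.2 ↪g G,
      ∀ x y z : Fin p.1, Cyc x y z ↔ Cyc (φ x) (φ y) (φ z) := by
  obtain ⟨s, hs⟩ := (hF.image Sigma.fst).bddAbove
  refine ⟨_, K (k * (s + 1) + 1) (s + 1), K_not k _ hk (by omega), ?_⟩
  rintro p hp ⟨φ, hφ⟩
  obtain ⟨v, hv⟩ : ∃ v, ∀ x, φ x ≠ v := by
    by_contra q
    push Not at q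
    have := Fintype.card_le_of_surjective φ q
    have := hs ⟨p, hp, rfl⟩
    have := Nat.mul_le_mul_right (s + 1) hk
    simp only [Fintype.card_fin] at *
    omega
  have hv' : ∀ x, (φ x).val ≠ v.val := fun x e => hv x (Fin.ext e)
  have hqi : Function.Injective fun x => rho (k * (s + 1) + 1) v (φ x) - 1 := fun x y e => by
    have := hv' x; have := hv' y; have := (φ x).2; have := (φ y).2; have := v.2
    refine φ.injective (Fin.ext ?_)
    simp only [rho] at e
    split_ifs at e <;> omega
  obtain ⟨V, _, G, h1, h2⟩ := ordering p.2 k (s + 1) (by omega) (by omega)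
    (fun x => rho (k * (s + 1) + 1) v (φ x) - 1) (fun x => by
      have := hv' x; have := (φ x).2; have := v.2
      simp only [rho]; split_ifs <;> omega) hqi (fun x y a e => by
      obtain ⟨-, b, c⟩ := φ.map_adj_iff.2 a
      have := hv' x; have := hv' y; have := (φ x).2; have := (φ y).2; have := v.2
      have e1 := Nat.div_add_mod (rho (k * (s + 1) + 1) v (φ x) - 1) (s + 1)
      have e2 := Nat.div_add_mod (rho (k * (s + 1) + 1) v (φ y) - 1) (s + 1)
      have e3 := Nat.mod_lt (rho (k * (s + 1) + 1) v (φ x) - 1) (Nat.succ_pos s)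
      have e4 := Nat.mod_lt (rho (k * (s + 1) + 1) v (φ y) - 1) (Nat.succ_pos s)
      rw [e] at e1
      generalize (s + 1) * ((rho (k * (s + 1) + 1) v (φ y) - 1) / (s + 1)) = w at e1 e2
      generalize (rho (k * (s + 1) + 1) v (φ x) - 1) % (s + 1) = r1 at e1 e3
      generalize (rho (k * (s + 1) + 1) v (φ y) - 1) % (s + 1) = r2 at e2 e4
      clear e
      simp only [rho] at b c e1 e2
      split_ifs at b c e1 e2 <;> omega)
  obtain ⟨c, h3, h4⟩ := h V G h1
  obtain ⟨ψ, h5⟩ := h2 c h3
  have h6 : ∀ x y, c (ψ x) < c (ψ y) ↔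
      rho (k * (s + 1) + 1) v (φ x) - 1 < rho (k * (s + 1) + 1) v (φ y) - 1 := fun x y => by
    refine ⟨fun a => ?_, h5 x y⟩
    by_contra b
    rcases (not_lt.1 b).eq_or_lt with e | e
    · rw [hqi e] at a; omega
    · have := h5 y x e; omega
  refine h4 p hp ⟨ψ, fun x y z => ?_⟩
  rw [hφ]
  have := hv' x; have := hv' y; have := hv' z
  have := (φ x).2; have := (φ y).2; have := (φ z).2; have := v.2
  simp only [Cyc, h6, rho]
  split_ifs <;> omega

end Pool.Agent.H9.Circ
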