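import Mathlib

set_option autoImplicit false

namespace Pool.Agent.H9.Coch

open Finset

/-! Triangle-free graphs of every chromatic number. -/

def dbl {U : Type} (G : SimpleGraph U) : SimpleGraph (U × Bool) where
  Adj x y := G.Adj x.1 y.1 ∧ (x.2 = false ∨ y.2 = false)
  symm := ⟨fun _ _ h => ⟨h.1.symm, h.2.symm⟩⟩
  loopless := ⟨fun _ h => h.1.ne rfl⟩

theorem dbl_key {U κ : Type} (G : SimpleGraph U) (m : ℕ) (h : ¬ G.Colorable m) (c : U × Bool → κ)
    (hc : ∀ x y, (dbl G).Adj x y → c x ≠ c y) (S : Finset κ) (s : κ)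
    (h1 : ∀ a, c (a, true) ∈ S) (h2 : ∀ a, c (a, false) ∈ S ∨ c (a, false) = s) : m < S.card := by
  classical
  by_contra hm
  refine h (SimpleGraph.Colorable.mono (not_lt.1 hm) ?_)
  have := (SimpleGraph.Coloring.mk (G := G) (α := S)
    (fun a => if e : c (a, false) = s then ⟨_, h1 a⟩ else ⟨_, (h2 a).resolve_right e⟩) (by
      intro a b hab
      split_ifs with p q q <;> simp only [ne_eq, Subtype.mk.injEq]
      · exact absurd (p.trans q.symm) (hc _ _ ⟨hab, Or.inl rfl⟩)
      · exact hc _ _ ⟨hab, Or.inr rfl⟩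
      · exact hc _ _ ⟨hab, Or.inl rfl⟩
      · exact hc _ _ ⟨hab, Or.inl rfl⟩)).colorable
  simpa using this

def TF {U : Type} (G : SimpleGraph U) : Prop := ∀ a b c, G.Adj a b → G.Adj a c → ¬ G.Adj b c

theorem exists_tf (m : ℕ) : ∃ (U : Type) (_ : Fintype U) (G : SimpleGraph U),
    TF G ∧ G.Colorable (m + 1) ∧ ¬ G.Colorable m := by
  induction m with
  | zero => exact ⟨Unit, inferInstance, ⊥, fun _ _ _ h => h.elim, by simp, by simp⟩
  | succ m ih =>
    obtain ⟨U, _, G, h1, ⟨c⟩, h3⟩ := ih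
    let M : SimpleGraph (Option (U × Bool)) :=
      { Adj := fun x y => match x, y with
          | none, none => False
          | none, some y => y.2 = true
          | some x, none => x.2 = true
          | some x, some y => (dbl G).Adj x y
        symm := ⟨by rintro (_ | x) (_ | y) h; exacts [h, h, h, h.symm]⟩
        loopless := ⟨by rintro (_ | x) h; exacts [h, h.ne rfl]⟩ }
    refine ⟨_, inferInstance, M, ?_, ⟨SimpleGraph.Coloring.mk
      (fun x => x.elim 0 fun y => (c y.1).succ) ?_⟩, ?_⟩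
    · rintro (_ | x) (_ | y) (_ | z) p q r <;> simp only [M, dbl] at p q r
      · simp [p, q] at r
      · simp [p, r] at q
      · simp [q, r] at p
      · exact h1 _ _ _ p.1 q.1 r.1
    · rintro (_ | x) (_ | y) h
      · exact h.elim
      · exact (Fin.succ_ne_zero _).symm
      · exact Fin.succ_ne_zero _
      · simpa using c.valid h.1
    · rintro ⟨d⟩
      have := dbl_key G m h3 (fun x => d (some x)) (fun x y h => d.valid h)
        (univ.erase (d none)) (d none) (fun a => by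
          simpa using d.valid (show M.Adj (some (a, true)) none from rfl))
        (fun a => by by_cases e : d (some (a, false)) = d none <;> simp [e])
      simp at this

/-! The core graph on 11 vertices. -/

def xa (a b : Fin 11) : Bool :=
  a != b && !(([54, 833, 1217, 1312, 833, 201, 54, 804, 154, 1170, 524].getD a.val 0).testBit b.val)

theorem xa_symm : ∀ a b, xa a b = true → xa b a = true := by decide +kernel
theorem xa_irr : ∀ a, ¬ xa a a = true := by decide +kernel
theorem alpha : ∀ a b c : Fin 11, a ≠ b → a ≠ c → b ≠ c →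
    xa a b = true ∨ xa a c = true ∨ xa b c = true := by decide +kernel
theorem k5 : ∀ a b : Fin 11, xa a b = true → ∀ c, xa a c = true → xa b c = true → ∀ d,
    xa a d = true → xa b d = true → xa c d = true → ∀ e, xa a e = true → xa b e = true →
    xa c e = true → ¬ xa d e = true := by decide +kernel

def chk : List (List (Fin 11) × Fin 11) → List (Fin 11 × Fin 11) → Bool
  | [], _ => false
  | τ :: L, P => if P.any (fun e => (τ.2 :: τ.1).contains e.1 && (τ.2 :: τ.1).contains e.2) then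
      chk L P else (τ.2 :: τ.1).all fun u => (τ.2 :: τ.1).all fun v => !(decide (u < v)) || xa u v ||
        P.any (fun e => (e.1 != u && e.1 != v && (e.2 == u || e.2 == v)) ||
          (e.2 != u && e.2 != v && (e.1 == u || e.1 == v))) || chk L ((u, v) :: P)

theorem chk_spec {κ : Type} (φ : Fin 11 → κ) (hφ : ∀ a b, xa a b = true → φ a ≠ φ b) :
    ∀ L P, chk L P = true → (∀ e ∈ P, φ e.1 = φ e.2) →
      ∃ τ ∈ L, ∀ u ∈ τ.2 :: τ.1, ∀ v ∈ τ.2 :: τ.1, φ u = φ v → u = v := by
  intro L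
  induction L with
  | nil => intro P h; simp [chk] at h
  | cons τ L ih =>
    intro P h hP
    unfold chk at h
    split_ifs at h with h0
    · obtain ⟨σ, a, b⟩ := ih P h hP
      exact ⟨σ, List.mem_cons_of_mem _ a, b⟩
    by_cases hτ : ∀ u ∈ τ.2 :: τ.1, ∀ v ∈ τ.2 :: τ.1, u < v → φ u ≠ φ v
    · refine ⟨τ, List.mem_cons_self, fun u hu v hv e => ?_⟩
      rcases lt_trichotomy u v with p | p | p
      · exact absurd e (hτ u hu v hv p)
      · exact p
      · exact absurd e.symm (hτ v hv u hu p)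
    push Not at hτ
    obtain ⟨u, hu, v, hv, huv, e⟩ := hτ
    have := List.all_eq_true.1 (List.all_eq_true.1 h u hu) v hv
    have tri : ∀ w, w ≠ u → w ≠ v → φ w ≠ φ u := fun w p q r => by
      rcases alpha u v w huv.ne p.symm q.symm with z | z | z
      exacts [hφ _ _ z e, hφ _ _ z r.symm, hφ _ _ z (e.symm.trans r.symm)]
    simp only [Bool.or_eq_true, Bool.not_eq_true', decide_eq_false_iff_not, List.any_eq_true,
      Bool.and_eq_true, bne_iff_ne, beq_iff_eq] at this
    rcases this with ((z | z) | ⟨w, hw, z⟩) | z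
    · exact absurd huv z
    · exact absurd e (hφ _ _ z)
    · exfalso
      have q := hP w hw
      rcases z with ⟨⟨a, b⟩, c | c⟩ | ⟨⟨a, b⟩, c | c⟩
      · exact tri _ a b (c ▸ q)
      · exact tri _ a b (e ▸ c ▸ q)
      · exact tri _ a b (c ▸ q.symm)
      · exact tri _ a b (e ▸ c ▸ q.symm)
    · obtain ⟨σ, a, b⟩ := ih _ z (by
        intro x hx
        rcases List.mem_cons.1 hx with rfl | hx
        exacts [e, hP x hx])
      exact ⟨σ, List.mem_cons_of_mem _ a, b⟩

def LL : List (List (Fin 11) × Fin 11) := [([0, 1, 2, 7, 9], 3), ([0, 4, 5, 7, 8], 10),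
  ([1, 3, 5, 6, 8], 2), ([0, 1, 5, 7, 8], 10), ([0, 2, 4, 7, 9], 3), ([4, 5, 6, 7, 8], 10),
  ([2, 4, 6, 7, 9], 3), ([1, 2, 6, 7, 9], 3), ([1, 3, 8, 9, 10], 2), ([0, 1, 2, 9, 10], 6),
  ([1, 5, 6, 7, 8], 10), ([1, 3, 5, 6, 8], 4), ([0, 2, 4, 9, 10], 6), ([0, 1, 3, 5, 8], 4),
  ([0, 2, 3, 5, 10], 1), ([0, 2, 3, 5, 10], 4), ([1, 3, 8, 9, 10], 5), ([2, 3, 5, 6, 10], 1),
  ([2, 3, 5, 6, 10], 4), ([3, 4, 8, 9, 10], 0), ([3, 4, 8, 9, 10], 6)]

def TN (N : Finset (Fin 11)) : Prop :=
  ∀ a ∈ N, ∀ b ∈ N, ∀ c ∈ N, xa a b = true → xa a c = true → ¬ xa b c = true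

theorem rainbow {κ : Type} (φ : Fin 11 → κ) (hφ : ∀ a b, xa a b = true → φ a ≠ φ b) :
    ∃ (N : Finset (Fin 11)) (z : Fin 11), TN N ∧ N.card = 5 ∧ z ∉ N ∧
      Set.InjOn φ (insert z N : Finset (Fin 11)) := by
  obtain ⟨τ, h1, h2⟩ := chk_spec φ hφ LL [] (by decide +kernel) (by simp)
  have : ∀ τ ∈ LL, TN τ.1.toFinset ∧ τ.1.toFinset.card = 5 ∧ τ.2 ∉ τ.1.toFinset := by
    unfold TN; decide +kernel
  obtain ⟨a, b, c⟩ := this τ h1
  exact ⟨_, _, a, b, c, fun u hu v hv => h2 u (by simpa using hu) v (by simpa using hv)⟩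

theorem TN.card_le {N A : Finset (Fin 11)} (h : TN N) (hA : A ⊆ N)
    (hc : ∀ a ∈ A, ∀ b ∈ A, a ≠ b → xa a b = true) : A.card ≤ 2 := by
  by_contra q
  obtain ⟨x, y, z, hx, hy, hz, a, b, c⟩ := two_lt_card_iff.1 (not_le.1 q)
  exact h x (hA hx) y (hA hy) z (hA hz) (hc _ hx _ hy a) (hc _ hx _ hz b) (hc _ hy _ hz c)

abbrev Ty (k : ℕ) : Type := (Finset (Fin 11) × Fin 11) × Fin k

def big {U : Type} (G : SimpleGraph U) (k : ℕ) : SimpleGraph (Fin 11 ⊕ Ty k × U × Bool) where
  Adj x y := match x, y with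
    | .inl a, .inl b => xa a b = true
    | .inl a, .inr y => TN y.1.1.1 ∧ (a ∈ y.1.1.1 ∨ (y.2.2 = true ∧ a = y.1.1.2))
    | .inr y, .inl a => TN y.1.1.1 ∧ (a ∈ y.1.1.1 ∨ (y.2.2 = true ∧ a = y.1.1.2))
    | .inr x, .inr y => x.1 = y.1 ∧ (dbl G).Adj x.2 y.2
  symm := ⟨by rintro (x | x) (y | y) h; exacts [xa_symm _ _ h, h, h, ⟨h.1.symm, h.2.symm⟩]⟩
  loopless := ⟨by rintro (x | x) h; exacts [xa_irr _ h, h.2.ne rfl]⟩

variable {U : Type} (G : SimpleGraph U)

theorem big_free (k : ℕ) (h : TF G) : (big G k).CliqueFree 5 := by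
  classical
  intro S hS
  have h1 := card_toLeft_add_card_toRight (u := S)
  rw [hS.2] at h1
  have hA : ∀ a ∈ S.toLeft, ∀ b ∈ S.toLeft, a ≠ b → xa a b = true := fun a ha b hb e =>
    hS.1 (mem_toLeft.1 ha) (mem_toLeft.1 hb) (by simpa using e)
  have hB : ∀ a ∈ S.toRight, ∀ b ∈ S.toRight, a ≠ b → (dbl G).Adj a.2 b.2 := fun a ha b hb e =>
    (hS.1 (mem_toRight.1 ha) (mem_toRight.1 hb) (by simpa using e)).2
  have hC : ∀ y ∈ S.toRight, ∀ a ∈ S.toLeft,
      TN y.1.1.1 ∧ (a ∈ y.1.1.1 ∨ (y.2.2 = true ∧ a = y.1.1.2)) := fun y hy a ha =>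
    hS.1 (mem_toLeft.1 ha) (mem_toRight.1 hy) (by simp)
  have h2 : S.toRight.card ≤ 2 := by
    by_contra q
    obtain ⟨x, y, z, hx, hy, hz, a, b, c⟩ := two_lt_card_iff.1 (not_le.1 q)
    exact h _ _ _ (hB _ hx _ hy a).1 (hB _ hx _ hz b).1 (hB _ hy _ hz c).1
  obtain ⟨a0, ha0⟩ := card_pos.1 (show 0 < S.toLeft.card by omega)
  by_cases h3 : ∃ y ∈ S.toRight, y.2.2 = false
  · obtain ⟨y, hy, e⟩ := h3
    have := (hC y hy a0 ha0).1.card_le (A := S.toLeft)
      (fun a ha => (hC y hy a ha).2.resolve_right (by simp [e])) hA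
    omega
  have h4 : S.toRight.card ≤ 1 := card_le_one.2 fun a ha b hb => by
    by_contra e
    rcases (hB a ha b hb e).2 with p | p
    exacts [h3 ⟨a, ha, p⟩, h3 ⟨b, hb, p⟩]
  rcases S.toRight.eq_empty_or_nonempty with e | ⟨y, hy⟩
  · rw [e, card_empty] at h1
    obtain ⟨a, T, a1, a2, a3⟩ := card_eq_succ.1 (show S.toLeft.card = 4 + 1 by omega)
    obtain ⟨b, T', b1, rfl, b3⟩ := card_eq_succ.1 (show T.card = 3 + 1 from a3)
    obtain ⟨c, d, f, c1, c2, c3, rfl⟩ := card_eq_three.1 b3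
    rw [← a2] at hA
    simp only [mem_insert, mem_singleton, not_or] at a1 b1
    exact k5 a b (hA _ (by simp) _ (by simp) a1.1) c (hA _ (by simp) _ (by simp) a1.2.1)
      (hA _ (by simp) _ (by simp) b1.1) d (hA _ (by simp) _ (by simp) a1.2.2.1)
      (hA _ (by simp) _ (by simp) b1.2.1) (hA _ (by simp) _ (by simp) c1) f
      (hA _ (by simp) _ (by simp) a1.2.2.2) (hA _ (by simp) _ (by simp) b1.2.2)
      (hA _ (by simp) _ (by simp) c2) (hA _ (by simp) _ (by simp) c3)
  · have := (hC y hy a0 ha0).1.card_le (A := S.toLeft.erase y.1.1.2)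
      (fun a ha => (hC y hy a (mem_of_mem_erase ha)).2.resolve_right
        fun p => (mem_erase.1 ha).1 p.2)
      fun a ha b hb => hA a (mem_of_mem_erase ha) b (mem_of_mem_erase hb)
    have := pred_card_le_card_erase (s := S.toLeft) (a := y.1.1.2)
    omega

theorem big_col (k m : ℕ) (h : G.Colorable m) : (big G k).Colorable (6 + m) := by
  obtain ⟨c⟩ := h
  have := (SimpleGraph.Coloring.mk (G := big G k) (α := Fin 6 ⊕ Fin m)
    (Sum.map ![0, 1, 2, 3, 4, 5, 4, 5, 3, 1, 2] fun y => c y.2.1) (by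
      rintro (x | x) (y | y) h
      · have : ∀ x y, xa x y = true → (![0, 1, 2, 3, 4, 5, 4, 5, 3, 1, 2] : Fin 11 → Fin 6) x ≠
          ![0, 1, 2, 3, 4, 5, 4, 5, 3, 1, 2] y := by decide +kernel
        simpa using this x y h
      · simp
      · simp
      · simpa using c.valid h.2.1)).colorable
  simpa using this

theorem big_not_col (k m : ℕ) (h : ¬ G.Colorable m) : ¬ (big G (k + 1)).Colorable (6 + m) := by
  rintro ⟨c⟩
  obtain ⟨N, z, h1, h2, h3, h4⟩ := rainbow (fun a => c (.inl a)) fun a b e => c.valid e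
  have := dbl_key G m h (fun y => c (.inr (((N, z), 0), y))) (fun x y e => c.valid ⟨rfl, e⟩)
    (univ \ (insert z N).image fun a => c (.inl a)) (c (.inl z)) (fun a => by
      simp only [mem_sdiff, mem_univ, true_and, mem_image, not_exists, not_and, mem_insert]
      exact fun x hx => c.valid ⟨h1, by tauto⟩) (fun a => by
      by_contra q
      simp only [mem_sdiff, mem_univ, true_and, mem_image, mem_insert, not_or, not_not] at q
      obtain ⟨⟨x, rfl | hx, e⟩, q⟩ := q
      · exact q e.symm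
      · exact c.valid (show (big G (k + 1)).Adj (.inl x) (.inr (((N, z), 0), a, false)) from
          ⟨h1, Or.inl hx⟩) e)
  rw [card_univ_sdiff, card_image_of_injOn h4, card_insert_of_notMem h3, h2, Fintype.card_fin] at this
  omega

def Hom {V : Type} (H : SimpleGraph V) (n : ℕ) (f : V → Fin n) : Prop :=
  ∀ i, H.IsIndepSet {v | f v = i} ∨ H.IsClique {v | f v = i}

theorem big_hom (k m : ℕ) (h : G.Colorable m) : ∃ f, Hom (big G k) (3 + m) f := by
  obtain ⟨c⟩ := h
  refine ⟨fun x => finSumFinEquiv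
    (Sum.map (fun a : Fin 11 => (⟨a.val % 3, by omega⟩ : Fin 3)) (fun y => c y.2.1) x), fun i => ?_⟩
  obtain ⟨i | i, rfl⟩ := finSumFinEquiv.surjective i
  · right
    rintro (x | x) hx (y | y) hy e <;> simp only [Set.mem_ofPred_eq, Equiv.apply_eq_iff_eq,
      Sum.map_inl, Sum.map_inr, Sum.inl.injEq, reduceCtorEq] at hx hy
    have : ∀ x y : Fin 11, x ≠ y → x.val % 3 = y.val % 3 → xa x y = true := by decide +kernel
    exact this x y (by simpa using e) (by simpa using hx.trans hy.symm)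
  · left
    rintro (x | x) hx (y | y) hy e <;> simp only [Set.mem_ofPred_eq, Equiv.apply_eq_iff_eq,
      Sum.map_inl, Sum.map_inr, Sum.inr.injEq, reduceCtorEq] at hx hy
    exact fun p => c.valid p.2.1 (hx.trans hy.symm)

theorem big_not_hom (k m n : ℕ) (h : ¬ G.Colorable m) (hn : n < k) (hm : n < 4 + m)
    (f : _ → Fin n) : ¬ Hom (big G k) n f := by
  classical
  intro hf
  set I : Finset (Fin n) := univ.filter fun i => (big G k).IsIndepSet {v | f v = i} with hI
  have hind : ∀ x y, f x ∈ I → (big G k).Adj x y → f x ≠ f y := fun x y p q e =>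
    (mem_filter.1 p).2 (x := x) rfl (y := y) e.symm q.ne q
  have hcl : ∀ x y, f x ∉ I → x ≠ y → f x = f y → (big G k).Adj x y := fun x y p q e =>
    (hf (f x)).resolve_left (by simpa [hI] using p) (x := x) rfl (y := y) e.symm q
  obtain ⟨N, z, h1, h2, -, h4⟩ := rainbow
    (fun a => if f (.inl a) ∈ I then Sum.inl (f (.inl a)) else Sum.inr a) fun a b e => by
      split_ifs with p q q
      · simpa using hind (.inl a) (.inl b) p e
      · simp
      · simp
      · rintro ⟨⟩; exact xa_irr _ e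
  obtain ⟨s, hs⟩ : ∃ s : Fin k, ∀ y, f (.inr (((N, z), s), y)) ∈ I := by
    by_contra q
    push Not at q
    choose g hg using q
    have := Fintype.card_le_of_injective (fun s => f (.inr (((N, z), s), g s))) fun s t e => by
      by_contra p
      exact p (by simpa using (hcl _ _ (hg s) (by simp [p]) e).1)
    simp at this
    omega
  set A := N.filter fun a => f (.inl a) ∈ I with hA
  have h5 := dbl_key G m h (fun y => some (f (.inr (((N, z), s), y))))
    (fun x y e => by simpa using hind _ (.inr (((N, z), s), y)) (hs x) ⟨rfl, e⟩)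
    ((I \ A.image fun a => f (.inl a)).image some) none (fun a => ?_) (fun a => Or.inl ?_)
  rotate_left
  iterate 2
    refine mem_image_of_mem _ (mem_sdiff.2 ⟨hs _, fun p => ?_⟩)
    obtain ⟨x, hx, e⟩ := mem_image.1 p
    exact hind _ (.inl x) (hs _) ⟨h1, Or.inl (mem_filter.1 hx).1⟩ e.symm
  rw [card_image_of_injective _ (Option.some_injective _), card_sdiff_of_subset (by
    intro x hx
    obtain ⟨a, ha, rfl⟩ := mem_image.1 hx
    exact (mem_filter.1 ha).2), card_image_of_injOn (by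
    intro a ha b hb e
    have ha' := mem_filter.1 ha
    have hb' := mem_filter.1 hb
    exact h4 (by simp [ha'.1]) (by simp [hb'.1]) (by simp only [ha'.2, hb'.2, if_true]; exact congrArg _ e))] at h5
  have h6 := card_le_mul_card_image_of_maps_to (f := fun a => f (.inl a))
    (s := N.filter fun a => ¬ f (.inl a) ∈ I) (t := univ \ I)
    (fun a ha => by simpa using (mem_filter.1 ha).2) 2 fun i _ =>
      h1.card_le (fun a ha => (mem_filter.1 (mem_filter.1 ha).1).1) fun a ha b hb e =>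
        hcl (.inl a) (.inl b) (mem_filter.1 (mem_filter.1 ha).1).2 (by simpa using e)
          ((mem_filter.1 ha).2.trans (mem_filter.1 hb).2.symm)
  have h7 := card_filter_add_card_filter_not (s := N) fun a => f (.inl a) ∈ I
  have h8 : I.card ≤ n := by simpa using card_le_univ I
  rw [card_univ_sdiff, Fintype.card_fin] at h6
  rw [← hA] at h7
  omega

end Pool.Agent.H9.Coch
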