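import Pool.Agent.H9.CovDefs

set_option autoImplicit false

namespace Pool.Agent.H9.Cov

open Finset SimpleGraph

theorem hall {n : ℕ} (B : Fin n → Fin (n + 1) → Prop)
    (h : ∀ f : Fin n → Fin (n + 1), Function.Injective f → ∃ r, B r (f r)) :
    ∃ (S : Finset (Fin n)) (D : Finset (Fin (n + 1))), n + 2 ≤ S.card + D.card ∧
      ∀ r ∈ S, ∀ i ∈ D, B r i := by
  classical
  by_contra hc
  push Not at hc
  obtain ⟨f, hf, hf'⟩ := (all_card_le_biUnion_card_iff_exists_injective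
    (fun r : Fin n => univ.filter fun i => ¬ B r i)).1 (by
      intro S
      by_contra hlt
      obtain ⟨r, hr, i, hi, hB⟩ := hc S (S.biUnion fun r => univ.filter fun i => ¬ B r i)ᶜ (by
        rw [card_compl, Fintype.card_fin]
        have := card_le_univ (S.biUnion fun r => univ.filter fun i => ¬ B r i)
        rw [Fintype.card_fin] at this
        omega)
      exact mem_compl.1 hi (mem_biUnion.2 ⟨r, hr, by simpa using hB⟩))
  obtain ⟨r, hr⟩ := h f hf
  exact (mem_filter.1 (hf' r)).2 hr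

def rho {n : ℕ} (i : Fin (n + 3 + 1)) : Fin (n + 3) :=
  if h : (i : ℕ) < n + 3 then ⟨i, h⟩ else ⟨0, by omega⟩

theorem rho_fib {n : ℕ} (r : Fin (n + 3)) :
    (univ.filter fun i : Fin (n + 3 + 1) => rho i = r).card ≤ 2 := by
  refine le_trans (card_le_card (t := {r.castSucc, Fin.last _}) fun i hi => ?_) card_le_two
  have := (mem_filter.1 hi).2
  simp only [mem_insert, mem_singleton]
  unfold rho at this
  split_ifs at this with h
  · left; rw [← this]; rfl
  · right; apply Fin.ext; have := i.2; simp; omega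

theorem count {n : ℕ} (T : Finset (Fin (n + 3) × Fin (n + 3 + 1)))
    (hrow : ∀ r, ∃ i, (r, i) ∈ T)
    (h : ∀ f : Fin (n + 3) → Fin (n + 3 + 1), Function.Injective f → (∀ r, rho (f r) ≠ r) →
      ∃ r, (r, f r) ∈ T) : 2 * n + 4 ≤ T.card := by
  classical
  obtain ⟨S, D, hSD, hB⟩ := hall (fun r i => (r, i) ∈ T ∨ rho i = r) (by
    intro f hf
    by_cases h' : ∀ r, rho (f r) ≠ r
    · obtain ⟨r, hr⟩ := h f hf h'
      exact ⟨r, Or.inl hr⟩
    · push Not at h'
      obtain ⟨r, hr⟩ := h'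
      exact ⟨r, Or.inr hr⟩)
  have e1 : T.card = ∑ r, (univ.filter fun i => (r, i) ∈ T).card := by
    simp only [card_filter]
    rw [← Fintype.sum_prod_type' (fun r i => if (r, i) ∈ T then 1 else 0), ← card_filter]
    simp
  have e2 : ∀ r ∈ S, D.card ≤ (univ.filter fun i => (r, i) ∈ T).card +
      (D.filter fun i => rho i = r).card := by
    intro r hr
    refine le_trans (card_le_card fun i hi => ?_) (card_union_le _ _)
    simpa [hi] using hB r hr i hi
  have e3 : ∀ r ∈ Sᶜ, 1 ≤ (univ.filter fun i => (r, i) ∈ T).card := by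
    intro r _
    obtain ⟨i, hi⟩ := hrow r
    exact card_pos.2 ⟨i, by simpa using hi⟩
  have e4 := sum_le_sum e2
  have e5 := sum_le_sum e3
  rw [sum_const, sum_add_distrib, smul_eq_mul] at e4
  rw [sum_const, smul_eq_mul, mul_one, card_compl, Fintype.card_fin] at e5
  rw [← sum_add_sum_compl S] at e1
  have e6 : ∑ r ∈ S, (D.filter fun i => rho i = r).card ≤ D.card := by
    refine le_trans (sum_le_sum_of_subset (subset_univ S)) (le_of_eq ?_)
    exact (card_eq_sum_card_fiberwise (fun _ _ => mem_univ _)).symm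
  have e7 : ∑ r ∈ S, (D.filter fun i => rho i = r).card ≤ S.card * 2 := by
    rw [← smul_eq_mul, ← sum_const]
    exact sum_le_sum fun r _ => le_trans (card_le_card (filter_subset_filter _ (subset_univ D)))
      (rho_fib r)
  have hS := card_le_univ S
  have hD := card_le_univ D
  rw [Fintype.card_fin] at hS hD
  obtain ⟨s, hs⟩ : ∃ s, s = S.card := ⟨_, rfl⟩
  obtain ⟨d, hd⟩ : ∃ d, d = D.card := ⟨_, rfl⟩
  rw [← hs] at e4 e5 e7 hS hSD
  rw [← hd] at e4 e6 hD hSD
  by_cases h1 : s = 1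
  · subst h1; omega
  · obtain ⟨a, rfl⟩ : ∃ a, s = a + 2 := ⟨s - 2, by omega⟩
    obtain ⟨b, hb⟩ : ∃ b, n + 3 = a + 2 + b := ⟨n + 3 - (a + 2), by omega⟩
    obtain ⟨e, rfl⟩ : ∃ e, d = b + 2 + e := ⟨d - (b + 2), by omega⟩
    have : (a + 2) * (b + 2 + e) = a * b + a * e + 2 * a + 2 * b + 4 + 2 * e := by ring
    omega

theorem exists_hit {n : ℕ} (r0 : Fin (n + 3)) (i0 : Fin (n + 3 + 1)) (h0 : rho i0 ≠ r0) :
    ∃ f : Fin (n + 3) → Fin (n + 3 + 1), Function.Injective f ∧ (∀ r, rho (f r) ≠ r) ∧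
      f r0 = i0 := by
  classical
  by_contra hc
  push Not at hc
  obtain ⟨S, D, hSD, hB⟩ := hall (fun r i => (r = r0 ∧ i ≠ i0) ∨ rho i = r) (by
    intro f hf
    by_cases h' : ∀ r, rho (f r) ≠ r
    · exact ⟨r0, Or.inl ⟨rfl, hc f hf h'⟩⟩
    · push Not at h'
      obtain ⟨r, hr⟩ := h'
      exact ⟨r, Or.inr hr⟩)
  have hS := card_le_univ S
  have hD := card_le_univ D
  rw [Fintype.card_fin] at hS hD
  have h2 : ∀ r ∈ S, r ≠ r0 → D.card ≤ 2 := fun r hr hne =>
    le_trans (card_le_card fun i hi => by simpa [hne] using hB r hr i hi) (rho_fib r)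
  obtain ⟨i, hi⟩ : D.Nonempty := card_pos.1 (by omega)
  have h3 : S.card ≤ 2 := by
    refine le_trans (card_le_card (t := {r0, rho i}) fun r hr => ?_) card_le_two
    rcases hB r hr i hi with h | h
    · simp [h.1]
    · simp [h]
  by_cases h4 : S.card = 2
  · obtain ⟨a, b, hab, rfl⟩ := card_eq_two.1 h4
    by_cases ha : a = r0
    · have := h2 b (by simp) fun e => hab (ha.trans e.symm)
      omega
    · have := h2 a (by simp) ha
      omega
  · obtain ⟨r, hr⟩ : S.Nonempty := card_pos.1 (by omega)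
    by_cases ha : r = r0
    · have hDu : D = univ := eq_univ_of_card _ (by rw [Fintype.card_fin]; omega)
      rcases hB r hr i0 (hDu ▸ mem_univ _) with h | h
      · exact h.2 rfl
      · exact h0 (h.trans ha)
    · have := h2 r hr ha
      omega

theorem exists_miss {n : ℕ} (i0 : Fin (n + 3 + 1)) :
    ∃ f : Fin (n + 3) → Fin (n + 3 + 1), Function.Injective f ∧ (∀ r, rho (f r) ≠ r) ∧
      ∀ r, f r ≠ i0 := by
  classical
  by_contra hc
  push Not at hc
  obtain ⟨S, D, hSD, hB⟩ := hall (fun r i => i = i0 ∨ rho i = r) (by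
    intro f hf
    by_cases h' : ∀ r, rho (f r) ≠ r
    · obtain ⟨r, hr⟩ := hc f hf h'
      exact ⟨r, Or.inl hr⟩
    · push Not at h'
      obtain ⟨r, hr⟩ := h'
      exact ⟨r, Or.inr hr⟩)
  have hS := card_le_univ S
  have hD := card_le_univ D
  rw [Fintype.card_fin] at hS hD
  obtain ⟨i, hi, hne⟩ : ∃ i ∈ D, i ≠ i0 := exists_mem_ne (by omega) i0
  have h3 : S.card ≤ 1 := by
    refine le_trans (card_le_card (t := {rho i}) fun r hr => ?_) (by simp)
    simpa [hne, eq_comm] using hB r hr i hi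
  obtain ⟨r, hr⟩ : S.Nonempty := card_pos.1 (by omega)
  have h4 : D.card ≤ (univ.filter fun i : Fin (n + 3 + 1) => rho i = r).card + 1 := by
    refine le_trans (card_le_card (t := insert i0 (univ.filter fun i => rho i = r)) fun j hj => ?_)
      (card_insert_le _ _)
    simpa using hB r hr j hj
  have := rho_fib r
  omega

theorem not_surj {n : ℕ} (f : Fin n → Fin (n + 1)) : ∃ i0, ∀ r, f r ≠ i0 := by
  by_contra h
  push Not at h
  have := Fintype.card_le_of_surjective f h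
  simp at this

abbrev XX (n : ℕ) : Type := Fin (n + 3) × Fin (2 * n + 4)

def YY (n : ℕ) : Type :=
  {p : (Fin (n + 3) → Fin (n + 3 + 1)) × Fin (n + 3 + 1) × Fin (2 * n + 4) //
    Function.Injective p.1 ∧ (∀ r, rho (p.1 r) ≠ r) ∧ ∀ r, p.1 r ≠ p.2.1}

noncomputable instance (n : ℕ) : Fintype (YY n) := by
  classical
  unfold YY
  infer_instance

def cc {n : ℕ} (x : XX n) (y : YY n) : Fin (n + 3 + 1) :=
  if x.1 = rho y.1.2.1 ∧ x.2 = y.1.2.2 then y.1.2.1 else y.1.1 x.1

theorem spanX {n : ℕ} (i : Fin (n + 3 + 1)) (x : XX n) : ∃ y, cc x y = i := by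
  by_cases h : rho i = x.1
  · obtain ⟨f, h1, h2, h3⟩ := exists_miss i
    exact ⟨⟨(f, i, x.2), h1, h2, h3⟩, by simp [cc, h]⟩
  · obtain ⟨f, h1, h2, h3⟩ := exists_hit x.1 i h
    obtain ⟨i0, h4⟩ := not_surj f
    have : Nontrivial (Fin (2 * n + 4)) := Fin.nontrivial_iff_two_le.2 (by omega)
    obtain ⟨z, hz⟩ := exists_ne x.2
    exact ⟨⟨(f, i0, z), h1, h2, h4⟩, by simp [cc, hz.symm, h3]⟩

theorem spanY {n : ℕ} (i : Fin (n + 3 + 1)) (y : YY n) : ∃ x, cc x y = i := by
  classical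
  obtain ⟨⟨f, i0, z⟩, h1, h2, h3⟩ := y
  by_cases h : i = i0
  · exact ⟨(rho i0, z), by simp [cc, h]⟩
  · have hr : ∃ r, f r = i := by
      by_contra hc
      push Not at hc
      have hsub : univ.image f ⊆ ({i, i0} : Finset _)ᶜ := by
        intro j hj
        obtain ⟨r, -, rfl⟩ := mem_image.1 hj
        simp only [mem_compl, mem_insert, mem_singleton, not_or]
        exact ⟨hc r, h3 r⟩
      have := card_le_card hsub
      rw [card_image_of_injective _ h1, card_compl, card_pair h] at this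
      simp at this
    obtain ⟨r, hr⟩ := hr
    have : Nontrivial (Fin (2 * n + 4)) := Fin.nontrivial_iff_two_le.2 (by omega)
    obtain ⟨t, ht⟩ := exists_ne z
    exact ⟨(r, t), by simp [cc, ht, hr]⟩

def labX {n : ℕ} (i : Fin (n + 3 + 1)) (x : XX n) : Fin (n + 3) × Option (Fin (2 * n + 4)) :=
  (x.1, if x.1 = rho i then some x.2 else none)

theorem cc_cases {n : ℕ} (x : XX n) (y : YY n) (i : Fin (n + 3 + 1)) (h : cc x y = i) :
    (i = y.1.2.1 ∧ labX i x = (rho i, some y.1.2.2)) ∨ (y.1.1 x.1 = i ∧ labX i x = (x.1, none)) := by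
  unfold cc at h
  split_ifs at h with h'
  · left
    refine ⟨h.symm, ?_⟩
    rw [← h]
    simp [labX, h'.1, h'.2]
  · right
    refine ⟨h, ?_⟩
    have := y.2.2.1 x.1
    rw [h] at this
    simp [labX, this.symm]

theorem labX_eq {n : ℕ} (x x' : XX n) (y : YY n) (i : Fin (n + 3 + 1)) (h : cc x y = i)
    (h' : cc x' y = i) : labX i x = labX i x' := by
  rcases cc_cases x y i h with ⟨a, b⟩ | ⟨a, b⟩ <;> rcases cc_cases x' y i h' with ⟨a', b'⟩ | ⟨a', b'⟩
  · rw [b, b']
  · exact absurd (a'.trans a) (y.2.2.2 _)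
  · exact absurd (a.trans a') (y.2.2.2 _)
  · rw [b, b', y.2.1 (a.trans a'.symm)]

noncomputable def lab {n : ℕ} (i : Fin (n + 3 + 1)) :
    XX n ⊕ YY n → Fin (n + 3) × Option (Fin (2 * n + 4))
  | .inl x => labX i x
  | .inr y => labX i (spanY i y).choose

theorem lab_reach {n : ℕ} (i : Fin (n + 3 + 1)) (u v : XX n ⊕ YY n)
    (h : (colourGraph cc i).Reachable u v) : lab i u = lab i v := by
  obtain ⟨w⟩ := h
  induction w with
  | nil => rfl
  | cons hab _ ih =>
    refine Eq.trans ?_ ih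
    rw [colourGraph, fromRel_adj] at hab
    rcases hab.2 with ⟨x, y, rfl, rfl, h⟩ | ⟨x, y, rfl, rfl, h⟩
    · exact labX_eq _ _ y i h (spanY i y).choose_spec
    · exact labX_eq _ _ y i (spanY i y).choose_spec h

theorem big {n : ℕ} (𝒞 : Finset (Set (XX n ⊕ YY n))) (h : IsComponentCover cc 𝒞) :
    2 * n + 4 ≤ 𝒞.card := by
  classical
  obtain ⟨h1, h2⟩ := h
  have : ∀ S ∈ 𝒞, ∃ (i : Fin (n + 3 + 1)) (l : Fin (n + 3) × Option (Fin (2 * n + 4))),
      ∀ v ∈ S, lab i v = l := by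
    intro S hS
    obtain ⟨i, K, rfl⟩ := h1 S hS
    obtain ⟨u, hu⟩ := K.exists_rep
    refine ⟨i, lab i u, fun v hv => lab_reach i v u ?_⟩
    rw [ConnectedComponent.mem_supp_iff, ← hu] at hv
    exact ConnectedComponent.exact hv
  choose! col l hl using this
  by_contra hlt
  obtain ⟨z0, hz0⟩ : ∃ z0, ∀ S ∈ 𝒞, (l S).2 ≠ some z0 := by
    by_contra hc
    push Not at hc
    have hsub : (univ : Finset (Fin (2 * n + 4))).image some ⊆ 𝒞.image fun S => (l S).2 := by
      intro j hj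
      obtain ⟨z, -, rfl⟩ := mem_image.1 hj
      obtain ⟨S, hS, e⟩ := hc z
      exact mem_image.2 ⟨S, hS, e⟩
    have := (card_le_card hsub).trans card_image_le
    rw [card_image_of_injective _ (Option.some_injective _)] at this
    simp at this
    omega
  refine hlt (le_trans (count (𝒞.image fun S => ((l S).1, col S)) ?_ ?_) card_image_le)
  · intro r
    obtain ⟨S, hS, hv⟩ := h2 (.inl (r, z0))
    exact ⟨col S, mem_image.2 ⟨S, hS, by rw [← hl S hS _ hv]; rfl⟩⟩
  · intro f hf hf'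
    obtain ⟨i0, h4⟩ := not_surj f
    let y : YY n := ⟨(f, i0, z0), hf, hf', h4⟩
    obtain ⟨S, hS, hv⟩ := h2 (.inr y)
    have e := hl S hS _ hv
    rcases cc_cases _ y (col S) (spanY (col S) y).choose_spec with ⟨a, b⟩ | ⟨a, b⟩
    · exact absurd (by rw [← e]; exact congrArg Prod.snd b) (hz0 S hS)
    · refine ⟨_, mem_image.2 ⟨S, hS, Prod.ext ?_ a.symm⟩⟩
      rw [← e]; rfl

def c2 {k : ℕ} (x y : Fin 2) : Fin (k + 2) := if x = y then 0 else 1

theorem small (𝒞 : Finset (Set (Fin 2 ⊕ Fin 2))) (h : IsComponentCover (c2 (k := 1)) 𝒞) :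
    2 ≤ 𝒞.card := by
  obtain ⟨h1, h2⟩ := h
  obtain ⟨S, hS, hv⟩ := h2 (.inl 0)
  obtain ⟨S', hS', hv'⟩ := h2 (.inl 1)
  refine one_lt_card.2 ⟨S, hS, S', hS', ?_⟩
  rintro rfl
  obtain ⟨i, K, rfl⟩ := h1 S hS
  rw [ConnectedComponent.mem_supp_iff] at hv hv'
  have hr := ConnectedComponent.exact (hv.trans hv'.symm)
  have key : ∀ u v, (colourGraph (c2 (k := 1)) i).Reachable u v →
      Sum.elim (fun x : Fin 2 => x) (fun y : Fin 2 => if i = 0 then y else y + 1) u =
      Sum.elim (fun x : Fin 2 => x) (fun y : Fin 2 => if i = 0 then y else y + 1) v := by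
    rintro u v ⟨w⟩
    induction w with
    | nil => rfl
    | cons hab _ ih =>
      refine Eq.trans ?_ ih
      rw [colourGraph, fromRel_adj] at hab
      have aux : ∀ (x y : Fin 2) (j : Fin 3), c2 (k := 1) x y = j →
          x = if j = 0 then y else y + 1 := by decide
      rcases hab.2 with ⟨x, y, rfl, rfl, h⟩ | ⟨x, y, rfl, rfl, h⟩
      · exact aux x y i h
      · exact (aux x y i h).symm
  exact absurd (key _ _ hr) (by simp)

theorem main (k : ℕ) (hk : 1 ≤ k) : ∃ (X Y : Type) (_ : Fintype X) (_ : Fintype Y)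
    (_ : Nonempty X) (_ : Nonempty Y) (c : X → Y → Fin k), Spanning c ∧
    ∀ 𝒞 : Finset (Set (X ⊕ Y)), IsComponentCover c 𝒞 → 2 * k ≤ 𝒞.card + 4 := by
  by_cases h2 : k ≤ 2
  · exact ⟨Unit, Unit, inferInstance, inferInstance, inferInstance, inferInstance,
      fun _ _ => ⟨0, hk⟩, fun i ⟨_, _, h⟩ => ⟨fun _ => ⟨(), h⟩, fun _ => ⟨(), h⟩⟩,
      fun _ _ => by omega⟩
  by_cases h3 : k = 3
  · subst h3
    refine ⟨Fin 2, Fin 2, inferInstance, inferInstance, inferInstance, inferInstance,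
      c2 (k := 1), by unfold Spanning; decide, fun 𝒞 h => ?_⟩
    have := small 𝒞 h
    omega
  · obtain ⟨n, rfl⟩ : ∃ n, k = n + 3 + 1 := ⟨k - 4, by omega⟩
    refine ⟨XX n, YY n, inferInstance, inferInstance, inferInstance,
      ⟨(spanX 0 (0, 0)).choose⟩, cc, fun i _ => ⟨spanX i, spanY i⟩, fun 𝒞 h => ?_⟩
    have := big 𝒞 h
    omega

end Pool.Agent.H9.Cov
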