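import Mathlib

set_option autoImplicit false

namespace Pool.Agent.H9.Cov

/-- the graph of the edges of colour i of the complete bipartite graph with classes X and Y -/
def colourGraph {X Y : Type} {k : ℕ} (c : X → Y → Fin k) (i : Fin k) : SimpleGraph (X ⊕ Y) :=
  SimpleGraph.fromRel fun u v => ∃ x y, u = Sum.inl x ∧ v = Sum.inr y ∧ c x y = i

def Spanning {X Y : Type} {k : ℕ} (c : X → Y → Fin k) : Prop :=
  ∀ i : Fin k, (∃ x y, c x y = i) → (∀ x, ∃ y, c x y = i) ∧ (∀ y, ∃ x, c x y = i)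

def IsComponentCover {X Y : Type} {k : ℕ} (c : X → Y → Fin k) (𝒞 : Finset (Set (X ⊕ Y))) : Prop :=
  (∀ S ∈ 𝒞, ∃ (i : Fin k) (K : (colourGraph c i).ConnectedComponent), S = K.supp) ∧
    ∀ v : X ⊕ Y, ∃ S ∈ 𝒞, v ∈ S

end Pool.Agent.H9.Cov
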