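import Mathlib

set_option autoImplicit false

namespace Pool.Agent.H9.CritU

/-- A graph `H` with vertices taken from `V` is `k`-critical. -/
def IsCritical {V : Type} (k : ℕ) (H : (⊤ : SimpleGraph V).Subgraph) : Prop :=
  H.coe.chromaticNumber = k ∧ ∀ H' < H, H'.coe.chromaticNumber < k

end Pool.Agent.H9.CritU
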