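import Pool.Agent.H9.CritDefs

set_option autoImplicit false

namespace Pool.Agent.H9.CritU

open SimpleGraph

variable {V : Type} {A B : SimpleGraph V}

def OW (A : SimpleGraph V) (n : ℕ) (p : ℕ → V) : Prop :=
  n % 2 = 1 ∧ p n = p 0 ∧ ∀ i < n, A.Adj (p i) (p (i + 1))

theorem ow_not {n : ℕ} {p : ℕ → V} (h : OW A n p) : ¬ A.Colorable 2 := by
  rintro ⟨c⟩
  have : ∀ i ≤ n, (c (p i)).val = ((c (p 0)).val + i) % 2 := by
    intro i
    induction i with
    | zero => intro _; have := (c (p 0)).2; omega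
    | succ i ih =>
      intro hi
      have h1 := ih (by omega)
      have h2 : (c (p i)).val ≠ (c (p (i + 1))).val := fun e => c.valid (h.2.2 i hi) (Fin.ext e)
      have := (c (p (i + 1))).2
      omega
  have h1 := this n le_rfl
  have := h.1
  rw [h.2.1] at h1
  omega

def Cyc (A : SimpleGraph V) (n : ℕ) (p : ℕ → V) : Prop :=
  n % 2 = 1 ∧ p n = p 0 ∧ (∀ i < n, ∀ j < n, p i = p j → i = j) ∧
    ∀ x y, A.Adj x y → ∃ i < n, s(x, y) = s(p i, p (i + 1))

theorem exists_cyc (h1 : ¬ A.Colorable 2)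
    (h2 : ∀ x y, A.Adj x y → (A.deleteEdges {s(x, y)}).Colorable 2) : ∃ n p, Cyc A n p := by
  classical
  have hex : ∃ n, ∃ p, OW A n p := by
    rw [two_colorable_iff_forall_loop_even] at h1
    push Not at h1
    obtain ⟨u, w, hw⟩ := h1
    exact ⟨w.length, w.getVert, Nat.odd_iff.1 (Nat.not_even_iff_odd.1 hw), by simp,
      fun i hi => w.adj_getVert_succ hi⟩
  obtain ⟨p, hp⟩ := Nat.find_spec hex
  have hmin : ∀ m < Nat.find hex, ∀ q, ¬ OW A m q := fun m hm q hq => Nat.find_min hex hm ⟨q, hq⟩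
  generalize Nat.find hex = n at hp hmin
  have inj : ∀ i j, i < j → j < n → p i ≠ p j := by
    intro i j hij hj e
    have := hp.1
    by_cases c : (j - i) % 2 = 1
    · exact hmin (j - i) (by omega) (fun k => p (i + k))
        ⟨c, by simp [show i + (j - i) = j by omega, e], fun k hk => hp.2.2 (i + k) (by omega)⟩
    · refine hmin (n - (j - i)) (by omega) (fun k => if k ≤ i then p k else p (k + (j - i)))
        ⟨by omega, ?_, fun k hk => ?_⟩
      · simp only [if_neg (show ¬ n - (j - i) ≤ i by omega), if_pos (Nat.zero_le i),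
          show n - (j - i) + (j - i) = n by omega, hp.2.1]
      · dsimp only
        split_ifs with c1 c2 c2
        · exact hp.2.2 k (by omega)
        · obtain rfl : k = i := by omega
          rw [e, show k + 1 + (j - k) = j + 1 by omega]
          exact hp.2.2 j hj
        · omega
        · rw [show k + 1 + (j - i) = k + (j - i) + 1 by omega]
          exact hp.2.2 _ (by omega)
  refine ⟨n, p, hp.1, hp.2.1, fun i hi j hj e => ?_, fun x y hxy => ?_⟩
  · rcases lt_trichotomy i j with h | h | h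
    · exact absurd e (inj i j h hj)
    · exact h
    · exact absurd e.symm (inj j i h hi)
  · by_contra hn
    push Not at hn
    exact ow_not (A := A.deleteEdges {s(x, y)}) ⟨hp.1, hp.2.1, fun i hi =>
      deleteEdges_adj.2 ⟨hp.2.2 i hi, fun e => hn i hi (Set.mem_singleton_iff.1 e).symm⟩⟩ (h2 x y hxy)

theorem Cyc.rot {n : ℕ} {p : ℕ → V} (h : Cyc A n p) {a : ℕ} (ha : a < n) :
    Cyc A n (fun k => if a + k < n then p (a + k) else p (a + k - n)) := by
  obtain ⟨h1, h2, h3, h4⟩ := h
  refine ⟨h1, by simp [ha], fun i hi j hj e => ?_, fun x y hxy => ?_⟩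
  · dsimp only at e
    split_ifs at e with c1 c2 c2 <;> have := h3 _ (by omega) _ (by omega) e <;> omega
  · obtain ⟨i, hi, e⟩ := h4 x y hxy
    by_cases c : a ≤ i
    · refine ⟨i - a, by omega, ?_⟩
      dsimp only
      rw [if_pos (by omega), show a + (i - a) = i by omega, e]
      split_ifs with c1
      · rw [show a + (i - a + 1) = i + 1 by omega]
      · rw [show a + (i - a + 1) - n = 0 by omega, show i + 1 = n by omega, h2]
    · refine ⟨i + n - a, by omega, ?_⟩
      dsimp only
      rw [if_neg (by omega), if_neg (by omega), show a + (i + n - a) - n = i by omega,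
        show a + (i + n - a + 1) - n = i + 1 by omega, e]

theorem col_of {m : ℕ} (f : V → Fin m × Fin 2) (h : ∀ x y, A.Adj x y ∨ B.Adj x y → f x ≠ f y) :
    (A ⊔ B).Colorable (2 * m) := by
  have := (Coloring.mk (G := A ⊔ B) f fun {x y} hxy => h x y hxy).colorable
  simpa [mul_comm] using this

theorem Cyc.two {n : ℕ} {p : ℕ → V} (h : Cyc A n p) {i : ℕ} (hi : i < n) :
    ∃ d : V → Fin 2, (∀ k < n, (d (p k)).val = (if k ≤ i then k else k + 1) % 2) ∧
      ∀ x y, A.Adj x y → d x = d y → s(x, y) = s(p i, p (i + 1)) := by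
  classical
  obtain ⟨h1, h2, h3, h4⟩ := h
  let ι : V → ℕ := fun x => if h : ∃ k < n, p k = x then h.choose else 0
  have hι : ∀ k < n, ι (p k) = k := fun k hk => by
    have e : ∃ j < n, p j = p k := ⟨k, hk, rfl⟩
    simp only [ι, dif_pos e]
    exact h3 _ e.choose_spec.1 _ hk e.choose_spec.2
  let d : V → Fin 2 := fun x => ⟨(if ι x ≤ i then ι x else ι x + 1) % 2, Nat.mod_lt _ (by decide)⟩
  have hd : ∀ k < n, (d (p k)).val = (if k ≤ i then k else k + 1) % 2 := fun k hk => by
    simp only [d, hι k hk]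
  refine ⟨d, hd, fun x y hxy e => ?_⟩
  obtain ⟨j, hj, e'⟩ := h4 x y hxy
  have e2 : (d (p j)).val = (d (p (j + 1))).val := by
    rcases Sym2.eq_iff.1 e' with ⟨rfl, rfl⟩ | ⟨rfl, rfl⟩
    · rw [e]
    · rw [e]
  have : j = i := by
    by_cases c : j + 1 < n
    · rw [hd j hj, hd _ c] at e2
      split_ifs at e2 <;> omega
    · rw [show j + 1 = n by omega, h2, hd j hj, hd 0 (by omega)] at e2
      split_ifs at e2 <;> omega
  rw [e', this]

theorem prod {m : ℕ} {u v x0 y0 : V} (c : V → Fin m)
    (hc : ∀ x y, B.Adj x y → c x = c y → s(x, y) = s(u, v)) (d : V → Fin 2) (hd : d u ≠ d v)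
    (hA : ∀ x y, A.Adj x y → d x = d y → s(x, y) = s(x0, y0)) (h0 : c x0 ≠ c y0) :
    (A ⊔ B).Colorable (2 * m) := by
  refine col_of (fun x => (c x, d x)) fun x y h e => ?_
  obtain ⟨e1, e2⟩ := Prod.mk.inj e
  rcases h with h | h
  · rcases Sym2.eq_iff.1 (hA x y h e2) with ⟨rfl, rfl⟩ | ⟨rfl, rfl⟩
    · exact h0 e1
    · exact h0 e1.symm
  · rcases Sym2.eq_iff.1 (hc x y h e1) with ⟨rfl, rfl⟩ | ⟨rfl, rfl⟩
    · exact hd e2
    · exact hd e2.symm

theorem core {m : ℕ} (hm : 3 ≤ m) (h1 : ¬ A.Colorable 2)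
    (h2 : ∀ x y, A.Adj x y → (A.deleteEdges {s(x, y)}).Colorable 2) (h3 : ¬ B.Colorable m)
    (h4 : ∀ x y, B.Adj x y → (B.deleteEdges {s(x, y)}).Colorable m) :
    (A ⊔ B).Colorable (2 * m) := by
  classical
  have hc : ∀ u v, B.Adj u v → ∃ c : V → Fin m,
      ∀ x y, B.Adj x y → c x = c y → s(x, y) = s(u, v) := by
    intro u v huv
    obtain ⟨c⟩ := h4 u v huv
    exact ⟨c, fun x y hxy e => by_contra fun hn => c.valid (deleteEdges_adj.2 ⟨hxy, hn⟩) e⟩
  obtain ⟨n, p, hp⟩ := exists_cyc h1 h2
  have hn := hp.1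
  by_contra hcol
  by_cases c1 : ∃ u v, B.Adj u v ∧ ∀ k < n, p k ≠ v
  · obtain ⟨u, v, huv, hv⟩ := c1
    obtain ⟨c, hc⟩ := hc u v huv
    have hAv : ∀ x y, A.Adj x y → x ≠ v := fun x y h e => by
      obtain ⟨i, hi, e'⟩ := hp.2.2.2 x y h
      rcases Sym2.eq_iff.1 e' with ⟨rfl, -⟩ | ⟨rfl, -⟩
      · exact hv i hi e
      · by_cases c : i + 1 < n
        · exact hv _ c e
        · rw [show i + 1 = n by omega, hp.2.1] at e
          exact hv 0 (by omega) e
    by_cases c2 : ∃ i < n, c (p i) ≠ c (p (i + 1))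
    · obtain ⟨i, hi, h0⟩ := c2
      obtain ⟨d, -, hd⟩ := hp.two hi
      refine hcol (prod c hc (Function.update d v (d u + 1)) ?_ (fun x y h e => hd x y h ?_) h0)
      · rw [Function.update_self, Function.update_of_ne huv.ne]
        generalize d u = t
        revert t
        decide
      · rwa [Function.update_of_ne (hAv x y h), Function.update_of_ne (hAv y x h.symm)] at e
    · push Not at c2
      have hγ : ∀ i < n, c (p i) = c (p 0) := by
        intro i
        induction i with
        | zero => exact fun _ => rfl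
        | succ i ih => exact fun hi => (c2 i (by omega)).symm.trans (ih (by omega))
      obtain ⟨j1, j2, a1, a2, a3⟩ : ∃ j1 j2 : Fin m, j1 ≠ c (p 0) ∧ j2 ≠ c (p 0) ∧ j1 ≠ j2 := by
        have := (c (p 0)).2
        by_cases e0 : (c (p 0)).val = 0
        · exact ⟨⟨1, by omega⟩, ⟨2, by omega⟩, by simp [Fin.ext_iff, e0], by simp [Fin.ext_iff, e0],
            by simp⟩
        by_cases e1 : (c (p 0)).val = 1
        · exact ⟨⟨0, by omega⟩, ⟨2, by omega⟩, by simp [Fin.ext_iff, e1], by simp [Fin.ext_iff, e1],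
            by simp⟩
        · exact ⟨⟨0, by omega⟩, ⟨1, by omega⟩, by simpa [Fin.ext_iff] using Ne.symm e0,
            by simpa [Fin.ext_iff] using Ne.symm e1, by simp⟩
      obtain ⟨d, -, hd⟩ := hp.two (i := 0) (by omega)
      let f : V → Fin m × Fin 2 := fun x => if x = v then (j2, 1) else if x = p 0 then (j1, 1)
        else if ∃ k < n, p k = x then (c (p 0), d x) else (c x, 0)
      have key : ∀ x y, f x = f y → x = y ∨ (x ≠ v ∧ y ≠ v ∧ x ≠ p 0 ∧ y ≠ p 0 ∧ c x = c y ∧
          ((∃ k < n, p k = x) → (∃ k < n, p k = y) → d x = d y)) := by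
        intro x y e
        have hx : (∃ k < n, p k = x) → c x = c (p 0) := fun ⟨k, hk, e⟩ => e ▸ hγ k hk
        have hy : (∃ k < n, p k = y) → c y = c (p 0) := fun ⟨k, hk, e⟩ => e ▸ hγ k hk
        simp only [f] at e
        split_ifs at e <;> simp_all
      refine hcol (col_of f fun x y h e => ?_)
      rcases key x y e with rfl | ⟨b1, b2, b3, b4, b5, b6⟩
      · exact h.elim (A.loopless.1 x) (B.loopless.1 x)
      rcases h with h | h
      · have hx : ∀ x y, A.Adj x y → x ≠ p 0 → ∃ k < n, p k = x := fun x y h h0 => by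
          obtain ⟨i, hi, e'⟩ := hp.2.2.2 x y h
          rcases Sym2.eq_iff.1 e' with ⟨rfl, -⟩ | ⟨rfl, -⟩
          · exact ⟨i, hi, rfl⟩
          · refine ⟨i + 1, by_contra fun c => h0 ?_, rfl⟩
            rw [show i + 1 = n by omega, hp.2.1]
        rcases Sym2.eq_iff.1 (hd x y h (b6 (hx x y h b3) (hx y x h.symm b4))) with e | e
        · exact b3 e.1
        · exact b4 e.2
      · rcases Sym2.eq_iff.1 (hc x y h b5) with e | e
        · exact b2 e.2
        · exact b1 e.1
  · push Not at c1
    obtain ⟨u, v0, huv⟩ : ∃ u v, B.Adj u v := by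
      by_contra hn
      push Not at hn
      exact h3 ⟨Coloring.mk (fun _ => ⟨0, by omega⟩) fun {x y} h => absurd h (hn x y)⟩
    obtain ⟨a, ha, rfl⟩ := c1 v0 u huv.symm
    have hq := hp.rot ha
    set q : ℕ → V := fun k => if a + k < n then p (a + k) else p (a + k - n) with hqdef
    have q0 : q 0 = p a := by simp [hqdef, ha]
    have hs : ∀ w, B.Adj (q 0) w → ∃ b, 0 < b ∧ b < n ∧ q b = w := by
      intro w hw
      obtain ⟨k, hk, rfl⟩ := c1 _ w hw
      have : ∃ b < n, q b = p k := by
        by_cases c : a ≤ k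
        · exact ⟨k - a, by omega, by simp [hqdef, show a + (k - a) = k by omega, hk]⟩
        · exact ⟨k + n - a, by omega, by
            simp [hqdef, show ¬ a + (k + n - a) < n by omega, show a + (k + n - a) - n = k by omega]⟩
      obtain ⟨b, hb, e⟩ := this
      exact ⟨b, Nat.pos_of_ne_zero fun h => hw.ne (by rw [← e, h]), hb, e⟩
    rw [← q0] at huv
    clear_value q
    have pair : ∀ b b', 0 < b → b < b' → b' < n → B.Adj (q 0) (q b) → B.Adj (q 0) (q b') →
        b % 2 ≠ b' % 2 := by
      intro b b' b0 bb b1 e1 e2 hpar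
      have ne : q b ≠ q b' := fun e => by have := hq.2.2.1 b (by omega) b' b1 e; omega
      have step : ∀ t < n, 0 < t → ∀ c : V → Fin m,
          (∀ x y, B.Adj x y → c x = c y → s(x, y) = s(q 0, q t)) → ∀ i < n,
          (if t ≤ i then t else t + 1) % 2 = 1 → c (q i) = c (q (i + 1)) := by
        intro t ht t0 c hc i hi hpar
        by_contra h0
        obtain ⟨d, hd1, hd2⟩ := hq.two hi
        refine hcol (prod c hc d (fun e => ?_) hd2 h0)
        have := congrArg Fin.val e
        rw [hd1 0 (by omega), hd1 t ht, hpar] at this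
        simp at this
      by_cases par : b % 2 = 0
      · obtain ⟨c, hc⟩ := hc _ _ e2
        have : ∀ i ≤ b, c (q 0) = c (q i) := by
          intro i
          induction i with
          | zero => exact fun _ => rfl
          | succ i ih =>
            intro hi
            exact (ih (by omega)).trans
              (step b' b1 (by omega) c hc i (by omega) (by split_ifs <;> omega))
        exact ne (Sym2.congr_right.1 (hc _ _ e1 (this b le_rfl)))
      · obtain ⟨c, hc⟩ := hc _ _ e1
        have : ∀ i, b' + i ≤ n → c (q b') = c (q (b' + i)) := by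
          intro i
          induction i with
          | zero => exact fun _ => rfl
          | succ i ih =>
            intro hi
            exact (ih (by omega)).trans
              (step b (by omega) b0 c hc (b' + i) (by omega) (by split_ifs <;> omega))
        have e := this (n - b') (by omega)
        rw [show b' + (n - b') = n by omega, hq.2.1] at e
        exact ne (Sym2.congr_right.1 (hc _ _ e2 e.symm)).symm
    obtain ⟨c, hc0⟩ := hc _ _ huv
    have nb : ∀ j : Fin m, ∃ w, B.Adj (q 0) w ∧ c w = j := by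
      intro j
      by_contra hn
      push Not at hn
      refine h3 ⟨Coloring.mk (Function.update c (q 0) j) fun {x y} h e => ?_⟩
      by_cases hx : x = q 0
      · subst hx
        rw [Function.update_self, Function.update_of_ne h.ne.symm] at e
        exact hn y h e.symm
      by_cases hy : y = q 0
      · subst hy
        rw [Function.update_self, Function.update_of_ne hx] at e
        exact hn x h.symm e
      rw [Function.update_of_ne hx, Function.update_of_ne hy] at e
      rcases Sym2.eq_iff.1 (hc0 x y h e) with e | e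
      · exact hx e.1
      · exact hy e.2
    have pair' : ∀ b b', 0 < b → b < n → 0 < b' → b' < n → B.Adj (q 0) (q b) → B.Adj (q 0) (q b') →
        c (q b) ≠ c (q b') → b % 2 ≠ b' % 2 := by
      intro b b' b0 b1 b2 b3 e1 e2 ne
      rcases lt_trichotomy b b' with h | h | h
      · exact pair b b' b0 h b3 e1 e2
      · exact absurd (h ▸ rfl) ne
      · exact (pair b' b b2 h b1 e2 e1).symm
    obtain ⟨w0, a0, e0⟩ := nb ⟨0, by omega⟩
    obtain ⟨w1, a1, e1⟩ := nb ⟨1, by omega⟩
    obtain ⟨w2, a2, e2⟩ := nb ⟨2, by omega⟩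
    obtain ⟨b0, x0, y0, rfl⟩ := hs _ a0
    obtain ⟨b1, x1, y1, rfl⟩ := hs _ a1
    obtain ⟨b2, x2, y2, rfl⟩ := hs _ a2
    have := pair' b0 b1 x0 y0 x1 y1 a0 a1 (by simp [e0, e1])
    have := pair' b0 b2 x0 y0 x2 y2 a0 a2 (by simp [e0, e2])
    have := pair' b1 b2 x1 y1 x2 y2 a1 a2 (by simp [e1, e2])
    omega

theorem span_col {H : (⊤ : SimpleGraph V).Subgraph} {k : ℕ} (h : H.coe.Colorable (k + 1)) :
    H.spanningCoe.Colorable (k + 1) := by
  classical
  obtain ⟨c⟩ := h
  refine ⟨Coloring.mk (fun x => if h : x ∈ H.verts then c ⟨x, h⟩ else 0) fun {x y} h => ?_⟩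
  simp only [dif_pos (H.edge_vert h), dif_pos (H.edge_vert h.symm)]
  exact c.valid (v := ⟨x, _⟩) (w := ⟨y, _⟩) h

theorem coe_col {H : (⊤ : SimpleGraph V).Subgraph} {k : ℕ} (h : H.spanningCoe.Colorable k) :
    H.coe.Colorable k := by
  obtain ⟨c⟩ := h
  exact ⟨Coloring.mk (fun x => c x.1) fun {x y} h => c.valid h⟩

theorem crit {H : (⊤ : SimpleGraph V).Subgraph} {k : ℕ} (h : IsCritical (k + 2) H) :
    ¬ H.spanningCoe.Colorable (k + 1) ∧ ∀ x y, H.spanningCoe.Adj x y →
      (H.spanningCoe.deleteEdges {s(x, y)}).Colorable (k + 1) := by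
  refine ⟨fun h' => ?_, fun x y hxy => ?_⟩
  · have := (coe_col h').chromaticNumber_le
    rw [h.1] at this
    have : k + 2 ≤ k + 1 := by exact_mod_cast this
    omega
  · have hlt : H.deleteEdges {s(x, y)} < H := by
      refine lt_of_le_of_ne (Subgraph.deleteEdges_le _) fun e => ?_
      have : (H.deleteEdges {s(x, y)}).Adj x y := e.symm ▸ hxy
      simp at this
    have := h.2 _ hlt
    have h2 : (H.deleteEdges {s(x, y)}).coe.Colorable (k + 1) := by
      rw [← chromaticNumber_le_iff_colorable]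
      exact Order.le_of_lt_add_one (by exact_mod_cast this)
    refine (span_col h2).mono_left fun a b hab => ?_
    simpa using hab

theorem main (l : ℕ) (hl : 4 ≤ l) (H₁ H₂ : (⊤ : SimpleGraph V).Subgraph) (h1 : IsCritical 3 H₁)
    (h2 : IsCritical l H₂) : (H₁ ⊔ H₂).coe.Colorable ((3 - 1) * (l - 1)) := by
  obtain ⟨k, rfl⟩ : ∃ k, l = k + 2 := ⟨l - 2, by omega⟩
  exact coe_col (core (m := k + 1) (by omega) (crit h1).1 (crit h1).2 (crit h2).1 (crit h2).2)

end Pool.Agent.H9.CritU
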