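import Pool.Agent.H9.DMDefs

namespace Pool.Agent.H9.DM

open SimpleGraph

theorem deg_ne {V : Type} (G : SimpleGraph V) {p q v : V} (h1 : v ≠ p) (h2 : v ≠ q) :
    deg (G ⊔ edge p q) v = deg G v := by
  unfold deg; congr 1; ext w; simp [edge_adj, h1, h2]

theorem deg_eq {V : Type} [Finite V] (G : SimpleGraph V) {p q : V} (h1 : p ≠ q)
    (h2 : ¬ G.Adj p q) : deg (G ⊔ edge p q) p = deg G p + 1 := by
  unfold deg
  rw [← Set.ncard_insert_of_notMem (a := q) (s := G.neighborSet p) h2]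
  congr 1; ext w
  simp only [mem_neighborSet, sup_adj, edge_adj, Set.mem_insert_iff, true_and, h1, false_and,
    or_false]
  constructor
  · rintro (a | a); exacts [Or.inr a, Or.inl a.1]
  · rintro (rfl | a); exacts [Or.inr ⟨rfl, h1⟩, Or.inl a]

theorem build {V α : Type} [Fintype V] (G : SimpleGraph V) (L : List α) (f : α → V)
    (R : α → α → Prop) (y v : V) (d : ℕ) (h1 : L.Nodup) (h2 : Function.Injective f)
    (h3 : L.IsChain R) (h4 : ∀ a b, R a b → G.Adj (f a) (f b)) (h5 : ∀ a ∈ L, deg G (f a) = d)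
    (h6 : ∀ a ∈ L, f a ≠ y ∧ f a ≠ v) (h7 : ∀ a ∈ L.getLast?, G.Adj (f a) y) (h8 : d ≤ deg G y)
    (h9 : deg G y ≤ deg G v) (h10 : G.Adj y v) : L.length + 2 ≤ mp G := by
  refine le_csSup ⟨Fintype.card V, ?_⟩ ⟨L.map f ++ [y, v], ⟨?_, ?_, Or.inl ?_⟩, by simp⟩
  · rintro m ⟨l, hl, rfl⟩; exact hl.1.length_le_card
  · refine List.nodup_append.2 ⟨h1.map h2, by simp [h10.ne], ?_⟩
    intro a ha b hb
    obtain ⟨c, hc, rfl⟩ := List.mem_map.1 ha
    rcases List.mem_pair.1 hb with rfl | rfl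
    exacts [(h6 c hc).1, (h6 c hc).2]
  · refine List.isChain_append.2 ⟨List.isChain_map_of_isChain f h4 h3, by simpa using h10, ?_⟩
    simpa [List.getLast?_map] using h7
  · refine List.isChain_append.2 ⟨List.Pairwise.isChain (List.pairwise_of_forall_mem_list ?_),
      by simpa using h9, fun a ha b hb => ?_⟩
    · simp only [List.forall_mem_map]
      intro a ha b hb; rw [h5 a ha, h5 b hb]
    · obtain ⟨c, hc, rfl⟩ := List.mem_map.1 (List.mem_of_mem_getLast? ha)
      obtain rfl : y = b := by simpa using hb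
      rw [h5 c hc]; exact h8

theorem len_le {V α : Type} [Fintype α] {l : List V} (h : l.Nodup) (f : α → V)
    (hf : ∀ v ∈ l, ∃ a, v = f a) : l.length ≤ Fintype.card α := by
  classical
  rw [← List.toFinset_card_of_nodup h]
  refine (Finset.card_le_card (t := Finset.univ.image f) fun v hv => ?_).trans
    Finset.card_image_le
  obtain ⟨a, rfl⟩ := hf v (List.mem_toFinset.1 hv)
  simp

variable {T I J Z Γ : Type} (H : SimpleGraph T) (gI : I → Γ) (gJ : J → Γ) (t : ℕ)

def A : (I × T) ⊕ (J × T) ⊕ (Z × Fin (t + 1)) → (I × T) ⊕ (J × T) ⊕ (Z × Fin (t + 1)) → Prop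
  | .inl p, .inl q => p.1 = q.1 ∧ H.Adj p.2 q.2
  | .inl p, .inr (.inl q) => gI p.1 = gJ q.1 ∧ p.2 = q.2
  | .inr (.inl p), .inl q => gI q.1 = gJ p.1 ∧ q.2 = p.2
  | .inr (.inr p), .inr (.inr q) => p.1 = q.1 ∧ p.2 ≠ q.2
  | _, _ => False

def G : SimpleGraph ((I × T) ⊕ (J × T) ⊕ (Z × Fin (t + 1))) where
  Adj := A H gI gJ t
  symm := ⟨by rintro (p | p | p) (q | q | q) h <;> simp_all [A, eq_comm, H.adj_comm]⟩
  loopless := ⟨by rintro (p | p | p) h <;> simp_all [A]⟩

variable [Fintype T] [Fintype I] [Fintype J] [Fintype Z]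

omit [Fintype I] [Fintype Z] in
theorem degU (p : I × T) : deg (G (Z := Z) H gI gJ t) (.inl p) =
    deg H p.2 + {j | gJ j = gI p.1}.ncard := by
  unfold deg
  rw [← Set.ncard_image_of_injective (H.neighborSet p.2)
    (f := fun x => (.inl (p.1, x) : (I × T) ⊕ (J × T) ⊕ (Z × Fin (t + 1))))
    (fun a b e => by simpa using e), ← Set.ncard_image_of_injective {j | gJ j = gI p.1}
    (f := fun j => (.inr (.inl (j, p.2)) : (I × T) ⊕ (J × T) ⊕ (Z × Fin (t + 1))))
    (fun a b e => by simpa using e), ← Set.ncard_union_eq (by simp [Set.disjoint_left])]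
  congr 1
  ext (⟨a, b⟩ | ⟨a, b⟩ | q) <;> simp [G, A, eq_comm, and_comm]

omit [Fintype T] [Fintype I] [Fintype J] [Fintype Z] in
theorem degY (p : J × T) : deg (G (Z := Z) H gI gJ t) (.inr (.inl p)) =
    {i | gI i = gJ p.1}.ncard := by
  unfold deg
  rw [← Set.ncard_image_of_injective {i | gI i = gJ p.1}
    (f := fun i => (.inl (i, p.2) : (I × T) ⊕ (J × T) ⊕ (Z × Fin (t + 1))))
    (fun a b e => by simpa using e)]
  congr 1
  ext (⟨a, b⟩ | ⟨a, b⟩ | q) <;> simp [G, A, eq_comm]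

omit [Fintype T] [Fintype I] [Fintype J] [Fintype Z] in
theorem degW (p : Z × Fin (t + 1)) : deg (G H gI gJ t) (.inr (.inr p)) = t := by
  unfold deg
  have : ({p.2}ᶜ : Set (Fin (t + 1))).ncard = t := by
    have := Set.ncard_add_ncard_compl ({p.2} : Set (Fin (t + 1)))
    simp only [Set.ncard_singleton, Nat.card_eq_fintype_card, Fintype.card_fin] at this
    omega
  refine Eq.trans ?_ this
  rw [← Set.ncard_image_of_injective {p.2}ᶜ
    (f := fun s => (.inr (.inr (p.1, s)) : (I × T) ⊕ (J × T) ⊕ (Z × Fin (t + 1))))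
    (fun a b e => by simpa using e)]
  congr 1
  ext (q | q | ⟨a, b⟩) <;> simp [G, A, eq_comm, and_comm]

theorem sat (δ : ℕ) (ht : Fintype.card T = t) (hreg : ∀ x, deg H x = δ)
    (ham : ∀ x, ∃ L : List T, L.Nodup ∧ L.length = t ∧ L.IsChain H.Adj ∧ L.getLast? = some x)
    (h1 : ∀ γ, {i | gI i = γ}.ncard = {j | gJ j = γ}.ncard + δ + 1)
    (h2 : ∀ γ, 2 ≤ {j | gJ j = γ}.ncard) : Sat (t + 2) (G (Z := Z) H gI gJ t) := by
  classical
  have dU := degU (Z := Z) H gI gJ t
  have dY := degY (Z := Z) H gI gJ t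
  have dW := degW (Z := Z) H gI gJ t
  have adj : ∀ a b, (G (Z := Z) H gI gJ t).Adj a b ↔ A H gI gJ t a b := fun _ _ => Iff.rfl
  generalize G (Z := Z) H gI gJ t = K at *
  have up : ∀ l : List _, l.Nodup → l.IsChain K.Adj → l.IsChain (fun a b => deg K a ≤ deg K b) →
      l.length ≤ t + 1 := by
    have k1 : ∀ l p, (Sum.inr (.inr p) :: l).IsChain K.Adj →
        ∀ v ∈ Sum.inr (.inr p) :: l, ∃ s, v = .inr (.inr (p.1, s)) := by
      intro l
      induction l with
      | nil => intro p _ v hv; exact ⟨p.2, by simpa using hv⟩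
      | cons b l ih =>
        intro p c v hv
        rw [List.isChain_cons_cons, adj] at c
        rcases List.mem_cons.1 hv with rfl | hv
        · exact ⟨p.2, rfl⟩
        · rcases b with q | q | q
          · exact c.1.elim
          · exact c.1.elim
          · rw [c.1.1]; exact ih q c.2 v hv
    have k2 : ∀ l p, (Sum.inr (.inl p) :: l).IsChain K.Adj →
        (Sum.inr (.inl p) :: l).IsChain (fun a b => deg K a ≤ deg K b) → l = [] := by
      rintro (_ | ⟨b, l⟩) p c d
      · rfl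
      rw [List.isChain_cons_cons] at c d
      rw [adj] at c
      rcases b with q | q | q
      · have := d.1
        rw [dU, dY, h1, hreg, c.1.1] at this
        omega
      · exact c.1.elim
      · exact c.1.elim
    have k3 : ∀ l p, (Sum.inl p :: l).IsChain K.Adj →
        (Sum.inl p :: l).IsChain (fun a b => deg K a ≤ deg K b) →
        ∀ v ∈ (Sum.inl p :: l).dropLast, ∃ x, v = .inl (p.1, x) := by
      intro l
      induction l with
      | nil => simp
      | cons b l ih =>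
        intro p c d v hv
        rw [List.isChain_cons_cons] at c d
        rw [adj] at c
        rcases List.mem_cons.1 hv with rfl | hv
        · exact ⟨p.2, rfl⟩
        · rcases b with q | q | q
          · rw [c.1.1]; exact ih q c.2 d.2 v hv
          · obtain rfl := k2 l q c.2 d.2
            simp at hv
          · exact c.1.elim
    rintro (_ | ⟨p | p | p, l⟩) a b c
    · simp
    · have := len_le (a.sublist (List.dropLast_sublist _)) _ (k3 l p b c)
      simp only [List.length_dropLast, List.length_cons] at this ⊢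
      omega
    · rw [k2 l p b c]; simp
    · simpa using len_le a _ (k1 l p b)
  have cU : ∀ p q, Sum.inl p ≠ q → ¬ K.Adj (.inl p) q → t + 2 ≤ mp (K ⊔ edge (.inl p) q) := by
    intro p q n1 n2
    obtain ⟨j, hj⟩ : {j | gJ j = gI p.1}.Nonempty :=
      Set.nonempty_of_ncard_ne_zero (by have := h2 (gI p.1); omega)
    obtain ⟨i, hi, i1⟩ := Set.exists_mem_notMem_of_ncard_lt_ncard (t := {i | gI i = gI p.1})
      (s := {p.1, Sum.elim Prod.fst (fun _ => p.1) q})
      (by have := h2 (gI p.1); have := h1 (gI p.1)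
          have := Set.ncard_insert_le p.1 {Sum.elim Prod.fst (fun _ => p.1) q}
          rw [Set.ncard_singleton] at this; omega)
    simp only [Set.mem_insert_iff, Set.mem_singleton_iff, not_or] at i1
    have a1 : ∀ x, Sum.inl (i, x) ≠ q := by rintro x rfl; exact i1.2 rfl
    have a2 : ∀ x, Sum.inl (i, x) ≠ (.inl p : _ ⊕ (J × T) ⊕ (Z × Fin (t + 1))) := fun x e =>
      i1.1 (congrArg Prod.fst (Sum.inl.inj e))
    have a3 : K.Adj (.inr (.inl (j, p.2))) (.inl p) := (adj _ _).2 ⟨hj.symm, rfl⟩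
    have a4 : .inr (.inl (j, p.2)) ≠ q := by rintro rfl; exact n2 a3.symm
    have hi' : gI i = gI p.1 := hi
    have hj' : gJ j = gI p.1 := hj
    obtain ⟨L, l1, l2, l3, l4⟩ := ham p.2
    refine (Nat.add_le_add_right l2.ge 2).trans <| build _ L (fun x => .inl (i, x)) H.Adj (.inr (.inl (j, p.2))) (.inl p)
      (δ + {j | gJ j = gI p.1}.ncard) l1 (fun a b e => by simpa using e) l3
      (fun a b e => Or.inl ((adj _ _).2 ⟨rfl, e⟩)) (fun a _ => ?_) (fun a _ => ⟨by simp, a2 a⟩)
      (fun a ha => Or.inl ((adj _ _).2 ⟨hi'.trans hj'.symm, by simpa [l4, eq_comm] using ha⟩))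
      ?_ ?_ (Or.inl a3)
    · rw [deg_ne _ (a2 a) (a1 a), dU, hreg, hi']
    · rw [deg_ne _ (by simp) a4, dY, h1, hj']; omega
    · rw [deg_ne _ (by simp) a4, deg_eq _ n1 n2, dY, dU, h1, hj', hreg]; omega
  have cY : ∀ p q, (Sum.inr p : (I × T) ⊕ _) ≠ .inr q → ¬ K.Adj (.inr p) (.inr q) →
      deg K (.inr p) ≤ deg K (.inr q) → t + 2 ≤ mp (K ⊔ edge (.inr p) (.inr q)) := by
    intro p q n1 n2 n3
    have e1 := deg_eq K n1 n2
    have e2 := deg_eq K n1.symm fun z => n2 z.symm
    rw [edge_comm] at e2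
    have e3 : (K ⊔ edge (.inr p) (.inr q)).Adj (.inr p) (.inr q) :=
      Or.inr (by simp [edge_adj, n1])
    rcases p with p | p
    · obtain ⟨i, hi⟩ : {i | gI i = gJ p.1}.Nonempty :=
        Set.nonempty_of_ncard_ne_zero (by have := h1 (gJ p.1); omega)
      have hi' : gI i = gJ p.1 := hi
      obtain ⟨L, l1, l2, l3, l4⟩ := ham p.2
      refine (Nat.add_le_add_right l2.ge 2).trans <| build _ L (fun x => .inl (i, x)) H.Adj
        (.inr (.inl p)) (.inr q)
        (δ + {j | gJ j = gJ p.1}.ncard) l1 (fun a b e => by simpa using e) l3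
        (fun a b e => Or.inl ((adj _ _).2 ⟨rfl, e⟩)) (fun a _ => ?_) (fun a _ => by simp)
        (fun a ha => Or.inl ((adj _ _).2 ⟨hi', by simpa [l4, eq_comm] using ha⟩))
        ?_ (by omega) e3
      · rw [deg_ne _ (by simp) (by simp), dU, hreg, hi']
      · rw [e1, dY, h1]; omega
    · have a1 : ∀ s ∈ (Finset.univ.erase p.2).toList, K.Adj (.inr (.inr (p.1, s))) (.inr (.inr p)) :=
        fun s hs => (adj _ _).2 ⟨rfl, by simpa using hs⟩
      have a2 : ∀ s ∈ (Finset.univ.erase p.2).toList, (.inr (.inr (p.1, s)) :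
          (I × T) ⊕ _) ≠ .inr q := fun s hs e => n2 (e ▸ (a1 s hs).symm)
      have := build (K ⊔ edge (.inr (.inr p)) (.inr q)) (Finset.univ.erase p.2).toList
        (fun s => .inr (.inr (p.1, s))) (· ≠ ·) _ _ t (Finset.nodup_toList _)
        (fun a b e => by simpa using e) (List.Pairwise.isChain (Finset.nodup_toList _))
        (fun a b e => Or.inl ((adj _ _).2 ⟨rfl, e⟩))
        (fun a ha => by rw [deg_ne _ (a1 a ha).ne (a2 a ha), dW])
        (fun a ha => ⟨(a1 a ha).ne, a2 a ha⟩)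
        (fun a ha => Or.inl (a1 a (List.mem_of_mem_getLast? ha))) (by rw [e1, dW]; omega)
        (by omega) e3
      simpa using this
  refine ⟨Nat.lt_succ_of_le (csSup_le ⟨0, [], by simp [IsDM], rfl⟩ ?_), ?_⟩
  · rintro m ⟨l, ⟨a, b, c | c⟩, rfl⟩
    · exact up l a b c
    · simpa using up l.reverse (List.nodup_reverse.2 a)
        (List.isChain_reverse.2 (b.imp fun _ _ z => z.symm)) (List.isChain_reverse.2 c)
  · rintro (p | p) q n1 n2
    · exact cU p q n1 n2
    rcases q with q | q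
    · rw [edge_comm]; exact cU q _ n1.symm fun z => n2 z.symm
    rcases le_total (deg K (.inr p)) (deg K (.inr q)) with c | c
    · exact cY p q n1 n2 c
    · rw [edge_comm]; exact cY q p n1.symm (fun z => n2 z.symm) c

theorem edges (δ : ℕ) (ht : Fintype.card T = t) (hreg : ∀ x, deg H x = δ) (hδ : δ ≤ 2)
    (h1 : ∀ γ, {i | gI i = γ}.ncard = {j | gJ j = γ}.ncard + δ + 1)
    (h2 : ∀ γ, {j | gJ j = γ}.ncard ≤ 3) : 2 * (G (Z := Z) H gI gJ t).edgeSet.ncard ≤
      6 * ((Fintype.card I + Fintype.card J) * t) + t * (Fintype.card Z * (t + 1)) := by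
  classical
  have e : ∀ v, (G (Z := Z) H gI gJ t).degree v = deg (G (Z := Z) H gI gJ t) v := fun v => by
    rw [deg, Set.ncard_eq_toFinset_card']; rfl
  rw [Set.ncard_eq_toFinset_card', ← edgeFinset, ← sum_degrees_eq_twice_card_edges,
    Fintype.sum_sum_type, Fintype.sum_sum_type]
  simp only [e, degW]
  have a := Finset.sum_le_card_nsmul Finset.univ
    (fun p : I × T => deg (G (Z := Z) H gI gJ t) (.inl p)) 6 fun p _ => by
      rw [degU, hreg]; have := h2 (gI p.1); omega
  have b := Finset.sum_le_card_nsmul Finset.univ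
    (fun p : J × T => deg (G (Z := Z) H gI gJ t) (.inr (.inl p))) 6 fun p _ => by
      rw [degY, h1]; have := h2 (gJ p.1); omega
  simp only [Finset.card_univ, Fintype.card_prod, ht, smul_eq_mul, Finset.sum_const,
    Fintype.card_fin] at a b ⊢
  nlinarith

theorem fib {Γ : Type} (f : Γ → ℕ) (γ : Γ) : {i : Σ γ, Fin (f γ) | i.1 = γ}.ncard = f γ := by
  have : {i : Σ γ, Fin (f γ) | i.1 = γ} = Sigma.mk γ '' Set.univ := by
    ext ⟨a, b⟩
    simp only [Set.mem_ofPred_eq, Set.image_univ, Set.mem_range]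
    exact ⟨by rintro rfl; exact ⟨b, rfl⟩, fun ⟨c, e⟩ => (congrArg Sigma.fst e).symm⟩
  rw [this, Set.ncard_image_of_injective _ sigma_mk_injective]; simp

theorem cyc (t : ℕ) (x : Fin t) : ∃ L : List (Fin t), L.Nodup ∧ L.length = t ∧
    L.IsChain (cycleGraph t).Adj ∧ L.getLast? = some x := by
  obtain ⟨s, rfl⟩ : ∃ s, t = s + 1 := ⟨t - 1, by have := x.2; omega⟩
  refine ⟨List.ofFn fun i => x + (i + 1), List.nodup_ofFn.2 fun a b e => by simpa using e,
    by simp, ?_, by rw [List.ofFn_succ_last, List.getLast?_concat]; simp⟩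
  rw [List.isChain_iff_getElem]
  intro i hi
  rw [List.length_ofFn] at hi
  simp only [List.getElem_ofFn, cycleGraph_adj']
  right
  rw [add_sub_add_left_eq_sub, add_sub_add_right_eq_sub, Fin.sub_val_of_le (by simp [Fin.le_def])]
  simp

theorem bound (t δ x y z : ℕ) (hreg : ∀ v, deg (cycleGraph t) v = δ) (hδ : δ ≤ 2) (n : ℕ)
    (hn : n = (x * (5 + δ) + y * (7 + δ)) * t + z * (t + 1)) (hz : t * (z * (t + 1)) ≤ n) :
    h n (t + 2) ≤ 4 * n ∧
    ∃ (V : Type) (_ : Fintype V) (G : SimpleGraph V), Fintype.card V = n ∧ Sat (t + 2) G := by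
  let a : Fin x ⊕ Fin y → ℕ := Sum.elim (fun _ => 2) fun _ => 3
  have h1 : ∀ γ, {i : Σ γ, Fin (a γ + δ + 1) | i.1 = γ}.ncard =
      {j : Σ γ, Fin (a γ) | j.1 = γ}.ncard + δ + 1 := fun γ => by rw [fib, fib]
  have h2 : ∀ γ, 2 ≤ a γ ∧ a γ ≤ 3 := by rintro (γ | γ) <;> simp [a]
  have c : Fintype.card (Σ γ, Fin (a γ + δ + 1)) + Fintype.card (Σ γ, Fin (a γ)) =
      x * (5 + δ) + y * (7 + δ) := by
    simp [a, Fintype.sum_sum_type]; ring
  have e := edges (Z := Fin z) (cycleGraph t) _ _ t δ (by simp) hreg hδ h1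
    fun γ => by rw [fib]; exact (h2 γ).2
  rw [c, Fintype.card_fin] at e
  have st := sat (Z := Fin z) (cycleGraph t) _ _ t δ (by simp)
    hreg (cyc t) h1 fun γ => by rw [fib]; exact (h2 γ).1
  generalize G (Z := Fin z) (cycleGraph t) _ _ t = K at e st
  have : K.edgeSet.ncard ≤ 4 * n := by omega
  have cd : Fintype.card (((Σ γ, Fin (a γ + δ + 1)) × Fin t) ⊕ ((Σ γ, Fin (a γ)) × Fin t) ⊕
      (Fin z × Fin (t + 1))) = n := by
    rw [hn, ← c]
    simp only [Fintype.card_sum, Fintype.card_prod, Fintype.card_fin]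
    ring
  refine ⟨le_trans (Nat.sInf_le ?_) this, _, inferInstance, K, cd, st⟩
  exact ⟨_, inferInstance, K, cd, st, rfl⟩

theorem final (t : ℕ) : ∃ N, ∀ n ≥ N, h n (t + 2) ≤ 4 * n ∧
    ∃ (V : Type) (_ : Fintype V) (G : SimpleGraph V), Fintype.card V = n ∧ Sat (t + 2) G := by
  have dd : ∀ t v, deg (cycleGraph t) v = (cycleGraph t).degree v := fun t v => by
    rw [deg, Set.ncard_eq_toFinset_card']; rfl
  rcases t with _ | _ | _ | s
  · exact ⟨0, fun n _ => bound 0 0 0 0 n (fun v => v.elim0) (by omega) n (by simp) (by simp)⟩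
  · exact ⟨40, fun n hn => bound 1 0 ((n - 7 * (3 * n % 5)) / 5) (3 * n % 5) 0
      (fun v => by rw [dd]; revert v; decide) (by omega) n (by omega) (by omega)⟩
  · exact ⟨100, fun n hn => bound 2 1 ((n - 3 * (3 * n % 4) - 16 * ((n - 3 * (3 * n % 4)) % 3)) / 12)
      ((n - 3 * (3 * n % 4)) % 3) (3 * n % 4)
      (fun v => by rw [dd]; revert v; decide) (by omega) n (by omega) (by omega)⟩
  · refine ⟨(s + 3) * ((s + 3) * (s + 3 + 1)) + (s + 3) * (s + 3 + 60), fun n hn => ?_⟩
    have dr : ∀ v, deg (cycleGraph (s + 3)) v = 2 := fun v => by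
      rw [dd, cycleGraph_degree_three_le]
    generalize ht : s + 3 = t at *
    have t0 : 0 < t := by omega
    have z1 := Nat.mod_lt n t0
    have z2 := Nat.div_add_mod n t
    have z3 : t + 60 ≤ n / t := (Nat.le_div_iff_mul_le t0).2 (by rw [mul_comm]; omega)
    obtain ⟨x, y, e⟩ : ∃ x y, n / t = n % t + (x * (5 + 2) + y * (7 + 2)) :=
      ⟨(n / t - n % t - 9 * (4 * (n / t - n % t) % 7)) / 7, 4 * (n / t - n % t) % 7, by omega⟩
    subst ht
    refine bound _ 2 x y (n % (s + 3)) dr le_rfl n (by rw [e] at z2; nlinarith) ?_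
    exact (Nat.mul_le_mul_left _ (Nat.mul_le_mul_right _ z1.le)).trans (by omega)

end Pool.Agent.H9.DM
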