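import Mathlib

namespace Pool.Agent.H9.DM

/-- The degree of a vertex. -/
noncomputable def deg {V : Type} (G : SimpleGraph V) (v : V) : ℕ := (G.neighborSet v).ncard

/-- A degree monotone path, given as the list of its vertices. -/
def IsDM {V : Type} (G : SimpleGraph V) (l : List V) : Prop :=
  l.Nodup ∧ l.IsChain G.Adj ∧
    (l.IsChain (fun a b => deg G a ≤ deg G b) ∨ l.IsChain (fun a b => deg G b ≤ deg G a))

/-- The largest number of vertices of a degree monotone path. -/
noncomputable def mp {V : Type} (G : SimpleGraph V) : ℕ := sSup {m | ∃ l, IsDM G l ∧ l.length = m}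

/-- `G` is `k`-saturated. -/
def Sat {V : Type} (k : ℕ) (G : SimpleGraph V) : Prop :=
  mp G < k ∧ ∀ u v, u ≠ v → ¬ G.Adj u v → k ≤ mp (G ⊔ SimpleGraph.edge u v)

/-- The least number of edges of a `k`-saturated graph on `n` vertices. -/
noncomputable def h (n k : ℕ) : ℕ :=
  sInf {m | ∃ (V : Type) (_ : Fintype V) (G : SimpleGraph V),
    Fintype.card V = n ∧ Sat k G ∧ G.edgeSet.ncard = m}

end Pool.Agent.H9.DM
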