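import Mathlib

set_option autoImplicit false

namespace Pool.Agent.H9.Dir

open Finset Real

theorem minorant (φ : ℝ) : 5 / 2 - 8 / 3 * cos φ + 1 / 6 * cos (2 * φ) ≤ φ ^ 2 := by
  have d1 : ∀ x : ℝ, HasDerivAt (fun x => 2 * x - 8 / 3 * sin x + 1 / 3 * sin (2 * x))
      (4 / 3 * (1 - cos x) ^ 2) x := by
    intro x
    have h := (((hasDerivAt_id x).const_mul 2).sub ((hasDerivAt_sin x).const_mul (8 / 3))).add
      ((((hasDerivAt_id x).const_mul 2).sin).const_mul (1 / 3))
    exact HasDerivAt.congr_deriv h (by simp only [id, cos_two_mul]; ring)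
  have m1 := monotone_of_hasDerivAt_nonneg d1 (fun x => by positivity)
  have d2 : ∀ x : ℝ, HasDerivAt (fun x => x ^ 2 + 8 / 3 * cos x - 1 / 6 * cos (2 * x))
      (2 * x - 8 / 3 * sin x + 1 / 3 * sin (2 * x)) x := by
    intro x
    have h := (((hasDerivAt_id x).pow 2).add ((hasDerivAt_cos x).const_mul (8 / 3))).sub
      ((((hasDerivAt_id x).const_mul 2).cos).const_mul (1 / 6))
    exact HasDerivAt.congr_deriv h (by simp only [id]; push_cast; ring)
  have key : ∀ x : ℝ, 0 ≤ x → 5 / 2 - 8 / 3 * cos x + 1 / 6 * cos (2 * x) ≤ x ^ 2 := by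
    intro x hx
    have m2 : MonotoneOn (fun x : ℝ => x ^ 2 + 8 / 3 * cos x - 1 / 6 * cos (2 * x)) (Set.Ici 0) := by
      refine monotoneOn_of_deriv_nonneg (convex_Ici 0) (by fun_prop) (by fun_prop) fun y hy => ?_
      rw [(d2 y).deriv]
      have := m1 (interior_subset hy : (0 : ℝ) ≤ y)
      simpa using this
    have := m2 (Set.mem_Ici.2 le_rfl) hx hx
    simp at this
    linarith
  rcases le_total 0 φ with h | h
  · exact key φ h
  · have := key (-φ) (by linarith)
    rwa [mul_neg, cos_neg, cos_neg, neg_sq] at this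

/-- functions killed by D successive differences -/
def PD {p : ℕ} : ℕ → (ZMod p → ZMod p) → Prop
  | 0, f => ∀ x, f x = 0
  | D + 1, f => ∀ h, PD D fun x => f (x + h) - f x

theorem PD.smul {p : ℕ} (a : ZMod p) : ∀ (D : ℕ) (f : ZMod p → ZMod p), PD D f →
    PD D fun x => a * f x
  | 0, f, h => fun x => by
    show a * f x = 0
    rw [h x, mul_zero]
  | D + 1, f, h => fun t => by
    have := PD.smul a D _ (h t)
    simpa only [mul_sub] using this

theorem const_of_period {p : ℕ} [Fact p.Prime] (f : ZMod p → ZMod p) (h : ZMod p) (hh : h ≠ 0)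
    (hf : ∀ x, f (x + h) = f x) (x y : ZMod p) : f x = f y := by
  have : ∀ n : ℕ, f (x + n * h) = f x := by
    intro n
    induction n with
    | zero => simp
    | succ n ih => rw [Nat.cast_succ, add_mul, one_mul, ← add_assoc, hf, ih]
  have e := this ((y - x) / h).val
  rw [ZMod.natCast_zmod_val, div_mul_cancel₀ _ hh, add_sub_cancel] at e
  exact e.symm

theorem normSq_sum {p : ℕ} [NeZero p] (f : ZMod p → ZMod p) :
    ((‖∑ x, ZMod.stdAddChar (f x)‖ ^ 2 : ℝ) : ℂ) =
      ∑ h, ∑ x, ZMod.stdAddChar (f (x + h) - f x) := by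
  rw [sum_comm]
  have : ∀ x : ZMod p, ∑ h, ZMod.stdAddChar (f (x + h) - f x) =
      (∑ y, ZMod.stdAddChar (f y)) * (starRingEnd ℂ) (ZMod.stdAddChar (f x)) := by
    intro x
    rw [sum_mul]
    conv_rhs => rw [← Equiv.sum_comp (Equiv.addLeft x)]
    refine sum_congr rfl fun h _ => ?_
    rw [← AddChar.map_neg_eq_conj, ← AddChar.map_add_eq_mul, sub_eq_add_neg]
    rfl
  simp only [this]
  rw [← mul_sum, ← map_sum (starRingEnd ℂ), Complex.mul_conj, Complex.normSq_eq_norm_sq]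

theorem weyl (D : ℕ) : ∀ ε : ℝ, 0 < ε → ∃ p0 : ℕ, ∀ (p : ℕ) [Fact p.Prime], p0 < p →
    ∀ f : ZMod p → ZMod p, PD (D + 1) f → (∃ x y, f x ≠ f y) →
      ‖∑ x, ZMod.stdAddChar (f x)‖ ≤ ε * p := by
  induction D with
  | zero =>
    intro ε _
    refine ⟨0, fun p _ _ f hf ⟨x, y, hxy⟩ => absurd ?_ hxy⟩
    have := hf (x - y) y
    simpa [sub_eq_zero] using this
  | succ D ih =>
    intro ε hε
    obtain ⟨p1, h1⟩ := ih (ε ^ 2 / 2) (by positivity)
    obtain ⟨p2, h2⟩ := exists_nat_gt (2 / ε ^ 2)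
    refine ⟨max p1 p2, fun p _ hp f hf ⟨x0, y0, hxy⟩ => ?_⟩
    have hp1 : p1 < p := lt_of_le_of_lt (le_max_left _ _) hp
    have hp2 : (p2 : ℝ) < p := by exact_mod_cast lt_of_le_of_lt (le_max_right _ _) hp
    have hp0 : (0 : ℝ) < p := lt_of_le_of_lt (Nat.cast_nonneg _) hp2
    by_cases hc : ∃ h, h ≠ 0 ∧ ∀ x y, f (x + h) - f x = f (y + h) - f y
    · obtain ⟨h, hh, hc⟩ := hc
      have e : ∀ x, f (x + h) = (f (0 + h) - f 0) + f x := fun x => by rw [← hc x 0]; ring
      have hne : f (0 + h) - f 0 ≠ 0 := fun e0 =>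
        hxy (const_of_period f h hh (fun x => by rw [e x, e0, zero_add]) x0 y0)
      have s : ∑ x, ZMod.stdAddChar (f x) =
          ZMod.stdAddChar (f (0 + h) - f 0) * ∑ x, ZMod.stdAddChar (f x) := by
        conv_lhs => rw [← Equiv.sum_comp (Equiv.addRight h)]
        rw [mul_sum]
        refine sum_congr rfl fun x _ => ?_
        rw [← AddChar.map_add_eq_mul, ← e x]
        rfl
      have n1 : ZMod.stdAddChar (f (0 + h) - f 0) ≠ 1 := by
        rw [← (ZMod.stdAddChar (N := p)).map_zero_eq_one]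
        exact ZMod.injective_stdAddChar.ne hne
      have z : ∑ x, ZMod.stdAddChar (f x) = 0 := by
        by_contra hz
        exact n1 (mul_right_cancel₀ hz (by rw [← s, one_mul]))
      rw [z, norm_zero]
      positivity
    · push Not at hc
      have b : ∀ h : ZMod p, ‖∑ x, ZMod.stdAddChar (f (x + h) - f x)‖ ≤
          (if h = 0 then (p : ℝ) else 0) + ε ^ 2 / 2 * p := by
        intro h
        split_ifs with hh
        · subst hh
          simp
          positivity
        · rw [zero_add]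
          exact h1 p hp1 _ (hf h) (hc h hh)
      have t : ‖∑ x, ZMod.stdAddChar (f x)‖ ^ 2 ≤ p + p * (ε ^ 2 / 2 * p) := by
        have := congrArg norm (normSq_sum f)
        rw [Complex.norm_real, Real.norm_of_nonneg (by positivity)] at this
        rw [this]
        refine (norm_sum_le _ _).trans ((sum_le_sum fun h _ => b h).trans (le_of_eq ?_))
        simp [sum_add_distrib]
      have u : (p : ℝ) ≤ ε ^ 2 / 2 * p * p := by
        have : 2 / ε ^ 2 < p := h2.trans hp2
        rw [div_lt_iff₀ (by positivity)] at this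
        nlinarith
      refine le_of_sq_le_sq ?_ (by positivity)
      nlinarith

theorem var_lower (D : ℕ) : ∃ p0 : ℕ, ∀ (p : ℕ) [Fact p.Prime], p0 < p →
    ∀ h : ZMod p → ℤ, PD (D + 1) (fun x => (h x : ZMod p)) →
      (∃ x y, (h x : ZMod p) ≠ (h y : ZMod p)) →
      (p : ℝ) ^ 3 / 16 < ∑ x, (h x : ℝ) ^ 2 := by
  obtain ⟨p0, h0⟩ := weyl D (1 / 100) (by norm_num)
  refine ⟨max p0 2, fun p hp hlt h hD ⟨x0, y0, hxy⟩ => ?_⟩
  have hp1 : p0 < p := lt_of_le_of_lt (le_max_left _ _) hlt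
  have hp2 : 2 < p := lt_of_le_of_lt (le_max_right _ _) hlt
  have hp0 : (0 : ℝ) < p := by exact_mod_cast hp.out.pos
  have two : (2 : ZMod p) ≠ 0 := by
    intro e
    have := (ZMod.natCast_eq_zero_iff 2 p).1 (by exact_mod_cast e)
    exact absurd (Nat.le_of_dvd (by norm_num) this) (by omega)
  have b1 := h0 p hp1 _ hD ⟨x0, y0, hxy⟩
  have b2 := h0 p hp1 _ (PD.smul 2 _ _ hD) ⟨x0, y0, fun e => hxy (mul_left_cancel₀ two e)⟩
  have re1 : ∀ j : ℤ, (ZMod.stdAddChar (j : ZMod p)).re = cos (2 * π * j / p) := by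
    intro j
    rw [ZMod.stdAddChar_coe, ← Complex.exp_ofReal_mul_I_re]
    congr 2
    push_cast
    ring
  have c1 : ∑ x, cos (2 * π * h x / p) ≤ 1 / 100 * p := by
    refine le_trans ?_ b1
    refine le_trans (le_of_eq ?_) (Complex.re_le_norm _)
    rw [Complex.re_sum]
    exact sum_congr rfl fun x _ => (re1 _).symm
  have c2 : -(1 / 100 * p : ℝ) ≤ ∑ x, cos (2 * (2 * π * h x / p)) := by
    refine le_trans (neg_le_neg b2) ?_
    refine le_trans (neg_le_of_abs_le (Complex.abs_re_le_norm _)) (le_of_eq ?_)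
    rw [Complex.re_sum]
    refine sum_congr rfl fun x _ => ?_
    have := re1 (2 * h x)
    push_cast at this
    rw [this]
    congr 1
    ring
  have s := sum_le_sum fun x (_ : x ∈ (univ : Finset (ZMod p))) => minorant (2 * π * h x / p)
  rw [sum_add_distrib, sum_sub_distrib, ← mul_sum, ← mul_sum, sum_const, card_univ, ZMod.card,
    nsmul_eq_mul] at s
  have e : ∑ x, (2 * π * h x / p) ^ 2 = 4 * π ^ 2 / p ^ 2 * ∑ x, (h x : ℝ) ^ 2 := by
    rw [mul_sum]
    exact sum_congr rfl fun x _ => by field_simp; ring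
  rw [e] at s
  obtain ⟨V, hV⟩ : ∃ V, V = ∑ x, (h x : ℝ) ^ 2 := ⟨_, rfl⟩
  rw [← hV] at s ⊢
  have s2 : (247 / 100 : ℝ) * p ≤ 4 * π ^ 2 * V / p ^ 2 := by
    rw [← div_mul_eq_mul_div]; linarith
  rw [le_div_iff₀ (by positivity)] at s2
  have hpi : π ^ 2 < 9.87 := by nlinarith [pi_lt_d4, pi_pos]
  by_contra hle
  push Not at hle
  have hp3 : 0 < (p : ℝ) ^ 3 := by positivity
  have : 4 * π ^ 2 * V ≤ 4 * π ^ 2 * (p ^ 3 / 16) := by gcongr
  nlinarith

end Pool.Agent.H9.Dir
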