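import Pool.Agent.H9.Dir1

set_option autoImplicit false

namespace Pool.Agent.H9.Dir

open Finset

variable {p : ℕ}

def u (d : Option (ZMod p)) (q : ZMod p × ZMod p) : ZMod p := d.elim q.1 (fun m => q.2 - m * q.1)

theorem u_add (d : Option (ZMod p)) (q v : ZMod p × ZMod p) : u d (q + v) = u d q + u d v := by
  cases d <;> simp [u]
  ring

theorem u_surj (d : Option (ZMod p)) (b : ZMod p) : ∃ q, u d q = b := by
  cases d
  · exact ⟨(b, 0), rfl⟩
  · exact ⟨(0, b), by simp [u]⟩

theorem u_two [Fact p.Prime] (d d' : Option (ZMod p)) (h : d ≠ d') (t : ZMod p) :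
    ∃ v, u d' v = 0 ∧ u d v = t := by
  rcases d with _ | m <;> rcases d' with _ | m'
  · exact absurd rfl h
  · exact ⟨(t, m' * t), by simp [u], rfl⟩
  · exact ⟨(0, t), rfl, by simp [u]⟩
  · have : m' - m ≠ 0 := fun e => h (by rw [sub_eq_zero.1 e])
    refine ⟨(t / (m' - m), m' * (t / (m' - m))), by simp [u], ?_⟩
    simp only [u, Option.elim]
    field_simp

theorem poly [Fact p.Prime] (J : Finset (Option (ZMod p))) : ∀ (d0 : Option (ZMod p)), d0 ∉ J →
    ∀ (F : Option (ZMod p) → ZMod p → ZMod p) (f : ZMod p → ZMod p) (c : ZMod p),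
      (∀ z, ∑ j ∈ J, F j (u j z) + f (u d0 z) = c) → PD (J.card + 1) f := by
  classical
  induction J using Finset.induction_on with
  | empty =>
    intro d0 _ F f c h t x
    obtain ⟨z, hz⟩ := u_surj d0 x
    obtain ⟨z', hz'⟩ := u_surj d0 (x + t)
    have e1 := h z
    have e2 := h z'
    simp only [sum_empty, zero_add, hz, hz'] at e1 e2
    show f (x + t) - f x = 0
    rw [e1, e2, sub_self]
  | insert j J hj ih =>
    intro d0 hd0 F f c h
    rw [card_insert_of_notMem hj]
    intro t
    rw [mem_insert, not_or] at hd0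
    obtain ⟨v, hv1, hv2⟩ := u_two d0 j hd0.1 t
    refine ih d0 hd0.2 (fun i x => F i (x + u i v) - F i x) _ 0 fun z => ?_
    have e1 := h z
    have e2 := h (z + v)
    simp only [sum_insert hj, u_add, hv1, hv2, add_zero] at e1 e2
    rw [sum_sub_distrib]
    linear_combination e2 - e1

theorem count_dir [Fact p.Prime] (s z : ZMod p × ZMod p) :
    ∑ d : Option (ZMod p), (if u d s = u d z then (1 : ℤ) else 0) = 1 + if s = z then (p : ℤ) else 0 := by
  classical
  by_cases h : s = z
  · subst h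
    simp [add_comm]
  · rw [if_neg h, add_zero, Fintype.sum_option]
    by_cases h1 : s.1 = z.1
    · have h2 : s.2 ≠ z.2 := fun e => h (Prod.ext h1 e)
      simp [u, h1, h2]
    · have h3 : s.1 - z.1 ≠ 0 := sub_ne_zero.2 h1
      have : ∀ m : ZMod p, (u (some m) s = u (some m) z) ↔ m = (s.2 - z.2) / (s.1 - z.1) := by
        intro m
        simp only [u, Option.elim]
        rw [eq_div_iff h3]
        constructor <;> intro e <;> linear_combination -e
      simp only [this]
      simp [u, h1]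

def g (S : Finset (ZMod p × ZMod p)) (d : Option (ZMod p)) (b : ZMod p) : ℕ :=
  (S.filter (fun q => u d q = b)).card

theorem I1 [Fact p.Prime] (S : Finset (ZMod p × ZMod p)) (z : ZMod p × ZMod p) :
    ∑ d, (g S d (u d z) : ℤ) = S.card + if z ∈ S then (p : ℤ) else 0 := by
  simp only [g, card_filter]
  push_cast
  rw [sum_comm]
  simp only [count_dir, sum_add_distrib]
  simp

theorem I3 [Fact p.Prime] (S : Finset (ZMod p × ZMod p)) (d : Option (ZMod p)) :
    ∑ b, (g S d b : ℤ) = S.card := by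
  rw [card_eq_sum_card_fiberwise (s := S) (t := univ) (f := u d) fun _ _ => mem_univ _]
  simp [g]

theorem I2 [Fact p.Prime] (S : Finset (ZMod p × ZMod p)) :
    ∑ d, ∑ b, (g S d b : ℤ) ^ 2 = S.card * (S.card + p) := by
  have : ∀ d, ∑ b, (g S d b : ℤ) ^ 2 = ∑ s ∈ S, (g S d (u d s) : ℤ) := by
    intro d
    rw [← sum_fiberwise_of_maps_to (s := S) (t := univ) (g := u d) fun _ _ => mem_univ _]
    refine sum_congr rfl fun b _ => ?_
    rw [sum_congr rfl (g := fun _ => (g S d b : ℤ)) fun s hs => by rw [(mem_filter.1 hs).2]]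
    simp [g, sq]
  simp only [this]
  rw [sum_comm, sum_congr rfl (g := fun _ => (S.card : ℤ) + p) fun s hs => by rw [I1, if_pos hs]]
  simp

theorem g_le [Fact p.Prime] (S : Finset (ZMod p × ZMod p)) (d : Option (ZMod p)) (b : ZMod p) :
    g S d b ≤ p := by
  refine le_trans (card_le_card_of_injOn (t := univ) (fun q => d.elim q.2 fun _ => q.1)
    (fun _ _ => mem_univ _) fun q hq q' hq' e => ?_) (by simp)
  have e1 := (mem_filter.1 hq).2
  have e2 := (mem_filter.1 hq').2
  cases d with
  | none => exact Prod.ext (e1.trans e2.symm) e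
  | some m =>
    simp only [u, Option.elim] at e e1 e2
    exact Prod.ext e (by rw [e] at e1; linear_combination e1 - e2)

theorem main (k : ℕ) (hk : 4 ≤ k) : ∃ p₀ : ℕ, ∀ (p : ℕ) [Fact p.Prime], p₀ < p →
    ∀ S : Finset (ZMod p × ZMod p), p ∣ S.card →
      (univ.filter fun d => ∃ b, g S d b * p ≠ S.card).card ≠ k := by
  obtain ⟨p0, h0⟩ := var_lower (k - 1)
  refine ⟨p0, fun p hp hlt S ⟨n, hn⟩ hcard => ?_⟩
  have hp0 : 0 < p := hp.out.pos
  obtain ⟨K, hK⟩ : ∃ K, K = univ.filter fun d => ∃ b, g S d b * p ≠ S.card := ⟨_, rfl⟩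
  rw [← hK] at hcard
  have hin : ∀ d ∈ K, ∃ b, g S d b ≠ n := by
    intro d hd
    rw [hK] at hd
    obtain ⟨b, hb⟩ := (mem_filter.1 hd).2
    exact ⟨b, fun e => hb (by rw [e, hn, mul_comm])⟩
  have hout : ∀ d, d ∉ K → ∀ b, g S d b = n := by
    intro d hd b
    by_contra hne
    refine hd (hK ▸ mem_filter.2 ⟨mem_univ _, b, fun e => hne ?_⟩)
    rw [hn, mul_comm p] at e
    exact Nat.eq_of_mul_eq_mul_right hp0 e
  let V : Option (ZMod p) → ℤ := fun d => ∑ b, ((g S d b : ℤ) - n) ^ 2
  have hV : ∀ d, V d = ∑ b, (g S d b : ℤ) ^ 2 - p * n ^ 2 := by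
    intro d
    simp only [V, sub_sq, sum_add_distrib, sum_sub_distrib]
    rw [← sum_mul, ← mul_sum, I3, hn]
    simp
    ring
  have htot : ∑ d ∈ K, V d = p * n * (p - n) := by
    rw [sum_subset (subset_univ K) fun d _ hd => by simp [V, hout d hd]]
    simp only [hV, sum_sub_distrib, I2, hn]
    simp
    ring
  have hVpos : ∀ d ∈ K, 0 < V d := by
    intro d hd
    obtain ⟨b, hb⟩ := hin d hd
    refine sum_pos' (fun _ _ => sq_nonneg _) ⟨b, mem_univ _, ?_⟩
    have : (g S d b : ℤ) - n ≠ 0 := sub_ne_zero.2 (by exact_mod_cast hb)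
    positivity
  have hnc : ∀ d ∈ K, ∃ x y, (((g S d x : ℤ) - n : ℤ) : ZMod p) ≠ (((g S d y : ℤ) - n : ℤ) : ZMod p) := by
    intro d hd
    by_contra hc
    push Not at hc
    have hmod : ∀ x y, g S d x % p = g S d y % p := by
      intro x y
      have := hc x y
      push_cast at this
      exact (ZMod.natCast_eq_natCast_iff' _ _ _).1 (sub_left_inj.1 this)
    have hmod' : ∀ x, g S d x % p = if g S d x = p then 0 else g S d x := by
      intro x
      split_ifs with h
      · rw [h, Nat.mod_self]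
      · exact Nat.mod_eq_of_lt (lt_of_le_of_ne (g_le S d x) h)
    obtain ⟨b, hb⟩ := hin d hd
    have hne : ∃ b', g S d b' ≠ g S d b := by
      by_contra hall
      push Not at hall
      have := I3 S d
      simp only [hall, hn] at this
      simp at this
      rcases this with h | h
      · exact hb h
      · omega
    obtain ⟨b', hb'⟩ := hne
    have h0p : ∀ x, g S d x = 0 ∨ g S d x = p := by
      intro x
      have e1 := hmod x b
      have e2 := hmod b' b
      rw [hmod', hmod'] at e1 e2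
      split_ifs at e1 e2 <;> omega
    have hVd : V d = p * n * (p - n) := by
      rw [hV, sum_congr rfl (g := fun x => (p : ℤ) * g S d x) fun x _ => by
        rcases h0p x with h | h <;> simp [h, sq], ← mul_sum, I3, hn]
      push_cast
      ring
    obtain ⟨d', hd', hne'⟩ := exists_mem_ne (s := K) (by omega) d
    have := add_le_sum (f := V) (s := K) (fun i hi => (hVpos i hi).le) hd hd' hne'.symm
    have := hVpos d' hd'
    omega
  have hPD : ∀ d ∈ K, PD (k - 1 + 1) fun x => (((g S d x : ℤ) - n : ℤ) : ZMod p) := by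
    intro d hd
    have := poly (K.erase d) d (notMem_erase d K)
      (fun j x => (((g S j x : ℤ) - n : ℤ) : ZMod p)) (fun x => (((g S d x : ℤ) - n : ℤ) : ZMod p))
      (-n) fun z => ?_
    · rwa [card_erase_of_mem hd, hcard] at this
    · rw [sum_erase_add K (fun j => (((g S j (u j z) : ℤ) - n : ℤ) : ZMod p)) hd,
        sum_subset (subset_univ K) fun d _ hd => by simp [hout d hd], ← Int.cast_sum,
        sum_sub_distrib, I1, hn]
      split_ifs <;> simp
  have hlow : ∀ d ∈ K, (p : ℝ) ^ 3 / 16 < (V d : ℝ) := by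
    intro d hd
    have := h0 p hlt (fun x => (g S d x : ℤ) - n) (hPD d hd) (hnc d hd)
    simpa [V] using this
  have hsum := sum_lt_sum_of_nonempty (card_pos.1 (by omega : 0 < K.card)) hlow
  rw [← Int.cast_sum, htot, sum_const, hcard, nsmul_eq_mul] at hsum
  push_cast at hsum
  have hk' : (4 : ℝ) ≤ k := by exact_mod_cast hk
  have hp' : (0 : ℝ) < p := by exact_mod_cast hp0
  have : 4 * ((p : ℝ) ^ 3 / 16) ≤ k * ((p : ℝ) ^ 3 / 16) := by gcongr
  nlinarith [mul_nonneg hp'.le (sq_nonneg ((p : ℝ) - 2 * n))]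

end Pool.Agent.H9.Dir
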