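import Pool.Agent.H9.Dir2

set_option autoImplicit false

namespace Pool.Agent.H9.Dir

open Finset

variable {p : ℕ}

def wv (d : Option (ZMod p)) : ZMod p × ZMod p := d.elim (0, 1) fun m => (1, m)

def ph (d : Option (ZMod p)) : Submodule (ZMod p) (ZMod p × ZMod p) := Submodule.span _ {wv d}

theorem mem_ph (d : Option (ZMod p)) (q : ZMod p × ZMod p) : q ∈ ph d ↔ u d q = 0 := by
  rw [ph, Submodule.mem_span_singleton]
  cases d with
  | none =>
    simp only [wv, u, Option.elim]
    exact ⟨fun ⟨a, h⟩ => by simp [← h], fun h => ⟨q.2, Prod.ext (by simp [h]) (by simp)⟩⟩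
  | some m =>
    simp only [wv, u, Option.elim]
    refine ⟨fun ⟨a, h⟩ => by simp [← h, mul_comm], fun h => ⟨q.1, Prod.ext (by simp) ?_⟩⟩
    simp only [Prod.smul_mk, smul_eq_mul]
    linear_combination -h

theorem ph_inj [Fact p.Prime] : Function.Injective (ph (p := p)) := by
  intro d d' e
  by_contra h
  obtain ⟨v, h1, h2⟩ := u_two d d' h 1
  rw [← mem_ph, ← e, mem_ph, h2] at h1
  exact one_ne_zero h1

theorem ph_rank [Fact p.Prime] (d : Option (ZMod p)) : Module.finrank (ZMod p) (ph d) = 1 :=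
  finrank_span_singleton (by cases d <;> simp [wv])

theorem ph_surj [Fact p.Prime] (v : Submodule (ZMod p) (ZMod p × ZMod p))
    (h : Module.finrank (ZMod p) v = 1) : ∃ d, ph d = v := by
  have : v ≠ ⊥ := by rintro rfl; simp at h
  obtain ⟨x, hx, hx0⟩ := Submodule.exists_mem_ne_zero_of_ne_bot this
  have : ∃ d, x ∈ ph d := by
    by_cases h1 : x.1 = 0
    · exact ⟨none, (mem_ph _ _).2 h1⟩
    · refine ⟨some (x.2 / x.1), (mem_ph _ _).2 ?_⟩
      simp only [u, Option.elim]
      field_simp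
      ring
  obtain ⟨d, hd⟩ := this
  have e1 : Submodule.span (ZMod p) {x} = v :=
    Submodule.eq_of_le_of_finrank_eq (by simpa using hx) (by rw [finrank_span_singleton hx0, h])
  have e2 : Submodule.span (ZMod p) {x} = ph d :=
    Submodule.eq_of_le_of_finrank_eq (by simpa using hd)
      (by rw [finrank_span_singleton hx0, ph_rank])
  exact ⟨d, e2.symm.trans e1⟩

theorem u_sub (d : Option (ZMod p)) (q v : ZMod p × ZMod p) : u d (q - v) = u d q - u d v := by
  rw [eq_sub_iff_add_eq, ← u_add, sub_add_cancel]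

theorem line_card (S : Finset (ZMod p × ZMod p)) (d : Option (ZMod p)) (a : ZMod p × ZMod p) :
    {q ∈ (S : Set (ZMod p × ZMod p)) | q - a ∈ ph d}.ncard = g S d (u d a) := by
  rw [g, ← Set.ncard_coe_finset]
  congr 1
  ext q
  simp [mem_ph, u_sub, sub_eq_zero]

theorem counter : ∃ (p d : ℕ), p.Prime ∧ d + 2 ≤ p ∧ ∀ S : Set (ZMod p × ZMod p),
    {v : Submodule (ZMod p) (ZMod p × ZMod p) | Module.finrank (ZMod p) v = 1 ∧
      ∀ a b : ZMod p × ZMod p, {q ∈ S | q - a ∈ v}.ncard = {q ∈ S | q - b ∈ v}.ncard}.ncard ≠ d := by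
  classical
  obtain ⟨p0, h⟩ := main 4 le_rfl
  obtain ⟨p, hge, hp⟩ := Nat.exists_infinite_primes (p0 + 4)
  have := Fact.mk hp
  refine ⟨p, p - 3, hp, by omega, fun S hS => ?_⟩
  lift S to Finset (ZMod p × ZMod p) using Set.toFinite S
  have hE : ∀ d, (∀ b b', g S d b = g S d b') ↔ ∀ b, g S d b * p = S.card := by
    intro d
    constructor
    · intro hd b
      have := I3 S d
      simp only [fun x => hd x b] at this
      simp at this
      rw [mul_comm]
      exact_mod_cast this
    · intro hd b b'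
      exact Nat.eq_of_mul_eq_mul_right hp.pos ((hd b).trans (hd b').symm)
  have e : {v : Submodule (ZMod p) (ZMod p × ZMod p) | Module.finrank (ZMod p) v = 1 ∧
      ∀ a b : ZMod p × ZMod p, {q ∈ (S : Set (ZMod p × ZMod p)) | q - a ∈ v}.ncard =
        {q ∈ (S : Set (ZMod p × ZMod p)) | q - b ∈ v}.ncard} =
      ph '' ((univ.filter fun d => ¬ ∃ b, g S d b * p ≠ S.card : Finset _) : Set _) := by
    ext v
    simp only [Set.mem_ofPred_eq, Set.mem_image, coe_filter, mem_univ, true_and, not_exists,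
      not_not, ne_eq, ← hE]
    constructor
    · rintro ⟨h1, h2⟩
      obtain ⟨d, rfl⟩ := ph_surj v h1
      refine ⟨d, fun b b' => ?_, rfl⟩
      obtain ⟨a, rfl⟩ := u_surj d b
      obtain ⟨a', rfl⟩ := u_surj d b'
      rw [← line_card, ← line_card, h2 a a']
    · rintro ⟨d, hd, rfl⟩
      exact ⟨ph_rank d, fun a b => by rw [line_card, line_card, hd]⟩
  rw [e, Set.ncard_image_of_injective _ ph_inj, Set.ncard_coe_finset] at hS
  have hc := card_filter_add_card_filter_not (s := (univ : Finset (Option (ZMod p))))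
    (fun d => ∃ b, g S d b * p ≠ S.card)
  rw [hS, card_univ, Fintype.card_option, ZMod.card] at hc
  obtain ⟨d, hd⟩ := card_pos.1 (by omega :
    0 < (univ.filter fun d => ¬ ∃ b, g S d b * p ≠ S.card).card)
  have hd' := (mem_filter.1 hd).2
  push Not at hd'
  exact h p (by omega) S (Dvd.intro_left _ (hd' 0)) (by omega)

end Pool.Agent.H9.Dir
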