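import Pool.Agent.H9.DiracDefs
import Pool.Agent.H9.BT

set_option autoImplicit false

namespace Pool.Agent.H9.Dirac

open SimpleGraph

theorem critical_of {V : Type} (G : SimpleGraph V) (k : ℕ) (h1 : G.Colorable (k + 1))
    (h2 : ¬ G.Colorable k) (h3 : ∀ v, ∃ w, G.Adj v w)
    (h4 : ∀ a b, G.Adj a b → ∃ c : V → Fin k, ∀ u v, G.Adj u v → c u = c v →
      (u = a ∧ v = b) ∨ (u = b ∧ v = a)) : IsCritical G (k + 1) := by
  refine ⟨le_antisymm h1.chromaticNumber_le ?_, fun G' hG' => ?_⟩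
  · by_contra hlt
    rw [not_le, Nat.cast_succ, ENat.lt_add_one_iff (ENat.natCast_ne_top k),
      chromaticNumber_le_iff_colorable] at hlt
    exact h2 hlt
  · have : ∃ a b, G.Adj a b ∧ ¬ G'.Adj a b := by
      by_contra h
      push Not at h
      apply hG'
      ext v w
      · obtain ⟨w, hw⟩ := h3 v
        simpa using G'.edge_vert (h v w hw)
      · simpa using ⟨G'.adj_sub, h v w⟩
    obtain ⟨a, b, hab, hn⟩ := this
    obtain ⟨c, hc⟩ := h4 a b hab
    have : G'.coe.Colorable k := ⟨Coloring.mk (fun v => c v) fun {u v} huv e => by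
      rcases hc u v (G'.adj_sub huv) e with ⟨rfl, rfl⟩ | ⟨rfl, rfl⟩
      exacts [hn huv, hn huv.symm]⟩
    refine lt_of_le_of_lt this.chromaticNumber_le ?_
    exact_mod_cast Nat.lt_succ_self k

theorem not_critical {V : Type} (G : SimpleGraph V) (k : ℕ) (a b : V) (hab : G.Adj a b)
    (h : ¬ (G.deleteEdges {s(a, b)}).Colorable k) : ¬ IsCritical G (k + 1) := by
  rintro ⟨-, h2⟩
  have := h2 ((⊤ : G.Subgraph).deleteEdges {s(a, b)}) (fun e => by
    have : ((⊤ : G.Subgraph).deleteEdges {s(a, b)}).Adj a b := by rw [e]; simpa using hab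
    simp at this)
  rw [Nat.cast_succ, ENat.lt_add_one_iff (ENat.natCast_ne_top k),
    chromaticNumber_le_iff_colorable] at this
  obtain ⟨c⟩ := this
  exact h ⟨Coloring.mk (fun v => c ⟨v, by simp⟩) fun {u v} huv => c.valid (by simpa using huv)⟩

def L1 : List ℕ := [30, 821, 467, 753, 111, 90, 444, 844, 710, 394]

def G1 : SimpleGraph (Fin 10) where
  Adj i j := adjB L1 i j = true
  symm := ⟨by intro i j; revert i j; decide +kernel⟩
  loopless := ⟨by intro i; revert i; decide +kernel⟩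

instance : DecidableRel G1.Adj := fun i j => inferInstanceAs (Decidable (adjB L1 i j = true))

def T1 : List ℕ := [444304, 185220, 930388, 580388, 727268, 815524, 725732, 725988, 214948, 215972,
  216996, 729956, 725860, 816036, 213924, 232292, 215908, 723812, 117604, 183140, 576356, 248676,
  463780, 725924, 201636, 988068]

def cf (x : ℕ) (v : Fin 10) : Fin 4 := ⟨x / 4 ^ (v : ℕ) % 4, Nat.mod_lt _ (by norm_num)⟩

set_option synthInstance.maxSize 2000 in
theorem tab : ∀ a b, G1.Adj a b → ∃ x ∈ T1, ∀ u v, G1.Adj u v → cf x u = cf x v →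
    (u = a ∧ v = b) ∨ (u = b ∧ v = a) := by decide +kernel

theorem crit1 : IsCritical G1 5 :=
  critical_of G1 4
    ⟨Coloring.mk ![0, 1, 2, 1, 3, 0, 4, 0, 3, 2] (by intro v w; revert v w; decide +kernel)⟩
    (not_colorable G1 L1 (fun _ _ h => h) (by decide +kernel)) (by decide +kernel)
    fun a b hab => let ⟨x, _, hx⟩ := tab a b hab; ⟨cf x, hx⟩

def i1 : Fin 10 ↪ Fin 17 := ⟨fun v => ⟨v, by omega⟩, fun a b h => Fin.ext (by simpa using h)⟩

def i2 : Fin 10 ↪ Fin 17 := ⟨fun v => if (v : ℕ) < 3 then ⟨v, by omega⟩ else ⟨v + 7, by omega⟩,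
  by intro a b; revert a b; decide⟩

def aa : Fin 3 ↪ Fin 10 := ⟨fun v => ⟨v, by omega⟩, fun a b h => Fin.ext (by simpa using h)⟩

def L2 : List ℕ := [2070, 105265, 59857, 1776, 111, 90, 444, 844, 710, 394, 96264, 13319, 11266,
  56324, 107524, 90118, 50178]

theorem not_crit : ¬ IsCritical (diracGraph G1 G1 i1 i2 (aa 0) 3 (aa 0) 3) 5 := by
  refine not_critical _ 4 1 2 ?_ (not_colorable _ L2 ?_ (by decide +kernel))
  · simp only [diracGraph, sup_adj, deleteEdges_adj, map_adj, edge_adj, Set.mem_insert_iff,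
      Set.mem_singleton_iff, Sym2.eq_iff]
    decide +kernel
  · simp only [diracGraph, sup_adj, deleteEdges_adj, map_adj, edge_adj, Set.mem_insert_iff,
      Set.mem_singleton_iff, Sym2.eq_iff]
    decide +kernel

end Pool.Agent.H9.Dirac
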