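import Mathlib

set_option autoImplicit false

namespace Pool.Agent.H9.Dirac

def IsCritical {V : Type} (G : SimpleGraph V) (k : ℕ) : Prop :=
  G.chromaticNumber = k ∧ ∀ G' : G.Subgraph, G' ≠ ⊤ → G'.coe.chromaticNumber < k

/-- the union of the images of G₁ and G₂, minus the edges x y₁ and x y₂, plus the edge y₁ y₂ -/
def diracGraph {V₁ V₂ W : Type} (G₁ : SimpleGraph V₁) (G₂ : SimpleGraph V₂) (ι₁ : V₁ ↪ W)
    (ι₂ : V₂ ↪ W) (x₁ y₁ : V₁) (x₂ y₂ : V₂) : SimpleGraph W :=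
  (G₁.map ι₁ ⊔ G₂.map ι₂).deleteEdges {s(ι₁ x₁, ι₁ y₁), s(ι₂ x₂, ι₂ y₂)} ⊔
    SimpleGraph.edge (ι₁ y₁) (ι₂ y₂)

end Pool.Agent.H9.Dirac
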