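import Mathlib

set_option autoImplicit false

namespace Pool.Agent.H9.Eq123

open Finset SimpleGraph

variable {V : Type} [Fintype V] [DecidableEq V] (G : SimpleGraph V) [DecidableRel G.Adj]

/-- No connected component is a single edge. -/
def Nice : Prop :=
  ∀ C : G.ConnectedComponent, ¬ Nonempty (G.induce C.supp ≃g (⊤ : SimpleGraph (Fin 2)))

/-- The sum of the labels on the edges at `v`. -/
def vsum (l : Sym2 V → ℕ) (v : V) : ℕ := ∑ e ∈ G.incidenceFinset v, l e

/-- The number of edges with label `a`. -/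
def nb (l : Sym2 V → ℕ) (a : ℕ) : ℕ := #{e ∈ G.edgeFinset | l e = a}

/-- `l` is a proper equitable `k`-labelling (only its values on edges matter). -/
def ProperEquitable (k : ℕ) (l : Sym2 V → ℕ) : Prop :=
  (∀ e ∈ G.edgeFinset, 1 ≤ l e ∧ l e ≤ k) ∧ (∀ u v, G.Adj u v → vsum G l u ≠ vsum G l v) ∧
    ∀ a b, 0 < nb G l a → 0 < nb G l b → nb G l a ≤ nb G l b + 1

/-- The disjoint union of a triangle and a `K₄`. -/
def H : SimpleGraph (Fin 7) where
  Adj u v := u ≠ v ∧ (u.val < 3 ↔ v.val < 3)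
  symm := ⟨fun _ _ h => ⟨h.1.symm, h.2.symm⟩⟩
  loopless := ⟨fun _ h => h.1 rfl⟩

instance : DecidableRel H.Adj := fun u v => inferInstanceAs (Decidable (u ≠ v ∧ (u.val < 3 ↔ v.val < 3)))

theorem nice : Nice H := by
  rintro C ⟨f⟩
  have h1 := f.symm.map_adj_iff.2 (show (⊤ : SimpleGraph (Fin 2)).Adj 0 1 by decide)
  obtain ⟨w, a1, a2⟩ : ∃ w, H.Adj (f.symm 0).1 w ∧ H.Adj (f.symm 1).1 w := by
    have : ∀ u v : Fin 7, H.Adj u v → ∃ w, H.Adj u w ∧ H.Adj v w := by decide
    exact this _ _ h1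
  have hw : w ∈ C.supp := (C.mem_supp_congr_adj a1).1 (f.symm 0).2
  have e : ∀ i, f.symm i = ⟨w, hw⟩ → i = f ⟨w, hw⟩ := fun i h => by rw [← h]; simp
  have : ∀ t : Fin 2, t = 0 ∨ t = 1 := by decide
  rcases this (f ⟨w, hw⟩) with h | h
  · exact a1.ne (by rw [← h]; simp)
  · exact a2.ne (by rw [← h]; simp)

theorem not_iso : ¬ Nonempty (H ≃g (⊤ : SimpleGraph (Fin 4))) := by
  rintro ⟨f⟩
  have := Fintype.card_congr f.toEquiv
  simp at this

theorem key : ∀ a b c d e f g h i : Fin 3,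
    a.val + b.val ≠ a.val + c.val → a.val + b.val ≠ b.val + c.val → a.val + c.val ≠ b.val + c.val →
    d.val + e.val + f.val ≠ d.val + g.val + h.val → d.val + e.val + f.val ≠ e.val + g.val + i.val →
    d.val + e.val + f.val ≠ f.val + h.val + i.val → d.val + g.val + h.val ≠ e.val + g.val + i.val →
    d.val + g.val + h.val ≠ f.val + h.val + i.val → e.val + g.val + i.val ≠ f.val + h.val + i.val →
    ∃ x y : Fin 3, 0 < [a, b, c, d, e, f, g, h, i].count y ∧
      [a, b, c, d, e, f, g, h, i].count y + 1 < [a, b, c, d, e, f, g, h, i].count x := by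
  decide +kernel

theorem main (k : ℕ) (hk : k ≤ 3) (l : Sym2 (Fin 7) → ℕ) : ¬ ProperEquitable H k l := by
  rintro ⟨h1, h2, h3⟩
  have hE : H.edgeFinset = {s(0, 1), s(0, 2), s(1, 2), s(3, 4), s(3, 5), s(3, 6), s(4, 5),
      s(4, 6), s(5, 6)} := by decide +kernel
  have g : ∀ e ∈ H.edgeFinset, ∃ t : Fin 3, l e = t.val + 1 := fun e he =>
    ⟨⟨l e - 1, by have := h1 e he; omega⟩, by have := h1 e he; simp; omega⟩
  obtain ⟨a, ha⟩ := g s(0, 1) (by simp [hE])
  obtain ⟨b, hb⟩ := g s(0, 2) (by simp [hE])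
  obtain ⟨c, hc⟩ := g s(1, 2) (by simp [hE])
  obtain ⟨d, hd⟩ := g s(3, 4) (by simp [hE])
  obtain ⟨e, he⟩ := g s(3, 5) (by simp [hE])
  obtain ⟨f, hf⟩ := g s(3, 6) (by simp [hE])
  obtain ⟨i, hi⟩ := g s(4, 5) (by simp [hE])
  obtain ⟨j, hj⟩ := g s(4, 6) (by simp [hE])
  obtain ⟨m, hm⟩ := g s(5, 6) (by simp [hE])
  have I : ∀ v : Fin 7, H.incidenceFinset v = ![{s(0, 1), s(0, 2)}, {s(0, 1), s(1, 2)},
      {s(0, 2), s(1, 2)}, {s(3, 4), s(3, 5), s(3, 6)}, {s(3, 4), s(4, 5), s(4, 6)},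
      {s(3, 5), s(4, 5), s(5, 6)}, {s(3, 6), s(4, 6), s(5, 6)}] v := by decide +kernel
  have S : ∀ v : Fin 7, vsum H l v = ![a.val + b.val + 2, a.val + c.val + 2, b.val + c.val + 2,
      d.val + e.val + f.val + 3, d.val + i.val + j.val + 3, e.val + i.val + m.val + 3,
      f.val + j.val + m.val + 3] v := by
    intro v
    rw [vsum, I]
    fin_cases v <;> simp [ha, hb, hc, hd, he, hf, hi, hj, hm] <;> omega
  have N : ∀ x : Fin 3, nb H l (x.val + 1) = [a, b, c, d, e, f, i, j, m].count x := by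
    intro x
    rw [nb, card_filter, hE]
    repeat rw [sum_insert (by decide)]
    rw [sum_singleton]
    simp [ha, hb, hc, hd, he, hf, hi, hj, hm, List.count_cons, Fin.ext_iff]
    omega
  have t : ∀ u v, H.Adj u v → _ ≠ _ := fun u v h => S u ▸ S v ▸ h2 u v h
  obtain ⟨x, y, p, q⟩ := key a b c d e f i j m
    (by simpa using t 0 1 (by decide)) (by simpa using t 0 2 (by decide))
    (by simpa using t 1 2 (by decide)) (by simpa using t 3 4 (by decide))
    (by simpa using t 3 5 (by decide)) (by simpa using t 3 6 (by decide))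
    (by simpa using t 4 5 (by decide)) (by simpa using t 4 6 (by decide))
    (by simpa using t 5 6 (by decide))
  have := h3 (x.val + 1) (y.val + 1) (by rw [N]; omega) (by rw [N]; omega)
  rw [N, N] at this
  omega

end Pool.Agent.H9.Eq123
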