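import Mathlib

set_option autoImplicit false

namespace Pool.Agent.H9

def mpI (g : ℕ → ℕ → ℕ) : ℕ → List ℕ → List ℕ
  | _, [] => []
  | i, d :: t => g i d :: mpI g (i + 1) t

theorem mpI_length (g : ℕ → ℕ → ℕ) : ∀ (l : List ℕ) (i : ℕ), (mpI g i l).length = l.length
  | [], _ => rfl
  | _ :: t, i => by simp [mpI, mpI_length g t]

theorem mpI_getD (g : ℕ → ℕ → ℕ) : ∀ (l : List ℕ) (i j : ℕ), j < l.length →
    (mpI g i l).getD j 0 = g (i + j) (l.getD j 0)
  | [], _, _, h => by simp at h
  | _ :: _, _, 0, _ => by simp [mpI]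
  | _ :: t, i, j + 1, h => by
    have := mpI_getD g t (i + 1) j (by simpa using h)
    simp only [mpI, List.getD_cons_succ, this]
    congr 1
    omega

def popc : ℕ → ℕ → ℕ
  | 0, _ => 0
  | r + 1, x => x % 2 + popc r (x / 2)

/-- index of a smallest domain among the variables not yet branched on -/
def pick (w done : ℕ) : List ℕ → ℕ → ℕ → ℕ → ℕ
  | [], _, bi, _ => bi
  | d :: t, i, bi, bs =>
    bif !done.testBit i && Nat.blt (popc w d) bs then pick w done t (i + 1) i (popc w d)
    else pick w done t (i + 1) bi bs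

/-- forward checking search: variables and values below n and w; true means no solution -/
def fc (P : ℕ → ℕ → ℕ → ℕ) (n w : ℕ) : ℕ → List ℕ → ℕ → Bool
  | 0, _, _ => false
  | r + 1, D, done =>
    Nat.blt (pick w done D 0 n (w + 1)) n && (List.range w).all fun y =>
      !(D.getD (pick w done D 0 n (w + 1)) 0).testBit y ||
        (mpI (fun i d => d &&& P (pick w done D 0 n (w + 1)) y i) 0 D).any (· == 0) ||
        fc P n w r (mpI (fun i d => d &&& P (pick w done D 0 n (w + 1)) y i) 0 D)
          (done ||| 2 ^ pick w done D 0 n (w + 1))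

theorem fc_sound (P : ℕ → ℕ → ℕ → ℕ) (n w : ℕ) (f : ℕ → ℕ) (hf : ∀ i < n, f i < w)
    (hP : ∀ v < n, ∀ i < n, (P v (f v) i).testBit (f i) = true) :
    ∀ (r : ℕ) (D : List ℕ) (done : ℕ), D.length = n →
      (∀ i < n, (D.getD i 0).testBit (f i) = true) → fc P n w r D done = true → False
  | 0, _, _, _, _, h => by simp [fc] at h
  | r + 1, D, done, hl, hD, h => by
    simp only [fc, Bool.and_eq_true, Nat.blt_eq, List.all_eq_true, List.mem_range,
      Bool.or_eq_true] at h
    obtain ⟨hv, h⟩ := h
    generalize pick w done D 0 n (w + 1) = v at hv h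
    have hE : ∀ i < n, ((mpI (fun i d => d &&& P v (f v) i) 0 D).getD i 0).testBit (f i) = true := by
      intro i hi
      rw [mpI_getD _ _ _ _ (hl ▸ hi), zero_add, Nat.testBit_and, hD i hi, hP v hv i hi]
      rfl
    rcases h (f v) (hf v hv) with (h | h) | h
    · rw [hD v hv] at h; simp at h
    · obtain ⟨x, hx, e⟩ := List.any_eq_true.1 h
      obtain ⟨i, hi, rfl⟩ := List.getElem_of_mem hx
      have := hE i (by rwa [mpI_length, hl] at hi)
      rw [List.getD_eq_getElem _ _ hi, beq_iff_eq.1 e] at this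
      simp at this
    · exact fc_sound P n w f hf hP r _ _ (by rw [mpI_length, hl]) hE h

end Pool.Agent.H9
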