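import Mathlib

set_option autoImplicit false

namespace Pool.Agent.H9.Fair

open Finset

variable {n m : ℕ}

/-- The bundle of agent `i` when item `g` is given to agent `A g`. -/
def bundle (A : Fin m → Fin n) (i : Fin n) : Finset (Fin m) := univ.filter fun g => A g = i

/-- The additive valuation with single-item values `u`. -/
def worth (u : Fin m → ℝ) (S : Finset (Fin m)) : ℝ := ∑ g ∈ S, u g

def EF1Sat (u : Fin m → ℝ) (A : Fin m → Fin n) (i : Fin n) : Prop :=
  ∀ j, j ≠ i → worth u (bundle A j) ≤ worth u (bundle A i) ∨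
    ∃ g ∈ bundle A j, worth u ((bundle A j).erase g) ≤ worth u (bundle A i)

def EEF1 (u : Fin m → ℝ) (A : Fin m → Fin n) (i : Fin n) : Prop :=
  ∃ B : Fin m → Fin n, bundle B i = bundle A i ∧ EF1Sat u B i

def EFXSat (u : Fin m → ℝ) (B : Fin m → Fin n) (i : Fin n) : Prop :=
  ∀ j, j ≠ i → ∀ g ∈ bundle B j, 0 < u g → worth u ((bundle B j).erase g) ≤ worth u (bundle B i)

def MXS (u : Fin m → ℝ) (A : Fin m → Fin n) (i : Fin n) : Prop :=
  ∃ B : Fin m → Fin n, EFXSat u B i ∧ worth u (bundle B i) ≤ worth u (bundle A i)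

/-- The best value an agent with budget `w` can afford at prices `p`. -/
noncomputable def afford (u : Fin m → ℝ) (w : ℝ) (p : Fin m → ℝ) : ℝ :=
  sSup {x | ∃ S : Finset (Fin m), worth p S ≤ w ∧ x = worth u S}

/-- The AnyPrice share. -/
noncomputable def APS (u : Fin m → ℝ) (w : ℝ) : ℝ :=
  sInf {y | ∃ p : Fin m → ℝ, (∀ g, 0 ≤ p g) ∧ ∑ g, p g = 1 ∧ y = afford u w p}

def PROP1 (u : Fin m → ℝ) (w : ℝ) (A : Fin m → Fin n) (i : Fin n) : Prop :=
  w * worth u univ ≤ worth u (bundle A i) ∨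
    ∃ g, g ∉ bundle A i ∧ w * worth u univ ≤ worth u (insert g (bundle A i))

end Pool.Agent.H9.Fair
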