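import Pool.Agent.H9.Fair

set_option autoImplicit false

namespace Pool.Agent.H9.Fair

variable {n m : ℕ}

def EF1 (w : Fin n → Fin m → ℝ) (A : Fin m → Fin n) : Prop :=
  ∀ i j, bundle A j = ∅ ∨
    ∃ g ∈ bundle A j, worth (w i) ((bundle A j).erase g) ≤ worth (w i) (bundle A i)

def PO (u : Fin n → Fin m → ℝ) (A : Fin m → Fin n) : Prop :=
  ¬ ∃ B : Fin m → Fin n, (∀ i, worth (u i) (bundle A i) ≤ worth (u i) (bundle B i)) ∧
    ∃ i, worth (u i) (bundle A i) < worth (u i) (bundle B i)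

def Balanced (A : Fin m → Fin n) : Prop :=
  ∀ i, (bundle A i).card = m / n ∨ (bundle A i).card = (m + n - 1) / n

end Pool.Agent.H9.Fair
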