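import Mathlib

set_option autoImplicit false
set_option linter.unusedSectionVars false

namespace Pool.Agent.H9.Gon

open Finset

section defs
variable {V E : Type} [Fintype V] [DecidableEq V] [Fintype E]

/-- A multigraph has vertex type `V`, edge type `E`; the edge `e` joins `s e` and `t e`.
The Laplacian: `lap s t f v` is the sum over the edges at `v` of `f v - f (other end)`. -/
def lap (s t : E → V) (f : V → ℤ) (v : V) : ℤ :=
  ∑ e, ((if s e = v then f v - f (t e) else 0) + (if t e = v then f v - f (s e) else 0))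

/-- `D` has rank at least one: for each vertex `v`, `D - v` is equivalent to an effective divisor. -/
def Rank1 (s t : E → V) (D : V → ℤ) : Prop :=
  ∀ v, ∃ f : V → ℤ, ∀ u, 0 ≤ D u - (if u = v then 1 else 0) - lap s t f u

/-- Divisorial gonality: least degree of an effective divisor of rank at least one. -/
noncomputable def gon (s t : E → V) : ℕ :=
  sInf {d : ℕ | ∃ D : V → ℤ, (∀ v, 0 ≤ D v) ∧ ∑ v, D v = d ∧ Rank1 s t D}

/-- Connected and loopless. -/
def IsGraph (s t : E → V) : Prop :=
  (∀ e, s e ≠ t e) ∧ (SimpleGraph.fromRel (fun u v => ∃ e, s e = u ∧ t e = v)).Connected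
end defs

/-- The `i`-th vertex (`0 ≤ i ≤ k`) on the path of `k` edges replacing the edge `e`. -/
def pos {V E : Type} (s t : E → V) (k : ℕ) (e : E) (i : ℕ) : V ⊕ (E × Fin (k - 1)) :=
  if i = 0 then Sum.inl (s e) else
    if h : i - 1 < k - 1 then Sum.inr (e, ⟨i - 1, h⟩) else Sum.inl (t e)

/-- First end of the `i`-th edge of the path replacing `e` in the `k`-subdivision. -/
def subS {V E : Type} (s t : E → V) (k : ℕ) (p : E × Fin k) : V ⊕ (E × Fin (k - 1)) :=
  pos s t k p.1 p.2.val

/-- Second end of the `i`-th edge of the path replacing `e` in the `k`-subdivision. -/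
def subT {V E : Type} (s t : E → V) (k : ℕ) (p : E × Fin k) : V ⊕ (E × Fin (k - 1)) :=
  pos s t k p.1 (p.2.val + 1)

variable {V E : Type} [Fintype V] [DecidableEq V] [Fintype E]

theorem gon_nonempty (s t : E → V) :
    {d : ℕ | ∃ D : V → ℤ, (∀ v, 0 ≤ D v) ∧ ∑ v, D v = d ∧ Rank1 s t D}.Nonempty := by
  refine ⟨Fintype.card V, fun _ => 1, fun _ => by norm_num, by simp, fun v => ⟨fun _ => 0, fun u => ?_⟩⟩
  simp only [lap, sub_self, ite_self, add_zero, sum_const_zero, sub_zero]
  split_ifs <;> norm_num

theorem gon_le (s t : E → V) (D : V → ℤ) (h0 : ∀ v, 0 ≤ D v) (d : ℕ) (hd : ∑ v, D v ≤ d)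
    (hr : Rank1 s t D) : gon s t ≤ d := by
  have h1 : 0 ≤ ∑ v, D v := sum_nonneg fun v _ => h0 v
  have : gon s t ≤ (∑ v, D v).toNat := Nat.sInf_le ⟨D, h0, by omega, hr⟩
  omega

theorem gon_spec (s t : E → V) :
    ∃ D : V → ℤ, (∀ v, 0 ≤ D v) ∧ ∑ v, D v = gon s t ∧ Rank1 s t D :=
  Nat.sInf_mem (gon_nonempty s t)

theorem pos_zero (s t : E → V) (k : ℕ) (e : E) : pos s t k e 0 = Sum.inl (s e) := by simp [pos]

theorem pos_last (s t : E → V) (k : ℕ) (hk : 1 ≤ k) (e : E) : pos s t k e k = Sum.inl (t e) := by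
  unfold pos
  rw [if_neg (by omega), dif_neg (by omega)]

theorem pos_mid (s t : E → V) (k : ℕ) (e : E) (i : Fin (k - 1)) :
    pos s t k e (i.val + 1) = Sum.inr (e, i) := by
  unfold pos
  rw [if_neg (by omega), dif_pos (by simpa using i.2)]
  simp

theorem pos_eq_inl (s t : E → V) (k : ℕ) (e : E) (i : ℕ) (hi : i ≤ k) (v : V) (hk : 1 ≤ k) :
    pos s t k e i = Sum.inl v ↔ (i = 0 ∧ s e = v) ∨ (i = k ∧ t e = v) := by
  unfold pos
  split_ifs with h1 h2
  · simp [h1]; omega
  · simp; omega
  · have : i = k := by omega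
    simp [this]; omega

theorem pos_eq_inr (s t : E → V) (k : ℕ) (e : E) (i : ℕ) (e' : E) (j : Fin (k - 1)) :
    pos s t k e i = Sum.inr (e', j) ↔ e = e' ∧ i = j.val + 1 := by
  have := j.2
  unfold pos
  split_ifs with h1 h2
  · simp; omega
  · simp [Fin.ext_iff]; omega
  · simp; omega

variable [DecidableEq E]

theorem lap_sub_inl (s t : E → V) (k : ℕ) (hk : 1 ≤ k) (f : V ⊕ (E × Fin (k - 1)) → ℤ) (v : V) :
    lap (subS s t k) (subT s t k) f (Sum.inl v) =
      ∑ e, ((if s e = v then f (Sum.inl v) - f (pos s t k e 1) else 0) +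
        (if t e = v then f (Sum.inl v) - f (pos s t k e (k - 1)) else 0)) := by
  unfold lap
  rw [Fintype.sum_prod_type]
  refine sum_congr rfl fun e _ => ?_
  rw [sum_add_distrib]
  congr 1
  · rw [sum_eq_single (⟨0, by omega⟩ : Fin k)]
    · simp [subS, subT, pos_zero]
    · intro b _ hb
      rw [if_neg]
      simp only [subS]
      rw [pos_eq_inl s t k e _ (by have := b.2; omega) v hk]
      have := b.2
      have : b.val ≠ 0 := fun h => hb (Fin.ext h)
      omega
    · simp
  · rw [sum_eq_single (⟨k - 1, by omega⟩ : Fin k)]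
    · simp only [subS, subT]
      rw [show k - 1 + 1 = k by omega, pos_last s t k hk]
      simp
    · intro b _ hb
      rw [if_neg]
      simp only [subT]
      rw [pos_eq_inl s t k e _ (by have := b.2; omega) v hk]
      have := b.2
      have : b.val ≠ k - 1 := fun h => hb (Fin.ext h)
      omega
    · simp

theorem lap_sub_inr (s t : E → V) (k : ℕ) (f : V ⊕ (E × Fin (k - 1)) → ℤ) (e : E)
    (i : Fin (k - 1)) :
    lap (subS s t k) (subT s t k) f (Sum.inr (e, i)) =
      2 * f (Sum.inr (e, i)) - f (pos s t k e i.val) - f (pos s t k e (i.val + 2)) := by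
  have hi := i.2
  unfold lap
  rw [sum_add_distrib, sum_eq_single (e, (⟨i.val + 1, by omega⟩ : Fin k)),
    sum_eq_single (e, (⟨i.val, by omega⟩ : Fin k))]
  · simp only [subS, subT, pos_mid, if_true]
    ring
  · rintro ⟨e', j⟩ _ hb
    rw [if_neg]
    simp only [subT, pos_eq_inr]
    rintro ⟨rfl, h⟩
    exact hb (by simp [Fin.ext_iff]; omega)
  · simp
  · rintro ⟨e', j⟩ _ hb
    rw [if_neg]
    simp only [subS, pos_eq_inr]
    rintro ⟨rfl, h⟩
    exact hb (by simp [Fin.ext_iff]; omega)
  · simp

theorem slope_le (F d : ℕ → ℤ) (n : ℕ) (h : ∀ i < n, 2 * F (i + 1) - F i - F (i + 2) ≤ d i) :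
    ∀ i ≤ n, F i - F (i + 1) ≤ F 0 - F 1 + ∑ j ∈ range i, d j := by
  intro i
  induction i with
  | zero => simp
  | succ i ih =>
    intro hi
    have := ih (by omega)
    have := h i (by omega)
    rw [sum_range_succ]
    have e : i + 1 + 1 = i + 2 := rfl
    rw [e]
    linarith

theorem drop_le (F d : ℕ → ℤ) (n : ℕ) (hd : ∀ i, 0 ≤ d i)
    (h : ∀ i < n, 2 * F (i + 1) - F i - F (i + 2) ≤ d i) :
    F 0 - F (n + 1) ≤ (n + 1 : ℕ) * (F 0 - F 1 + ∑ j ∈ range n, d j) := by
  have h1 : F 0 - F (n + 1) = ∑ i ∈ range (n + 1), (F i - F (i + 1)) := by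
    rw [Finset.sum_range_sub']
  rw [h1]
  have h2 : ∀ i ∈ range (n + 1), F i - F (i + 1) ≤ F 0 - F 1 + ∑ j ∈ range n, d j := by
    intro i hi
    have hi' : i ≤ n := by simpa [Nat.lt_succ_iff] using hi
    have := slope_le F d n h i hi'
    have : ∑ j ∈ range i, d j ≤ ∑ j ∈ range n, d j :=
      sum_le_sum_of_subset_of_nonneg (range_subset_range.2 hi') fun j _ _ => hd j
    linarith
  have := sum_le_card_nsmul _ _ _ h2
  simpa using this

theorem ediv_sub_le (a b c : ℤ) (k : ℕ) (hk : 1 ≤ k) (h : a - b ≤ k * c) :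
    a / k - b / k ≤ c := by
  have hk' : (0 : ℤ) < k := by exact_mod_cast hk
  have : a / k ≤ (b + k * c) / k := Int.ediv_le_ediv hk' (by linarith)
  rw [Int.add_mul_ediv_left _ _ hk'.ne'] at this
  linarith

theorem gon_le_two_mul (s t : E → V) (k : ℕ) (hk : 1 ≤ k) :
    gon s t ≤ 2 * gon (subS s t k) (subT s t k) := by
  obtain ⟨D, h0, hd, hr⟩ := gon_spec (subS s t k) (subT s t k)
  set J : E → ℤ := fun e => ∑ i : Fin (k - 1), D (Sum.inr (e, i)) with hJ
  have hJ0 : ∀ e, 0 ≤ J e := fun e => sum_nonneg fun i _ => h0 _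
  refine gon_le s t (fun v => D (Sum.inl v) +
    ∑ e, ((if s e = v then J e else 0) + (if t e = v then J e else 0))) ?_ _ ?_ ?_
  · intro v
    refine add_nonneg (h0 _) (sum_nonneg fun e _ => add_nonneg ?_ ?_) <;> split_ifs <;>
      first | exact hJ0 e | exact le_rfl
  · rw [sum_add_distrib, sum_comm]
    simp only [sum_add_distrib, sum_ite_eq, mem_univ, if_true]
    rw [Fintype.sum_sum_type, Fintype.sum_prod_type] at hd
    have : 0 ≤ ∑ v, D (Sum.inl v) := sum_nonneg fun v _ => h0 _
    push_cast
    simp only [hJ]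
    linarith
  · intro v
    obtain ⟨f, hf⟩ := hr (Sum.inl v)
    refine ⟨fun u => f (Sum.inl u) / k, fun u => ?_⟩
    have h1 := hf (Sum.inl u)
    rw [lap_sub_inl s t k hk] at h1
    have key : ∀ e, (f (Sum.inl (s e)) / k - f (Sum.inl (t e)) / k ≤
          f (Sum.inl (s e)) - f (pos s t k e 1) + J e) ∧
        (f (Sum.inl (t e)) / k - f (Sum.inl (s e)) / k ≤
          f (Sum.inl (t e)) - f (pos s t k e (k - 1)) + J e) := by
      intro e
      set d : ℕ → ℤ := fun i => if h : i < k - 1 then D (Sum.inr (e, ⟨i, h⟩)) else 0 with hdd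
      have hd0 : ∀ i, 0 ≤ d i := by
        intro i; simp only [hdd]; split_ifs
        · exact h0 _
        · exact le_rfl
      have hJd : J e = ∑ i ∈ range (k - 1), d i := by
        rw [← Fin.sum_univ_eq_sum_range]
        simp [hJ, hdd]
      have hc : ∀ i < k - 1, 2 * f (pos s t k e (i + 1)) - f (pos s t k e i) -
          f (pos s t k e (i + 2)) ≤ d i := by
        intro i hi
        have h2 := hf (Sum.inr (e, ⟨i, hi⟩))
        rw [lap_sub_inr] at h2
        have h3 := pos_mid s t k e ⟨i, hi⟩
        simp only at h3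
        rw [h3]
        simp only [hdd, dif_pos hi]
        simp only [reduceCtorEq, if_false] at h2
        linarith
      constructor
      · have := drop_le (fun i => f (pos s t k e i)) d (k - 1) hd0 hc
        simp only [show k - 1 + 1 = k by omega, pos_zero, pos_last s t k hk] at this
        rw [hJd]
        exact ediv_sub_le _ _ _ k hk this
      · have := drop_le (fun i => f (pos s t k e (k - i))) (fun i => d (k - 1 - 1 - i)) (k - 1)
          (fun i => hd0 _) (by
            intro i hi
            have := hc (k - 1 - 1 - i) (by omega)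
            rw [show k - 1 - 1 - i + 1 = k - (i + 1) by omega,
              show k - 1 - 1 - i + 2 = k - i by omega,
              show k - 1 - 1 - i = k - (i + 2) by omega] at this
            rw [show k - 1 - 1 - i = k - (i + 2) by omega]
            linarith)
        rw [sum_range_reflect d (k - 1)] at this
        simp only [show k - 1 + 1 = k by omega, Nat.sub_self, Nat.sub_zero, pos_zero,
          pos_last s t k hk] at this
        rw [hJd]
        exact ediv_sub_le _ _ _ k hk this
    have h2 : lap s t (fun u => f (Sum.inl u) / k) u ≤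
        ∑ e, ((if s e = u then f (Sum.inl u) - f (pos s t k e 1) else 0) +
          (if t e = u then f (Sum.inl u) - f (pos s t k e (k - 1)) else 0)) +
        ∑ e, ((if s e = u then J e else 0) + (if t e = u then J e else 0)) := by
      rw [← sum_add_distrib]
      unfold lap
      refine sum_le_sum fun e _ => ?_
      obtain ⟨k1, k2⟩ := key e
      split_ifs with a b b
      · subst a; rw [b] at k2 ⊢; rw [b] at k1; linarith
      · subst a; linarith
      · subst b; linarith
      · linarith
    simp only [Sum.inl.injEq] at h1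
    linarith

/-- Every level set of a move between effective divisors cuts at most `deg D` edges. -/
theorem cut_le (s t : E → V) (D f : V → ℤ) (h0 : ∀ v, 0 ≤ D v) (hf : ∀ v, 0 ≤ D v - lap s t f v)
    (c : ℤ) (A : Finset E)
    (hA : ∀ e ∈ A, (c ≤ f (s e) ∧ f (t e) < c) ∨ (c ≤ f (t e) ∧ f (s e) < c)) :
    (A.card : ℤ) ≤ ∑ v, D v := by
  have h1 : ∑ v, (if c ≤ f v then lap s t f v else 0) ≤ ∑ v, D v := by
    refine sum_le_sum fun v _ => ?_
    have := h0 v; have := hf v
    split_ifs <;> linarith
  have h2 : ∑ v, (if c ≤ f v then lap s t f v else 0) =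
      ∑ e, ((if c ≤ f (s e) then f (s e) - f (t e) else 0) +
        (if c ≤ f (t e) then f (t e) - f (s e) else 0)) := by
    have : ∀ v, (if c ≤ f v then lap s t f v else 0) =
        ∑ e, ((if s e = v then (if c ≤ f v then f v - f (t e) else 0) else 0) +
          (if t e = v then (if c ≤ f v then f v - f (s e) else 0) else 0)) := by
      intro v
      unfold lap
      split_ifs with h
      · rfl
      · simp
    simp only [this]
    rw [sum_comm]
    simp only [sum_add_distrib, sum_ite_eq, mem_univ, if_true]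
  have h3 : (A.card : ℤ) ≤ ∑ e, ((if c ≤ f (s e) then f (s e) - f (t e) else 0) +
        (if c ≤ f (t e) then f (t e) - f (s e) else 0)) := by
    calc (A.card : ℤ) = ∑ e ∈ A, (1 : ℤ) := by simp
      _ ≤ ∑ e ∈ A, ((if c ≤ f (s e) then f (s e) - f (t e) else 0) +
        (if c ≤ f (t e) then f (t e) - f (s e) else 0)) := by
          refine sum_le_sum fun e he => ?_
          have := hA e he
          split_ifs <;> omega
      _ ≤ _ := by
          refine sum_le_sum_of_subset_of_nonneg (subset_univ _) fun e _ _ => ?_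
          split_ifs <;> omega
  linarith

end Pool.Agent.H9.Gon
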