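import Pool.Agent.H9.Gon2

set_option autoImplicit false

namespace Pool.Agent.H9.Gon

open Finset

/-- Edges: eight bundles of nine parallel edges, and ten single edges. -/
abbrev EE : Type := (Fin 8 × Fin 9) ⊕ Fin 10

def fs : Fin 8 → Fin 13 := ![1, 2, 4, 5, 7, 8, 10, 11]
def ft : Fin 8 → Fin 13 := ![2, 3, 5, 6, 8, 9, 11, 12]
def ts : Fin 10 → Fin 13 := ![0, 0, 0, 0, 1, 2, 3, 4, 5, 7]
def tt : Fin 10 → Fin 13 := ![1, 4, 7, 10, 6, 8, 10, 9, 11, 12]

def gs : EE → Fin 13 := Sum.elim (fun p => fs p.1) ts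
def gt : EE → Fin 13 := Sum.elim (fun p => ft p.1) tt

theorem fat_eq (D f : Fin 13 → ℤ) (h0 : ∀ v, 0 ≤ D v) (hd : ∑ v, D v ≤ 8)
    (hf : ∀ v, 0 ≤ D v - lap gs gt f v) (b : Fin 8) : f (fs b) = f (ft b) := by
  by_contra hne
  have := cut_le gs gt D f h0 hf (max (f (fs b)) (f (ft b)))
    ((univ : Finset (Fin 9)).map ⟨fun i => (Sum.inl (b, i) : EE), fun i j h => by simpa using h⟩)
    (by
      intro e he
      simp only [mem_map, mem_univ, true_and, Function.Embedding.coeFn_mk] at he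
      obtain ⟨i, rfl⟩ := he
      simp only [gs, gt, Sum.elim_inl]
      omega)
  simp at this
  omega

theorem lap_thin (f : Fin 13 → ℤ) (h : ∀ b, f (fs b) = f (ft b)) (v : Fin 13) :
    lap gs gt f v = ∑ e : Fin 10,
      ((if ts e = v then f v - f (tt e) else 0) + (if tt e = v then f v - f (ts e) else 0)) := by
  unfold lap
  rw [Fintype.sum_sum_type, sum_eq_zero, zero_add]
  · rfl
  · rintro ⟨b, i⟩ _
    simp only [gs, gt, Sum.elim_inl]
    have := h b
    split_ifs with h1 h2 h2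
    · subst h1; omega
    · subst h1; omega
    · subst h2; omega
    · rfl

theorem sum13 (D : Fin 13 → ℤ) : ∑ v, D v = D 0 + D 1 + D 2 + D 3 + D 4 + D 5 + D 6 + D 7 + D 8 +
    D 9 + D 10 + D 11 + D 12 := by
  simp only [Fin.sum_univ_castSucc, Fin.sum_univ_zero, zero_add]
  rfl

theorem sum10 (D : Fin 10 → ℤ) :
    ∑ v, D v = D 0 + D 1 + D 2 + D 3 + D 4 + D 5 + D 6 + D 7 + D 8 + D 9 := by
  simp only [Fin.sum_univ_castSucc, Fin.sum_univ_zero, zero_add]
  rfl

def ord : List (Fin 13) := [0, 1, 6, 9, 4, 12, 7, 3, 10, 11, 5, 2, 8]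

theorem box (x y : ℤ) (h : 5 * (x - y) ≤ 16 ∧ 5 * (y - x) ≤ 16) :
    ∃ a < 7, ((a : ℕ) : ℤ) - 3 = x - y := ⟨(x - y + 3).toNat, by omega, by omega⟩

theorem move (D f ι : Fin 13 → ℤ) (h0 : ∀ v, 0 ≤ D v) (hd : ∑ v, D v ≤ 8) (hι : ∀ v, 0 ≤ ι v)
    (hf : ∀ v, 0 ≤ D v - ι v - lap gs gt f v) :
    ∃ a < 7, ∃ b < 7, ∃ c < 7, ∃ d < 7, ∀ u < 13,
      (rq (((a : ℕ) : ℤ) - 3) (((b : ℕ) : ℤ) - 3) (((c : ℕ) : ℤ) - 3) (((d : ℕ) : ℤ) - 3)).getD u 0
        + ι (ord.getD u 0) ≤ D (ord.getD u 0) := by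
  have hfat := fat_eq D f h0 hd (fun v => by have := hf v; have := hι v; linarith)
  have hl := lap_thin f hfat
  have e0 := hfat 0
  have e1 := hfat 1
  have e2 := hfat 2
  have e3 := hfat 3
  have e4 := hfat 4
  have e5 := hfat 5
  have e6 := hfat 6
  have e7 := hfat 7
  have g0 := hf 0
  have g1 := hf 1
  have g2 := hf 2
  have g3 := hf 3
  have g4 := hf 4
  have g5 := hf 5
  have g6 := hf 6
  have g7 := hf 7
  have g8 := hf 8
  have g9 := hf 9
  have g10 := hf 10
  have g11 := hf 11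
  have g12 := hf 12
  rw [hl, sum10] at g0 g1 g2 g3 g4 g5 g6 g7 g8 g9 g10 g11 g12
  simp [fs, ft] at e0 e1 e2 e3 e4 e5 e6 e7
  simp [ts, tt] at g0 g1 g2 g3 g4 g5 g6 g7 g8 g9 g10 g11 g12
  rw [sum13] at hd
  have i0 := hι 0
  have i1 := hι 1
  have i2 := hι 2
  have i3 := hι 3
  have i4 := hι 4
  have i5 := hι 5
  have i6 := hι 6
  have i7 := hι 7
  have i8 := hι 8
  have i9 := hι 9
  have i10 := hι 10
  have i11 := hι 11
  have i12 := hι 12
  have d0 := h0 0
  have d1 := h0 1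
  have d2 := h0 2
  have d3 := h0 3
  have d4 := h0 4
  have d5 := h0 5
  have d6 := h0 6
  have d7 := h0 7
  have d8 := h0 8
  have d9 := h0 9
  have d10 := h0 10
  have d11 := h0 11
  have d12 := h0 12
  have b1 : 5 * (f 1 - f 0) ≤ 16 ∧ 5 * (f 0 - f 1) ≤ 16 := by constructor <;> linarith
  have b2 : 5 * (f 4 - f 0) ≤ 16 ∧ 5 * (f 0 - f 4) ≤ 16 := by constructor <;> linarith
  have b3 : 5 * (f 7 - f 0) ≤ 16 ∧ 5 * (f 0 - f 7) ≤ 16 := by constructor <;> linarith
  have b4 : 5 * (f 10 - f 0) ≤ 16 ∧ 5 * (f 0 - f 10) ≤ 16 := by constructor <;> linarith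
  obtain ⟨a, ha, ea⟩ := box _ _ b1
  obtain ⟨b, hb, eb⟩ := box _ _ b2
  obtain ⟨c, hc, ec⟩ := box _ _ b3
  obtain ⟨d, hd', ed⟩ := box _ _ b4
  refine ⟨a, ha, b, hb, c, hc, d, hd', ?_⟩
  rw [ea, eb, ec, ed]
  intro u hu
  interval_cases u <;> simp [rq, ord] <;> linarith

theorem not_rank1 (D : Fin 13 → ℤ) (h0 : ∀ v, 0 ≤ D v) (hd : ∑ v, D v ≤ 8) :
    ¬ Rank1 gs gt D := by
  intro hr
  set xs : List ℕ := ord.map fun v => (D v).toNat with hxs
  have hsum : xs.sum ≤ 8 := by
    have hd' := hd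
    rw [sum13] at hd'
    have : ((xs.sum : ℕ) : ℤ) ≤ 8 := by
      simp only [hxs, ord, List.map_cons, List.map_nil, List.sum_cons, List.sum_nil]
      push_cast
      simp only [Int.toNat_of_nonneg (h0 _)]
      linarith
    exact_mod_cast this
  have hx : ∀ u < 13, ((xs.getD u 0 : ℕ) : ℤ) = D (ord.getD u 0) := by
    intro u hu
    interval_cases u <;> simp [hxs, ord, h0]
  have hx9 : ∀ u < 13, xs.getD u 0 < 9 := by
    intro u hu
    have : xs.getD u 0 ≤ xs.sum := by
      rw [List.getD_eq_getElem _ _ (by simpa [hxs, ord] using hu)]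
      exact List.single_le_sum (fun _ _ => Nat.zero_le _) _ (List.getElem_mem _)
    omega
  have hlen : xs.length = 13 := by simp [hxs, ord]
  have htl : tab.length = 13 := by simp [tab]
  have hz : ∀ q ∈ List.zipWith (fun T x => T.getD x (0, 0)) tab xs,
      ∃ u < 13, q = (tab.getD u []).getD (xs.getD u 0) (0, 0) := by
    intro q hq
    obtain ⟨u, hu, rfl⟩ := List.getElem_of_mem hq
    simp only [List.length_zipWith, hlen, htl, min_self] at hu
    refine ⟨u, hu, ?_⟩
    rw [List.getElem_zipWith, List.getD_eq_getElem _ _ (by omega : u < tab.length),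
      List.getD_eq_getElem _ _ (by omega : u < xs.length)]
  have := chk_false tab xs 8 (2 ^ 65 - 1) [] (by rw [hlen, htl]) hsum (by
    intro r hr'
    rw [List.nil_append, List.mem_map] at hr'
    obtain ⟨q, hq, rfl⟩ := hr'
    obtain ⟨u, hu, rfl⟩ := hz q hq
    obtain ⟨f, hf⟩ := hr (ord.getD u 0)
    obtain ⟨a, ha, b, hb, c, hc, d, hd', hm⟩ := move D f (fun w => if w = ord.getD u 0 then 1 else 0)
      h0 hd (fun v => by split_ifs <;> norm_num) hf
    have hok := tab_ok
    simp only [List.all_eq_true, List.mem_range] at hok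
    have hok := hok a ha b hb c hc d hd'
    unfold tabOK at hok
    simp only [force_eq, Bool.or_eq_true, Bool.and_eq_true, decide_eq_true_eq, List.all_eq_true,
      List.mem_range] at hok
    set r := rq (((a : ℕ) : ℤ) - 3) (((b : ℕ) : ℤ) - 3) (((c : ℕ) : ℤ) - 3) (((d : ℕ) : ℤ) - 3)
      with hrr
    have hm' : ∀ w < 13, r.getD w 0 ≤ (xs.getD w 0 : ℕ) := by
      intro w hw
      have := hm w hw
      rw [hx w hw]
      split_ifs at this <;> linarith
    rcases hok with hok | ⟨hj, hok⟩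
    · exfalso
      have : (r.map Int.toNat).sum ≤ xs.sum := by
        have hrl : r.length = 13 := by simp [hrr, rq]
        refine List.Forall₂.sum_le_sum ?_
        rw [List.forall₂_iff_get]
        refine ⟨by simp [hrl, hlen], fun i h1 h2 => ?_⟩
        have := hm' i (by omega)
        rw [List.getD_eq_getElem _ _ (by omega : i < r.length),
          List.getD_eq_getElem _ _ (by omega : i < xs.length)] at this
        simp only [List.get_eq_getElem, List.getElem_map]
        omega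
      omega
    · refine ⟨List.idxOf (a + 7 * b + 49 * c + 343 * d) codes, ?_, ?_, fun q hq => ?_⟩
      · have h1 := (hok u hu _ (hx9 u hu)).2
        have h2 := hm u hu
        rw [← hx u hu] at h2
        simp only [if_true] at h2
        rcases h1 with h1 | h1
        · omega
        · exact h1
      · rw [Nat.testBit_two_pow_sub_one]
        simpa using hj
      · obtain ⟨w, hw, rfl⟩ := hz q hq
        have h1 := (hok w hw _ (hx9 w hw)).1
        have h2 := hm' w hw
        rcases h1 with h1 | h1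
        · omega
        · exact h1)
  rw [chk_true] at this
  exact absurd this (by simp)

theorem nine_le : 9 ≤ gon gs gt := by
  by_contra h
  obtain ⟨D, h0, hd, hr⟩ := gon_spec gs gt
  exact not_rank1 D h0 (by rw [hd]; omega) hr

theorem isGraph : IsGraph gs gt := by
  refine ⟨by decide, ?_⟩
  have adj : ∀ e, (SimpleGraph.fromRel (fun u v => ∃ e, gs e = u ∧ gt e = v)).Reachable
      (gs e) (gt e) := fun e =>
    SimpleGraph.Adj.reachable (by
      rw [SimpleGraph.fromRel_adj]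
      exact ⟨by revert e; decide, Or.inl ⟨e, rfl, rfl⟩⟩)
  have r1 := adj (Sum.inr 0)
  have r4 := adj (Sum.inr 1)
  have r7 := adj (Sum.inr 2)
  have r10 := adj (Sum.inr 3)
  have r2 := r1.trans (adj (Sum.inl (0, 0)))
  have r3 := r2.trans (adj (Sum.inl (1, 0)))
  have r5 := r4.trans (adj (Sum.inl (2, 0)))
  have r6 := r5.trans (adj (Sum.inl (3, 0)))
  have r8 := r7.trans (adj (Sum.inl (4, 0)))
  have r9 := r8.trans (adj (Sum.inl (5, 0)))
  have r11 := r10.trans (adj (Sum.inl (6, 0)))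
  have r12 := r11.trans (adj (Sum.inl (7, 0)))
  have all : ∀ v : Fin 13, (SimpleGraph.fromRel (fun u v => ∃ e, gs e = u ∧ gt e = v)).Reachable
      0 v := by
    intro v
    fin_cases v
    exacts [SimpleGraph.Reachable.refl _, r1, r2, r3, r4, r5, r6, r7, r8, r9, r10, r11, r12]
  exact ⟨fun u v => (all u).symm.trans (all v)⟩

end Pool.Agent.H9.Gon
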