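import Pool.Agent.H9.Gon3

set_option autoImplicit false

namespace Pool.Agent.H9.Gon

open Finset

abbrev VV : Type := Fin 13 ⊕ EE × Fin (3 - 1)

def hT : List (List ℤ) := [
  [0, -1, -1, -1, 0, 0, 0, 0, 0, 0, 0, 0, 0, -1, -2, 0, 0, 0, 0, 0, 0, 0, 0, 0, 0, 0, 0, 0, 0, 0, 0, 0, 0],
  [0, -1, -1, -1, 0, 0, 0, -1, -1, -1, 0, 0, 0, -1, -1, 0, 0, -1, -2, 0, 0, 0, 0, -1, -1, 0, 0, 0, -1, 0, 0, 0, 0],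
  [0, -1, -1, -1, -1, -1, -1, 0, 0, 0, 0, 0, 0, -1, -1, -1, -2, 0, 0, 0, 0, -1, -1, 0, 0, 0, 0, 0, 0, -1, 0, 0, 0],
  [0, -1, -1, -1, -1, -1, -1, 0, 0, 0, 0, 0, 0, -1, -1, -1, -2, 0, 0, 0, 0, -1, -1, 0, 0, 0, 0, 0, 0, -1, 0, 0, 0],
  [0, -1, -1, -1, -1, -1, -1, 0, 0, 0, 0, 0, 0, -1, -1, -1, -1, 0, 0, 0, 0, -1, -1, 0, 0, 0, 0, 0, 0, -1, 0, 0, 0],
  [0, 0, 0, 0, -2, -2, -2, -1, -1, -1, 0, 0, 0, 0, 0, -1, -2, -1, -2, 0, 0, 0, -1, 0, -1, 0, 0, -1, -1, -1, 0, 0, 0],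
  [0, 0, 0, 0, -2, -2, -2, -1, -1, -1, 0, 0, 0, 0, 0, -1, -2, -1, -2, 0, 0, 0, -1, 0, -1, 0, 0, -1, -1, -1, 0, 0, 0],
  [0, -1, -1, -1, 0, 0, 0, -1, -1, -1, 0, 0, 0, -1, -2, 0, 0, -1, -1, 0, 0, 0, 0, -1, -1, 0, 0, 0, -1, 0, 0, 0, 0],
  [0, 0, 0, 0, 0, 0, 0, -2, -2, -2, -1, -1, -1, 0, 0, 0, 0, -1, -2, -1, -1, 0, 0, 0, -1, 0, -1, 0, -1, 0, 0, -1, -1],
  [0, 0, 0, 0, 0, 0, 0, -2, -2, -2, -1, -1, -1, 0, 0, 0, 0, -1, -2, -1, -1, 0, 0, 0, -1, 0, -1, 0, -1, 0, 0, -1, -1],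
  [0, 0, 0, 0, -1, -1, -1, 0, 0, 0, -2, -2, -2, 0, 0, -1, -2, 0, 0, -1, -2, 0, -1, 0, 0, 0, -1, 0, 0, -1, -1, 0, -1],
  [0, -1, -1, -1, 0, 0, 0, 0, 0, 0, -1, -1, -1, -1, -2, 0, 0, 0, 0, -1, -1, 0, 0, 0, 0, -1, -1, 0, 0, 0, 0, 0, -1],
  [0, 0, 0, 0, -1, -1, -1, 0, 0, 0, -2, -2, -2, 0, 0, -1, -2, 0, 0, -1, -2, 0, -1, 0, 0, 0, -1, 0, 0, -1, -1, 0, -1],
  [0, -1, -1, -1, -1, -1, -1, 0, 0, 0, 0, 0, 0, -1, -1, -1, -2, 0, 0, 0, 0, -1, -1, 0, 0, 0, 0, 0, 0, -1, 0, 0, 0],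
  [0, -1, -1, -1, 0, 0, 0, -1, -1, -1, 0, 0, 0, -1, -2, 0, 0, -1, -2, 0, 0, 0, 0, -1, -1, 0, 0, 0, -1, 0, 0, 0, 0],
  [0, -1, -1, -1, -1, -1, -1, 0, 0, 0, 0, 0, 0, -1, -1, -1, -1, 0, 0, 0, 0, -1, -1, 0, 0, 0, 0, 0, 0, -1, 0, 0, 0],
  [0, -1, -1, -1, -1, -1, -1, 0, 0, 0, 0, 0, 0, -1, -1, -1, -2, 0, 0, 0, 0, -1, -1, 0, 0, 0, 0, 0, 0, -1, 0, 0, 0],
  [0, -1, -1, -1, 0, 0, 0, -1, -1, -1, 0, 0, 0, -1, -2, 0, 0, -1, -1, 0, 0, 0, 0, -1, -1, 0, 0, 0, -1, 0, 0, 0, 0],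
  [0, -1, -1, -1, 0, 0, 0, -1, -1, -1, 0, 0, 0, -1, -2, 0, 0, -1, -2, 0, 0, 0, 0, -1, -1, 0, 0, 0, -1, 0, 0, 0, 0],
  [0, -1, -1, -1, 0, 0, 0, 0, 0, 0, -1, -1, -1, -1, -2, 0, 0, 0, 0, -1, -1, 0, 0, 0, 0, -1, -1, 0, 0, 0, 0, 0, -1],
  [0, 0, 0, 0, -1, -1, -1, 0, 0, 0, -2, -2, -2, 0, 0, -1, -2, 0, 0, -1, -2, 0, -1, 0, 0, 0, -1, 0, 0, -1, -1, 0, -1],
  [0, -1, -1, -1, -1, -1, -1, 0, 0, 0, 0, 0, 0, -1, -1, -1, -2, 0, 0, 0, 0, -1, -1, 0, 0, 0, 0, 0, 0, -1, 0, 0, 0],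
  [0, 0, 0, 0, -1, -1, -1, -1, -1, -1, 0, 0, 0, 0, 0, -1, -1, -1, -2, 0, 0, 0, -1, 0, -1, 0, 0, -1, -1, -1, 0, 0, 0],
  [0, -1, -1, -1, 0, 0, 0, -1, -1, -1, 0, 0, 0, -1, -2, 0, 0, -1, -2, 0, 0, 0, 0, -1, -1, 0, 0, 0, -1, 0, 0, 0, 0],
  [0, 0, 0, 0, -2, -2, -2, -1, -1, -1, 0, 0, 0, 0, 0, -1, -2, -1, -2, 0, 0, 0, -1, 0, -1, 0, 0, -1, -1, -1, 0, 0, 0],
  [0, -1, -1, -1, 0, 0, 0, 0, 0, 0, -1, -1, -1, -1, -2, 0, 0, 0, 0, -1, -1, 0, 0, 0, 0, -1, -1, 0, 0, 0, 0, 0, -1],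
  [0, 0, 0, 0, -1, -1, -1, 0, 0, 0, -1, -1, -1, 0, 0, -1, -2, 0, 0, -1, -1, 0, -1, 0, 0, 0, -1, 0, 0, -1, -1, 0, -1],
  [0, -1, -1, -1, 0, 0, 0, 0, 0, 0, -1, -1, -1, -1, -2, 0, 0, 0, 0, -1, -1, 0, 0, 0, 0, -1, -1, 0, 0, 0, 0, 0, -1],
  [0, -1, -1, -1, 0, 0, 0, -1, -1, -1, 0, 0, 0, -1, -2, 0, 0, -1, -2, 0, 0, 0, 0, -1, -1, 0, 0, 0, -1, 0, 0, 0, 0],
  [0, -1, -1, -1, -1, -1, -1, 0, 0, 0, 0, 0, 0, -1, -1, -1, -2, 0, 0, 0, 0, -1, -1, 0, 0, 0, 0, 0, 0, -1, 0, 0, 0],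
  [0, -1, -1, -1, 0, 0, 0, -1, -1, -1, 0, 0, 0, -1, -2, 0, 0, -1, -2, 0, 0, 0, 0, -1, -1, 0, 0, 0, -1, 0, 0, 0, 0],
  [0, -1, -1, -1, -1, -1, -1, 0, 0, 0, 0, 0, 0, -1, -1, -1, -2, 0, 0, 0, 0, -1, -1, 0, 0, 0, 0, 0, 0, -1, 0, 0, 0],
  [0, -1, -1, -1, 0, 0, 0, 0, 0, 0, -1, -1, -1, -1, -2, 0, 0, 0, 0, -1, -1, 0, 0, 0, 0, -1, -1, 0, 0, 0, 0, 0, -1]]
def hB : List (List ℤ) := [
  [0, -1, -1, -1, 0, 0, 0, 0, 0, 0, 0, 0, 0, -1, -1, 0, 0, 0, 0, 0, 0, 0, 0, 0, 0, 0, 0, 0, 0, 0, 0, 0, 0],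
  [0, 0, 0, 0, -2, -2, -2, -1, -1, -1, 0, 0, 0, 0, 0, -1, -2, -1, -2, 0, 0, 0, -1, 0, -1, 0, 0, -1, -1, -1, 0, 0, 0],
  [0, 0, 0, 0, 0, 0, 0, -2, -2, -2, -1, -1, -1, 0, 0, 0, 0, -1, -2, -1, -1, 0, 0, 0, -1, 0, -1, 0, -1, 0, 0, -1, -1],
  [0, 0, 0, 0, -1, -1, -1, 0, 0, 0, -2, -2, -2, 0, 0, -1, -2, 0, 0, -1, -2, 0, -1, 0, 0, 0, -1, 0, 0, -1, -1, 0, -1]]

def dL : List ℤ := [2, 0, 0, 0, 0, 0, 0, 0, 0, 0, 0, 0, 0, 0, 0, 0, 0, 0, 0, 0, 0, 1, 0, 1, 0, 1, 0, 1, 0, 0, 1, 1, 0]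

def DD : VV → ℤ
  | Sum.inl v => dL.getD v.val 0
  | Sum.inr (Sum.inl _, _) => 0
  | Sum.inr (Sum.inr e, i) => dL.getD (13 + 2 * e.val + i.val) 0

def mk (h : List ℤ) (o : Option (Fin 8 × Fin 9)) : VV → ℤ
  | Sum.inl v => h.getD v.val 0
  | Sum.inr (Sum.inl p, _) => h.getD (3 * (p.1.val / 2) + 1) 0 - if some p = o then 1 else 0
  | Sum.inr (Sum.inr e, i) => h.getD (13 + 2 * e.val + i.val) 0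

def mv : VV → VV → ℤ
  | Sum.inl v => mk (hT.getD v.val []) none
  | Sum.inr (Sum.inl p, _) => mk (hB.getD (p.1.val / 2) []) (some p)
  | Sum.inr (Sum.inr e, i) => mk (hT.getD (13 + 2 * e.val + i.val) []) none

def iS : List (List EE) := [
  [Sum.inr 0, Sum.inr 1, Sum.inr 2, Sum.inr 3],
  [Sum.inl (0, 0), Sum.inl (0, 1), Sum.inl (0, 2), Sum.inl (0, 3), Sum.inl (0, 4), Sum.inl (0, 5), Sum.inl (0, 6), Sum.inl (0, 7), Sum.inl (0, 8), Sum.inr 4],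
  [Sum.inl (1, 0), Sum.inl (1, 1), Sum.inl (1, 2), Sum.inl (1, 3), Sum.inl (1, 4), Sum.inl (1, 5), Sum.inl (1, 6), Sum.inl (1, 7), Sum.inl (1, 8), Sum.inr 5],
  [Sum.inr 6],
  [Sum.inl (2, 0), Sum.inl (2, 1), Sum.inl (2, 2), Sum.inl (2, 3), Sum.inl (2, 4), Sum.inl (2, 5), Sum.inl (2, 6), Sum.inl (2, 7), Sum.inl (2, 8), Sum.inr 7],
  [Sum.inl (3, 0), Sum.inl (3, 1), Sum.inl (3, 2), Sum.inl (3, 3), Sum.inl (3, 4), Sum.inl (3, 5), Sum.inl (3, 6), Sum.inl (3, 7), Sum.inl (3, 8), Sum.inr 8],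
  [],
  [Sum.inl (4, 0), Sum.inl (4, 1), Sum.inl (4, 2), Sum.inl (4, 3), Sum.inl (4, 4), Sum.inl (4, 5), Sum.inl (4, 6), Sum.inl (4, 7), Sum.inl (4, 8), Sum.inr 9],
  [Sum.inl (5, 0), Sum.inl (5, 1), Sum.inl (5, 2), Sum.inl (5, 3), Sum.inl (5, 4), Sum.inl (5, 5), Sum.inl (5, 6), Sum.inl (5, 7), Sum.inl (5, 8)],
  [],
  [Sum.inl (6, 0), Sum.inl (6, 1), Sum.inl (6, 2), Sum.inl (6, 3), Sum.inl (6, 4), Sum.inl (6, 5), Sum.inl (6, 6), Sum.inl (6, 7), Sum.inl (6, 8)],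
  [Sum.inl (7, 0), Sum.inl (7, 1), Sum.inl (7, 2), Sum.inl (7, 3), Sum.inl (7, 4), Sum.inl (7, 5), Sum.inl (7, 6), Sum.inl (7, 7), Sum.inl (7, 8)],
  []]

def iT : List (List EE) := [
  [],
  [Sum.inr 0],
  [Sum.inl (0, 0), Sum.inl (0, 1), Sum.inl (0, 2), Sum.inl (0, 3), Sum.inl (0, 4), Sum.inl (0, 5), Sum.inl (0, 6), Sum.inl (0, 7), Sum.inl (0, 8)],
  [Sum.inl (1, 0), Sum.inl (1, 1), Sum.inl (1, 2), Sum.inl (1, 3), Sum.inl (1, 4), Sum.inl (1, 5), Sum.inl (1, 6), Sum.inl (1, 7), Sum.inl (1, 8)],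
  [Sum.inr 1],
  [Sum.inl (2, 0), Sum.inl (2, 1), Sum.inl (2, 2), Sum.inl (2, 3), Sum.inl (2, 4), Sum.inl (2, 5), Sum.inl (2, 6), Sum.inl (2, 7), Sum.inl (2, 8)],
  [Sum.inl (3, 0), Sum.inl (3, 1), Sum.inl (3, 2), Sum.inl (3, 3), Sum.inl (3, 4), Sum.inl (3, 5), Sum.inl (3, 6), Sum.inl (3, 7), Sum.inl (3, 8), Sum.inr 4],
  [Sum.inr 2],
  [Sum.inl (4, 0), Sum.inl (4, 1), Sum.inl (4, 2), Sum.inl (4, 3), Sum.inl (4, 4), Sum.inl (4, 5), Sum.inl (4, 6), Sum.inl (4, 7), Sum.inl (4, 8), Sum.inr 5],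
  [Sum.inl (5, 0), Sum.inl (5, 1), Sum.inl (5, 2), Sum.inl (5, 3), Sum.inl (5, 4), Sum.inl (5, 5), Sum.inl (5, 6), Sum.inl (5, 7), Sum.inl (5, 8), Sum.inr 7],
  [Sum.inr 3, Sum.inr 6],
  [Sum.inl (6, 0), Sum.inl (6, 1), Sum.inl (6, 2), Sum.inl (6, 3), Sum.inl (6, 4), Sum.inl (6, 5), Sum.inl (6, 6), Sum.inl (6, 7), Sum.inl (6, 8), Sum.inr 8],
  [Sum.inl (7, 0), Sum.inl (7, 1), Sum.inl (7, 2), Sum.inl (7, 3), Sum.inl (7, 4), Sum.inl (7, 5), Sum.inl (7, 6), Sum.inl (7, 7), Sum.inl (7, 8), Sum.inr 9]]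

theorem iS_ok (v : Fin 13) : (iS.getD v.val []).Nodup ∧ ∀ e, e ∈ iS.getD v.val [] ↔ gs e = v := by
  have h : ∀ (v : Fin 13) (e : EE), (∃ x ∈ iS.getD v.val [], x = e) ↔ gs e = v := by decide +kernel
  exact ⟨by revert v; decide +kernel, fun e => by simpa using h v e⟩

theorem iT_ok (v : Fin 13) : (iT.getD v.val []).Nodup ∧ ∀ e, e ∈ iT.getD v.val [] ↔ gt e = v := by
  have h : ∀ (v : Fin 13) (e : EE), (∃ x ∈ iT.getD v.val [], x = e) ↔ gt e = v := by decide +kernel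
  exact ⟨by revert v; decide +kernel, fun e => by simpa using h v e⟩

theorem sum_list (l : List EE) (p : EE → Prop) [DecidablePred p] (h : l.Nodup ∧ ∀ e, e ∈ l ↔ p e)
    (g : EE → ℤ) : ∑ e, (if p e then g e else 0) = (l.map g).sum := by
  rw [← sum_filter, ← List.sum_toFinset _ h.1]
  congr 1
  ext e
  simp [h.2]

def lapL (f : VV → ℤ) : VV → ℤ
  | Sum.inl v => ((iS.getD v.val []).map fun e => f (Sum.inl v) - f (Sum.inr (e, 0))).sum +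
      ((iT.getD v.val []).map fun e => f (Sum.inl v) - f (Sum.inr (e, 1))).sum
  | Sum.inr (e, i) => 2 * f (Sum.inr (e, i)) - f (pos gs gt 3 e i.val) - f (pos gs gt 3 e (i.val + 2))

theorem lap_eq (f : VV → ℤ) (u : VV) : lap (subS gs gt 3) (subT gs gt 3) f u = lapL f u := by
  rcases u with v | ⟨e, i⟩
  · rw [lap_sub_inl gs gt 3 (by norm_num) f v, sum_add_distrib, sum_list _ _ (iS_ok v),
      sum_list _ _ (iT_ok v)]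
    rfl
  · exact lap_sub_inr gs gt 3 f e i

def vL : List VV := (List.finRange 13).map Sum.inl ++
  iS.flatten.flatMap fun e => [Sum.inr (e, 0), Sum.inr (e, 1)]

theorem mem_vL (v : VV) : v ∈ vL := by
  have h : ∀ v : VV, ∃ x ∈ vL, x = v := by decide +kernel
  simpa using h v

theorem moves_ok' : (vL.all fun v => vL.all fun u =>
    decide (0 ≤ DD u - (if u = v then 1 else 0) - lapL (mv v) u)) = true := by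
  decide +kernel

theorem moves_ok (v u : VV) : 0 ≤ DD u - (if u = v then 1 else 0) - lapL (mv v) u := by
  have := moves_ok'
  simp only [List.all_eq_true, decide_eq_true_eq] at this
  exact this v (mem_vL v) u (mem_vL u)

theorem le_eight : gon (subS gs gt 3) (subT gs gt 3) ≤ 8 := by
  refine gon_le _ _ DD (by decide +kernel) 8 (by decide +kernel) fun v => ⟨mv v, fun u => ?_⟩
  rw [lap_eq]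
  exact moves_ok v u

end Pool.Agent.H9.Gon
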