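import Pool.Agent.H9.Gon1

set_option autoImplicit false

namespace Pool.Agent.H9.Gon

open Finset

/-- First ends of the edges of the Cartesian product. -/
def prodS {V E V' E' : Type} (s : E → V) (s' : E' → V') : (E × V') ⊕ (V × E') → V × V' :=
  Sum.elim (fun p => (s p.1, p.2)) (fun p => (p.1, s' p.2))

/-- A tree: a connected loopless multigraph with one edge fewer than vertices. -/
def IsTreeG {V E : Type} [Fintype V] [Fintype E] (s t : E → V) : Prop :=
  IsGraph s t ∧ Fintype.card E + 1 = Fintype.card V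

/-- No parallel edges. -/
def NoParallel {V E : Type} (s t : E → V) : Prop :=
  ∀ e e', (s e = s e' ∧ t e = t e') ∨ (s e = t e' ∧ t e = s e') → e = e'

def hs : Fin 13 → Fin 8 := ![0, 0, 0, 0, 1, 1, 1, 2, 2, 3, 4, 5, 6]
def ht : Fin 13 → Fin 8 := ![1, 2, 3, 4, 2, 3, 4, 3, 4, 4, 5, 6, 7]
def ks : Fin 1 → Fin 2 := fun _ => 0
def kt : Fin 1 → Fin 2 := fun _ => 1

theorem cut5 : ∀ b : Fin 8 → Bool, ∀ x y : Fin 8, x.val < 5 → y.val < 5 → b x = true → b y = false →
    4 ≤ (univ.filter fun e : Fin 13 => b (hs e) ≠ b (ht e)).card := by decide +kernel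

theorem const5 (D f : Fin 8 → ℤ) (h0 : ∀ v, 0 ≤ D v) (hd : ∑ v, D v ≤ 3)
    (hf : ∀ v, 0 ≤ D v - lap hs ht f v) (x y : Fin 8) (hx : x.val < 5) (hy : y.val < 5) :
    f x ≤ f y := by
  by_contra hlt
  have h1 := cut5 (fun v => decide (f x ≤ f v)) x y hx hy (by simp) (by simpa using hlt)
  have h2 := cut_le hs ht D f h0 hf (f x) (univ.filter fun e : Fin 13 =>
    decide (f x ≤ f (hs e)) ≠ decide (f x ≤ f (ht e))) (by
      intro e he
      simp only [mem_filter, mem_univ, true_and, ne_eq, decide_eq_decide] at he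
      omega)
  omega

theorem sum8 (D : Fin 8 → ℤ) : ∑ v, D v = D 0 + D 1 + D 2 + D 3 + D 4 + D 5 + D 6 + D 7 :=
  Fin.sum_univ_eight D

theorem four_le : 4 ≤ gon hs ht := by
  by_contra h
  obtain ⟨D, h0, hd, hr⟩ := gon_spec hs ht
  have hd' : ∑ v, D v ≤ 3 := by rw [hd]; omega
  have key : ∀ v : Fin 8, v.val < 4 → 1 ≤ D v := by
    intro v hv
    obtain ⟨f, hf⟩ := hr v
    have hc := const5 D f h0 hd' (fun u => by
      have := hf u
      split_ifs at this <;> linarith)
    have hl : lap hs ht f v = 0 := by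
      unfold lap
      refine sum_eq_zero fun e _ => ?_
      have a1 : ∀ (v : Fin 8) (e : Fin 13), v.val < 4 → hs e = v → (ht e).val < 5 := by decide
      have a2 : ∀ (v : Fin 8) (e : Fin 13), v.val < 4 → ht e = v → (hs e).val < 5 := by decide
      have b1 : (if hs e = v then f v - f (ht e) else 0) = 0 := by
        split_ifs with h1
        · have := hc v _ (by omega) (a1 v e hv h1)
          have := hc _ v (a1 v e hv h1) (by omega)
          omega
        · rfl
      have b2 : (if ht e = v then f v - f (hs e) else 0) = 0 := by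
        split_ifs with h1
        · have := hc v _ (by omega) (a2 v e hv h1)
          have := hc _ v (a2 v e hv h1) (by omega)
          omega
        · rfl
      rw [b1, b2, add_zero]
    have := hf v
    rw [hl, if_pos rfl] at this
    linarith
  rw [sum8] at hd'
  have := key 0 (by decide)
  have := key 1 (by decide)
  have := key 2 (by decide)
  have := key 3 (by decide)
  have := h0 4
  have := h0 5
  have := h0 6
  have := h0 7
  linarith

def pD (p : Fin 2 × Fin 8) : ℤ :=
  (if p.1.val = 0 ∧ p.2.val < 5 then 1 else 0) + (if p.2.val = 4 then 1 else 0)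

def pf (q p : Fin 2 × Fin 8) : ℤ :=
  if q.2.val < 5 then (if q.1.val = 1 ∧ p.1.val = 0 ∧ p.2.val < 5 then 1 else 0)
  else ((q.2.val - max p.2.val 4 : ℕ) : ℤ)

theorem le_seven : gon (prodS ks hs) (prodS kt ht) ≤ 7 :=
  gon_le _ _ pD (by decide +kernel) 7 (by decide +kernel) fun q => ⟨pf q, by
    revert q
    unfold lap
    decide +kernel⟩

theorem reach_of {V E : Type} (s t : E → V) (h : ∀ e, s e ≠ t e) (e : E) :
    (SimpleGraph.fromRel (fun u v => ∃ e, s e = u ∧ t e = v)).Reachable (s e) (t e) :=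
  SimpleGraph.Adj.reachable (by
    rw [SimpleGraph.fromRel_adj]
    exact ⟨h e, Or.inl ⟨e, rfl, rfl⟩⟩)

theorem isGraphH : IsGraph hs ht := by
  refine ⟨by decide, ?_⟩
  have adj := reach_of hs ht (by decide)
  have r4 := adj 3
  have r5 := r4.trans (adj 10)
  have r6 := r5.trans (adj 11)
  have r7 := r6.trans (adj 12)
  have all : ∀ v : Fin 8, (SimpleGraph.fromRel (fun u v => ∃ e, hs e = u ∧ ht e = v)).Reachable
      0 v := by
    intro v
    fin_cases v
    exacts [SimpleGraph.Reachable.refl _, adj 0, adj 1, adj 2, r4, r5, r6, r7]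
  exact ⟨fun u v => (all u).symm.trans (all v)⟩

theorem isTreeK : IsTreeG ks kt := by
  refine ⟨⟨by decide, ?_⟩, by simp⟩
  have adj := reach_of ks kt (by decide)
  have all : ∀ v : Fin 2, (SimpleGraph.fromRel (fun u v => ∃ e, ks e = u ∧ kt e = v)).Reachable
      0 v := by
    intro v
    fin_cases v
    exacts [SimpleGraph.Reachable.refl _, adj 0]
  exact ⟨fun u v => (all u).symm.trans (all v)⟩

theorem noPar : NoParallel hs ht := by unfold NoParallel; decide +kernel

end Pool.Agent.H9.Gon
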