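import Pool.Agent.H9.Gon5

set_option autoImplicit false
set_option linter.unusedSectionVars false

namespace Pool.Agent.H9.Gon

open Finset

section defs
variable {V E : Type} [Fintype V] [DecidableEq V] [Fintype E]

/-- `D` has Baker-Norine rank at least `r`: for every effective `F` of degree `r`, the divisor
`D - F` is equivalent to an effective divisor. -/
def RankGe (s t : E → V) (r : ℕ) (D : V → ℤ) : Prop :=
  ∀ F : V → ℤ, (∀ v, 0 ≤ F v) → ∑ v, F v = r → ∃ f : V → ℤ, ∀ u, 0 ≤ D u - F u - lap s t f u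

/-- The `r`-th gonality: least degree of a divisor of rank at least `r`. -/
noncomputable def gonR (s t : E → V) (r : ℕ) : ℕ :=
  sInf {d : ℕ | ∃ D : V → ℤ, ∑ v, D v = d ∧ RankGe s t r D}

theorem lap_add (s t : E → V) (f g : V → ℤ) (u : V) :
    lap s t (fun v => f v + g v) u = lap s t f u + lap s t g u := by
  unfold lap
  rw [← sum_add_distrib]
  refine sum_congr rfl fun e _ => ?_
  split_ifs <;> ring

theorem lap_sub (s t : E → V) (f g : V → ℤ) (u : V) :
    lap s t (fun v => f v - g v) u = lap s t f u - lap s t g u := by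
  unfold lap
  rw [← sum_sub_distrib]
  refine sum_congr rfl fun e _ => ?_
  split_ifs <;> ring

theorem sum_lap (s t : E → V) (f : V → ℤ) : ∑ u, lap s t f u = 0 := by
  unfold lap
  rw [sum_comm]
  refine sum_eq_zero fun e _ => ?_
  rw [sum_add_distrib]
  simp

/-- number of edges from `u` to vertices earlier in the order `ρ` -/
def indeg (s t : E → V) (ρ : V → ℤ) (u : V) : ℤ :=
  ∑ e, ((if s e = u then (if ρ (t e) < ρ u then 1 else 0) else 0) +
    (if t e = u then (if ρ (s e) < ρ u then 1 else 0) else 0))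

theorem noneff [Nonempty V] (s t : E → V) (F ρ : V → ℤ) (h : ∀ u, F u < indeg s t ρ u) (f : V → ℤ) :
    ¬ ∀ u, 0 ≤ F u - lap s t f u := by
  intro hf
  obtain ⟨m, -, hm⟩ := exists_max_image univ f univ_nonempty
  obtain ⟨u, hu, hmin⟩ := exists_min_image (univ.filter fun v => f v = f m) ρ ⟨m, by simp⟩
  simp only [mem_filter, mem_univ, true_and] at hu hmin hm
  have key : ∀ w, (if ρ w < ρ u then (1 : ℤ) else 0) ≤ f u - f w := by
    intro w
    have h1 := hm w trivial
    split_ifs with h2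
    · have : f w ≠ f m := fun h3 => absurd (hmin w h3) (not_le.2 h2)
      omega
    · omega
  have : indeg s t ρ u ≤ lap s t f u := by
    unfold indeg lap
    refine sum_le_sum fun e _ => add_le_add ?_ ?_
    · split_ifs with h1 h2
      · simpa [h2] using key (t e)
      · simpa [h2] using key (t e)
      · exact le_rfl
    · split_ifs with h1 h2
      · simpa [h2] using key (s e)
      · simpa [h2] using key (s e)
      · exact le_rfl
  have := h u
  have := hf u
  linarith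

def pt (a u : V) : ℤ := if u = a then 1 else 0

theorem sum_pt (a : V) : ∑ u, pt a u = 1 := by simp [pt]

theorem peel (F : V → ℤ) (h0 : ∀ v, 0 ≤ F v) (n : ℕ) (hn : ∑ v, F v = (n + 1 : ℕ)) :
    ∃ a, (∀ v, 0 ≤ F v - pt a v) ∧ ∑ v, (F v - pt a v) = n := by
  have : ∃ a, 0 < F a := by
    by_contra hc
    push Not at hc
    have : ∑ v, F v ≤ 0 := sum_nonpos fun v _ => hc v
    omega
  obtain ⟨a, ha⟩ := this
  refine ⟨a, fun v => ?_, ?_⟩
  · unfold pt
    have := h0 v
    split_ifs with h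
    · subst h; omega
    · omega
  · rw [sum_sub_distrib, sum_pt, hn]; push_cast; ring

theorem zero_of (F : V → ℤ) (h0 : ∀ v, 0 ≤ F v) (hn : ∑ v, F v = (0 : ℕ)) (v : V) : F v = 0 :=
  (sum_eq_zero_iff_of_nonneg fun v _ => h0 v).1 (by simpa using hn) v (mem_univ v)

theorem pts1 (F : V → ℤ) (h0 : ∀ v, 0 ≤ F v) (hn : ∑ v, F v = (1 : ℕ)) :
    ∃ a, ∀ v, F v = pt a v := by
  obtain ⟨a, h1, h2⟩ := peel F h0 0 hn
  exact ⟨a, fun v => by have := zero_of _ h1 h2 v; linarith⟩

theorem pts2 (F : V → ℤ) (h0 : ∀ v, 0 ≤ F v) (hn : ∑ v, F v = (2 : ℕ)) :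
    ∃ a b, ∀ v, F v = pt a v + pt b v := by
  obtain ⟨a, h1, h2⟩ := peel F h0 1 hn
  obtain ⟨b, hb⟩ := pts1 _ h1 h2
  exact ⟨a, b, fun v => by have := hb v; linarith⟩

theorem pts3 (F : V → ℤ) (h0 : ∀ v, 0 ≤ F v) (hn : ∑ v, F v = (3 : ℕ)) :
    ∃ a b c, ∀ v, F v = pt a v + pt b v + pt c v := by
  obtain ⟨a, h1, h2⟩ := peel F h0 2 hn
  obtain ⟨b, c, hb⟩ := pts2 _ h1 h2
  exact ⟨a, b, c, fun v => by have := hb v; linarith⟩

theorem pt_nonneg (a v : V) : 0 ≤ pt a v := by unfold pt; split_ifs <;> norm_num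

theorem rank_move (s t : E → V) (r : ℕ) (D g : V → ℤ) (h : RankGe s t r D) :
    RankGe s t r (fun u => D u - lap s t g u) := by
  intro F h0 hF
  obtain ⟨f, hf⟩ := h F h0 hF
  refine ⟨fun v => f v - g v, fun u => ?_⟩
  rw [lap_sub]
  have := hf u
  linarith

theorem rank_pred (s t : E → V) (r : ℕ) (D : V → ℤ) (a : V) (h : RankGe s t (r + 1) D) :
    RankGe s t r (fun u => D u - pt a u) := by
  intro F h0 hF
  obtain ⟨f, hf⟩ := h (fun u => F u + pt a u) (fun u => add_nonneg (h0 u) (pt_nonneg a u))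
    (by rw [sum_add_distrib, sum_pt, hF]; push_cast; ring)
  exact ⟨f, fun u => by have := hf u; linarith⟩

theorem rank_add (s t : E → V) (r : ℕ) (D : V → ℤ) (a : V) (k : ℕ) (h : RankGe s t r D) :
    RankGe s t r (fun u => D u + k * pt a u) := by
  intro F h0 hF
  obtain ⟨f, hf⟩ := h F h0 hF
  refine ⟨f, fun u => ?_⟩
  have := hf u
  have : 0 ≤ (k : ℤ) * pt a u := mul_nonneg (by positivity) (pt_nonneg a u)
  linarith

theorem gonR_eq (s t : E → V) (r d : ℕ) (a : V) (D : V → ℤ) (hD : ∑ v, D v = (d + 1 : ℕ))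
    (hr : RankGe s t r D) (hlow : ∀ D' : V → ℤ, ∑ v, D' v = d → ¬ RankGe s t r D') :
    gonR s t r = d + 1 := by
  refine le_antisymm (Nat.sInf_le ⟨D, hD, hr⟩) ?_
  by_contra hc
  obtain ⟨D', h1, h2⟩ : ∃ D' : V → ℤ, ∑ v, D' v = gonR s t r ∧ RankGe s t r D' :=
    Nat.sInf_mem (⟨d + 1, D, hD, hr⟩ : Set.Nonempty
      {d : ℕ | ∃ D : V → ℤ, ∑ v, D v = d ∧ RankGe s t r D})
  refine hlow _ ?_ (rank_add s t r D' a (d - gonR s t r) h2)
  rw [sum_add_distrib, ← mul_sum, sum_pt, h1]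
  omega

end defs

end Pool.Agent.H9.Gon
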