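import Pool.Agent.H9.GoodDefs

set_option autoImplicit false

namespace Pool.Agent.H9.Good

theorem keep {P : Type} [PartialOrder P] {A Q : Set P} (h : IsGood A Q) {x : P} (hx : x ∈ A)
    (hy : ∀ q ∈ A, q ≠ x → ∃ y ∈ A, (x ≤ y ∨ y ≤ x) ∧ ¬ y ≤ q ∧ ¬ q ≤ y) : x ∈ Q := by
  obtain ⟨q, ⟨hq, hf⟩, -⟩ := h.2 x hx
  by_contra hn
  obtain ⟨y, hyA, hxy, h1, h2⟩ := hy q (h.1 hq) fun e => hn (e ▸ hq)
  obtain ⟨C, hC, hm⟩ := zorn_subset_nonempty {D : Set P | D ⊆ A ∧ IsChain (· ≤ ·) D}
    (fun c hc hcc _ => ⟨⋃₀ c, ⟨Set.sUnion_subset fun D hD => (hc hD).1, by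
      rintro a ⟨D, hD, ha⟩ b ⟨E, hE, hb⟩ hab
      rcases hcc.total hD hE with e | e
      · exact (hc hE).2 (e ha) hb hab
      · exact (hc hD).2 ha (e hb) hab⟩, fun D hD => Set.subset_sUnion_of_mem hD⟩) {x, y}
    ⟨by rintro a (rfl | rfl) <;> assumption, by
      rintro a (rfl | rfl) b (rfl | rfl) _
      · exact Or.inl le_rfl
      · exact hxy
      · exact hxy.symm
      · exact Or.inl le_rfl⟩
  rcases hm.prop.2.total (hC (by simp : y ∈ ({x, y} : Set P))) (hf C hm (hC (by simp))) with e | e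
  · exact h1 e
  · exact h2 e

inductive Pt (w : ℕ) : Type
  | c (k : ℕ) (m : Fin w) (e : Bool)
  | s (m : Fin w)
  | u (m : Fin w) (e : Bool)
  | v (m : Fin w) (e : Bool)

open Pt

variable {w : ℕ}

def Pt.le : Pt w → Pt w → Prop
  | c k m e, c k' m' e' => k ≤ k' ∧ m.1 ≤ m'.1 ∧ (k < k' ∨ m.1 < m'.1 ∨ e = e')
  | c _ m _, s m' => m.1 ≤ m'.1
  | c _ m _, u m' _ => m.1 ≤ m'.1
  | s m, s m' => m.1 ≤ m'.1
  | s m, u m' _ => m.1 ≤ m'.1
  | v m _, u m' _ => m.1 = m'.1
  | u m e, u m' e' => m.1 = m'.1 ∧ e = e'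
  | v m e, v m' e' => m.1 = m'.1 ∧ e = e'
  | _, _ => False

instance : PartialOrder (Pt w) where
  le := Pt.le
  le_refl x := by cases x <;> simp [Pt.le]
  le_trans x y z := by
    cases x <;> cases y <;> cases z <;> simp only [Pt.le] <;> grind
  le_antisymm x y := by
    cases x <;> cases y <;> simp only [Pt.le] <;> grind [Fin.ext_iff]

theorem le_iff (x y : Pt w) : x ≤ y ↔ Pt.le x y := Iff.rfl

def isC : Pt w → Prop
  | c _ _ _ => True
  | _ => False

theorem finN : {x : Pt w | ¬ isC x}.Finite := by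
  refine (((Set.finite_range s).union (Set.finite_range fun p : Fin w × Bool => u p.1 p.2)).union
    (Set.finite_range fun p : Fin w × Bool => v p.1 p.2)).subset fun x hx => ?_
  cases x <;> simp_all [isC]

theorem finK (K : ℕ) : {x : Pt w | ∀ k m e, x = c k m e → k < K}.Finite := by
  refine (finN.union (Set.finite_range fun p : Fin K × Fin w × Bool =>
    c p.1.1 p.2.1 p.2.2)).subset fun x hx => ?_
  cases x with
  | c k m e => exact Or.inr ⟨(⟨k, hx k m e rfl⟩, m, e), rfl⟩
  | _ => exact Or.inl (by simp [isC])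

theorem anti (S : Set (Pt w)) (hS : IsAntichain (· ≤ ·) S) : S.Finite := by
  let f : Pt w → Pt w := fun x => match x with
    | c _ m e => c 0 m e
    | x => x
  refine Set.Finite.of_finite_image (f := f) ((finK 1).subset ?_) fun x hx y hy e => ?_
  · rintro _ ⟨x, -, rfl⟩ k m e h
    cases x <;> simp_all [f]
  · by_contra hn
    have h1 := hS hx hy hn
    have h2 := hS hy hx (Ne.symm hn)
    cases x <;> cases y <;> simp_all [f, le_iff, Pt.le]
    omega

theorem top_of {C : Set (Pt w)} (hC : IsChain (· ≤ ·) C) {x : Pt w} (hx : x ∈ C)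
    (hf : {y | y ∈ C ∧ x ≤ y}.Finite) : ∃ s, IsLUB C s := by
  obtain ⟨z, hz⟩ := hf.exists_maximal ⟨x, hx, le_rfl⟩
  refine ⟨z, IsGreatest.isLUB ⟨hz.prop.1, fun y hy => ?_⟩⟩
  rcases hC.total hy hz.prop.1 with e | e
  · exact e
  · exact hz.le_of_ge ⟨hy, hz.prop.2.trans e⟩ e

theorem cc : ChainComplete (Pt w) := by
  intro C ⟨x, hx⟩ hC
  constructor
  · by_cases h1 : ∃ z ∈ C, ¬ isC z
    · obtain ⟨z, hz, h⟩ := h1
      refine top_of hC hz (finN.subset fun y hy => ?_)
      have := hy.2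
      cases z <;> cases y <;> simp_all [isC, le_iff, Pt.le]
    push Not at h1
    by_cases h2 : ∃ K, ∀ y ∈ C, ∀ k m e, y = c k m e → k < K
    · obtain ⟨K, hK⟩ := h2
      exact top_of hC hx ((finK K).subset fun y hy => hK y hy.1)
    push Not at h2
    obtain ⟨M, ⟨k, e, hM⟩, hmax⟩ := Set.exists_max_image {m : Fin w | ∃ k e, c k m e ∈ C} id
      (Set.toFinite _) (by
        obtain ⟨y, hy, k, m, e, rfl, -⟩ := h2 0
        exact ⟨m, k, e, hy⟩)
    refine ⟨s M, fun y hy => ?_, fun z hz => ?_⟩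
    · have := h1 y hy
      cases y with
      | c k m e => exact hmax m ⟨k, e, hy⟩
      | _ => simp [isC] at this
    · have := hz hM
      cases z with
      | c k' m' e' =>
        obtain ⟨y, hy, k, m, e, rfl, h⟩ := h2 (k' + 1)
        have := (hz hy).1
        omega
      | _ => exact this
  · have hf : {y | y ∈ C ∧ y ≤ x}.Finite ∨ ∃ k m e, c k m e ∈ C := by
      by_cases h : ∃ k m e, c k m e ∈ C
      · exact Or.inr h
      · refine Or.inl (finN.subset fun y hy => ?_)
        cases y with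
        | c k m e => exact absurd ⟨k, m, e, hy.1⟩ h
        | _ => simp [isC]
    have key : ∀ x ∈ C, {y | y ∈ C ∧ y ≤ x}.Finite → ∃ i, IsGLB C i := fun x hx hf => by
      obtain ⟨z, hz⟩ := hf.exists_minimal ⟨x, hx, le_rfl⟩
      refine ⟨z, IsLeast.isGLB ⟨hz.prop.1, fun y hy => ?_⟩⟩
      rcases hC.total hy hz.prop.1 with e | e
      · exact hz.le_of_le ⟨hy, e.trans hz.prop.2⟩ e
      · exact e
    rcases hf with hf | ⟨k, m, e, h⟩
    · exact key x hx hf
    · refine key _ h ((finK (k + 1)).subset ?_)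
      rintro y hy k' m' e' rfl
      have := hy.2.1
      omega

def Inv (r : ℕ) : Pt w → Prop
  | c _ m _ => m.1 + r < w
  | s _ => False
  | _ => True

theorem step {A Q : Set (Pt w)} (h : IsGood A Q) {r : ℕ} (hA : ∀ x, Inv r x → x ∈ A) (x : Pt w)
    (hx : Inv (r + 1) x) : x ∈ Q := by
  have hxA : x ∈ A := hA x (by cases x <;> simp_all [Inv]; omega)
  refine keep h hxA fun q _ hq => ?_
  by_cases hc : ¬ x ≤ q ∧ ¬ q ≤ x
  · exact ⟨x, hxA, Or.inl le_rfl, hc⟩
  cases x with
  | s m => exact hx.elim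
  | c k m e =>
    have hx : m.1 + (r + 1) < w := hx
    cases q with
    | c k' m' e' =>
      by_cases hm : m.1 < m'.1
      · refine ⟨c (k' + 1) m e, hA _ (by simp [Inv]; omega), ?_⟩
        simp only [le_iff, Pt.le] at hc ⊢
        grind
      · refine ⟨c k' m' (!e'), hA _ (by simp [Inv]; omega), ?_⟩
        have : ¬ (k' = k ∧ m'.1 = m.1 ∧ e' = e) := fun ⟨a, b, d⟩ => hq (by rw [a, Fin.ext b, d])
        simp only [le_iff, Pt.le] at hc ⊢
        grind
    | s m' =>
      by_cases hm : m.1 < m'.1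
      · refine ⟨u m e, hA _ trivial, ?_⟩
        simp only [le_iff, Pt.le]
        grind
      · refine ⟨c k ⟨m.1 + 1, by omega⟩ e, hA _ (by simp [Inv]; omega), ?_⟩
        simp only [le_iff, Pt.le]
        grind
    | u m' e' =>
      refine ⟨u m' (!e'), hA _ trivial, ?_⟩
      simp only [le_iff, Pt.le] at hc ⊢
      grind
    | v m' e' => simp [le_iff, Pt.le] at hc
  | u m e =>
    cases q with
    | u m' e' =>
      have : ¬ (m'.1 = m.1 ∧ e' = e) := fun ⟨b, d⟩ => hq (by rw [Fin.ext b, d])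
      simp only [le_iff, Pt.le] at hc
      grind
    | v m' e' =>
      refine ⟨v m (!e'), hA _ trivial, ?_⟩
      simp only [le_iff, Pt.le]
      grind
    | _ => exact ⟨v m e, hA _ trivial, by simp [le_iff, Pt.le]⟩
  | v m e =>
    cases q with
    | u m' e' =>
      refine ⟨u m (!e'), hA _ trivial, ?_⟩
      simp only [le_iff, Pt.le]
      grind
    | v m' e' =>
      have : ¬ (m'.1 = m.1 ∧ e' = e) := fun ⟨b, d⟩ => hq (by rw [Fin.ext b, d])
      simp only [le_iff, Pt.le] at hc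
      grind
    | _ => simp [le_iff, Pt.le] at hc

theorem main (N n : ℕ) (hn : n ≤ N) (A : ℕ → Set (Pt (N + 1))) (h0 : A 0 = Set.univ)
    (h : ∀ k < n, IsGood (A k) (A (k + 1))) : (A n).Infinite := by
  have : ∀ r ≤ n, ∀ x, Inv r x → x ∈ A r := by
    intro r
    induction r with
    | zero => simp [h0]
    | succ r ih => exact fun hr => step (h r hr) (ih (by omega))
  exact Set.infinite_of_injective_forall_mem (f := fun k => c k 0 true) (fun a b e => by simpa using e)
    fun k => this n le_rfl _ (by simp [Inv]; omega)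

end Pool.Agent.H9.Good
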