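import Mathlib

set_option autoImplicit false

namespace Pool.Agent.H9.Good

variable {P : Type} [PartialOrder P]

/-- `p` is funneled through `q` in the ordered set `A`. -/
def Funnel (A : Set P) (p q : P) : Prop :=
  ∀ C : Set P, Maximal (fun D => D ⊆ A ∧ IsChain (· ≤ ·) D) C → p ∈ C → q ∈ C

/-- `Q` is a good subset of the ordered set `A`. -/
def IsGood (A Q : Set P) : Prop :=
  Q ⊆ A ∧ ∀ p ∈ A, ∃! q, q ∈ Q ∧ Funnel A p q

/-- Every nonempty chain has a supremum and an infimum. -/
def ChainComplete (P : Type) [PartialOrder P] : Prop :=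
  ∀ C : Set P, C.Nonempty → IsChain (· ≤ ·) C → (∃ s, IsLUB C s) ∧ ∃ i, IsGLB C i

end Pool.Agent.H9.Good
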