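import Mathlib

namespace Pool.Agent.H9.HI

open SimpleGraph Finset

noncomputable def deg {V : Type} (G : SimpleGraph V) (v : V) : ℕ := (G.neighborSet v).ncard

def HIrr {V : Type} (G : SimpleGraph V) : Prop :=
  ∀ v x y, G.Adj v x → G.Adj v y → x ≠ y → deg G x ≠ deg G y

theorem parent {V : Type} {G : SimpleGraph V} (h : G.IsTree) (r : V) : ∃ p : V → V,
    (∀ v, v ≠ r → G.Adj v (p v) ∧ G.dist r (p v) + 1 = G.dist r v) ∧
      ∀ v w, G.Adj v w → (w ≠ r ∧ p w = v) ∨ (v ≠ r ∧ p v = w) := by
  have ex : ∀ v, ∃ u, v ≠ r → G.Adj v u ∧ G.dist r u + 1 = G.dist r v := fun v => by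
    by_cases q : v = r
    · exact ⟨v, fun z => absurd q z⟩
    obtain ⟨P, hP⟩ := h.connected.exists_walk_length_eq_dist v r
    cases P with
    | nil => exact absurd rfl q
    | cons a P =>
      refine ⟨_, fun _ => ⟨a, ?_⟩⟩
      have := SimpleGraph.dist_le P.reverse
      rw [Walk.length_cons, dist_comm] at hP
      rw [Walk.length_reverse] at this
      rcases h.dist_eq_dist_add_one_of_adj r a with z | z <;> omega
  have un : ∀ w u u', G.Adj u w → G.Adj u' w → G.dist r u + 1 = G.dist r w →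
      G.dist r u' + 1 = G.dist r w → u = u' := fun w u u' a a' e e' => by
    obtain ⟨P, hP⟩ := h.connected.exists_walk_length_eq_dist r u
    obtain ⟨Q, hQ⟩ := h.connected.exists_walk_length_eq_dist r u'
    have := (h.isAcyclic.subsingleton_path _ _).elim
      ⟨P.concat a, Walk.isPath_of_length_eq_dist _ (by rw [Walk.length_concat]; omega)⟩
      ⟨Q.concat a', Walk.isPath_of_length_eq_dist _ (by rw [Walk.length_concat]; omega)⟩
    exact (Walk.concat_inj (congrArg Subtype.val this)).1
  choose p hp using ex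
  refine ⟨p, hp, fun v w a => ?_⟩
  rcases h.dist_eq_dist_add_one_of_adj r a with z | z
  · have q : v ≠ r := by rintro rfl; simp at z
    exact Or.inr ⟨q, un v _ _ (hp v q).1.symm a.symm (hp v q).2 z.symm⟩
  · have q : w ≠ r := by rintro rfl; simp at z
    exact Or.inl ⟨q, un w _ _ (hp w q).1.symm a (hp w q).2 z.symm⟩

def T : List (List (ℤ × ℤ)) := [[], 
  [(0, 0), (-79, 48), (-79, 48), (-79, 48), (-79, 48), (-79, 48), (-79, 48), (-79, 48)],
  [(0, 0), (-70, 17), (-31, 9), (-31, 17), (-31, 17), (-31, 17), (-31, 17), (-31, 17)],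
  [(0, 0), (-70, 9), (-39, 9), (-14, -8), (-14, 3), (-14, 9), (-14, 9), (-14, 9)],
  [(0, 0), (-70, 5), (-39, 5), (-25, -12), (-11, -15), (-11, -8), (-11, 5), (-11, 5)],
  [(0, 0), (-74, -3), (-43, -3), (-35, -18), (-18, -21), (-13, -19), (-13, -19), (-13, -3)],
  [(0, 0), (-74, -22), (-43, -22), (-35, -27), (-31, -30), (-13, -28), (-13, -28), (-13, -22)],
  [(0, 0), (-80, -35), (-49, -35), (-41, -37), (-37, -40), (-29, -38), (-19, -38), (-16, -35)]]

def H (d e : ℕ) (b : Bool) : ℤ :=
  if b then ((T.getD d []).getD e (0, 0)).2 else ((T.getD d []).getD e (0, 0)).1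

def M (b : Bool) (d x : ℕ) : ℤ := if b then H x d false else max (H x d false) (H x d true)

def w (b : Bool) : ℤ := if b then 48 else -79

theorem chk : ∀ d ∈ Icc 1 7, ∀ e ∈ Icc 1 7, ∀ S ∈ (Icc 1 6).powerset, ∀ b, e ∉ S →
    S.card + 1 ≤ d → w b + ∑ x ∈ S, M b d x + ((d : ℤ) - 1 - S.card) * M b d 7 ≤ H d e b := by
  decide +kernel

theorem chk2 : ∀ b, M b 7 7 ≤ 0 ∧ ∀ x ∈ Icc 1 7, w b + M b 1 x ≤ -22 := by decide +kernel

theorem upper {V : Type} [Fintype V] [Nontrivial V] {G : SimpleGraph V} (h : G.IsTree)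
    (hi : HIrr G) : 127 * G.indepNum + 22 ≤ 79 * Fintype.card V := by
  classical
  obtain ⟨I, hI, hc⟩ := G.exists_isNIndepSet_indepNum
  obtain ⟨r, hr⟩ := h.exists_vert_degree_one_of_nontrivial
  obtain ⟨p, p1, p2⟩ := parent h r
  have dd : ∀ v, deg G v = (G.neighborFinset v).card := fun v => by
    rw [deg, Set.ncard_eq_toFinset_card']; rfl
  let c : V → ℕ := fun v => min (deg G v) 7
  let b : V → Bool := fun v => decide (v ∈ I)
  let C : V → Finset V := fun v => (univ.erase r).filter fun x => p x = v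
  have mC : ∀ v x, x ∈ C v ↔ x ≠ r ∧ p x = v := fun v x => by simp [C]
  have aC : ∀ v, ∀ x ∈ C v, G.Adj v x := fun v x hx => by
    obtain ⟨q, rfl⟩ := (mC _ _).1 hx; exact (p1 x q).1.symm
  have pos : ∀ v x, G.Adj v x → c x ∈ Icc 1 7 := fun v x a => by
    have : 0 < deg G x := by rw [dd]; exact card_pos.2 ⟨v, by simpa using a.symm⟩
    simp only [c, mem_Icc]; omega
  have le : ∀ v, ∀ x ∈ C v, H (c x) (c (p x)) (b x) ≤ M (b v) (c v) (c x) := fun v x hx => by
    rw [((mC _ _).1 hx).2]
    unfold M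
    split_ifs with q
    · have : b x = false := decide_eq_false fun z =>
        hI (of_decide_eq_true q) z (aC v x hx).ne (aC v x hx)
      rw [this]
    · cases b x <;> simp
  have loc : ∀ v ∈ univ.erase r, w (b v) + ∑ x ∈ C v, H (c x) (c (p x)) (b x) ≤
      H (c v) (c (p v)) (b v) := fun v hv => by
    have hv := (mem_erase.1 hv).1
    have n1 : p v ∉ C v := fun z => by
      obtain ⟨q, e⟩ := (mC _ _).1 z
      have a := (p1 _ q).2
      have a' := (p1 _ hv).2
      rw [e] at a; omega
    have n2 : deg G v = (C v).card + 1 := by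
      rw [dd, ← card_insert_of_notMem n1]
      congr 1; ext x
      rw [mem_neighborFinset, mem_insert]
      refine ⟨fun a => ?_, ?_⟩
      · rcases p2 v x a with z | z
        exacts [Or.inr ((mC _ _).2 z), Or.inl z.2.symm]
      · rintro (rfl | a); exacts [(p1 v hv).1, aC v x a]
    let A := (C v).filter fun x => deg G x < 7
    have inj : Set.InjOn (deg G) A := fun x hx y hy e => by
      by_contra z
      exact hi v x y (aC v x (mem_filter.1 hx).1) (aC v y (mem_filter.1 hy).1) z e
    have sub : A.image (deg G) ∈ (Icc 1 6).powerset := mem_powerset.2 fun x hx => by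
      obtain ⟨y, hy, rfl⟩ := mem_image.1 hx
      have := pos v y (aC v y (mem_filter.1 hy).1)
      have := (mem_filter.1 hy).2
      simp only [c, mem_Icc] at *; omega
    have c6 := card_le_card (mem_powerset.1 sub)
    have cA := card_image_of_injOn inj
    have cf := card_filter_add_card_filter_not (s := C v) fun x => deg G x < 7
    have k := chk (c v) (pos _ _ (p1 v hv).1.symm) (c (p v)) (pos _ _ (p1 v hv).1) _ sub (b v)
      (fun z => by
        obtain ⟨y, hy, e⟩ := mem_image.1 z
        have := (mem_filter.1 hy).2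
        exact hi v y (p v) (aC v y (mem_filter.1 hy).1) (p1 v hv).1
          (by rintro rfl; exact n1 (mem_filter.1 hy).1) (by simp only [c] at e; omega))
      (by simp only [c, Nat.card_Icc, A] at *; omega)
    refine le_trans ?_ k
    rw [add_assoc]
    refine add_le_add_right ((sum_le_sum (le v)).trans ?_) _
    rw [← sum_filter_add_sum_filter_not _ fun x => deg G x < 7, sum_image inj]
    refine add_le_add (le_of_eq (sum_congr rfl fun x hx => ?_)) ?_
    · have := (mem_filter.1 hx).2
      simp only [c]; rw [min_eq_left this.le]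
    · rw [sum_congr rfl (g := fun _ => M (b v) (c v) 7) fun x hx => by
        have := (mem_filter.1 hx).2
        simp only [c]; rw [min_eq_right (not_lt.1 this)], sum_const, nsmul_eq_mul, cA]
      by_cases z : deg G v ≤ 7
      · refine le_of_eq (congrArg (· * _) ?_)
        simp only [c, A] at *; omega
      · have e : c v = 7 := by simp only [c]; omega
        rw [e]
        refine mul_le_mul_of_nonpos_right ?_ (chk2 _).1
        simp only [A] at *; omega
  have root : w (b r) + ∑ x ∈ C r, H (c x) (c (p x)) (b x) ≤ -22 := by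
    have e : C r = G.neighborFinset r := by
      ext x
      rw [mem_neighborFinset]
      exact ⟨aC r x, fun a => (mC _ _).2 ((p2 r x a).resolve_right fun z => z.1 rfl)⟩
    obtain ⟨x, hx⟩ := card_eq_one.1 (e ▸ hr : (C r).card = 1)
    have m : x ∈ C r := by simp [hx]
    have a := le r x m
    have a' := (chk2 (b r)).2 _ (pos r x (aC r x m))
    have : c r = 1 := by simp only [c]; rw [dd, card_neighborFinset_eq_degree, hr]; rfl
    rw [this] at a
    rw [hx, sum_singleton]; omega
  have s1 := sum_le_sum loc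
  have s2 := sum_fiberwise_of_maps_to (s := univ.erase r) (t := univ) (g := p)
    (fun _ _ => mem_univ _) fun x => H (c x) (c (p x)) (b x)
  rw [← add_sum_erase _ _ (mem_univ r)] at s2
  have s3 : w (b r) + ∑ v ∈ univ.erase r, w (b v) = 127 * I.card - 79 * Fintype.card V := by
    rw [add_sum_erase _ (fun v => w (b v)) (mem_univ r), sum_congr rfl
      (g := fun v => (if v ∈ I then 127 else 0) - 79) fun v _ => by
        simp only [w, b]; split_ifs <;> simp_all]
    simp [sum_sub_distrib, mul_comm]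
  rw [sum_add_distrib] at s1
  simp only [C] at s1 root
  omega

def R (d : ℕ) (S : List ℕ) (b : Bool) (n a : ℕ) : Prop :=
  ∃ (V : Type) (_ : Fintype V) (G : SimpleGraph V) (r : V) (D : V → ℕ) (I : Set V),
    Fintype.card V = n ∧ G.Connected ∧ ∑ v, deg G v + 2 = 2 * n ∧ D r = d ∧ deg G r = S.length ∧
    (∀ v, v ≠ r → deg G v = D v) ∧ (∀ v x y, G.Adj v x → G.Adj v y → x ≠ y → D x ≠ D y) ∧
    (∀ x, G.Adj r x → D x ∈ S) ∧ G.IsIndepSet I ∧ I.ncard = a ∧ (r ∈ I → b = true)

theorem one (d : ℕ) (b : Bool) : R d [] b 1 b.toNat :=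
  ⟨Unit, inferInstance, ⊥, (), fun _ => d, {_x | b = true}, rfl, ⟨fun _ _ => .refl _⟩,
    by simp [deg], rfl, by simp [deg], by simp, by simp, by simp, fun _ _ _ _ _ => id,
    by cases b <;> simp, id⟩

theorem glue {d x n a m k : ℕ} {S U : List ℕ} {b c : Bool} (h : R d S b n a) (g : R x U c m k)
    (q : U.length + 1 = x ∧ d ∉ U ∧ x ∉ S ∧ (b && c) = false) :
    R d (x :: S) b (n + m) (a + k) := by
  classical
  obtain ⟨V, _, G, r, D, I, h1, h2, h3, h4, h5, h6, h7, h8, h9, h10, h11⟩ := h
  obtain ⟨W, _, K, s, E, J, g1, g2, g3, g4, g5, g6, g7, g8, g9, g10, g11⟩ := g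
  have aL : ∀ v y, ((G ⊕g K) ⊔ edge (.inl r) (.inr s)).Adj (.inl v) y ↔
      (∃ u, G.Adj v u ∧ .inl u = y) ∨ (v = r ∧ y = .inr s) := by
    rintro v (y | y) <;> simp [edge_adj]
  have aR : ∀ v y, ((G ⊕g K) ⊔ edge (.inl r) (.inr s)).Adj (.inr v) y ↔
      (∃ u, K.Adj v u ∧ .inr u = y) ∨ (v = s ∧ y = .inl r) := by
    rintro v (y | y) <;> simp [edge_adj]
  have cn := h2.sum_sup_edge g2 (v := r) (w := s)
  generalize (G ⊕g K) ⊔ edge (.inl r) (.inr s) = F at *
  have dL : ∀ v, deg F (.inl v) = deg G v + if v = r then 1 else 0 := fun v => by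
    unfold deg
    rw [← Set.ncard_image_of_injective (G.neighborSet v) (Sum.inl_injective (β := W))]
    split_ifs with z
    · rw [← Set.ncard_insert_of_notMem (a := .inr s) (by simp)]
      congr 1; ext y; simp [aL, z, or_comm]
    · congr 1; ext y; simp [aL, z]
  have dR : ∀ v, deg F (.inr v) = deg K v + if v = s then 1 else 0 := fun v => by
    unfold deg
    rw [← Set.ncard_image_of_injective (K.neighborSet v) (Sum.inr_injective (α := V))]
    split_ifs with z
    · rw [← Set.ncard_insert_of_notMem (a := .inl r) (by simp)]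
      congr 1; ext y; simp [aR, z, or_comm]
    · congr 1; ext y; simp [aR, z]
  refine ⟨V ⊕ W, inferInstance, F, .inl r, Sum.elim D E, Sum.inl '' I ∪ Sum.inr '' J,
    by simp [h1, g1], cn, ?_, h4, by simp [dL, h5], ?_, ?_, ?_, ?_, ?_, by simpa using h11⟩
  · simp only [Fintype.sum_sum_type, dL, dR, sum_add_distrib, sum_ite_eq', mem_univ, if_true]
    omega
  · rintro (v | v) z
    · have : v ≠ r := fun e => z (by rw [e])
      simp [dL, this, h6 v this]
    · by_cases e : v = s
      · simp [dR, e, g4, g5, q.1]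
      · simp [dR, e, g6 v e]
  · rintro (v | v) y z p1 p2 ne
    · rw [aL] at p1 p2
      rcases p1 with ⟨y, p1, rfl⟩ | ⟨rfl, rfl⟩ <;> rcases p2 with ⟨z, p2, rfl⟩ | ⟨e, rfl⟩
      · exact h7 v y z p1 p2 fun e => ne (by rw [e])
      · subst e; exact fun e => q.2.2.1 (g4 ▸ (show D y = E s from e) ▸ h8 y p1)
      · exact fun e => q.2.2.1 (g4 ▸ (show D z = E s from e.symm) ▸ h8 z p2)
      · exact absurd rfl ne
    · rw [aR] at p1 p2
      rcases p1 with ⟨y, p1, rfl⟩ | ⟨rfl, rfl⟩ <;> rcases p2 with ⟨z, p2, rfl⟩ | ⟨e, rfl⟩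
      · exact g7 v y z p1 p2 fun e => ne (by rw [e])
      · subst e; exact fun e => q.2.1 (h4 ▸ (show E y = D r from e) ▸ g8 y p1)
      · exact fun e => q.2.1 (h4 ▸ (show E z = D r from e.symm) ▸ g8 z p2)
      · exact absurd rfl ne
  · intro y p
    rcases (aL _ _).1 p with ⟨y, p1, rfl⟩ | ⟨-, rfl⟩
    · exact List.mem_cons_of_mem _ (h8 y p1)
    · simp [g4]
  · have z : r ∈ I → s ∈ J → False := fun p p' => by simpa [h11 p, g11 p'] using q.2.2.2
    rintro _ (⟨u, hu, rfl⟩ | ⟨u, hu, rfl⟩) _ (⟨v, hv, rfl⟩ | ⟨v, hv, rfl⟩) ne p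
    · rw [aL] at p
      exact h9 hu hv (fun e => ne (by rw [e])) (by simpa using p)
    · obtain ⟨rfl, rfl⟩ : u = r ∧ v = s := by simpa [aL] using p
      exact z hu hv
    · obtain ⟨rfl, rfl⟩ : u = s ∧ v = r := by simpa [aR] using p
      exact z hv hu
    · rw [aR] at p
      exact g9 hu hv (fun e => ne (by rw [e])) (by simpa using p)
  · rw [Set.ncard_union_eq (by simp [Set.disjoint_left]), Set.ncard_image_of_injective _
      Sum.inl_injective, Set.ncard_image_of_injective _ Sum.inr_injective, h10, g10]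

theorem close {d n a : ℕ} {S : List ℕ} {b : Bool} (h : R d S b n a) (q : S.length = d) :
    ∃ (V : Type) (_ : Fintype V) (G : SimpleGraph V), Fintype.card V = n ∧ G.IsTree ∧ HIrr G ∧
      a ≤ G.indepNum := by
  classical
  obtain ⟨V, _, G, r, D, I, h1, h2, h3, h4, h5, h6, h7, h8, h9, h10, h11⟩ := h
  have e : ∀ v, deg G v = D v := fun v => by
    by_cases z : v = r
    · rw [z, h5, q, h4]
    · exact h6 v z
  refine ⟨V, inferInstance, G, h1, isTree_iff_connected_and_card.2 ⟨h2, ?_⟩,
    fun v x y p1 p2 ne => by rw [e, e]; exact h7 v x y p1 p2 ne, ?_⟩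
  · have := G.sum_degrees_eq_twice_card_edges
    have z : ∑ v, G.degree v = ∑ v, deg G v :=
      sum_congr rfl fun v _ => by rw [deg, Set.ncard_eq_toFinset_card']; rfl
    rw [Nat.card_eq_fintype_card, Nat.card_eq_fintype_card, ← edgeFinset_card]
    omega
  · rw [← h10, Set.ncard_eq_toFinset_card']
    exact IsIndepSet.card_le_indepNum (by simpa using h9)

theorem tL : R 1 [] true 1 1 := one 1 true
theorem tA : R 2 [1] false 2 1 := glue (one 2 false) tL (by decide)
theorem tB : R 2 [2] true 3 2 := glue (one 2 true) tA (by decide)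
theorem tLB (d : ℕ) (h : d ≠ 2) : R d [2, 1] false 5 3 :=
  glue (glue (one d false) tL (by simp)) tB (by simp [h])
theorem tC : R 3 [2, 1] false 5 3 := tLB 3 (by decide)
theorem tF : R 4 [3, 2, 1] false 13 8 := glue (tLB 4 (by decide))
  (glue (glue (one 3 true) tA (by decide)) tC (by decide)) (by decide)
theorem tG : R 4 [4, 2, 1] false 18 11 := glue (tLB 4 (by decide)) tF (by decide)
theorem tH (d : ℕ) (h : 5 ≤ d) : R d [3, 2, 1] false 29 18 := glue (tLB d (by omega))
  (glue (glue (one 3 true) tC (by decide)) tG (by decide)) (by simp; omega)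
theorem tI : R 4 [4, 3] true 19 12 := glue (glue (one 4 true) tC (by decide)) tF (by decide)
theorem tX : R 4 [2, 4, 3] true 21 13 := glue tI tA (by decide)
theorem tP : R 5 [4, 3, 2, 1] false 50 31 := glue (tH 5 le_rfl) tX (by decide)
theorem tQ : R 6 [5, 4, 3, 2, 1] false 177 110 := glue (glue (tH 6 (by decide))
  (glue tI (glue (tH 5 le_rfl) tP (by decide)) (by decide)) (by decide)) tP (by decide)

theorem fam (m : ℕ) : ∃ x, x ≠ 5 ∧ R 4 [x, 4, 3] true (21 + 254 * m) (13 + 158 * m) := by
  induction m with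
  | zero => exact ⟨2, by decide, tX⟩
  | succ m ih =>
    obtain ⟨x, hx, h⟩ := ih
    refine ⟨6, by decide, ?_⟩
    have := glue tI (glue (glue (tH 6 (by decide)) tQ (by decide))
      (glue (tH 5 le_rfl) h (by simp [hx.symm])) (by decide)) (by decide)
    convert this using 1 <;> ring

theorem fam2 (m : ℕ) : ∃ (V : Type) (_ : Fintype V) (G : SimpleGraph V),
    Fintype.card V = 100 + 254 * m ∧ G.IsTree ∧ HIrr G ∧ 62 + 158 * m ≤ G.indepNum := by
  obtain ⟨x, hx, h⟩ := fam m
  have := glue (glue (tH 5 le_rfl) tP (by decide)) h (by simp [hx.symm])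
  refine close (d := 5) (S := [4, 5, 3, 2, 1]) (b := false) ?_ rfl
  convert this using 1 <;> ring

theorem small : ∃ (V : Type) (_ : Fintype V) (G : SimpleGraph V),
    Fintype.card V = 26 ∧ G.IsTree ∧ HIrr G ∧ 16 ≤ G.indepNum :=
  close (glue tC (glue (glue (one 3 true) tA (by decide)) tG (by decide)) (by decide)) rfl

end Pool.Agent.H9.HI
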