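import Mathlib

set_option autoImplicit false

namespace Pool.Agent.H9.Ham

open SimpleGraph

/-- data extracted from a spanning cycle -/
structure HC {V : Type} (G H : SimpleGraph V) : Prop where
  le : H ≤ G
  two : ∀ x, ∃ y z, y ≠ z ∧ H.Adj x y ∧ H.Adj x z ∧ ∀ u, H.Adj x u → u = y ∨ u = z
  conn : H.Preconnected

theorem hc_of_iso {V : Type} {G H : SimpleGraph V} {n : ℕ} (hn : 3 ≤ n) (hle : H ≤ G)
    (e : H ≃g cycleGraph n) : HC G H := by
  obtain ⟨k, rfl⟩ : ∃ k, n = k + 3 := ⟨n - 3, by omega⟩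
  refine ⟨hle, fun x => ?_, e.preconnected_iff.2 cycleGraph_preconnected⟩
  have hN : (cycleGraph (k + 3)).neighborSet (e x) = {e x - 1, e x + 1} := cycleGraph_neighborSet
  have hd : (cycleGraph (k + 3)).degree (e x) = 2 := cycleGraph_degree_three_le
  have hne : e x - 1 ≠ e x + 1 := by
    intro h
    have h2 : (cycleGraph (k + 3)).degree (e x) = Finset.card {e x - 1, e x + 1} :=
      cycleGraph_degree_two_le
    rw [h2, h] at hd
    simp at hd
  have key : ∀ u, H.Adj x u ↔ e u = e x - 1 ∨ e u = e x + 1 := by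
    intro u
    rw [← e.map_adj_iff, ← mem_neighborSet, hN]
    simp
  refine ⟨e.symm (e x - 1), e.symm (e x + 1), fun h => hne (e.symm.injective h), ?_, ?_, ?_⟩
  · rw [key]; simp
  · rw [key]; simp
  · intro u hu
    rcases (key u).1 hu with h | h
    · left; rw [← h]; simp
    · right; rw [← h]; simp

theorem HC.third {V : Type} {G H : SimpleGraph V} (h : HC G H) {x y z u : V} (hyz : y ≠ z)
    (hy : H.Adj x y) (hz : H.Adj x z) (hu : H.Adj x u) : u = y ∨ u = z := by
  obtain ⟨a, b, -, -, -, h4⟩ := h.two x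
  have h1 := h4 y hy
  have h2 := h4 z hz
  have h3 := h4 u hu
  rcases h1 with rfl | rfl <;> rcases h2 with rfl | rfl <;> tauto

theorem HC.closed {V : Type} {G H : SimpleGraph V} (h : HC G H) (X : Set V) {x0 : V} (h0 : x0 ∈ X)
    (hX : ∀ x ∈ X, ∃ y z, y ≠ z ∧ y ∈ X ∧ z ∈ X ∧ H.Adj x y ∧ H.Adj x z) (v : V) : v ∈ X := by
  obtain ⟨p⟩ := h.conn x0 v
  induction p with
  | nil => exact h0
  | cons ha _ ih =>
    obtain ⟨y, z, hyz, hy, hz, h1, h2⟩ := hX _ h0
    rcases h.third hyz h1 h2 ha with rfl | rfl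
    · exact ih hy
    · exact ih hz

/-- a vertex all of whose neighbours lie in a two element set uses both -/
theorem HC.deg2 {V : Type} {G H : SimpleGraph V} (h : HC G H) {x y z : V}
    (hx : ∀ u, G.Adj x u → u = y ∨ u = z) : H.Adj x y ∧ H.Adj x z := by
  obtain ⟨a, b, hab, ha, hb, -⟩ := h.two x
  rcases hx a (h.le ha) with rfl | rfl <;> rcases hx b (h.le hb) with rfl | rfl <;> tauto

/-- a vertex with three possible neighbours that avoids one uses the other two -/
theorem HC.deg3 {V : Type} {G H : SimpleGraph V} (h : HC G H) {x y z w : V}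
    (hx : ∀ u, G.Adj x u → u = y ∨ u = z ∨ u = w) (hw : ¬ H.Adj x w) : H.Adj x y ∧ H.Adj x z := by
  obtain ⟨a, b, hab, ha, hb, -⟩ := h.two x
  rcases hx a (h.le ha) with rfl | rfl | rfl <;> rcases hx b (h.le hb) with rfl | rfl | rfl <;> tauto

theorem exists_cycle {V : Type} [Fintype V] (G : SimpleGraph V) (f : V → V)
    (hf : ∀ x, G.Adj x (f x)) (s : V)
    (hs : ∀ X : Set V, s ∈ X → (∀ x ∈ X, f x ∈ X) → ∀ v, v ∈ X) (hs' : ∃ x, f x = s) :
    ∃ H, H ≤ G ∧ Nonempty (H ≃g cycleGraph (Fintype.card V)) := by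
  classical
  have h1 : ∀ v, ∃ k, f^[k] s = v := by
    refine hs {v | ∃ k, f^[k] s = v} ⟨0, rfl⟩ ?_
    rintro x ⟨k, rfl⟩
    exact ⟨k + 1, Function.iterate_succ_apply' f k s⟩
  have hsurj : Function.Surjective f := by
    intro v
    obtain ⟨k, rfl⟩ := h1 v
    cases k with
    | zero => exact hs'
    | succ k => exact ⟨_, (Function.iterate_succ_apply' f k s).symm⟩
  have hinj : Function.Injective f := Finite.injective_iff_surjective.2 hsurj
  have hper : s ∈ Function.periodicPts f := hinj.mem_periodicPts s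
  have hp : 0 < Function.minimalPeriod f s := Function.minimalPeriod_pos_of_mem_periodicPts hper
  set p := Function.minimalPeriod f s with hpdef
  let g : Fin p → V := fun i => f^[i] s
  have hg : Function.Bijective g := by
    constructor
    · intro i j hij
      exact Fin.ext (Function.iterate_injOn_Iio_minimalPeriod i.2 j.2 hij)
    · intro v
      obtain ⟨k, rfl⟩ := h1 v
      exact ⟨⟨k % p, Nat.mod_lt _ hp⟩, Function.iterate_mod_minimalPeriod_eq⟩
  have hcard : Fintype.card V = p := by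
    rw [← Fintype.card_of_bijective hg]; simp
  rw [hcard]
  let e : Fin p ≃ V := Equiv.ofBijective g hg
  refine ⟨(cycleGraph p).map e.toEmbedding, ?_, ⟨(Iso.map e (cycleGraph p)).symm⟩⟩
  have step : ∀ u v : Fin p, (u - v).val = 1 → G.Adj (g v) (g u) := by
    intro u v huv
    have : g u = f (g v) := by
      simp only [g]
      rw [← Function.iterate_succ_apply' f, ← Function.iterate_mod_minimalPeriod_eq (n := v.1.succ)]
      congr 1
      have h3 : u = v + (u - v) := by
        have : NeZero p := ⟨hp.ne'⟩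
        abel
      rw [h3, Fin.val_add, huv]
    rw [this]
    exact hf _
  rintro x y ⟨hne, u, v, huv, rfl, rfl⟩
  rcases cycleGraph_adj'.1 huv with h | h
  · exact (step u v h).symm
  · exact step v u h

/-- number of t-sets inducing a copy of F -/
noncomputable def cnt {V : Type} (G : SimpleGraph V) (t : ℕ) (F : SimpleGraph (Fin t)) : ℕ :=
  {S : Finset V | S.card = t ∧ Nonempty (G.induce (S : Set V) ≃g F)}.ncard

theorem cnt_le {V W : Type} [Finite W] (G : SimpleGraph V) (G' : SimpleGraph W) (t : ℕ)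
    (ψ : Finset V → V ↪ W)
    (hadj : ∀ S : Finset V, S.card = t → ∀ x ∈ S, ∀ y ∈ S, G'.Adj (ψ S x) (ψ S y) ↔ G.Adj x y)
    (hinj : ∀ S S' : Finset V, S.card = t → S'.card = t → S.map (ψ S) = S'.map (ψ S') →
      ψ S = ψ S') (F : SimpleGraph (Fin t)) : cnt G t F ≤ cnt G' t F := by
  unfold cnt
  refine Set.ncard_le_ncard_of_injOn (fun S => S.map (ψ S)) ?_ ?_ (Set.toFinite _)
  · rintro S ⟨hS, ⟨e⟩⟩
    refine ⟨by simpa using hS, ⟨?_⟩⟩
    let g : ↥((S : Finset V) : Set V) → ↥((S.map (ψ S) : Finset W) : Set W) := fun x =>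
      ⟨ψ S x, by simpa using x.2⟩
    have hg : Function.Bijective g := by
      constructor
      · intro x y hxy
        exact Subtype.ext ((ψ S).injective (congrArg Subtype.val hxy))
      · rintro ⟨y, hy⟩
        obtain ⟨x, hx, rfl⟩ := Finset.mem_map.1 (Finset.mem_coe.1 hy)
        exact ⟨⟨x, hx⟩, rfl⟩
    let i : G.induce (S : Set V) ≃g G'.induce ((S.map (ψ S) : Finset W) : Set W) :=
      ⟨Equiv.ofBijective g hg, fun {a b} => hadj S hS a a.2 b b.2⟩
    exact i.symm.trans e
  · rintro S ⟨hS, -⟩ S' ⟨hS', -⟩ h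
    have h2 := hinj S S' hS hS' h
    simp only at h
    rw [← h2] at h
    exact Finset.map_injective _ h

theorem cnt_comap {V W : Type} [Finite V] [Finite W] (G : SimpleGraph V) (e : W ≃ V) (t : ℕ)
    (F : SimpleGraph (Fin t)) : cnt (G.comap e) t F = cnt G t F := by
  apply le_antisymm
  · exact cnt_le _ _ t (fun _ => e.toEmbedding) (fun _ _ _ _ _ _ => Iff.rfl) (fun _ _ _ _ _ => rfl) F
  · exact cnt_le _ _ t (fun _ => e.symm.toEmbedding) (fun _ _ _ _ _ _ => by simp)
      (fun _ _ _ _ _ => rfl) F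

end Pool.Agent.H9.Ham
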