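import Mathlib
import Pool.Agent.H9.Ham1

set_option autoImplicit false

namespace Pool.Agent.H9.Ham

open SimpleGraph Equiv

abbrev A (n : ℕ) : Type := alternatingGroup (Fin (n + 1))

inductive V (n m : ℕ) : Type
  | P (σ : A n) (i : Fin (n + 1)) (c : Fin 3)
  | M (σ : A n) (i : Fin (n + 1)) (c : Fin 3)
  | Q (σ : A n) (i : Fin (n + 1)) (c : Fin 3)
  | T (i : Fin (n + 1)) (q : Fin (m + 1))
  | Z (c : Fin 3)

open V

variable {n m : ℕ}

def R (π : Perm (Fin (n + 1))) : V n m → V n m → Prop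
  | P σ i c, M σ' i' c' => σ = σ' ∧ i = i' ∧ c = c'
  | M σ i c, Q σ' i' c' => σ = σ' ∧ i = i' ∧ c = c'
  | P σ i c, P σ' i' c' => σ = σ' ∧ i = i' ∧ c'.val = c.val + 1
  | Q σ i c, Q σ' i' c' => σ = σ' ∧ i = i' ∧ c'.val = c.val + 1
  | P σ i c, Q σ' i' c' => σ = σ' ∧ i'.val = i.val + 1 ∧ c = 2 ∧ c' = 0
  | T i q, P _ i' c => q = 0 ∧ i ≠ 0 ∧ i = i' ∧ c = 0
  | Z z, P _ i c => z = 0 ∧ i = 0 ∧ c = 0
  | Q σ i c, T j q => c = 2 ∧ q = Fin.last m ∧ σ.1 i = π j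
  | T i q, T i' q' => i = i' ∧ q'.val = q.val + 1
  | Z z, Z z' => z'.val = z.val + 1
  | _, _ => False

def hub : V n m → Prop
  | P _ i c => i = Fin.last n ∧ c = 2
  | M _ _ _ => False
  | Q _ i c => i = 0 ∧ c = 0
  | T i q => i = 0 ∧ q = 0
  | Z c => c = 2

def G (π : Perm (Fin (n + 1))) : SimpleGraph (V n m) :=
  SimpleGraph.fromRel (fun x y => R π x y ∨ (hub x ∧ hub y))

theorem G_adj (π : Perm (Fin (n + 1))) (x y : V n m) :
    (G π).Adj x y ↔ x ≠ y ∧ (R π x y ∨ R π y x ∨ (hub x ∧ hub y)) := by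
  unfold G
  rw [fromRel_adj]
  tauto

def av (i : Fin (n + 1)) : V n m := if i = 0 then Z 0 else T i 0

section nbr
variable {π : Perm (Fin (n + 1))} {σ : A n} {i j : Fin (n + 1)} {u : V n m}

theorem nM {c : Fin 3} (h : (G π).Adj (M σ i c) u) : u = P σ i c ∨ u = Q σ i c := by
  rw [G_adj] at h
  cases u <;> simp_all [R, hub]

theorem nP1 (h : (G π).Adj (P σ i 1) u) : u = M σ i 1 ∨ u = P σ i 2 ∨ u = P σ i 0 := by
  rw [G_adj] at h
  cases u <;> simp [R, hub] at h ⊢ <;> grind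

theorem nQ1 (h : (G π).Adj (Q σ i 1) u) : u = M σ i 1 ∨ u = Q σ i 0 ∨ u = Q σ i 2 := by
  rw [G_adj] at h
  cases u <;> simp [R, hub] at h ⊢ <;> grind

theorem nQ2 (h : (G π).Adj (Q σ i 2) u) :
    u = M σ i 2 ∨ u = T (π⁻¹ (σ.1 i)) (Fin.last m) ∨ u = Q σ i 1 := by
  rw [G_adj] at h
  cases u <;> simp [R, hub] at h ⊢
  · grind
  · grind
  · simp [h]

theorem nQ0 (hj : j.val = i.val + 1) (h : (G π).Adj (Q σ j 0) u) :
    u = M σ j 0 ∨ u = Q σ j 1 ∨ u = P σ i 2 := by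
  rw [G_adj] at h
  have hj0 : j ≠ 0 := by
    rintro rfl
    simp at hj
  cases u <;> simp [R, hub, hj0] at h ⊢ <;> grind

theorem nP0 (h : (G π).Adj (P σ i 0) u) : u = M σ i 0 ∨ u = av i ∨ u = P σ i 1 := by
  rw [G_adj] at h
  unfold av
  cases u <;> simp [R, hub] at h ⊢ <;> grind

theorem nT {q0 q q2 : Fin (m + 1)} (h0 : q.val = q0.val + 1) (h2 : q2.val = q.val + 1)
    (h : (G π).Adj (T i q) u) : u = T i q0 ∨ u = T i q2 := by
  rw [G_adj] at h
  have hq0 : q ≠ 0 := by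
    rintro rfl
    simp at h0
  have hq1 : q ≠ Fin.last m := by
    rintro rfl
    have := q2.2
    simp at h2
    omega
  cases u <;> simp [R, hub, hq0, hq1] at h ⊢ <;> grind

theorem nZ0 (h : (G π).Adj (Z 0) u) : u = Z 1 ∨ ∃ σ, u = P σ 0 0 := by
  rw [G_adj] at h
  cases u <;> simp [R, hub] at h ⊢ <;> grind

end nbr

section nonham
variable {π : Perm (Fin (n + 1))} {H : SimpleGraph (V n m)} {σ : A n} {i j : Fin (n + 1)}

theorem rung (h : HC (G π) H) (σ : A n) (i : Fin (n + 1)) (c : Fin 3) :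
    H.Adj (M σ i c) (P σ i c) ∧ H.Adj (M σ i c) (Q σ i c) :=
  h.deg2 (fun _ hu => nM hu)

theorem six (h : HC (G π) H) {c d : Fin 3} (h1 : H.Adj (P σ i c) (P σ i d))
    (h2 : H.Adj (Q σ i c) (Q σ i d)) : False := by
  have a := rung h σ i c
  have b := rung h σ i d
  have := h.closed {P σ i c, M σ i c, Q σ i c, P σ i d, M σ i d, Q σ i d} (x0 := P σ i c) (by simp)
    (by
      intro x hx
      simp only [Set.mem_insert_iff, Set.mem_singleton_iff] at hx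
      rcases hx with rfl | rfl | rfl | rfl | rfl | rfl
      · exact ⟨M σ i c, P σ i d, by simp, by simp, by simp, a.1.symm, h1⟩
      · exact ⟨P σ i c, Q σ i c, by simp, by simp, by simp, a.1, a.2⟩
      · exact ⟨M σ i c, Q σ i d, by simp, by simp, by simp, a.2.symm, h2⟩
      · exact ⟨M σ i d, P σ i c, by simp, by simp, by simp, b.1.symm, h1.symm⟩
      · exact ⟨P σ i d, Q σ i d, by simp, by simp, by simp, b.1, b.2⟩
      · exact ⟨M σ i d, Q σ i c, by simp, by simp, by simp, b.2.symm, h2.symm⟩) (Z 0)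
  simp at this

theorem av_ne (σ : A n) (i j : Fin (n + 1)) (c : Fin 3) :
    (av i : V n m) ≠ M σ j c ∧ (av i : V n m) ≠ P σ j c := by
  unfold av
  split_ifs <;> simp

theorem lane (h : HC (G π) H) (h0 : H.Adj (P σ i 0) (av i)) :
    H.Adj (P σ i 1) (P σ i 2) ∧ H.Adj (Q σ i 1) (Q σ i 0) ∧
      H.Adj (Q σ i 2) (T (π⁻¹ (σ.1 i)) (Fin.last m)) := by
  have a : ¬ H.Adj (P σ i 1) (P σ i 0) := by
    intro a
    rcases h.third (av_ne σ i i 0).1 h0 (rung h σ i 0).1.symm a.symm with b | b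
    · exact (av_ne σ i i 1).2 b.symm
    · simp at b
  have b : H.Adj (P σ i 1) (P σ i 2) := (h.deg3 (fun _ hu => nP1 hu) a).2
  have c : ¬ H.Adj (Q σ i 1) (Q σ i 2) := fun c => six h b c
  exact ⟨b, (h.deg3 (fun _ hu => nQ1 hu) c).2, (h.deg3 (fun _ hu => nQ2 hu) (fun d => c d.symm)).2⟩

theorem lane_succ (h : HC (G π) H) (hj : j.val = i.val + 1) (h0 : H.Adj (P σ i 0) (av i)) :
    H.Adj (P σ j 0) (av j) := by
  have a := (lane h h0).1
  have b : ¬ H.Adj (Q σ j 0) (P σ i 2) := by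
    intro b
    rcases h.third (by simp) a.symm (rung h σ i 2).1.symm b.symm with c | c <;> simp at c
  have c : H.Adj (Q σ j 0) (Q σ j 1) := (h.deg3 (fun _ hu => nQ0 hj hu) b).2
  exact (h.deg3 (fun _ hu => nP0 hu) (fun d => six h d c)).2

theorem router (h : HC (G π) H) : ∃ σ : A n, ∀ i, H.Adj (P σ i 0) (av i) := by
  have : ∃ σ : A n, H.Adj (Z 0) (P σ 0 0) := by
    obtain ⟨a, b, hab, ha, hb, -⟩ := h.two (Z 0)
    rcases nZ0 (h.le ha) with rfl | ⟨σ, rfl⟩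
    · rcases nZ0 (h.le hb) with rfl | ⟨σ, rfl⟩
      · exact absurd rfl hab
      · exact ⟨σ, hb⟩
    · exact ⟨σ, ha⟩
  obtain ⟨σ, hσ⟩ := this
  refine ⟨σ, fun i => ?_⟩
  induction i using Fin.induction with
  | zero => simpa [av] using hσ.symm
  | succ i ih => exact lane_succ h (by simp) ih

theorem thread (hm : 2 ≤ m) (h : HC (G π) H) (i : Fin (n + 1)) {q q' : Fin (m + 1)}
    (hq : q'.val = q.val + 1) : H.Adj (T i q) (T i q') := by
  by_cases h1 : q'.val < m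
  · exact (h.deg2 (fun _ hu => nT (q2 := ⟨q'.val + 1, by omega⟩) hq rfl hu)).1.symm
  · have := q'.2
    exact (h.deg2 (fun _ hu => nT (q0 := ⟨q.val - 1, by omega⟩) (by simp; omega) hq hu)).2

theorem full (hm : 2 ≤ m) (h : HC (G π) H) :
    ∃ σ : A n, ∀ k, Perm.SameCycle (σ.1⁻¹ * π) 0 k := by
  obtain ⟨σ, hσ⟩ := router h
  refine ⟨σ, fun k => ?_⟩
  by_contra hk
  set ρ := σ.1⁻¹ * π with hρ
  let O : Fin (n + 1) → Prop := fun k => ¬ Perm.SameCycle ρ 0 k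
  have hO0 : ∀ k, O k → k ≠ 0 := by
    rintro k hk rfl
    exact hk (Perm.SameCycle.refl _ _)
  have hO1 : ∀ k, O k → O (ρ k) := fun k hk h => hk (Perm.sameCycle_apply_right.1 h)
  have hO2 : ∀ k, O k → O (π⁻¹ (σ.1 k)) := by
    intro k hk h
    apply hk
    have := Perm.sameCycle_apply_right.2 h
    simpa [hρ] using this
  let X : V n m → Prop := fun x => match x with
    | P s i _ => s = σ ∧ O i
    | M s i _ => s = σ ∧ O i
    | Q s i _ => s = σ ∧ O i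
    | T i _ => O i
    | Z _ => False
  refine h.closed {x | X x} (x0 := T k 0) hk ?_ (Z 0)
  intro x hx
  cases x with
  | P s i c =>
    obtain ⟨rfl, hi⟩ := hx
    have a := rung h s i c
    obtain ⟨b, -, -⟩ := lane h (hσ i)
    have e := hσ i
    simp only [av, hO0 i hi, if_false] at e
    fin_cases c
    · exact ⟨M s i 0, T i 0, by simp, ⟨rfl, hi⟩, hi, a.1.symm, e⟩
    · exact ⟨M s i 1, P s i 2, by simp, ⟨rfl, hi⟩, ⟨rfl, hi⟩, a.1.symm, b⟩
    · exact ⟨M s i 2, P s i 1, by simp, ⟨rfl, hi⟩, ⟨rfl, hi⟩, a.1.symm, b.symm⟩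
  | M s i c =>
    obtain ⟨rfl, hi⟩ := hx
    have a := rung h s i c
    exact ⟨P s i c, Q s i c, by simp, ⟨rfl, hi⟩, ⟨rfl, hi⟩, a.1, a.2⟩
  | Q s i c =>
    obtain ⟨rfl, hi⟩ := hx
    have a := rung h s i c
    obtain ⟨-, b, e⟩ := lane h (hσ i)
    fin_cases c
    · exact ⟨M s i 0, Q s i 1, by simp, ⟨rfl, hi⟩, ⟨rfl, hi⟩, a.2.symm, b.symm⟩
    · exact ⟨M s i 1, Q s i 0, by simp, ⟨rfl, hi⟩, ⟨rfl, hi⟩, a.2.symm, b⟩
    · exact ⟨M s i 2, T _ _, by simp, ⟨rfl, hi⟩, hO2 i hi, a.2.symm, e⟩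
  | T i q =>
    have hi : O i := hx
    have hq := q.2
    by_cases h0 : q.val = 0
    · have e := hσ i
      simp only [av, hO0 i hi, if_false] at e
      have : q = 0 := Fin.ext h0
      subst this
      exact ⟨P σ i 0, T i ⟨1, by omega⟩, by simp, ⟨rfl, hi⟩, hi, e.symm, thread hm h i rfl⟩
    by_cases h1 : q.val = m
    · obtain ⟨-, -, e⟩ := lane h (hσ (ρ i))
      have : q = Fin.last m := Fin.ext h1
      subst this
      have e2 : π⁻¹ (σ.1 (ρ i)) = i := by simp [hρ]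
      rw [e2] at e
      exact ⟨Q σ (ρ i) 2, T i ⟨m - 1, by omega⟩, by simp, ⟨rfl, hO1 i hi⟩, hi, e.symm,
        (thread hm h i (by simp; omega)).symm⟩
    · exact ⟨T i ⟨q.val - 1, by omega⟩, T i ⟨q.val + 1, by omega⟩, by simp, hi, hi,
        (thread hm h i (by simp; omega)).symm, thread hm h i rfl⟩
  | Z c => exact hx.elim

theorem sign_of_hc (hn : 1 ≤ n) (hm : 2 ≤ m) (h : HC (G π) H) : Perm.sign π = (-1) ^ n := by
  obtain ⟨σ, hσ⟩ := full hm h
  set ρ := σ.1⁻¹ * π with hρ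
  have : Nontrivial (Fin (n + 1)) := Fin.nontrivial_iff_two_le.2 (by omega)
  have h1 : ∀ x, ρ x ≠ x := by
    intro x hx
    obtain ⟨y, hy⟩ := exists_ne x
    exact hy (((hσ x).symm.trans (hσ y)).eq_of_left hx).symm
  have h2 : ρ.IsCycle := ⟨0, h1 0, fun y _ => hσ y⟩
  have h3 : ρ.support = Finset.univ := by
    ext x
    simp [h1 x]
  have h4 := h2.sign
  rw [h3, hρ] at h4
  have h5 : Perm.sign σ.1 = 1 := Perm.mem_alternatingGroup.1 σ.2
  simpa [h5, pow_succ] using h4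

end nonham

end Pool.Agent.H9.Ham
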