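import Mathlib
import Pool.Agent.H9.Ham2

set_option autoImplicit false

namespace Pool.Agent.H9.Ham

open SimpleGraph Equiv V

variable {n m : ℕ}

def cover : (A n × Fin (n + 1) × Fin 3) ⊕ (A n × Fin (n + 1) × Fin 3) ⊕ (A n × Fin (n + 1) × Fin 3) ⊕
    (Fin (n + 1) × Fin (m + 1)) ⊕ Fin 3 → V n m
  | .inl x => P x.1 x.2.1 x.2.2
  | .inr (.inl x) => M x.1 x.2.1 x.2.2
  | .inr (.inr (.inl x)) => Q x.1 x.2.1 x.2.2
  | .inr (.inr (.inr (.inl x))) => T x.1 x.2
  | .inr (.inr (.inr (.inr x))) => Z x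

theorem cover_surj : Function.Surjective (cover (n := n) (m := m)) := by
  intro x
  cases x with
  | P s i c => exact ⟨.inl (s, i, c), rfl⟩
  | M s i c => exact ⟨.inr (.inl (s, i, c)), rfl⟩
  | Q s i c => exact ⟨.inr (.inr (.inl (s, i, c))), rfl⟩
  | T i q => exact ⟨.inr (.inr (.inr (.inl (i, q)))), rfl⟩
  | Z c => exact ⟨.inr (.inr (.inr (.inr c))), rfl⟩

theorem finV : Finite (V n m) := Finite.of_surjective _ cover_surj

theorem card_le : Nat.card (V n m) ≤ 9 * (Nat.card (A n) * (n + 1)) + 3 + (n + 1) * (m + 1) := by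
  have := Nat.card_le_card_of_surjective _ (cover_surj (n := n) (m := m))
  simp only [Nat.card_sum, Nat.card_prod, Nat.card_eq_fintype_card (α := Fin _),
    Fintype.card_fin] at this
  nlinarith

theorem le_card : m + 1 ≤ Nat.card (V n m) := by
  have := finV (n := n) (m := m)
  have := Nat.card_le_card_of_injective (fun q : Fin (m + 1) => (T 0 q : V n m))
    (fun a b h => by simpa using h)
  simpa using this

section deck

def sw (p : Fin (m + 1)) (i j : Fin (n + 1)) (q : Fin (m + 1)) : Perm (Fin (n + 1)) :=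
  if p < q then swap i j else 1

def psi (β : A n) (p : Fin (m + 1)) (i j : Fin (n + 1)) : V n m → V n m
  | P σ k c => P (β * σ) k c
  | M σ k c => M (β * σ) k c
  | Q σ k c => Q (β * σ) k c
  | T k q => T (sw p i j q k) q
  | Z c => Z c

theorem psi_inj (β : A n) (p : Fin (m + 1)) (i j : Fin (n + 1)) :
    Function.Injective (psi β p i j) := by
  intro x y h
  cases x <;> cases y <;> simp [psi] at h ⊢ <;> try exact h
  obtain ⟨h1, rfl⟩ := h
  exact ⟨(sw p i j _).injective h1, rfl⟩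

theorem psi_hub (β : A n) (p : Fin (m + 1)) (i j : Fin (n + 1)) (x : V n m) :
    hub (psi β p i j x) ↔ hub x := by
  cases x <;> simp [psi, hub]
  rintro rfl
  simp [sw]

theorem psi_R {π π' : Perm (Fin (n + 1))} {β : A n} {p : Fin (m + 1)} {i j : Fin (n + 1)}
    (hβ : ∀ k, β.1 (π k) = π' (swap i j k)) {x y : V n m} (hx : x ≠ T i p) (hx' : x ≠ T j p)
    (hy : y ≠ T i p) (hy' : y ≠ T j p) :
    R π' (psi β p i j x) (psi β p i j y) ↔ R π x y := by
  have fix : ∀ k q, (T k q : V n m) ≠ T i p → (T k q : V n m) ≠ T j p → p ≤ q →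
      sw p i j q k = swap i j k := by
    intro k q h1 h2 h3
    unfold sw
    split_ifs with h
    · rfl
    · have : q = p := le_antisymm (not_lt.1 h) h3
      subst this
      simp at h1 h2
      simp [swap_apply_of_ne_of_ne h1 h2]
  cases x <;> cases y <;> simp [psi, R]
  · rename_i s k c l q
    rintro rfl rfl
    rw [fix l _ hy hy' (Fin.le_last _), ← hβ]
    simp
  · rintro rfl
    simp [sw]
  · rename_i k q l r
    intro h
    by_cases h1 : p ≤ q
    · rw [fix k q hx hx' h1, fix l r hy hy' (by rw [Fin.le_def] at h1 ⊢; omega)]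
      simp
    · have h2 : ¬ p < q := fun h => h1 h.le
      have h3 : ¬ p < r := by
        rw [Fin.le_def] at h1
        rw [Fin.lt_def]
        omega
      simp [sw, h2, h3]

def Pk (S : Finset (V n m)) (κ : Fin (m + 1) ×ₗ Fin (n + 1) ×ₗ Fin (n + 1)) : Prop :=
  (ofLex (ofLex κ).2).1 ≠ (ofLex (ofLex κ).2).2 ∧ T (ofLex (ofLex κ).2).1 (ofLex κ).1 ∉ S ∧
    T (ofLex (ofLex κ).2).2 (ofLex κ).1 ∉ S

theorem exists_Pk (S : Finset (V n m)) (hS : S.card < n * (m + 1)) : ∃ κ, Pk S κ := by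
  classical
  by_contra hno
  push Not at hno
  have h1 : ∀ q : Fin (m + 1), n ≤ (Finset.univ.filter (fun i : Fin (n + 1) => T i q ∈ S)).card := by
    intro q
    have h2 : (Finset.univ.filter (fun i : Fin (n + 1) => ¬ T i q ∈ S)).card ≤ 1 := by
      rw [Finset.card_le_one]
      intro a ha b hb
      by_contra hab
      exact hno (toLex (q, toLex (a, b))) ⟨hab, by simpa using ha, by simpa using hb⟩
    have h3 := Finset.card_filter_add_card_filter_not (s := (Finset.univ : Finset (Fin (n + 1))))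
      (fun i : Fin (n + 1) => T i q ∈ S)
    simp only [Finset.card_univ, Fintype.card_fin] at h3
    omega
  have h2 : ((Finset.univ : Finset (Fin (m + 1))).sigma
      (fun q => Finset.univ.filter (fun i : Fin (n + 1) => T i q ∈ S))).card ≤ S.card := by
    refine Finset.card_le_card_of_injOn (fun x => T x.2 x.1) ?_ ?_
    · intro x hx
      simpa using hx
    · rintro ⟨a, b⟩ _ ⟨c, d⟩ _ h
      simp only [T.injEq] at h
      obtain ⟨rfl, rfl⟩ := h
      rfl
  rw [Finset.card_sigma] at h2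
  have h3 := Finset.sum_le_sum (s := (Finset.univ : Finset (Fin (m + 1)))) (fun q _ => h1 q)
  simp only [Finset.sum_const, Finset.card_univ, Fintype.card_fin, smul_eq_mul] at h3
  nlinarith

theorem deck_le {π π' : Perm (Fin (n + 1))} (hs : Perm.sign π' = - Perm.sign π) {t : ℕ}
    (ht : t < n * (m + 1)) (F : SimpleGraph (Fin t)) :
    cnt (G π : SimpleGraph (V n m)) t F ≤ cnt (G π' : SimpleGraph (V n m)) t F := by
  classical
  have := finV (n := n) (m := m)
  have h1 : ∀ S : Finset (V n m), ∃ κ, S.card = t → Pk S κ ∧ ∀ κ', Pk S κ' → κ ≤ κ' := by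
    intro S
    by_cases hS : S.card = t
    · obtain ⟨κ, h1, h2⟩ := Set.exists_min_image {κ | Pk S κ} id (Set.toFinite _)
        (exists_Pk S (hS ▸ ht))
      exact ⟨κ, fun _ => ⟨h1, h2⟩⟩
    · exact ⟨default, fun h => absurd h hS⟩
  choose key hkey using h1
  have h2 : ∀ i j : Fin (n + 1), ∃ β : A n, i ≠ j → ∀ k, β.1 (π k) = π' (swap i j k) := by
    intro i j
    by_cases hij : i = j
    · exact ⟨1, fun h => absurd hij h⟩
    · refine ⟨⟨π' * swap i j * π⁻¹, ?_⟩, fun _ k => by simp⟩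
      rw [Perm.mem_alternatingGroup]
      simp [hs, Perm.sign_swap hij]
  choose β hβ using h2
  let Ψ : Fin (m + 1) ×ₗ Fin (n + 1) ×ₗ Fin (n + 1) → V n m ↪ V n m := fun κ =>
    ⟨psi (β (ofLex (ofLex κ).2).1 (ofLex (ofLex κ).2).2) (ofLex κ).1 (ofLex (ofLex κ).2).1
      (ofLex (ofLex κ).2).2, psi_inj _ _ _ _⟩
  have hT : ∀ κ (S : Finset (V n m)) k q, q ≤ (ofLex κ).1 → (T k q ∈ S.map (Ψ κ) ↔ T k q ∈ S) := by
    intro κ S k q hq
    have : Ψ κ (T k q) = T k q := by
      simp [Ψ, psi, sw, not_lt.2 hq]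
    conv_lhs => rw [← this]
    exact Finset.mem_map' _
  refine cnt_le _ _ t (fun S => Ψ (key S)) ?_ ?_ F
  · intro S hS x hx y hy
    obtain ⟨⟨a, b, c⟩, -⟩ := hkey S hS
    have r1 := psi_R (hβ _ _ a) (x := x) (y := y) (fun h => b (h ▸ hx)) (fun h => c (h ▸ hx))
      (fun h => b (h ▸ hy)) (fun h => c (h ▸ hy))
    have r2 := psi_R (hβ _ _ a) (x := y) (y := x) (fun h => b (h ▸ hy)) (fun h => c (h ▸ hy))
      (fun h => b (h ▸ hx)) (fun h => c (h ▸ hx))
    rw [G_adj, G_adj, (Ψ (key S)).injective.ne_iff]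
    simp only [Ψ, Function.Embedding.coeFn_mk]
    rw [r1, r2, psi_hub, psi_hub]
  · have main : ∀ S S' : Finset (V n m), S.card = t → S'.card = t →
        S.map (Ψ (key S)) = S'.map (Ψ (key S')) → key S ≤ key S' → key S' ≤ key S := by
      intro S S' hS hS' h hle
      obtain ⟨⟨a, b, c⟩, -⟩ := hkey S hS
      have hp : (ofLex (key S)).1 ≤ (ofLex (key S')).1 := Prod.Lex.monotone_fst _ _ hle
      refine (hkey S' hS').2 _ ⟨a, ?_, ?_⟩
      · rw [← hT (key S') S' _ _ hp, ← h, hT (key S) S _ _ le_rfl]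
        exact b
      · rw [← hT (key S') S' _ _ hp, ← h, hT (key S) S _ _ le_rfl]
        exact c
    intro S S' hS hS' h
    have : key S = key S' := by
      rcases le_total (key S) (key S') with h3 | h3
      · exact le_antisymm h3 (main S S' hS hS' h h3)
      · exact le_antisymm (main S' S hS' hS h.symm h3) h3
    simp only [this]

end deck

end Pool.Agent.H9.Ham
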