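import Mathlib
import Pool.Agent.H9.Ham3

set_option autoImplicit false

namespace Pool.Agent.H9.Ham

open SimpleGraph Equiv V

variable {n m K : ℕ}

def entry (e : Fin (K + 1) ≃ A n) (k : ℕ) : V n m :=
  if h : k < K then Q (e ⟨k, by omega⟩) 0 0 else Z 2

def nx (e : Fin (K + 1) ≃ A n) : V n m → V n m
  | P σ i 0 => if σ = e (Fin.last K) then M σ i 0 else P σ i 1
  | P σ i 1 => if σ = e (Fin.last K) then P σ i 2 else M σ i 1
  | P σ i 2 => if σ = e (Fin.last K) then M σ i 2 else
      if i = Fin.last n then entry e ((e.symm σ).val + 1) else Q σ (i + 1) 0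
  | M σ i 0 => if σ = e (Fin.last K) then Q σ i 0 else P σ i 0
  | M σ i 1 => if σ = e (Fin.last K) then P σ i 1 else Q σ i 1
  | M σ i 2 => if σ = e (Fin.last K) then Q σ i 2 else P σ i 2
  | Q σ i 0 => if σ = e (Fin.last K) then Q σ i 1 else M σ i 0
  | Q σ i 1 => if σ = e (Fin.last K) then M σ i 1 else Q σ i 2
  | Q σ i 2 => if σ = e (Fin.last K) then T (i + 1) (Fin.last m) else M σ i 2
  | T i q => if q = 0 then (if i = 0 then entry e 0 else P (e (Fin.last K)) i 0) else
      T i ⟨q.val - 1, by omega⟩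
  | Z 0 => P (e (Fin.last K)) 0 0
  | Z 1 => Z 0
  | Z 2 => Z 1

theorem hub_entry (e : Fin (K + 1) ≃ A n) (k : ℕ) : hub (entry e k : V n m) := by
  unfold entry
  split_ifs <;> simp [hub]

theorem entry_ne (e : Fin (K + 1) ≃ A n) (k : ℕ) (σ : A n) (i : Fin (n + 1)) (c : Fin 3)
    (q : Fin (m + 1)) : (P σ i c : V n m) ≠ entry e k ∧ (T i q : V n m) ≠ entry e k := by
  unfold entry
  split_ifs <;> simp

theorem nx_adj (e : Fin (K + 1) ≃ A n) (x : V n m) :
    (G ((e (Fin.last K)).1 * (finRotate (n + 1))⁻¹)).Adj x (nx e x) := by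
  rw [G_adj]
  cases x with
  | P σ i c =>
    fin_cases c
    · simp only [nx, Fin.zero_eta]
      split_ifs <;> simp [R]
    · simp only [nx, Fin.mk_one]
      split_ifs <;> simp [R]
    · simp only [nx, Fin.reduceFinMk]
      split_ifs with h1 h2
      · simp [R]
      · exact ⟨(entry_ne e _ σ i 2 0).1, Or.inr (Or.inr ⟨⟨h2, rfl⟩, hub_entry e _⟩)⟩
      · simp [R, Fin.val_add_one, h2]
  | M σ i c =>
    fin_cases c
    · simp only [nx, Fin.zero_eta]
      split_ifs <;> simp [R]
    · simp only [nx, Fin.mk_one]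
      split_ifs <;> simp [R]
    · simp only [nx, Fin.reduceFinMk]
      split_ifs <;> simp [R]
  | Q σ i c =>
    fin_cases c
    · simp only [nx, Fin.zero_eta]
      split_ifs <;> simp [R]
    · simp only [nx, Fin.mk_one]
      split_ifs <;> simp [R]
    · simp only [nx, Fin.reduceFinMk]
      split_ifs with h1
      · subst h1
        refine ⟨by simp, Or.inl ⟨rfl, rfl, ?_⟩⟩
        rw [← finRotate_apply]
        simp only [Perm.mul_apply, Perm.coe_inv, symm_apply_apply]
      · simp [R]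
  | T i q =>
    simp only [nx]
    split_ifs with h1 h2
    · exact ⟨(entry_ne e _ 1 i 2 q).2, Or.inr (Or.inr ⟨⟨h2, h1⟩, hub_entry e _⟩)⟩
    · simp [R, h1, h2]
    · have : q.val ≠ 0 := fun h => h1 (Fin.ext h)
      refine ⟨?_, Or.inr (Or.inl ⟨rfl, ?_⟩)⟩
      · simp only [ne_eq, T.injEq, true_and, Fin.ext_iff]
        omega
      · simp only
        omega
  | Z c => fin_cases c <;> simp [nx, R]

section reach
variable (e : Fin (K + 1) ≃ A n) {X : Set (V n m)} (hX : ∀ x ∈ X, nx e x ∈ X)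
include hX

theorem absorb {σ : A n} (hσ : σ ≠ e (Fin.last K)) {i : Fin (n + 1)} (h : Q σ i 0 ∈ X) :
    ∀ c, P σ i c ∈ X ∧ M σ i c ∈ X ∧ Q σ i c ∈ X := by
  have a1 : M σ i 0 ∈ X := by simpa [nx, hσ] using hX _ h
  have a2 : P σ i 0 ∈ X := by simpa [nx, hσ] using hX _ a1
  have a3 : P σ i 1 ∈ X := by simpa [nx, hσ] using hX _ a2
  have a4 : M σ i 1 ∈ X := by simpa [nx, hσ] using hX _ a3
  have a5 : Q σ i 1 ∈ X := by simpa [nx, hσ] using hX _ a4
  have a6 : Q σ i 2 ∈ X := by simpa [nx, hσ] using hX _ a5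
  have a7 : M σ i 2 ∈ X := by simpa [nx, hσ] using hX _ a6
  have a8 : P σ i 2 ∈ X := by simpa [nx, hσ] using hX _ a7
  intro c
  fin_cases c
  · exact ⟨a2, a1, h⟩
  · exact ⟨a3, a4, a5⟩
  · exact ⟨a8, a7, a6⟩

theorem absorb2 {σ : A n} (hσ : σ ≠ e (Fin.last K)) (h : Q σ 0 0 ∈ X) (i : Fin (n + 1)) :
    Q σ i 0 ∈ X := by
  induction i using Fin.induction with
  | zero => exact h
  | succ i ih =>
    have a := hX _ (absorb e hX hσ ih 2).1
    simpa [nx, hσ, (Fin.castSucc_lt_last i).ne] using a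

theorem entries (h : T 0 0 ∈ X) (k : ℕ) : entry e k ∈ X := by
  induction k with
  | zero => simpa [nx] using hX _ h
  | succ k ih =>
    by_cases hk : k < K
    · simp only [entry, hk, dif_pos] at ih
      have hσ : e ⟨k, by omega⟩ ≠ e (Fin.last K) := by
        intro h
        have := congrArg Fin.val (e.injective h)
        simp at this
        omega
      have a := hX _ (absorb e hX hσ (absorb2 e hX hσ ih (Fin.last n)) 2).1
      rw [nx, if_neg hσ, if_pos rfl, symm_apply_apply] at a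
      exact a
    · have hk' : ¬ k + 1 < K := by omega
      simp only [entry, hk, hk', dif_neg, not_false_eq_true] at ih ⊢
      exact ih

theorem route {i : Fin (n + 1)} (h : P (e (Fin.last K)) i 0 ∈ X) :
    (∀ c, P (e (Fin.last K)) i c ∈ X ∧ M (e (Fin.last K)) i c ∈ X ∧ Q (e (Fin.last K)) i c ∈ X) ∧
      ∀ q, T (i + 1) q ∈ X := by
  have a1 : M (e (Fin.last K)) i 0 ∈ X := by simpa [nx] using hX _ h
  have a2 : Q (e (Fin.last K)) i 0 ∈ X := by simpa [nx] using hX _ a1
  have a3 : Q (e (Fin.last K)) i 1 ∈ X := by simpa [nx] using hX _ a2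
  have a4 : M (e (Fin.last K)) i 1 ∈ X := by simpa [nx] using hX _ a3
  have a5 : P (e (Fin.last K)) i 1 ∈ X := by simpa [nx] using hX _ a4
  have a6 : P (e (Fin.last K)) i 2 ∈ X := by simpa [nx] using hX _ a5
  have a7 : M (e (Fin.last K)) i 2 ∈ X := by simpa [nx] using hX _ a6
  have a8 : Q (e (Fin.last K)) i 2 ∈ X := by simpa [nx] using hX _ a7
  have a9 : T (i + 1) (Fin.last m) ∈ X := by simpa [nx] using hX _ a8
  constructor
  · intro c
    fin_cases c
    · exact ⟨h, a1, a2⟩
    · exact ⟨a5, a4, a3⟩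
    · exact ⟨a6, a7, a8⟩
  · intro q
    induction q using Fin.reverseInduction with
    | last => exact a9
    | cast q ih =>
      have a := hX _ ih
      rw [nx, if_neg (Fin.succ_ne_zero q)] at a
      exact a

theorem reach (h : T 0 0 ∈ X) (v : V n m) : v ∈ X := by
  have z2 : Z 2 ∈ X := by simpa [entry] using entries e hX h K
  have z1 : Z 1 ∈ X := hX _ z2
  have z0 : Z 0 ∈ X := hX _ z1
  have a : ∀ i, P (e (Fin.last K)) i 0 ∈ X := by
    intro i
    induction i using Fin.induction with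
    | zero => exact hX _ z0
    | succ i ih =>
      have b := hX _ ((route e hX ih).2 0)
      simpa [nx] using b
  have b : ∀ σ i c, P σ i c ∈ X ∧ M σ i c ∈ X ∧ Q σ i c ∈ X := by
    intro σ i
    by_cases hσ : σ = e (Fin.last K)
    · subst hσ
      exact (route e hX (a i)).1
    · refine absorb e hX hσ (absorb2 e hX hσ ?_ i)
      have hk : (e.symm σ).val < K := by
        refine Fin.val_lt_last ?_
        intro h
        exact hσ (by rw [← h, apply_symm_apply])
      have := entries e hX h (e.symm σ).val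
      simpa [entry, hk] using this
  cases v with
  | P σ i c => exact (b σ i c).1
  | M σ i c => exact (b σ i c).2.1
  | Q σ i c => exact (b σ i c).2.2
  | T i q => simpa using (route e hX (a (i - 1))).2 q
  | Z c =>
    fin_cases c
    · exact z0
    · exact z1
    · exact z2

end reach

theorem main (hn : 1 ≤ n) (hm : 2 ≤ m) : ∃ G₁ G₂ : SimpleGraph (V n m),
    (∃ H, H ≤ G₁ ∧ Nonempty (H ≃g cycleGraph (Nat.card (V n m)))) ∧ (∀ H, ¬ HC G₂ H) ∧
      ∀ t, t < n * (m + 1) → ∀ F, cnt G₁ t F = cnt G₂ t F := by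
  classical
  have := finV (n := n) (m := m)
  let _ := Fintype.ofFinite (V n m)
  obtain ⟨K, hK⟩ : ∃ K, Nat.card (A n) = K + 1 := ⟨_, (Nat.succ_pred_eq_of_pos Nat.card_pos).symm⟩
  let e : Fin (K + 1) ≃ A n := (Finite.equivFinOfCardEq hK).symm
  let π : Perm (Fin (n + 1)) := (e (Fin.last K)).1 * (finRotate (n + 1))⁻¹
  have hπ : Perm.sign π = (-1) ^ n := by
    have h5 : Perm.sign (e (Fin.last K)).1 = 1 := Perm.mem_alternatingGroup.1 (e (Fin.last K)).2
    simp [π, h5]
  have h01 : (0 : Fin (n + 1)) ≠ Fin.last n := by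
    intro h
    have := congrArg Fin.val h
    simp at this
    omega
  have hs : Perm.sign (π * swap 0 (Fin.last n)) = - Perm.sign π := by
    simp [Perm.sign_swap h01]
  refine ⟨G π, G (π * swap 0 (Fin.last n)), ?_, ?_, ?_⟩
  · rw [Nat.card_eq_fintype_card]
    refine exists_cycle _ (nx e) (nx_adj e) (T 0 0) (fun X h hX => reach e hX h)
      ⟨T 0 ⟨1, by omega⟩, ?_⟩
    rw [nx, if_neg (by simp)]
    rfl
  · intro H h
    have h1 := sign_of_hc hn hm h
    rw [hs, hπ] at h1
    exact absurd h1 (by rcases Int.units_eq_one_or ((-1 : ℤˣ) ^ n) with h | h <;> rw [h] <;> decide)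
  · intro t ht F
    exact le_antisymm (deck_le hs ht F) (deck_le (by rw [hs, neg_neg]) ht F)

end Pool.Agent.H9.Ham
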