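import Mathlib

set_option autoImplicit false

namespace Pool.Agent.H9.JointDefs

abbrev V := Fin 3 → ℝ

/-- the line through `p` with direction `v` -/
def lineThrough (p v : V) : Set V := {x | ∃ t : ℝ, x = p + t • v}

/-- the plane with normal vector `n` and level `c` -/
def planeOf (n : V) (c : ℝ) : Set V := {x | n ⬝ᵥ x = c}

def IsLine (l : Set V) : Prop := ∃ p v : V, v ≠ 0 ∧ l = lineThrough p v

def IsPlane (P : Set V) : Prop := ∃ (n : V) (c : ℝ), n ≠ 0 ∧ P = planeOf n c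

def Parallel (P Q : Set V) : Prop :=
  ∃ (n : V) (c d : ℝ), n ≠ 0 ∧ P = planeOf n c ∧ Q = planeOf n d

/-- `p` lies on three lines of `L` with linearly independent directions -/
def IsJoint (L : Finset (Set V)) (p : V) : Prop :=
  ∃ v : Fin 3 → V, LinearIndependent ℝ v ∧ ∀ i, lineThrough p (v i) ∈ L

/-- number of joints -/
noncomputable def J (L : Finset (Set V)) : ℕ := {p | IsJoint L p}.ncard

/-- generic finite set of planes: no two parallel, no three contain a common line, no four pass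
through a common point -/
def Generic (H : Finset (Set V)) : Prop :=
  (∀ P ∈ H, IsPlane P) ∧
  (∀ P ∈ H, ∀ Q ∈ H, P ≠ Q → ¬ Parallel P Q) ∧
  (∀ P ∈ H, ∀ Q ∈ H, ∀ R ∈ H, P ≠ Q → P ≠ R → Q ≠ R → ¬ ∃ l, IsLine l ∧ l ⊆ P ∩ Q ∩ R) ∧
  (∀ P ∈ H, ∀ Q ∈ H, ∀ R ∈ H, ∀ S ∈ H, P ≠ Q → P ≠ R → P ≠ S → Q ≠ R → Q ≠ S → R ≠ S →
    ¬ ∃ x, x ∈ P ∩ Q ∩ R ∩ S)

/-- the pairwise intersections of the planes of `H` -/
def linesOf (H : Finset (Set V)) : Set (Set V) := {l | ∃ P ∈ H, ∃ Q ∈ H, P ≠ Q ∧ l = P ∩ Q}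

end Pool.Agent.H9.JointDefs
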