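import Mathlib
import Pool.Agent.H9.JointDefs

set_option autoImplicit false

namespace Pool.Agent.H9.Joint
open Pool.Agent.H9.JointDefs

variable {s : ℕ}

abbrev I (s : ℕ) := Fin s × Bool

def tt (a : I s) : ℝ := ((a.1 : ℕ) : ℝ)
def ee (a : I s) : ℤ := if a.2 then 1 else 0
noncomputable def cc (a : I s) : ℝ := tt a ^ 3 + ee a * √2
def nn (a : I s) : V := ![1, tt a, tt a ^ 2]
noncomputable def pl (a : I s) : Set V := planeOf (nn a) (cc a)
def dd (a b : I s) : V := ![tt a * tt b, -(tt a + tt b), 1]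

theorem dd0 (a b : I s) : dd a b 0 = tt a * tt b := rfl
theorem dd1 (a b : I s) : dd a b 1 = -(tt a + tt b) := rfl
theorem dd2 (a b : I s) : dd a b 2 = 1 := rfl

theorem mem_pl {a : I s} {x : V} : x ∈ pl a ↔ x 0 + tt a * x 1 + tt a ^ 2 * x 2 = cc a := by
  simp [pl, planeOf, nn, dotProduct, Fin.sum_univ_three]

theorem tt_ne {a b : I s} (h : a.1 ≠ b.1) : tt a ≠ tt b := by
  simpa [tt, Fin.val_inj] using h

theorem nn_ne (a : I s) : nn a ≠ 0 := fun h => by simpa [nn] using congrFun h 0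

theorem dd_ne (a b : I s) : dd a b ≠ 0 := fun h => by simpa [dd] using congrFun h 2

theorem same {a b : I s} {x : V} (ha : x ∈ pl a) (hb : x ∈ pl b) (h : a.1 = b.1) : a = b := by
  rw [mem_pl] at ha hb
  obtain ⟨a, e⟩ := a
  obtain ⟨b, f⟩ := b
  simp only at h
  subst h
  have h2 : (0 : ℝ) < √2 := by positivity
  have : tt (a, e) = tt (a, f) := rfl
  cases e <;> cases f <;> simp [cc, ee, this] at ha hb ⊢ <;> linarith

theorem no4 {a b c d : I s} {x : V} (ha : x ∈ pl a) (hb : x ∈ pl b) (hc : x ∈ pl c)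
    (hd : x ∈ pl d) (h1 : a.1 ≠ b.1) (h2 : a.1 ≠ c.1) (h3 : a.1 ≠ d.1) (h4 : b.1 ≠ c.1)
    (h5 : b.1 ≠ d.1) (h6 : c.1 ≠ d.1) : False := by
  rw [mem_pl, cc] at ha hb hc hd
  set A : ℤ := ((a.1 : ℕ) : ℤ)
  set B : ℤ := ((b.1 : ℕ) : ℤ)
  set C : ℤ := ((c.1 : ℕ) : ℤ)
  set D : ℤ := ((d.1 : ℕ) : ℤ)
  have ea : tt a = A := by simp [tt, A]
  have eb : tt b = B := by simp [tt, B]
  have ec : tt c = C := by simp [tt, C]
  have ed : tt d = D := by simp [tt, D]
  have hV : ((B - A) * (C - A) * (D - A) * (C - B) * (D - B) * (D - C) : ℝ) ≠ 0 := by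
    rw [← ea, ← eb, ← ec, ← ed]
    have := sub_ne_zero.2 (tt_ne h1).symm
    have := sub_ne_zero.2 (tt_ne h2).symm
    have := sub_ne_zero.2 (tt_ne h3).symm
    have := sub_ne_zero.2 (tt_ne h4).symm
    have := sub_ne_zero.2 (tt_ne h5).symm
    have := sub_ne_zero.2 (tt_ne h6).symm
    positivity
  rw [ea] at ha; rw [eb] at hb; rw [ec] at hc; rw [ed] at hd
  set W : ℤ := ee a * ((C - B) * (D - B) * (D - C)) - ee b * ((C - A) * (D - A) * (D - C))
    + ee c * ((B - A) * (D - A) * (D - B)) - ee d * ((B - A) * (C - A) * (C - B))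
  have key : ((B - A) * (C - A) * (D - A) * (C - B) * (D - B) * (D - C) : ℝ) = W * √2 := by
    simp only [W]
    push_cast
    linear_combination ((C - B) * (D - B) * (D - C) : ℝ) * ha - ((C - A) * (D - A) * (D - C) : ℝ) * hb
      + ((B - A) * (D - A) * (D - B) : ℝ) * hc - ((B - A) * (C - A) * (C - B) : ℝ) * hd
  have hW : (W : ℝ) ≠ 0 := fun h => hV (by rw [key, h, zero_mul])
  refine irrational_sqrt_two.ne_rational
    ((B - A) * (C - A) * (D - A) * (C - B) * (D - B) * (D - C)) W ?_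
  push_cast
  rw [key]
  field_simp

theorem inter_eq {a b : I s} {x : V} (ha : x ∈ pl a) (hb : x ∈ pl b) (h : a.1 ≠ b.1) :
    pl a ∩ pl b = lineThrough x (dd a b) := by
  have hne := sub_ne_zero.2 (tt_ne h)
  rw [mem_pl] at ha hb
  ext y
  simp only [Set.mem_inter_iff, mem_pl, lineThrough, Set.mem_ofPred_eq]
  constructor
  · rintro ⟨h1, h2⟩
    have e1 : y 1 = x 1 - (y 2 - x 2) * (tt a + tt b) := by
      apply mul_left_cancel₀ hne
      linear_combination h1 - h2 - ha + hb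
    refine ⟨y 2 - x 2, funext fun i => ?_⟩
    fin_cases i
    · simp [dd]; linear_combination h1 - ha - tt a * e1
    · simp [dd]; linear_combination e1
    · simp [dd]
  · rintro ⟨t, rfl⟩
    simp [dd0, dd1, dd2]
    constructor
    · linear_combination ha
    · linear_combination hb

theorem ex_pt {a b : I s} (h : a.1 ≠ b.1) : ∃ x, x ∈ pl a ∧ x ∈ pl b := by
  have hne := sub_ne_zero.2 (tt_ne h)
  refine ⟨![cc a - tt a * ((cc a - cc b) / (tt a - tt b)), (cc a - cc b) / (tt a - tt b), 0], ?_, ?_⟩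
  · simp [mem_pl]
  · simp [mem_pl]; field_simp; ring

theorem ex_pt3 {a b c : I s} (h1 : a.1 ≠ b.1) (h2 : a.1 ≠ c.1) (h3 : b.1 ≠ c.1) :
    ∃ x, x ∈ pl a ∧ x ∈ pl b ∧ x ∈ pl c := by
  obtain ⟨x, ha, hb⟩ := ex_pt h1
  have n2 := sub_ne_zero.2 (tt_ne h2).symm
  have n3 := sub_ne_zero.2 (tt_ne h3).symm
  have : x + ((cc c - (x 0 + tt c * x 1 + tt c ^ 2 * x 2)) / ((tt c - tt a) * (tt c - tt b))) •
      dd a b ∈ pl a ∩ pl b := by
    rw [inter_eq ha hb h1]; exact ⟨_, rfl⟩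
  refine ⟨_, this.1, this.2, ?_⟩
  simp [mem_pl, dd0, dd1, dd2]
  field_simp
  ring

theorem sub_pl {a b c : I s} (h : a.1 ≠ b.1) (hs : pl a ∩ pl b ⊆ pl c) : c = a ∨ c = b := by
  obtain ⟨x, ha, hb⟩ := ex_pt h
  have hx : x ∈ pl c := hs ⟨ha, hb⟩
  rw [inter_eq ha hb h] at hs
  have hy := hs ⟨1, rfl⟩
  have : (tt c - tt a) * (tt c - tt b) = 0 := by
    rw [mem_pl] at hx hy
    simp [dd0, dd1, dd2] at hy
    linear_combination hy - hx
  rcases mul_eq_zero.1 this with h | h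
  · exact Or.inl (same hx ha (by by_contra k; exact tt_ne k (sub_eq_zero.1 h)))
  · exact Or.inr (same hx hb (by by_contra k; exact tt_ne k (sub_eq_zero.1 h)))

theorem uniq3 {a b c : I s} (h1 : a.1 ≠ b.1) (h2 : a.1 ≠ c.1) (h3 : b.1 ≠ c.1) {x y : V}
    (xa : x ∈ pl a) (xb : x ∈ pl b) (xc : x ∈ pl c) (ya : y ∈ pl a) (yb : y ∈ pl b)
    (yc : y ∈ pl c) : x = y := by
  have : y ∈ pl a ∩ pl b := ⟨ya, yb⟩
  rw [inter_eq xa xb h1] at this
  obtain ⟨t, rfl⟩ := this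
  have n2 := sub_ne_zero.2 (tt_ne h2).symm
  have n3 := sub_ne_zero.2 (tt_ne h3).symm
  have : t * ((tt c - tt a) * (tt c - tt b)) = 0 := by
    rw [mem_pl] at xc yc
    simp [dd0, dd1, dd2] at yc
    linear_combination yc - xc
  rcases mul_eq_zero.1 this with h | h
  · simp [h]
  · exact absurd h (mul_ne_zero n2 n3)

theorem indep {a b c : I s} (h1 : a.1 ≠ b.1) (h2 : a.1 ≠ c.1) (h3 : b.1 ≠ c.1) :
    LinearIndependent ℝ ![dd a b, dd a c, dd b c] := by
  rw [Fintype.linearIndependent_iff]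
  intro g hg
  have e0 := congrFun hg 0
  have e1 := congrFun hg 1
  have e2 := congrFun hg 2
  simp [Fin.sum_univ_three, dd] at e0 e1 e2
  have n1 := sub_ne_zero.2 (tt_ne h1)
  have n2 := sub_ne_zero.2 (tt_ne h2)
  have n3 := sub_ne_zero.2 (tt_ne h3)
  have g0 : g 0 = 0 := by
    apply mul_left_cancel₀ (mul_ne_zero n2 n3)
    linear_combination e0 + tt c * e1 + tt c ^ 2 * e2
  have g2 : g 2 = 0 := by
    apply mul_left_cancel₀ (mul_ne_zero n1 n2)
    linear_combination e0 + tt a * e1 + tt a ^ 2 * e2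
  intro i
  fin_cases i
  · exact g0
  · simp; linarith
  · exact g2

theorem dd_comm (a b : I s) : dd a b = dd b a := by
  simp [dd, mul_comm, add_comm]

/-- a plane containing two lines that share a parameter is an original plane -/
theorem share {a b c d : I s} (h1 : a.1 ≠ b.1) (h2 : c.1 ≠ d.1) (h3 : a.1 = c.1) (h4 : b.1 ≠ d.1)
    {P : Set V} (hP : IsPlane P) (s1 : pl a ∩ pl b ⊆ P) (s2 : pl c ∩ pl d ⊆ P) : P = pl a := by
  obtain ⟨n, e, hn, rfl⟩ := hP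
  obtain ⟨x, xa, xb⟩ := ex_pt h1
  obtain ⟨y, yc, yd⟩ := ex_pt h2
  have x0 := s1 ⟨xa, xb⟩
  have y0 := s2 ⟨yc, yd⟩
  rw [inter_eq xa xb h1] at s1
  rw [inter_eq yc yd h2] at s2
  have x1 := s1 ⟨1, rfl⟩
  have y1 := s2 ⟨1, rfl⟩
  have et : tt c = tt a := by simp [tt, h3]
  simp [planeOf, dotProduct, Fin.sum_univ_three, dd0, dd1, dd2, et] at x0 x1 y0 y1
  have n4 := sub_ne_zero.2 (tt_ne h4)
  have k1 : n 1 = n 0 * tt a := by
    apply mul_left_cancel₀ n4
    linear_combination y1 - y0 - x1 + x0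
  have k2 : n 2 = n 0 * tt a ^ 2 := by
    linear_combination x1 - x0 + (tt a + tt b) * k1
  have k0 : n 0 ≠ 0 := by
    intro h
    apply hn
    funext i
    fin_cases i <;> simp [h, k1, k2]
  rw [mem_pl] at xa
  ext z
  simp only [mem_pl, planeOf, dotProduct, Fin.sum_univ_three, Set.mem_ofPred_eq]
  rw [k1, k2] at x0 ⊢
  constructor
  · intro h
    apply mul_left_cancel₀ k0
    linear_combination h - x0 + n 0 * xa
  · intro h
    linear_combination n 0 * h + x0 - n 0 * xa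

theorem skew {a b c d : I s} (h1 : a.1 ≠ b.1) (h2 : a.1 ≠ c.1) (h3 : a.1 ≠ d.1) (h4 : b.1 ≠ c.1)
    (h5 : b.1 ≠ d.1) (h6 : c.1 ≠ d.1)
    {P : Set V} (hP : IsPlane P) (s1 : pl a ∩ pl b ⊆ P) (s2 : pl c ∩ pl d ⊆ P) : False := by
  obtain ⟨n, e, hn, rfl⟩ := hP
  obtain ⟨x, xa, xb, xc⟩ := ex_pt3 h1 h2 h4
  obtain ⟨y, ya, yb, yd⟩ := ex_pt3 h1 h3 h5
  obtain ⟨z, za, zc, zd⟩ := ex_pt3 h2 h3 h6
  have x0 := s1 ⟨xa, xb⟩
  have z0 := s2 ⟨zc, zd⟩
  have hz : z ∈ pl a ∩ pl c := ⟨za, zc⟩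
  rw [inter_eq xa xc h2] at hz
  obtain ⟨t, ht⟩ := hz
  have t0 : t ≠ 0 := by
    rintro rfl
    simp at ht
    subst ht
    exact no4 xa xb xc zd h1 h2 h3 h4 h5 h6
  rw [inter_eq xa xb h1] at s1
  rw [inter_eq zc zd h6] at s2
  have x1 := s1 ⟨1, rfl⟩
  have z1 := s2 ⟨1, rfl⟩
  have z2 := z0
  rw [ht] at z2
  simp [planeOf, dotProduct, Fin.sum_univ_three, dd0, dd1, dd2] at x0 x1 z0 z1 z2
  have q1 : n 0 * (tt a * tt b) - n 1 * (tt a + tt b) + n 2 = 0 := by linear_combination x1 - x0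
  have q2 : n 0 * (tt c * tt d) - n 1 * (tt c + tt d) + n 2 = 0 := by linear_combination z1 - z0
  have q3 : n 0 * (tt a * tt c) - n 1 * (tt a + tt c) + n 2 = 0 := by
    apply mul_left_cancel₀ t0
    linear_combination z2 - x0
  have k1 : n 1 = n 0 * tt a := by
    apply mul_left_cancel₀ (sub_ne_zero.2 (tt_ne h4))
    linear_combination q3 - q1
  have k2 : n 1 = n 0 * tt c := by
    apply mul_left_cancel₀ (sub_ne_zero.2 (tt_ne h3))
    linear_combination q2 - q3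
  have k0 : n 0 = 0 := by
    apply mul_left_cancel₀ (sub_ne_zero.2 (tt_ne h2))
    linear_combination k2 - k1
  apply hn
  funext i
  fin_cases i
  · exact k0
  · simp [k1, k0]
  · simp; rw [k1, k0] at q1; linarith

/-- two non-parallel planes contain a common line -/
theorem common_line {P Q : Set V} (hP : IsPlane P) (hQ : IsPlane Q) (h : ¬ Parallel P Q) :
    ∃ l, IsLine l ∧ l ⊆ P ∩ Q := by
  obtain ⟨n, c, hn, rfl⟩ := hP
  obtain ⟨m, e, hm, rfl⟩ := hQ
  set d0 := n 1 * m 2 - n 2 * m 1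
  set d1 := n 2 * m 0 - n 0 * m 2
  set d2 := n 0 * m 1 - n 1 * m 0
  have hd : d0 ^ 2 + d1 ^ 2 + d2 ^ 2 ≠ 0 := by
    intro h0
    have a0 : d0 = 0 := by nlinarith [sq_nonneg d0, sq_nonneg d1, sq_nonneg d2]
    have a1 : d1 = 0 := by nlinarith [sq_nonneg d0, sq_nonneg d1, sq_nonneg d2]
    have a2 : d2 = 0 := by nlinarith [sq_nonneg d0, sq_nonneg d1, sq_nonneg d2]
    have hN : n 0 ^ 2 + n 1 ^ 2 + n 2 ^ 2 ≠ 0 := by
      intro h0
      apply hn
      funext i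
      fin_cases i <;> simp <;> nlinarith [sq_nonneg (n 0), sq_nonneg (n 1), sq_nonneg (n 2)]
    set u := (n 0 * m 0 + n 1 * m 1 + n 2 * m 2) / (n 0 ^ 2 + n 1 ^ 2 + n 2 ^ 2) with hu
    simp only [d0, d1, d2] at a0 a1 a2
    have m0 : m 0 = u * n 0 := by
      rw [hu]; field_simp; linear_combination n 2 * a1 - n 1 * a2
    have m1 : m 1 = u * n 1 := by
      rw [hu]; field_simp; linear_combination n 0 * a2 - n 2 * a0
    have m2 : m 2 = u * n 2 := by
      rw [hu]; field_simp; linear_combination n 1 * a0 - n 0 * a1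
    have u0 : u ≠ 0 := by
      intro h0
      apply hm
      funext i
      fin_cases i <;> simp [m0, m1, m2, h0]
    refine h ⟨n, c, e / u, hn, rfl, ?_⟩
    ext z
    simp only [planeOf, dotProduct, Fin.sum_univ_three, Set.mem_ofPred_eq]
    rw [eq_div_iff u0, m0, m1, m2]
    constructor <;> intro h <;> linear_combination h
  refine ⟨_, ⟨![(c * (m 1 * d2 - m 2 * d1) + e * (d1 * n 2 - d2 * n 1)) / (d0 ^ 2 + d1 ^ 2 + d2 ^ 2),
    (c * (m 2 * d0 - m 0 * d2) + e * (d2 * n 0 - d0 * n 2)) / (d0 ^ 2 + d1 ^ 2 + d2 ^ 2),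
    (c * (m 0 * d1 - m 1 * d0) + e * (d0 * n 1 - d1 * n 0)) / (d0 ^ 2 + d1 ^ 2 + d2 ^ 2)],
    ![d0, d1, d2], ?_, rfl⟩, ?_⟩
  · intro h0
    apply hd
    have a0 : d0 = 0 := by simpa using congrFun h0 0
    have a1 : d1 = 0 := by simpa using congrFun h0 1
    have a2 : d2 = 0 := by simpa using congrFun h0 2
    rw [a0, a1, a2]; ring
  · rintro _ ⟨t, rfl⟩
    simp [planeOf, dotProduct, Fin.sum_univ_three]
    constructor <;> field_simp <;> simp only [d0, d1, d2] <;> ring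

end Pool.Agent.H9.Joint
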