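import Mathlib
import Pool.Agent.H9.Joint1

set_option autoImplicit false

namespace Pool.Agent.H9.Joint
open Pool.Agent.H9.JointDefs Finset
open scoped Classical

variable {s : ℕ}

def Good (S : Finset (I s)) : Prop := ∀ a ∈ S, ∀ b ∈ S, a.1 = b.1 → a = b

noncomputable def G (s k : ℕ) : Finset (Finset (I s)) := (powersetCard k univ).filter Good

def ln (S : Finset (I s)) : Set V := {x | ∀ a ∈ S, x ∈ pl a}

noncomputable def LL (s : ℕ) : Finset (Set V) := (G s 2).image ln

noncomputable def A (s : ℕ) (x : V) : Finset (I s) := univ.filter (fun a => x ∈ pl a)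

theorem mem_G {k : ℕ} {S : Finset (I s)} : S ∈ G s k ↔ S.card = k ∧ Good S := by
  simp [G, mem_powersetCard]

theorem mem_G2 {S : Finset (I s)} : S ∈ G s 2 ↔ ∃ a b : I s, a.1 ≠ b.1 ∧ S = {a, b} := by
  rw [mem_G, card_eq_two]
  constructor
  · rintro ⟨⟨a, b, h, rfl⟩, g⟩
    exact ⟨a, b, fun k => h (g a (by simp) b (by simp) k), rfl⟩
  · rintro ⟨a, b, h, rfl⟩
    refine ⟨⟨a, b, fun k => h (k ▸ rfl), rfl⟩, ?_⟩
    intro x hx y hy k
    simp only [mem_insert, mem_singleton] at hx hy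
    rcases hx with rfl | rfl <;> rcases hy with rfl | rfl <;> simp_all

theorem mem_G3 {S : Finset (I s)} : S ∈ G s 3 →
    ∃ a b c : I s, a.1 ≠ b.1 ∧ a.1 ≠ c.1 ∧ b.1 ≠ c.1 ∧ S = {a, b, c} := by
  rw [mem_G, card_eq_three]
  rintro ⟨⟨a, b, c, h1, h2, h3, rfl⟩, g⟩
  exact ⟨a, b, c, fun k => h1 (g a (by simp) b (by simp) k), fun k => h2 (g a (by simp) c (by simp) k),
    fun k => h3 (g b (by simp) c (by simp) k), rfl⟩

theorem ln2 (a b : I s) : ln {a, b} = pl a ∩ pl b := by
  ext x; simp [ln]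

theorem mem_LL {l : Set V} : l ∈ LL s ↔ ∃ a b : I s, a.1 ≠ b.1 ∧ l = pl a ∩ pl b := by
  simp only [LL, mem_image, mem_G2]
  constructor
  · rintro ⟨_, ⟨a, b, h, rfl⟩, rfl⟩
    exact ⟨a, b, h, ln2 a b⟩
  · rintro ⟨a, b, h, rfl⟩
    exact ⟨_, ⟨a, b, h, rfl⟩, ln2 a b⟩

theorem card_LL : (LL s).card = (G s 2).card := by
  refine card_image_of_injOn fun S hS T hT e => ?_
  obtain ⟨a, b, h, rfl⟩ := mem_G2.1 hS
  obtain ⟨c, d, k, rfl⟩ := mem_G2.1 hT
  rw [ln2, ln2] at e
  have h1 := sub_pl h (e ▸ Set.inter_subset_left : pl a ∩ pl b ⊆ pl c)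
  have h2 := sub_pl h (e ▸ Set.inter_subset_right : pl a ∩ pl b ⊆ pl d)
  have h3 := sub_pl k (e ▸ Set.inter_subset_left : pl c ∩ pl d ⊆ pl a)
  have h4 := sub_pl k (e ▸ Set.inter_subset_right : pl c ∩ pl d ⊆ pl b)
  ext x
  simp only [mem_insert, mem_singleton]
  constructor <;> rintro (rfl | rfl) <;> assumption

theorem isLine {l : Set V} (h : l ∈ LL s) : IsLine l := by
  obtain ⟨a, b, k, rfl⟩ := mem_LL.1 h
  obtain ⟨x, ha, hb⟩ := ex_pt k
  exact ⟨x, _, dd_ne a b, inter_eq ha hb k⟩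

theorem mem_A {x : V} {a : I s} : a ∈ A s x ↔ x ∈ pl a := by simp [A]

theorem good_A (x : V) : Good (A s x) := fun _ ha _ hb h => same (mem_A.1 ha) (mem_A.1 hb) h

theorem card_A (x : V) : (A s x).card ≤ 3 := by
  by_contra h
  obtain ⟨a, ha, b, hb, c, hc, d, hd, h1, h2, h3, h4, h5, h6⟩ := three_lt_card.1 (not_le.1 h)
  have g := good_A (s := s) x
  exact no4 (mem_A.1 ha) (mem_A.1 hb) (mem_A.1 hc) (mem_A.1 hd) (fun k => h1 (g _ ha _ hb k))
    (fun k => h2 (g _ ha _ hc k)) (fun k => h3 (g _ ha _ hd k)) (fun k => h4 (g _ hb _ hc k))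
    (fun k => h5 (g _ hb _ hd k)) (fun k => h6 (g _ hc _ hd k))

theorem joint_A {x : V} (h : IsJoint (LL s) x) : A s x ∈ G s 3 := by
  obtain ⟨v, hv, h⟩ := h
  refine mem_G.2 ⟨le_antisymm (card_A x) ?_, good_A x⟩
  by_contra hc
  have key : ∀ i, lineThrough x (v i) = ln (A s x) := by
    intro i
    obtain ⟨a, b, k, e⟩ := mem_LL.1 (h i)
    have hx : x ∈ pl a ∩ pl b := e ▸ ⟨0, by simp⟩
    have : ({a, b} : Finset (I s)) = A s x := by
      refine eq_of_subset_of_card_le ?_ ?_
      · simp [insert_subset_iff, mem_A, hx.1, hx.2]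
      · rw [card_pair (fun k' : a = b => k (k' ▸ rfl))]; omega
    rw [e, ← this, ln2]
  have : x + (1 : ℝ) • v 1 ∈ lineThrough x (v 0) := by
    rw [key 0, ← key 1]; exact ⟨1, rfl⟩
  obtain ⟨t, ht⟩ := this
  have e : v 1 = t • v 0 := by simpa using ht
  have := Fintype.linearIndependent_iff.1 hv ![t, -1, 0] (by simp [Fin.sum_univ_three, e]) 1
  simp at this

theorem J_eq : J (LL s) = (G s 3).card := by
  rw [J, ← Set.ncard_coe_finset, ← Set.InjOn.ncard_image (f := A s)]
  · congr 1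
    ext S
    simp only [Set.mem_image, Set.mem_ofPred_eq, mem_coe]
    constructor
    · rintro ⟨x, hx, rfl⟩; exact joint_A hx
    · intro hS
      obtain ⟨a, b, c, h1, h2, h3, rfl⟩ := mem_G3 hS
      obtain ⟨x, xa, xb, xc⟩ := ex_pt3 h1 h2 h3
      refine ⟨x, ⟨_, indep h1 h2 h3, fun i => ?_⟩, ?_⟩
      · fin_cases i
        · exact mem_LL.2 ⟨a, b, h1, (inter_eq xa xb h1).symm⟩
        · exact mem_LL.2 ⟨a, c, h2, (inter_eq xa xc h2).symm⟩
        · exact mem_LL.2 ⟨b, c, h3, (inter_eq xb xc h3).symm⟩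
      · refine (eq_of_subset_of_card_le ?_ ?_).symm
        · simp [insert_subset_iff, mem_A, xa, xb, xc]
        · rw [(mem_G.1 hS).1]; exact card_A x
  · intro x hx y _ e
    obtain ⟨a, b, c, h1, h2, h3, k⟩ := mem_G3 (joint_A hx)
    have k' := e ▸ k
    exact uniq3 h1 h2 h3 (mem_A.1 (by simp [k])) (mem_A.1 (by simp [k])) (mem_A.1 (by simp [k]))
      (mem_A.1 (by simp [k'])) (mem_A.1 (by simp [k'])) (mem_A.1 (by simp [k']))

theorem G_le (k : ℕ) : (G s k).card ≤ (2 * s).choose k := by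
  refine (card_filter_le _ _).trans ?_
  simp [card_powersetCard, mul_comm]

theorem bad {S : Finset (I s)} (h : ¬ Good S) :
    ∃ t, ({(t, false), (t, true)} : Finset (I s)) ⊆ S := by
  simp only [Good, not_forall] at h
  obtain ⟨⟨a, e⟩, ha, ⟨b, f⟩, hb, h1, h2⟩ := h
  simp only at h1
  subst h1
  refine ⟨a, ?_⟩
  cases e <;> cases f <;> simp_all [insert_subset_iff]

theorem G2_ge : (2 * s).choose 2 ≤ (G s 2).card + s := by
  have h := card_filter_add_card_filter_not (s := powersetCard 2 (univ : Finset (I s))) Good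
  have h2 : ((powersetCard 2 (univ : Finset (I s))).filter (fun S => ¬ Good S)).card ≤ s := by
    refine (card_le_card (t := univ.image
      (fun t : Fin s => ({(t, false), (t, true)} : Finset (I s)))) ?_).trans
      (card_image_le.trans (by simp))
    intro S hS
    simp only [mem_filter, mem_powersetCard] at hS
    obtain ⟨t, ht⟩ := bad hS.2
    refine mem_image.2 ⟨t, mem_univ _, eq_of_subset_of_card_le ht ?_⟩
    rw [hS.1.2, card_pair (by simp)]
  simp only [card_powersetCard, card_univ, Fintype.card_prod, Fintype.card_fin,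
    Fintype.card_bool] at h
  rw [mul_comm, ← h]
  exact Nat.add_le_add_left h2 _

theorem G3_ge : (2 * s).choose 3 ≤ (G s 3).card + s * (s * 2) := by
  have h := card_filter_add_card_filter_not (s := powersetCard 3 (univ : Finset (I s))) Good
  have h2 : ((powersetCard 3 (univ : Finset (I s))).filter (fun S => ¬ Good S)).card ≤
      s * (s * 2) := by
    refine (card_le_card (t := univ.image (fun t : Fin s × I s =>
      (insert t.2 {(t.1, false), (t.1, true)} : Finset (I s)))) ?_).trans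
      (card_image_le.trans (by simp))
    intro S hS
    simp only [mem_filter, mem_powersetCard] at hS
    obtain ⟨t, ht⟩ := bad hS.2
    have c2 : ({(t, false), (t, true)} : Finset (I s)).card = 2 := card_pair (by simp)
    obtain ⟨a, ha, ha'⟩ := exists_mem_notMem_of_card_lt_card
      (show ({(t, false), (t, true)} : Finset (I s)).card < S.card by rw [c2, hS.1.2]; norm_num)
    refine mem_image.2 ⟨(t, a), mem_univ _, eq_of_subset_of_card_le (insert_subset ha ht) ?_⟩
    rw [hS.1.2, card_insert_of_notMem ha', c2]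
  simp only [card_powersetCard, card_univ, Fintype.card_prod, Fintype.card_fin,
    Fintype.card_bool] at h
  rw [mul_comm, ← h]
  exact Nat.add_le_add_left h2 _

/-- a plane that is not one of the original ones contains at most 16 lines of the family -/
theorem few {P : Set V} (hP : IsPlane P) (hn : ∀ a : I s, P ≠ pl a) :
    ((LL s).filter (fun l => l ⊆ P)).card ≤ 16 := by
  rcases ((LL s).filter (fun l => l ⊆ P)).eq_empty_or_nonempty with h | ⟨l, h⟩
  · simp [h]
  rw [mem_filter] at h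
  obtain ⟨a, b, h1, rfl⟩ := mem_LL.1 h.1
  have s1 := h.2
  let T : Finset (I s) := ({a.1, b.1} : Finset (Fin s)) ×ˢ univ
  have hT : T.card ≤ 4 := by
    simp only [T, card_product, card_univ, Fintype.card_bool]
    have := card_le_two (a := a.1) (b := b.1)
    omega
  refine (card_le_card (t := (T ×ˢ T).image (fun p => pl p.1 ∩ pl p.2)) ?_).trans
    (card_image_le.trans ?_)
  · intro l hl
    rw [mem_filter] at hl
    obtain ⟨c, d, h2, rfl⟩ := mem_LL.1 hl.1
    have s2 := hl.2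
    have s1' := Set.inter_comm _ _ ▸ s1
    have s2' := Set.inter_comm _ _ ▸ s2
    refine mem_image.2 ⟨(c, d), ?_, rfl⟩
    simp only [T, mem_product, mem_insert, mem_singleton, mem_univ, and_true]
    by_cases e1 : a.1 = c.1
    · by_cases e2 : b.1 = d.1
      · simp [e1, e2]
      · exact absurd (share h1 h2 e1 e2 hP s1 s2) (hn a)
    by_cases e2 : a.1 = d.1
    · by_cases e3 : b.1 = c.1
      · simp [e2, e3]
      · exact absurd (share h1 h2.symm e2 e3 hP s1 s2') (hn a)
    by_cases e3 : b.1 = c.1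
    · exact absurd (share h1.symm h2 e3 e2 hP s1' s2) (hn b)
    by_cases e4 : b.1 = d.1
    · exact absurd (share h1.symm h2.symm e4 e1 hP s1' s2') (hn b)
    exact (skew h1 e1 e2 e3 e4 h2 hP s1 s2).elim
  · rw [card_product]; nlinarith

noncomputable def LH (H : Finset (Set V)) : Finset (Set V) :=
  H.offDiag.image (fun p => p.1 ∩ p.2)

theorem coe_LH (H : Finset (Set V)) : linesOf H = ↑(LH H) := by
  ext l
  simp only [linesOf, LH, Set.mem_ofPred_eq, coe_image, Set.mem_image, mem_coe, mem_offDiag,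
    Prod.exists]
  constructor
  · rintro ⟨P, hP, Q, hQ, h, rfl⟩; exact ⟨P, Q, ⟨hP, hQ, h⟩, rfl⟩
  · rintro ⟨P, Q, ⟨hP, hQ, h⟩, rfl⟩; exact ⟨P, hP, Q, hQ, h, rfl⟩

theorem LH_ge {H : Finset (Set V)} (hH : Generic H) :
    H.card * H.card - H.card ≤ 2 * (LH H).card := by
  rw [← offDiag_card]
  refine card_le_mul_card_image _ 2 fun l hl => ?_
  obtain ⟨⟨P, Q⟩, hp, rfl⟩ := mem_image.1 hl
  obtain ⟨hP, hQ, h⟩ := mem_offDiag.1 hp
  obtain ⟨l, l1, l2⟩ := common_line (hH.1 P hP) (hH.1 Q hQ) (hH.2.1 P hP Q hQ h)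
  have key : ∀ R ∈ H, P ∩ Q ⊆ R → R = P ∨ R = Q := by
    intro R hR k
    by_contra hc
    push Not at hc
    exact hH.2.2.1 P hP Q hQ R hR h hc.1.symm hc.2.symm
      ⟨l, l1, Set.subset_inter l2 (l2.trans k)⟩
  refine (card_le_card (t := {(P, Q), (Q, P)}) ?_).trans card_le_two
  rintro ⟨R, S⟩ hr
  simp only [mem_filter, mem_offDiag] at hr
  obtain ⟨⟨hR, hS, k⟩, e⟩ := hr
  have k1 := key R hR (e ▸ Set.inter_subset_left)
  have k2 := key S hS (e ▸ Set.inter_subset_right)
  rcases k1 with rfl | rfl <;> rcases k2 with rfl | rfl <;> simp_all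

theorem inter_le {H : Finset (Set V)} (hH : Generic H) :
    (LL s ∩ LH H).card ≤ s * s + H.card * 16 := by
  let B : Finset (I s) := univ.filter (fun a => pl a ∈ H)
  let H0 : Finset (Set V) := B.image pl
  have h0 : H0.card ≤ s := by
    have : H0 ⊆ univ.image (fun t : Fin s => if pl (t, false) ∈ H then pl (t, false)
        else pl (t, true)) := by
      intro P hP
      obtain ⟨⟨t, e⟩, ha, rfl⟩ := mem_image.1 hP
      simp only [B, mem_filter, mem_univ, true_and] at ha
      refine mem_image.2 ⟨t, mem_univ _, ?_⟩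
      split_ifs with h
      · by_contra k
        exact hH.2.1 _ h _ ha k ⟨nn (t, false), _, _, nn_ne _, rfl, rfl⟩
      · cases e
        · exact absurd ha h
        · rfl
    exact (card_le_card this).trans (card_image_le.trans (by simp))
  have hsub : LL s ∩ LH H ⊆ (H0 ×ˢ H0).image (fun p => p.1 ∩ p.2) ∪
      (H.filter (fun P => ∀ a : I s, P ≠ pl a)).biUnion
        (fun P => (LL s).filter (fun l => l ⊆ P)) := by
    intro l hl
    obtain ⟨l1, l2⟩ := mem_inter.1 hl
    obtain ⟨⟨P, Q⟩, hp, rfl⟩ := mem_image.1 l2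
    obtain ⟨hP, hQ, -⟩ := mem_offDiag.1 hp
    by_cases k1 : ∀ a : I s, P ≠ pl a
    · exact mem_union_right _ (mem_biUnion.2 ⟨P, mem_filter.2 ⟨hP, k1⟩,
        mem_filter.2 ⟨l1, Set.inter_subset_left⟩⟩)
    by_cases k2 : ∀ a : I s, Q ≠ pl a
    · exact mem_union_right _ (mem_biUnion.2 ⟨Q, mem_filter.2 ⟨hQ, k2⟩,
        mem_filter.2 ⟨l1, Set.inter_subset_right⟩⟩)
    push Not at k1 k2
    obtain ⟨a, rfl⟩ := k1
    obtain ⟨b, rfl⟩ := k2
    refine mem_union_left _ (mem_image.2 ⟨(pl a, pl b), mem_product.2 ⟨?_, ?_⟩, rfl⟩)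
    · exact mem_image_of_mem _ (by simpa [B] using hP)
    · exact mem_image_of_mem _ (by simpa [B] using hQ)
  refine (card_le_card hsub).trans ((card_union_le _ _).trans (Nat.add_le_add ?_ ?_))
  · exact card_image_le.trans (by rw [card_product]; exact Nat.mul_le_mul h0 h0)
  · refine (card_biUnion_le_card_mul _ _ 16 fun P hP => ?_).trans
      (Nat.mul_le_mul_right _ (card_filter_le _ _))
    rw [mem_filter] at hP
    exact few (hH.1 P hP.1) hP.2

theorem ch2 (n : ℕ) : 2 * n.choose 2 + n = n * n := by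
  induction n with
  | zero => simp
  | succ n ih => rw [Nat.choose_succ_succ' n 1]; simp only [Nat.choose_one_right]; nlinarith

theorem ch3 (n : ℕ) : 6 * n.choose 3 + 3 * (n * n) = n * n * n + 2 * n := by
  induction n with
  | zero => simp
  | succ n ih => rw [Nat.choose_succ_succ' n 2]; nlinarith [ch2 n]

theorem far {H : Finset (Set V)} (hH : Generic H) (hs : 100 ≤ s) :
    (LL s).card ≤ 5 * (symmDiff (↑(LL s) : Set (Set V)) (linesOf H)).ncard := by
  rw [coe_LH, ← coe_symmDiff, Set.ncard_coe_finset]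
  have a1 := LH_ge hH
  have a2 := inter_le (s := s) hH
  have a3 := G_le (s := s) 2
  have a4 := G2_ge (s := s)
  have a5 := ch2 (2 * s)
  rw [← card_LL] at a3 a4
  have b1 : (LL s \ LH H).card ≤ (symmDiff (LL s) (LH H)).card :=
    card_le_card fun x hx => mem_symmDiff.2 (Or.inl (mem_sdiff.1 hx))
  have b2 : (LH H \ LL s).card ≤ (symmDiff (LL s) (LH H)).card :=
    card_le_card fun x hx => mem_symmDiff.2 (Or.inr (mem_sdiff.1 hx))
  have b3 := card_sdiff_add_card_inter (LL s) (LH H)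
  have b4 := le_card_sdiff (LL s) (LH H)
  by_cases h : H.card ≤ 3 * s
  · nlinarith
  · have : H.card * H.card ≤ 2 * (LH H).card + H.card := by omega
    have b5 : (LH H).card ≤ (symmDiff (LL s) (LH H)).card + (LL s).card := by omega
    nlinarith

end Pool.Agent.H9.Joint
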