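import Pool.Agent.H9.Kagome

set_option autoImplicit false

namespace Pool.Agent.H9.Kempe

section general
variable {V W C : Type} [DecidableEq C] {G : SimpleGraph V} {H : SimpleGraph W}

theorem T_of_change {c c' : V → C} (h : KempeChange G c c') : ∃ a b, a ≠ b ∧ T G c c' a b := by
  obtain ⟨a, b, x, hab, -, h⟩ := h
  refine ⟨a, b, hab, fun v => ?_, fun u v huv hu hv hne => ?_⟩
  · by_cases r : Relation.ReflTransGen (BiAdj G c a b) x v
    · exact Or.inr ((h v).1 r)
    · exact Or.inl ((h v).2 r)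
  · have ru : Relation.ReflTransGen (BiAdj G c a b) x u := by
      by_contra r; exact hne ((h u).2 r)
    rw [(h v).1 (ru.tail ⟨huv, hu, hv⟩)]
    rcases hv with rfl | rfl
    · simpa using hab.symm
    · simpa using hab

theorem T_symm {c c' : V → C} {a b : C} (h : T G c c' a b) : T G c' c a b := by
  have e : ∀ v, (c' v = a ∨ c' v = b) → (c v = a ∨ c v = b) := fun v hv => by
    rcases h.1 v with e | e
    · rwa [e] at hv
    · rwa [e, swap_mem] at hv
  refine ⟨fun v => (h.1 v).imp Eq.symm fun e => by simp [e], fun u v huv hu hv hne => ?_⟩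
  exact (h.2 u v huv (e u hu) (e v hv) hne.symm).symm

theorem equiv_T [Fintype V] {a b : C} (hab : a ≠ b) {c c' : V → C} (h : T G c c' a b) :
    KempeEquiv G c c' := equiv_of_T hab c' _ c le_rfl h

theorem equiv_symm [Fintype V] {c c' : V → C} (h : KempeEquiv G c c') : KempeEquiv G c' c := by
  induction h with
  | refl => exact .refl
  | tail _ h ih =>
    obtain ⟨a, b, hab, hT⟩ := T_of_change h
    exact (equiv_T hab (T_symm hT)).trans ih

theorem equiv_comp [Fintype W] (φ : W → V) (hφ : ∀ u v, H.Adj u v → G.Adj (φ u) (φ v))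
    {c c' : V → C} (h : KempeEquiv G c c') : KempeEquiv H (c ∘ φ) (c' ∘ φ) := by
  induction h with
  | refl => exact .refl
  | tail _ h ih =>
    obtain ⟨a, b, hab, hT⟩ := T_of_change h
    exact ih.trans (equiv_T hab ⟨fun v => hT.1 _, fun u v huv => hT.2 _ _ (hφ u v huv)⟩)

theorem equiv_proper {c c' : V → C} (h : KempeEquiv G c c') (hc : ∀ u v, G.Adj u v → c u ≠ c v) :
    ∀ u v, G.Adj u v → c' u ≠ c' v := by
  induction h with
  | refl => exact hc
  | tail _ h ih => exact change_proper h ih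

theorem equiv_swap [Fintype V] (c : V → C) (a b : C) :
    KempeEquiv G c (fun v => Equiv.swap a b (c v)) := by
  by_cases hab : a = b
  · subst hab; simp only [Equiv.swap_self, Equiv.refl_apply]; exact .refl
  refine equiv_T hab ⟨fun v => Or.inr rfl, fun u v _ _ hv _ => ?_⟩
  rcases hv with hv | hv <;> simp [hv, hab, Ne.symm hab]

end general

def nbr (NB v : ℕ) : ℕ := (NB >>> (64 * v)) % 2 ^ 64
def gen (GE j i : ℕ) : ℕ := (GE >>> (6 * (64 * j + i))) % 64
def sw (a b x : ℕ) : ℕ := bif x == a then b else bif x == b then a else x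
def hit (NB m x v : ℕ) : Bool := !((m >>> (64 * x)) &&& nbr NB v == 0)
def word (GE s i : ℕ) : ℕ :=
  (gen GE 0)^[s % 8] ((gen GE 1)^[s / 8 % 8] ((gen GE 2)^[s / 64 % 8] ((gen GE 3)^[s / 512 % 8] i)))
def prm (s y : ℕ) : ℕ :=
  sw (s % 4) (s / 4 % 4) (sw (s / 16 % 4) (s / 64 % 4) (sw (s / 256 % 4) (s / 1024 % 4) y))

def kleaf (N NB m a b c d k S : ℕ) : Bool :=
  Nat.blt a b && Nat.blt b 4 && Nat.blt c 4 && Nat.blt d 4 && c != a && c != b && d != a &&
  d != b && Nat.blt k N && S.testBit k && S % 2 ^ k == 0 && m.testBit (64 * b + k) &&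
  (List.range N).all fun u => S.testBit u || nbr NB u &&& S == 0 || m.testBit (64 * c + u) ||
    m.testBit (64 * d + u) || (hit NB m a u && hit NB m b u)

def sleaf (N GE m w p k : ℕ) : Bool :=
  Nat.blt k N && ((List.range k).all fun i => (List.range 4).any fun y =>
    m.testBit (64 * y + word GE w i) && m.testBit (64 * prm p y + i)) &&
  (List.range 4).any fun y => m.testBit (64 * y + word GE w k) &&
    (List.range 4).any fun z => m.testBit (64 * z + k) && Nat.blt (prm p y) z

def chk (N NB GE : ℕ) (L : List ℕ) : ℕ → ℕ → ℕ → ℕ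
  | 0, _, _ => 0
  | _ + 1, _, 0 => 0
  | r + 1, m, s + 1 =>
    bif Nat.blt (s % 64) N then
      [0, 1, 2, 3].foldl (fun t x => bif hit NB m x (s % 64) then t else
        chk N NB GE L r (m ||| 2 ^ (64 * x + s % 64)) t) (s / 64)
    else bif s % 64 == 63 then
      bif kleaf N NB m (s / 64 % 4) (s / 256 % 4) (s / 1024 % 4) (s / 4096 % 4) (s / 2 ^ 14 % 64)
        (s / 2 ^ 20 % 2 ^ 50) then s / 2 ^ 70 else 0
    else bif s % 64 == 62 then
      bif sleaf N GE m (s / 64 % 4096) (s / 2 ^ 18 % 4096) (s / 2 ^ 30 % 64) then s / 2 ^ 36 else 0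
    else bif L.elem m then s / 64 else 0

def dec (N w : ℕ) (i : Fin N) : Fin 4 := ⟨w / 4 ^ i.val % 4, Nat.mod_lt _ (by decide)⟩

section search
variable {N : ℕ} (G : SimpleGraph (Fin N)) (c0 : Fin N → Fin 4)

def Pr (c : Fin N → Fin 4) : Prop := ∀ u v, G.Adj u v → c u ≠ c v
def Cons (c : Fin N → Fin 4) (m : ℕ) : Prop :=
  ∀ (x : ℕ) (v : Fin N), m.testBit (64 * x + v) = true → (c v).val = x
def Red (c : Fin N → Fin 4) : Prop :=
  KempeEquiv G c c0 ∨ ∃ c', Pr G c' ∧ toLex c' < toLex c ∧ (KempeEquiv G c' c0 → KempeEquiv G c c0)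
def Good (m : ℕ) : Prop := ∀ c, Pr G c → Cons c m → Red G c0 c
def Sym (f : ℕ → ℕ) : Prop := ∃ φ : Fin N → Fin N, (∀ i, (φ i).val = f i.val) ∧
  (∀ u v, G.Adj u v → G.Adj (φ u) (φ v)) ∧ ∀ c, KempeEquiv G (c ∘ φ) c0 → KempeEquiv G c c0

variable {G c0}

theorem all_of_good (h : Good G c0 0) (c : Fin N → Fin 4) (hc : Pr G c) : KempeEquiv G c c0 := by
  have : ∀ d : Lex (Fin N → Fin 4), Pr G (ofLex d) → KempeEquiv G (ofLex d) c0 := by
    intro d
    induction d using WellFoundedLT.induction with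
    | ind d ih =>
      intro hd
      rcases h _ hd (fun x v h => by simp at h) with h | ⟨c', h1, h2, h3⟩
      · exact h
      · exact h3 (ih (toLex c') h2 h1)
  exact this (toLex c) hc

theorem Sym.comp {f g : ℕ → ℕ} (hf : Sym G c0 f) (hg : Sym G c0 g) : Sym G c0 (f ∘ g) := by
  obtain ⟨φ, a1, a2, a3⟩ := hf
  obtain ⟨ψ, b1, b2, b3⟩ := hg
  exact ⟨φ ∘ ψ, fun i => by simp [a1, b1], fun u v h => a2 _ _ (b2 _ _ h),
    fun c h => a3 c (b3 (c ∘ φ) h)⟩

theorem Sym.iter {f : ℕ → ℕ} (hf : Sym G c0 f) : ∀ k, Sym G c0 f^[k]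
  | 0 => ⟨id, fun _ => rfl, fun _ _ h => h, fun _ h => h⟩
  | k + 1 => (Sym.iter hf k).comp hf

theorem sym_of (f : ℕ → ℕ) (hf : ∀ i : Fin N, f i < N) (o : ℕ)
    (h1 : ∀ u v, G.Adj u v → G.Adj ⟨f u, hf u⟩ ⟨f v, hf v⟩)
    (h2 : ∀ i : Fin N, (fun i : Fin N => (⟨f i, hf i⟩ : Fin N))^[o + 1] i = i)
    (h3 : KempeEquiv G (fun i => c0 ⟨f i, hf i⟩) c0) : Sym G c0 f := by
  refine ⟨fun i => ⟨f i, hf i⟩, fun _ => rfl, h1, fun c h => ?_⟩
  set φ : Fin N → Fin N := fun i => ⟨f i, hf i⟩
  have key : ∀ k, KempeEquiv G ((c ∘ φ) ∘ φ^[k]) c0 := by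
    intro k
    induction k with
    | zero => exact h
    | succ k ih => exact (equiv_comp φ h1 ih).trans h3
  have e : (c ∘ φ) ∘ φ^[o] = c := funext fun i => by
    show c (φ (φ^[o] i)) = c i
    rw [← Function.iterate_succ_apply' φ, h2]
  exact e ▸ key o

theorem sw_val (a b x : Fin 4) : (Equiv.swap a b x).val = sw a b x := by
  revert a b x; decide

variable {NB GE : ℕ} (hN : N ≤ 64) (hG : ∀ u v, G.Adj u v ↔ (nbr NB u).testBit v = true)
  (hB : ∀ u : Fin N, nbr NB u < 2 ^ N) (hS : ∀ j < 4, Sym G c0 (gen GE j))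

include hG hB in
theorem hit_sound {c : Fin N → Fin 4} {m x : ℕ} {v : Fin N} (hc : Pr G c) (hm : Cons c m)
    (h : hit NB m x v = true) : (c v).val ≠ x := by
  simp only [hit, Bool.not_eq_true', beq_eq_false_iff_ne] at h
  obtain ⟨u, hu⟩ := Nat.exists_testBit_of_ne_zero h
  rw [Nat.testBit_and, Bool.and_eq_true, Nat.testBit_shiftRight] at hu
  have hu' : u < N := by
    by_contra hn
    rw [Nat.testBit_lt_two_pow ((hB v).trans_le (Nat.pow_le_pow_right (by norm_num) (by omega)))]
      at hu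
    simp at hu
  intro e
  exact hc v ⟨u, hu'⟩ ((hG _ _).2 hu.2) (Fin.ext (e.trans (hm x ⟨u, hu'⟩ hu.1).symm))

include hG hB in
theorem kleaf_sound {m a b c d k S : ℕ} (h : kleaf N NB m a b c d k S = true) : Good G c0 m := by
  simp only [kleaf, Bool.and_eq_true, Nat.blt_eq, bne_iff_ne, beq_iff_eq, List.all_eq_true,
    List.mem_range, Bool.or_eq_true] at h
  obtain ⟨⟨⟨⟨⟨⟨⟨⟨⟨⟨⟨⟨h1, h2⟩, -⟩, -⟩, h5⟩, h6⟩, h7⟩, h8⟩, h9⟩, h10⟩, h11⟩, h12⟩, h13⟩ := h
  intro f hf hm
  let a' : Fin 4 := ⟨a, by omega⟩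
  let b' : Fin 4 := ⟨b, h2⟩
  have hab : a' ≠ b' := fun e => h1.ne (congrArg Fin.val e)
  let f' : Fin N → Fin 4 := fun v => if S.testBit v then Equiv.swap a' b' (f v) else f v
  have hT : T G f f' a' b' := by
    refine ⟨fun v => ?_, fun u v huv _ hv hne => ?_⟩
    · by_cases e : S.testBit v = true
      · exact Or.inr (if_pos e)
      · exact Or.inl (if_neg e)
    · have hu : S.testBit u = true := by by_contra e; exact hne (if_neg e)
      have hv' : (f v).val = a ∨ (f v).val = b := hv.imp (congrArg Fin.val) (congrArg Fin.val)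
      rcases h13 v v.2 with (((e | e) | e) | e) | e
      · show (if S.testBit v then _ else _) ≠ _
        rw [if_pos e]
        rcases hv with hv | hv <;> simp [hv, hab, hab.symm]
      · have := congrArg (Nat.testBit · u) e
        simp [hu, (hG _ _).1 huv.symm] at this
      · have := hm c v e; omega
      · have := hm d v e; omega
      · have e1 := hit_sound hG hB hf hm e.1
        have e2 := hit_sound hG hB hf hm e.2
        omega
  have hE := equiv_T hab hT
  refine Or.inr ⟨f', equiv_proper hE hf, ⟨⟨k, h9⟩, fun j hj => if_neg ?_, ?_⟩, hE.trans⟩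
  · have := congrArg (Nat.testBit · j) h11
    simpa [Nat.testBit_mod_two_pow, show j.val < k from hj] using this
  · have e : f ⟨k, h9⟩ = b' := Fin.ext (hm b ⟨k, h9⟩ h12)
    show (if S.testBit k then _ else _) < f ⟨k, h9⟩
    rw [if_pos h10, e, Equiv.swap_apply_right]
    exact h1

include hS in
theorem sleaf_sound {m w p k : ℕ} (h : sleaf N GE m w p k = true) : Good G c0 m := by
  simp only [sleaf, Bool.and_eq_true, Nat.blt_eq, List.all_eq_true, List.any_eq_true,
    List.mem_range] at h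
  obtain ⟨⟨h1, h2⟩, y, -, h3, z, -, h4, h5⟩ := h
  obtain ⟨φ, a1, a2, a3⟩ : Sym G c0 (word GE w) :=
    ((hS 0 (by omega)).iter _).comp (((hS 1 (by omega)).iter _).comp
      (((hS 2 (by omega)).iter _).comp ((hS 3 (by omega)).iter _)))
  intro f hf hm
  let q : ℕ → Fin 4 := fun t => ⟨p / t % 4, Nat.mod_lt _ (by decide)⟩
  let f' : Fin N → Fin 4 := fun v => Equiv.swap (q 1) (q 4) (Equiv.swap (q 16) (q 64)
    (Equiv.swap (q 256) (q 1024) (f (φ v))))
  have hv : ∀ v, (f' v).val = prm p (f (φ v)).val := fun v => by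
    simp only [f', sw_val, prm, q, Nat.div_one]
  have hE : KempeEquiv G (f ∘ φ) f' :=
    ((equiv_swap _ _ _).trans (equiv_swap _ _ _)).trans (equiv_swap _ _ _)
  refine Or.inr ⟨f', equiv_proper hE fun u v h => hf _ _ (a2 u v h), ⟨⟨k, h1⟩, fun j hj => ?_, ?_⟩,
    fun h => a3 f (hE.trans h)⟩
  · obtain ⟨y, -, e1, e2⟩ := h2 j hj
    rw [← a1] at e1
    exact Fin.ext ((hv j).trans (by rw [hm y _ e1]; exact (hm _ j e2).symm))
  · rw [← a1 ⟨k, h1⟩] at h3
    show (f' ⟨k, h1⟩).val < (f ⟨k, h1⟩).val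
    rw [hv, hm y _ h3, hm z ⟨k, h1⟩ h4]
    exact h5

theorem chk_zero (L : List ℕ) (r m : ℕ) : chk N NB GE L r m 0 = 0 := by cases r <;> rfl

include hN hG hB hS in
theorem chk_sound {L : List ℕ} (hL : ∀ m ∈ L, Good G c0 m) :
    ∀ r m s, chk N NB GE L r m s ≠ 0 → Good G c0 m
  | 0, _, _, h => absurd rfl h
  | _ + 1, _, 0, h => absurd rfl h
  | r + 1, m, s + 1, h => by
    rw [chk] at h
    by_cases c1 : Nat.blt (s % 64) N = true
    · rw [c1, cond_true] at h
      intro f hf hm
      let v : Fin N := ⟨s % 64, Nat.blt_eq ▸ c1⟩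
      have key : ∀ (l : List ℕ) (t : ℕ), l.foldl (fun t x => bif hit NB m x (s % 64) then t else
          chk N NB GE L r (m ||| 2 ^ (64 * x + s % 64)) t) t ≠ 0 →
          t ≠ 0 ∧ ((f v).val ∈ l → Red G c0 f) := by
        intro l
        induction l with
        | nil => exact fun t h => ⟨h, by simp⟩
        | cons x l ih =>
          intro t h
          obtain ⟨h1, h2⟩ := ih _ h
          dsimp only at h1
          by_cases e : hit NB m x (s % 64) = true
          · rw [e, cond_true] at h1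
            refine ⟨h1, fun hx => ?_⟩
            rcases List.mem_cons.1 hx with hx | hx
            · exact absurd hx (hit_sound hG hB (v := v) hf hm e)
            · exact h2 hx
          · rw [Bool.not_eq_true] at e
            rw [e, cond_false] at h1
            refine ⟨fun e => h1 (by rw [e]; exact chk_zero _ _ _), fun hx => ?_⟩
            rcases List.mem_cons.1 hx with hx | hx
            · refine chk_sound hL r _ _ h1 f hf fun y u hu => ?_
              rw [Nat.testBit_or, Bool.or_eq_true, Nat.testBit_two_pow, decide_eq_true_eq] at hu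
              rcases hu with hu | hu
              · exact hm y u hu
              · have := u.2
                have e1 : u = v := Fin.ext (show u.val = s % 64 by omega)
                rw [e1, hx]; omega
            · exact h2 hx
      refine (key _ _ h).2 ?_
      have := (f v).2
      simp only [List.mem_cons, List.not_mem_nil, or_false]
      omega
    · rw [Bool.not_eq_true] at c1
      rw [c1, cond_false] at h
      cases c2 : (s % 64 == 63)
      · cases c3 : (s % 64 == 62)
        · cases c4 : L.elem m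
          · simp only [c2, c3, c4, cond_false] at h; exact absurd rfl h
          · exact hL m (List.mem_of_elem_eq_true c4)
        · simp only [c2, c3, cond_false, cond_true] at h
          cases c4 : sleaf N GE m (s / 64 % 4096) (s / 2 ^ 18 % 4096) (s / 2 ^ 30 % 64)
          · rw [c4] at h; exact absurd rfl h
          · exact sleaf_sound hS c4
      · simp only [c2, cond_true] at h
        cases c4 : kleaf N NB m (s / 64 % 4) (s / 256 % 4) (s / 1024 % 4) (s / 4096 % 4)
          (s / 2 ^ 14 % 64) (s / 2 ^ 20 % 2 ^ 50)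
        · rw [c4] at h; exact absurd rfl h
        · exact kleaf_sound hG hB c4

def tchk (N NB w w' a b : ℕ) : Bool :=
  Nat.blt a b && Nat.blt b 4 && (List.range N).all fun u =>
    w' / 4 ^ u % 4 == w / 4 ^ u % 4 || (w' / 4 ^ u % 4 == sw a b (w / 4 ^ u % 4) &&
      (List.range N).all fun v => !(nbr NB u).testBit v || w' / 4 ^ v % 4 != w / 4 ^ v % 4 ||
        (w / 4 ^ v % 4 != a && w / 4 ^ v % 4 != b))

def pth (N NB w0 : ℕ) : List ℕ → ℕ → Bool
  | [], w => w == w0
  | t :: l, w => tchk N NB w (t / 16) (t % 4) (t / 4 % 4) && pth N NB w0 l (t / 16)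

include hG in
theorem pth_sound {w0 : ℕ} : ∀ (l : List ℕ) (w : ℕ), pth N NB w0 l w = true →
    KempeEquiv G (dec N w) (dec N w0)
  | [], w, h => by rw [pth, beq_iff_eq] at h; exact h ▸ .refl
  | t :: l, w, h => by
    rw [pth, Bool.and_eq_true] at h
    refine Relation.ReflTransGen.trans ?_ (pth_sound l _ h.2)
    have h := h.1
    generalize t / 16 = w' at h
    generalize t % 4 = a at h
    generalize t / 4 % 4 = b at h
    simp only [tchk, Bool.and_eq_true, Nat.blt_eq, List.all_eq_true, List.mem_range,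
      Bool.or_eq_true, beq_iff_eq, bne_iff_ne, Bool.not_eq_true'] at h
    obtain ⟨⟨h1, h2⟩, h3⟩ := h
    refine equiv_T (a := ⟨a, by omega⟩) (b := ⟨b, h2⟩) (fun e => h1.ne (congrArg Fin.val e))
      ⟨fun v => (h3 v v.2).imp Fin.ext fun e => Fin.ext (by rw [sw_val]; exact e.1),
        fun u v huv _ hv hne e => ?_⟩
    have hv' : w / 4 ^ v.val % 4 = a ∨ w / 4 ^ v.val % 4 = b :=
      hv.imp (congrArg Fin.val) (congrArg Fin.val)
    rcases ((h3 u u.2).resolve_left fun e => hne (Fin.ext e)).2 v v.2 with (e' | e') | e'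
    · rw [(hG _ _).1 huv] at e'; exact absurd e' (by decide)
    · exact e' (congrArg Fin.val e)
    · omega

def full (N NB w0 : ℕ) (p : ℕ × ℕ × List ℕ) : Bool :=
  ((List.range N).all fun i => p.1.testBit (64 * (p.2.1 / 4 ^ i % 4) + i)) && pth N NB w0 p.2.2 p.2.1

include hG in
theorem full_sound {w0 : ℕ} {p : ℕ × ℕ × List ℕ} (h : full N NB w0 p = true) :
    Good G (dec N w0) p.1 := by
  simp only [full, Bool.and_eq_true, List.all_eq_true, List.mem_range] at h
  intro c _ hm
  obtain rfl : c = dec N p.2.1 := funext fun i => Fin.ext (hm _ i (h.1 i i.2))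
  exact Or.inl (pth_sound hG _ _ h.2)

end search

end Pool.Agent.H9.Kempe
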