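import Pool.Agent.H9.KagomeDefs

set_option autoImplicit false

namespace Pool.Agent.H9.Kempe

open Finset

section general
variable {V C : Type} [DecidableEq C] {G : SimpleGraph V}

theorem swap_mem {a b x : C} : (Equiv.swap a b x = a ∨ Equiv.swap a b x = b) ↔ (x = a ∨ x = b) := by
  rw [Equiv.swap_apply_def]; split_ifs <;> simp_all [eq_comm]

theorem change_proper {c c' : V → C} (h : KempeChange G c c') (hc : ∀ u v, G.Adj u v → c u ≠ c v) :
    ∀ u v, G.Adj u v → c' u ≠ c' v := by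
  obtain ⟨a, b, x, hab, hx, h⟩ := h
  have hm : ∀ u, Relation.ReflTransGen (BiAdj G c a b) x u → c u = a ∨ c u = b := by
    intro u hu
    cases hu with
    | refl => exact hx
    | tail _ h => exact h.2.2
  have key : ∀ u v, G.Adj u v → Relation.ReflTransGen (BiAdj G c a b) x u →
      ¬ Relation.ReflTransGen (BiAdj G c a b) x v → c' u ≠ c' v := by
    intro u v huv ru rv e
    rw [(h u).1 ru, (h v).2 rv] at e
    exact rv (ru.tail ⟨huv, hm u ru, e ▸ swap_mem.2 (hm u ru)⟩)
  intro u v huv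
  by_cases ru : Relation.ReflTransGen (BiAdj G c a b) x u <;>
    by_cases rv : Relation.ReflTransGen (BiAdj G c a b) x v
  · rw [(h u).1 ru, (h v).1 rv]; exact (Equiv.swap a b).injective.ne (hc u v huv)
  · exact key u v huv ru rv
  · exact (key v u huv.symm rv ru).symm
  · rw [(h u).2 ru, (h v).2 rv]; exact hc u v huv

def T (G : SimpleGraph V) (c c' : V → C) (a b : C) : Prop :=
  (∀ v, c' v = c v ∨ c' v = Equiv.swap a b (c v)) ∧
    ∀ u v, G.Adj u v → (c u = a ∨ c u = b) → (c v = a ∨ c v = b) → c' u ≠ c u → c' v ≠ c v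

theorem equiv_of_T [Fintype V] {a b : C} (hab : a ≠ b) (c' : V → C) :
    ∀ (k : ℕ) (c : V → C), (univ.filter fun v => c' v ≠ c v).card ≤ k → T G c c' a b →
      KempeEquiv G c c' := by
  classical
  intro k
  induction k with
  | zero =>
    intro c hk _
    obtain rfl : c' = c := funext fun v => by
      by_contra hv
      have : 0 < (univ.filter fun v => c' v ≠ c v).card :=
        card_pos.2 ⟨v, mem_filter.2 ⟨mem_univ _, hv⟩⟩
      omega
    exact .refl
  | succ k ih =>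
    intro c hk hT
    by_cases he : c' = c
    · exact he ▸ .refl
    obtain ⟨x, hx⟩ := Function.ne_iff.1 he
    have hab' : ∀ v, c' v ≠ c v → c v = a ∨ c v = b := fun v hv => by
      by_contra hn
      push Not at hn
      exact hv (((hT.1 v).resolve_left hv).trans (Equiv.swap_apply_of_ne_of_ne hn.1 hn.2))
    have hS : ∀ v, Relation.ReflTransGen (BiAdj G c a b) x v → c' v ≠ c v := by
      intro v hv
      induction hv with
      | refl => exact hx
      | tail _ h ih => exact hT.2 _ _ h.1 h.2.1 h.2.2 ih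
    let c1 : V → C := fun v =>
      if Relation.ReflTransGen (BiAdj G c a b) x v then Equiv.swap a b (c v) else c v
    have h1 : ∀ v, Relation.ReflTransGen (BiAdj G c a b) x v → c1 v = c' v := fun v hv =>
      (if_pos hv).trans ((hT.1 v).resolve_left (hS v hv)).symm
    have h2 : ∀ v, ¬ Relation.ReflTransGen (BiAdj G c a b) x v → c1 v = c v := fun v hv =>
      if_neg hv
    refine .head ⟨a, b, x, hab, hab' x hx, fun v => ⟨fun hv => if_pos hv, h2 v⟩⟩ (ih c1 ?_ ⟨?_, ?_⟩)
    · have : (univ.filter fun v => c' v ≠ c1 v) ⊂ (univ.filter fun v => c' v ≠ c v) := by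
        refine ⟨fun v hv => ?_, fun h => ?_⟩
        · simp only [mem_filter, mem_univ, true_and] at hv ⊢
          by_cases r : Relation.ReflTransGen (BiAdj G c a b) x v
          · exact hS v r
          · rwa [h2 v r] at hv
        · exact (mem_filter.1 (h (mem_filter.2 ⟨mem_univ x, hx⟩))).2 (h1 x .refl).symm
      have := card_lt_card this
      omega
    · intro v
      by_cases r : Relation.ReflTransGen (BiAdj G c a b) x v
      · exact Or.inl (h1 v r).symm
      · rw [h2 v r]; exact hT.1 v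
    · intro u v huv hu hv hne
      have ru : ¬ Relation.ReflTransGen (BiAdj G c a b) x u := fun r => hne (h1 u r).symm
      rw [h2 u ru] at hu hne
      have rv : ¬ Relation.ReflTransGen (BiAdj G c a b) x v := fun r =>
        ru (r.tail ⟨huv.symm, hab' v (hS v r), hu⟩)
      rw [h2 v rv] at hv ⊢
      exact hT.2 u v huv hu hv hne

end general

def hh (f : Fin 3 → Fin 3) : ZMod 4 := if ∀ t, f t ≠ t then 1 else 0

def psi (a b t col : Fin 3) (s : Bool) : ZMod 4 :=
  if s then (if col = a then 2 else 0) - (if Equiv.swap a b col ≠ t then 1 else 0) +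
    (if col ≠ t then 1 else 0) else 0

theorem loc : ∀ a b : Fin 3, a ≠ b → ∀ f : Fin 3 → Fin 3, (∀ t t', t ≠ t' → f t ≠ f t') →
    ∀ s : Fin 3 → Bool,
    (∀ t t', t ≠ t' → (f t = a ∨ f t = b) → (f t' = a ∨ f t' = b) → s t = true → s t' = true) →
    hh (fun t => if s t then Equiv.swap a b (f t) else f t) = hh f + ∑ t, psi a b t (f t) (s t) := by
  decide +kernel

def J (n : ℕ) [NeZero n] (c : (ZMod n × ZMod n) × Fin 3 → Fin 3) : ZMod 4 :=
  ∑ x, hh (fun t => c (x, t)) - ∑ y, hh (fun t => c (y + dir n t, t))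

theorem J_change (n : ℕ) [NeZero n] {c c' : (ZMod n × ZMod n) × Fin 3 → Fin 3}
    (h : KempeChange (kagome n) c c') (hc : ∀ u v, (kagome n).Adj u v → c u ≠ c v) :
    J n c' = J n c := by
  classical
  obtain ⟨a, b, x0, hab, -, h⟩ := h
  let s : (ZMod n × ZMod n) × Fin 3 → Bool := fun v =>
    decide (Relation.ReflTransGen (BiAdj (kagome n) c a b) x0 v)
  have e : ∀ v, c' v = if s v then Equiv.swap a b (c v) else c v := fun v => by
    by_cases r : Relation.ReflTransGen (BiAdj (kagome n) c a b) x0 v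
    · rw [(h v).1 r, if_pos (by simpa [s] using r)]
    · rw [(h v).2 r, if_neg (by simpa [s] using r)]
  have key : ∀ g : Fin 3 → (ZMod n × ZMod n) × Fin 3, (∀ t t', t ≠ t' → (kagome n).Adj (g t) (g t')) →
      hh (fun t => c' (g t)) = hh (fun t => c (g t)) + ∑ t, psi a b t (c (g t)) (s (g t)) := by
    intro g hg
    simp only [e]
    refine loc a b hab _ (fun t t' ht => hc _ _ (hg t t' ht)) _ fun t t' ht h1 h2 h3 => ?_
    simp only [s, decide_eq_true_eq] at h3 ⊢
    exact h3.tail ⟨hg t t' ht, h1, h2⟩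
  have kA : ∀ x, hh (fun t => c' (x, t)) = _ := fun x =>
    key (fun t => (x, t)) fun t t' ht => ⟨fun e => ht (congrArg Prod.snd e), Or.inl rfl⟩
  have kB : ∀ y, hh (fun t => c' (y + dir n t, t)) = _ := fun y =>
    key (fun t => (y + dir n t, t)) fun t t' ht =>
      ⟨fun e => ht (congrArg Prod.snd e), Or.inr (by simp)⟩
  have hs : ∑ y, ∑ t, psi a b t (c (y + dir n t, t)) (s (y + dir n t, t)) =
      ∑ x, ∑ t, psi a b t (c (x, t)) (s (x, t)) := by
    rw [sum_comm, sum_comm (f := fun x t => psi a b t (c (x, t)) (s (x, t)))]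
    exact sum_congr rfl fun t _ =>
      Equiv.sum_comp (Equiv.addRight (dir n t)) fun x => psi a b t (c (x, t)) (s (x, t))
  unfold J
  simp only [kA, kB, sum_add_distrib, hs]
  ring

theorem J_equiv (n : ℕ) [NeZero n] {c c' : (ZMod n × ZMod n) × Fin 3 → Fin 3}
    (h : KempeEquiv (kagome n) c c') (hc : ∀ u v, (kagome n).Adj u v → c u ≠ c v) :
    (∀ u v, (kagome n).Adj u v → c' u ≠ c' v) ∧ J n c' = J n c := by
  induction h with
  | refl => exact ⟨hc, rfl⟩
  | tail _ h ih => exact ⟨change_proper h ih.1, (J_change n h ih.1).trans ih.2⟩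

theorem proper_of (n : ℕ) (c : (ZMod n × ZMod n) × Fin 3 → Fin 3)
    (hA : ∀ x t t', t ≠ t' → c (x, t) ≠ c (x, t'))
    (hB : ∀ y t t', t ≠ t' → c (y + dir n t, t) ≠ c (y + dir n t', t')) :
    ∀ u v, (kagome n).Adj u v → c u ≠ c v := by
  rintro ⟨x, t⟩ ⟨x', t'⟩ ⟨hne, h⟩
  have ht : t ≠ t' := by
    rintro rfl
    exact hne (Prod.ext (h.elim id sub_left_inj.1) rfl)
  rcases h with h | h
  · obtain rfl : x = x' := h
    exact hA x t t' ht
  · have := hB (x - dir n t) t t' ht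
    rwa [sub_add_cancel, show x - dir n t = x' - dir n t' from h, sub_add_cancel] at this

def col (n i j : ℕ) : Fin 3 → Fin 3 :=
  if j + 1 = n then (if i = 0 then ![1, 2, 0] else if i + 2 = n then ![2, 0, 1] else ![1, 0, 2])
  else if i + 1 = n then (if j + 2 = n then ![1, 2, 0] else ![2, 1, 0])
  else if i + j + 2 = n then (if i = 0 then ![2, 0, 1] else ![0, 2, 1])
  else ![0, 1, 2]

def nx (n i : ℕ) : ℕ := if i + 1 = n then 0 else i + 1

theorem val_succ (m : ℕ) (x : ZMod (m + 3)) : (x + 1).val = nx (m + 3) x.val := by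
  have h1 : (1 : ZMod (m + 3)).val = 1 := ZMod.val_one'' (by omega)
  have := ZMod.val_lt x
  rw [ZMod.val_add, h1, nx]
  split_ifs with h
  · rw [h, Nat.mod_self]
  · exact Nat.mod_eq_of_lt (by omega)

def ind (i j p q : ℕ) : ZMod 4 := if i = p ∧ j = q then 1 else 0

theorem colA (m i j : ℕ) : (∀ t t', t ≠ t' → col (m + 3) i j t ≠ col (m + 3) i j t') ∧
    hh (col (m + 3) i j) =
      ind i j 0 (m + 1) + ind i j 0 (m + 2) + ind i j (m + 1) (m + 2) + ind i j (m + 2) (m + 1) := by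
  unfold col ind
  split_ifs <;> first | omega | decide

def colB (n i j : ℕ) : Fin 3 → Fin 3 := ![col n i j 0, col n (nx n i) j 1, col n i (nx n j) 2]

theorem colB_spec (m i j : ℕ) (hi : i < m + 3) (hj : j < m + 3) :
    (∀ t t', t ≠ t' → colB (m + 3) i j t ≠ colB (m + 3) i j t') ∧
    hh (colB (m + 3) i j) = ind i j (m + 1) (m + 2) + ind i j (m + 2) (m + 2) := by
  have hn : ∀ k, (k + 1 = m + 3 ∧ nx (m + 3) k = 0) ∨ (k + 1 ≠ m + 3 ∧ nx (m + 3) k = k + 1) :=
    fun k => by unfold nx; split_ifs <;> omega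
  have h1 := hn i
  have h2 := hn j
  unfold colB
  generalize nx (m + 3) i = i' at *
  generalize nx (m + 3) j = j' at *
  unfold col ind
  split_ifs <;> first | omega | decide

theorem sum_ind (m p q : ℕ) (hp : p < m + 3) (hq : q < m + 3) :
    ∑ x : ZMod (m + 3) × ZMod (m + 3), ind x.1.val x.2.val p q = 1 := by
  rw [sum_eq_single ((p : ZMod (m + 3)), (q : ZMod (m + 3)))]
  · simp [ind, ZMod.val_cast_of_lt hp, ZMod.val_cast_of_lt hq]
  · rintro ⟨x, y⟩ - h
    refine if_neg fun e => h ?_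
    simp [← e.1, ← e.2]
  · simp

def odd (n : ℕ) (e : (ZMod n × ZMod n) × Fin 3) : Fin 3 := col n e.1.1.val e.1.2.val e.2

theorem oddB (m : ℕ) (y : ZMod (m + 3) × ZMod (m + 3)) :
    (fun t => odd (m + 3) (y + dir (m + 3) t, t)) = colB (m + 3) y.1.val y.2.val := by
  funext t
  fin_cases t <;> simp [odd, dir, colB, val_succ]

theorem not_ergodic (m : ℕ) : ∃ c c' : (kagome (m + 3)).Coloring (Fin 3),
    ¬ KempeEquiv (kagome (m + 3)) c c' := by
  have p0 := proper_of (m + 3) Prod.snd (fun _ _ _ h => h) (fun _ _ _ h => h)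
  have p1 := proper_of (m + 3) (odd (m + 3)) (fun x => (colA m x.1.val x.2.val).1) fun y t t' h => by
    have := (colB_spec m _ _ (ZMod.val_lt y.1) (ZMod.val_lt y.2)).1 t t' h
    rwa [← oddB] at this
  refine ⟨.mk _ fun {u v} => p0 u v, .mk _ fun {u v} => p1 u v, fun h => ?_⟩
  have e : J (m + 3) (odd (m + 3)) = J (m + 3) Prod.snd := (J_equiv _ h p0).2
  have e0 : J (m + 3) Prod.snd = 0 := sub_self _
  have eA : ∀ x : ZMod (m + 3) × ZMod (m + 3), hh (fun t => odd (m + 3) (x, t)) = _ :=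
    fun x => (colA m x.1.val x.2.val).2
  rw [e0] at e
  unfold J at e
  simp only [eA, oddB, fun y : ZMod (m + 3) × ZMod (m + 3) =>
    (colB_spec m _ _ (ZMod.val_lt y.1) (ZMod.val_lt y.2)).2, sum_add_distrib] at e
  rw [sum_ind m 0 (m + 1) (by omega) (by omega), sum_ind m 0 (m + 2) (by omega) (by omega),
    sum_ind m (m + 1) (m + 2) (by omega) (by omega), sum_ind m (m + 2) (m + 1) (by omega) (by omega),
    sum_ind m (m + 2) (m + 2) (by omega) (by omega)] at e
  exact absurd e (by decide)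

instance : DecidableRel (kagome 2).Adj := fun e f =>
  inferInstanceAs (Decidable (e ≠ f ∧ (e.1 = f.1 ∨ e.1 - dir 2 e.2 = f.1 - dir 2 f.2)))

instance (c c' : (ZMod 2 × ZMod 2) × Fin 3 → Fin 3) (a b : Fin 3) :
    Decidable (T (kagome 2) c c' a b) := by unfold T; infer_instance

def T3 (c c' : (ZMod 2 × ZMod 2) × Fin 3 → Fin 3) : Prop :=
  T (kagome 2) c c' 0 1 ∨ T (kagome 2) c c' 0 2 ∨ T (kagome 2) c c' 1 2

instance (c c' : (ZMod 2 × ZMod 2) × Fin 3 → Fin 3) : Decidable (T3 c c') := by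
  unfold T3; infer_instance

theorem T3_equiv {c c' : (ZMod 2 × ZMod 2) × Fin 3 → Fin 3} (h : T3 c c') :
    KempeEquiv (kagome 2) c c' := by
  rcases h with h | h | h <;> exact equiv_of_T (by decide) _ _ _ le_rfl h

def P6 : List (Fin 3 → Fin 3) :=
  [![0, 1, 2], ![0, 2, 1], ![1, 0, 2], ![1, 2, 0], ![2, 0, 1], ![2, 1, 0]]

def mk4 (p q r s : Fin 3 → Fin 3) (e : (ZMod 2 × ZMod 2) × Fin 3) : Fin 3 :=
  (if e.1.1 = 0 then (if e.1.2 = 0 then p else q) else (if e.1.2 = 0 then r else s)) e.2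

theorem memP6 : ∀ f : Fin 3 → Fin 3, (∀ t t', t ≠ t' → f t ≠ f t') → f ∈ P6 := by decide +kernel

theorem fin2 : ∀ p ∈ P6, ∀ q ∈ P6, p 0 ≠ q 2 → p 2 ≠ q 0 → ∀ r ∈ P6, p 0 ≠ r 1 → p 1 ≠ r 0 →
    ∀ s ∈ P6, (∀ u v, (kagome 2).Adj u v → mk4 p q r s u ≠ mk4 p q r s v) →
    ∃ f ∈ P6, T3 (mk4 p q r s) (fun e => f e.2) ∧ T3 (fun e => f e.2) (mk4 p q r s) := by
  decide +kernel

theorem fin2' : ∀ f ∈ P6, ∀ f' ∈ P6, ∃ g ∈ P6, T3 (fun e => f e.2) (fun e => g e.2) ∧
    T3 (fun e => g e.2) (fun e => f' e.2) := by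
  decide +kernel

theorem ergodic2 (c c' : (kagome 2).Coloring (Fin 3)) : KempeEquiv (kagome 2) c c' := by
  have key : ∀ c : (kagome 2).Coloring (Fin 3), ∃ f ∈ P6, T3 c (fun e => f e.2) ∧
      T3 (fun e => f e.2) c := by
    intro c
    have e : mk4 (fun t => c ((0, 0), t)) (fun t => c ((0, 1), t)) (fun t => c ((1, 0), t))
        (fun t => c ((1, 1), t)) = c := by
      funext ⟨⟨x, y⟩, t⟩
      fin_cases x <;> fin_cases y <;> rfl
    have m : ∀ x, (fun t => c (x, t)) ∈ P6 := fun x => memP6 _ fun t t' h =>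
      c.valid ⟨fun e => h (congrArg Prod.snd e), Or.inl rfl⟩
    have := fin2 _ (m (0, 0)) _ (m (0, 1)) (c.valid (by decide)) (c.valid (by decide)) _ (m (1, 0))
      (c.valid (by decide)) (c.valid (by decide)) _ (m (1, 1))
      (by rw [e]; exact fun u v h => c.valid h)
    rwa [e] at this
  obtain ⟨f, hf, h1, -⟩ := key c
  obtain ⟨f', hf', -, h2⟩ := key c'
  obtain ⟨g, -, h3, h4⟩ := fin2' f hf f' hf'
  exact (((T3_equiv h1).trans (T3_equiv h3)).trans (T3_equiv h4)).trans (T3_equiv h2)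

theorem kag_main (n : ℕ) (hn : 2 ≤ n) :
    (∀ c c' : (kagome n).Coloring (Fin 3), KempeEquiv (kagome n) c c') ↔ n = 2 := by
  refine ⟨fun h => ?_, fun h => h ▸ ergodic2⟩
  by_contra hne
  obtain ⟨m, rfl⟩ : ∃ m, n = m + 3 := ⟨n - 3, by omega⟩
  obtain ⟨c, c', hc⟩ := not_ergodic m
  exact hc (h c c')

end Pool.Agent.H9.Kempe
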