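import Pool.Agent.H9.KempeDefs

set_option autoImplicit false

namespace Pool.Agent.H9.Kempe

/-- The three displacements `0, e₁, e₂`. -/
def dir (n : ℕ) : Fin 3 → ZMod n × ZMod n := ![(0, 0), (1, 0), (0, 1)]

/-- The periodic kagome lattice: the vertex `(x, t)` is the honeycomb edge joining `(x, A)` to
`(x - dir t, B)`; two distinct such edges are adjacent when they share an end. -/
def kagome (n : ℕ) : SimpleGraph ((ZMod n × ZMod n) × Fin 3) where
  Adj e f := e ≠ f ∧ (e.1 = f.1 ∨ e.1 - dir n e.2 = f.1 - dir n f.2)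
  symm := ⟨fun _ _ h => ⟨h.1.symm, h.2.imp Eq.symm Eq.symm⟩⟩
  loopless := ⟨fun _ h => h.1 rfl⟩

end Pool.Agent.H9.Kempe
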