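import Pool.Agent.H9.KempeDefs

set_option autoImplicit false

namespace Pool.Agent.H9.Kempe

theorem frozen {V C : Type} [DecidableEq C] (G : SimpleGraph V) (c0 : V → C)
    (hc : ∀ a b, a ≠ b → ∀ x v, (c0 x = a ∨ c0 x = b) → (c0 v = a ∨ c0 v = b) →
      Relation.ReflTransGen (BiAdj G c0 a b) x v) {c : V → C} (h : KempeEquiv G c0 c) :
    ∃ π : Equiv.Perm C, ∀ v, c v = π (c0 v) := by
  induction h with
  | refl => exact ⟨Equiv.refl _, fun _ => rfl⟩
  | @tail c c' _ hs ih =>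
    obtain ⟨π, hπ⟩ := ih
    obtain ⟨a, b, x, hab, hx, h⟩ := hs
    have e : ∀ v t, c v = t ↔ c0 v = π.symm t := fun v t => by rw [hπ, Equiv.eq_symm_apply]
    have e2 : BiAdj G c a b = BiAdj G c0 (π.symm a) (π.symm b) := by
      funext y z; simp only [BiAdj, e]
    refine ⟨π.trans (Equiv.swap a b), fun v => ?_⟩
    rw [Equiv.trans_apply, ← hπ]
    by_cases r : Relation.ReflTransGen (BiAdj G c a b) x v
    · exact (h v).1 r
    · rw [(h v).2 r]
      by_cases hv : c v = a ∨ c v = b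
      · exact absurd (e2 ▸ hc _ _ (π.symm.injective.ne hab) x v (by rwa [← e, ← e])
          (by rwa [← e, ← e])) r
      · push Not at hv
        rw [Equiv.swap_apply_of_ne_of_ne hv.1 hv.2]

def w {m : ℕ} (j j' : Fin m) : ℤ := 3 * ((j.val + 1) * (j'.val + 1)) + 1

theorem w_comm {m : ℕ} (j j' : Fin m) : w j j' = w j' j := by unfold w; ring

def G (m N : ℕ) : SimpleGraph (Fin m × ZMod N) where
  Adj u v := u.1 ≠ v.1 ∧ ∃ s : ℤ, (s = 1 ∨ s = -1) ∧ v.2 = u.2 + ((s * w u.1 v.1 : ℤ) : ZMod N)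
  symm := ⟨by
    rintro u v ⟨h, s, hs, e⟩
    refine ⟨h.symm, -s, by omega, ?_⟩
    rw [e, w_comm v.1]; push_cast; ring⟩
  loopless := ⟨fun _ h => h.1 rfl⟩

theorem noC4 (m N : ℕ) (hN : 12 * m ^ 2 + 4 < N) (v0 v1 v2 v3 : Fin m × ZMod N)
    (h0 : (G m N).Adj v0 v1) (h1 : (G m N).Adj v1 v2) (h2 : (G m N).Adj v2 v3)
    (h3 : (G m N).Adj v3 v0) : v0 = v2 ∨ v1 = v3 := by
  obtain ⟨j0, x0⟩ := v0
  obtain ⟨j1, x1⟩ := v1
  obtain ⟨j2, x2⟩ := v2
  obtain ⟨j3, x3⟩ := v3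
  obtain ⟨-, s0, a0, e0⟩ := h0
  obtain ⟨-, s1, a1, e1⟩ := h1
  obtain ⟨-, s2, a2, e2⟩ := h2
  obtain ⟨-, s3, a3, e3⟩ := h3
  dsimp only at e0 e1 e2 e3
  have hS : ((s0 * w j0 j1 + s1 * w j1 j2 + s2 * w j2 j3 + s3 * w j3 j0 : ℤ) : ZMod N) = 0 := by
    push_cast at *
    linear_combination -e0 - e1 - e2 - e3
  rw [ZMod.intCast_zmod_eq_zero_iff_dvd] at hS
  have hb : ∀ j j' : Fin m, 0 < w j j' ∧ w j j' ≤ 3 * (m : ℤ) ^ 2 + 1 := by
    intro j j'
    have b1 : (j.val : ℤ) + 1 ≤ m := by have := j.2; omega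
    have b2 : (j'.val : ℤ) + 1 ≤ m := by have := j'.2; omega
    unfold w
    constructor
    · positivity
    · have : ((j.val : ℤ) + 1) * (j'.val + 1) ≤ m * m :=
        mul_le_mul b1 b2 (by positivity) (by positivity)
      nlinarith
  have hN' : 12 * (m : ℤ) ^ 2 + 4 < N := by exact_mod_cast hN
  have b0 := hb j0 j1
  have b1 := hb j1 j2
  have b2 := hb j2 j3
  have b3 := hb j3 j0
  have hz : s0 * w j0 j1 + s1 * w j1 j2 + s2 * w j2 j3 + s3 * w j3 j0 = 0 := by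
    refine Int.eq_zero_of_abs_lt_dvd hS ?_
    rw [abs_lt]
    rcases a0 with rfl | rfl <;> rcases a1 with rfl | rfl <;> rcases a2 with rfl | rfl <;>
      rcases a3 with rfl | rfl <;> constructor <;> linarith [b0.1, b1.1, b2.1, b3.1]
  have L : s0 + s1 = 0 → j0 = j2 → (j0, x0) = (j2, x2) := by
    rintro hs rfl
    obtain rfl : s1 = -s0 := by omega
    rw [e1, e0, w_comm j1]; push_cast; simp
  have R : s1 + s2 = 0 → j1 = j3 → (j1, x1) = (j3, x3) := by
    rintro hs rfl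
    obtain rfl : s2 = -s1 := by omega
    rw [e2, e1, w_comm j2]; push_cast; simp
  have f : ∀ i j : Fin m, (i.val : ℤ) - j.val = 0 → i = j := fun i j h => Fin.ext (by omega)
  have c1 : ((j0.val : ℤ) - j2.val) * ((j1.val : ℤ) - j3.val) = 0 → s0 + s1 = 0 → s1 + s2 = 0 →
      (j0, x0) = (j2, x2) ∨ (j1, x1) = (j3, x3) := fun h p q =>
    (mul_eq_zero.1 h).imp (fun h => L p (f _ _ h)) (fun h => R q (f _ _ h))
  have c2 : ((j0.val : ℤ) - j2.val) * ((j1.val : ℤ) + j3.val + 2) = 0 → s0 + s1 = 0 →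
      (j0, x0) = (j2, x2) ∨ (j1, x1) = (j3, x3) := fun h p =>
    Or.inl (L p (f _ _ ((mul_eq_zero.1 h).resolve_right (by omega))))
  have c3 : ((j1.val : ℤ) - j3.val) * ((j0.val : ℤ) + j2.val + 2) = 0 → s1 + s2 = 0 →
      (j0, x0) = (j2, x2) ∨ (j1, x1) = (j3, x3) := fun h p =>
    Or.inr (R p (f _ _ ((mul_eq_zero.1 h).resolve_right (by omega))))
  unfold w at hz
  rcases a0 with rfl | rfl <;> rcases a1 with rfl | rfl <;> rcases a2 with rfl | rfl <;>
    rcases a3 with rfl | rfl <;>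
    first
    | omega
    | exact c1 (by linarith) (by norm_num) (by norm_num)
    | exact c2 (by linarith) (by norm_num)
    | exact c3 (by linarith) (by norm_num)

theorem conn (m t : ℕ) (a b : Fin m) (hab : a ≠ b) (x v : Fin m × ZMod (3 ^ t))
    (hx : x.1 = a ∨ x.1 = b) (hv : v.1 = a ∨ v.1 = b) :
    Relation.ReflTransGen (BiAdj (G m (3 ^ t)) Prod.fst a b) x v := by
  have one : ∀ p q : Fin m, p ≠ q → (p = a ∨ p = b) → (q = a ∨ q = b) → ∀ y : ZMod (3 ^ t),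
      BiAdj (G m (3 ^ t)) Prod.fst a b (p, y) (q, y + (w p q : ℤ)) :=
    fun p q h hp hq y => ⟨⟨h, 1, Or.inl rfl, by simp⟩, hp, hq⟩
  have same : ∀ p q : Fin m, p ≠ q → (p = a ∨ p = b) → (q = a ∨ q = b) → ∀ y y' : ZMod (3 ^ t),
      Relation.ReflTransGen (BiAdj (G m (3 ^ t)) Prod.fst a b) (p, y) (p, y') := by
    intro p q h hp hq y y'
    have it : ∀ n : ℕ, Relation.ReflTransGen (BiAdj (G m (3 ^ t)) Prod.fst a b) (p, y)
        (p, y + n * ((2 * w p q : ℤ) : ZMod (3 ^ t))) := by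
      intro n
      induction n with
      | zero => simpa using Relation.ReflTransGen.refl
      | succ n ih =>
        have := (ih.tail (one p q h hp hq _)).tail (one q p h.symm hq hp _)
        convert this using 2
        rw [w_comm q]; push_cast; ring
    have hu : IsUnit ((2 * w p q : ℤ) : ZMod (3 ^ t)) := by
      rw [ZMod.coe_int_isUnit_iff_isCoprime]
      push_cast
      refine IsCoprime.pow_left ?_
      exact ⟨1 + 2 * ((p.val + 1) * (q.val + 1)), -1, by unfold w; ring⟩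
    obtain ⟨u, hu⟩ := hu
    have := it ((y' - y) * ((u⁻¹ : (ZMod (3 ^ t))ˣ) : ZMod (3 ^ t))).val
    rw [ZMod.natCast_zmod_val, ← hu, mul_assoc, Units.inv_mul] at this
    simpa using this
  obtain ⟨p, y⟩ := x
  obtain ⟨q, y'⟩ := v
  by_cases h : p = q
  · subst h
    rcases hx with hx | hx
    · exact same p b (fun e => hab (hx.symm.trans e)) hv (Or.inr rfl) y y'
    · exact same p a (fun e => hab (e.symm.trans hx)) hv (Or.inl rfl) y y'
  · exact .head (one p q h hx hv y) (same q p (Ne.symm h) hv hx _ _)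

theorem col3 (m t : ℕ) (u v : Fin m × ZMod (3 ^ (t + 1))) (h : (G m (3 ^ (t + 1))).Adj u v) :
    ZMod.castHom (Dvd.intro_left (3 ^ t) (pow_succ 3 t).symm) (ZMod 3) u.2 ≠
      ZMod.castHom (Dvd.intro_left (3 ^ t) (pow_succ 3 t).symm) (ZMod 3) v.2 := by
  obtain ⟨-, s, hs, e⟩ := h
  rw [e, map_add, map_intCast]
  have h3 : (3 : ZMod 3) = 0 := rfl
  unfold w
  rcases hs with rfl | rfl <;> push_cast <;> rw [h3] <;> simp

theorem main (c : ℕ) : ∃ (V : Type) (_ : Fintype V) (H : SimpleGraph V),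
    (SimpleGraph.cycleGraph 4).Free H ∧ H.Colorable 3 ∧
      ∃ α β : H.Coloring (Fin (3 + c)), ¬ KempeEquiv H α β := by
  let m := 3 + c
  let t := 12 * m ^ 2 + 4
  let f : ZMod (3 ^ (t + 1)) →+* ZMod 3 :=
    ZMod.castHom (Dvd.intro_left (3 ^ t) (pow_succ 3 t).symm) (ZMod 3)
  let γ : (G m (3 ^ (t + 1))).Coloring (Fin 3) :=
    SimpleGraph.Coloring.mk (fun u => (f u.2 : Fin 3)) fun {u v} h => col3 m t u v h
  refine ⟨Fin m × ZMod (3 ^ (t + 1)), inferInstance, G m (3 ^ (t + 1)), ?_, ⟨γ⟩,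
    SimpleGraph.Coloring.mk Prod.fst fun {u v} h => h.1,
    SimpleGraph.Coloring.mk (fun u => Fin.castAdd c (γ u)) fun {u v} h e =>
      γ.valid h (Fin.castAdd_injective _ _ e), fun h => ?_⟩
  · rintro ⟨φ⟩
    have hN : 12 * m ^ 2 + 4 < 3 ^ (t + 1) :=
      (Nat.lt_succ_self t).trans (Nat.lt_pow_self (by norm_num))
    rcases noC4 m _ hN (φ 0) (φ 1) (φ 2) (φ 3) (φ.toHom.map_adj (by decide))
      (φ.toHom.map_adj (by decide)) (φ.toHom.map_adj (by decide))
      (φ.toHom.map_adj (by decide)) with h | h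
    · exact absurd (φ.injective h) (by decide)
    · exact absurd (φ.injective h) (by decide)
  · obtain ⟨π, hπ⟩ := frozen (G m (3 ^ (t + 1))) Prod.fst
      (fun a b hab x v hx hv => conn m (t + 1) a b hab x v hx hv) h
    have e := (hπ (⟨0, by omega⟩, 0)).trans (hπ (⟨0, by omega⟩, 1)).symm
    have e' : f 0 = f 1 := Fin.castAdd_injective _ _ e
    rw [map_zero, map_one] at e'
    exact absurd e' (by decide)

end Pool.Agent.H9.Kempe
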