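import Mathlib

set_option autoImplicit false

namespace Pool.Agent.H9.Kempe

/-- `y` and `z` are adjacent and both are coloured `a` or `b`. -/
def BiAdj {V C : Type} (G : SimpleGraph V) (c : V → C) (a b : C) (y z : V) : Prop :=
  G.Adj y z ∧ (c y = a ∨ c y = b) ∧ (c z = a ∨ c z = b)

/-- `c'` arises from `c` by exchanging two colours `a ≠ b` on one Kempe chain. -/
def KempeChange {V C : Type} [DecidableEq C] (G : SimpleGraph V) (c c' : V → C) : Prop :=
  ∃ (a b : C) (x : V), a ≠ b ∧ (c x = a ∨ c x = b) ∧ ∀ v,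
    (Relation.ReflTransGen (BiAdj G c a b) x v → c' v = Equiv.swap a b (c v)) ∧
    (¬ Relation.ReflTransGen (BiAdj G c a b) x v → c' v = c v)

/-- Kempe equivalence: a finite sequence of Kempe changes. -/
def KempeEquiv {V C : Type} [DecidableEq C] (G : SimpleGraph V) (c c' : V → C) : Prop :=
  Relation.ReflTransGen (KempeChange G) c c'

end Pool.Agent.H9.Kempe
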