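import Mathlib

set_option autoImplicit false

namespace Pool.Agent.H9.OddCyc

variable {V : Type} (G : SimpleGraph V)

def OW (n : ℕ) (f : ℕ → V) : Prop := n % 2 = 1 ∧ f n = f 0 ∧ ∀ i < n, G.Adj (f i) (f (i + 1))

theorem ex_min (h : ¬ G.Colorable 2) : ∃ n f, OW G n f ∧ ∀ m g, OW G m g → n ≤ m := by
  classical
  rw [SimpleGraph.two_colorable_iff_forall_loop_even] at h
  push Not at h
  obtain ⟨u, w, hw⟩ := h
  have e : ∃ n, ∃ f, OW G n f := ⟨w.length, w.getVert, Nat.not_even_iff.1 hw, by simp,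
    fun i hi => w.adj_getVert_succ hi⟩
  obtain ⟨f, hf⟩ := Nat.find_spec e
  exact ⟨_, f, hf, fun m g hg => Nat.find_min' e ⟨g, hg⟩⟩

variable {G}

theorem chord {n : ℕ} {f : ℕ → V} (h : OW G n f) (hm : ∀ m g, OW G m g → n ≤ m) {i j : ℕ}
    (hij : i < j) (hj : j < n) (a : G.Adj (f i) (f j)) : j = i + 1 ∨ (i = 0 ∧ j + 1 = n) := by
  obtain ⟨h1, h2, h3⟩ := h
  by_cases k : (j - i) % 2 = 0
  · have := hm (j - i + 1) (fun t => if t ≤ j - i then f (i + t) else f i) ⟨by omega, by simp, ?_⟩
    · omega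
    · intro t ht
      by_cases e : t + 1 ≤ j - i
      · simp only [if_pos e, if_pos (show t ≤ j - i by omega)]
        exact h3 _ (by omega)
      · simp only [if_neg e, if_pos (show t ≤ j - i by omega)]
        rw [show i + t = j by omega]
        exact a.symm
  · have := hm (n - (j - i) + 1) (fun t => if t ≤ i then f t else f (t + (j - i) - 1))
      ⟨by omega, ?_, ?_⟩
    · omega
    · simp only [if_neg (show ¬ n - (j - i) + 1 ≤ i by omega), if_pos (Nat.zero_le i)]
      rw [← h2]; congr 1; omega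
    · intro t ht
      by_cases e : t + 1 ≤ i
      · simp only [if_pos e, if_pos (show t ≤ i by omega)]
        exact h3 _ (by omega)
      · by_cases e' : t ≤ i
        · simp only [if_neg e, if_pos e']
          rw [show t = i by omega, show i + 1 + (j - i) - 1 = j by omega]
          exact a
        · simp only [if_neg e, if_neg e']
          rw [show t + 1 + (j - i) - 1 = t + (j - i) - 1 + 1 by omega]
          exact h3 _ (by omega)

theorem main (h : ¬ G.Colorable 2) : ∃ s : Set V, ¬ (G.induce s).Colorable 2 ∧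
    ∀ c ∈ s, ∀ x ∈ s, ∀ y ∈ s, ∀ z ∈ s, G.Adj c x → G.Adj c y → G.Adj c z →
      x = y ∨ x = z ∨ y = z := by
  obtain ⟨n, f, hf, hm⟩ := ex_min G h
  have hs : ∀ i ≤ n, f i ∈ {v | ∃ i < n, f i = v} := by
    intro i hi
    rcases hi.lt_or_eq with k | k
    · exact ⟨i, k, rfl⟩
    · exact ⟨0, by have := hf.1; omega, by rw [k, hf.2.1]⟩
  refine ⟨{v | ∃ i < n, f i = v}, ?_, ?_⟩
  · rintro ⟨C⟩
    have : ∀ i (hi : i ≤ n), (C ⟨f i, hs i hi⟩ = C ⟨f 0, hs 0 (Nat.zero_le _)⟩ ↔ i % 2 = 0) := by
      intro i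
      induction i with
      | zero => simp
      | succ i ih =>
        intro hi
        have a := ih (by omega)
        have b : C ⟨f i, hs i (by omega)⟩ ≠ C ⟨f (i + 1), hs _ hi⟩ :=
          C.valid (hf.2.2 i (by omega))
        generalize C ⟨f i, _⟩ = p at a b
        generalize C ⟨f (i + 1), _⟩ = q at b
        generalize C ⟨f 0, _⟩ = r at a
        omega
    have k := (this n le_rfl).1 (by congr 1; exact Subtype.ext hf.2.1)
    have := hf.1
    omega
  · rintro _ ⟨i, hi, rfl⟩ _ ⟨a, ha, rfl⟩ _ ⟨b, hb, rfl⟩ _ ⟨c, hc, rfl⟩ h1 h2 h3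
    have key : ∀ j < n, G.Adj (f i) (f j) → j = i + 1 ∨ (i = 0 ∧ j + 1 = n) ∨ i = j + 1 ∨
        (j = 0 ∧ i + 1 = n) := by
      intro j hj k
      rcases lt_trichotomy i j with t | t | t
      · have := chord hf hm t hj k; omega
      · subst t; exact absurd k (G.loopless.irrefl _)
      · have := chord hf hm t hi k.symm; omega
    have := key a ha h1
    have := key b hb h2
    have := key c hc h3
    have : a = b ∨ a = c ∨ b = c := by omega
    rcases this with k | k | k <;> simp [k]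

end Pool.Agent.H9.OddCyc
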