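import Pool.Agent.H9.PsiTree

set_option autoImplicit false

namespace Pool.Agent.H9.Psi

open Finset

structure Hyp {V : Type} (G : SimpleGraph V) : Prop where
  tri : ∀ a b c, G.Adj a c → G.Adj b c → ¬ G.Adj a b
  deg : ∀ u (l : List V), l.length < 3 → ∃ x, G.Adj u x ∧ x ∉ l
  prv : ∀ u v, u ≠ v → ¬ G.Adj u v → ∃ x, G.Adj u x ∧ ¬ G.Adj v x
  cls : ∀ (K : V → Prop) (c : V → Fin 3), (∃ v, K v) → (∀ a b, K a → G.Adj a b → K b) →
    (∀ a b, K a → K b → G.Adj a b → c a ≠ c b) → False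
  psi : ∀ f : V → Fin 5, ¬ ∀ i j, i ≠ j → ∃ u v, G.Adj u v ∧ f u = i ∧ f v = j

structure Inv {V : Type} (G : SimpleGraph V) (φ : ℕ → V) (k E N C : ℕ) : Prop where
  le : k ≤ 16
  inj : ∀ a < k, ∀ b < k, φ a = φ b → a = b
  adj : ∀ a < 16, ∀ b < 16, ad E a b = true → a < k ∧ b < k ∧ G.Adj (φ a) (φ b)
  non : ∀ a < 16, ∀ b < 16, ad N a b = true → a < k ∧ b < k ∧ ¬ G.Adj (φ a) (φ b)
  clo : ∀ a, C.testBit a = true → a < k ∧ ∀ x, G.Adj (φ a) x → ∃ b < k, φ b = x

theorem ad_st (E a b x y : ℕ) (ha : a < 16) (hb : b < 16) (hx : x < 16) (hy : y < 16)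
    (h : ad (st E a b) x y = true) : ad E x y = true ∨ (x = a ∧ y = b) ∨ (x = b ∧ y = a) := by
  simp only [ad, st, Nat.testBit_or, Bool.or_eq_true, Nat.testBit_two_pow, decide_eq_true_eq] at h ⊢
  rcases h with (h | h) | h
  · exact Or.inl h
  · right; omega
  · right; omega

variable {V : Type} {G : SimpleGraph V}

theorem na_sound (hG : Hyp G) {φ : ℕ → V} {k E N C : ℕ} (h : Inv G φ k E N C) {a b : ℕ}
    (ha : a < k) (hb : b < k) (hn : na k E N a b = true) : ¬ G.Adj (φ a) (φ b) := by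
  have := h.le
  simp only [na, Bool.or_eq_true, beq_iff_eq, List.any_eq_true, List.mem_range,
    Bool.and_eq_true] at hn
  rcases hn with (rfl | hn) | ⟨c, hc, h1, h2⟩
  · exact G.irrefl
  · exact (h.non a (by omega) b (by omega) hn).2.2
  · exact hG.tri _ _ _ (h.adj a (by omega) c (by omega) h1).2.2 (h.adj b (by omega) c (by omega) h2).2.2

theorem Inv.addE {φ : ℕ → V} {k E N C : ℕ} (h : Inv G φ k E N C) {a b : ℕ} (ha : a < k)
    (hb : b < k) (hab : G.Adj (φ a) (φ b)) : Inv G φ k (st E a b) N C := by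
  have := h.le
  refine ⟨h.le, h.inj, fun x hx y hy e => ?_, h.non, h.clo⟩
  rcases ad_st E a b x y (by omega) (by omega) hx hy e with e | ⟨rfl, rfl⟩ | ⟨rfl, rfl⟩
  exacts [h.adj x hx y hy e, ⟨ha, hb, hab⟩, ⟨hb, ha, hab.symm⟩]

theorem Inv.addN {φ : ℕ → V} {k E N C : ℕ} (h : Inv G φ k E N C) {a b : ℕ} (ha : a < k)
    (hb : b < k) (hab : ¬ G.Adj (φ a) (φ b)) : Inv G φ k E (st N a b) C := by
  have := h.le
  refine ⟨h.le, h.inj, h.adj, fun x hx y hy e => ?_, h.clo⟩
  rcases ad_st N a b x y (by omega) (by omega) hx hy e with e | ⟨rfl, rfl⟩ | ⟨rfl, rfl⟩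
  exacts [h.non x hx y hy e, ⟨ha, hb, hab⟩, ⟨hb, ha, fun e => hab e.symm⟩]

theorem Inv.fresh {φ : ℕ → V} {k E N C : ℕ} (h : Inv G φ k E N C) (hk : k < 16) (x : V)
    (hx : ∀ b < k, φ b ≠ x) : Inv G (Function.update φ k x) (k + 1) E N C := by
  have e : ∀ a < k, Function.update φ k x a = φ a := fun a ha => Function.update_of_ne ha.ne _ _
  refine ⟨hk, fun a ha b hb hab => ?_, fun a ha b hb hab => ?_, fun a ha b hb hab => ?_,
    fun a ha => ?_⟩
  · rcases Nat.lt_succ_iff_lt_or_eq.1 ha with h1 | rfl <;>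
      rcases Nat.lt_succ_iff_lt_or_eq.1 hb with h2 | rfl
    · rw [e a h1, e b h2] at hab; exact h.inj a h1 b h2 hab
    · rw [e a h1, Function.update_self] at hab; exact absurd hab (hx a h1)
    · rw [e b h2, Function.update_self] at hab; exact absurd hab.symm (hx b h2)
    · rfl
  · obtain ⟨h1, h2, h3⟩ := h.adj a ha b hb hab
    exact ⟨by omega, by omega, by rwa [e a h1, e b h2]⟩
  · obtain ⟨h1, h2, h3⟩ := h.non a ha b hb hab
    exact ⟨by omega, by omega, by rwa [e a h1, e b h2]⟩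
  · obtain ⟨h1, h2⟩ := h.clo a ha
    refine ⟨by omega, fun y hy => ?_⟩
    rw [e a h1] at hy
    obtain ⟨b, hb, hb'⟩ := h2 y hy
    exact ⟨b, by omega, by rwa [e b hb]⟩

theorem sound (hG : Hyp G) (t : PT) : ∀ (φ : ℕ → V) (k E N C : ℕ), Inv G φ k E N C →
    chk t k E N C = true → False := by
  classical
  induction t with
  | ps c =>
    intro φ k E N C h hc
    have := h.le
    simp only [chk, List.all_eq_true, List.any_eq_true, List.mem_range, Bool.and_eq_true,
      beq_iff_eq] at hc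
    let f : V → Fin 5 := fun v =>
      if hv : ∃ a < k, φ a = v then ⟨dig c hv.choose, Nat.mod_lt _ (by norm_num)⟩ else 0
    have hf : ∀ a < k, (f (φ a) : ℕ) = dig c a := by
      intro a ha
      have hv : ∃ b < k, φ b = φ a := ⟨a, ha, rfl⟩
      simp only [f, hv, dite_true]
      rw [h.inj _ hv.choose_spec.1 a ha hv.choose_spec.2]
    have key : ∀ i j : Fin 5, j < i → ∃ u v, G.Adj u v ∧ f u = i ∧ f v = j := by
      intro i j hij
      obtain ⟨a, ha, e1, b, hb, e2, e3⟩ := hc i i.2 j hij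
      exact ⟨φ a, φ b, (h.adj a (by omega) b (by omega) e3).2.2, Fin.ext ((hf a ha).trans e1),
        Fin.ext ((hf b hb).trans e2)⟩
    refine hG.psi f fun i j hij => ?_
    rcases lt_or_gt_of_ne hij with h' | h'
    · obtain ⟨u, v, h1, h2, h3⟩ := key j i h'
      exact ⟨v, u, h1.symm, h3, h2⟩
    · exact key i j h'
  | cl c =>
    intro φ k E N C h hc
    simp only [chk, List.all_eq_true, List.mem_range, Bool.and_eq_true, Nat.blt_eq,
      Bool.or_eq_true, bne_iff_ne] at hc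
    let f : V → Fin 3 := fun v =>
      if hv : ∃ a < k, φ a = v then ⟨dig c hv.choose % 3, Nat.mod_lt _ (by norm_num)⟩ else 0
    have hf : ∀ a < k, (f (φ a) : ℕ) = dig c a % 3 := by
      intro a ha
      have hv : ∃ b < k, φ b = φ a := ⟨a, ha, rfl⟩
      simp only [f, hv, dite_true]
      rw [h.inj _ hv.choose_spec.1 a ha hv.choose_spec.2]
    refine hG.cls (fun v => ∃ a < k, φ a = v) f ⟨φ 0, 0, hc.1, rfl⟩ ?_ ?_
    · rintro _ x ⟨a, ha, rfl⟩ hx
      exact (h.clo a (hc.2 a ha).1).2 x hx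
    · rintro _ _ ⟨a, ha, rfl⟩ ⟨b, hb, rfl⟩ hab e
      rcases (hc.2 a ha).2 b hb with h' | h'
      · exact na_sound hG h ha hb h' hab
      · exact h' (by rw [← hf a ha, ← hf b hb, e])
  | sp a b t1 t2 ih1 ih2 =>
    intro φ k E N C h hc
    simp only [chk, Bool.and_eq_true, Nat.blt_eq] at hc
    obtain ⟨⟨⟨ha, hb⟩, h1⟩, h2⟩ := hc
    by_cases hab : G.Adj (φ a) (φ b)
    · exact ih1 φ _ _ _ _ (h.addE ha hb hab) h1
    · exact ih2 φ _ _ _ _ (h.addN ha hb hab) h2
  | dg u t ih =>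
    intro φ k E N C h hc
    simp only [chk, Bool.and_eq_true, Nat.blt_eq] at hc
    obtain ⟨⟨⟨hu, hk⟩, hl⟩, h1⟩ := hc
    obtain ⟨x, hx, hx'⟩ := hG.deg (φ u) (((List.range k).filter fun w => !na k E N u w).map φ)
      (by simpa using hl)
    have hfr : ∀ b < k, φ b ≠ x := by
      rintro b hb rfl
      refine hx' (List.mem_map.2 ⟨b, List.mem_filter.2 ⟨List.mem_range.2 hb, ?_⟩, rfl⟩)
      rw [Bool.not_eq_true', ← Bool.not_eq_true]
      exact fun hn => na_sound hG h hu hb hn hx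
    refine ih _ _ _ _ _ ((h.fresh hk x hfr).addE (by omega) (by omega) ?_) h1
    rwa [Function.update_of_ne hu.ne, Function.update_self]
  | pv u v t ih =>
    intro φ k E N C h hc
    simp only [chk, Bool.and_eq_true, Nat.blt_eq, bne_iff_ne, List.all_eq_true, List.mem_range,
      Bool.or_eq_true] at hc
    obtain ⟨⟨⟨⟨⟨⟨hu, hv⟩, hk⟩, huv⟩, hn⟩, hl⟩, h1⟩ := hc
    obtain ⟨x, hx, hx'⟩ := hG.prv (φ u) (φ v) (fun e => huv (h.inj u hu v hv e))
      (na_sound hG h hu hv hn)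
    have hfr : ∀ b < k, φ b ≠ x := by
      rintro b hb rfl
      rcases hl b hb with h' | h'
      · exact na_sound hG h hu hb h' hx
      · exact hx' (h.adj v (by omega) b (by omega) h').2.2
    refine ih _ _ _ _ _ (((h.fresh hk x hfr).addE (by omega) (by omega) ?_).addN (by omega)
      (by omega) ?_) h1
    · rwa [Function.update_of_ne hu.ne, Function.update_self]
    · rwa [Function.update_of_ne hv.ne, Function.update_self]
  | ou u t1 t2 ih1 ih2 =>
    intro φ k E N C h hc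
    simp only [chk, Bool.and_eq_true, Nat.blt_eq] at hc
    obtain ⟨⟨⟨hu, hk⟩, h1⟩, h2⟩ := hc
    by_cases hx : ∃ x, G.Adj (φ u) x ∧ ∀ b < k, φ b ≠ x
    · obtain ⟨x, hx, hfr⟩ := hx
      refine ih1 _ _ _ _ _ ((h.fresh hk x hfr).addE (by omega) (by omega) ?_) h1
      rwa [Function.update_of_ne hu.ne, Function.update_self]
    · push Not at hx
      refine ih2 φ _ _ _ _ ⟨h.le, h.inj, h.adj, h.non, fun a ha => ?_⟩ h2
      simp only [Nat.testBit_or, Bool.or_eq_true, Nat.testBit_two_pow, decide_eq_true_eq] at ha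
      rcases ha with ha | rfl
      exacts [h.clo a ha, ⟨hu, hx⟩]

theorem crit (G : SimpleGraph V) (tri : ∀ a b c, G.Adj a c → G.Adj b c → ¬ G.Adj a b)
    (h1 : ¬ G.Colorable 3)
    (h2 : ∀ v, ∃ c : V → Fin 3, ∀ a b, a ≠ v → b ≠ v → G.Adj a b → c a ≠ c b) :
    ∃ f : V → Fin 5, ∀ i j, i ≠ j → ∃ u v, G.Adj u v ∧ f u = i ∧ f v = j := by
  classical
  by_contra hp
  push Not at hp
  have ext : ∀ u (c : V → Fin 3) (i : Fin 3), (∀ a b, a ≠ u → b ≠ u → G.Adj a b → c a ≠ c b) →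
      ∃ x, G.Adj u x ∧ c x = i := by
    intro u c i hc
    by_contra hx
    push Not at hx
    refine h1 ⟨SimpleGraph.Coloring.mk (Function.update c u i) fun {a b} hab => ?_⟩
    by_cases ha : a = u
    · subst ha
      rw [Function.update_self, Function.update_of_ne hab.ne']
      exact (hx b hab).symm
    · by_cases hb : b = u
      · subst hb
        rw [Function.update_self, Function.update_of_ne ha]
        exact hx a hab.symm
      · rw [Function.update_of_ne ha, Function.update_of_ne hb]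
        exact hc a b ha hb hab
  have hne : Nonempty V := by
    by_contra h
    exact h1 ⟨SimpleGraph.Coloring.mk (fun _ => 0) fun {a _} _ => absurd ⟨a⟩ h⟩
  obtain ⟨v0⟩ := hne
  refine sound (G := G) ⟨tri, fun u l hl => ?_, fun u v huv hn => ?_, fun K c ⟨v, hv⟩ hK hc => ?_,
    fun f hf => ?_⟩ root (fun _ => v0) 1 0 0 0
    ⟨by norm_num, fun a ha b hb _ => by omega, by simp [ad], by simp [ad], by simp⟩ chk_root
  · obtain ⟨c, hc⟩ := h2 u
    obtain ⟨i, -, hi⟩ : ∃ i ∈ (univ : Finset (Fin 3)), i ∉ (l.map c).toFinset := by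
      apply exists_mem_notMem_of_card_lt_card
      refine lt_of_le_of_lt (List.toFinset_card_le _) ?_
      simpa using hl
    obtain ⟨x, hx, e⟩ := ext u c i hc
    exact ⟨x, hx, fun hm => hi (List.mem_toFinset.2 (List.mem_map.2 ⟨x, hm, e⟩))⟩
  · obtain ⟨c, hc⟩ := h2 u
    obtain ⟨x, hx, e⟩ := ext u c (c v) hc
    exact ⟨x, hx, fun hvx => hc v x huv.symm hx.ne' hvx e.symm⟩
  · obtain ⟨d, hd⟩ := h2 v
    refine h1 ⟨SimpleGraph.Coloring.mk (fun x => if K x then c x else d x) fun {a b} hab => ?_⟩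
    by_cases ha : K a
    · have hb := hK a b ha hab
      simp only [ha, hb, if_true]
      exact hc a b ha hb hab
    · have hb : ¬ K b := fun hb => ha (hK b a hb hab.symm)
      simp only [ha, hb, if_false]
      exact hd a b (fun e => ha (e ▸ hv)) (fun e => hb (e ▸ hv)) hab
  · obtain ⟨i, j, hij, h⟩ := hp f
    obtain ⟨u, v, h1, h2, h3⟩ := hf i j hij
    exact h u v h1 h2 h3

theorem main [Fintype V] (G : SimpleGraph V) (tri : ∀ a b c, G.Adj a c → G.Adj b c → ¬ G.Adj a b)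
    (h1 : ¬ G.Colorable 3) :
    ∃ f : V → Fin 5, ∀ i j, i ≠ j → ∃ u v, G.Adj u v ∧ f u = i ∧ f v = j := by
  classical
  have hne : (univ.filter fun s : Finset V => ¬ (G.induce (s : Set V)).Colorable 3).Nonempty := by
    refine ⟨univ, mem_filter.2 ⟨mem_univ _, fun ⟨c⟩ => h1 ⟨SimpleGraph.Coloring.mk
      (fun v => c ⟨v, by simp⟩) fun {a b} hab => c.valid hab⟩⟩⟩
  obtain ⟨s, hs, hmin⟩ := exists_min_image _ Finset.card hne
  obtain ⟨f, hf⟩ := crit (G.induce (s : Set V)) (fun a b c => tri a b c) (mem_filter.1 hs).2 (by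
    intro v
    have : (G.induce ((s.erase v : Finset V) : Set V)).Colorable 3 := by
      by_contra hc
      have := hmin (s.erase v) (mem_filter.2 ⟨mem_univ _, hc⟩)
      rw [card_erase_of_mem v.2] at this
      have := card_pos.2 ⟨v.1, v.2⟩
      omega
    obtain ⟨c⟩ := this
    refine ⟨fun x => if hx : x.1 ∈ s.erase v then c ⟨x.1, hx⟩ else 0, fun a b ha hb hab => ?_⟩
    have ha' : a.1 ∈ s.erase v := mem_erase.2 ⟨fun e => ha (Subtype.ext e), a.2⟩
    have hb' : b.1 ∈ s.erase v := mem_erase.2 ⟨fun e => hb (Subtype.ext e), b.2⟩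
    simp only [ha', hb', dite_true]
    exact c.valid hab)
  refine ⟨fun x => if hx : x ∈ s then f ⟨x, hx⟩ else 0, fun i j hij => ?_⟩
  obtain ⟨u, v, h1, h2, h3⟩ := hf i j hij
  have hu : u.1 ∈ s := u.2
  have hv : v.1 ∈ s := v.2
  exact ⟨u, v, h1, by simp only [hu, dite_true]; exact h2, by simp only [hv, dite_true]; exact h3⟩

end Pool.Agent.H9.Psi
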