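import Mathlib

set_option autoImplicit false

namespace Pool.Agent.H9.Psi

inductive PT : Type
  | ps (c : ℕ) : PT
  | cl (c : ℕ) : PT
  | sp (a b : ℕ) (t1 t2 : PT) : PT
  | dg (u : ℕ) (t : PT) : PT
  | pv (u v : ℕ) (t : PT) : PT
  | ou (u : ℕ) (t1 t2 : PT) : PT

def ad (E a b : ℕ) : Bool := E.testBit (16 * a + b)

def st (E a b : ℕ) : ℕ := E ||| 2 ^ (16 * a + b) ||| 2 ^ (16 * b + a)

def na (k E N a b : ℕ) : Bool :=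
  a == b || ad N a b || (List.range k).any fun c => ad E a c && ad E b c

def dig (c a : ℕ) : ℕ := c / 5 ^ a % 5

def chk : PT → ℕ → ℕ → ℕ → ℕ → Bool
  | .ps c, k, E, _, _ => (List.range 5).all fun i => (List.range i).all fun j =>
      (List.range k).any fun a => dig c a == i && (List.range k).any fun b => dig c b == j && ad E a b
  | .cl c, k, E, N, C => Nat.blt 0 k && (List.range k).all fun a => C.testBit a &&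
      (List.range k).all fun b => na k E N a b || dig c a % 3 != dig c b % 3
  | .sp a b t1 t2, k, E, N, C => Nat.blt a k && Nat.blt b k && chk t1 k (st E a b) N C &&
      chk t2 k E (st N a b) C
  | .dg u t, k, E, N, C => Nat.blt u k && Nat.blt k 16 &&
      Nat.blt ((List.range k).filter fun w => !na k E N u w).length 3 && chk t (k + 1) (st E u k) N C
  | .pv u v t, k, E, N, C => Nat.blt u k && Nat.blt v k && Nat.blt k 16 && u != v && na k E N u v &&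
      ((List.range k).all fun w => na k E N u w || ad E v w) &&
      chk t (k + 1) (st E u k) (st N v k) C
  | .ou u t1 t2, k, E, N, C => Nat.blt u k && Nat.blt k 16 && chk t1 (k + 1) (st E u k) N C &&
      chk t2 k E N (C ||| 2 ^ u)

def tr0 : PT :=
  (.sp 5 2 (.sp 5 3 (.pv 0 5 (.ps 1866680)) (.sp 3 7 (.ou 0 (.ps 1929180) (.ou 1 (.ps 1155255)
  (.ou 2 (.ps 1530275) (.ou 3 (.ps 1827150) (.ou 4 (.ps 1749025) (.ou 5 (.ps 1358400) (.ou 6 (.ps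
  1400880) (.ou 7 (.ps 1538180) (.cl 187655))))))))) (.dg 3 (.sp 2 8 (.ps 1926930) (.sp 7 8 (.sp 8
  1 (.ps 1870255) (.dg 8 (.ps 9170900))) (.dg 7 (.ps 5733400))))))) (.sp 7 2 (.sp 3 7 (.pv 2 3
  (.ps 1151275)) (.sp 5 6 (.dg 3 (.ps 1400680)) (.sp 3 5 (.ou 0 (.ps 1866680) (.ou 1 (.ps 1932755)
  (.ou 2 (.ps 1842775) (.ou 3 (.ps 1514650) (.ou 4 (.ps 1124025) (.ou 5 (.ps 1295900) (.ou 6 (.ps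
  1929005) (.ou 7 (.ps 1538380) (.cl 187655))))))))) (.dg 3 (.sp 2 8 (.ps 1842775) (.sp 5 8 (.sp 8
  4 (.ps 1124025) (.dg 8 (.ps 6983400))) (.dg 5 (.ps 5420900)))))))) (.dg 2 (.sp 3 8 (.pv 2 3 (.ps
  5838775)) (.sp 5 6 (.ps 1400880) (.sp 3 5 (.sp 7 8 (.sp 8 1 (.ps 1932755) (.dg 8 (.ps 7608400)))
  (.dg 7 (.ps 5733400))) (.sp 3 7 (.sp 5 8 (.sp 8 4 (.ps 1749025) (.dg 8 (.ps 7608400))) (.dg 5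
  (.ps 7608400))) (.dg 3 (.ps 6795900)))))))))

def tr1 : PT :=
  (.sp 3 7 (.sp 5 6 (.sp 5 7 (.ou 0 (.ps 1841680) (.ou 1 (.ps 1092755) (.ou 2 (.ps 1842775) (.ou 3
  (.ps 1827150) (.ou 4 (.ps 1749025) (.ou 5 (.ps 1358400) (.ou 6 (.ps 1395880) (.ou 7 (.ps
  1150680) (.cl 187655))))))))) (.dg 5 (.sp 7 8 (.sp 8 0 (.ps 1841680) (.sp 8 2 (.ps 1842775) (.dg
  8 (.ps 7608400)))) (.dg 7 (.ps 9170900))))) (.pv 5 4 (.sp 5 7 (.sp 6 8 (.sp 8 0 (.ps 1916680)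
  (.dg 8 (.ps 7608400))) (.dg 6 (.ps 9170900))) (.dg 5 (.ps 4249180))))) (.dg 3 (.sp 2 8 (.pv 3 2
  (.ps 7764650)) (.sp 5 6 (.sp 7 6 (.ps 855180) (.sp 7 8 (.sp 7 5 (.sp 8 1 (.ps 1867755) (.dg 8
  (.ps 9170900))) (.dg 7 (.ps 5733400))) (.pv 7 1 (.ps 5420900)))) (.sp 5 8 (.sp 5 7 (.sp 8 4 (.ps
  1786505) (.dg 8 (.ps 7645880))) (.dg 5 (.ps 4670900))) (.pv 5 4 (.ps 6483400)))))))

def tr2 : PT :=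
  (.sp 2 7 (.sp 5 6 (.sp 5 7 (.ou 0 (.ps 1779180) (.ou 1 (.ps 1932755) (.ou 2 (.ps 1842775) (.ou 3
  (.ps 1827150) (.ou 4 (.ps 1686525) (.ou 5 (.ps 1045900) (.ou 6 (.ps 1926505) (.ou 7 (.ps
  1150880) (.cl 187655))))))))) (.dg 5 (.sp 7 8 (.sp 8 0 (.ps 1779180) (.sp 8 3 (.ps 1827150) (.dg
  8 (.ps 5733400)))) (.dg 7 (.ps 8858400))))) (.pv 5 4 (.sp 5 7 (.sp 6 8 (.sp 8 0 (.ps 1929180)
  (.dg 8 (.ps 5733400))) (.dg 6 (.ps 8858400))) (.dg 5 (.ps 6201680))))) (.dg 2 (.sp 3 8 (.pv 2 3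
  (.ps 7764650)) (.sp 5 6 (.sp 7 6 (.ps 855280) (.sp 7 8 (.sp 7 5 (.sp 8 1 (.ps 1932755) (.dg 8
  (.ps 9170900))) (.dg 7 (.ps 5420900))) (.pv 7 1 (.ps 5420900)))) (.sp 5 8 (.sp 5 7 (.sp 8 4 (.ps
  1786305) (.dg 8 (.ps 5838380))) (.dg 5 (.ps 3108400))) (.pv 5 4 (.ps 6795900)))))))

def tr3 : PT :=
  (.sp 5 2 (.sp 5 3 (.pv 0 5 (.ps 7608380)) (.sp 3 7 (.sp 6 8 (.sp 2 7 (.ps 1842775) (.sp 7 5 (.sp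
  8 5 (.ps 1358400) (.dg 8 (.ps 9170900))) (.dg 7 (.ps 3795900)))) (.dg 6 (.ps 6983400))) (.sp 3 8
  (.sp 2 8 (.ps 1590430) (.sp 6 7 (.sp 7 5 (.sp 8 5 (.ps 1045900) (.dg 8 (.ps 8858400))) (.dg 7
  (.ps 5733400))) (.dg 6 (.ps 7608400)))) (.dg 3 (.ps 8621680))))) (.sp 2 7 (.sp 3 7 (.sp 2 8 (.ps
  1155275) (.pv 2 3 (.ps 6983400))) (.sp 7 5 (.sp 5 8 (.pv 4 5 (.ps 7573250)) (.sp 3 5 (.sp 6 8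
  (.dg 8 (.ps 5420900)) (.dg 6 (.ps 8858400))) (.sp 3 8 (.sp 8 2 (.ps 1780275) (.dg 8 (.ps
  3733400))) (.dg 3 (.ps 3045900))))) (.dg 7 (.ps 1124180)))) (.sp 2 8 (.sp 3 8 (.pv 2 3 (.ps
  7608400)) (.sp 8 5 (.sp 5 7 (.pv 4 5 (.ps 7573250)) (.sp 3 5 (.sp 6 7 (.dg 7 (.ps 5733400)) (.dg
  6 (.ps 9170900))) (.sp 3 7 (.dg 7 (.ps 3108400)) (.dg 3 (.ps 3358400))))) (.dg 8 (.ps
  1749180)))) (.dg 2 (.sp 3 5 (.ps 9009180) (.sp 3 7 (.ps 6009180) (.sp 3 8 (.ps 6321680) (.pv 3 2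
  (.ps 34920900)))))))))

def tr4 : PT :=
  (.sp 4 2 (.sp 4 3 (.sp 2 5 (.ps 27930) (.pv 2 3 (.ps 1170900))) (.sp 2 5 (.pv 1 2 (.ps 856055))
  (.sp 3 5 (.sp 5 7 (.sp 6 7 (.ou 0 (.ps 1916680) (.ou 1 (.ps 1867755) (.ou 2 (.ps 1842775) (.ou 3
  (.ps 1514650) (.ou 4 (.ps 1124025) (.ou 5 (.ps 670900) (.ou 6 (.ps 695880) (.ou 7 (.ps 1506680)
  (.cl 78280))))))))) (.dg 6 (.sp 0 8 (.ps 1916680) (.sp 7 8 (.sp 8 1 (.ps 1867755) (.dg 8 (.ps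
  7608400))) (.dg 7 (.ps 5733400)))))) (.dg 5 (.sp 0 8 (.ps 1864180) (.sp 7 3 (.ps 187305) (.sp 7
  8 (.sp 7 6 (.sp 8 2 (.ps 1842775) (.dg 8 (.ps 6983400))) (.dg 7 (.ps 3358400))) (.pv 7 2 (.ps
  3358400))))))) tr1))) (.sp 4 3 (.sp 3 5 (.pv 1 3 (.ps 1243555)) (.sp 2 5 (.sp 5 7 (.sp 6 7 (.ou
  0 (.ps 1929180) (.ou 1 (.ps 1870255) (.ou 2 (.ps 1530275) (.ou 3 (.ps 1827150) (.ou 4 (.ps
  749025) (.ou 5 (.ps 1045900) (.ou 6 (.ps 698380) (.ou 7 (.ps 1119180) (.cl 78280))))))))) (.dg 6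
  (.sp 0 8 (.ps 1929180) (.sp 7 8 (.sp 8 1 (.ps 1870255) (.dg 8 (.ps 9170900))) (.dg 7 (.ps
  5420900)))))) (.dg 5 (.sp 0 8 (.ps 1786680) (.sp 7 2 (.ps 265430) (.sp 7 8 (.sp 7 6 (.sp 8 3
  (.ps 1827150) (.dg 8 (.ps 5733400))) (.dg 7 (.ps 5233400))) (.pv 7 3 (.ps 5233400))))))) tr2))
  (.dg 4 (.sp 8 0 (.sp 2 5 (.ps 1791680) (.sp 2 7 (.ps 1866680) (.dg 2 (.ps 7492680)))) tr3))))

def tr5 : PT :=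
  (.sp 4 7 (.sp 5 6 (.sp 6 7 (.ou 0 (.ps 1916680) (.ou 1 (.ps 1867755) (.ou 2 (.ps 1092775) (.ou 3
  (.ps 702150) (.ou 4 (.ps 1749025) (.ou 5 (.ps 1358400) (.ou 6 (.ps 1395880) (.ou 7 (.ps 1525680)
  (.cl 162655))))))))) (.dg 6 (.sp 7 8 (.sp 8 0 (.ps 1916680) (.sp 8 1 (.ps 1867755) (.dg 8 (.ps
  6983400)))) (.dg 7 (.ps 8858400))))) (.dg 5 (.sp 0 8 (.ps 1926680) (.sp 6 8 (.sp 6 7 (.sp 8 4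
  (.ps 1749025) (.dg 8 (.ps 7608400))) (.dg 6 (.ps 6608400))) (.pv 6 4 (.ps 6608400)))))) (.dg 4
  (.sp 0 8 (.ps 1701680) (.sp 5 6 (.sp 7 2 (.ps 140430) (.sp 7 8 (.sp 7 6 (.sp 8 5 (.ps 1358400)
  (.dg 8 (.ps 9170900))) (.dg 7 (.ps 8733400))) (.pv 7 5 (.ps 8733400)))) (.sp 5 8 (.sp 6 7 (.sp 6
  8 (.dg 7 (.ps 7608400)) (.dg 6 (.ps 6795900))) (.pv 6 4 (.ps 6795900))) (.dg 5 (.ps
  3795900)))))))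

def tr6 : PT :=
  (.sp 4 7 (.sp 5 6 (.sp 5 7 (.sp 6 8 (.sp 8 4 (.ps 1124025) (.dg 8 (.ps 8858400))) (.dg 6 (.ps
  5733400))) (.sp 5 8 (.sp 8 2 (.ps 1556930) (.sp 8 4 (.ps 1161505) (.dg 8 (.ps 7020880)))) (.dg 5
  (.ps 3483400)))) (.sp 5 8 (.sp 5 7 (.sp 4 8 (.ps 1786505) (.sp 6 8 (.sp 6 7 (.ps 1525680) (.dg 6
  (.ps 8858400))) (.pv 6 4 (.ps 9108400)))) (.dg 5 (.ps 3483400))) (.pv 5 4 (.ps 3483400)))) (.sp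
  4 8 (.sp 5 6 (.sp 5 7 (.sp 7 2 (.ps 1869430) (.dg 7 (.ps 7645880))) (.sp 5 8 (.sp 6 7 (.dg 7
  (.ps 9170900)) (.dg 6 (.ps 5733400))) (.dg 5 (.ps 3795900)))) (.sp 5 7 (.sp 5 8 (.sp 6 7 (.sp 6
  8 (.ps 1838180) (.dg 6 (.ps 9170900))) (.pv 6 4 (.ps 9108400))) (.dg 5 (.ps 3795900))) (.pv 5 4
  (.ps 3795900)))) (.dg 4 (.ps 1696680))))

def tr7 : PT :=
  (.sp 4 6 (.sp 5 7 (.sp 6 7 (.ou 0 (.ps 1866680) (.ou 1 (.ps 1870255) (.ou 2 (.ps 1155275) (.ou 3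
  (.ps 764650) (.ou 4 (.ps 1749025) (.ou 5 (.ps 1358400) (.ou 6 (.ps 1400880) (.ou 7 (.ps 1520680)
  (.cl 37655))))))))) (.dg 6 (.sp 7 8 (.sp 8 0 (.ps 1866680) (.sp 8 1 (.ps 1870255) (.dg 8 (.ps
  8858400)))) (.dg 7 (.ps 6983400))))) (.dg 5 (.sp 0 8 (.ps 1786680) (.sp 7 2 (.ps 140430) (.sp 7
  8 (.sp 7 6 (.sp 8 4 (.ps 1749025) (.dg 8 (.ps 7608400))) (.dg 7 (.ps 6795900))) (.pv 7 4 (.ps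
  6795900))))))) (.dg 4 (.sp 0 8 (.ps 1749180) (.sp 5 7 (.sp 6 8 (.sp 6 7 (.sp 8 5 (.ps 1358400)
  (.dg 8 (.ps 9170900))) (.dg 6 (.ps 8483400))) (.pv 6 5 (.ps 8483400))) (.sp 5 8 (.sp 6 7 (.sp 6
  8 (.dg 7 (.ps 9170900)) (.dg 6 (.ps 8733400))) (.pv 6 5 (.ps 8733400))) (.dg 5 (.ps
  6608400)))))))

def tr8 : PT :=
  (.sp 5 7 (.sp 4 6 (.sp 4 7 (.sp 6 8 (.sp 8 5 (.ps 1045900) (.dg 8 (.ps 8858400))) (.dg 6 (.ps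
  5733400))) (.sp 4 8 (.sp 8 2 (.ps 1551930) (.sp 8 5 (.ps 1166505) (.dg 8 (.ps 7025880)))) (.dg 4
  (.ps 3795900)))) (.sp 4 8 (.sp 4 7 (.sp 5 8 (.ps 1791505) (.sp 6 8 (.sp 6 7 (.ps 1538180) (.dg 6
  (.ps 6983400))) (.pv 6 5 (.ps 7545900)))) (.dg 4 (.ps 3795900))) (.pv 4 5 (.ps 3795900)))) (.sp
  5 8 (.sp 4 6 (.sp 4 7 (.sp 7 2 (.ps 1864430) (.dg 7 (.ps 7650880))) (.sp 4 8 (.sp 6 7 (.dg 7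
  (.ps 9170900)) (.dg 6 (.ps 5733400))) (.dg 4 (.ps 3483400)))) (.sp 4 7 (.sp 4 8 (.sp 6 7 (.sp 6
  8 (.ps 1850680) (.dg 6 (.ps 7608400))) (.pv 6 5 (.ps 9108400))) (.dg 4 (.ps 3483400))) (.pv 4 5
  (.ps 3483400)))) (.dg 5 (.ps 1701680))))

def tr9 : PT :=
  (.sp 4 6 (.sp 5 7 (.sp 5 6 (.ou 0 (.ps 1841680) (.ou 1 (.ps 1932755) (.ou 2 (.ps 1842775) (.ou 3
  (.ps 1702150) (.ou 4 (.ps 1749025) (.ou 5 (.ps 1358400) (.ou 6 (.ps 1088380) (.ou 7 (.ps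
  1535880) (.cl 187655))))))))) (.dg 5 (.sp 6 8 (.sp 8 0 (.ps 1841680) (.sp 8 3 (.ps 1702150) (.dg
  8 (.ps 7608400)))) (.dg 6 (.ps 9170900))))) (.pv 5 4 (.sp 5 6 (.sp 7 8 (.sp 8 0 (.ps 1866680)
  (.dg 8 (.ps 7608400))) (.dg 7 (.ps 9170900))) (.dg 5 (.ps 6014180))))) (.dg 4 (.sp 0 8 (.ps
  1929180) (.sp 5 6 (.sp 6 8 (.sp 5 7 (.sp 8 7 (.ps 1535880) (.dg 8 (.ps 9170900))) (.dg 5 (.ps
  3795900))) (.dg 6 (.ps 5775880))) (.sp 5 7 (.sp 5 8 (.sp 6 8 (.dg 6 (.ps 9170900)) (.dg 6 (.ps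
  8483400))) (.dg 5 (.ps 6608400))) (.pv 5 4 (.ps 6608400)))))))

def tr10 : PT :=
  (.sp 5 6 (.sp 4 7 (.sp 4 6 (.ou 0 (.ps 1929180) (.ou 1 (.ps 1870255) (.ou 2 (.ps 1530275) (.ou 3
  (.ps 1327150) (.ou 4 (.ps 1749025) (.ou 5 (.ps 1358400) (.ou 6 (.ps 1929005) (.ou 7 (.ps
  1538380) (.cl 187655))))))))) (.dg 4 (.sp 6 8 (.sp 8 0 (.ps 1791680) (.sp 8 3 (.ps 1327150) (.dg
  8 (.ps 9170900)))) (.dg 6 (.ps 7608400))))) (.pv 4 5 (.sp 4 6 (.sp 7 8 (.sp 8 0 (.ps 1929180)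
  (.dg 8 (.ps 9170900))) (.dg 7 (.ps 7608400))) (.dg 4 (.ps 9076680))))) (.dg 5 (.sp 0 8 (.ps
  1926680) (.sp 4 6 (.sp 6 8 (.sp 4 7 (.sp 8 7 (.ps 1538380) (.dg 8 (.ps 7608400))) (.dg 4 (.ps
  8483400))) (.dg 6 (.ps 3823380))) (.sp 4 7 (.sp 4 8 (.sp 6 8 (.dg 6 (.ps 9170900)) (.dg 6 (.ps
  6608400))) (.dg 4 (.ps 8483400))) (.pv 4 5 (.ps 8483400)))))))

def tr11 : PT :=
  (.sp 8 1 (.sp 8 2 (.pv 0 8 (.ps 9500430)) (.sp 8 6 (.sp 4 7 (.ps 1155255) (.pv 4 8 (.ps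
  7792130))) (.dg 8 (.ps 7729630)))) (.sp 7 4 (.sp 2 8 (.ps 1530275) (.sp 4 6 (.sp 5 8 (.sp 4 8
  (.ps 749025) (.sp 8 6 (.sp 5 7 (.ps 1145880) (.dg 5 (.ps 7608400))) (.dg 8 (.ps 6608400)))) (.pv
  5 4 (.ps 5233400))) (.sp 4 8 (.sp 5 6 (.sp 6 8 (.sp 5 7 (.ps 1150880) (.dg 5 (.ps 3795900)))
  (.dg 6 (.ps 7608400))) (.pv 5 4 (.ps 3795900))) (.dg 4 (.ps 3483400))))) (.sp 7 5 (.sp 2 8 (.ps
  1842775) (.sp 4 6 (.sp 4 8 (.sp 6 5 (.sp 8 5 (.ps 1358400) (.dg 8 (.ps 9170900))) (.dg 6 (.ps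
  5608400))) (.dg 4 (.ps 3358400))) (.sp 4 8 (.dg 4 (.ps 5608400)) (.dg 4 (.ps 759180))))) (.dg 7
  (.ps 764180)))))

def tr12 : PT :=
  (.sp 4 6 (.sp 3 5 (.ps 1327150) (.sp 5 7 (.sp 5 6 (.sp 7 8 (.sp 8 4 (.ps 624025) (.dg 8 (.ps
  8858400))) (.dg 7 (.ps 6983400))) (.sp 5 8 (.sp 8 3 (.ps 1557130) (.sp 8 4 (.ps 1161305) (.dg 8
  (.ps 5463380)))) (.dg 5 (.ps 5233400)))) (.sp 5 8 (.sp 5 6 (.sp 4 8 (.ps 1911305) (.sp 7 8 (.sp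
  7 6 (.ps 1400880) (.dg 7 (.ps 8858400))) (.pv 7 4 (.ps 8858400)))) (.dg 5 (.ps 3483400))) (.pv 5
  4 (.ps 5233400))))) (.sp 4 8 (.sp 3 5 (.ps 1702150) (.sp 5 6 (.sp 6 7 (.sp 5 8 (.sp 7 8 (.ps
  1775880) (.dg 7 (.ps 9170900))) (.dg 5 (.ps 5608400))) (.dg 6 (.ps 3510880))) (.sp 5 7 (.sp 5 8
  (.sp 6 7 (.dg 6 (.ps 9170900)) (.dg 6 (.ps 9108400))) (.dg 5 (.ps 5608400))) (.pv 5 4 (.ps
  5608400))))) (.dg 4 (.ps 1696680))))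

def tr13 : PT :=
  (.sp 3 8 (.sp 8 4 (.sp 4 6 (.sp 5 7 (.sp 4 7 (.ps 1686525) (.sp 7 6 (.sp 5 8 (.ps 1770880) (.dg
  5 (.ps 6983400))) (.dg 7 (.ps 7545900)))) (.pv 5 4 (.ps 5233400))) (.sp 4 7 (.sp 5 6 (.sp 6 7
  (.sp 5 8 (.ps 1775880) (.dg 5 (.ps 3483400))) (.dg 6 (.ps 6983400))) (.pv 5 4 (.ps 3483400)))
  (.dg 4 (.ps 3795900)))) (.sp 8 5 (.sp 4 6 (.sp 4 7 (.sp 6 5 (.sp 7 5 (.ps 1045900) (.dg 7 (.ps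
  8858400))) (.dg 6 (.ps 4670900))) (.dg 4 (.ps 3045900))) (.sp 4 7 (.dg 4 (.ps 4670900)) (.dg 4
  (.ps 1696680)))) (.dg 8 (.ps 1701680)))) (.dg 3 (.sp 9 1 (.sp 9 6 (.ps 9667130) (.sp 9 8 (.ps
  9292130) (.pv 9 0 (.ps 38964005)))) (.sp 4 6 (.sp 7 4 (.ps 3571680) (.sp 7 5 (.ps 4374180) (.sp
  7 6 (.ps 9131680) (.sp 7 8 (.ps 4681680) (.dg 7 (.ps 18670900)))))) (.sp 4 7 (.sp 6 5 (.ps
  3451680) (.sp 6 7 (.ps 5806680) (.sp 6 9 (.ps 3506680) (.dg 6 (.ps 23420900))))) (.sp 4 8 (.sp 4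
  9 (.ps 1321680) (.dg 4 (.ps 19420900))) (.sp 4 9 (.dg 4 (.ps 19420900)) (.dg 4 (.ps
  9509180)))))))))

def tr14 : PT :=
  (.sp 3 5 (.sp 5 6 (.sp 4 7 (.sp 4 6 (.sp 7 8 (.sp 8 5 (.ps 608400) (.dg 8 (.ps 6983400))) (.dg 7
  (.ps 8858400))) (.sp 4 8 (.sp 8 3 (.ps 1552130) (.sp 8 5 (.ps 1166305) (.dg 8 (.ps 5458380))))
  (.dg 4 (.ps 5608400)))) (.sp 4 8 (.sp 4 6 (.sp 5 8 (.ps 1916305) (.sp 7 8 (.sp 7 6 (.ps 1929005)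
  (.dg 7 (.ps 8858400))) (.pv 7 5 (.ps 8858400)))) (.dg 4 (.ps 3795900))) (.pv 4 5 (.ps
  5608400)))) (.sp 5 8 (.sp 4 6 (.sp 6 7 (.sp 4 8 (.sp 7 8 (.ps 1850880) (.dg 7 (.ps 7608400)))
  (.dg 4 (.ps 5233400))) (.dg 6 (.ps 3508380))) (.sp 4 7 (.sp 4 8 (.sp 6 7 (.dg 6 (.ps 9170900))
  (.dg 6 (.ps 7545900))) (.dg 4 (.ps 5233400))) (.pv 4 5 (.ps 5233400)))) (.dg 5 (.ps 1701680))))
  tr13)

def tr15 : PT :=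
  (.sp 4 2 (.sp 4 3 (.pv 0 4 (.ps 1696680)) (.sp 2 5 (.sp 5 3 (.pv 0 5 (.ps 1701055)) (.sp 4 7
  (.dg 3 (.ps 1530275)) (.dg 4 (.ps 340430)))) (.sp 3 5 tr5 (.dg 3 (.sp 8 1 (.sp 8 2 (.pv 0 8 (.ps
  9506680)) (.sp 4 7 (.sp 5 6 (.ps 1870055) (.pv 5 4 (.ps 3483400))) (.dg 4 (.ps 9680255))))
  tr6))))) (.sp 5 2 (.sp 5 3 (.pv 0 5 (.ps 1701680)) (.sp 3 4 tr7 (.dg 3 (.sp 8 1 (.sp 8 2 (.pv 0
  8 (.ps 9503555)) (.sp 5 7 (.sp 4 6 (.ps 1867555) (.pv 4 5 (.ps 3795900))) (.dg 5 (.ps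
  9682755)))) tr8)))) (.sp 2 7 (.sp 3 4 (.sp 3 5 (.sp 4 6 (.pv 1 3 (.ps 1092755)) (.dg 4 (.ps
  149805))) tr9) (.sp 3 5 tr10 (.dg 3 tr11))) (.dg 2 (.sp 8 1 (.sp 8 3 (.pv 0 8 (.ps 9506680))
  (.sp 8 7 (.sp 3 4 (.sp 4 6 (.sp 5 7 (.ps 1932755) (.pv 5 4 (.ps 9588900))) (.dg 4 (.ps
  9667130))) (.sp 3 5 (.sp 4 6 (.ps 1092555) (.pv 4 8 (.ps 3795900))) (.dg 3 (.ps 9667130)))) (.dg
  8 (.ps 1932930)))) (.sp 3 4 tr12 tr14))))))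

def root : PT := (.dg 0 (.dg 0 (.dg 0 (.dg 1 (.dg 1 (.pv 2 1 (.sp 3 6 (.sp 4 6 (.dg 4 (.sp 7 0 (.pv 7 1 (.sp 2 5 (.ps 776680) (.sp 2 8 (.ps 1514180) (.dg 2 (.ps 6483400))))) (.sp 7 5 tr0 (.pv 7 6 (.sp 5 6 (.sp 5 8 (.sp 2 7 (.ps 1083380) (.sp 2 8 (.ps 1400880) (.dg 2 (.ps 6791900)))) (.dg 5 (.ps 5229500))) (.sp 5 8 (.sp 0 8 (.pv 5 0 (.ps 9213380)) (.sp 5 2 (.sp 5 3 (.ps 1358400) (.sp 8 3 (.sp 7 2 (.ps 1842775) (.dg 7 (.ps 9170900))) (.dg 8 (.ps 7608400)))) (.sp 5 3 (.sp 8 2 (.sp 7 3 (.ps 1827150) (.dg 7 (.ps 5733400))) (.dg 8 (.ps 7545900))) (.dg 5 (.ps 7492780))))) (.pv 5 0 (.ps 7492780)))))))) (.pv 4 0 tr4)) (.pv 3 1 tr15))))))))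

theorem chk_root : chk root 1 0 0 0 = true := by decide +kernel

end Pool.Agent.H9.Psi
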