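import Mathlib

set_option autoImplicit false

namespace Pool.Agent.H9.Recon

open Finset

def rel (a b x x' : ℕ) : Prop :=
  (x < a ∧ x' < b ∧ x = x') ∨ (x < a ∧ b < x' ∧ x + 1 = x') ∨ (a < x ∧ x' < b ∧ x = x' + 1) ∨
    (a < x ∧ b < x' ∧ x = x')

variable {n : ℕ} (α β : Fin n → ℕ)

def Edge (P Q : ℕ × ℕ) : Prop :=
  ∃ z, rel (α z) (β z) P.1 Q.1 ∧ rel (α z) (β z) P.2 Q.2 ∧ P.1 < n ∧ P.2 < n ∧ Q.1 < n ∧ Q.2 < n

def Z (P P' : ℕ × ℕ) : Prop := ∃ Q, Edge α β P Q ∧ Edge α β P' Q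

def D (P : ℕ × ℕ) : Prop := ∃ P', Relation.ReflTransGen (Z α β) P P' ∧ Edge α β P' P

variable {α β}

theorem Zsymm {P P' : ℕ × ℕ} (h : Relation.ReflTransGen (Z α β) P P') :
    Relation.ReflTransGen (Z α β) P' P := by
  induction h with
  | refl => exact .refl
  | tail _ h ih => obtain ⟨Q, h1, h2⟩ := h; exact .head ⟨Q, h2, h1⟩ ih

theorem direct {P : ℕ × ℕ} (h : Edge α β P P) : D α β P := ⟨P, .refl, h⟩

theorem move1 {P P' : ℕ × ℕ} (h1 : Edge α β P P') (h2 : Edge α β P' P) (h : D α β P') :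
    D α β P := by
  obtain ⟨P'', h3, h4⟩ := h
  exact ⟨P', .head ⟨P', h1, h4⟩ (Zsymm h3), h2⟩

theorem move2 {P P' Q P3 : ℕ × ℕ} (h1 : Edge α β P Q) (h2 : Edge α β P' Q) (h3 : Edge α β P3 P)
    (h4 : Edge α β P3 P') (h : D α β P') : D α β P := by
  obtain ⟨P'', h5, h6⟩ := h
  exact ⟨P3, .head ⟨Q, h1, h2⟩ (h5.tail ⟨P', h6, h4⟩), h3⟩

theorem mkE (z : Fin n) {x y x' y' : ℕ} (h : rel (α z) (β z) x x' ∧ rel (α z) (β z) y y' ∧
    x < n ∧ y < n ∧ x' < n ∧ y' < n) : Edge α β (x, y) (x', y') := ⟨z, h⟩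

theorem caseA {i j : ℕ} (hj : j < n) (z1 z2 w1 w2 : Fin n) (h1 : α z2 < α z1) (h2 : α z1 < i)
    (h3 : i < β z1 ∧ β z1 < j) (h4 : i < β z2 ∧ β z2 < j) (h5 : β w2 < β w1) (h6 : β w1 < i)
    (h7 : i < α w1 ∧ α w1 < j) (h8 : i < α w2 ∧ α w2 < j) : ∀ x ≤ i, D α β (x, j) := by
  intro x
  induction x with
  | zero => exact fun _ => direct (mkE z1 (by unfold rel; omega))
  | succ x ih =>
    intro hx
    by_cases c1 : x + 1 < α z1
    · exact direct (mkE z1 (by unfold rel; omega))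
    by_cases c2 : x + 1 < β w1
    · exact direct (mkE w1 (by unfold rel; omega))
    exact move1 (mkE z2 (by unfold rel; omega)) (mkE w2 (by unfold rel; omega)) (ih (by omega))

theorem caseB {i j : ℕ} (hα : ∀ z, α z < n) (hβ : ∀ z, β z < n) (z1 z2 w1 w2 : Fin n)
    (h1 : α z1 < α z2) (h2 : j < α z1)
    (h3 : i < β z1 ∧ β z1 < j) (h4 : i < β z2 ∧ β z2 < j) (h5 : β w1 < β w2) (h6 : j < β w1)
    (h7 : i < α w1 ∧ α w1 < j) (h8 : i < α w2 ∧ α w2 < j) :
    ∀ t y, y + t + 1 = n → j ≤ y → D α β (i, y) := by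
  have := hα z2
  have := hβ w2
  intro t
  induction t with
  | zero => exact fun y _ _ => direct (mkE z1 (by unfold rel; omega))
  | succ t ih =>
    intro y hy hjy
    by_cases c1 : α z1 < y
    · exact direct (mkE z1 (by unfold rel; omega))
    by_cases c2 : β w1 < y
    · exact direct (mkE w1 (by unfold rel; omega))
    exact move1 (mkE z2 (by unfold rel; omega)) (mkE w2 (by unfold rel; omega))
      (ih (y + 1) (by omega) (by omega))

theorem caseD {i j : ℕ} (hβ : ∀ z, β z < n) (z1 z2 w1 w2 : Fin n) (h1 : α z2 < α z1)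
    (h2 : α z1 < i) (h3 : i < β z1 ∧ β z1 < j) (h4 : i < β z2 ∧ β z2 < j) (h5 : β w1 < β w2)
    (h6 : j < β w1) (h7 : i < α w1 ∧ α w1 < j) (h8 : i < α w2 ∧ α w2 < j) :
    ∀ x ≤ i, ∀ y, j ≤ y → y < n → D α β (x, y) := by
  have := hβ w2
  intro x
  induction x with
  | zero => exact fun _ y _ _ => direct (mkE z1 (by unfold rel; omega))
  | succ x ih =>
    intro hx y hy hyn
    by_cases c1 : x + 1 < α z1
    · exact direct (mkE z1 (by unfold rel; omega))
    by_cases c2 : β w1 < y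
    · exact direct (mkE w1 (by unfold rel; omega))
    exact move2 (Q := (x, y)) (P3 := (x + 1, y + 1)) (mkE z2 (by unfold rel; omega))
      (mkE w2 (by unfold rel; omega)) (mkE w2 (by unfold rel; omega))
      (mkE z2 (by unfold rel; omega)) (ih (by omega) (y + 1) (by omega) (by omega))

theorem caseD' {i j : ℕ} (hα : ∀ z, α z < n) (z1 z2 w1 w2 : Fin n) (h1 : β z2 < β z1)
    (h2 : β z1 < i) (h3 : i < α z1 ∧ α z1 < j) (h4 : i < α z2 ∧ α z2 < j) (h5 : α w1 < α w2)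
    (h6 : j < α w1) (h7 : i < β w1 ∧ β w1 < j) (h8 : i < β w2 ∧ β w2 < j) :
    ∀ x ≤ i, ∀ y, j ≤ y → y < n → D α β (x, y) := by
  have := hα w2
  intro x
  induction x with
  | zero => exact fun _ y _ _ => direct (mkE z1 (by unfold rel; omega))
  | succ x ih =>
    intro hx y hy hyn
    by_cases c1 : x + 1 < β z1
    · exact direct (mkE z1 (by unfold rel; omega))
    by_cases c2 : α w1 < y
    · exact direct (mkE w1 (by unfold rel; omega))
    exact move2 (Q := (x + 1, y + 1)) (P3 := (x, y)) (mkE w2 (by unfold rel; omega))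
      (mkE z2 (by unfold rel; omega)) (mkE z2 (by unfold rel; omega))
      (mkE w2 (by unfold rel; omega)) (ih (by omega) (y + 1) (by omega) (by omega))

theorem desc (u v : Fin n) : ∀ s x y, α u ≤ x → β v ≤ x → y + s ≤ β u → y + s ≤ α v → x < y →
    y + s < n → D α β (x, y) → D α β (x + s, y + s) := by
  intro s
  induction s with
  | zero => exact fun _ _ _ _ _ _ _ _ h => h
  | succ s ih =>
    intro x y h1 h2 h3 h4 h5 h6 h
    exact move1 (P' := (x + s, y + s)) (mkE u (by unfold rel; omega))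
      (mkE v (by unfold rel; omega)) (ih x y h1 h2 (by omega) (by omega) h5 (by omega) h)

theorem card_le_itv (γ : Fin n → ℕ) (hγ : Function.Injective γ) (S : Finset (Fin n)) (p q : ℕ)
    (h : ∀ z ∈ S, p ≤ γ z ∧ γ z < q) : S.card ≤ q - p := by
  rw [← Nat.card_Ico]
  exact card_le_card_of_injOn γ (fun z hz => by simpa using h z hz) hγ.injOn

theorem card_ge_itv (γ : Fin n → ℕ) (hγ : ∀ t < n, ∃ z, γ z = t) (p q : ℕ) (hq : q ≤ n) :
    q - p ≤ (univ.filter fun z => p ≤ γ z ∧ γ z < q).card := by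
  rw [← Nat.card_Ico]
  refine card_le_card_of_surjOn γ fun t ht => ?_
  simp only [coe_Ico, Set.mem_Ico] at ht
  obtain ⟨z, rfl⟩ := hγ t (by omega)
  exact ⟨z, by simpa using ht, rfl⟩

theorem two_of (γ δ : Fin n → ℕ) (hγ : ∀ t < n, ∃ z, γ z = t) (hδ : Function.Injective δ)
    {i j : ℕ} (hj : j < n) (hg : i + 6 ≤ j)
    (hM : ∀ z, i < γ z → γ z < j → i < δ z → δ z < j → False) :
    (∃ z1 z2, δ z2 < δ z1 ∧ δ z1 < i ∧ (i < γ z1 ∧ γ z1 < j) ∧ (i < γ z2 ∧ γ z2 < j)) ∨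
    (∃ z1 z2, δ z1 < δ z2 ∧ j < δ z1 ∧ (i < γ z1 ∧ γ z1 < j) ∧ (i < γ z2 ∧ γ z2 < j)) := by
  have h1 := card_ge_itv γ hγ (i + 1) j hj.le
  have h2 := card_le_itv δ hδ (univ.filter fun z => δ z = i) i (i + 1)
    (fun z hz => by have := (mem_filter.1 hz).2; omega)
  have h3 := card_le_itv δ hδ (univ.filter fun z => δ z = j) j (j + 1)
    (fun z hz => by have := (mem_filter.1 hz).2; omega)
  have h4 : (univ.filter fun z => i + 1 ≤ γ z ∧ γ z < j) ⊆
      ((univ.filter fun z => δ z < i ∧ i < γ z ∧ γ z < j) ∪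
        (univ.filter fun z => j < δ z ∧ i < γ z ∧ γ z < j)) ∪
      ((univ.filter fun z => δ z = i) ∪ (univ.filter fun z => δ z = j)) := by
    intro z hz
    have : ¬ (i < γ z ∧ γ z < j ∧ i < δ z ∧ δ z < j) := fun h => hM z h.1 h.2.1 h.2.2.1 h.2.2.2
    simp only [mem_filter, mem_univ, true_and, mem_union] at hz ⊢
    omega
  have h5 := (card_le_card h4).trans ((card_union_le _ _).trans
    (add_le_add (card_union_le _ _) (card_union_le _ _)))
  by_cases c : 1 < (univ.filter fun z => δ z < i ∧ i < γ z ∧ γ z < j).card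
  · obtain ⟨a, ha, b, hb, hab⟩ := one_lt_card.1 c
    simp only [mem_filter, mem_univ, true_and] at ha hb
    rcases lt_or_gt_of_ne (hδ.ne hab) with h | h
    · exact Or.inl ⟨b, a, h, hb.1, hb.2, ha.2⟩
    · exact Or.inl ⟨a, b, h, ha.1, ha.2, hb.2⟩
  · obtain ⟨a, ha, b, hb, hab⟩ := one_lt_card.1
      (show 1 < (univ.filter fun z => j < δ z ∧ i < γ z ∧ γ z < j).card by omega)
    simp only [mem_filter, mem_univ, true_and] at ha hb
    rcases lt_or_gt_of_ne (hδ.ne hab) with h | h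
    · exact Or.inr ⟨a, b, h, ha.1, ha.2, hb.2⟩
    · exact Or.inr ⟨b, a, h, hb.1, hb.2, ha.2⟩

theorem seven (γ δ : Fin n → ℕ) (hγ : ∀ t < n, ∃ z, γ z = t) (hδ : ∀ t < n, ∃ z, δ z = t)
    (hγ' : Function.Injective γ) (hδ' : Function.Injective δ)
    {i j : ℕ} (hn : 31 ≤ n) (hij : i < j) (hj : j < n) (hg : j ≤ i + 5)
    (hL : ∀ z, γ z < i → δ z < i → False) (hR : ∀ z, j < γ z → j < δ z → False) :
    7 ≤ (univ.filter fun z => γ z < i ∧ j < δ z).card := by
  by_cases c : 13 ≤ i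
  · have h1 := card_ge_itv γ hγ 0 i (by omega)
    have h2 := card_le_itv δ hδ' (univ.filter fun z => i ≤ δ z ∧ δ z < j + 1) i (j + 1) (by simp)
    have h4 : (univ.filter fun z => 0 ≤ γ z ∧ γ z < i) ⊆
        (univ.filter fun z => γ z < i ∧ j < δ z) ∪ (univ.filter fun z => i ≤ δ z ∧ δ z < j + 1) := by
      intro z hz
      have : ¬ (γ z < i ∧ δ z < i) := fun h => hL z h.1 h.2
      simp only [mem_filter, mem_univ, true_and, mem_union] at hz ⊢
      omega
    have h5 := (card_le_card h4).trans (card_union_le _ _)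
    omega
  · have h1 := card_ge_itv δ hδ (j + 1) n le_rfl
    have h2 := card_le_itv γ hγ' (univ.filter fun z => i ≤ γ z ∧ γ z < j + 1) i (j + 1) (by simp)
    have h4 : (univ.filter fun z => j + 1 ≤ δ z ∧ δ z < n) ⊆
        (univ.filter fun z => γ z < i ∧ j < δ z) ∪ (univ.filter fun z => i ≤ γ z ∧ γ z < j + 1) := by
      intro z hz
      have : ¬ (j < γ z ∧ j < δ z) := fun h => hR z h.1 h.2
      simp only [mem_filter, mem_univ, true_and, mem_union] at hz ⊢
      omega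
    have h5 := (card_le_card h4).trans (card_union_le _ _)
    omega

theorem low (γ : Fin n → ℕ) (hγ : Function.Injective γ) (S : Finset (Fin n)) (hS : 7 ≤ S.card)
    (t : ℕ) (h : ∀ z ∈ S, γ z ≤ t) : ∃ z ∈ S, γ z + 6 ≤ t := by
  by_contra hc
  push Not at hc
  have := card_le_itv γ hγ S (t - 5) (t + 1) fun z hz => by
    have := h z hz
    have := hc z hz
    omega
  omega

theorem main (hn : 31 ≤ n) (hα : ∀ z, α z < n) (hβ : ∀ z, β z < n)
    (sα : ∀ t < n, ∃ z, α z = t) (sβ : ∀ t < n, ∃ z, β z = t)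
    (iα : Function.Injective α) (iβ : Function.Injective β) {i j : ℕ} (hij : i < j) (hj : j < n) :
    D α β (i, j) := by
  by_contra hD
  have hL : ∀ z, α z < i → β z < i → False := fun z _ _ =>
    hD (direct (mkE z (by unfold rel; omega)))
  have hM : ∀ z, i < α z → α z < j → i < β z → β z < j → False := fun z _ _ _ _ =>
    hD (direct (mkE z (by unfold rel; omega)))
  have hR : ∀ z, j < α z → j < β z → False := fun z _ _ =>
    hD (direct (mkE z (by unfold rel; omega)))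
  apply hD
  by_cases hg : i + 6 ≤ j
  · rcases two_of α β sα iβ hj hg hM with ⟨w1, w2, a1, a2, a3, a4⟩ | ⟨w1, w2, a1, a2, a3, a4⟩ <;>
      rcases two_of β α sβ iα hj hg (fun z a b c d => hM z c d a b) with
        ⟨z1, z2, b1, b2, b3, b4⟩ | ⟨z1, z2, b1, b2, b3, b4⟩
    · exact caseA hj z1 z2 w1 w2 b1 b2 b3 b4 a1 a2 a3 a4 i le_rfl
    · exact caseD' hα w1 w2 z1 z2 a1 a2 a3 a4 b1 b2 b3 b4 i le_rfl j le_rfl hj
    · exact caseD hβ z1 z2 w1 w2 b1 b2 b3 b4 a1 a2 a3 a4 i le_rfl j le_rfl hj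
    · exact caseB hα hβ z1 z2 w1 w2 b1 b2 b3 b4 a1 a2 a3 a4 (n - j - 1) j (by omega) le_rfl
  · have hU := seven α β sα sβ iα iβ hn hij hj (by omega) hL hR
    have hV := seven β α sβ sα iβ iα hn hij hj (by omega) (fun z a b => hL z b a) (fun z a b => hR z b a)
    obtain ⟨u0, hu0, hu⟩ := exists_max_image _ α (card_pos.1 (by omega : 0 <
      (univ.filter fun z => α z < i ∧ j < β z).card))
    obtain ⟨v0, hv0, hv⟩ := exists_max_image _ β (card_pos.1 (by omega : 0 <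
      (univ.filter fun z => β z < i ∧ j < α z).card))
    obtain ⟨u, hu1, hu2⟩ := low α iα _ hU _ hu
    obtain ⟨v, hv1, hv2⟩ := low β iβ _ hV _ hv
    simp only [mem_filter, mem_univ, true_and] at hu0 hv0 hu1 hv1
    obtain ⟨t, ht, ht'⟩ : ∃ t, (α u0 ≤ t ∧ β v0 ≤ t ∧ t < i) ∧ ∃ z, t ≤ α z ∧ t ≤ β z := by
      rcases le_total (α u0) (β v0) with h | h
      · exact ⟨β v0, ⟨h, le_rfl, hv0.1⟩, v0, by omega, le_rfl⟩
      · exact ⟨α u0, ⟨le_rfl, h, hu0.1⟩, u0, le_rfl, by omega⟩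
    obtain ⟨z, hz1, hz2⟩ := ht'
    have := desc (α := α) (β := β) u v (j + 1 - t) (t - 1 - (j - i)) (t - 1) (by omega) (by omega)
      (by omega) (by omega) (by omega) (by omega) (direct (mkE z (by unfold rel; omega)))
    rwa [show t - 1 - (j - i) + (j + 1 - t) = i by omega,
      show t - 1 + (j + 1 - t) = j by omega] at this

theorem Dswap {i j : ℕ} (h : D α β (i, j)) : D α β (j, i) := by
  have e : ∀ P Q, Edge α β P Q → Edge α β P.swap Q.swap :=
    fun P Q ⟨z, h1, h2, h3, h4, h5, h6⟩ => ⟨z, h2, h1, h4, h3, h6, h5⟩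
  obtain ⟨P, h1, h2⟩ := h
  have key : ∀ A B, Relation.ReflTransGen (Z α β) A B →
      Relation.ReflTransGen (Z α β) A.swap B.swap := by
    intro A B h
    induction h with
    | refl => exact .refl
    | tail _ h ih => obtain ⟨Q, x, y⟩ := h; exact ih.tail ⟨Q.swap, e _ _ x, e _ _ y⟩
  exact ⟨P.swap, key _ _ h1, e _ _ h2⟩

theorem seq {P P' Q : ℕ × ℕ} (h : Relation.ReflTransGen (Z α β) P P') (h' : Edge α β P' Q) :
    ∃ (k : ℕ) (N : ℕ → ℕ × ℕ), N 0 = P ∧ N (2 * k + 1) = Q ∧ ∀ i < 2 * k + 1,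
      (Even i → Edge α β (N i) (N (i + 1))) ∧ (Odd i → Edge α β (N (i + 1)) (N i)) := by
  induction h using Relation.ReflTransGen.head_induction_on with
  | refl =>
    refine ⟨0, fun i => if i = 0 then P' else Q, rfl, rfl, fun i hi => ?_⟩
    obtain rfl : i = 0 := by omega
    exact ⟨fun _ => h', fun h => absurd h (by decide)⟩
  | @head a c hac _ ih =>
    obtain ⟨Q', h1, h2⟩ := hac
    obtain ⟨k, N, e0, e1, hN⟩ := ih
    refine ⟨k + 1, fun i => match i with
      | 0 => a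
      | 1 => Q'
      | i + 2 => N i, rfl, e1, fun i hi => ?_⟩
    match i, hi with
    | 0, _ => exact ⟨fun _ => h1, fun h => absurd h (by decide)⟩
    | 1, _ => exact ⟨fun h => absurd h (by decide), fun _ => show Edge α β (N 0) Q' from e0 ▸ h2⟩
    | i + 2, hi =>
      have := hN i (by omega)
      exact ⟨fun h => this.1 ((Nat.even_add.1 h).2 even_two),
        fun h => this.2 (by rcases h with ⟨m, hm⟩; exact ⟨m - 1, by omega⟩)⟩

theorem card_lt (σ : Equiv.Perm (Fin n)) (z a : Fin n) :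
    (univ.filter fun e : Fin n => e ≠ z ∧ σ e < σ a).card =
      if σ z < σ a then (σ a : ℕ) - 1 else σ a := by
  have h0 : (univ.filter fun e : Fin n => σ e < σ a).card = σ a := by
    rw [← Fin.card_Iio (σ a)]
    exact card_equiv σ (by simp)
  have : (univ.filter fun e : Fin n => e ≠ z ∧ σ e < σ a) =
      (univ.filter fun e : Fin n => σ e < σ a).erase z := by
    ext e; simp
  rw [this, card_erase_eq_ite, h0]
  simp

theorem rel_iff (σ τ : Equiv.Perm (Fin n)) (z a b : Fin n)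
    (h : rel (σ z) (τ z) (σ a) (τ b)) : a ≠ z ∧ b ≠ z ∧
      (univ.filter fun e : Fin n => e ≠ z ∧ σ e < σ a).card =
        (univ.filter fun e : Fin n => e ≠ z ∧ τ e < τ b).card := by
  unfold rel at h
  refine ⟨fun e => by subst e; omega, fun e => by subst e; omega, ?_⟩
  rw [card_lt, card_lt]
  simp only [Fin.lt_def]
  split_ifs <;> omega

end Pool.Agent.H9.Recon
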