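import Mathlib

set_option autoImplicit false

namespace Pool.Agent.H9.Reg

open Finset

theorem hall_w {α β : Type} [Fintype α] [Fintype β] (a : α → β → ℚ)
    (h0 : ∀ x y, 0 ≤ a x y) (hr : ∀ x, 1 ≤ ∑ y, a x y) (hc : ∀ y, ∑ x, a x y ≤ 1) :
    ∃ f : α → β, Function.Injective f ∧ ∀ x, a x (f x) ≠ 0 := by
  classical
  refine (Fintype.all_card_le_filter_rel_iff_exists_injective fun x y => a x y ≠ 0).1 fun A => ?_
  set N := univ.filter fun b => ∃ x ∈ A, a x b ≠ 0 with hN
  have : (A.card : ℚ) ≤ N.card := by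
    calc (A.card : ℚ) = ∑ _x ∈ A, (1 : ℚ) := by simp
      _ ≤ ∑ x ∈ A, ∑ y ∈ N, a x y := by
          refine sum_le_sum fun x hx => (hr x).trans (le_of_eq (sum_subset (subset_univ N) ?_).symm)
          intro y _ hy
          by_contra h
          exact hy (by simp only [hN, mem_filter, mem_univ, true_and]; exact ⟨x, hx, h⟩)
      _ = ∑ y ∈ N, ∑ x ∈ A, a x y := sum_comm
      _ ≤ ∑ _y ∈ N, (1 : ℚ) := sum_le_sum fun y _ =>
          (sum_le_sum_of_subset_of_nonneg (subset_univ A) fun x _ _ => h0 x y).trans (hc y)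
      _ = N.card := by simp
  exact_mod_cast this

variable {V : Type} [Fintype V] [DecidableEq V]

def dg (E : Finset (Sym2 V)) (v : V) : ℕ := (E.filter (v ∈ ·)).card

theorem dg_eq (E : Finset (Sym2 V)) (v : V) :
    dg E v = (univ.filter fun w => s(v, w) ∈ E).card := by
  refine (card_bij (fun w _ => s(v, w)) ?_ ?_ ?_).symm
  · intro w hw; simpa using hw
  · intro a _ b _ h; exact Sym2.congr_right.1 h
  · intro e he
    obtain ⟨h1, h2⟩ := mem_filter.1 he
    obtain ⟨w, rfl⟩ := Sym2.mem_iff_exists.1 h2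
    exact ⟨w, by simpa using h1, rfl⟩

theorem orient (E : Finset (Sym2 V)) (k : ℕ) (hd : ∀ e ∈ E, ¬ e.IsDiag)
    (he : ∀ v, Even (dg E v)) (hk : ∀ v, dg E v ≤ 2 * k) :
    ∃ D : V → V → Bool, (∀ u v, D u v → s(u, v) ∈ E) ∧ (∀ u v, D u v → ¬ D v u) ∧
      ∀ u, 2 * (univ.filter fun v => D u v).card = dg E u ∧
        2 * (univ.filter fun v => D v u).card = dg E u := by
  obtain ⟨f, hf, hf2⟩ := hall_w (α := E) (β := V × Fin k)
    (fun e y => if y.1 ∈ e.1 ∧ y.2.val < dg E y.1 / 2 then 1 / (dg E y.1 : ℚ) else 0)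
    (fun x y => by positivity) (by
      rintro ⟨e, h⟩
      have key : ∀ v ∈ e, ∑ i : Fin k,
          (if v ∈ e ∧ i.val < dg E v / 2 then 1 / (dg E v : ℚ) else 0) = 1 / 2 := by
        intro v hv
        obtain ⟨c, hc⟩ := he v
        have h1 : 0 < dg E v := card_pos.2 ⟨e, mem_filter.2 ⟨h, hv⟩⟩
        have h2 := hk v
        rw [← sum_filter, sum_const]
        have : (univ.filter fun i : Fin k => v ∈ e ∧ i.val < dg E v / 2).card = c := by
          simp only [hv, true_and]
          rw [Fin.card_filter_val_lt]; omega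
        rw [this, hc, nsmul_eq_mul]
        have : (c : ℚ) ≠ 0 := by exact_mod_cast (by omega : c ≠ 0)
        push_cast
        field_simp
        norm_num
      rw [Fintype.sum_prod_type]
      induction e using Sym2.ind with
      | _ x y =>
        have hxy : x ≠ y := by simpa using hd _ h
        refine le_trans ?_ (sum_le_sum_of_subset_of_nonneg (subset_univ {x, y})
          fun v _ _ => by positivity)
        rw [sum_pair hxy, key x (by simp), key y (by simp)]
        norm_num) (by
      rintro ⟨v, i⟩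
      calc _ ≤ ∑ e : E, (if v ∈ e.1 then 1 / (dg E v : ℚ) else 0) := by
            refine sum_le_sum fun e _ => ?_
            split_ifs with h1 h2
            · exact le_rfl
            · exact absurd h1.1 h2
            · positivity
            · exact le_rfl
        _ = dg E v * (1 / (dg E v : ℚ)) := by
            rw [sum_coe_sort E (fun e => if v ∈ e then 1 / (dg E v : ℚ) else 0), ← sum_filter,
              sum_const, nsmul_eq_mul]
            rfl
        _ ≤ 1 := by rw [mul_one_div]; exact div_self_le_one _)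
  have hf3 : ∀ e : E, (f e).1 ∈ e.1 ∧ (f e).2.val < dg E (f e).1 / 2 := fun e => by
    by_contra h
    exact hf2 e (if_neg h)
  set D : V → V → Bool := fun u v => if h : s(u, v) ∈ E then decide ((f ⟨_, h⟩).1 = u) else false
    with hD
  have hD1 : ∀ u v, D u v = true ↔ ∃ h : s(u, v) ∈ E, (f ⟨_, h⟩).1 = u := by
    intro u v
    simp only [hD]
    split_ifs with h <;> simp [h]
  have hsw : ∀ u v (h : s(u, v) ∈ E) (h' : s(v, u) ∈ E), f ⟨_, h⟩ = f ⟨_, h'⟩ := fun u v h h' =>
    congrArg f (Subtype.ext Sym2.eq_swap)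
  have hanti : ∀ u v, D u v → ¬ D v u := by
    intro u v h1 h2
    obtain ⟨a, b⟩ := (hD1 _ _).1 h1
    obtain ⟨c, d⟩ := (hD1 _ _).1 h2
    rw [hsw u v a c, d] at b
    exact hd _ a (by simp [b])
  have hsum : ∀ u, (univ.filter fun v => D u v).card + (univ.filter fun v => D v u).card =
      dg E u := by
    intro u
    rw [dg_eq, ← card_union_of_disjoint]
    · congr 1
      ext v
      simp only [mem_union, mem_filter, mem_univ, true_and, hD1]
      constructor
      · rintro (⟨h, -⟩ | ⟨h, -⟩)
        · exact h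
        · rwa [Sym2.eq_swap]
      · intro h
        have h' : s(v, u) ∈ E := by rwa [Sym2.eq_swap]
        rcases Sym2.mem_iff.1 (hf3 ⟨_, h⟩).1 with p | p
        · exact Or.inl ⟨h, p⟩
        · exact Or.inr ⟨h', by rw [hsw v u h' h, p]⟩
    · rw [disjoint_left]
      intro v p q
      exact hanti _ _ (mem_filter.1 p).2 (mem_filter.1 q).2
  have hle : ∀ u, (univ.filter fun v => D u v).card ≤ (univ.filter fun v => D v u).card := by
    intro u
    have : (univ.filter fun v => D u v).card ≤ (range (dg E u / 2)).card := by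
      refine card_le_card_of_injOn
        (fun v => if h : s(u, v) ∈ E then (f ⟨_, h⟩).2.val else 0) ?_ ?_
      · intro v hv
        obtain ⟨a, b⟩ := (hD1 _ _).1 (by simpa using hv)
        have := (hf3 ⟨_, a⟩).2
        rw [b] at this
        simpa [a] using this
      · intro v hv w hw h
        obtain ⟨a, b⟩ := (hD1 _ _).1 (by simpa using hv)
        obtain ⟨c, d⟩ := (hD1 _ _).1 (by simpa using hw)
        simp only [dif_pos a, dif_pos c] at h
        have := hf (Prod.ext (b.trans d.symm) (Fin.ext h))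
        exact Sym2.congr_right.1 (congrArg Subtype.val this)
    rw [card_range] at this
    have := hsum u
    omega
  have heq : ∑ u, (univ.filter fun v => D u v).card = ∑ u, (univ.filter fun v => D v u).card := by
    simp only [card_filter]
    exact sum_comm
  have := (sum_eq_sum_iff_of_le fun u _ => hle u).1 heq
  refine ⟨D, fun u v h => ((hD1 _ _).1 h).1, hanti, fun u => ?_⟩
  have h1 := this u (mem_univ u)
  have h2 := hsum u
  omega

theorem factor (E : Finset (Sym2 V)) (k : ℕ) (hd : ∀ e ∈ E, ¬ e.IsDiag)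
    (he : ∀ v, Even (dg E v)) (hk : ∀ v, dg E v ≤ 2 * (k + 1)) :
    ∃ F ⊆ E, ∀ v, (dg F v = 0 ∧ dg E v ≤ 2 * k) ∨ dg F v = 2 := by
  obtain ⟨D, h1, h2, h3⟩ := orient E (k + 1) hd he hk
  have hsum : ∀ (u : V) (P : V → Bool), 2 * (univ.filter fun v => P v).card = dg E u →
      ∑ v, (((if P v then 1 else 0) + (if u = v then k + 1 - dg E u / 2 else 0) : ℕ) : ℚ) /
        (k + 1) = 1 := by
    intro u P hP
    rw [← sum_div, ← Nat.cast_sum, sum_add_distrib, ← card_filter, sum_ite_eq, if_pos (mem_univ _),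
      div_eq_one_iff_eq (by positivity)]
    have := hk u
    exact_mod_cast (by omega : _ = k + 1)
  obtain ⟨f, hf, hf2⟩ := hall_w (fun u v =>
    (((if D u v then 1 else 0) + (if u = v then k + 1 - dg E u / 2 else 0) : ℕ) : ℚ) / (k + 1))
    (fun x y => by positivity) (fun u => (hsum u _ (h3 u).1).ge) (fun v => by
      refine le_of_eq (Eq.trans (sum_congr rfl fun u _ => ?_) (hsum v (fun u => D u v) (h3 v).2))
      by_cases h : u = v
      · subst h; rfl
      · simp [h, Ne.symm h])
  obtain ⟨g, hg⟩ := (Finite.injective_iff_surjective.1 hf).hasRightInverse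
  have hD : ∀ u, f u ≠ u → D u (f u) := by
    intro u hu
    by_contra h
    exact hf2 u (by simp [h, Ne.symm hu])
  refine ⟨(univ.filter fun u => f u ≠ u).image fun u => s(u, f u), ?_, fun v => ?_⟩
  · intro e h
    obtain ⟨u, hu, rfl⟩ := mem_image.1 h
    exact h1 _ _ (hD u (mem_filter.1 hu).2)
  have key : ∀ w, s(v, w) ∈ ((univ.filter fun u => f u ≠ u).image fun u => s(u, f u)) ↔
      f v ≠ v ∧ (w = f v ∨ w = g v) := by
    intro w
    simp only [mem_image, mem_filter, mem_univ, true_and, Sym2.eq_iff]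
    constructor
    · rintro ⟨u, hu, ⟨rfl, rfl⟩ | ⟨rfl, rfl⟩⟩
      · exact ⟨hu, Or.inl rfl⟩
      · exact ⟨fun h => hu (hf h), Or.inr (hf (hg _).symm)⟩
    · rintro ⟨h, rfl | rfl⟩
      · exact ⟨v, h, Or.inl ⟨rfl, rfl⟩⟩
      · exact ⟨g v, fun h' => h (by rw [hg] at h'; nth_rewrite 1 [h']; exact hg v),
          Or.inr ⟨rfl, hg v⟩⟩
  rw [dg_eq]
  simp only [key]
  by_cases h : f v = v
  · refine Or.inl ⟨by simp [h], ?_⟩
    have h4 := hf2 v
    have h5 : ¬ D v v := fun p => h2 _ _ p p
    rw [h] at h4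
    by_contra h6
    obtain ⟨c, hc⟩ := he v
    exact h4 (by simp [h5, show k + 1 - dg E v / 2 = 0 by omega])
  · right
    have h4 : f v ≠ g v := by
      intro p
      have h5 : f (g v) ≠ g v := by rw [hg, ← p]; exact Ne.symm h
      have h6 := hD _ h5
      rw [hg, ← p] at h6
      exact h2 _ _ (hD v h) h6
    rw [← card_pair h4]
    congr 1
    ext w
    simp [h]

theorem dg_sdiff {E F : Finset (Sym2 V)} (h : F ⊆ E) (v : V) : dg (E \ F) v + dg F v = dg E v := by
  unfold dg
  rw [← card_union_of_disjoint (disjoint_filter_filter sdiff_disjoint), ← filter_union,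
    sdiff_union_of_subset h]

def Good (E : Finset (Sym2 V)) : Prop := (∀ v, (∃ e ∈ E, v ∈ e) → dg E v = 2) ∨ E.card = 1

theorem decomp (k : ℕ) : ∀ (E : Finset (Sym2 V)), (∀ e ∈ E, ¬ e.IsDiag) →
    (∀ v, Even (dg E v)) → (∀ v, dg E v ≤ 2 * k) →
    ∃ P : Finpartition E, P.parts.card ≤ k ∧ ∀ F ∈ P.parts, Good F := by
  induction k with
  | zero =>
    intro E _ _ hk
    have : E = ∅ := by
      rw [eq_empty_iff_forall_notMem]
      intro e he
      have h1 : 0 < dg E e.out.1 := card_pos.2 ⟨e, mem_filter.2 ⟨he, Sym2.out_fst_mem e⟩⟩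
      have := hk e.out.1
      omega
    subst this
    exact ⟨Finpartition.empty _, by simp, by simp⟩
  | succ k ih =>
    intro E hd he hk
    obtain ⟨F, hF, h1⟩ := factor E k hd he hk
    obtain ⟨P, hP, h2⟩ := ih (E \ F) (fun e h => hd e (mem_sdiff.1 h).1) (fun v => by
      have h3 := dg_sdiff hF v
      obtain ⟨c, hc⟩ := he v
      rcases h1 v with h4 | h4
      · exact ⟨c, by omega⟩
      · exact ⟨c - 1, by omega⟩) (fun v => by
      have h3 := dg_sdiff hF v
      have := hk v
      rcases h1 v with h4 | h4 <;> omega)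
    by_cases h0 : F = ∅
    · subst h0
      exact ⟨P.copy (by simp), hP.trans (Nat.le_succ k), h2⟩
    · refine ⟨P.extend (b := F) h0 sdiff_disjoint (sdiff_union_of_subset hF), ?_, ?_⟩
      · rw [Finpartition.card_extend]; omega
      · intro X hX
        rcases mem_insert.1 hX with rfl | hX
        · refine Or.inl fun v ⟨e, p, q⟩ => ?_
          have : 0 < dg X v := card_pos.2 ⟨e, mem_filter.2 ⟨p, q⟩⟩
          rcases h1 v with h4 | h4 <;> omega
        · exact h2 X hX

theorem singles (J : Finset (Sym2 V)) : ∀ (E : Finset (Sym2 V)) (P : Finpartition (E \ J)),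
    J ⊆ E → (∀ F ∈ P.parts, Good F) →
    ∃ Q : Finpartition E, Q.parts.card ≤ P.parts.card + J.card ∧ ∀ F ∈ Q.parts, Good F := by
  induction J using Finset.induction_on with
  | empty => exact fun E P _ h => ⟨P.copy (by simp), le_rfl, h⟩
  | insert e J he ih =>
    intro E P hJ h
    obtain ⟨Q, h1, h2⟩ := ih E (P.extend (b := {e}) (by simp) (by simp) (by
      ext x
      have := hJ (mem_insert_self e J)
      by_cases p : x = e <;> simp [p, this, he])) ((subset_insert e J).trans hJ) (by
      intro X hX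
      rcases mem_insert.1 hX with rfl | hX
      · exact Or.inr (card_singleton e)
      · exact h X hX)
    rw [Finpartition.card_extend] at h1
    exact ⟨Q, by rw [card_insert_of_notMem he]; omega, h2⟩

end Pool.Agent.H9.Reg
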