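import Pool.Agent.H9.Reg1

set_option autoImplicit false
set_option linter.unusedSectionVars false

namespace Pool.Agent.H9.Reg

open Finset

variable {V : Type} [Fintype V] [DecidableEq V] (G : SimpleGraph V) [DecidableRel G.Adj]

def Cert (S : Finset V) (r : V) (l : V → ℕ) : Prop :=
  r ∈ S ∧ l r = 0 ∧ ∀ w ∈ S, w ≠ r → ∃ p ∈ S, G.Adj w p ∧ l p < l w

def In (S : Finset V) (J : Finset (Sym2 V)) : Prop := ∀ e ∈ J, e ∈ G.edgeSet ∧ ∀ x ∈ e, x ∈ S

theorem dg_insert {J : Finset (Sym2 V)} {e : Sym2 V} (h : e ∉ J) (v : V) :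
    dg (insert e J) v = dg J v + if v ∈ e then 1 else 0 := by
  unfold dg
  rw [filter_insert]
  split_ifs
  · rw [card_insert_of_notMem (fun p => h (mem_filter.1 p).1)]
  · rfl

theorem dg_zero {S : Finset V} {J : Finset (Sym2 V)} (h : In G S J) {v : V} (hv : v ∉ S) :
    dg J v = 0 := by
  unfold dg
  rw [card_eq_zero, filter_eq_empty_iff]
  exact fun e he p => hv ((h e he).2 v p)

theorem tjoin (r : V) (l : V → ℕ) (n : ℕ) : ∀ (S : Finset V) (t : V → ZMod 2), S.card = n →
    Cert G S r l → ∑ w ∈ S, t w = 0 →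
    ∃ J, In G S J ∧ (∀ w ∈ S, (dg J w : ZMod 2) = t w) ∧ J.card + 1 ≤ S.card := by
  induction n with
  | zero => intro S t h hc; rw [card_eq_zero.1 h] at hc; exact absurd hc.1 (by simp)
  | succ n ih =>
    intro S t hn hc ht
    obtain ⟨u, hu, hm⟩ := exists_max_image S l ⟨r, hc.1⟩
    by_cases hur : u = r
    · have : S = {r} := by
        refine eq_singleton_iff_unique_mem.2 ⟨hc.1, fun w hw => ?_⟩
        by_contra h
        obtain ⟨p, -, -, h3⟩ := hc.2.2 w hw h
        have := hm w hw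
        rw [hur, hc.2.1] at this
        omega
      subst this
      exact ⟨∅, fun e he => absurd he (by simp), by simpa [dg, eq_comm] using ht, by simp⟩
    obtain ⟨p, hp, hup, hl⟩ := hc.2.2 u hu hur
    have hc' : Cert G (S.erase u) r l := ⟨mem_erase.2 ⟨Ne.symm hur, hc.1⟩, hc.2.1, fun w hw h => by
      obtain ⟨q, h1, h2, h3⟩ := hc.2.2 w (mem_of_mem_erase hw) h
      have := hm w (mem_of_mem_erase hw)
      exact ⟨q, mem_erase.2 ⟨by rintro rfl; omega, h1⟩, h2, h3⟩⟩
    have hp' : p ∈ S.erase u := mem_erase.2 ⟨hup.ne.symm, hp⟩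
    obtain ⟨J, h1, h2, h3⟩ := ih (S.erase u) (fun w => t w + if w = p then t u else 0)
      (by rw [card_erase_of_mem hu]; omega) hc' (by
        rw [sum_add_distrib, sum_ite_eq', if_pos hp', sum_erase_add _ _ hu, ht])
    have h4 : dg J u = 0 := dg_zero G h1 (by simp)
    have h5 := card_erase_add_one hu
    have h6 : In G S J := fun e he => ⟨(h1 e he).1, fun x hx => mem_of_mem_erase ((h1 e he).2 x hx)⟩
    have h7 : ∀ z : ZMod 2, z = 0 ∨ z = 1 := by decide
    rcases h7 (t u) with h | h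
    · refine ⟨J, h6, fun w hw => ?_, by omega⟩
      by_cases q : w = u
      · simp [q, h4, h]
      · simpa [h] using h2 w (mem_erase.2 ⟨q, hw⟩)
    · have h8 : s(u, p) ∉ J := fun q => by simpa using (h1 _ q).2 u (by simp)
      refine ⟨insert s(u, p) J, ?_, fun w hw => ?_, by rw [card_insert_of_notMem h8]; omega⟩
      · intro e he
        rcases mem_insert.1 he with rfl | he
        · exact ⟨hup, by simp [hu, hp]⟩
        · exact h6 e he
      · rw [dg_insert h8]
        by_cases q : w = u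
        · simp [q, h4, h]
        · have h9 : (1 : ZMod 2) + 1 = 0 := by decide
          have := h2 w (mem_erase.2 ⟨q, hw⟩)
          by_cases q' : w = p
          · simp [q'] at this ⊢
            rw [this, h, add_assoc, h9, add_zero]
          · simpa [q, q'] using this

theorem lip (S : Finset V) (r : V) (l0 : V → ℕ) (h : Cert G S r l0) :
    ∃ l, Cert G S r l ∧ ∀ w ∈ S, ∀ p ∈ S, G.Adj w p → l w ≤ l p + 1 := by
  classical
  have hex : ∃ n, ∃ l, Cert G S r l ∧ ∑ w ∈ S, l w = n := ⟨_, l0, h, rfl⟩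
  obtain ⟨l, hl, hs⟩ := Nat.find_spec hex
  refine ⟨l, hl, fun w hw p hp hwp => ?_⟩
  by_contra hc
  have hwr : w ≠ r := by rintro rfl; rw [hl.2.1] at hc; omega
  have h1 : Cert G S r (Function.update l w (l p + 1)) := by
    refine ⟨hl.1, by rw [Function.update_of_ne hwr.symm]; exact hl.2.1, fun x hx hxr => ?_⟩
    by_cases q : x = w
    · subst q
      exact ⟨p, hp, hwp, by rw [Function.update_self, Function.update_of_ne hwp.ne.symm]; omega⟩
    · obtain ⟨y, a, b, c⟩ := hl.2.2 x hx hxr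
      refine ⟨y, a, b, ?_⟩
      rw [Function.update_of_ne q]
      by_cases q' : y = w
      · subst q'; rw [Function.update_self]; omega
      · rwa [Function.update_of_ne q']
  have h2 := Nat.find_min' hex ⟨_, h1, rfl⟩
  rw [← hs, sum_update_of_mem hw, ← add_sum_erase _ _ hw, sdiff_singleton_eq_erase] at h2
  omega

theorem two_nbr {S : Finset V} {w : V} (h : 2 ≤ (S.filter (G.Adj w)).card) (z : V) :
    ∃ p ∈ S, G.Adj w p ∧ p ≠ z := by
  obtain ⟨p, hp, h2⟩ := exists_mem_ne (s := S.filter (G.Adj w)) (by omega) z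
  exact ⟨p, (mem_filter.1 hp).1, (mem_filter.1 hp).2, h2⟩

theorem del_edge (S : Finset V) (r : V) (l0 : V → ℕ) (h : Cert G S r l0)
    (hd : ∀ w ∈ S, 2 ≤ (S.filter (G.Adj w)).card) :
    ∃ u ∈ S, ∃ v ∈ S, G.Adj u v ∧ ∃ l, Cert G ((S.erase u).erase v) r l := by
  obtain ⟨l, hl, hlip⟩ := lip G S r l0 h
  obtain ⟨u, hu, hm⟩ := exists_max_image S l ⟨r, hl.1⟩
  have hpos : 0 < l u := by
    obtain ⟨p, a, b, c⟩ := two_nbr G (hd r hl.1) r
    obtain ⟨q, -, -, d⟩ := hl.2.2 p a c
    have := hm p a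
    omega
  by_cases hc : ∃ x ∈ S, ∃ y ∈ S, G.Adj x y ∧ l x = l u ∧ l y = l u
  · obtain ⟨x, hx, y, hy, hxy, h1, h2⟩ := hc
    have h0 := hl.2.1
    refine ⟨x, hx, y, hy, hxy, l, ?_, hl.2.1, fun w hw hwr => ?_⟩
    · simp only [mem_erase]
      exact ⟨by rintro rfl; omega, by rintro rfl; omega, hl.1⟩
    · simp only [mem_erase] at hw ⊢
      obtain ⟨p, a, b, c⟩ := hl.2.2 w hw.2.2 hwr
      have := hm w hw.2.2
      exact ⟨p, ⟨by rintro rfl; omega, by rintro rfl; omega, a⟩, b, c⟩
  · have hlt : ∀ x ∈ S, ∀ y ∈ S, G.Adj x y → l x = l u → l y < l u := fun x hx y hy a b =>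
      lt_of_le_of_ne (hm y hy) fun c => hc ⟨x, hx, y, hy, a, b, c⟩
    obtain ⟨p, hp, hup, hpr⟩ := two_nbr G (hd u hu) r
    have h0 := hl.2.1
    have h1 := hlip u hu p hp hup
    refine ⟨u, hu, p, hp, hup, l, ?_, hl.2.1, fun w hw hwr => ?_⟩
    · simp only [mem_erase]
      exact ⟨hpr.symm, by rintro rfl; omega, hl.1⟩
    · simp only [mem_erase] at hw ⊢
      by_cases q : l w = l u
      · obtain ⟨y, a, b, c⟩ := two_nbr G (hd w hw.2.2) p
        have := hlt w hw.2.2 y a b q
        exact ⟨y, ⟨c, by rintro rfl; omega, a⟩, b, by omega⟩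
      · obtain ⟨y, a, b, c⟩ := hl.2.2 w hw.2.2 hwr
        have := hm w hw.2.2
        exact ⟨y, ⟨by rintro rfl; omega, by rintro rfl; omega, a⟩, b, c⟩

theorem conn_join (r : V) (k : ℕ) : ∀ (S : Finset V) (l : V → ℕ), Cert G S r l → Even S.card →
    (∀ w ∈ S, 2 * k + 1 ≤ (S.filter (G.Adj w)).card) →
    ∃ J, In G S J ∧ (∀ w ∈ S, Odd (dg J w)) ∧ J.card + k + 1 ≤ S.card := by
  induction k with
  | zero =>
    intro S l hc he _
    obtain ⟨J, h1, h2, h3⟩ := tjoin G r l _ S (fun _ => 1) rfl hc (by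
      simpa using (ZMod.natCast_eq_zero_iff_even).2 he)
    exact ⟨J, h1, fun w hw => (ZMod.natCast_eq_one_iff_odd).1 (h2 w hw), h3⟩
  | succ k ih =>
    intro S l0 hc he hd
    obtain ⟨u, hu, v, hv, huv, l, hl⟩ := del_edge G S r l0 hc fun w hw => by have := hd w hw; omega
    have hv' : v ∈ S.erase u := mem_erase.2 ⟨huv.ne.symm, hv⟩
    have c1 := card_erase_add_one hu
    have c2 := card_erase_add_one hv'
    obtain ⟨J, h1, h2, h3⟩ := ih _ l hl (by obtain ⟨c, hc⟩ := he; exact ⟨c - 1, by omega⟩)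
      (fun w hw => by
        have := hd w (mem_of_mem_erase (mem_of_mem_erase hw))
        rw [filter_erase, filter_erase]
        have a := pred_card_le_card_erase (s := S.filter (G.Adj w)) (a := u)
        have b := pred_card_le_card_erase (s := (S.filter (G.Adj w)).erase u) (a := v)
        omega)
    have h8 : s(u, v) ∉ J := fun q => by simpa using (h1 _ q).2 v (by simp)
    refine ⟨insert s(u, v) J, ?_, fun w hw => ?_, by rw [card_insert_of_notMem h8]; omega⟩
    · intro e he
      rcases mem_insert.1 he with rfl | he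
      · exact ⟨huv, by simp [hu, hv]⟩
      · exact ⟨(h1 e he).1, fun x hx => mem_of_mem_erase (mem_of_mem_erase ((h1 e he).2 x hx))⟩
    · rw [dg_insert h8]
      by_cases q : w ∈ (S.erase u).erase v
      · rw [if_neg (by simp only [mem_erase] at q; simp [q.1, q.2.1])]
        exact h2 w q
      · rw [dg_zero G h1 q, if_pos (by simp only [mem_erase, hw] at q; simp; tauto)]
        exact odd_one

theorem component (r : V) : ∃ (C : Finset V) (l : V → ℕ), Cert G C r l ∧
    (∀ w ∈ C, ∀ x, G.Adj w x → x ∈ C) := by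
  classical
  obtain ⟨C, hC, hm⟩ := exists_max_image (univ.filter fun C : Finset V => ∃ l, Cert G C r l) card
    ⟨{r}, by simp only [mem_filter, mem_univ, true_and]; exact ⟨fun _ => 0, by simp, rfl, by simp⟩⟩
  obtain ⟨l, hl⟩ := (mem_filter.1 hC).2
  refine ⟨C, l, hl, fun w hw x hwx => ?_⟩
  by_contra hx
  have hne : ∀ y ∈ C, y ≠ x := by rintro y hy rfl; exact hx hy
  have := hm (insert x C) (mem_filter.2 ⟨mem_univ _, Function.update l x (l w + 1),
    mem_insert_of_mem hl.1, by rw [Function.update_of_ne (hne _ hl.1)]; exact hl.2.1, by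
      intro y hy hyr
      rcases mem_insert.1 hy with rfl | hy
      · exact ⟨w, mem_insert_of_mem hw, hwx.symm, by
          rw [Function.update_self, Function.update_of_ne (hne _ hw)]; omega⟩
      · obtain ⟨p, a, b, c⟩ := hl.2.2 y hy hyr
        exact ⟨p, mem_insert_of_mem a, b, by
          rwa [Function.update_of_ne (hne _ hy), Function.update_of_ne (hne _ a)]⟩⟩)
  rw [card_insert_of_notMem hx] at this
  omega

theorem cert_sub {C S : Finset V} {r : V} {l : V → ℕ} (h : Cert G C r l) (hr : r ∈ S)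
    (hS : ∀ w ∈ S, ∀ x, G.Adj w x → x ∈ S) : C ⊆ S := by
  have : ∀ n, ∀ w ∈ C, l w = n → w ∈ S := by
    intro n
    induction n using Nat.strong_induction_on with
    | _ n ih =>
      intro w hw hn
      by_cases q : w = r
      · rwa [q]
      · obtain ⟨p, a, b, c⟩ := h.2.2 w hw q
        exact hS p (ih _ (hn ▸ c) p a rfl) w b.symm
  exact fun w hw => this _ w hw rfl

theorem closed_filter {k : ℕ} (h : G.IsRegularOfDegree k) {C : Finset V}
    (hC : ∀ w ∈ C, ∀ x, G.Adj w x → x ∈ C) {w : V} (hw : w ∈ C) :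
    (C.filter (G.Adj w)).card = k := by
  rw [← h w, ← SimpleGraph.card_neighborFinset_eq_degree]
  congr 1
  ext x
  simpa using hC w hw x

theorem closed_even {k : ℕ} (h : G.IsRegularOfDegree (2 * k + 1)) {C : Finset V}
    (hC : ∀ w ∈ C, ∀ x, G.Adj w x → x ∈ C) : Even C.card := by
  have h1 : ∑ p ∈ (C ×ˢ C).filter (fun p => G.Adj p.1 p.2), (1 : ZMod 2) = 0 := by
    refine sum_involution (fun p _ => p.swap) (fun _ _ => by decide) ?_ ?_ (fun _ _ => rfl)
    · intro p hp _ q
      exact (mem_filter.1 hp).2.ne (congrArg Prod.snd q)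
    · intro p hp
      simp only [mem_filter, mem_product] at hp ⊢
      exact ⟨hp.1.symm, hp.2.symm⟩
  rw [sum_filter, sum_product] at h1
  have h2 : ∀ w ∈ C, ∑ x ∈ C, (if G.Adj w x then (1 : ZMod 2) else 0) = 1 := by
    intro w hw
    rw [← sum_filter, sum_const, closed_filter G h hC hw, nsmul_eq_mul, mul_one]
    exact (ZMod.natCast_eq_one_iff_odd).2 ⟨k, rfl⟩
  rw [sum_congr rfl h2] at h1
  exact (ZMod.natCast_eq_zero_iff_even).1 (by simpa using h1)

theorem join {k : ℕ} (h : G.IsRegularOfDegree (2 * k + 1)) (S : Finset V) :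
    (∀ w ∈ S, ∀ x, G.Adj w x → x ∈ S) → ∃ J, In G S J ∧ (∀ w ∈ S, Odd (dg J w)) ∧
      J.card ≤ S.card ∧ (S.Nonempty → J.card + k + 1 ≤ S.card) := by
  induction S using Finset.strongInduction with
  | H S ih =>
    intro hS
    rcases S.eq_empty_or_nonempty with rfl | ⟨r, hr⟩
    · exact ⟨∅, fun e he => absurd he (by simp), by simp, by simp, by simp⟩
    obtain ⟨C, l, hl, hC⟩ := component G r
    have hsub := cert_sub G hl hr hS
    obtain ⟨J, h1, h2, h3⟩ := conn_join G r k C l hl (closed_even G h hC)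
      fun w hw => (closed_filter G h hC hw).ge
    obtain ⟨J', h4, h5, h6, -⟩ := ih (S \ C) (sdiff_ssubset hsub ⟨r, hl.1⟩) fun w hw x hx =>
      mem_sdiff.2 ⟨hS w (mem_sdiff.1 hw).1 x hx, fun q => (mem_sdiff.1 hw).2 (hC x q w hx.symm)⟩
    have h7 := card_sdiff_add_card_eq_card hsub
    have h8 := card_union_le J J'
    refine ⟨J ∪ J', fun e he => ?_, fun w hw => ?_, by omega, fun _ => by omega⟩
    · rcases mem_union.1 he with he | he
      · exact ⟨(h1 e he).1, fun x hx => hsub ((h1 e he).2 x hx)⟩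
      · exact ⟨(h4 e he).1, fun x hx => (mem_sdiff.1 ((h4 e he).2 x hx)).1⟩
    · by_cases q : w ∈ C
      · have := dg_zero G h4 (v := w) (by simp [q])
        have h9 := h2 w q
        unfold dg at *
        rwa [filter_union, card_eq_zero.1 this, union_empty]
      · have := dg_zero G h1 q
        have h9 := h5 w (mem_sdiff.2 ⟨hw, q⟩)
        unfold dg at *
        rwa [filter_union, card_eq_zero.1 this, empty_union]

theorem main [Nonempty V] {k : ℕ} (h : G.IsRegularOfDegree (2 * k + 1)) :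
    ∃ P : Finpartition G.edgeFinset, P.parts.card + 1 ≤ Fintype.card V ∧ ∀ F ∈ P.parts, Good F := by
  obtain ⟨J, h1, h2, -, h3⟩ := join G h univ (by simp)
  have hJ : J ⊆ G.edgeFinset := fun e he => by simpa using (h1 e he).1
  have hd : ∀ v, dg G.edgeFinset v = 2 * k + 1 := fun v => by
    rw [← h v, ← SimpleGraph.card_incidenceFinset_eq_degree, SimpleGraph.incidenceFinset_eq_filter]
    rfl
  obtain ⟨P, h4, h5⟩ := decomp k (G.edgeFinset \ J)
    (fun e he => G.not_isDiag_of_mem_edgeSet (by simpa using (mem_sdiff.1 he).1))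
    (fun v => by
      have := dg_sdiff hJ v
      obtain ⟨c, hc⟩ := h2 v (mem_univ v)
      rw [hd] at this
      exact ⟨k - c, by omega⟩)
    (fun v => by
      have := dg_sdiff hJ v
      obtain ⟨c, hc⟩ := h2 v (mem_univ v)
      rw [hd] at this
      omega)
  obtain ⟨Q, h6, h7⟩ := singles J _ P hJ h5
  have := h3 univ_nonempty
  rw [card_univ] at this
  exact ⟨Q, by omega, h7⟩

end Pool.Agent.H9.Reg
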