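import Pool.Agent.H9.RelDefs

set_option autoImplicit false

namespace Pool.Agent.H9.Rel

inductive P5 : Type
  | a | b | c | d | e
  deriving DecidableEq, Fintype

open P5

def le5 : P5 → P5 → Bool
  | a, a | a, c | a, d | b, b | b, d | c, c | d, d | _, e => true
  | _, _ => false

instance : PartialOrder P5 where
  le x y := le5 x y = true
  le_refl := by decide
  le_trans := by decide
  le_antisymm := by decide

instance : DecidableLE P5 := fun x y => inferInstanceAs (Decidable (le5 x y = true))

theorem m1 : IsMinimalRelatingRetract ({e} : Set P5) := by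
  refine ⟨⟨fun _ => e, fun _ _ _ => le_rfl, fun _ => rfl, fun y hy => hy.symm, fun x _ => ?_⟩,
    fun Z hZ hne _ => ?_⟩
  · left; revert x; decide
  · exact hne.ne_empty (Set.ssubset_singleton_iff.1 hZ)

def r2 : P5 → P5
  | a | c => a
  | _ => d

theorem m2 : IsMinimalRelatingRetract ({a, d} : Set P5) := by
  refine ⟨⟨r2, ?_, ?_, ?_, ?_⟩, fun Z hZ _ ⟨r, _, h1, _, h3⟩ => ?_⟩
  · intro x y; revert x y; decide
  · intro x; cases x <;> simp [r2]
  · rintro y (rfl | rfl) <;> rfl
  · intro x _; revert x; decide
  · have hb : b ∉ Z := fun h => by simpa using hZ.1 h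
    have hc : c ∉ Z := fun h => by simpa using hZ.1 h
    have e1 : r b = d := by
      rcases hZ.1 (h1 b) with h | h
      · have := h3 b hb
        rw [h] at this
        exact absurd this (by decide)
      · exact h
    have e2 : r c = a := by
      rcases hZ.1 (h1 c) with h | h
      · exact h
      · have := h3 c hc
        rw [h] at this
        exact absurd this (by decide)
    apply hZ.2
    rintro y (rfl | rfl)
    · exact e2 ▸ h1 c
    · exact e1 ▸ h1 b

theorem noiso : IsEmpty (({e} : Set P5) ≃o ({a, d} : Set P5)) := by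
  refine ⟨fun f => ?_⟩
  have h : f.symm ⟨a, by simp⟩ = f.symm ⟨d, by simp⟩ := Subsingleton.elim _ _
  simpa using f.symm.injective h

end Pool.Agent.H9.Rel
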