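import Mathlib

set_option autoImplicit false

namespace Pool.Agent.H9.Rel

def IsRelatingRetract {X : Type} [PartialOrder X] (Y : Set X) : Prop :=
  ∃ r : X → X, Monotone r ∧ (∀ x, r x ∈ Y) ∧ (∀ y ∈ Y, r y = y) ∧
    ∀ x, x ∉ Y → x ≤ r x ∨ r x ≤ x

def IsMinimalRelatingRetract {X : Type} [PartialOrder X] (Y : Set X) : Prop :=
  IsRelatingRetract Y ∧ ∀ Z : Set X, Z ⊂ Y → Z.Nonempty → ¬ IsRelatingRetract Z

end Pool.Agent.H9.Rel
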