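import Mathlib

set_option autoImplicit false

namespace Pool.Agent.H9.SC

/-- the ceiling of n / k -/
def numParts (n k : ℕ) : ℕ := (n + k - 1) / k

/-- G with isolated vertices added and every part of the partition P made a clique -/
def unionGraph {n : ℕ} (G : SimpleGraph (Fin n)) (k : ℕ)
    (P : Fin n ⊕ Fin (k * numParts n k - n) → Fin (numParts n k)) :
    SimpleGraph (Fin n ⊕ Fin (k * numParts n k - n)) :=
  G.map Function.Embedding.inl ⊔ SimpleGraph.fromRel (fun x y => P x = P y)

def StronglyColorable {n : ℕ} (G : SimpleGraph (Fin n)) (k : ℕ) : Prop :=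
  ∀ P : Fin n ⊕ Fin (k * numParts n k - n) → Fin (numParts n k),
    (∀ i, (Finset.univ.filter (fun x => P x = i)).card = k) → (unionGraph G k P).Colorable k

noncomputable def strongChromaticNumber {n : ℕ} (G : SimpleGraph (Fin n)) : ℕ :=
  sInf {k : ℕ | 1 ≤ k ∧ StronglyColorable G k}

noncomputable def bicliqueNumber {n : ℕ} (G : SimpleGraph (Fin n)) : ℕ :=
  max 1 (sSup {m : ℕ | ∃ a b : ℕ, 1 ≤ a ∧ 1 ≤ b ∧ m = a + b ∧
    (completeBipartiteGraph (Fin a) (Fin b)).IsContained G})

end Pool.Agent.H9.SC
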