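import Pool.Agent.H9.BT
import Pool.Agent.H9.SCDefs

set_option autoImplicit false

namespace Pool.Agent.H9.SC

open Finset

def adjF (a b : ℕ) : Bool :=
  a / 13 == b / 13 && Nat.ble 5 ((a + 78 - b) % 13) && Nat.ble ((a + 78 - b) % 13) 8

def G : SimpleGraph (Fin 78) where
  Adj i j := adjF i j = true
  symm := ⟨by intro i j; revert i j; decide +kernel⟩
  loopless := ⟨by intro i; revert i; decide +kernel⟩

instance : DecidableRel G.Adj := fun i j => inferInstanceAs (Decidable (adjF i j = true))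

def BL : List (List ℕ) := [[13, 14, 15, 16, 34, 35], [17, 18, 19, 20, 36, 37],
  [21, 22, 23, 24, 25, 38], [26, 27, 28, 29, 0, 1], [30, 31, 32, 33, 2, 3],
  [39, 40, 41, 42, 60, 61], [43, 44, 45, 46, 62, 63], [47, 48, 49, 50, 51, 64],
  [52, 53, 54, 55, 4, 5], [56, 57, 58, 59, 6, 7], [65, 66, 67, 68, 8, 9],
  [69, 70, 71, 72, 10, 11], [73, 74, 75, 76, 77, 12]]

def blkL : List ℕ := [3, 3, 4, 4, 8, 8, 9, 9, 10, 10, 11, 11, 12, 0, 0, 0, 0, 1, 1, 1, 1, 2, 2, 2,
  2, 2, 3, 3, 3, 3, 4, 4, 4, 4, 0, 0, 1, 1, 2, 5, 5, 5, 5, 6, 6, 6, 6, 7, 7, 7, 7, 7, 8, 8, 8, 8,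
  9, 9, 9, 9, 5, 5, 6, 6, 7, 10, 10, 10, 10, 11, 11, 11, 11, 12, 12, 12, 12, 12]

def idxL : List ℕ := [4, 5, 4, 5, 4, 5, 4, 5, 4, 5, 4, 5, 5, 0, 1, 2, 3, 0, 1, 2, 3, 0, 1, 2, 3,
  4, 0, 1, 2, 3, 0, 1, 2, 3, 4, 5, 4, 5, 5, 0, 1, 2, 3, 0, 1, 2, 3, 0, 1, 2, 3, 4, 0, 1, 2, 3, 0,
  1, 2, 3, 4, 5, 4, 5, 5, 0, 1, 2, 3, 0, 1, 2, 3, 0, 1, 2, 3, 4]

def DD (s lo hi i : ℕ) : List ℕ := (BL.getD (s + i) []).filter fun v => !(Nat.ble lo v && Nat.blt v hi)

def RR (_i a _j b : ℕ) : Bool := !adjF a b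

theorem grp (s n lo hi : ℕ) (h : bt (DD s lo hi) RR n 0 [] = false) (hs : s + n ≤ 13)
    (T : ℕ → ℕ) (hT : ∀ i < 13, T i ∈ BL.getD i [])
    (hadj : ∀ i < 13, ∀ j < 13, adjF (T i) (T j) = false) :
    ∃ i < 13, lo ≤ T i ∧ T i < hi := by
  by_contra hc
  push Not at hc
  refine bt_sound _ _ n h (fun i => T (s + i)) ?_ ?_
  · intro i hi'
    simp only [DD, List.mem_filter]
    refine ⟨hT _ (by omega), ?_⟩
    have := hc (s + i) (by omega)
    rw [Bool.not_eq_true', ← Bool.not_eq_true, Bool.and_eq_true, Nat.ble_eq, Nat.blt_eq]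
    omega
  · intro i hi' j hj
    simp [RR, hadj (s + i) (by omega) (s + j) (by omega)]

set_option synthInstance.maxSize 2000 in
theorem base : ∀ a < 4, ∀ b < 8, 4 ≤ b → ∀ c < 13, 8 ≤ c →
    adjF a b = true ∨ adjF a c = true ∨ adjF b c = true := by decide +kernel

theorem noIT (T : ℕ → ℕ) (hT : ∀ i < 13, T i ∈ BL.getD i [])
    (hadj : ∀ i < 13, ∀ j < 13, adjF (T i) (T j) = false) : False := by
  obtain ⟨i, hi, -, hi2⟩ := grp 0 5 0 4 (by decide +kernel) (by norm_num) T hT hadj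
  obtain ⟨j, hj, hj1, hj2⟩ := grp 5 5 4 8 (by decide +kernel) (by norm_num) T hT hadj
  obtain ⟨l, hl, hl1, hl2⟩ := grp 10 3 8 13 (by decide +kernel) (by norm_num) T hT hadj
  rcases base _ hi2 _ hj2 hj1 _ hl2 hl1 with h | h | h
  · simp [hadj i hi j hj] at h
  · simp [hadj i hi l hl] at h
  · simp [hadj j hj l hl] at h

def pN (k : ℕ) {p : ℕ} : Fin 78 ⊕ Fin p → ℕ
  | .inl v => if idxL.getD v 0 < k then blkL.getD v 0
      else 13 + (blkL.getD v 0 * (6 - k) + (idxL.getD v 0 - k)) / k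
  | .inr j => 13 + (13 * (6 - k) + j) / k

theorem not_sc (k : ℕ) (hk : 1 ≤ k) (hm : 13 ≤ numParts 78 k)
    (hlt : ∀ x : Fin 78 ⊕ Fin (k * numParts 78 k - 78), pN k x < numParts 78 k)
    (hc : ∀ i : Fin (numParts 78 k), (univ.filter
      (fun x : Fin 78 ⊕ Fin (k * numParts 78 k - 78) => pN k x = i)).card = k)
    (hb : ∀ v : Fin 78, pN k (p := k * numParts 78 k - 78) (.inl v) < 13 →
      (v : ℕ) ∈ BL.getD (pN k (p := k * numParts 78 k - 78) (.inl v)) []) :
    ¬ StronglyColorable G k := by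
  intro h
  have hc' : ∀ i : Fin (numParts 78 k), (univ.filter
      (fun x : Fin 78 ⊕ Fin (k * numParts 78 k - 78) => (⟨pN k x, hlt x⟩ : Fin _) = i)).card = k := by
    intro i
    refine Eq.trans ?_ (hc i)
    congr 1
    ext x
    simp [Fin.ext_iff]
  obtain ⟨c⟩ := h (fun x => ⟨pN k x, hlt x⟩) hc'
  have key : ∀ i < 13, ∃ v : Fin 78, (v : ℕ) ∈ BL.getD i [] ∧ c (.inl v) = ⟨0, hk⟩ := by
    intro i hi
    have hinj : Set.InjOn c ((univ.filter
        (fun x : Fin 78 ⊕ Fin (k * numParts 78 k - 78) =>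
          (⟨pN k x, hlt x⟩ : Fin _) = ⟨i, by omega⟩) : Finset _) : Set _) := by
      intro x hx y hy hxy
      by_contra hne
      simp only [coe_filter, mem_univ, true_and, Set.mem_ofPred_eq] at hx hy
      refine c.valid (v := x) (w := y) ?_ hxy
      right
      rw [SimpleGraph.fromRel_adj]
      exact ⟨hne, Or.inl (hx.trans hy.symm)⟩
    have hcard := card_image_of_injOn hinj
    rw [hc'] at hcard
    have huniv := eq_univ_of_card _ (hcard.trans (Fintype.card_fin k).symm)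
    have hmem : (⟨0, hk⟩ : Fin k) ∈ image c _ := huniv ▸ mem_univ _
    obtain ⟨x, hx, hx0⟩ := mem_image.1 hmem
    simp only [mem_filter, mem_univ, true_and, Fin.mk.injEq] at hx
    rcases x with v | j
    · exact ⟨v, hx ▸ hb v (by omega), hx0⟩
    · simp only [pN] at hx
      exact absurd hi (by rw [← hx]; exact Nat.not_lt.2 (Nat.le_add_right _ _))
  choose! T hT hc0 using key
  refine noIT (fun i => T i) hT ?_
  intro i hi j hj
  by_contra ha
  simp only [Bool.not_eq_false] at ha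
  refine c.valid (v := .inl (T i)) (w := .inl (T j)) ?_ ((hc0 i hi).trans (hc0 j hj).symm)
  left
  exact (SimpleGraph.map_adj_apply (f := Function.Embedding.inl) (G := G)).2 ha

theorem sc78 : StronglyColorable G 78 := by
  intro P _
  have := (unionGraph G 78 P).colorable_of_fintype
  simpa [numParts] using this

theorem seven_le : 7 ≤ strongChromaticNumber G := by
  refine le_csInf (s := {k : ℕ | 1 ≤ k ∧ StronglyColorable G k}) ⟨78, by norm_num, sc78⟩ ?_
  rintro k ⟨hk, h⟩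
  by_contra hlt
  have : k ≤ 6 := by omega
  interval_cases k <;>
    exact not_sc _ (by norm_num) (by decide) (by decide +kernel) (by decide +kernel)
      (by decide +kernel) h

theorem d1 : ∀ x : Fin 78, (univ.filter fun w => G.Adj x w).card ≤ 4 := by decide +kernel

theorem d2 : ∀ b x : Fin 78, G.Adj x b → ∀ y : Fin 78, G.Adj y b → x ≠ y →
    (univ.filter fun w => G.Adj x w ∧ G.Adj y w).card ≤ 3 := by decide +kernel

set_option synthInstance.maxSize 2000 in
theorem d3 : ∀ b x : Fin 78, G.Adj x b → ∀ y : Fin 78, G.Adj y b → x ≠ y →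
    ∀ z : Fin 78, G.Adj z b → x ≠ z → y ≠ z →
    (univ.filter fun w => G.Adj x w ∧ G.Adj y w ∧ G.Adj z w).card ≤ 2 := by decide +kernel

theorem bic1 (A B : Finset (Fin 78)) (hA : A.Nonempty) (hB : B.Nonempty)
    (h : ∀ a ∈ A, ∀ b ∈ B, G.Adj a b) :
    B.card ≤ 4 ∧ (2 ≤ A.card → B.card ≤ 3) ∧ (3 ≤ A.card → B.card ≤ 2) := by
  obtain ⟨a, ha⟩ := hA
  obtain ⟨b, hb⟩ := hB
  refine ⟨le_trans (card_le_card fun w hw => ?_) (d1 a), fun h2 => ?_, fun h3 => ?_⟩
  · simp [h a ha w hw]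
  · obtain ⟨x, hx, y, hy, hxy⟩ := one_lt_card.1 h2
    refine le_trans (card_le_card fun w hw => ?_) (d2 b x (h x hx b hb) y (h y hy b hb) hxy)
    simp [h x hx w hw, h y hy w hw]
  · obtain ⟨x, y, z, hx, hy, hz, hxy, hxz, hyz⟩ := two_lt_card_iff.1 h3
    refine le_trans (card_le_card fun w hw => ?_)
      (d3 b x (h x hx b hb) y (h y hy b hb) hxy z (h z hz b hb) hxz hyz)
    simp [h x hx w hw, h y hy w hw, h z hz w hw]

theorem bic_le : bicliqueNumber G ≤ 5 := by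
  refine max_le (by norm_num) (csSup_le' ?_)
  rintro m ⟨a, b, ha, hb, rfl, ⟨f⟩⟩
  let A : Finset (Fin 78) := univ.image fun i : Fin a => f (.inl i)
  let B : Finset (Fin 78) := univ.image fun i : Fin b => f (.inr i)
  have hA : A.card = a := by
    exact (card_image_of_injective _ fun i j hij =>
      Sum.inl_injective (f.injective hij)).trans (by simp)
  have hB : B.card = b := by
    exact (card_image_of_injective _ fun i j hij =>
      Sum.inr_injective (f.injective hij)).trans (by simp)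
  have hAB : ∀ x ∈ A, ∀ y ∈ B, G.Adj x y := by
    intro x hx y hy
    obtain ⟨i, -, rfl⟩ := mem_image.1 hx
    obtain ⟨j, -, rfl⟩ := mem_image.1 hy
    exact f.toHom.map_adj (by simp)
  have hAn : A.Nonempty := card_pos.1 (by omega)
  have hBn : B.Nonempty := card_pos.1 (by omega)
  have h1 := bic1 A B hAn hBn hAB
  have h2 := bic1 B A hBn hAn fun y hy x hx => (hAB x hx y hy).symm
  rw [hA, hB] at h1 h2
  omega

end Pool.Agent.H9.SC
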