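import Mathlib
import Pool.Agent.H13.Ramsey

namespace Pool.Agent.H9.SJ

open Finset

theorem cnt {ι κ α : Type} [Fintype ι] [Fintype κ] [Fintype α] [DecidableEq ι] [DecidableEq κ]
    [DecidableEq α] (e : ι → κ) (he : Function.Injective e) (B : Finset (ι → α)) :
    (univ.filter fun f : κ → α => f ∘ e ∈ B).card ≤
      B.card * Fintype.card α ^ (Fintype.card κ - Fintype.card ι) := by
  classical
  have h1 := Fintype.card_le_of_injective
    (α := {f : κ → α // f ∘ e ∈ B}) (β := {g // g ∈ B} × ({x // ¬ x ∈ Set.range e} → α))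
    (fun f => (⟨f.1 ∘ e, f.2⟩, fun x => f.1 x.1)) (by
      intro f f' h
      refine Subtype.ext (funext fun x => ?_)
      by_cases p : x ∈ Set.range e
      · obtain ⟨i, rfl⟩ := p
        exact congrFun (congrArg Subtype.val (congrArg Prod.fst h)) i
      · exact congrFun (congrArg Prod.snd h) ⟨x, p⟩)
  rw [Fintype.card_subtype, Fintype.card_prod, Fintype.card_fun, Fintype.card_subtype_compl,
    Fintype.card_coe] at h1
  have h2 : Fintype.card {x // x ∈ Set.range e} = Fintype.card ι := Set.card_range_of_injective he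
  rwa [h2] at h1

theorem ram (C : Type) [Finite C] [Nonempty C] (q m : ℕ) : ∃ N, ∀ F : (Fin q → Fin N) → C,
    ∃ h : Fin m → Fin N, StrictMono h ∧ ∃ γ, ∀ e : Fin q → Fin m, StrictMono e →
      F (h ∘ e) = γ := by
  classical
  obtain ⟨N, hN⟩ := Pool.Agent.H13.Ramsey.ramsey C q m
  refine ⟨N, fun F => ?_⟩
  obtain ⟨H, -, h2, γ, h3⟩ := hN (Fin N) univ (by simp) fun P =>
    if h : P.card = q then F (P.orderEmbOfFin h) else Classical.arbitrary C
  refine ⟨H.orderEmbOfFin h2, (H.orderEmbOfFin h2).strictMono, γ, fun e he => ?_⟩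
  have hs : StrictMono (H.orderEmbOfFin h2 ∘ e) := (H.orderEmbOfFin h2).strictMono.comp he
  have hc : (univ.image (H.orderEmbOfFin h2 ∘ e)).card = q := by
    rw [card_image_of_injective _ hs.injective]; simp
  have := h3 _ (fun x hx => by
    obtain ⟨i, -, rfl⟩ := mem_image.1 hx
    exact orderEmbOfFin_mem _ _ _) hc
  simp only [dif_pos hc] at this
  rw [← this, ← orderEmbOfFin_unique hc (fun i => mem_image_of_mem _ (mem_univ i)) hs]

theorem index {K A : Type} [Fintype K] [DecidableEq A] (anc : K → A) (D : ℕ) :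
    ∃ idx : K → Fin (D + 1), ∀ k k', anc k = anc k' →
      (univ.filter fun x => anc x = anc k).card ≤ D → idx k = idx k' → k = k' := by
  classical
  have : ∀ a : A, ∃ g : {x // anc x = a} → Fin (D + 1),
      (univ.filter fun x => anc x = a).card ≤ D → Function.Injective g := fun a => by
    by_cases h : (univ.filter fun x => anc x = a).card ≤ D
    · obtain ⟨g⟩ := Function.Embedding.nonempty_of_card_le
        (α := {x // anc x = a}) (β := Fin (D + 1)) (by
          rw [Fintype.card_subtype, Fintype.card_fin]; omega)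
      exact ⟨g, fun _ => g.injective⟩
    · exact ⟨fun _ => 0, fun h' => absurd h' h⟩
  choose g hg using this
  refine ⟨fun k => g (anc k) ⟨k, rfl⟩, fun k k' h1 h2 h3 => ?_⟩
  have e : ∀ a (h : anc k' = a), g (anc k') ⟨k', rfl⟩ = g a ⟨k', h⟩ := by
    rintro a rfl; rfl
  simp only [e _ h1.symm] at h3
  exact congrArg Subtype.val (hg _ h2 h3)

def sg : Fin 4 → ℤ := ![1, -1, 1, -1]

def ip {α : Type} [DecidableEq α] (T U : Fin 4 → α) : ℤ :=
  ∑ i, ∑ j, if T i = U j then sg i * sg j else 0

theorem pair2 {n : ℕ} (i j : Fin 4) (h : i ≠ j) (B : Finset (Fin 2 → Fin n)) :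
    (univ.filter fun T : Fin 4 → Fin n => T ∘ ![i, j] ∈ B).card ≤ B.card * n ^ 2 := by
  have := cnt ![i, j] (by
    intro a b; fin_cases a <;> fin_cases b <;> simp [h, h.symm]) B
  simpa using this

theorem small {n : ℕ} (F : Finset (Fin 4 → Fin n))
    (h : ∀ T ∈ F, ∀ U ∈ F, ∃ i j, T i = U j) (h' : ∀ a, ∃ T ∈ F, ∀ j, T j ≠ a) (a : Fin n) :
    F.card ≤ 256 * n ^ 2 := by
  classical
  choose B hB hB' using h'
  have sub : F ⊆ (univ.filter fun p : Fin 4 × Fin 4 => p.1 ≠ p.2).biUnion fun p =>
      univ.filter fun T : Fin 4 → Fin n => T ∘ ![p.1, p.2] ∈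
        (univ : Finset (Fin 4 × Fin 4)).image fun q => ![B a q.1, B (B a q.1) q.2] := by
    intro T hT
    obtain ⟨i, j, e⟩ := h T hT _ (hB a)
    obtain ⟨i', j', e'⟩ := h T hT _ (hB (B a j))
    refine mem_biUnion.2 ⟨(i, i'), mem_filter.2 ⟨mem_univ _, fun q => ?_⟩,
      mem_filter.2 ⟨mem_univ _, mem_image.2 ⟨(j, j'), mem_univ _, ?_⟩⟩⟩
    · exact hB' _ j' (by rw [← e', ← e]; exact congrArg T q.symm)
    · funext x; fin_cases x <;> simp [e, e']
  refine (card_le_card sub).trans ((card_biUnion_le_card_mul _ _ (16 * n ^ 2) fun p hp => ?_).trans ?_)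
  · refine (pair2 _ _ (mem_filter.1 hp).2 _).trans (Nat.mul_le_mul_right _ ?_)
    exact card_image_le.trans (by simp)
  · have : (univ.filter fun p : Fin 4 × Fin 4 => p.1 ≠ p.2).card ≤ 16 :=
      (card_le_univ _).trans (by simp)
    nlinarith [Nat.zero_le (n ^ 2)]

theorem noninj (n : ℕ) :
    (univ.filter fun T : Fin 4 → Fin n => ¬ Function.Injective T).card ≤ 16 * n ^ 3 := by
  classical
  have sub : (univ.filter fun T : Fin 4 → Fin n => ¬ Function.Injective T) ⊆
      (univ.filter fun p : Fin 4 × Fin 4 => p.1 ≠ p.2).biUnion fun p =>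
      univ.filter fun T : Fin 4 → Fin n => T ∘ ![p.1, p.2] ∈
        (univ : Finset (Fin n)).image fun q => ![q, q] := by
    intro T hT
    obtain ⟨i, j, e, hne⟩ := Function.not_injective_iff.1 (mem_filter.1 hT).2
    refine mem_biUnion.2 ⟨(i, j), mem_filter.2 ⟨mem_univ _, hne⟩,
      mem_filter.2 ⟨mem_univ _, mem_image.2 ⟨T i, mem_univ _, ?_⟩⟩⟩
    funext x; fin_cases x <;> simp [e]
  refine (card_le_card sub).trans ((card_biUnion_le_card_mul _ _ (n * n ^ 2) fun p hp => ?_).trans ?_)
  · refine (pair2 _ _ (mem_filter.1 hp).2 _).trans (Nat.mul_le_mul_right _ ?_)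
    exact card_image_le.trans (by simp)
  · have : (univ.filter fun p : Fin 4 × Fin 4 => p.1 ≠ p.2).card ≤ 16 :=
      (card_le_univ _).trans (by simp)
    nlinarith [Nat.zero_le (n * n ^ 2)]

theorem avg {α : Type} [Fintype α] [DecidableEq α] (s : ℕ) (hs : 4 ≤ s) (B : Finset (Fin 4 → α))
    (h : s ^ 4 * B.card < Fintype.card α ^ 4) :
    ∃ f : Fin s → α, ∀ e : Fin 4 → Fin s, Function.Injective e → f ∘ e ∉ B := by
  classical
  by_contra hc
  push Not at hc
  have sub : (univ : Finset (Fin s → α)) ⊆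
      (univ.filter fun e : Fin 4 → Fin s => Function.Injective e).biUnion fun e =>
        univ.filter fun f : Fin s → α => f ∘ e ∈ B := by
    intro f _
    obtain ⟨e, h1, h2⟩ := hc f
    exact mem_biUnion.2 ⟨e, mem_filter.2 ⟨mem_univ _, h1⟩, mem_filter.2 ⟨mem_univ _, h2⟩⟩
  have h1 := (card_le_card sub).trans (card_biUnion_le_card_mul _ _ _ fun e he =>
    cnt e (mem_filter.1 he).2 B)
  have h2 := h1.trans (Nat.mul_le_mul_right _ (card_le_univ _))
  simp only [card_univ, Fintype.card_fun, Fintype.card_fin] at h2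
  have h0 : 0 < Fintype.card α := by
    rcases Nat.eq_zero_or_pos (Fintype.card α) with z | z
    · rw [z] at h; simp at h
    · exact z
  obtain ⟨t, rfl⟩ := Nat.exists_eq_add_of_le hs
  rw [Nat.add_sub_cancel_left, pow_add, ← mul_assoc] at h2
  have := Nat.le_of_mul_le_mul_right h2 (pow_pos h0 t)
  omega

theorem cfg : ∀ p : Fin 4, ∃ e e' : Fin 4 → Fin 7, StrictMono e ∧ StrictMono e' ∧ e p = e' p ∧
    ip e e' = 0 := by
  intro p
  fin_cases p
  · exact ⟨![0, 1, 2, 3], ![0, 2, 4, 5], by decide, by decide, rfl, by decide⟩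
  · exact ⟨![0, 2, 3, 4], ![1, 2, 4, 5], by decide, by decide, rfl, by decide⟩
  · exact ⟨![1, 2, 3, 4], ![0, 1, 3, 5], by decide, by decide, rfl, by decide⟩
  · exact ⟨![1, 2, 3, 5], ![0, 1, 4, 5], by decide, by decide, rfl, by decide⟩

theorem ext4 : ∀ i j : Fin 7, i ≠ j → ∃ a b : Fin 7, Function.Injective ![i, j, a, b] := by
  decide +kernel

theorem core (C : ℕ) : ∃ N, ∀ n ≥ N, ∀ c : (Fin 4 → Fin n) → Fin (C * n),
    ¬ ∀ T U, Function.Injective T → Function.Injective U → c T = c U → ip T U ≠ 0 := by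
  classical
  obtain ⟨s, hs⟩ := ram (Fin 4 × Fin (2 * C + 1)) 4 7
  refine ⟨16 * (s + 4) ^ 4 * (16 + 256 * C) + 1, fun n hn c H => ?_⟩
  have a0 : Fin n := ⟨0, by omega⟩
  let star : Fin (C * n) → Prop := fun k =>
    ∃ a, ∀ T, Function.Injective T → c T = k → ∃ j, T j = a
  let anc : Fin (C * n) → Fin n := fun k => if h : star k then h.choose else a0
  have hanc : ∀ T, Function.Injective T → star (c T) → ∃ j, T j = anc (c T) := fun T h1 h2 => by
    simp only [anc, dif_pos h2]; exact h2.choose_spec T h1 rfl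
  obtain ⟨idx, hidx⟩ := index anc (2 * C)
  let G := univ.filter fun a : Fin n => (univ.filter fun x => anc x = a).card ≤ 2 * C
  have hG : n ≤ 2 * G.card := by
    have h1 : ∑ a, (univ.filter fun x => anc x = a).card = C * n := by
      rw [← card_eq_sum_card_fiberwise (fun _ _ => mem_univ _)]; simp
    have h2 : Gᶜ.card * (2 * C + 1) ≤ C * n := by
      rw [← h1]
      refine (card_nsmul_le_sum Gᶜ (fun a => (univ.filter fun x => anc x = a).card) (2 * C + 1)
        fun a ha => ?_).trans (sum_le_sum_of_subset (subset_univ _))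
      simp only [G, mem_compl, mem_filter, mem_univ, true_and, not_le] at ha
      exact ha
    have h3 := card_add_card_compl G
    rw [Fintype.card_fin] at h3
    nlinarith
  let Bad := univ.filter fun T : Fin 4 → Fin n => ¬ Function.Injective T ∨ ¬ star (c T)
  have hB : Bad.card ≤ (16 + 256 * C) * n ^ 3 := by
    have sub : Bad ⊆ (univ.filter fun T : Fin 4 → Fin n => ¬ Function.Injective T) ∪
        (univ.filter fun k => ¬ star k).biUnion fun k =>
          univ.filter fun T => Function.Injective T ∧ c T = k := by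
      intro T hT
      by_cases h : Function.Injective T
      · exact mem_union_right _ (mem_biUnion.2 ⟨c T, mem_filter.2 ⟨mem_univ _,
          (mem_filter.1 hT).2.resolve_left (not_not.2 h)⟩, mem_filter.2 ⟨mem_univ _, h, rfl⟩⟩)
      · exact mem_union_left _ (mem_filter.2 ⟨mem_univ _, h⟩)
    have h1 := card_biUnion_le_card_mul (univ.filter fun k => ¬ star k) (fun k =>
        univ.filter fun T => Function.Injective T ∧ c T = k) (256 * n ^ 2) fun k hk => by
      refine small _ (fun T hT U hU => ?_) (fun a => ?_) a0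
      · have hT := (mem_filter.1 hT).2
        have hU := (mem_filter.1 hU).2
        by_contra hc
        push Not at hc
        exact H T U hT.1 hU.1 (hT.2.trans hU.2.symm) (by simp [ip, hc])
      · have := (mem_filter.1 hk).2
        simp only [star] at this
        push Not at this
        obtain ⟨T, h1, h2, h3⟩ := this a
        exact ⟨T, mem_filter.2 ⟨mem_univ _, h1, h2⟩, h3⟩
    have h2 : (univ.filter fun k => ¬ star k).card ≤ C * n := (card_le_univ _).trans (by simp)
    have h3 := (card_le_card sub).trans (card_union_le _ _)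
    have h4 := noninj n
    have h5 := h1.trans (Nat.mul_le_mul_right _ h2)
    nlinarith
  obtain ⟨f, hf⟩ := avg (α := {a // a ∈ G}) (s + 4) (by omega)
    (univ.filter fun T => Subtype.val ∘ T ∈ Bad) (by
      have h1 : (univ.filter fun T : Fin 4 → {a // a ∈ G} => Subtype.val ∘ T ∈ Bad).card ≤
          Bad.card := card_le_card_of_injOn (fun T => Subtype.val ∘ T)
            (fun T hT => (mem_filter.1 hT).2)
            fun T _ U _ e => funext fun i => Subtype.ext (congrFun e i)
      rw [Fintype.card_coe]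
      have h2 := Nat.pow_le_pow_left hG 4
      have h3 := Nat.mul_le_mul_left ((s + 4) ^ 4) (h1.trans hB)
      have h4 : 0 < n ^ 3 := pow_pos (by omega) _
      have h5 := Nat.mul_le_mul_right (n ^ 3) hn
      nlinarith)
  simp only [Bad, mem_filter, mem_univ, true_and, not_or, not_not] at hf
  let y : Fin s → Fin n := fun i => (f (i.castAdd 4)).1
  have hy : ∀ e : Fin 4 → Fin s, Function.Injective e →
      Function.Injective (y ∘ e) ∧ star (c (y ∘ e)) := fun e he =>
    hf (fun i => (e i).castAdd 4) ((Fin.castAdd_injective _ _).comp he)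
  obtain ⟨h, h1, γ, h2⟩ := hs fun e =>
    (if q : ∃ j, (y ∘ e) j = anc (c (y ∘ e)) then q.choose else 0, idx (c (y ∘ e)))
  have hx : Function.Injective (y ∘ h) := fun i j e => by
    by_contra ne
    obtain ⟨a, b, q⟩ := ext4 i j ne
    exact absurd ((hy _ (h1.injective.comp q)).1 (a₁ := 0) (a₂ := 1) e) (by decide)
  have key : ∀ e : Fin 4 → Fin 7, StrictMono e → Function.Injective (y ∘ h ∘ e) ∧
      y (h (e γ.1)) = anc (c (y ∘ h ∘ e)) ∧ idx (c (y ∘ h ∘ e)) = γ.2 := fun e he => by
    obtain ⟨q1, q2⟩ := hy _ (h1.injective.comp he.injective)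
    have q3 := hanc _ q1 q2
    have q4 := h2 e he
    simp only [dif_pos q3] at q4
    rw [← q4]
    exact ⟨q1, q3.choose_spec, rfl⟩
  obtain ⟨e, e', m1, m2, m3, m4⟩ := cfg γ.1
  obtain ⟨a1, a2, a3⟩ := key e m1
  obtain ⟨b1, b2, b3⟩ := key e' m2
  refine H _ _ a1 b1 (hidx _ _ (by rw [← a2, ← b2, m3]) ?_ (a3.trans b3.symm)) ?_
  · rw [← a2]; exact (mem_filter.1 (f _).2).2
  · rw [← m4]
    refine sum_congr rfl fun i _ => sum_congr rfl fun j _ => ?_
    exact if_congr (hx.eq_iff (a := e i) (b := e' j)) rfl rfl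

end Pool.Agent.H9.SJ
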