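import Mathlib

namespace Pool.Agent.H9.SK

open Finset

structure Col (ι : Type) (m : ℕ) where
  c : ι → Bool → ι → Bool → Fin m
  sy : ∀ i s j t, j ≠ i → c i s j t = c j t i s
  ok : ∀ i s j t j' t', j ≠ i → j' ≠ i → c i s j t = c i (!s) j' t' → j = j' ∧ t = t'

variable {ι : Type} [Fintype ι] [DecidableEq ι] {m : ℕ} (K : Col ι m)

def has (i : ι) (s : Bool) (x : Fin m) : Prop := ∃ j t, j ≠ i ∧ K.c i s j t = x

open Classical in
noncomputable def S (i : ι) (s : Bool) : Finset (Fin m) :=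
  univ.filter fun x => has K i s x ∧ ¬ has K i (!s) x

def R (i j : ι) : Prop := j ≠ i ∧ ∃ t, K.c i true j t = K.c i false j t

omit [Fintype ι] [DecidableEq ι] in
theorem mem_S {i : ι} {s : Bool} {x : Fin m} : x ∈ S K i s ↔ has K i s x ∧ ¬ has K i (!s) x := by
  simp [S]

omit [Fintype ι] [DecidableEq ι] in
theorem disj {i : ι} {s : Bool} {x : Fin m} (h : x ∈ S K i s) : x ∉ S K i (!s) := fun h' =>
  ((mem_S K).1 h).2 ((mem_S K).1 h').1

omit [Fintype ι] [DecidableEq ι] in
theorem mem_or {i j : ι} (h : j ≠ i) (s t : Bool) :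
    K.c i s j t ∈ S K i s ∨ K.c i (!s) j t = K.c i s j t := by
  by_cases q : has K i (!s) (K.c i s j t)
  · obtain ⟨j', t', h1, h2⟩ := q
    obtain ⟨rfl, rfl⟩ := K.ok i s j t j' t' h h1 h2.symm
    exact Or.inr h2
  · exact Or.inl ((mem_S K).2 ⟨⟨j, t, h, rfl⟩, q⟩)

omit [Fintype ι] [DecidableEq ι] in
theorem star_mem {i j : ι} (h : j ≠ i) {s t : Bool} (e : K.c i (!s) j t = K.c i s j t) :
    K.c i s j t ∈ S K j t := by
  refine (mem_S K).2 ⟨⟨i, s, h.symm, (K.sy _ _ _ _ h).symm⟩, ?_⟩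
  rintro ⟨k, u, h1, h2⟩
  have a := (K.ok j t i s k u h.symm h1 (by rw [h2, K.sy _ _ _ _ h])).2
  have b := (K.ok j t i (!s) k u h.symm h1 (by rw [h2, ← e, K.sy _ _ _ _ h])).2
  rw [← a] at b
  simp at b

omit [Fintype ι] [DecidableEq ι] in
theorem toR {i j : ι} (h : j ≠ i) {s t : Bool} (e : K.c i (!s) j t = K.c i s j t) : R K i j := by
  refine ⟨h, t, ?_⟩
  cases s
  · exact e
  · exact e.symm

omit [Fintype ι] [DecidableEq ι] in
theorem both {i j : ι} (h : j ≠ i) (h1 : ¬ R K i j) (h2 : ¬ R K j i) (s t : Bool) :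
    ∃ x, x ∈ S K i s ∧ x ∈ S K j t := by
  refine ⟨K.c i s j t, (mem_or K h s t).resolve_right fun e => h1 (toR K h e), ?_⟩
  rw [K.sy _ _ _ _ h]
  exact (mem_or K h.symm t s).resolve_right fun e => h2 (toR K h.symm e)

omit [DecidableEq ι] in
open Classical in
theorem outdeg (i : ι) : (univ.filter fun j => R K i j).card ≤ m := by
  have : ∀ j, ∃ t, R K i j → K.c i true j t = K.c i false j t := fun j => by
    by_cases h : R K i j
    · exact ⟨h.2.choose, fun _ => h.2.choose_spec⟩
    · exact ⟨true, fun q => absurd q h⟩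
  choose τ hτ using this
  have := card_le_card_of_injOn (s := univ.filter fun j => R K i j) (t := univ)
    (fun j => K.c i true j (τ j)) (fun _ _ => mem_univ _) fun j hj k hk e => by
      have hj := (mem_filter.1 hj).2
      have hk := (mem_filter.1 hk).2
      exact (K.ok i true j _ k _ hj.1 hk.1 (e.trans (hτ k hk))).1
  simpa using this

theorem clique (Q : Finset ι) (h : ∀ i ∈ Q, ∀ j ∈ Q, j ≠ i → R K i j ∨ R K j i) :
    Q.card ≤ 2 * m + 1 := by
  classical
  let P := Q.biUnion fun i => (univ.filter fun j => R K i j).image fun j => (i, j)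
  have hP : P.card ≤ Q.card * m :=
    card_biUnion_le_card_mul _ _ _ fun i _ => card_image_le.trans (outdeg K i)
  have sub : Q.offDiag ⊆ P ∪ P.image Prod.swap := by
    rintro ⟨i, j⟩ hp
    obtain ⟨h1, h2, h3⟩ := mem_offDiag.1 hp
    rcases h i h1 j h2 (Ne.symm h3) with q | q
    · exact mem_union_left _ (mem_biUnion.2 ⟨i, h1, mem_image.2 ⟨j, by simpa using q, rfl⟩⟩)
    · exact mem_union_right _ (mem_image.2 ⟨(j, i),
        mem_biUnion.2 ⟨j, h2, mem_image.2 ⟨i, by simpa using q, rfl⟩⟩, rfl⟩)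
  have h1 := (card_le_card sub).trans (card_union_le _ _)
  have h2 : (P.image Prod.swap).card ≤ P.card := card_image_le
  rw [offDiag_card] at h1
  by_contra hc
  have : Q.card * (2 * m + 2) ≤ Q.card * Q.card := Nat.mul_le_mul_left _ (by omega)
  have h4 : Q.card * (2 * m + 2) = 2 * (Q.card * m) + 2 * Q.card := by ring
  omega

theorem heavy (q : ℕ) : (univ.filter fun i => q ≤ (S K i true ∪ S K i false)ᶜ.card).card * 2 ^ q ≤
    2 ^ m * (2 * m + 1) := by
  classical
  have := card_mul_le_card_mul (s := univ.filter fun i => q ≤ (S K i true ∪ S K i false)ᶜ.card)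
    (t := (univ : Finset (Finset (Fin m)))) (m := 2 ^ q) (n := 2 * m + 1)
    (fun i F => S K i true ⊆ F ∧ Disjoint F (S K i false)) (fun i hi => ?_) fun F _ => ?_
  · simpa using this
  · refine (Nat.pow_le_pow_right (by norm_num) (mem_filter.1 hi).2).trans ?_
    rw [← card_powerset]
    refine card_le_card_of_injOn (fun Y => Y ∪ S K i true) (fun Y hY => ?_) fun Y hY Z hZ e => ?_
    · have hY := mem_powerset.1 hY
      refine mem_filter.2 ⟨mem_univ _, subset_union_right, disjoint_left.2 fun x hx hx' => ?_⟩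
      rcases mem_union.1 hx with a | a
      · exact mem_compl.1 (hY a) (mem_union_right _ hx')
      · exact disj K a hx'
    · have hY := mem_powerset.1 hY
      have hZ := mem_powerset.1 hZ
      ext x
      have := Finset.ext_iff.1 e x
      have a := @hY x
      have b := @hZ x
      simp only [mem_union, mem_compl] at this a b
      tauto
  · refine clique K _ fun i hi j hj h => ?_
    by_contra hc
    push Not at hc
    obtain ⟨x, h1, h2⟩ := both K h hc.1 hc.2 true false
    exact disjoint_left.1 (mem_filter.1 hj).2.2 ((mem_filter.1 hi).2.1 h1) h2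

theorem small (q : ℕ) (t : Bool) : (univ.filter fun i => (S K i t).card ≤ q).card * 2 ^ (m - q) ≤
    3 ^ m * (2 * m + 1) := by
  classical
  have h1 : (univ.filter fun i => (S K i t).card ≤ q).card ≤
      (2 * m + 1) * (univ.filter fun F : Finset (Fin m) => F.card ≤ q).card := by
    refine card_le_mul_card_image_of_maps_to (f := fun i => S K i t)
      (fun i hi => by simpa using hi) _ fun F _ => clique K _ fun i hi j hj h => ?_
    by_contra hc
    push Not at hc
    obtain ⟨x, h1, h2⟩ := both K h hc.1 hc.2 t (!t)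
    rw [(mem_filter.1 hi).2, ← (mem_filter.1 hj).2] at h1
    exact disj K h1 h2
  have h2 : (univ.filter fun F : Finset (Fin m) => F.card ≤ q).card * 2 ^ (m - q) ≤ 3 ^ m := by
    have := Fin.sum_pow_mul_eq_add_pow (n := m) (1 : ℕ) 2
    rw [show (3 : ℕ) = 1 + 2 from rfl, ← this]
    refine (card_nsmul_le_sum _ (fun F : Finset (Fin m) => 1 ^ F.card * 2 ^ (m - F.card)) _
      fun F hF => ?_).trans (sum_le_sum_of_subset (subset_univ _))
    have := (mem_filter.1 hF).2
    rw [one_pow, one_mul]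
    exact Nat.pow_le_pow_right (by norm_num) (by omega)
  calc _ ≤ (2 * m + 1) * (univ.filter fun F : Finset (Fin m) => F.card ≤ q).card * 2 ^ (m - q) :=
        Nat.mul_le_mul_right _ h1
    _ ≤ _ := by rw [mul_assoc, mul_comm]; exact Nat.mul_le_mul_right _ h2

omit [Fintype ι] in
theorem typical (T : Finset ι) (h1 : ∀ i ∈ T, ∀ s, (S K i s).Nonempty)
    (h2 : ∀ j ∈ T, ∀ i t, R K i j → ¬ S K j t ⊆ (S K i true ∪ S K i false)ᶜ) :
    2 * T.card ≤ m.choose (m / 2) := by
  classical
  let w : ι → Fin m → Bool := fun i x => decide (x ∈ S K i true ∨ ∃ j t, j ≠ i ∧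
    K.c i true j t = x ∧ K.c i false j t = x ∧ Disjoint (S K i true) (S K j t))
  have pure : ∀ i s x, x ∈ S K i s → w i x = s := fun i s x hx => by
    cases s
    · refine decide_eq_false ?_
      rintro (a | ⟨j, t, a, b, -⟩)
      · exact disj K a hx
      · exact ((mem_S K).1 hx).2 ⟨j, t, a, b⟩
    · exact decide_eq_true (Or.inl hx)
  have half : ∀ i j s t, j ∈ T → j ≠ i → Disjoint (S K i s) (S K j t) →
      K.c i (!s) j t = K.c i s j t → ∃ x, w i x = s ∧ w j x = t := fun i j s t hj h hd e => by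
    refine ⟨K.c i s j t, ?_, pure _ _ _ (star_mem K h e)⟩
    cases s
    · refine decide_eq_false ?_
      rintro (a | ⟨j', t', a, b, -, d⟩)
      · exact ((mem_S K).1 a).2 ⟨j, t, h, rfl⟩
      · obtain ⟨rfl, rfl⟩ := K.ok i true j' t' j t a h b
        refine h2 _ hj i t' (toR K h e) fun x hx => mem_compl.2 fun y => ?_
        rcases mem_union.1 y with y | y
        · exact disjoint_left.1 d y hx
        · exact disjoint_left.1 hd y hx
    · exact decide_eq_true (Or.inr ⟨j, t, h, rfl, e, hd⟩)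
  have qi : ∀ i ∈ T, ∀ j ∈ T, j ≠ i → ∀ s t, ∃ x, w i x = s ∧ w j x = t := by
    intro i hi j hj h s t
    by_cases hd : Disjoint (S K i s) (S K j t)
    · rcases mem_or K h s t with a | a
      · rcases mem_or K h.symm t s with b | b
        · rw [← K.sy _ _ _ _ h] at b
          exact absurd b (disjoint_left.1 hd a)
        · obtain ⟨x, p1, p2⟩ := half j i t s hi h.symm hd.symm b
          exact ⟨x, p2, p1⟩
      · exact half i j s t hj h hd a
    · obtain ⟨x, p1, p2⟩ := not_disjoint_iff.1 hd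
      exact ⟨x, pure _ _ _ p1, pure _ _ _ p2⟩
  let W : ι × Bool → Finset (Fin m) := fun p => univ.filter fun x => w p.1 x = p.2
  have key : ∀ p ∈ T ×ˢ (univ : Finset Bool), ∀ p' ∈ T ×ˢ (univ : Finset Bool),
      W p ⊆ W p' → p = p' := by
    rintro ⟨i, s⟩ hp ⟨j, t⟩ hp' hs
    have hi := (mem_product.1 hp).1
    have hj := (mem_product.1 hp').1
    by_cases h : j = i
    · subst h
      obtain ⟨x, hx⟩ := h1 j hi s
      have a := pure _ _ _ hx
      have b := (mem_filter.1 (hs (mem_filter.2 ⟨mem_univ x, a⟩))).2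
      exact Prod.ext rfl (a.symm.trans b)
    · obtain ⟨x, a, b⟩ := qi i hi j hj h s (!t)
      have c := (mem_filter.1 (hs (mem_filter.2 ⟨mem_univ x, a⟩))).2
      simp only at c
      rw [c] at b
      simp at b
  have an : IsAntichain (· ⊆ ·) (((T ×ˢ (univ : Finset Bool)).image W : Finset _) :
      Set (Finset (Fin m))) := by
    intro A hA B hB hne hs
    obtain ⟨p, hp, rfl⟩ := mem_image.1 (mem_coe.1 hA)
    obtain ⟨p', hp', rfl⟩ := mem_image.1 (mem_coe.1 hB)
    exact hne (by rw [key p hp p' hp' hs])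
  have := an.sperner
  rw [card_image_of_injOn fun p hp p' hp' e => key p hp p' hp' (le_of_eq e), card_product] at this
  simpa [mul_comm] using this

include K in
theorem total (q : ℕ) : ∃ T a b h : ℕ, Fintype.card ι ≤ T + a + b + h * m ∧
    2 * T ≤ m.choose (m / 2) ∧ a * 2 ^ (m - q) ≤ 3 ^ m * (2 * m + 1) ∧
    b * 2 ^ (m - q) ≤ 3 ^ m * (2 * m + 1) ∧ h * 2 ^ q ≤ 2 ^ m * (2 * m + 1) := by
  classical
  let A := fun t => univ.filter fun i => (S K i t).card ≤ q
  let H := univ.filter fun i => q ≤ (S K i true ∪ S K i false)ᶜ.card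
  let O := H.biUnion fun i => univ.filter fun j => R K i j
  have hA : ∀ i ∈ (A true ∪ A false ∪ O)ᶜ, ∀ s, q < (S K i s).card := fun i hi s => by
    simp only [A, mem_compl, mem_union, mem_filter, mem_univ, true_and, not_or, not_le] at hi
    cases s
    · exact hi.1.2
    · exact hi.1.1
  refine ⟨(A true ∪ A false ∪ O)ᶜ.card, _, _, _, ?_, typical K _ (fun i hi s => ?_)
    fun j hj i t hr hs => ?_, small K q true, small K q false, heavy K q⟩
  · have h1 := card_add_card_compl (A true ∪ A false ∪ O)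
    have h2 := card_union_le (A true ∪ A false) O
    have h3 := card_union_le (A true) (A false)
    have h4 : O.card ≤ H.card * m := card_biUnion_le_card_mul _ _ _ fun i _ => outdeg K i
    change _ ≤ _ + (A true).card + (A false).card + H.card * m
    omega
  · exact card_pos.1 (by have := hA i hi s; omega)
  · refine mem_compl.1 hj (mem_union_right _ (mem_biUnion.2 ⟨i, mem_filter.2 ⟨mem_univ _, ?_⟩,
      mem_filter.2 ⟨mem_univ _, hr⟩⟩))
    exact (hA j hj t).le.trans (card_le_card hs)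

theorem poly (q : ℕ) (hq : 40 ≤ q) : 100000 * (q + 1) ^ 4 < 2 ^ q := by
  induction q, hq using Nat.le_induction with
  | base => norm_num
  | succ q hq ih =>
    have : (q + 1 + 1) ^ 4 ≤ 2 * (q + 1) ^ 4 := by
      obtain ⟨k, rfl⟩ := Nat.exists_eq_add_of_le hq
      ring_nf
      nlinarith [Nat.zero_le (k ^ 2), Nat.zero_le (k ^ 3), Nat.zero_le (k ^ 4)]
    rw [pow_succ 2]
    omega

theorem lower (q : ℕ) (hq : 40 ≤ q) (K : Col ι (10 * q + 1)) :
    Fintype.card ι ≠ (10 * q).choose (5 * q) := by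
  intro hn
  obtain ⟨T, a, b, h, h1, h2, h3, h4, h5⟩ := total K q
  rw [hn] at h1
  rw [show (10 * q + 1) / 2 = 5 * q by omega] at h2
  rw [show 10 * q + 1 - q = 9 * q + 1 by omega] at h3 h4
  have c1 : (10 * q + 1) * (10 * q).choose (5 * q) = (10 * q + 1).choose (5 * q) * (5 * q + 1) := by
    have := Nat.choose_mul_succ_eq (10 * q) (5 * q)
    rw [show 10 * q + 1 - 5 * q = 5 * q + 1 by omega] at this
    rw [← this, mul_comm]
  have c2 := Nat.four_pow_le_two_mul_self_mul_centralBinom (5 * q) (by omega)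
  rw [Nat.centralBinom, show 2 * (5 * q) = 10 * q by ring] at c2
  generalize (10 * q).choose (5 * q) = n at *
  generalize (10 * q + 1).choose (5 * q) = N at *
  have c3 : 3 ^ (10 * q + 1) ≤ 3 * (2 ^ q) ^ 16 := by
    rw [pow_succ, pow_mul, ← pow_mul 2, mul_comm q, pow_mul, mul_comm]
    exact Nat.mul_le_mul_left _ (Nat.pow_le_pow_left (by norm_num) _)
  have e1 : 2 ^ (9 * q + 1) = 2 * (2 ^ q) ^ 9 := by rw [pow_succ, ← pow_mul]; ring
  have e2 : 2 ^ (10 * q + 1) = 2 * (2 ^ q) ^ 10 := by rw [pow_succ, ← pow_mul]; ring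
  have e3 : 4 ^ (5 * q) = (2 ^ q) ^ 10 := by
    rw [← pow_mul, show (4 : ℕ) = 2 ^ 2 by norm_num, ← pow_mul]; ring
  have p := poly q hq
  rw [e1] at h3 h4
  rw [e2] at h5
  rw [e3] at c2
  have y0 : 0 < 2 ^ q := by positivity
  generalize 2 ^ q = y at *
  have sm : ∀ a, a * (2 * y ^ 9) ≤ 3 ^ (10 * q + 1) * (2 * (10 * q + 1) + 1) →
      a ≤ 40 * (q + 1) * y ^ 9 := fun a ha => by
    have := ha.trans (Nat.mul_le_mul_right _ c3)
    refine Nat.le_of_mul_le_mul_right (c := 2 * y ^ 9) (this.trans ?_) (by positivity)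
    have : y ^ 16 ≤ y ^ 18 := Nat.pow_le_pow_right y0 (by norm_num)
    calc _ ≤ 3 * y ^ 18 * (20 * (q + 1)) := Nat.mul_le_mul (by omega) (by omega)
      _ ≤ _ := by nlinarith [Nat.zero_le (y ^ 18 * (q + 1))]
  have hh : h ≤ 40 * (q + 1) * y ^ 9 := by
    refine Nat.le_of_mul_le_mul_right (c := y) (h5.trans ?_) y0
    calc _ ≤ 2 * y ^ 10 * (20 * (q + 1)) := Nat.mul_le_mul_left _ (by omega)
      _ = _ := by ring
  have s1 := sm a h3
  have s2 := sm b h4
  have u : a + b + h * (10 * q + 1) ≤ 480 * (q + 1) ^ 2 * y ^ 9 := by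
    have := Nat.mul_le_mul hh (show 10 * q + 1 ≤ 10 * (q + 1) by omega)
    have z : 40 * (q + 1) * y ^ 9 ≤ 40 * (q + 1) ^ 2 * y ^ 9 :=
      Nat.mul_le_mul_right _ (by nlinarith)
    nlinarith
  generalize hU : a + b + h * (10 * q + 1) = U at u
  have h1' : n ≤ T + U := by omega
  have v : n ≤ (10 * q + 2) * U := by nlinarith
  have f : y ^ 10 ≤ 10 * (q + 1) * (10 * (q + 1) * (480 * (q + 1) ^ 2 * y ^ 9)) :=
    c2.trans (Nat.mul_le_mul (by omega) (v.trans (Nat.mul_le_mul (by omega) u)))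
  have : y * y ^ 9 ≤ 48000 * (q + 1) ^ 4 * y ^ 9 := by
    calc _ = y ^ 10 := by ring
      _ ≤ _ := f
      _ = _ := by ring
  have := Nat.le_of_mul_le_mul_right this (by positivity)
  omega

end Pool.Agent.H9.SK
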