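import Pool.Agent.H9.BT

set_option autoImplicit false

namespace Pool.Agent.H9.Sat12

open Finset

def L : List ℕ := [630, 1837, 3539, 3922, 653, 3331, 2317, 2836, 238, 2203, 2094, 1772]

def G : SimpleGraph (Fin 12) where
  Adj i j := adjB L i j = true
  symm := ⟨by intro i j; revert i j; decide +kernel⟩
  loopless := ⟨by intro i; revert i; decide +kernel⟩

instance : DecidableRel G.Adj := fun i j => inferInstanceAs (Decidable (adjB L i j = true))

theorem no4 : ∀ a b c d : Fin 12, a ≠ b → a ≠ c → a ≠ d → b ≠ c → b ≠ d → c ≠ d →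
    G.Adj a b ∨ G.Adj a c ∨ G.Adj a d ∨ G.Adj b c ∨ G.Adj b d ∨ G.Adj c d := by
  decide +kernel

theorem card_le (s : Finset (Fin 12)) (h : ∀ a ∈ s, ∀ b ∈ s, a ≠ b → ¬ G.Adj a b) :
    s.card ≤ 3 := by
  by_contra hc
  push Not at hc
  obtain ⟨a, b, c, d, ha, hb, hc, hd, hab, hac, had, hbc, hbd, hcd⟩ := three_lt_card_iff.1 hc
  rcases no4 a b c d hab hac had hbc hbd hcd with h1 | h1 | h1 | h1 | h1 | h1
  · exact h a ha b hb hab h1
  · exact h a ha c hc hac h1
  · exact h a ha d hd had h1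
  · exact h b hb c hc hbc h1
  · exact h b hb d hd hbd h1
  · exact h c hc d hd hcd h1

theorem indepNum_eq : G.indepNum = 3 := by
  apply le_antisymm
  · obtain ⟨s, hs⟩ := G.exists_isNIndepSet_indepNum
    rw [← hs.card_eq]
    exact card_le s fun a ha b hb hab => hs.isIndepSet ha hb hab
  · have : G.IsIndepSet (({0, 3, 7} : Finset (Fin 12)) : Set (Fin 12)) := by
      intro a ha b hb hab
      simp only [coe_insert, coe_singleton, Set.mem_insert_iff, Set.mem_singleton_iff] at ha hb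
      rcases ha with rfl | rfl | rfl <;> rcases hb with rfl | rfl | rfl <;> decide
    simpa using this.card_le_indepNum

theorem class_le {m : ℕ} (g : Fin 12 → Finset (Fin m))
    (h : ∀ u v, G.Adj u v → Disjoint (g u) (g v)) (c : Fin m) :
    (univ.filter (fun v => c ∈ g v)).card ≤ 3 := by
  apply card_le
  intro a ha b hb _ hab
  simp only [mem_filter, mem_univ, true_and] at ha hb
  exact disjoint_left.1 (h a b hab) ha hb

theorem sum_classes {m k : ℕ} (g : Fin 12 → Finset (Fin m)) (hk : ∀ v, (g v).card = k) :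
    ∑ c : Fin m, (univ.filter (fun v => c ∈ g v)).card = 12 * k := by
  have : ∑ c : Fin m, (univ.filter (fun v => c ∈ g v)).card = ∑ v : Fin 12, (g v).card := by
    simp only [card_filter]
    rw [sum_comm]
    refine sum_congr rfl fun v _ => ?_
    rw [← card_filter]
    congr 1
    ext c
    simp
  rw [this]
  simp [hk]

def g2 : Fin 12 → Finset (Fin 8) :=
  ![{0, 1}, {2, 3}, {4, 5}, {0, 4}, {2, 6}, {4, 5}, {3, 7}, {0, 3}, {1, 6}, {5, 7}, {1, 7}, {2, 6}]

def g3 : Fin 12 → Finset (Fin 12) :=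
  ![{0, 1, 2}, {3, 4, 5}, {6, 7, 8}, {0, 6, 7}, {3, 4, 9}, {6, 7, 8}, {3, 5, 10}, {0, 1, 5},
    {2, 9, 11}, {8, 10, 11}, {1, 10, 11}, {2, 4, 9}]

theorem inf2 : sInf {m : ℕ | ∃ g : Fin 12 → Finset (Fin m),
    (∀ v, (g v).card = 2) ∧ ∀ u v, G.Adj u v → Disjoint (g u) (g v)} = 8 := by
  have h8 : 8 ∈ {m : ℕ | ∃ g : Fin 12 → Finset (Fin m),
      (∀ v, (g v).card = 2) ∧ ∀ u v, G.Adj u v → Disjoint (g u) (g v)} :=
    ⟨g2, by decide +kernel, by decide +kernel⟩
  apply le_antisymm (Nat.sInf_le h8)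
  apply le_csInf ⟨8, h8⟩
  rintro m ⟨g, hk, h⟩
  have h1 := sum_classes g hk
  have h2 : ∑ c : Fin m, (univ.filter (fun v => c ∈ g v)).card ≤ ∑ _c : Fin m, 3 :=
    sum_le_sum fun c _ => class_le g h c
  simp at h2
  omega

theorem inf3 : sInf {m : ℕ | ∃ g : Fin 12 → Finset (Fin m),
    (∀ v, (g v).card = 2 + 1) ∧ ∀ u v, G.Adj u v → Disjoint (g u) (g v)} ≤ 12 :=
  Nat.sInf_le ⟨g3, by decide +kernel, by decide +kernel⟩

theorem not_col : ¬ G.Colorable 4 :=
  not_colorable G L (fun _ _ h => h) (by decide +kernel)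

theorem saturated (m : ℕ) (hm : m = 8) (f : Fin 12 → Finset (Fin m)) (hk : ∀ v, (f v).card = 2)
    (h : ∀ u v, G.Adj u v → Disjoint (f u) (f v)) (c : Fin m) :
    (univ.filter (fun v => c ∈ f v)).card = G.indepNum := by
  subst hm
  rw [indepNum_eq]
  have h1 := sum_classes f hk
  by_contra hne
  have h2 : ∑ c : Fin 8, (univ.filter (fun v => c ∈ f v)).card < ∑ _c : Fin 8, 3 :=
    sum_lt_sum (fun c _ => class_le f h c)
      ⟨c, mem_univ _, lt_of_le_of_ne (class_le f h c) hne⟩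
  simp at h2
  omega

end Pool.Agent.H9.Sat12
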