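import Mathlib

namespace Pool.Agent.H9.Semi

def bit (M i : ℕ) : Bool := Nat.beq (Nat.land (Nat.shiftRight M i) 1) 1
def ix (s a b : ℕ) : ℕ := Nat.add (Nat.mul 100 s) (Nat.add (Nat.mul 10 a) b)
def put (M s a b : ℕ) : ℕ :=
  Nat.lor M (Nat.lor (Nat.shiftLeft 1 (ix s a b)) (Nat.shiftLeft 1 (ix s b a)))
def sw (u w x : ℕ) : ℕ := cond (Nat.beq x u) w (cond (Nat.beq x w) u x)
def R10 : List ℕ := [0, 1, 2, 3, 4, 5, 6, 7, 8, 9]
def R20 : List ℕ := [0, 1, 2, 3, 4, 5, 6, 7, 8, 9, 10, 11, 12, 13, 14, 15, 16, 17, 18, 19]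

def inv (M u w : ℕ) : Bool :=
  [0, 1].all fun s => R10.all fun a => R10.all fun b =>
    !bit M (ix s a b) || bit M (ix s (sw u w a) (sw u w b))

def leafK (M s a b c d : ℕ) : Bool :=
  Nat.blt a b && Nat.blt b c && Nat.blt c d && Nat.blt d 10 && bit M (ix s a b) &&
    bit M (ix s a c) && bit M (ix s a d) && bit M (ix s b c) && bit M (ix s b d) &&
    bit M (ix s c d)

def leafE (M s t a b : ℕ) : Bool :=
  Nat.blt a b && Nat.blt b 10 && bit M (ix s a b) &&
    R10.all fun c => Nat.beq c a || Nat.beq c b || bit M (ix t a c) || bit M (ix t b c)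

def leafA (M t : ℕ) (l : List ℕ) : Bool :=
  l.all fun x => l.all fun y => Nat.ble y x || bit M (ix t x y) ||
    l.all fun z => Nat.ble z y || bit M (ix t x z) || bit M (ix t y z)

def rest (a b c : ℕ) : List ℕ := R10.filter fun x => !(Nat.beq x a || Nat.beq x b || Nat.beq x c)

def uu (a b j : ℕ) : ℕ := cond (Nat.blt j 10) b a

def symOk (M a b m : ℕ) : Bool := R20.all fun j => !bit m j || inv M (uu a b j) (j % 10)

def symPut (t a b m : ℕ) : List ℕ → ℕ → ℕ
  | [], M => M
  | j :: l, M => symPut t a b m l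
      (cond (bit m j) (put M t (sw (uu a b j) (j % 10) a) (sw (uu a b j) (j % 10) b)) M)

abbrev S := Option (List ℕ)

def fN (n : ℕ) (k : ℕ → S) : S := Nat.casesOn n (k 0) fun n => k (Nat.succ n)

theorem fN_eq (n : ℕ) (k : ℕ → S) : fN n k = k n := by cases n <;> rfl

def pop (l : List ℕ) (k : ℕ → List ℕ → S) : S :=
  match l with
  | [] => none
  | c :: cs => fN (c % 1048576) fun t => fN (c / 1048576) fun c' =>
      cond (Nat.beq c' 0) (k t cs) (k t (c' :: cs))

theorem pop_some {l : List ℕ} {k : ℕ → List ℕ → S} {r : List ℕ} (h : pop l k = some r) :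
    ∃ t l', k t l' = some r := by
  cases l with
  | nil => simp [pop] at h
  | cons c cs =>
    simp only [pop, fN_eq] at h
    cases hb : Nat.beq (c / 1048576) 0 <;> rw [hb] at h <;> exact ⟨_, _, h⟩

def both (x : S) (k : List ℕ → S) : S :=
  match x with
  | none => none
  | some l => k l

theorem both_some {x : S} {k : List ℕ → S} {r : List ℕ} (h : both x k = some r) :
    ∃ l, x = some l ∧ k l = some r := by
  cases x with
  | none => simp [both] at h
  | some l => exact ⟨l, rfl, h⟩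

def check : ℕ → ℕ → List ℕ → S
  | 0, _, _ => none
  | f + 1, M, l => pop l fun t l =>
    fN (t % 4) fun tag => fN (t / 4 % 2) fun s => fN (1 - s) fun s' =>
    fN (t / 8 % 16) fun a => fN (t / 128 % 16) fun b => fN (t / 2048 % 16) fun c =>
    match tag with
    | 0 =>
      cond (Nat.blt a 10 && Nat.blt b 10)
        (cond (Nat.beq c 0)
          (fN (put M s a b) fun M1 => both (check f M1 l) fun l2 =>
            fN (put M s' a b) fun M2 => check f M2 l2)
          (pop l fun m l => cond (symOk M a b m)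
            (fN (put M s a b) fun M1 => both (check f M1 l) fun l2 =>
              fN (symPut s' a b m R20 (put M s' a b)) fun M2 => check f M2 l2) none))
        none
    | 1 => cond (leafK M s a b c (t / 32768)) (some l) none
    | 2 => cond (leafE M s s' a b) (some l) none
    | _ => cond (leafA M s' (rest a b c)) (some l) none

structure Good (G : ℕ → ℕ → ℕ) : Prop where
  lt : ∀ a b, G a b < 2
  sym : ∀ a b, G a b = G b a
  k4 : ∀ s a b c d, a < 10 → b < 10 → c < 10 → d < 10 → a ≠ b → a ≠ c → a ≠ d → b ≠ c →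
    b ≠ d → c ≠ d → G a b = s → G a c = s → G a d = s → G b c = s → G b d = s → G c d = s → False
  edge : ∀ a b, a < 10 → b < 10 → a ≠ b →
    ∃ c, c < 10 ∧ c ≠ a ∧ c ≠ b ∧ G a c = G a b ∧ G b c = G a b
  av : ∀ s a b c, s < 2 → ∃ x y z, x < 10 ∧ y < 10 ∧ z < 10 ∧ x ≠ y ∧ x ≠ z ∧ y ≠ z ∧
    (x ≠ a ∧ x ≠ b ∧ x ≠ c) ∧ (y ≠ a ∧ y ≠ b ∧ y ≠ c) ∧ (z ≠ a ∧ z ≠ b ∧ z ≠ c) ∧
    G x y = s ∧ G x z = s ∧ G y z = s

def Cons (G : ℕ → ℕ → ℕ) (M : ℕ) : Prop :=
  ∀ s a b, s < 2 → a < 10 → b < 10 → bit M (ix s a b) = true → G a b = s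

lemma bit_eq (M i : ℕ) : bit M i = M.testBit i := by
  unfold bit Nat.testBit
  change Nat.beq ((M >>> i) &&& 1) 1 = _
  rw [Nat.and_comm, Nat.one_and_eq_mod_two]
  rcases Nat.mod_two_eq_zero_or_one (M >>> i) with h | h <;> rw [h] <;> rfl

lemma ix_eq (s a b : ℕ) : ix s a b = 100 * s + (10 * a + b) := rfl

lemma bit_put {M s a b i : ℕ} (h : bit (put M s a b) i = true) :
    bit M i = true ∨ i = ix s a b ∨ i = ix s b a := by
  rw [bit_eq] at *
  change (M ||| ((1 <<< ix s a b) ||| (1 <<< ix s b a))).testBit i = true at h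
  simp only [Nat.testBit_or, Nat.one_shiftLeft, Nat.testBit_two_pow, Bool.or_eq_true,
    decide_eq_true_eq] at h
  tauto

lemma Cons.put {G : ℕ → ℕ → ℕ} {M s a b : ℕ} (hG : Good G) (h : Cons G M) (ha : a < 10)
    (hb : b < 10) (e : G a b = s) : Cons G (put M s a b) := by
  intro s' x y hs hx hy hbit
  rcases bit_put hbit with h1 | h1 | h1
  · exact h _ _ _ hs hx hy h1
  · rw [ix_eq, ix_eq] at h1
    obtain ⟨rfl, rfl, rfl⟩ : s' = s ∧ x = a ∧ y = b := by omega
    exact e
  · rw [ix_eq, ix_eq] at h1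
    obtain ⟨rfl, rfl, rfl⟩ : s' = s ∧ x = b ∧ y = a := by omega
    rw [hG.sym]; exact e

lemma beq_false {a b : ℕ} (h : a ≠ b) : Nat.beq a b = false := by
  cases e : Nat.beq a b
  · rfl
  · exact absurd (Nat.eq_of_beq_eq_true e) h

lemma sw_eq (u w x : ℕ) : sw u w x = if x = u then w else if x = w then u else x := by
  unfold sw
  by_cases h1 : x = u
  · simp [h1]
  · by_cases h2 : x = w
    · subst h2; simp [h1, beq_false h1] 
    · simp [h1, h2, beq_false h1, beq_false h2]

lemma sw_sw (u w x : ℕ) : sw u w (sw u w x) = x := by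
  simp only [sw_eq]; split_ifs <;> omega

lemma sw_lt {u w x : ℕ} (hu : u < 10) (hw : w < 10) (hx : x < 10) : sw u w x < 10 := by
  simp only [sw_eq]; split_ifs <;> omega

lemma sw_inj {u w x y : ℕ} (h : sw u w x = sw u w y) : x = y := by
  rw [← sw_sw u w x, h, sw_sw]

lemma sw_ne {u w x y : ℕ} (h : x ≠ sw u w y) : sw u w x ≠ y := by
  rintro rfl; exact h (sw_sw _ _ _).symm

lemma Good.swap {G : ℕ → ℕ → ℕ} (hG : Good G) {u w : ℕ} (hu : u < 10) (hw : w < 10) :
    Good fun a b => G (sw u w a) (sw u w b) where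
  lt a b := hG.lt _ _
  sym a b := hG.sym _ _
  k4 s a b c d ha hb hc hd h1 h2 h3 h4 h5 h6 :=
    hG.k4 s _ _ _ _ (sw_lt hu hw ha) (sw_lt hu hw hb) (sw_lt hu hw hc) (sw_lt hu hw hd)
      (fun h => h1 (sw_inj h)) (fun h => h2 (sw_inj h)) (fun h => h3 (sw_inj h))
      (fun h => h4 (sw_inj h)) (fun h => h5 (sw_inj h)) (fun h => h6 (sw_inj h))
  edge a b ha hb hab := by
    obtain ⟨c, h1, h2, h3, h4, h5⟩ :=
      hG.edge _ _ (sw_lt hu hw ha) (sw_lt hu hw hb) (fun h => hab (sw_inj h))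
    exact ⟨sw u w c, sw_lt hu hw h1, sw_ne h2, sw_ne h3, by rwa [sw_sw], by rwa [sw_sw]⟩
  av s a b c hs := by
    obtain ⟨x, y, z, h1, h2, h3, h4, h5, h6, h7, h8, h9, h10, h11, h12⟩ :=
      hG.av s (sw u w a) (sw u w b) (sw u w c) hs
    refine ⟨sw u w x, sw u w y, sw u w z, sw_lt hu hw h1, sw_lt hu hw h2, sw_lt hu hw h3,
      fun h => h4 (sw_inj h), fun h => h5 (sw_inj h), fun h => h6 (sw_inj h),
      ⟨sw_ne h7.1, sw_ne h7.2.1, sw_ne h7.2.2⟩, ⟨sw_ne h8.1, sw_ne h8.2.1, sw_ne h8.2.2⟩,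
      ⟨sw_ne h9.1, sw_ne h9.2.1, sw_ne h9.2.2⟩, ?_, ?_, ?_⟩ <;> simp only [sw_sw] <;> assumption

lemma mem_R10 {a : ℕ} (h : a < 10) : a ∈ R10 := by
  unfold R10; simp only [List.mem_cons]; omega

lemma Cons.swap {G : ℕ → ℕ → ℕ} {M u w : ℕ} (h : Cons G M) (hu : u < 10) (hw : w < 10)
    (hi : inv M u w = true) : Cons (fun a b => G (sw u w a) (sw u w b)) M := by
  intro s a b hs ha hb hbit
  unfold inv at hi
  simp only [List.all_eq_true, Bool.or_eq_true, Bool.not_eq_true'] at hi
  rcases hi s (by simp only [List.mem_cons]; omega) a (mem_R10 ha) b (mem_R10 hb) with h1 | h1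
  · rw [h1] at hbit; cases hbit
  · exact h _ _ _ hs (sw_lt hu hw ha) (sw_lt hu hw hb) h1

lemma uu_lt {a b : ℕ} (ha : a < 10) (hb : b < 10) (j : ℕ) : uu a b j < 10 := by
  unfold uu; cases Nat.blt j 10 <;> assumption

lemma cons_symPut {G : ℕ → ℕ → ℕ} (hG : Good G) {t a b m : ℕ} (ha : a < 10) (hb : b < 10)
    (l : List ℕ) (hl : ∀ j ∈ l, bit m j = true →
      G (sw (uu a b j) (j % 10) a) (sw (uu a b j) (j % 10) b) = t) (M : ℕ) (h : Cons G M) :
    Cons G (symPut t a b m l M) := by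
  induction l generalizing M with
  | nil => exact h
  | cons j l ih =>
    apply ih (fun i hi => hl i (List.mem_cons_of_mem _ hi))
    cases hb' : bit m j
    · exact h
    · have hj : j % 10 < 10 := Nat.mod_lt _ (by norm_num)
      exact h.put hG (sw_lt (uu_lt ha hb j) hj ha) (sw_lt (uu_lt ha hb j) hj hb)
        (hl j List.mem_cons_self hb')

lemma cond_some {c : Bool} {x : S} {r : List ℕ} (h : cond c x none = some r) :
    c = true ∧ x = some r := by
  cases c
  · cases h
  · exact ⟨rfl, h⟩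

theorem sound (f : ℕ) : ∀ (M : ℕ) (l r : List ℕ), check f M l = some r →
    ∀ G, Good G → Cons G M → False := by
  induction f with
  | zero => intro M l r h; cases h
  | succ f ih =>
    intro M l r h G hG hC
    unfold check at h
    obtain ⟨t, l', h⟩ := pop_some h
    simp only [fN_eq] at h
    have hs : t / 4 % 2 < 2 := Nat.mod_lt _ (by norm_num)
    generalize t / 4 % 2 = s at h hs
    generalize t / 8 % 16 = a at h
    generalize t / 128 % 16 = b at h
    generalize t / 2048 % 16 = c at h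
    generalize t / 32768 = d at h
    have hs' : 1 - s < 2 := by omega
    split at h
    · obtain ⟨h0, h⟩ := cond_some h
      simp only [Bool.and_eq_true, Nat.blt_eq] at h0
      obtain ⟨ha, hb⟩ := h0
      have hab := hG.lt a b
      cases hc : Nat.beq c 0
      · rw [hc] at h
        obtain ⟨m, l1, h⟩ := pop_some h
        obtain ⟨h1, h⟩ := cond_some h
        obtain ⟨l2, h2, h3⟩ := both_some h
        have ne : ∀ G', Good G' → Cons G' M → G' a b = 1 - s := fun G' g1 g2 => by
          have := g1.lt a b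
          by_contra hne
          exact ih _ _ _ h2 G' g1 (g2.put g1 ha hb (by omega))
        refine ih _ _ _ h3 G hG (cons_symPut hG ha hb _ (fun j hj hbj => ?_) _
          (hC.put hG ha hb (ne G hG hC)))
        have hj' : j % 10 < 10 := Nat.mod_lt _ (by norm_num)
        unfold symOk at h1
        simp only [List.all_eq_true, Bool.or_eq_true, Bool.not_eq_true'] at h1
        rcases h1 j hj with h4 | h4
        · rw [h4] at hbj; cases hbj
        · exact ne _ (hG.swap (uu_lt ha hb j) hj') (hC.swap (uu_lt ha hb j) hj' h4)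
      · rw [hc] at h
        obtain ⟨l2, h2, h3⟩ := both_some h
        by_cases e : G a b = s
        · exact ih _ _ _ h2 G hG (hC.put hG ha hb e)
        · exact ih _ _ _ h3 G hG (hC.put hG ha hb (by omega))
    · obtain ⟨h0, -⟩ := cond_some h
      simp only [leafK, Bool.and_eq_true, Nat.blt_eq] at h0
      obtain ⟨⟨⟨⟨⟨⟨⟨⟨⟨p1, p2⟩, p3⟩, p4⟩, q1⟩, q2⟩, q3⟩, q4⟩, q5⟩, q6⟩ := h0
      exact hG.k4 s a b c d (by omega) (by omega) (by omega) p4 (by omega) (by omega) (by omega)
        (by omega) (by omega) (by omega) (hC _ _ _ hs (by omega) (by omega) q1)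
        (hC _ _ _ hs (by omega) (by omega) q2) (hC _ _ _ hs (by omega) (by omega) q3)
        (hC _ _ _ hs (by omega) (by omega) q4) (hC _ _ _ hs (by omega) (by omega) q5)
        (hC _ _ _ hs (by omega) (by omega) q6)
    · obtain ⟨h0, -⟩ := cond_some h
      simp only [leafE, Bool.and_eq_true, Nat.blt_eq, List.all_eq_true, Bool.or_eq_true,
        Nat.beq_eq] at h0
      obtain ⟨⟨⟨p1, p2⟩, q1⟩, q2⟩ := h0
      obtain ⟨x, h1, h2, h3, h4, h5⟩ := hG.edge a b (by omega) p2 (by omega)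
      have e := hC _ _ _ hs (by omega) p2 q1
      rcases q2 x (mem_R10 h1) with ((q | q) | q) | q
      · exact h2 q
      · exact h3 q
      · have := hC _ _ _ hs' (by omega) h1 q; omega
      · have := hC _ _ _ hs' p2 h1 q; omega
    · obtain ⟨h0, -⟩ := cond_some h
      simp only [leafA, List.all_eq_true, Bool.or_eq_true, Nat.ble_eq] at h0
      have key : ∀ x y z, x < y → y < z → z < 10 → (x ≠ a ∧ x ≠ b ∧ x ≠ c) →
          (y ≠ a ∧ y ≠ b ∧ y ≠ c) → (z ≠ a ∧ z ≠ b ∧ z ≠ c) →
          G x y = s → G x z = s → G y z = s → False := by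
        intro x y z h1 h2 h3 h4 h5 h6 h7 h8 h9
        have mem : ∀ v, v < 10 → (v ≠ a ∧ v ≠ b ∧ v ≠ c) → v ∈ rest a b c := fun v hv hn => by
          unfold rest
          simp only [List.mem_filter, Bool.not_eq_true', Bool.or_eq_false_iff]
          exact ⟨mem_R10 hv, ⟨beq_false hn.1, beq_false hn.2.1⟩, beq_false hn.2.2⟩
        rcases h0 x (mem x (by omega) h4) y (mem y (by omega) h5) with (q | q) | q
        · omega
        · have := hC _ _ _ hs' (by omega) (by omega) q; omega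
        · rcases q z (mem z h3 h6) with (q | q) | q
          · omega
          · have := hC _ _ _ hs' (by omega) h3 q; omega
          · have := hC _ _ _ hs' (by omega) h3 q; omega
      obtain ⟨x, y, z, h1, h2, h3, h4, h5, h6, h7, h8, h9, h10, h11, h12⟩ := hG.av s a b c hs
      have h10' := (hG.sym y x).trans h10
      have h11' := (hG.sym z x).trans h11
      have h12' := (hG.sym z y).trans h12
      rcases Nat.lt_or_gt_of_ne h4 with c1 | c1 <;> rcases Nat.lt_or_gt_of_ne h5 with c2 | c2 <;>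
        rcases Nat.lt_or_gt_of_ne h6 with c3 | c3
      · exact key x y z c1 c3 h3 h7 h8 h9 h10 h11 h12
      · exact key x z y c2 c3 h2 h7 h9 h8 h11 h10 h12'
      · omega
      · exact key z x y c2 c1 h2 h9 h7 h8 h11' h12' h10
      · exact key y x z c1 c2 h3 h8 h7 h9 h10' h12 h11
      · omega
      · exact key y z x c3 c2 h1 h8 h9 h7 h12 h10' h11'
      · exact key z y x c3 c1 h1 h9 h8 h7 h12' h11' h10'

end Pool.Agent.H9.Semi
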