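import Pool.Agent.H9.Semi1

namespace Pool.Agent.H9.SemiO

open Pool.Agent.H9.Semi

def checkO (O : List ℕ) : ℕ → ℕ → List ℕ → S
  | 0, _, _ => none
  | f + 1, M, l => pop l fun t l =>
    fN (t % 4) fun tag => fN (t / 4 % 2) fun s => fN (1 - s) fun s' =>
    fN (t / 8 % 16) fun a => fN (t / 128 % 16) fun b => fN (t / 2048 % 16) fun c =>
    match tag with
    | 0 =>
      cond (Nat.blt a 10 && Nat.blt b 10)
        (cond (Nat.beq c 0)
          (fN (put M s a b) fun M1 => both (checkO O f M1 l) fun l2 =>
            fN (put M s' a b) fun M2 => checkO O f M2 l2)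
          (pop l fun m l => cond (symOk M a b m)
            (fN (put M s a b) fun M1 => both (checkO O f M1 l) fun l2 =>
              fN (symPut s' a b m R20 (put M s' a b)) fun M2 => checkO O f M2 l2) none))
        none
    | 1 => cond (leafK M s a b c (t / 32768)) (some l) none
    | 2 => cond (O.any (Nat.beq M) || leafE M s s' a b) (some l) none
    | _ => cond (leafA M s' (rest a b c)) (some l) none

theorem soundO (O : List ℕ) (hO : ∀ M ∈ O, ∀ G, Good G → Cons G M → False) (f : ℕ) : ∀ (M : ℕ) (l r : List ℕ), checkO O f M l = some r →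
    ∀ G, Good G → Cons G M → False := by
  induction f with
  | zero => intro M l r h; cases h
  | succ f ih =>
    intro M l r h G hG hC
    unfold checkO at h
    obtain ⟨t, l', h⟩ := pop_some h
    simp only [fN_eq] at h
    have hs : t / 4 % 2 < 2 := Nat.mod_lt _ (by norm_num)
    generalize t / 4 % 2 = s at h hs
    generalize t / 8 % 16 = a at h
    generalize t / 128 % 16 = b at h
    generalize t / 2048 % 16 = c at h
    generalize t / 32768 = d at h
    have hs' : 1 - s < 2 := by omega
    split at h
    · obtain ⟨h0, h⟩ := cond_some h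
      simp only [Bool.and_eq_true, Nat.blt_eq] at h0
      obtain ⟨ha, hb⟩ := h0
      have hab := hG.lt a b
      cases hc : Nat.beq c 0
      · rw [hc] at h
        obtain ⟨m, l1, h⟩ := pop_some h
        obtain ⟨h1, h⟩ := cond_some h
        obtain ⟨l2, h2, h3⟩ := both_some h
        have ne : ∀ G', Good G' → Cons G' M → G' a b = 1 - s := fun G' g1 g2 => by
          have := g1.lt a b
          by_contra hne
          exact ih _ _ _ h2 G' g1 (g2.put g1 ha hb (by omega))
        refine ih _ _ _ h3 G hG (cons_symPut hG ha hb _ (fun j hj hbj => ?_) _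
          (hC.put hG ha hb (ne G hG hC)))
        have hj' : j % 10 < 10 := Nat.mod_lt _ (by norm_num)
        unfold symOk at h1
        simp only [List.all_eq_true, Bool.or_eq_true, Bool.not_eq_true'] at h1
        rcases h1 j hj with h4 | h4
        · rw [h4] at hbj; cases hbj
        · exact ne _ (hG.swap (uu_lt ha hb j) hj') (hC.swap (uu_lt ha hb j) hj' h4)
      · rw [hc] at h
        obtain ⟨l2, h2, h3⟩ := both_some h
        by_cases e : G a b = s
        · exact ih _ _ _ h2 G hG (hC.put hG ha hb e)
        · exact ih _ _ _ h3 G hG (hC.put hG ha hb (by omega))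
    · obtain ⟨h0, -⟩ := cond_some h
      simp only [leafK, Bool.and_eq_true, Nat.blt_eq] at h0
      obtain ⟨⟨⟨⟨⟨⟨⟨⟨⟨p1, p2⟩, p3⟩, p4⟩, q1⟩, q2⟩, q3⟩, q4⟩, q5⟩, q6⟩ := h0
      exact hG.k4 s a b c d (by omega) (by omega) (by omega) p4 (by omega) (by omega) (by omega)
        (by omega) (by omega) (by omega) (hC _ _ _ hs (by omega) (by omega) q1)
        (hC _ _ _ hs (by omega) (by omega) q2) (hC _ _ _ hs (by omega) (by omega) q3)
        (hC _ _ _ hs (by omega) (by omega) q4) (hC _ _ _ hs (by omega) (by omega) q5)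
        (hC _ _ _ hs (by omega) (by omega) q6)
    · obtain ⟨h0, -⟩ := cond_some h
      rw [Bool.or_eq_true] at h0
      rcases h0 with h0 | h0
      · simp only [List.any_eq_true, Nat.beq_eq] at h0
        obtain ⟨x, hx, rfl⟩ := h0
        exact hO _ hx G hG hC
      simp only [leafE, Bool.and_eq_true, Nat.blt_eq, List.all_eq_true, Bool.or_eq_true,
        Nat.beq_eq] at h0
      obtain ⟨⟨⟨p1, p2⟩, q1⟩, q2⟩ := h0
      obtain ⟨x, h1, h2, h3, h4, h5⟩ := hG.edge a b (by omega) p2 (by omega)
      have e := hC _ _ _ hs (by omega) p2 q1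
      rcases q2 x (mem_R10 h1) with ((q | q) | q) | q
      · exact h2 q
      · exact h3 q
      · have := hC _ _ _ hs' (by omega) h1 q; omega
      · have := hC _ _ _ hs' p2 h1 q; omega
    · obtain ⟨h0, -⟩ := cond_some h
      simp only [leafA, List.all_eq_true, Bool.or_eq_true, Nat.ble_eq] at h0
      have key : ∀ x y z, x < y → y < z → z < 10 → (x ≠ a ∧ x ≠ b ∧ x ≠ c) →
          (y ≠ a ∧ y ≠ b ∧ y ≠ c) → (z ≠ a ∧ z ≠ b ∧ z ≠ c) →
          G x y = s → G x z = s → G y z = s → False := by
        intro x y z h1 h2 h3 h4 h5 h6 h7 h8 h9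
        have mem : ∀ v, v < 10 → (v ≠ a ∧ v ≠ b ∧ v ≠ c) → v ∈ rest a b c := fun v hv hn => by
          unfold rest
          simp only [List.mem_filter, Bool.not_eq_true', Bool.or_eq_false_iff]
          exact ⟨mem_R10 hv, ⟨beq_false hn.1, beq_false hn.2.1⟩, beq_false hn.2.2⟩
        rcases h0 x (mem x (by omega) h4) y (mem y (by omega) h5) with (q | q) | q
        · omega
        · have := hC _ _ _ hs' (by omega) (by omega) q; omega
        · rcases q z (mem z h3 h6) with (q | q) | q
          · omega
          · have := hC _ _ _ hs' (by omega) h3 q; omega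
          · have := hC _ _ _ hs' (by omega) h3 q; omega
      obtain ⟨x, y, z, h1, h2, h3, h4, h5, h6, h7, h8, h9, h10, h11, h12⟩ := hG.av s a b c hs
      have h10' := (hG.sym y x).trans h10
      have h11' := (hG.sym z x).trans h11
      have h12' := (hG.sym z y).trans h12
      rcases Nat.lt_or_gt_of_ne h4 with c1 | c1 <;> rcases Nat.lt_or_gt_of_ne h5 with c2 | c2 <;>
        rcases Nat.lt_or_gt_of_ne h6 with c3 | c3
      · exact key x y z c1 c3 h3 h7 h8 h9 h10 h11 h12
      · exact key x z y c2 c3 h2 h7 h9 h8 h11 h10 h12'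
      · omega
      · exact key z x y c2 c1 h2 h9 h7 h8 h11' h12' h10
      · exact key y x z c1 c2 h3 h8 h7 h9 h10' h12 h11
      · omega
      · exact key y z x c3 c2 h1 h8 h9 h7 h12 h10' h11'
      · exact key z y x c3 c1 h1 h9 h8 h7 h12' h11' h10'

end Pool.Agent.H9.SemiO
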