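import Pool.Agent.H9.SnDefs

set_option autoImplicit false

namespace Pool.Agent.H9.Sn

open Finset Equiv

theorem two_mem {n : ℕ} (p q : Fin n) (hpq : p ≠ q) (φ : Fin n → Fin n → ℝ) :
    (WithLp.toLp 2 fun σ : Perm (Fin n) => φ (σ p) (σ q)) ∈ U n 2 := by
  let a : Fin 2 ↪ Fin n := ⟨![p, q], by
    intro i j hij
    fin_cases i <;> fin_cases j <;> simp_all⟩
  have : (WithLp.toLp 2 fun σ : Perm (Fin n) => φ (σ p) (σ q)) =
      ∑ b : Fin 2 ↪ Fin n, φ (b 0) (b 1) • ind (coset a b) := by
    ext σ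
    simp only [WithLp.ofLp_sum, WithLp.ofLp_smul, Finset.sum_apply, Pi.smul_apply, ind, coset,
      smul_eq_mul, mem_filter, mem_univ, true_and]
    rw [sum_eq_single (a.trans σ.toEmbedding)]
    · simp [a]
    · intro b _ hb
      rw [if_neg, mul_zero]
      intro h
      exact hb (Function.Embedding.ext fun i => (h i).symm)
    · simp
  rw [this]
  exact Submodule.sum_mem _ fun b _ => Submodule.smul_mem _ _ (Submodule.subset_span ⟨a, b, rfl⟩)

def sd {m : ℕ} (x : Fin (2 * m + 8)) : Bool := decide ((x : ℕ) < m + 4)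

def AA (m : ℕ) : Finset (Perm (Fin (2 * m + 8))) :=
  univ.filter fun σ => sd (σ 0) = sd (σ 1) ∧ sd (σ 1) = sd (σ 2)

theorem n01 (m : ℕ) : (0 : Fin (2 * m + 8)) ≠ 1 := by simp
theorem v2 (m : ℕ) : ((2 : Fin (2 * m + 8)) : ℕ) = 2 := by
  show 2 % (2 * m + 8) = 2
  exact Nat.mod_eq_of_lt (by omega)
theorem v1 (m : ℕ) : ((1 : Fin (2 * m + 8)) : ℕ) = 1 := by simp
theorem n02 (m : ℕ) : (0 : Fin (2 * m + 8)) ≠ 2 := fun e => by
  have := congrArg Fin.val e
  rw [v2] at this
  simp at this
theorem n12 (m : ℕ) : (1 : Fin (2 * m + 8)) ≠ 2 := fun e => by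
  have := congrArg Fin.val e
  rw [v2, v1] at this
  simp at this

theorem AA_mem (m : ℕ) : ind (AA m) ∈ U (2 * m + 8) 2 := by
  let x : Fin (2 * m + 8) → ℝ := fun v => if sd v then 1 else 0
  have h := Submodule.add_mem _ (Submodule.add_mem _
    (two_mem 0 1 (n01 m) fun v w => 1 - x v - x w + x v * x w)
    (two_mem 1 2 (n12 m) fun v w => x v * x w - x w)) (two_mem 0 2 (n02 m) fun v w => x v * x w)
  convert h using 1
  ext σ
  simp only [ind, AA, mem_filter, mem_univ, true_and, PiLp.add_apply, x]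
  cases sd (σ 0) <;> cases sd (σ 1) <;> cases sd (σ 2) <;> simp

theorem side_card (m : ℕ) (s : Bool) :
    m + 4 ≤ (univ.filter fun v : Fin (2 * m + 8) => sd v ≠ s).card := by
  cases s
  · refine le_trans (by simp) (card_le_card_of_injOn (s := (univ : Finset (Fin (m + 4))))
      (fun i => (⟨i, by omega⟩ : Fin (2 * m + 8))) (fun i _ => ?_) fun i _ j _ h => ?_)
    · simp [sd]
    · exact Fin.ext (by simpa using h)
  · refine le_trans (by simp) (card_le_card_of_injOn (s := (univ : Finset (Fin (m + 4))))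
      (fun i => (⟨m + 4 + i, by omega⟩ : Fin (2 * m + 8))) (fun i _ => ?_) fun i _ j _ h => ?_)
    · simp [sd]
    · exact Fin.ext (by simpa using h)

theorem far (m : ℕ) (C : Finset (Perm (Fin (2 * m + 8)))) (hC : IsCosetUnion 2 C) :
    (C ∩ AA m).card ≤ 12 * (C \ AA m).card := by
  classical
  obtain ⟨T, hT⟩ := hC
  have key := card_mul_le_card_mul (s := C ∩ AA m) (t := C \ AA m) (m := m + 2)
    (n := 3 * (2 * m + 8))
    (fun σ τ => ∃ i ∈ ({0, 1, 2} : Finset (Fin (2 * m + 8))), ∃ j, σ = τ * swap i j) ?_ ?_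
  · by_contra h
    push Not at h
    nlinarith
  · intro σ hσ
    obtain ⟨hσC, hσA⟩ := mem_inter.1 hσ
    have hA := (mem_filter.1 hσA).2
    rw [hT] at hσC
    obtain ⟨⟨a, b⟩, hab, hσab⟩ := mem_biUnion.1 hσC
    have hfix := (mem_filter.1 hσab).2
    obtain ⟨i, hi, hia⟩ : ∃ i ∈ ({0, 1, 2} : Finset (Fin (2 * m + 8))), i ∉ ({a 0, a 1} : Finset _) := by
      apply exists_mem_notMem_of_card_lt_card
      rw [card_eq_three.2 ⟨0, 1, 2, n01 m, n02 m, n12 m, rfl⟩]
      exact lt_of_le_of_lt card_le_two (by norm_num)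
    have hsi : ∀ k ∈ ({0, 1, 2} : Finset (Fin (2 * m + 8))), sd (σ k) = sd (σ 0) := by
      intro k hk
      simp only [mem_insert, mem_singleton] at hk
      rcases hk with rfl | rfl | rfl
      exacts [rfl, hA.1.symm, (hA.1.trans hA.2).symm]
    have hc : m + 2 ≤ ((univ.filter fun v => sd v ≠ sd (σ 0)) \ {b 0, b 1}).card := by
      have h1 := side_card m (sd (σ 0))
      have h2 := le_card_sdiff ({b 0, b 1} : Finset _) (univ.filter fun v => sd v ≠ sd (σ 0))
      have h3 : ({b 0, b 1} : Finset (Fin (2 * m + 8))).card ≤ 2 := card_le_two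
      omega
    refine hc.trans (card_le_card_of_injOn (fun v => σ * swap i (σ.symm v)) (fun v hv => ?_)
      fun v _ w _ h => ?_)
    · simp only [coe_sdiff, coe_filter, mem_univ, true_and, coe_insert, coe_singleton,
        Set.mem_sdiff, Set.mem_ofPred_eq, Set.mem_insert_iff, Set.mem_singleton_iff, not_or] at hv
      simp only [mem_insert, mem_singleton, not_or] at hia
      simp only [bipartiteAbove, coe_filter, Set.mem_ofPred_eq, mem_sdiff]
      refine ⟨⟨?_, ?_⟩, i, hi, σ.symm v, by simp [mul_assoc]⟩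
      · rw [hT]
        refine mem_biUnion.2 ⟨(a, b), hab, mem_filter.2 ⟨mem_univ _, fun k => ?_⟩⟩
        have h1 : a k ≠ i := by
          fin_cases k
          exacts [fun e => hia.1 e.symm, fun e => hia.2 e.symm]
        have h2 : a k ≠ σ.symm v := by
          intro e
          have e2 : b k = v := by rw [← hfix k]; show σ (a k) = v; rw [e]; simp
          fin_cases k
          exacts [hv.2.1 e2.symm, hv.2.2 e2.symm]
        show σ (swap i (σ.symm v) (a k)) = b k
        rw [swap_apply_of_ne_of_ne h1 h2]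
        exact hfix k
      · intro hA'
        have hA2 := (mem_filter.1 hA').2
        have hsi' : ∀ k ∈ ({0, 1, 2} : Finset (Fin (2 * m + 8))),
            sd (σ (swap i (σ.symm v) k)) = sd (σ (swap i (σ.symm v) 0)) := by
          intro k hk
          simp only [mem_insert, mem_singleton] at hk
          rcases hk with rfl | rfl | rfl
          exacts [rfl, hA2.1.symm, (hA2.1.trans hA2.2).symm]
        obtain ⟨k, hk, hki⟩ : ∃ k ∈ ({0, 1, 2} : Finset (Fin (2 * m + 8))), k ≠ i := by
          apply exists_mem_ne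
          rw [card_eq_three.2 ⟨0, 1, 2, n01 m, n02 m, n12 m, rfl⟩]
          norm_num
        have hkv : k ≠ σ.symm v := by
          intro e
          apply hv.1
          rw [← hsi k hk, e]; simp
        have e1 := hsi' i hi
        have e2 := hsi' k hk
        rw [swap_apply_left, apply_symm_apply] at e1
        rw [swap_apply_of_ne_of_ne hki hkv, hsi k hk] at e2
        exact hv.1 (e1.trans e2.symm)
    · have := congrArg (fun τ : Perm _ => τ i) h
      simpa using this
  · intro τ _
    refine le_trans (card_le_card (t := (({0, 1, 2} : Finset (Fin (2 * m + 8))) ×ˢ univ).image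
      fun x => τ * swap x.1 x.2) fun σ hσ => ?_) (card_image_le.trans ?_)
    · obtain ⟨i, hi, j, e⟩ := (mem_filter.1 hσ).2
      exact mem_image.2 ⟨(i, j), mem_product.2 ⟨hi, mem_univ _⟩, e.symm⟩
    · rw [card_product, card_univ, Fintype.card_fin]
      exact Nat.mul_le_mul_right _ card_le_three

theorem AA_pos (m : ℕ) : 0 < (AA m).card := by
  refine card_pos.2 ⟨1, mem_filter.2 ⟨mem_univ _, ?_⟩⟩
  simp only [Perm.coe_one, id, sd, v1, v2]
  simp

theorem main (C₀ : ℝ) : ∃ (n : ℕ) (ε : ℝ) (A : Finset (Perm (Fin n))), 2 ≤ n ∧ 0 < ε ∧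
    E (fun σ => (ind A σ - (U n 2).starProjection (ind A) σ) ^ 2) ≤ ε * E (fun σ => ind A σ) ∧
    ∀ C : Finset (Perm (Fin n)), IsCosetUnion 2 C →
      C₀ * (ε + 1 / n) * (A.card : ℝ) < ((symmDiff A C).card : ℝ) := by
  obtain ⟨m, hm⟩ := exists_nat_gt (24 * C₀)
  refine ⟨2 * m + 8, 1 / (2 * m + 8 : ℕ), AA m, by omega, by positivity, ?_, fun C hC => ?_⟩
  · rw [Submodule.starProjection_eq_self_iff.2 (AA_mem m)]
    simp only [E, sub_self, ne_eq, OfNat.ofNat_ne_zero, not_false_eq_true, zero_pow, sum_const_zero,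
      zero_div]
    refine mul_nonneg (by positivity) (div_nonneg (sum_nonneg fun σ _ => ?_) (by positivity))
    simp only [ind]
    split_ifs <;> norm_num
  · have h1 := far m C hC
    have h2 : (symmDiff (AA m) C).card = (AA m \ C).card + (C \ AA m).card := by
      rw [symmDiff_def, sup_eq_union, card_union_of_disjoint disjoint_sdiff_sdiff]
    have h3 := card_sdiff_add_card_inter (AA m) C
    rw [inter_comm] at h3
    have h4 : (AA m).card ≤ 12 * (symmDiff (AA m) C).card := by omega
    have h5 : ((AA m).card : ℝ) ≤ 12 * (symmDiff (AA m) C).card := by exact_mod_cast h4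
    have h6 : (0 : ℝ) < (AA m).card := by exact_mod_cast AA_pos m
    have h7 : C₀ * (1 / (2 * m + 8 : ℕ) + 1 / (2 * m + 8 : ℕ)) < 1 / 12 := by
      rw [← two_mul, mul_one_div, ← mul_div_assoc, div_lt_iff₀ (by positivity)]
      push_cast
      have : (0 : ℝ) ≤ m := Nat.cast_nonneg _
      linarith
    nlinarith

end Pool.Agent.H9.Sn
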