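import Mathlib

set_option autoImplicit false

namespace Pool.Agent.H9.Sn

def coset {n t : ℕ} (a b : Fin t ↪ Fin n) : Finset (Equiv.Perm (Fin n)) :=
  Finset.univ.filter fun σ => ∀ i, σ (a i) = b i

noncomputable def ind {n : ℕ} (A : Finset (Equiv.Perm (Fin n))) :
    EuclideanSpace ℝ (Equiv.Perm (Fin n)) :=
  WithLp.toLp 2 fun σ => if σ ∈ A then (1 : ℝ) else 0

noncomputable def U (n t : ℕ) : Submodule ℝ (EuclideanSpace ℝ (Equiv.Perm (Fin n))) :=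
  Submodule.span ℝ {g | ∃ a b : Fin t ↪ Fin n, g = ind (coset a b)}

noncomputable def E {n : ℕ} (h : Equiv.Perm (Fin n) → ℝ) : ℝ := (∑ σ, h σ) / (n.factorial : ℝ)

def IsCosetUnion {n : ℕ} (t : ℕ) (C : Finset (Equiv.Perm (Fin n))) : Prop :=
  ∃ T : Finset ((Fin t ↪ Fin n) × (Fin t ↪ Fin n)), C = T.biUnion fun x => coset x.1 x.2

end Pool.Agent.H9.Sn
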