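import Mathlib

set_option autoImplicit false

namespace Pool.Agent.H9.Sym
open scoped Classical

/-- greedy markers: `t` is a marker when no marker with a smaller label lies within `K` -/
def Mk (K : ℕ) (f : ℤ → ℕ) (t : ℤ) : Prop :=
  ∀ s, |s - t| ≤ K → (_h : f s < f t) → ¬ Mk K f s
termination_by f t

theorem mk_iff (K : ℕ) (f : ℤ → ℕ) (t : ℤ) :
    Mk K f t ↔ ∀ s, |s - t| ≤ K → f s < f t → ¬ Mk K f s := by
  rw [Mk]

theorem dense (K : ℕ) (f : ℤ → ℕ) (t : ℤ) : ∃ s, |s - t| ≤ K ∧ Mk K f s := by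
  by_cases h : Mk K f t
  · exact ⟨t, by simp, h⟩
  · rw [mk_iff] at h
    push Not at h
    obtain ⟨s, a, _, b⟩ := h
    exact ⟨s, a, b⟩

theorem mk_eq {K : ℕ} {f : ℤ → ℕ} {s t : ℤ} (hs : Mk K f s) (ht : Mk K f t) (h : |s - t| ≤ K) :
    f s = f t := by
  rcases lt_trichotomy (f s) (f t) with k | k | k
  · exact absurd hs ((mk_iff K f t).1 ht s h k)
  · exact k
  · exact absurd ht ((mk_iff K f s).1 hs t (by rwa [abs_sub_comm]) k)

theorem transport (K : ℕ) (f f' : ℤ → ℕ) (c B : ℤ) (h : ∀ t, |t| ≤ B → f' t = f (c - t)) :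
    ∀ (n : ℕ) (t : ℤ), f' t < n → |t| + K * n ≤ B → (Mk K f' t ↔ Mk K f (c - t)) := by
  intro n
  induction n with
  | zero => intro t h; simp at h
  | succ n ih =>
    intro t h1 h2
    have hK : (0 : ℤ) ≤ K * n := by positivity
    have key : ∀ s, |s - t| ≤ K → |s| + K * n ≤ B := by
      intro s hs
      have : |s| ≤ |s - t| + |t| := by simpa using abs_add_le (s - t) t
      push_cast at h2
      linarith
    have ht : f' t = f (c - t) := h t (by push_cast at h2; nlinarith [Int.natCast_nonneg K])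
    rw [mk_iff, mk_iff]
    constructor
    · intro H s hs hl
      have e : |c - s - t| ≤ K := by
        rw [show c - s - t = -(s - (c - t)) by ring, abs_neg]; exact hs
      have k := key _ e
      have e2 : f' (c - s) = f s := by rw [h _ (by linarith)]; simp
      have := H (c - s) e (by rw [e2, ht]; exact hl)
      rw [ih _ (by omega) k] at this
      simpa using this
    · intro H s hs hl
      have k := key _ hs
      have e2 : f' s = f (c - s) := h _ (by linarith)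
      rw [ih _ (by omega) k]
      refine H _ ?_ (by rw [← e2, ← ht]; exact hl)
      rw [show c - s - (c - t) = -(s - t) by ring, abs_neg]; exact hs

def Cp (K : ℕ) (f : ℤ → ℕ) (b s : ℤ) : Prop :=
  ∀ u, (b ≤ u ∧ u ≤ s ∨ s ≤ u ∧ u ≤ b) → ¬ Mk K f u

theorem cp_le {K : ℕ} {f : ℤ → ℕ} {s : ℤ} (h : Cp K f 0 s) : |s| ≤ 2 * K := by
  by_contra hc
  rcases lt_abs.1 (not_le.1 hc) with k | k
  · obtain ⟨u, a, b⟩ := dense K f K
    rw [abs_le] at a
    exact h u (by omega) b
  · obtain ⟨u, a, b⟩ := dense K f (-K)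
    rw [abs_le] at a
    exact h u (by omega) b

def tA (R : ℕ) (f : ℤ → ℕ) : Prop := ∃ s : ℤ, |s| ≤ R ∧ Mk (3 * R) f s

def sA (R : ℕ) (f : ℤ → ℕ) (o : ℤ → Prop) : Prop := ∃ s : ℤ, |s| ≤ R ∧ Mk (3 * R) f s ∧ o s

def sB (R : ℕ) (f : ℤ → ℕ) (o : ℤ → Prop) : Prop :=
  ∃ s, Cp (3 * R) f 0 s ∧ (∀ s', Cp (3 * R) f 0 s' → f s ≤ f s') ∧ o s

noncomputable def col (R : ℕ) (f : ℤ → ℕ) (o : ℤ → Prop) : Bool × Bool :=
  (decide (tA R f), decide (tA R f ∧ sA R f o ∨ ¬ tA R f ∧ sB R f o))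

theorem col_ne (R N : ℕ) (f f' : ℤ → ℕ) (o o' : ℤ → Prop) (c : ℤ) (hc : |c| ≤ R)
    (hN : ∀ t, f' t < N)
    (h1 : ∀ t : ℤ, |t| ≤ 7 * R + 3 * R * N → f' t = f (c - t))
    (h2 : ∀ t : ℤ, |t| ≤ 7 * R → (o' t ↔ ¬ o (c - t)))
    (h3 : ∀ s t : ℤ, |s| ≤ 6 * R → |t| ≤ 6 * R → f s = f t → (o s ↔ o t)) :
    col R f o ≠ col R f' o' := by
  intro e
  have T : ∀ t : ℤ, |t| ≤ 7 * R → (Mk (3 * R) f' t ↔ Mk (3 * R) f (c - t)) := fun t ht =>
    transport (3 * R) f f' c _ h1 N t (hN t) (by push_cast; linarith)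
  have hRN : (0 : ℤ) ≤ 3 * R * N := by positivity
  have h1' : ∀ t : ℤ, |t| ≤ 7 * R → f' t = f (c - t) := fun t ht => h1 t (by linarith)
  simp only [col, Prod.mk.injEq, decide_eq_decide] at e
  obtain ⟨e1, e2⟩ := e
  rw [abs_le] at hc
  by_cases a : tA R f
  · have a' := e1.1 a
    simp only [a, a', true_and, not_true, false_and, or_false] at e2
    have same : ∀ s t : ℤ, |s| ≤ R → Mk (3 * R) f s → |t| ≤ R → Mk (3 * R) f' t →
        (o s ↔ ¬ o' t) := by
      intro s t k1 k2 k3 k4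
      rw [abs_le] at k1 k3
      rw [h2 t (by rw [abs_le]; omega), not_not]
      rw [T t (by rw [abs_le]; omega)] at k4
      exact h3 _ _ (by rw [abs_le]; omega) (by rw [abs_le]; omega)
        (mk_eq k2 k4 (by rw [abs_le]; omega))
    obtain ⟨s, s1, s2⟩ := a
    obtain ⟨t, t1, t2⟩ := a'
    by_cases k : o s
    · obtain ⟨t', b1, b2, b3⟩ := e2.1 ⟨s, s1, s2, k⟩
      exact (same s t' s1 s2 b1 b2).1 k b3
    · have k' : o' t := by by_contra k'; exact k ((same s t s1 s2 t1 t2).2 k')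
      obtain ⟨s', b1, b2, b3⟩ := e2.2 ⟨t, t1, t2, k'⟩
      exact (same s' t b1 b2 t1 t2).1 b3 k'
  · have a' : ¬ tA R f' := fun h => a (e1.2 h)
    simp only [a, a', true_and, not_false_iff, false_and, false_or] at e2
    have n1 : ∀ u : ℤ, |u| ≤ R → ¬ Mk (3 * R) f u := fun u h k => a ⟨u, h, k⟩
    have n2 : ∀ u : ℤ, |u| ≤ R → ¬ Mk (3 * R) f' u := fun u h k => a' ⟨u, h, k⟩
    have c1 : ∀ s, Cp (3 * R) f 0 s → Cp (3 * R) f' 0 (c - s) := by
      intro s hs u hu
      have b := cp_le hs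
      rw [abs_le] at b
      push_cast at b
      by_cases k : |u| ≤ R
      · exact n2 u k
      · rw [T u (by rw [abs_le]; omega)]
        rw [abs_le] at k
        exact hs _ (by omega)
    have c2 : ∀ s, Cp (3 * R) f' 0 s → Cp (3 * R) f 0 (c - s) := by
      intro s hs u hu
      have b := cp_le hs
      rw [abs_le] at b
      push_cast at b
      by_cases k : |u| ≤ R
      · exact n1 u k
      · have := T (c - u) (by rw [abs_le]; omega)
        rw [sub_sub_cancel] at this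
        rw [← this]
        rw [abs_le] at k
        exact hs _ (by omega)
    have bd : ∀ (g : ℤ → ℕ) (s : ℤ), Cp (3 * R) g 0 s → |s| ≤ 6 * R := fun g s hs => by
      have := cp_le hs; push_cast at this; linarith
    have bd7 : ∀ (g : ℤ → ℕ) (s : ℤ), Cp (3 * R) g 0 s → |s| ≤ 7 * R := fun g s hs => by
      have := bd g s hs; linarith [Int.natCast_nonneg R]
    have z : Cp (3 * R) f 0 0 := fun u hu => n1 u (by rw [abs_le]; omega)
    obtain ⟨m, hm, hm'⟩ := WellFounded.has_min (InvImage.wf f wellFounded_lt)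
      {s | Cp (3 * R) f 0 s} ⟨0, z⟩
    have hmin : ∀ s', Cp (3 * R) f 0 s' → f m ≤ f s' := fun s h => not_lt.1 (hm' s h)
    have fm : f' (c - m) = f m := by rw [h1' _ (bd7 _ _ (c1 m hm)), sub_sub_cancel]
    have hmin' : ∀ s', Cp (3 * R) f' 0 s' → f' (c - m) ≤ f' s' := by
      intro s h
      rw [fm, h1' _ (bd7 _ _ h)]
      exact hmin _ (c2 s h)
    by_cases k : o m
    · obtain ⟨t, b1, b2, b3⟩ := e2.1 ⟨m, hm, hmin, k⟩
      rw [h2 t (bd7 _ _ b1)] at b3
      refine b3 ((h3 _ _ (bd _ _ hm) (bd _ _ (c2 t b1)) ?_).1 k)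
      have q1 := b2 _ (c1 m hm)
      have q2 := hmin _ (c2 t b1)
      rw [h1' _ (bd7 _ _ b1)] at q1
      omega
    · obtain ⟨t, b1, b2, b3⟩ := e2.2 ⟨c - m, c1 m hm, hmin', by
        rw [h2 _ (bd7 _ _ (c1 m hm)), sub_sub_cancel]; exact k⟩
      exact k ((h3 _ _ (bd _ _ hm) (bd _ _ b1) (le_antisymm (hmin _ b1) (b2 _ hm))).2 b3)

abbrev Lt := Fin 2 × Bool

def iv (a : Lt) : Lt := (a.1, !a.2)

theorem iv_iv (a : Lt) : iv (iv a) = a := by simp [iv]

theorem iv_ne (a : Lt) : a ≠ iv a := by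
  obtain ⟨a, b⟩ := a
  cases b <;> simp [iv]

def win (W : ℕ) (ω : ℤ → Lt) (t : ℤ) : Fin (2 * W + 1) → Lt := fun j => ω (t - W + (j : ℕ))

def flp {W : ℕ} (f : Fin (2 * W + 1) → Lt) : Fin (2 * W + 1) → Lt := fun j => iv (f j.rev)

theorem flp_flp {W : ℕ} (f : Fin (2 * W + 1) → Lt) : flp (flp f) = f := by
  funext j; simp [flp, iv_iv]

theorem flp_ne {W : ℕ} (f : Fin (2 * W + 1) → Lt) : f ≠ flp f := by
  intro h
  have := congrFun h ⟨W, by omega⟩
  have e : (⟨W, by omega⟩ : Fin (2 * W + 1)).rev = ⟨W, by omega⟩ := by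
    ext; simp [Fin.rev]; omega
  rw [flp, e] at this
  exact iv_ne _ this

noncomputable def code {W : ℕ} (f : Fin (2 * W + 1) → Lt) : ℕ := Fintype.equivFin _ f

theorem code_inj {W : ℕ} {f g : Fin (2 * W + 1) → Lt} (h : code f = code g) : f = g :=
  (Fintype.equivFin _).injective (Fin.ext h)

noncomputable def idn (W : ℕ) (ω : ℤ → Lt) (t : ℤ) : ℕ :=
  min (code (win W ω t)) (code (flp (win W ω t)))

def ori (W : ℕ) (ω : ℤ → Lt) (t : ℤ) : Prop := code (win W ω t) < code (flp (win W ω t))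

theorem one_dim (R : ℕ) : ∃ (D : ℕ) (F : (ℤ → Lt) → Bool × Bool), ∀ (ω ω' : ℤ → Lt) (c : ℤ),
    |c| ≤ R → (∀ i : ℤ, |i| ≤ D → ω (i + 1) ≠ iv (ω i)) → (∀ i : ℤ, |i| ≤ D → ω' i = iv (ω (c - i))) →
    F ω ≠ F ω' := by
  let W := 12 * R + 1
  let N := Fintype.card (Fin (2 * W + 1) → Lt)
  refine ⟨7 * R + 3 * R * N + W, fun ω => col R (idn W ω) (ori W ω), ?_⟩
  intro ω ω' c hc h1 h2
  have hRN : (0 : ℤ) ≤ 3 * R * N := by positivity
  have hw : ∀ t : ℤ, |t| ≤ 7 * R + 3 * R * N → win W ω' t = flp (win W ω (c - t)) := by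
    intro t ht
    funext j
    have hj := j.2
    rw [abs_le] at ht
    rw [win, h2 _ (by rw [abs_le]; push_cast; constructor <;> omega), flp, win]
    congr 2
    simp only [Fin.val_rev]
    omega
  refine col_ne R N _ _ _ _ c hc (fun t => lt_of_le_of_lt (min_le_left _ _) (Fin.is_lt _))
    (fun t ht => ?_) (fun t ht => ?_) (fun s t hs ht e => ?_)
  · rw [idn, idn, hw t ht, flp_flp, min_comm]
  · rw [ori, ori, hw t (by linarith), flp_flp]
    have := flp_ne (win W ω (c - t))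
    have : code (win W ω (c - t)) ≠ code (flp (win W ω (c - t))) := fun h => this (code_inj h)
    omega
  · have key : win W ω s ≠ flp (win W ω t) := by
      intro k
      rw [abs_le] at hs ht
      rcases Int.even_or_odd' (t - s) with ⟨d, hd | hd⟩
      · have := congrFun k ⟨(W + d).toNat, by omega⟩
        simp only [win, flp, Fin.val_rev] at this
        rw [show s - W + ((W + d).toNat : ℕ) = s + d by omega,
          show t - W + ((2 * W + 1 - ((W + d).toNat + 1) : ℕ) : ℤ) = s + d by omega] at this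
        exact iv_ne _ this
      · have := congrFun k ⟨(W + d + 1).toNat, by omega⟩
        simp only [win, flp, Fin.val_rev] at this
        rw [show s - W + ((W + d + 1).toNat : ℕ) = s + d + 1 by omega,
          show t - W + ((2 * W + 1 - ((W + d + 1).toNat + 1) : ℕ) : ℤ) = s + d by omega] at this
        exact h1 _ (by rw [abs_le]; push_cast; constructor <;> omega) this
    have : win W ω s = win W ω t := by
      unfold idn at e
      rcases min_choice (code (win W ω s)) (code (flp (win W ω s))) with a | a <;>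
        rcases min_choice (code (win W ω t)) (code (flp (win W ω t))) with b | b <;>
        rw [a, b] at e
      · exact code_inj e
      · exact absurd (code_inj e) key
      · exact absurd (by rw [← code_inj e, flp_flp]) key
      · rw [← flp_flp (win W ω s), code_inj e, flp_flp]
    rw [ori, ori, this]

end Pool.Agent.H9.Sym
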