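import Mathlib
import Pool.Agent.H9.Sym1

set_option autoImplicit false

namespace Pool.Agent.H9.Sym
open FreeGroup

theorem red_app (w : List Lt) (hw : reduce w = w) : ∀ u : List Lt, ∃ (P : List Lt) (k : ℕ),
    P.length + k ≤ u.length ∧ reduce (u ++ w) = P ++ w.drop k
  | [] => ⟨[], 0, by simp, by simpa using hw⟩
  | a :: u => by
    obtain ⟨P, k, h1, h2⟩ := red_app w hw u
    rw [List.cons_append, reduce.cons, h2]
    cases P with
    | nil =>
      cases h : w.drop k with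
      | nil => exact ⟨[a], k, by simp at h1 ⊢; omega, by simp [h]⟩
      | cons b t =>
        simp only [List.nil_append]
        split_ifs
        · refine ⟨[], k + 1, by simp at h1 ⊢; omega, ?_⟩
          rw [← List.tail_drop, h]; rfl
        · exact ⟨[a], k, by simp at h1 ⊢; omega, by simp [h]⟩
    | cons b t =>
      simp only [List.cons_append]
      split_ifs
      · exact ⟨t, k, by simp at h1 ⊢; omega, rfl⟩
      · exact ⟨a :: b :: t, k, by simp at h1 ⊢; omega, rfl⟩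

abbrev G := FreeGroup (Fin 2)

def len (x : G) : ℕ := x.toWord.length

def lt (x : G) (i : ℕ) : Lt := x.toWord.getD i (0, true)

theorem left (u z : G) : ∃ p k : ℕ, p + k ≤ len u ∧ len (u * z) = p + (len z - k) ∧
    ∀ i, lt (u * z) (p + i) = lt z (k + i) := by
  obtain ⟨P, k, h1, h2⟩ := red_app z.toWord (reduce_toWord z) u.toWord
  refine ⟨P.length, k, h1, by simp [len, toWord_mul, h2], fun i => ?_⟩
  simp [lt, toWord_mul, h2, List.getElem?_append_right]

theorem len_inv (x : G) : len x⁻¹ = len x := by simp [len]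

theorem lt_inv (x : G) {i : ℕ} (h : i < len x) : lt x⁻¹ i = iv (lt x (len x - 1 - i)) := by
  unfold len at h
  have h2 : x.toWord.length - 1 - i < x.toWord.length := by omega
  simp only [lt, len, toWord_inv, invRev, List.getD_eq_getElem?_getD]
  rw [List.getElem?_reverse (by simpa using h)]
  simp [List.getElem?_eq_getElem h2, iv]

theorem lt_red (x : G) {i : ℕ} (h : i + 1 < len x) : lt x (i + 1) ≠ iv (lt x i) := by
  have r : IsReduced x.toWord := isReduced_toWord
  unfold len at h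
  have := List.isChain_iff_getElem.1 r i h
  simp only [lt, List.getD_eq_getElem?_getD, List.getElem?_eq_getElem h,
    List.getElem?_eq_getElem (show i < x.toWord.length by omega), Option.getD_some]
  intro e
  rw [e] at this
  simp [iv] at this

def om (x : G) (i : ℤ) : Lt := lt x (i + (len x / 2 : ℕ)).toNat

theorem refl (g x : G) (D : ℕ) (h : 2 * D + 8 * len g + 8 ≤ len x) :
    len (g * x⁻¹ * g) ≤ len x + 2 * len g ∧ len x ≤ len (g * x⁻¹ * g) + 2 * len g ∧
    (∀ i : ℤ, |i| ≤ D → om x (i + 1) ≠ iv (om x i)) ∧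
    ∃ c : ℤ, |c| ≤ (2 * len g + 2 : ℕ) ∧
      ∀ i : ℤ, |i| ≤ D → om (g * x⁻¹ * g) i = iv (om x (c - i)) := by
  have e : g * x⁻¹ * g = g * (g⁻¹ * x)⁻¹ := by group
  obtain ⟨p1, k1, a1, a2, a3⟩ := left g⁻¹ x
  obtain ⟨p2, k2, b1, b2, b3⟩ := left g (g⁻¹ * x)⁻¹
  rw [len_inv] at a1 b2
  rw [← e] at b2 b3
  refine ⟨by omega, by omega, fun i hi => ?_,
    (len x : ℤ) - 1 - (len (g * x⁻¹ * g) / 2 : ℕ) + p2 - k2 - (len x / 2 : ℕ),
    by rw [abs_le]; omega, fun i hi => ?_⟩
  · rw [abs_le] at hi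
    rw [om, om, show (i + 1 + (len x / 2 : ℕ)).toNat = (i + (len x / 2 : ℕ)).toNat + 1 by omega]
    exact lt_red x (by omega)
  · rw [abs_le] at hi
    obtain ⟨m, hm⟩ : ∃ m : ℕ, (i + (len (g * x⁻¹ * g) / 2 : ℕ)).toNat = p2 + m :=
      ⟨(i + (len (g * x⁻¹ * g) / 2 : ℕ)).toNat - p2, by omega⟩
    obtain ⟨j, hj⟩ : ∃ j : ℕ, len (g⁻¹ * x) - 1 - (k2 + m) = p1 + j :=
      ⟨len (g⁻¹ * x) - 1 - (k2 + m) - p1, by omega⟩
    rw [om, om, hm, b3, lt_inv _ (by omega), hj, a3]
    congr 2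
    omega

def th (E : ℕ → ℕ) : ℕ → ℕ
  | 0 => 0
  | k + 1 => th E k + E (k + 1) + k + 1

theorem th_mono (E : ℕ → ℕ) : StrictMono (th E) :=
  strictMono_nat_of_lt_succ fun k => by simp only [th]; omega

theorem ex_lev (E : ℕ → ℕ) (n : ℕ) : ∃ k, th E k ≤ n ∧ n < th E (k + 1) := by
  induction n with
  | zero => exact ⟨0, le_rfl, by simp [th]⟩
  | succ n ih =>
    obtain ⟨k, a, b⟩ := ih
    by_cases h : n + 1 < th E (k + 1)
    · exact ⟨k, by omega, h⟩
    · have := th_mono E (show k + 1 < k + 1 + 1 by omega)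
      exact ⟨k + 1, by omega, by omega⟩

theorem main : ∃ c : G → Bool × Bool × Bool, ∀ g : G, ∃ M, ∀ x, M ≤ len x →
    c x ≠ c (g * x⁻¹ * g) := by
  choose D F hF using one_dim
  choose lev l1 l2 using ex_lev (fun k => 2 * D k + 4 * k)
  refine ⟨fun x => (decide (lev (len x) % 2 = 0), F (lev (len x)) (om x)), fun g =>
    ⟨th (fun k => 2 * D k + 4 * k) (2 * len g + 4), fun x hx e => ?_⟩⟩
  simp only [Prod.mk.injEq, decide_eq_decide] at e
  obtain ⟨e1, e2⟩ := e
  have mono := th_mono (fun k => 2 * D k + 4 * k)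
  have a1 := l1 (len x)
  have a2 := l2 (len x)
  have b1 := l1 (len (g * x⁻¹ * g))
  have b2 := l2 (len (g * x⁻¹ * g))
  have k1 : 2 * len g + 4 < lev (len x) + 1 := mono.lt_iff_lt.1 (by omega)
  obtain ⟨k, hk⟩ : ∃ k, lev (len x) = k + 2 := ⟨lev (len x) - 2, by omega⟩
  rw [hk] at a1 a2 e1 e2 k1
  obtain ⟨r1, r2, r3, c, r4, r5⟩ := refl g x (D (k + 2)) (by
    have : th (fun k => 2 * D k + 4 * k) (k + 2) =
      th (fun k => 2 * D k + 4 * k) (k + 1) + (2 * D (k + 2) + 4 * (k + 2)) + (k + 1) + 1 := rfl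
    omega)
  have k2 : lev (len (g * x⁻¹ * g)) < k + 4 := mono.lt_iff_lt.1 (by
    have : th (fun k => 2 * D k + 4 * k) (k + 4) =
      th (fun k => 2 * D k + 4 * k) (k + 2 + 1) + (2 * D (k + 4) + 4 * (k + 4)) + (k + 3) + 1 := rfl
    omega)
  have k3 : k + 1 < lev (len (g * x⁻¹ * g)) + 1 := mono.lt_iff_lt.1 (by
    have : th (fun k => 2 * D k + 4 * k) (k + 2) =
      th (fun k => 2 * D k + 4 * k) (k + 1) + (2 * D (k + 2) + 4 * (k + 2)) + (k + 1) + 1 := rfl
    omega)
  have k4 : lev (len (g * x⁻¹ * g)) = k + 2 := by omega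
  rw [k4] at e2
  exact hF (k + 2) _ _ c (r4.trans (by push_cast; omega)) r3 r5 e2

theorem fin_len (M : ℕ) : {x : G | len x < M}.Finite :=
  (List.finite_length_lt Lt M).preimage toWord_injective.injOn

end Pool.Agent.H9.Sym
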