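import Mathlib

set_option autoImplicit false

namespace Pool.Agent.H9.Torus

def sepF (a b px py dx dy qx qy ex ey : ℤ) : Bool :=
  decide (a * px + b * py ≤ a * qx + b * qy) &&
  decide (a * px + b * py ≤ a * (qx + ex) + b * (qy + ey)) &&
  decide (a * (px + dx) + b * (py + dy) ≤ a * qx + b * qy) &&
  decide (a * (px + dx) + b * (py + dy) ≤ a * (qx + ex) + b * (qy + ey)) &&
  decide (a * px + b * py + (a * (px + dx) + b * (py + dy)) <
    a * qx + b * qy + (a * (qx + ex) + b * (qy + ey)))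

theorem sep_aux (A0 A1 B0 B1 s t : ℝ) (h1 : A0 ≤ B0) (h2 : A0 ≤ B1) (h3 : A1 ≤ B0) (h4 : A1 ≤ B1)
    (h5 : A0 + A1 < B0 + B1) (s0 : 0 < s) (s1 : s < 1) (t0 : 0 < t) (t1 : t < 1) :
    (1 - s) * A0 + s * A1 < (1 - t) * B0 + t * B1 := by
  have e : (1 - t) * B0 + t * B1 - ((1 - s) * A0 + s * A1) =
      (1 - s) * (1 - t) * (B0 - A0) + (1 - s) * t * (B1 - A0) + s * (1 - t) * (B0 - A1) +
        s * t * (B1 - A1) := by ring
  have s2 : 0 < 1 - s := by linarith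
  have t2 : 0 < 1 - t := by linarith
  have a1 : 0 ≤ (1 - s) * (1 - t) * (B0 - A0) := mul_nonneg (by positivity) (by linarith)
  have a2 : 0 ≤ (1 - s) * t * (B1 - A0) := mul_nonneg (by positivity) (by linarith)
  have a3 : 0 ≤ s * (1 - t) * (B0 - A1) := mul_nonneg (by positivity) (by linarith)
  have a4 : 0 ≤ s * t * (B1 - A1) := mul_nonneg (by positivity) (by linarith)
  rcases h1.lt_or_eq with h | h
  · have : 0 < (1 - s) * (1 - t) * (B0 - A0) := mul_pos (by positivity) (by linarith)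
    linarith
  · have : 0 < s * t * (B1 - A1) := mul_pos (by positivity) (by linarith)
    linarith

theorem sepF_sound {a b px py dx dy qx qy ex ey : ℤ} (h : sepF a b px py dx dy qx qy ex ey = true)
    {s t : ℝ} (s0 : 0 < s) (s1 : s < 1) (t0 : 0 < t) (t1 : t < 1)
    (hx : (px : ℝ) + s * dx = qx + t * ex) (hy : (py : ℝ) + s * dy = qy + t * ey) : False := by
  simp only [sepF, Bool.and_eq_true, decide_eq_true_eq] at h
  obtain ⟨⟨⟨⟨h1, h2⟩, h3⟩, h4⟩, h5⟩ := h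
  have := sep_aux ((a * px + b * py : ℤ) : ℝ) ((a * (px + dx) + b * (py + dy) : ℤ) : ℝ)
    ((a * qx + b * qy : ℤ) : ℝ) ((a * (qx + ex) + b * (qy + ey) : ℤ) : ℝ) s t
    (by exact_mod_cast h1) (by exact_mod_cast h2) (by exact_mod_cast h3) (by exact_mod_cast h4)
    (by exact_mod_cast h5) s0 s1 t0 t1
  push_cast at this
  have e1 : (1 - s) * ((a : ℝ) * px + b * py) + s * (a * (px + dx) + b * (py + dy)) =
    a * (px + s * dx) + b * (py + s * dy) := by ring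
  have e2 : (1 - t) * ((a : ℝ) * qx + b * qy) + t * (a * (qx + ex) + b * (qy + ey)) =
    a * (qx + t * ex) + b * (qy + t * ey) := by ring
  rw [e1, e2, hx, hy] at this
  exact lt_irrefl _ this

def sep (px py dx dy qx qy ex ey : ℤ) : Bool :=
  sepF 1 0 px py dx dy qx qy ex ey || sepF (-1) 0 px py dx dy qx qy ex ey ||
  sepF 0 1 px py dx dy qx qy ex ey || sepF 0 (-1) px py dx dy qx qy ex ey ||
  sepF dy (-dx) px py dx dy qx qy ex ey || sepF (-dy) dx px py dx dy qx qy ex ey ||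
  sepF ey (-ex) px py dx dy qx qy ex ey || sepF (-ey) ex px py dx dy qx qy ex ey ||
  sepF dx dy px py dx dy qx qy ex ey || sepF (-dx) (-dy) px py dx dy qx qy ex ey

theorem sep_sound {px py dx dy qx qy ex ey : ℤ} (h : sep px py dx dy qx qy ex ey = true)
    {s t : ℝ} (s0 : 0 < s) (s1 : s < 1) (t0 : 0 < t) (t1 : t < 1)
    (hx : (px : ℝ) + s * dx = qx + t * ex) (hy : (py : ℝ) + s * dy = qy + t * ey) : False := by
  simp only [sep, Bool.or_eq_true] at h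
  rcases h with ((((((((h | h) | h) | h) | h) | h) | h) | h) | h) | h <;>
    exact sepF_sound h s0 s1 t0 t1 hx hy

noncomputable def pt (x y : ℝ) : AddCircle (1:ℝ) × AddCircle (1:ℝ) :=
  (((x / 4 : ℝ) : AddCircle (1:ℝ)), ((y / 4 : ℝ) : AddCircle (1:ℝ)))

theorem coe_eq (x y : ℝ) : ((x / 4 : ℝ) : AddCircle (1:ℝ)) = ((y / 4 : ℝ) : AddCircle (1:ℝ)) ↔
    ∃ m : ℤ, x = y + 4 * m := by
  rw [QuotientAddGroup.eq_iff_sub_mem, AddSubgroup.mem_zmultiples_iff]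
  constructor
  · rintro ⟨m, hm⟩
    refine ⟨m, ?_⟩
    simp only [zsmul_eq_mul, mul_one] at hm
    linarith
  · rintro ⟨m, hm⟩
    refine ⟨m, ?_⟩
    simp only [zsmul_eq_mul, mul_one]
    linarith

theorem pt_eq (x y x' y' : ℝ) : pt x y = pt x' y' ↔
    (∃ m : ℤ, x = x' + 4 * m) ∧ ∃ m : ℤ, y = y' + 4 * m := by
  unfold pt
  rw [Prod.mk.injEq, coe_eq, coe_eq]

noncomputable def seg (px py dx dy : ℤ) : C(unitInterval, AddCircle (1:ℝ) × AddCircle (1:ℝ)) :=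
  ⟨fun t => pt (px + t * dx) (py + t * dy), by
    unfold pt
    refine Continuous.prodMk ?_ ?_ <;> exact (AddCircle.continuous_mk' 1).comp (by fun_prop)⟩

theorem seg_apply (px py dx dy : ℤ) (t : unitInterval) :
    seg px py dx dy t = pt (px + t * dx) (py + t * dy) := rfl

theorem bound {p q d e m : ℤ} {s t : ℝ} (hp : 0 ≤ p ∧ p ≤ 3) (hq : 0 ≤ q ∧ q ≤ 3)
    (hd : -2 ≤ d ∧ d ≤ 2) (he : -2 ≤ e ∧ e ≤ 2) (s0 : 0 ≤ s) (s1 : s ≤ 1) (t0 : 0 ≤ t) (t1 : t ≤ 1)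
    (h : (p : ℝ) + s * d = q + t * e + 4 * m) : m ∈ [(-1 : ℤ), 0, 1] := by
  have hp1 : (0 : ℝ) ≤ p := by exact_mod_cast hp.1
  have hp2 : (p : ℝ) ≤ 3 := by exact_mod_cast hp.2
  have hq1 : (0 : ℝ) ≤ q := by exact_mod_cast hq.1
  have hq2 : (q : ℝ) ≤ 3 := by exact_mod_cast hq.2
  have hd1 : (-2 : ℝ) ≤ d := by exact_mod_cast hd.1
  have hd2 : (d : ℝ) ≤ 2 := by exact_mod_cast hd.2
  have he1 : (-2 : ℝ) ≤ e := by exact_mod_cast he.1
  have he2 : (e : ℝ) ≤ 2 := by exact_mod_cast he.2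
  have a1 : -2 ≤ s * d := by nlinarith
  have a2 : s * d ≤ 2 := by nlinarith
  have a3 : -2 ≤ t * e := by nlinarith
  have a4 : t * e ≤ 2 := by nlinarith
  have b1 : (m : ℝ) < 2 := by linarith
  have b2 : (-2 : ℝ) < m := by linarith
  have b1' : m < 2 := by exact_mod_cast b1
  have b2' : -2 < m := by exact_mod_cast b2
  simp only [List.mem_cons, List.not_mem_nil, or_false]
  omega

theorem inj1 {d m : ℤ} {s t : ℝ} (hd : -2 ≤ d ∧ d ≤ 2) (h0 : d ≠ 0) (s0 : 0 ≤ s) (s1 : s ≤ 1)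
    (t0 : 0 ≤ t) (t1 : t ≤ 1) (p : ℝ) (h : p + s * d = p + t * d + 4 * m) : s = t := by
  have hd1 : (-2 : ℝ) ≤ d := by exact_mod_cast hd.1
  have hd2 : (d : ℝ) ≤ 2 := by exact_mod_cast hd.2
  have b1 : (m : ℝ) < 1 := by nlinarith
  have b2 : (-1 : ℝ) < m := by nlinarith
  have b1' : m < 1 := by exact_mod_cast b1
  have b2' : -1 < m := by exact_mod_cast b2
  obtain rfl : m = 0 := by omega
  have : (s - t) * d = 0 := by push_cast at h; linarith
  rcases mul_eq_zero.1 this with h | h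
  · linarith
  · exact absurd (by exact_mod_cast h) h0

def px : Fin 10 → ℤ := ![1, 3, 1, 3, 0, 2, 0, 1, 2, 2]
def py : Fin 10 → ℤ := ![3, 2, 0, 3, 1, 0, 3, 2, 1, 2]
def dx : Fin 10 → Fin 10 → ℤ :=
  ![![0, -2, 0, 0, -1, 1, -1, 0, 0, 0],
    ![2, 0, 0, 0, 1, 0, 1, 0, -1, -1],
    ![0, 0, 0, 0, -1, 1, -1, 0, 1, 1],
    ![0, 0, 0, 0, 1, -1, 1, -2, 0, -1],
    ![1, -1, 1, -1, 0, -2, 0, 1, -2, 2],
    ![-1, 0, -1, 1, 2, 0, 0, -1, 0, 0],
    ![1, -1, 1, -1, 0, 0, 0, 0, 0, 0],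
    ![0, 0, 0, 2, -1, 1, 0, 0, 0, 1],
    ![0, 1, -1, 0, 2, 0, 0, 0, 0, 0],
    ![0, 1, -1, 1, -2, 0, 0, -1, 0, 0]]
def dy : Fin 10 → Fin 10 → ℤ :=
  ![![0, -1, 1, 0, -2, 1, 0, -1, 0, 0],
    ![1, 0, 0, 1, -1, 0, 1, 0, -1, 0],
    ![-1, 0, 0, 0, 1, 0, -1, 0, 1, 2],
    ![0, -1, 0, 0, 2, 1, 0, -1, 0, -1],
    ![2, 1, -1, -2, 0, -1, -2, 1, 0, 1],
    ![-1, 0, 0, -1, 1, 0, 0, -2, 1, 0],
    ![0, -1, 1, 0, 2, 0, 0, 0, 0, 0],
    ![1, 0, 0, 1, -1, 2, 0, 0, 0, 0],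
    ![0, 1, -1, 0, 0, -1, 0, 0, 0, 1],
    ![0, 0, -2, 1, -1, 0, 0, 0, -1, 0]]

def G : SimpleGraph (Fin 10) where
  Adj u v := dx u v ≠ 0 ∨ dy u v ≠ 0
  symm := ⟨by decide +kernel⟩
  loopless := ⟨by decide +kernel⟩

instance : DecidableRel G.Adj := fun u v => inferInstanceAs (Decidable (dx u v ≠ 0 ∨ dy u v ≠ 0))

theorem C1 : ∀ u, (0 ≤ px u ∧ px u ≤ 3) ∧ (0 ≤ py u ∧ py u ≤ 3) := by decide +kernel
theorem C1' : ∀ u v, (-2 ≤ dx u v ∧ dx u v ≤ 2) ∧ (-2 ≤ dy u v ∧ dy u v ≤ 2) := by decide +kernel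
theorem C2 : ∀ u v, px u = px v → py u = py v → u = v := by decide +kernel
theorem C3 : ∀ u v, G.Adj u v → 4 ∣ px u + dx u v - px v ∧ 4 ∣ py u + dy u v - py v := by
  decide +kernel
theorem C4 : ∀ u v, G.Adj u v → ∀ w, ∀ m ∈ [(-1 : ℤ), 0, 1], ∀ k ∈ [(-1 : ℤ), 0, 1],
    sep (px u) (py u) (dx u v) (dy u v) (px w + 4 * m) (py w + 4 * k) 0 0 = true := by
  decide +kernel
theorem C5 : ∀ u v, G.Adj u v → ∀ u' v', G.Adj u' v' →
    ¬ ((u = u' ∧ v = v') ∨ (u = v' ∧ v = u')) → ∀ m ∈ [(-1 : ℤ), 0, 1], ∀ k ∈ [(-1 : ℤ), 0, 1],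
    sep (px u) (py u) (dx u v) (dy u v) (px u' + 4 * m) (py u' + 4 * k) (dx u' v') (dy u' v')
      = true := by
  decide +kernel

theorem emb : ∃ (p : Fin 10 → AddCircle (1:ℝ) × AddCircle (1:ℝ))
    (γ : Fin 10 → Fin 10 → C(unitInterval, AddCircle (1:ℝ) × AddCircle (1:ℝ))),
    Function.Injective p ∧
    (∀ u v, G.Adj u v → γ u v 0 = p u ∧ γ u v 1 = p v ∧ Function.Injective (γ u v)) ∧
    (∀ (u v w : Fin 10) (t : unitInterval), G.Adj u v → 0 < (t:ℝ) → (t:ℝ) < 1 →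
      γ u v t ≠ p w) ∧
    (∀ (u v u' v' : Fin 10) (s t : unitInterval), G.Adj u v → G.Adj u' v' →
      ¬ ((u = u' ∧ v = v') ∨ (u = v' ∧ v = u')) →
      0 < (s:ℝ) → (s:ℝ) < 1 → 0 < (t:ℝ) → (t:ℝ) < 1 → γ u v s ≠ γ u' v' t) := by
  refine ⟨fun u => pt (px u) (py u), fun u v => seg (px u) (py u) (dx u v) (dy u v), ?_, ?_, ?_, ?_⟩
  · intro u v h
    obtain ⟨⟨m, hm⟩, k, hk⟩ := (pt_eq _ _ _ _).1 h
    have hm' : px u = px v + 4 * m := by exact_mod_cast hm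
    have hk' : py u = py v + 4 * k := by exact_mod_cast hk
    have := C1 u
    have := C1 v
    exact C2 u v (by omega) (by omega)
  · intro u v h
    refine ⟨by simp [seg_apply], ?_, fun s t e => ?_⟩
    · obtain ⟨⟨m, hm⟩, k, hk⟩ := C3 u v h
      rw [seg_apply, pt_eq]
      refine ⟨⟨m, ?_⟩, k, ?_⟩
      · have : px u + dx u v = px v + 4 * m := by omega
        simpa using (by exact_mod_cast this : (px u : ℝ) + dx u v = px v + 4 * m)
      · have : py u + dy u v = py v + 4 * k := by omega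
        simpa using (by exact_mod_cast this : (py u : ℝ) + dy u v = py v + 4 * k)
    · rw [seg_apply, seg_apply, pt_eq] at e
      obtain ⟨⟨m, hm⟩, k, hk⟩ := e
      rcases h with h | h
      · exact Subtype.ext (inj1 (C1' u v).1 h s.2.1 s.2.2 t.2.1 t.2.2 _ hm)
      · exact Subtype.ext (inj1 (C1' u v).2 h s.2.1 s.2.2 t.2.1 t.2.2 _ hk)
  · intro u v w t h t0 t1 e
    rw [seg_apply, pt_eq] at e
    obtain ⟨⟨m, hm⟩, k, hk⟩ := e
    have hm' := bound (e := 0) (t := t) (m := m) (C1 u).1 (C1 w).1 (C1' u v).1 (by omega) t0.le t1.le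
      t0.le t1.le (by simpa using hm)
    have hk' := bound (e := 0) (t := t) (m := k) (C1 u).2 (C1 w).2 (C1' u v).2 (by omega) t0.le t1.le
      t0.le t1.le (by simpa using hk)
    exact sep_sound (C4 u v h w m hm' k hk') t0 t1 t0 t1 (by push_cast; linarith)
      (by push_cast; linarith)
  · intro u v u' v' s t h h' hne s0 s1 t0 t1 e
    rw [seg_apply, seg_apply, pt_eq] at e
    obtain ⟨⟨m, hm⟩, k, hk⟩ := e
    have hm' := bound (C1 u).1 (C1 u').1 (C1' u v).1 (C1' u' v').1 s0.le s1.le t0.le t1.le hm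
    have hk' := bound (C1 u).2 (C1 u').2 (C1' u v).2 (C1' u' v').2 s0.le s1.le t0.le t1.le hk
    exact sep_sound (C5 u v h u' v' h' hne m hm' k hk') s0 s1 t0 t1 (by push_cast; linarith)
      (by push_cast; linarith)

def c0 : Fin 10 → Fin 5 := ![0, 1, 2, 2, 3, 1, 4, 4, 4, 0]
def c1 : Fin 10 → Fin 5 := ![0, 1, 1, 0, 2, 3, 3, 1, 0, 3]

theorem c0_valid : ∀ u v, G.Adj u v → c0 u ≠ c0 v := by decide +kernel
theorem c1_valid : ∀ u v, G.Adj u v → c1 u ≠ c1 v := by decide +kernel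

def St (a b : Fin 5) (y z : Fin 10) : Prop :=
  y = z ∨ (G.Adj y z ∧ (c0 y = a ∨ c0 y = b) ∧ (c0 z = a ∨ c0 z = b))

instance (a b : Fin 5) (y z : Fin 10) : Decidable (St a b y z) := by unfold St; infer_instance

theorem conn : ∀ a b : Fin 5, a ≠ b → ∀ x, (c0 x = a ∨ c0 x = b) → ∀ v, (c0 v = a ∨ c0 v = b) →
    ∃ y, St a b x y ∧ ∃ z, St a b y z ∧ ∃ w, St a b z w ∧ St a b w v := by decide +kernel

theorem step (c c' : Fin 10 → Fin 5) (π : Equiv.Perm (Fin 5)) (hc : ∀ v, c v = π (c0 v))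
    (a b : Fin 5) (x : Fin 10) (h : ∀ v,
      ((SimpleGraph.fromRel (fun y z => G.Adj y z ∧ (c y = a ∨ c y = b) ∧
          (c z = a ∨ c z = b))).Reachable x v → c' v = Equiv.swap a b (c v)) ∧
      (¬ (SimpleGraph.fromRel (fun y z => G.Adj y z ∧ (c y = a ∨ c y = b) ∧
          (c z = a ∨ c z = b))).Reachable x v → c' v = c v)) :
    ∃ ρ : Equiv.Perm (Fin 5), ∀ v, c' v = ρ (c0 v) := by
  set H := SimpleGraph.fromRel (fun y z => G.Adj y z ∧ (c y = a ∨ c y = b) ∧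
          (c z = a ∨ c z = b)) with hH
  by_cases hab : a = b
  · refine ⟨π, fun v => ?_⟩
    by_cases r : H.Reachable x v
    · rw [(h v).1 r, hab, Equiv.swap_self, hc]; rfl
    · rw [(h v).2 r, hc]
  have e : ∀ v t, c v = t ↔ c0 v = π.symm t := fun v t => by rw [hc, Equiv.eq_symm_apply]
  by_cases hx : c x = a ∨ c x = b
  · refine ⟨π.trans (Equiv.swap a b), fun v => ?_⟩
    rw [Equiv.trans_apply, ← hc]
    by_cases r : H.Reachable x v
    · exact (h v).1 r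
    · rw [(h v).2 r]
      by_cases hv : c v = a ∨ c v = b
      · exfalso
        apply r
        have hs : ∀ y z, St (π.symm a) (π.symm b) y z → H.Reachable y z := by
          rintro y z (rfl | ⟨h1, h2, h3⟩)
          · exact .refl _
          · refine SimpleGraph.Adj.reachable ?_
            rw [hH, SimpleGraph.fromRel_adj]
            exact ⟨h1.ne, Or.inl ⟨h1, by rwa [e, e], by rwa [e, e]⟩⟩
        obtain ⟨y, h1, z, h2, w, h3, h4⟩ := conn (π.symm a) (π.symm b) (π.symm.injective.ne hab) x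
          (by rwa [← e, ← e]) v (by rwa [← e, ← e])
        exact (((hs _ _ h1).trans (hs _ _ h2)).trans (hs _ _ h3)).trans (hs _ _ h4)
      · push Not at hv
        rw [Equiv.swap_apply_of_ne_of_ne hv.1 hv.2]
  · refine ⟨π, fun v => ?_⟩
    rw [← hc]
    by_cases r : H.Reachable x v
    · rw [(h v).1 r]
      obtain ⟨W⟩ := r
      cases W with
      | nil =>
        push Not at hx
        rw [Equiv.swap_apply_of_ne_of_ne hx.1 hx.2]
      | cons hadj _ =>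
        rw [hH, SimpleGraph.fromRel_adj] at hadj
        rcases hadj.2 with h1 | h1
        · exact absurd h1.2.1 hx
        · exact absurd h1.2.2 hx
    · exact (h v).2 r

end Pool.Agent.H9.Torus
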