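import Mathlib
import Pool.Agent.H25.Rup

set_option autoImplicit false

namespace Pool.Agent.H9.Trans
open Pool.Agent.H25.Rup

variable {α : Type} [LinearOrder α]

/-- a monochromatic monotone path with `m` edges ends at the triple `x y z` -/
def L (χ : α → α → α → α → Bool) (col : Bool) : ℕ → α → α → α → Prop
  | 0, _, _, _ => True
  | m + 1, x, y, z => ∃ w, w < x ∧ χ w x y z = col ∧ L χ col m w x y

def NoP (χ : α → α → α → α → Bool) : Prop :=
  ∀ col x y z, x < y → y < z → ¬ L χ col 3 x y z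

def Tr (χ : α → α → α → α → Bool) : Prop :=
  ∀ a b c d e, a < b → b < c → c < d → d < e → χ a b c d = χ b c d e →
    χ a c d e = χ a b c d ∧ χ a b d e = χ a b c d ∧ χ a b c e = χ a b c d

def cell (χ : α → α → α → α → Bool) (y z : α) (c : ℕ) : Prop :=
  ∃ x, x < y ∧ L χ true (c / 3) x y z ∧ L χ false (c % 3) x y z

def Jm (p : ℕ) : ℕ := List.getD [0, 1, 9, 3, 73, 11, 7, 75, 27, 15, 91, 79, 31, 219, 95, 63, 223, 127, 255, 511] p 0

def Dm (d : ℕ) : ℕ := List.getD [0, 1, 3, 7, 11, 15, 23, 75, 31, 47, 79, 63, 95, 111, 303, 127, 191, 319, 367, 623, 255, 383, 447, 639, 879, 511, 767, 895, 1471, 4975, 1023, 1535, 2815, 4991, 9663, 37743, 2047, 3071, 5119, 9727, 37759, 4095, 6143, 7167, 10239, 37887, 8191, 12287, 14335, 38911, 39935, 16383, 24575, 40959, 47103, 32767, 49151, 57343, 65535, 98303, 188415, 131071, 196607, 262143, 524287, 1048575] d 0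

def V (χ : α → α → α → α → Bool) (z : α) (p : ℕ) : Prop :=
  ∃ y, y < z ∧ ∀ c < 9, (Jm p).testBit c = true → cell χ y z c

variable {χ : α → α → α → α → Bool}

theorem L_succ {col : Bool} : ∀ (m : ℕ) {x y z : α}, L χ col (m + 1) x y z → L χ col m x y z
  | 0, _, _, _, _ => trivial
  | m + 1, _, _, _, ⟨w, h1, h2, h3⟩ => ⟨w, h1, h2, L_succ m h3⟩

theorem L_le {col : Bool} {m n : ℕ} (h : m ≤ n) {x y z : α} (hl : L χ col n x y z) :
    L χ col m x y z := by
  induction h with
  | refl => exact hl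
  | step _ ih => exact ih (L_succ _ hl)

theorem step {x y : α} (z : α) {c : ℕ} (h : cell χ x y c) :
    L χ true (c / 3 + 1) x y z ∨ L χ false (c % 3 + 1) x y z := by
  obtain ⟨w, h1, h2, h3⟩ := h
  cases hc : χ w x y z
  · exact Or.inr ⟨w, h1, hc, h3⟩
  · exact Or.inl ⟨w, h1, hc, h2⟩

theorem ex_len (hn : NoP χ) (col : Bool) {x y z : α} (h1 : x < y) (h2 : y < z) :
    ∃ m < 3, L χ col m x y z ∧ ¬ L χ col (m + 1) x y z := by
  by_cases a1 : L χ col 1 x y z
  · by_cases a2 : L χ col 2 x y z
    · exact ⟨2, by norm_num, a2, hn col x y z h1 h2⟩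
    · exact ⟨1, by norm_num, a1, a2⟩
  · exact ⟨0, by norm_num, trivial, a1⟩

theorem ex_cell (hn : NoP χ) {x y z : α} (h1 : x < y) (h2 : y < z) :
    ∃ c < 9, cell χ y z c ∧ ¬ cell χ x y c := by
  obtain ⟨s, hs, a1, a2⟩ := ex_len hn true h1 h2
  obtain ⟨t, ht, b1, b2⟩ := ex_len hn false h1 h2
  have e1 : (3 * s + t) / 3 = s := by omega
  have e2 : (3 * s + t) % 3 = t := by omega
  refine ⟨3 * s + t, by omega, ⟨x, h1, by rwa [e1], by rwa [e2]⟩, fun h => ?_⟩
  rcases step z h with h | h
  · rw [e1] at h; exact a2 h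
  · rw [e2] at h; exact b2 h

theorem fact2 (hn : NoP χ) {y z : α} {p : ℕ} (h : V χ y p) (h2 : y < z) :
    ∃ c < 9, ¬ (Jm p).testBit c = true ∧ cell χ y z c := by
  obtain ⟨x, h1, hx⟩ := h
  obtain ⟨c, hc, a1, a2⟩ := ex_cell hn h1 h2
  exact ⟨c, hc, fun h => a2 (hx c hc h), a1⟩

theorem fact1 {y z : α} {p : ℕ} (h : ¬ V χ z p) (h2 : y < z) :
    ∃ c < 9, (Jm p).testBit c = true ∧ ¬ cell χ y z c := by
  by_contra hc
  push Not at hc
  exact h ⟨y, h2, hc⟩

theorem cell_le {y z : α} {c d : ℕ} (h1 : c / 3 ≤ d / 3) (h2 : c % 3 ≤ d % 3) (h : cell χ y z d) :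
    cell χ y z c := by
  obtain ⟨x, a, b, e⟩ := h
  exact ⟨x, a, L_le h1 b, L_le h2 e⟩

/-- all down-closed subsets of `{0,…,n-1}`, as bit masks -/
def lists (sub : ℕ → ℕ → Bool) : ℕ → List ℕ
  | 0 => [0]
  | i + 1 => lists sub i ++ ((lists sub i).filter
      (fun m => (List.range i).all (fun q => !sub q i || m.testBit q))).map (fun m => m ||| 2 ^ i)

theorem lists_ex (sub : ℕ → ℕ → Bool) (f : ℕ → Prop) (n : ℕ)
    (hf : ∀ p < n, ∀ q < p, sub q p = true → f p → f q) :
    ∀ i ≤ n, ∃ m ∈ lists sub i, ∀ p, m.testBit p = true ↔ (p < i ∧ f p)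
  | 0, _ => ⟨0, by simp [lists], by simp⟩
  | i + 1, hi => by
    obtain ⟨m, hm, h⟩ := lists_ex sub f n hf i (by omega)
    by_cases hfi : f i
    · refine ⟨m ||| 2 ^ i, ?_, fun p => ?_⟩
      · simp only [lists, List.mem_append, List.mem_map, List.mem_filter, List.all_eq_true,
          List.mem_range]
        refine Or.inr ⟨m, ⟨hm, fun q hq => ?_⟩, rfl⟩
        cases hs : sub q i
        · simp
        · simpa using (h q).2 ⟨hq, hf i (by omega) q hq hs hfi⟩
      · rw [Nat.testBit_or, Bool.or_eq_true, h, Nat.testBit_two_pow]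
        simp only [decide_eq_true_eq]
        constructor
        · rintro (⟨a, b⟩ | rfl)
          · exact ⟨by omega, b⟩
          · exact ⟨by omega, hfi⟩
        · rintro ⟨a, b⟩
          by_cases e : i = p
          · exact Or.inr e
          · exact Or.inl ⟨by omega, b⟩
    · refine ⟨m, by simp [lists, hm], fun p => ?_⟩
      rw [h]
      constructor
      · rintro ⟨a, b⟩; exact ⟨by omega, b⟩
      · rintro ⟨a, b⟩
        refine ⟨?_, b⟩
        by_contra e
        have : p = i := by omega
        exact hfi (this ▸ b)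

def sub9 (q p : ℕ) : Bool := decide (q / 3 ≤ p / 3) && decide (q % 3 ≤ p % 3)

def sub20 (q p : ℕ) : Bool := Nat.beq (Jm q &&& Jm p) (Jm q)

theorem lists9 : ∀ m ∈ lists sub9 9, ∃ p < 20, Jm p = m := by decide +kernel

theorem lists20 : ∀ m ∈ lists sub20 20, ∃ d < 66, Dm d = m := by decide +kernel

theorem ex_P (y z : α) : ∃ p < 20, ∀ c < 9, ((Jm p).testBit c = true ↔ cell χ y z c) := by
  obtain ⟨m, hm, h⟩ := lists_ex sub9 (cell χ y z) 9 (fun p _ q _ hs hp => by
    simp only [sub9, Bool.and_eq_true, decide_eq_true_eq] at hs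
    exact cell_le hs.1 hs.2 hp) 9 le_rfl
  obtain ⟨p, hp, rfl⟩ := lists9 m hm
  exact ⟨p, hp, fun c hc => by rw [h]; simp [hc]⟩

theorem ex_V (z : α) : ∃ d < 66, ∀ p < 20, ((Dm d).testBit p = true ↔ V χ z p) := by
  obtain ⟨m, hm, h⟩ := lists_ex sub20 (V χ z) 20 (fun p _ q _ hs hp => by
    obtain ⟨y, a, b⟩ := hp
    refine ⟨y, a, fun c hc hq => b c hc ?_⟩
    have e := Nat.eq_of_beq_eq_true hs
    rw [← e, Nat.testBit_and, Bool.and_eq_true] at hq
    exact hq.2) 20 le_rfl
  obtain ⟨p, hp, rfl⟩ := lists20 m hm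
  exact ⟨p, hp, fun c hc => by rw [h]; simp [hc]⟩

theorem sep (hn : NoP χ) {y z : α} (h : y < z) : ∃ p < 20, V χ z p ∧ ¬ V χ y p := by
  obtain ⟨p, hp, e⟩ := ex_P (χ := χ) y z
  refine ⟨p, hp, ⟨y, h, fun c hc b => (e c hc).1 b⟩, fun hv => ?_⟩
  obtain ⟨c, hc, a, b⟩ := fact2 hn hv h
  exact a ((e c hc).2 b)

def p2 (i j : ℕ) : ℕ := i + j * (j - 1) / 2
def t3 (i j k : ℕ) : ℕ := p2 i j + k * (k - 1) * (k - 2) / 6
def vc (i j c : ℕ) : ℕ := 1 + 9 * p2 i j + c
def vl (col m i j k : ℕ) : ℕ := 190 + 8 * t3 i j k + 4 * col + m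
def vk (i j k l : ℕ) : ℕ := 470 + (t3 i j k + l * (l - 1) * (l - 2) * (l - 3) / 24)

def TT : ℕ := 625233107671238132595181966793237744489846089689197399186044350729673815368837872972466045443212996150350278919345511075144152252508663681176201848293404404924746827324819987892276201411223460312196755356661037676905534879327483710955512313222411192057517215065529385719722939453725860978771709570618132778592094797256295239414075987034360920115415555906664847571966878061534137496835197193509594730344815546358968699600594650773867911612324474514895025862063173592247917697719402180587424651130202035934395233931011568952437988546128454105105771181266503688741267670000237457002800089796855895853019605158407144639568469043416239079234837103707775716130090093681723447059573288084938538107548673680153929596091431247616730623092590601816596282009296819593535662614762875799617406152706602161437649199673637714342776062928440273489896651542326809425855212746002743282856121625585175815313127971148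7347172123331747330978726053860818250363498494445466279955175280535549311249151266859748285817636523568602711188089901508854869670063217714729932219037377302892632988846055804183563079362995091552026825686406357865992326904076831760596181786026286542584403607369098881604166405650847162046670107108230302868583939822268554710115885017085793452486890166448664432583882392924372749726134512038459049000011227056950670006913238923502547176192075393447536622212637059108038898718219292149577483578453606215230453241615137778026902190226893689651596614462877710667783376371825708240138178847168902333570516596894241930585304063777182795938728088942153313446171415345394234367606787447471582428253849027105989640945718797690831927063459636775535734050483307583403940486660666585524620250732509419550277604205027115451428215114594137621479640104031202434782401062706727871641687753528494772219717456597124215655468576963234024513444281943896014103654951931248431841677940525104709895478492775289375538591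07150531380586706647789754802378874078030960308044927305621702022018229930059600008333243868673909124827984765159196686956967236006011501297794313900175589503837593753074594162539089836624937423752067032822271530751562858853370341265358907168970838448750816340585617675619010688951234716946400816019399200418360215878036533250321758393766069992516971463419347934073012806874320925212589261815117830827772279654262732957699312104351823860835583600752879129321108825818715016443042897339529550948304645366323927739424312821187319355720154009198837320120957716005094590446943005630452342434065203518885126975225793689920936480514549786117799837027859949338995434650687398458732302002592746379222048741261284242128000170630384320264871341166738897629427119991979718800092659396467376309070691508099913822735887071471649151306413299762778770748414580759456986969030462919510951260012262963897188657561458891170385346661860155370572735558856136086694590620477947232719623091519992665495252242800527783477859259977575238045215494769048176551202277311332126382407790145140407226369626007517924190825421705299383530293658141952906553656599884410315079680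

def dg (k v : ℕ) : ℕ := TT >>> (20 * v + 4 * k) % 16

def asg (χ : α → α → α → α → Bool) (x : ℕ → α) (v : ℕ) : Prop :=
  if v < 190 then cell χ (x (dg 0 v)) (x (dg 1 v)) (dg 2 v)
  else if v < 470 then L χ (decide (dg 3 v = 1)) (dg 4 v) (x (dg 0 v)) (x (dg 1 v)) (x (dg 2 v))
  else χ (x (dg 0 v)) (x (dg 1 v)) (x (dg 2 v)) (x (dg 3 v)) = true

theorem dc : ∀ j < 7, ∀ i < j, ∀ c < 9, vc i j c < 190 ∧ dg 0 (vc i j c) = i ∧
    dg 1 (vc i j c) = j ∧ dg 2 (vc i j c) = c := by decide +kernel

theorem dl : ∀ k < 7, ∀ j < k, ∀ i < j, ∀ col < 2, ∀ m < 4, 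
    [vl col m i j k / 470, dg 0 (vl col m i j k), dg 1 (vl col m i j k), dg 2 (vl col m i j k),
      dg 3 (vl col m i j k), dg 4 (vl col m i j k)] = [0, i, j, k, col, m] := by decide +kernel

theorem dk : ∀ l < 7, ∀ k < l, ∀ j < k, ∀ i < j, 
    [dg 0 (vk i j k l), dg 1 (vk i j k l), dg 2 (vk i j k l), dg 3 (vk i j k l)] =
      [i, j, k, l] := by decide +kernel

theorem lit_p (a : ℕ → Prop) (v : ℕ) (hv : v ≠ 0) : lit a (2 * v) ↔ a v := by
  unfold lit
  rw [if_pos (by omega), Nat.mul_div_cancel_left _ (by norm_num)]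
  simp [hv]

theorem lit_n (a : ℕ → Prop) (v : ℕ) (hv : v ≠ 0) : lit a (2 * v + 1) ↔ ¬ a v := by
  unfold lit
  have : (2 * v + 1) / 2 = v := by omega
  rw [if_neg (by omega), this]
  simp [hv]

variable {x : ℕ → α}

theorem ac {i j c : ℕ} (h1 : i < j) (h2 : j < 7) (h3 : c < 9) :
    asg χ x (vc i j c) ↔ cell χ (x i) (x j) c := by
  obtain ⟨a, b, d, e⟩ := dc j h2 i h1 c h3
  rw [asg, if_pos a, b, d, e]

theorem al {i j k col m : ℕ} (h1 : i < j) (h2 : j < k) (h3 : k < 7) (h4 : col < 2) (h5 : m < 4) :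
    asg χ x (vl col m i j k) ↔ L χ (decide (col = 1)) m (x i) (x j) (x k) := by
  have t := dl k h3 j h2 i h1 col h4 m h5
  simp only [List.cons.injEq, and_true] at t
  obtain ⟨a0, b, d, e, f, g⟩ := t
  have a' : vl col m i j k < 470 := by omega
  have a : ¬ vl col m i j k < 190 := by unfold vl; omega
  rw [asg, if_neg a, if_pos a', b, d, e, f, g]

theorem ak {i j k l : ℕ} (h1 : i < j) (h2 : j < k) (h3 : k < l) (h4 : l < 7) :
    asg χ x (vk i j k l) ↔ χ (x i) (x j) (x k) (x l) = true := by
  have t := dk l h4 k h3 j h2 i h1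
  simp only [List.cons.injEq, and_true] at t
  obtain ⟨b, d, e, f⟩ := t
  have a : ¬ vk i j k l < 190 := by unfold vk; omega
  have a' : ¬ vk i j k l < 470 := by unfold vk; omega
  rw [asg, if_neg a, if_neg a', b, d, e, f]

theorem vc0 (i j c : ℕ) : vc i j c ≠ 0 := by unfold vc; omega
theorem vl0 (col m i j k : ℕ) : vl col m i j k ≠ 0 := by unfold vl; omega
theorem vk0 (i j k l : ℕ) : vk i j k l ≠ 0 := by unfold vk; omega

/-- clause families -/
def cl (F : List ℕ) (f i j k l m e : ℕ) : List ℕ :=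
  match f with
  | 0 => if i < j ∧ j < k ∧ k < 7 ∧ l < 2 then [2 * vl l 0 i j k] else [0]
  | 1 => if i < j ∧ j < k ∧ k < 7 ∧ l < 2 then [2 * vl l 3 i j k + 1] else [0]
  | 2 => if i < j ∧ j < k ∧ k < 7 ∧ l < 2 ∧ m < 3 then
      [2 * vl l (m + 1) i j k + 1, 2 * vl l m i j k] else [0]
  | 3 => if i < j ∧ j < k ∧ k < 7 ∧ l < 3 ∧ m < 3 then
      [2 * vl 1 l i j k + 1, 2 * vl 0 m i j k + 1, 2 * vc j k (3 * l + m)] else [0]
  | 4 => if i < j ∧ j < k ∧ k < 7 ∧ l < 3 ∧ m < 3 then
      [2 * vc i j (3 * l + m) + 1, 2 * vl 1 (l + 1) i j k, 2 * vl 0 (m + 1) i j k] else [0]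
  | 5 => if i < j ∧ j < k ∧ k < l ∧ l < 7 ∧ m < 3 then
      [2 * vk i j k l + 1, 2 * vl 1 m i j k + 1, 2 * vl 1 (m + 1) j k l] else [0]
  | 6 => if i < j ∧ j < k ∧ k < l ∧ l < 7 ∧ m < 3 then
      [2 * vk i j k l, 2 * vl 0 m i j k + 1, 2 * vl 0 (m + 1) j k l] else [0]
  | 7 => if i < j ∧ j < k ∧ k < l ∧ l < m ∧ m < 7 then
      [2 * vk i j k l + 1, 2 * vk j k l m + 1,
        if e = 0 then 2 * vk i k l m else if e = 1 then 2 * vk i j l m else 2 * vk i j k m] else [0]
  | 8 => if i < j ∧ j < k ∧ k < l ∧ l < m ∧ m < 7 then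
      [2 * vk i j k l, 2 * vk j k l m,
        if e = 0 then 2 * vk i k l m + 1 else if e = 1 then 2 * vk i j l m + 1
        else 2 * vk i j k m + 1] else [0]
  | 9 => if i < j ∧ j < 7 ∧ k < 2 ∧ l < 3 then
      [2 * vc i j (3 * (k + 1) + l) + 1, 2 * vc i j (3 * k + l)] else [0]
  | 10 => if i < j ∧ j < 7 ∧ k < 3 ∧ l < 2 then
      [2 * vc i j (3 * k + l + 1) + 1, 2 * vc i j (3 * k + l)] else [0]
  | 11 => if i < j ∧ j < 7 ∧ e < 20 ∧ ¬ (Dm (F.getD j 0)).testBit e = true then
      ((List.range 9).filter (fun c => (Jm e).testBit c)).map (fun c => 2 * vc i j c + 1) else [0]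
  | 12 => if i < j ∧ j < 7 ∧ e < 20 ∧ (Dm (F.getD i 0)).testBit e = true then
      ((List.range 9).filter (fun c => !(Jm e).testBit c)).map (fun c => 2 * vc i j c) else [0]
  | _ => [0]

theorem cl_sat (hn : NoP χ) (ht : Tr χ) (hx : ∀ i j, i < j → j < 7 → x i < x j) (F : List ℕ)
    (hF : ∀ i < 7, ∀ p < 20, ((Dm (F.getD i 0)).testBit p = true ↔ V χ (x i) p))
    (f i j k l m e : ℕ) : ∃ t ∈ cl F f i j k l m e, lit (asg χ x) t := by
  have z : ∃ t ∈ [0], lit (asg χ x) t := ⟨0, by simp, lit_zero _⟩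
  unfold cl
  split
  all_goals first | exact z | (split; swap; exact z)
  · rename_i h; obtain ⟨h1, h2, h3, h4⟩ := h
    simp only [List.mem_singleton, exists_eq_left, lit_p _ _ (vl0 _ _ _ _ _)]
    rw [al h1 h2 h3 h4 (by omega)]; trivial
  · rename_i h; obtain ⟨h1, h2, h3, h4⟩ := h
    simp only [List.mem_singleton, exists_eq_left, lit_n _ _ (vl0 _ _ _ _ _)]
    rw [al h1 h2 h3 h4 (by omega)]
    exact hn _ _ _ _ (hx _ _ h1 (by omega)) (hx _ _ h2 h3)
  · rename_i h; obtain ⟨h1, h2, h3, h4, h5⟩ := h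
    simp only [List.mem_cons, List.not_mem_nil, or_false, exists_eq_or_imp, exists_eq_left,
      lit_n _ _ (vl0 _ _ _ _ _), lit_p _ _ (vl0 _ _ _ _ _)]
    rw [al h1 h2 h3 h4 (by omega), al h1 h2 h3 h4 (by omega)]
    exact imp_iff_not_or.1 (L_succ _)
  · rename_i h; obtain ⟨h1, h2, h3, h4, h5⟩ := h
    simp only [List.mem_cons, List.not_mem_nil, or_false, exists_eq_or_imp, exists_eq_left,
      lit_n _ _ (vl0 _ _ _ _ _), lit_p _ _ (vc0 _ _ _)]
    rw [al h1 h2 h3 (by omega) (by omega), al h1 h2 h3 (by omega) (by omega),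
      ac h2 h3 (by omega)]
    have e1 : (3 * l + m) / 3 = l := by omega
    have e2 : (3 * l + m) % 3 = m := by omega
    refine imp_iff_not_or.1 fun a => imp_iff_not_or.1 fun b => ⟨x i, hx _ _ h1 (by omega), ?_, ?_⟩
    · rw [e1]; exact a
    · rw [e2]; exact b
  · rename_i h; obtain ⟨h1, h2, h3, h4, h5⟩ := h
    simp only [List.mem_cons, List.not_mem_nil, or_false, exists_eq_or_imp, exists_eq_left,
      lit_n _ _ (vc0 _ _ _), lit_p _ _ (vl0 _ _ _ _ _)]
    rw [al h1 h2 h3 (by omega) (by omega), al h1 h2 h3 (by omega) (by omega),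
      ac h1 (by omega) (by omega)]
    have e1 : (3 * l + m) / 3 = l := by omega
    have e2 : (3 * l + m) % 3 = m := by omega
    refine imp_iff_not_or.1 fun a => ?_
    have := step (x k) a
    rw [e1, e2] at this
    exact this
  · rename_i h; obtain ⟨h1, h2, h3, h4, h5⟩ := h
    simp only [List.mem_cons, List.not_mem_nil, or_false, exists_eq_or_imp, exists_eq_left,
      lit_n _ _ (vk0 _ _ _ _), lit_n _ _ (vl0 _ _ _ _ _), lit_p _ _ (vl0 _ _ _ _ _)]
    rw [al h1 h2 (by omega) (by omega) (by omega), al h2 h3 h4 (by omega) (by omega),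
      ak h1 h2 h3 h4]
    exact imp_iff_not_or.1 fun a => imp_iff_not_or.1 fun b => ⟨x i, hx _ _ h1 (by omega), a, b⟩
  · rename_i h; obtain ⟨h1, h2, h3, h4, h5⟩ := h
    simp only [List.mem_cons, List.not_mem_nil, or_false, exists_eq_or_imp, exists_eq_left,
      lit_p _ _ (vk0 _ _ _ _), lit_n _ _ (vl0 _ _ _ _ _), lit_p _ _ (vl0 _ _ _ _ _)]
    rw [al h1 h2 (by omega) (by omega) (by omega), al h2 h3 h4 (by omega) (by omega),
      ak h1 h2 h3 h4]
    exact or_iff_not_imp_left.2 fun a => imp_iff_not_or.1 fun b =>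
      ⟨x i, hx _ _ h1 (by omega), by simpa using a, b⟩
  · rename_i h; obtain ⟨h1, h2, h3, h4, h5⟩ := h
    have t := ht _ _ _ _ _ (hx i j h1 (by omega)) (hx j k h2 (by omega)) (hx k l h3 (by omega))
      (hx l m h4 h5)
    simp only [List.mem_cons, List.not_mem_nil, or_false, exists_eq_or_imp, exists_eq_left,
      lit_n _ _ (vk0 _ _ _ _)]
    rw [ak h1 h2 h3 (by omega), ak h2 h3 h4 h5]
    refine imp_iff_not_or.1 fun a => imp_iff_not_or.1 fun b => ?_
    obtain ⟨t1, t2, t3⟩ := t (a.trans b.symm)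
    split_ifs
    · rw [lit_p _ _ (vk0 _ _ _ _), ak (by omega) h3 h4 h5, t1, a]
    · rw [lit_p _ _ (vk0 _ _ _ _), ak h1 (by omega) h4 h5, t2, a]
    · rw [lit_p _ _ (vk0 _ _ _ _), ak h1 h2 (by omega) h5, t3, a]
  · rename_i h; obtain ⟨h1, h2, h3, h4, h5⟩ := h
    have t := ht _ _ _ _ _ (hx i j h1 (by omega)) (hx j k h2 (by omega)) (hx k l h3 (by omega))
      (hx l m h4 h5)
    simp only [List.mem_cons, List.not_mem_nil, or_false, exists_eq_or_imp, exists_eq_left,
      lit_p _ _ (vk0 _ _ _ _)]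
    rw [ak h1 h2 h3 (by omega), ak h2 h3 h4 h5]
    refine or_iff_not_imp_left.2 fun a => or_iff_not_imp_left.2 fun b => ?_
    rw [Bool.not_eq_true] at a b
    obtain ⟨t1, t2, t3⟩ := t (a.trans b.symm)
    split_ifs
    · rw [lit_n _ _ (vk0 _ _ _ _), ak (by omega) h3 h4 h5, t1, a]; simp
    · rw [lit_n _ _ (vk0 _ _ _ _), ak h1 (by omega) h4 h5, t2, a]; simp
    · rw [lit_n _ _ (vk0 _ _ _ _), ak h1 h2 (by omega) h5, t3, a]; simp
  · rename_i h; obtain ⟨h1, h2, h3, h4⟩ := h
    simp only [List.mem_cons, List.not_mem_nil, or_false, exists_eq_or_imp, exists_eq_left,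
      lit_n _ _ (vc0 _ _ _), lit_p _ _ (vc0 _ _ _)]
    rw [ac h1 h2 (by omega), ac h1 h2 (by omega)]
    exact imp_iff_not_or.1 (cell_le (by omega) (by omega))
  · rename_i h; obtain ⟨h1, h2, h3, h4⟩ := h
    simp only [List.mem_cons, List.not_mem_nil, or_false, exists_eq_or_imp, exists_eq_left,
      lit_n _ _ (vc0 _ _ _), lit_p _ _ (vc0 _ _ _)]
    rw [ac h1 h2 (by omega), ac h1 h2 (by omega)]
    exact imp_iff_not_or.1 (cell_le (by omega) (by omega))
  · rename_i h; obtain ⟨h1, h2, h3, h4⟩ := h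
    rw [hF j h2 e h3] at h4
    obtain ⟨c, a, b, d⟩ := fact1 h4 (hx i j h1 h2)
    refine ⟨2 * vc i j c + 1, List.mem_map.2 ⟨c, List.mem_filter.2 ⟨List.mem_range.2 a, b⟩, rfl⟩, ?_⟩
    rwa [lit_n _ _ (vc0 _ _ _), ac h1 h2 a]
  · rename_i h; obtain ⟨h1, h2, h3, h4⟩ := h
    rw [hF i (by omega) e h3] at h4
    obtain ⟨c, a, b, d⟩ := fact2 hn h4 (hx i j h1 h2)
    refine ⟨2 * vc i j c, List.mem_map.2 ⟨c, List.mem_filter.2 ⟨List.mem_range.2 a, by simpa using b⟩, rfl⟩, ?_⟩
    rwa [lit_p _ _ (vc0 _ _ _), ac h1 h2 a]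

def clN (F : List ℕ) (d : ℕ) : ℕ :=
  mask (cl F (d % 16) (d / 16 % 8) (d / 128 % 8) (d / 1024 % 8) (d / 8192 % 8) (d / 65536 % 8)
    (d / 524288))

/-- digits of `n` in base `b` -/
def dig (b : ℕ) : ℕ → ℕ → List ℕ
  | 0, _ => []
  | k + 1, n => bif Nat.beq n 0 then [] else n % b :: dig b k (n / b)

def unp : List ℕ → List (List ℕ)
  | a :: b :: t => (mask (dig 16384 100 a) :: dig 4194304 100 b) :: unp t
  | _ => []

def chk (m : ℕ) (cs : List ℕ) (raw : List ℕ) : Bool :=
  check m (unp raw) (load cs .leaf 0) cs.length && (unp raw).any (fun p => Nat.beq (p.headD 0) 0)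

theorem core (hn : NoP χ) (ht : Tr χ) (hx : ∀ i j, i < j → j < 7 → x i < x j) (F : List ℕ)
    (hF : ∀ i < 7, ∀ p < 20, ((Dm (F.getD i 0)).testBit p = true ↔ V χ (x i) p))
    (ds raw : List ℕ) (h : chk 1010 (ds.map (clN F)) raw = true) : False := by
  refine refute (lit_zero (asg χ x)) (lit_cons _) 1010 _ _ h fun c hc => ?_
  obtain ⟨d, _, rfl⟩ := List.mem_map.1 hc
  obtain ⟨t, a, b⟩ := cl_sat hn ht hx F hF (d % 16) (d / 16 % 8) (d / 128 % 8) (d / 1024 % 8)
    (d / 8192 % 8) (d / 65536 % 8) (d / 524288)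
  exact sat_mask _ t a b

end Pool.Agent.H9.Trans
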