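import Mathlib

set_option autoImplicit false

namespace Pool.Agent.H9.TransDefs

/-- The colouring `c` of the subsets of `Fin N` (only its values on `k`-subsets matter) contains a
monochromatic monotone path of length `n`: vertices `x 0 < ⋯ < x (n+k-2)` such that the `n` edges
`{x j, …, x (j+k-1)}`, `j < n`, all have the same colour. -/
def HasPath {N q : ℕ} (k n : ℕ) (c : Finset (Fin N) → Fin q) : Prop :=
  ∃ x : Fin (n + k - 1) → Fin N, StrictMono x ∧ ∃ col : Fin q, ∀ j < n,
    c ((Finset.univ.filter (fun i : Fin (n + k - 1) => j ≤ i.val ∧ i.val < j + k)).image x) = col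

/-- Transitive colouring: for `x 0 < ⋯ < x k`, if `{x 0, …, x (k-1)}` and `{x 1, …, x k}` have colour
`col`, then so does every `k`-subset of `{x 0, …, x k}`. -/
def IsTransitive {N q : ℕ} (k : ℕ) (c : Finset (Fin N) → Fin q) : Prop :=
  ∀ x : Fin (k + 1) → Fin N, StrictMono x → ∀ col : Fin q,
    c ((Finset.univ.filter (fun i : Fin (k + 1) => i.val < k)).image x) = col →
    c ((Finset.univ.filter (fun i : Fin (k + 1) => 1 ≤ i.val)).image x) = col →
    ∀ S ⊆ Finset.univ.image x, S.card = k → c S = col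

/-- `N_k(q,n)` -/
noncomputable def Nall (k q n : ℕ) : ℕ :=
  sInf {N | ∀ c : Finset (Fin N) → Fin q, HasPath k n c}

/-- `N'_k(q,n)` -/
noncomputable def Ntr (k q n : ℕ) : ℕ :=
  sInf {N | ∀ c : Finset (Fin N) → Fin q, IsTransitive k c → HasPath k n c}

end Pool.Agent.H9.TransDefs
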