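import Pool.Agent.H9.TriErg

set_option autoImplicit false

namespace Pool.Agent.H9.Kempe

open Finset

def s2 (a b : Fin 4) : ZMod 4 := if a < b then 1 else if b < a then -1 else 0
def eps (d p q r : Fin 4) : ZMod 4 := s2 d p * s2 d q * s2 d r * s2 p q * s2 p r * s2 q r

def deg (n : ℕ) [NeZero n] (d : Fin 4) (f : ZMod n × ZMod n → Fin 4) : ZMod 4 :=
  ∑ x, (eps d (f x) (f (x + (1, 0))) (f (x + (0, 1))) +
    eps d (f (x + (1, 0))) (f (x + (1, 0) + (0, 1))) (f (x + (0, 1))))

def PrT (n : ℕ) (f : ZMod n × ZMod n → Fin 4) : Prop :=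
  ∀ x, f x ≠ f (x + (1, 0)) ∧ f x ≠ f (x + (0, 1)) ∧ f (x + (1, 0)) ≠ f (x + (0, 1))

theorem adj3 (n : ℕ) (hn : (1 : ZMod n) ≠ 0) (x : ZMod n × ZMod n) : (tri n).Adj x (x + (1, 0)) ∧
    (tri n).Adj x (x + (0, 1)) ∧ (tri n).Adj (x + (1, 0)) (x + (0, 1)) := by
  simp only [tri, SimpleGraph.fromRel_adj]
  refine ⟨⟨?_, by simp⟩, ⟨?_, by simp⟩, ?_, Or.inr (Or.inr (Or.inr ?_))⟩
  · simp [Prod.ext_iff, hn]
  · simp [Prod.ext_iff, hn]
  · simp [Prod.ext_iff, hn]
  · simp [Prod.ext_iff]

theorem proper_of_PrT {n : ℕ} {f : ZMod n × ZMod n → Fin 4} (h : PrT n f) :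
    ∀ u v, (tri n).Adj u v → f u ≠ f v := by
  have key : ∀ u v : ZMod n × ZMod n, v = u + (1, 0) ∨ v = u + (0, 1) ∨ v = u + (1, -1) →
      f u ≠ f v := by
    rintro u v (rfl | rfl | rfl)
    · exact (h u).1
    · exact (h u).2.1
    · have := (h (u + (0, -1))).2.2
      simpa [add_assoc, eq_comm, show ((0, 0) : ZMod n × ZMod n) = 0 from rfl] using this
  intro u v huv
  rw [tri, SimpleGraph.fromRel_adj] at huv
  exact huv.2.elim (key u v) fun h => (key v u h).symm

theorem epsA : ∀ d c p q r : Fin 4, p ≠ q → p ≠ r → q ≠ r →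
    eps d p q r = eps c p q r + (eps d p q c + eps d q r c + eps d r p c) := by decide +kernel

theorem eps_anti : ∀ d c p q : Fin 4, eps d p q c = -eps d q p c := by decide +kernel

theorem sh {n : ℕ} [NeZero n] (e : ZMod n × ZMod n) (F : ZMod n × ZMod n → ZMod 4) :
    ∑ x, F (x + e) = ∑ x, F x := Equiv.sum_comp (Equiv.addRight e) F

theorem PrT.down {n : ℕ} {f : ZMod n × ZMod n → Fin 4} (h : PrT n f) (x : ZMod n × ZMod n) :
    f (x + (1, 0)) ≠ f (x + (1, 0) + (0, 1)) ∧ f (x + (1, 0) + (0, 1)) ≠ f (x + (0, 1)) :=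
  ⟨(h _).2.1, by rw [add_right_comm]; exact (h _).1.symm⟩

theorem degA {n : ℕ} [NeZero n] {f : ZMod n × ZMod n → Fin 4} (h : PrT n f) (d c : Fin 4) :
    deg n d f = deg n c f := by
  have e1 := sh (0, 1) fun x => eps d (f (x + (1, 0))) (f x) c
  have e2 := sh (1, 0) fun x => eps d (f x) (f (x + (0, 1))) c
  have : ∀ x, eps d (f x) (f (x + (1, 0))) (f (x + (0, 1))) +
      eps d (f (x + (1, 0))) (f (x + (1, 0) + (0, 1))) (f (x + (0, 1))) =
      (eps c (f x) (f (x + (1, 0))) (f (x + (0, 1))) +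
      eps c (f (x + (1, 0))) (f (x + (1, 0) + (0, 1))) (f (x + (0, 1)))) +
      (eps d (f (x + (0, 1) + (1, 0))) (f (x + (0, 1))) c - eps d (f (x + (1, 0))) (f x) c) +
      (eps d (f (x + (1, 0))) (f (x + (1, 0) + (0, 1))) c - eps d (f x) (f (x + (0, 1))) c) := by
    intro x
    rw [epsA d c _ _ _ (h x).1 (h x).2.1 (h x).2.2,
      epsA d c _ _ _ (h.down x).1 (h x).2.2 (h.down x).2, add_right_comm x (0, 1) (1, 0),
      eps_anti d c (f x) (f (x + (1, 0))), eps_anti d c (f (x + (0, 1))) (f x),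
      eps_anti d c (f (x + (0, 1))) (f (x + (1, 0)))]
    ring
  unfold deg
  simp only [this, sum_add_distrib, sum_sub_distrib, e1, e2]
  ring

def hk (a d p : Fin 4) (s : Bool) (q r : Fin 4) : ZMod 4 :=
  if s = true ∧ p = a ∧ q ≠ d ∧ r ≠ d then 2 else 0

theorem epsB : ∀ a b : Fin 4, a ≠ b → ∀ d, d ≠ a → d ≠ b → ∀ p q, p ≠ q → ∀ r, p ≠ r → q ≠ r →
    ∀ sp sq sr : Bool, ((p = a ∨ p = b) → (q = a ∨ q = b) → sp = sq) →
    ((p = a ∨ p = b) → (r = a ∨ r = b) → sp = sr) → ((q = a ∨ q = b) → (r = a ∨ r = b) → sq = sr) →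
    eps d (if sp then Equiv.swap a b p else p) (if sq then Equiv.swap a b q else q)
      (if sr then Equiv.swap a b r else r) =
      eps d p q r + (hk a d p sp q r + hk a d q sq r p + hk a d r sr p q) := by decide +kernel

theorem link (a d p : Fin 4) (s : Bool) (l0 l1 l2 l3 l4 l5 : Fin 4) (h0 : l0 ≠ l1) (h1 : l1 ≠ l2)
    (h2 : l2 ≠ l3) (h3 : l3 ≠ l4) (h4 : l4 ≠ l5) (h5 : l5 ≠ l0) :
    hk a d p s l0 l1 + hk a d p s l1 l2 + hk a d p s l2 l3 + hk a d p s l3 l4 + hk a d p s l4 l5 +
      hk a d p s l5 l0 = 0 := by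
  have e : ∀ q r, q ≠ r → hk a d p s q r = if s = true ∧ p = a then
      2 + 2 * (if q = d then 1 else 0) + 2 * (if r = d then 1 else 0) else 0 := by
    revert a d p s; decide +kernel
  rw [e _ _ h0, e _ _ h1, e _ _ h2, e _ _ h3, e _ _ h4, e _ _ h5]
  by_cases c : s = true ∧ p = a
  · simp only [if_pos c]
    have h4 : (4 : ZMod 4) = 0 := rfl
    linear_combination (3 + (if l0 = d then 1 else 0) + (if l1 = d then 1 else 0) +
      (if l2 = d then 1 else 0) + (if l3 = d then 1 else 0) + (if l4 = d then 1 else 0) +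
      (if l5 = d then 1 else 0)) * h4
  · simp [if_neg c]

theorem degB {n : ℕ} [NeZero n] (hn : (1 : ZMod n) ≠ 0) {f f' : ZMod n × ZMod n → Fin 4}
    (h : PrT n f) {a b d : Fin 4} (hab : a ≠ b) (ha : d ≠ a) (hb : d ≠ b)
    (hT : T (tri n) f f' a b) : deg n d f' = deg n d f := by
  let s : ZMod n × ZMod n → Bool := fun v => decide (f' v ≠ f v)
  have e : ∀ v, f' v = if s v then Equiv.swap a b (f v) else f v := fun v => by
    by_cases r : f' v = f v
    · rw [if_neg (by simpa [s] using r), r]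
    · rw [if_pos (by simpa [s] using r), (hT.1 v).resolve_left r]
  have hs : ∀ u v, (tri n).Adj u v → (f u = a ∨ f u = b) → (f v = a ∨ f v = b) → s u = s v :=
    fun u v huv hu hv => decide_eq_decide.2 ⟨hT.2 u v huv hu hv, hT.2 v u huv.symm hv hu⟩
  have key : ∀ u v w, (tri n).Adj u v → (tri n).Adj u w → (tri n).Adj v w →
      eps d (f' u) (f' v) (f' w) = eps d (f u) (f v) (f w) + (hk a d (f u) (s u) (f v) (f w) +
        hk a d (f v) (s v) (f w) (f u) + hk a d (f w) (s w) (f u) (f v)) := by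
    intro u v w h1 h2 h3
    rw [e u, e v, e w]
    exact epsB a b hab d ha hb _ _ (proper_of_PrT h _ _ h1) _ (proper_of_PrT h _ _ h2)
      (proper_of_PrT h _ _ h3) _ _ _ (hs _ _ h1) (hs _ _ h2) (hs _ _ h3)
  have k1 := fun x => key x (x + (1, 0)) (x + (0, 1)) (adj3 n hn x).1 (adj3 n hn x).2.1
    (adj3 n hn x).2.2
  have k2 := fun x => key (x + (1, 0)) (x + (1, 0) + (0, 1)) (x + (0, 1)) (adj3 n hn _).2.1
    (adj3 n hn x).2.2 (by rw [add_right_comm]; exact (adj3 n hn _).1.symm)
  let A : ZMod n × ZMod n := (1, 0)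
  let B : ZMod n × ZMod n := (0, 1)
  have t2 := sh A fun v => hk a d (f v) (s v) (f (v + B)) (f (v - A + B))
  have t3 := sh A fun v => hk a d (f v) (s v) (f (v - A + B)) (f (v - A))
  have t4 := sh (A + B) fun v => hk a d (f v) (s v) (f (v - A)) (f (v - B))
  have t5 := sh B fun v => hk a d (f v) (s v) (f (v - B)) (f (v - B + A))
  have t6 := sh B fun v => hk a d (f v) (s v) (f (v - B + A)) (f (v + A))
  have z : ∑ v, (hk a d (f v) (s v) (f (v + A)) (f (v + B)) +
      hk a d (f v) (s v) (f (v + B)) (f (v - A + B)) +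
      hk a d (f v) (s v) (f (v - A + B)) (f (v - A)) + hk a d (f v) (s v) (f (v - A)) (f (v - B)) +
      hk a d (f v) (s v) (f (v - B)) (f (v - B + A)) +
      hk a d (f v) (s v) (f (v - B + A)) (f (v + A))) = 0 := by
    refine sum_eq_zero fun v _ => link _ _ _ _ _ _ _ _ _ _ (h v).2.2 ?_ (h _).2.1.symm ?_ (h _).1 ?_
    · have := (h (v - A + B)).1.symm
      rwa [show v - A + B + (1, 0) = v + B from by show v - A + B + A = v + B; abel] at this
    · have := (h (v - A - B)).2.2.symm
      rwa [show v - A - B + (1, 0) = v - B from by show v - A - B + A = v - B; abel,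
        show v - A - B + (0, 1) = v - A from by show v - A - B + B = v - A; abel] at this
    · have := (h (v - B + A)).2.1
      rwa [show v - B + A + (0, 1) = v + A from by show v - B + A + B = v + A; abel] at this
  simp only [sum_add_distrib] at z
  rw [← t2, ← t3, ← t4, ← t5, ← t6] at z
  simp only [add_sub_cancel_right, show ∀ x, x + A + B - A = x + B from fun x => by abel,
    show ∀ x, x + B + A = x + A + B from fun x => by abel, ← add_assoc] at z
  unfold deg
  simp only [k1, k2, sum_add_distrib]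
  linear_combination z

theorem deg_equiv {n : ℕ} [NeZero n] (hn : (1 : ZMod n) ≠ 0) {f f' : ZMod n × ZMod n → Fin 4}
    (h : PrT n f) (hE : KempeEquiv (tri n) f f') : deg n 3 f' = deg n 3 f := by
  have P : ∀ g, KempeEquiv (tri n) f g → PrT n g := fun g hg x =>
    have := equiv_proper hg (proper_of_PrT h)
    ⟨this _ _ (adj3 n hn x).1, this _ _ (adj3 n hn x).2.1, this _ _ (adj3 n hn x).2.2⟩
  induction hE with
  | refl => rfl
  | tail h1 h2 ih =>
    obtain ⟨a, b, hab, hT⟩ := T_of_change h2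
    obtain ⟨d, ha, hb⟩ : ∃ d : Fin 4, d ≠ a ∧ d ≠ b := by clear hT; revert a b; decide
    rw [degA (P _ (h1.tail h2)) 3 d, degB hn (P _ h1) hab ha hb hT, degA (P _ h1) d 3, ih]

theorem not_erg {n : ℕ} [NeZero n] (hn : (1 : ZMod n) ≠ 0) {f f' : ZMod n × ZMod n → Fin 4}
    (h : PrT n f) (h' : PrT n f') (hd : deg n 3 f' ≠ deg n 3 f) :
    ¬ ∀ c c' : (tri n).Coloring (Fin 4), KempeEquiv (tri n) c c' := fun H =>
  hd (deg_equiv hn h (H (.mk f fun {u v} => proper_of_PrT h u v)
    (.mk f' fun {u v} => proper_of_PrT h' u v)))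

def tb (w i j : ℕ) : Fin 4 := ⟨w / 4 ^ (16 * j + i) % 4, Nat.mod_lt _ (by decide)⟩
def fold (l i : ℕ) : ℕ := if i < l + 3 then i else l + (i - l) % 3
def BB (l : ℕ) (φ : ℕ → ℕ → ZMod 4) : ZMod 4 := ∑ i ∈ range (l + 2), φ i (i + 1) + φ (l + 2) 0
def XX (l : ℕ) (φ : ℕ → ℕ → ZMod 4) : ZMod 4 := φ (l + 2) l + φ l (l + 1) + φ (l + 1) (l + 2)

theorem sum_fold (l k : ℕ) (φ : ℕ → ℕ → ZMod 4) :
    ∑ x : ZMod (l + 3 * k + 3), φ (fold l x.val) (fold l (x + 1).val) = BB l φ + k * XX l φ := by
  have h1 : ∀ k : ℕ, ∑ i ∈ range (l + 3 * k + 2), φ (fold l i) (fold l (i + 1)) =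
      ∑ i ∈ range (l + 2), φ i (i + 1) + k * XX l φ := by
    intro k
    induction k with
    | zero =>
      simp only [mul_zero, add_zero, Nat.cast_zero, zero_mul]
      refine sum_congr rfl fun i hi => ?_
      have := mem_range.1 hi
      rw [fold, fold, if_pos (by omega), if_pos (by omega)]
    | succ k ih =>
      rw [show l + 3 * (k + 1) + 2 = l + 3 * k + 2 + 1 + 1 + 1 by ring, sum_range_succ,
        sum_range_succ, sum_range_succ, ih]
      rw [show fold l (l + 3 * k + 2) = l + 2 by unfold fold; split_ifs <;> omega,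
        show fold l (l + 3 * k + 2 + 1) = l by unfold fold; split_ifs <;> omega,
        show fold l (l + 3 * k + 2 + 1 + 1) = l + 1 by unfold fold; split_ifs <;> omega,
        show fold l (l + 3 * k + 2 + 1 + 1 + 1) = l + 2 by unfold fold; split_ifs <;> omega]
      unfold XX
      push_cast
      ring
  simp only [val_succ]
  have := Fin.sum_univ_eq_sum_range
    (fun i => φ (fold l i) (fold l (nx (l + 3 * k + 3) i))) (l + 3 * k + 3)
  refine this.trans ?_
  rw [sum_range_succ, sum_congr rfl fun i hi => by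
    rw [show nx (l + 3 * k + 3) i = i + 1 from if_neg (by have := mem_range.1 hi; omega)], h1,
    show nx (l + 3 * k + 3) (l + 3 * k + 2) = 0 from if_pos rfl,
    show fold l (l + 3 * k + 2) = l + 2 by unfold fold; split_ifs <;> omega,
    show fold l 0 = 0 from if_pos (by omega), BB]
  ring

def ext (l k w : ℕ) (x : ZMod (l + 3 * k + 3) × ZMod (l + 3 * k + 3)) : Fin 4 :=
  tb w (fold l x.1.val) (fold l x.2.val)

def RR (l i i' : ℕ) : Prop := i' = i + 1 ∨ (i = l + 2 ∧ (i' = 0 ∨ i' = l))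

instance (l i i' : ℕ) : Decidable (RR l i i') := by unfold RR; infer_instance

def OK (l w : ℕ) : Prop := ∀ i < l + 3, ∀ i' < l + 3, RR l i i' → ∀ j < l + 3, ∀ j' < l + 3,
  RR l j j' → tb w i j ≠ tb w i' j ∧ tb w i j ≠ tb w i j' ∧ tb w i' j ≠ tb w i j'

set_option synthInstance.maxSize 2000 in
instance (l w : ℕ) : Decidable (OK l w) := by unfold OK; infer_instance

theorem ext_proper (l k w : ℕ) (h : OK l w) : PrT _ (ext l k w) := by
  have h1 : ∀ i, fold l i < l + 3 := fun i => by unfold fold; split_ifs <;> omega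
  have h2 : ∀ x : ZMod (l + 3 * k + 3), RR l (fold l x.val) (fold l (x + 1).val) := fun x => by
    have := ZMod.val_lt x
    rw [val_succ]
    unfold RR fold nx
    split_ifs <;> omega
  rintro ⟨x, y⟩
  simpa [ext] using h _ (h1 _) _ (h1 _) (h2 x) _ (h1 _) _ (h1 _) (h2 y)

def sqw (w i i' j j' : ℕ) : ZMod 4 :=
  eps 3 (tb w i j) (tb w i' j) (tb w i j') + eps 3 (tb w i' j) (tb w i' j') (tb w i j')

def DD (l w : ℕ) (κ : ZMod 4) : ZMod 4 :=
  BB l (fun i i' => BB l (sqw w i i') + κ * XX l (sqw w i i')) +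
    κ * XX l (fun i i' => BB l (sqw w i i') + κ * XX l (sqw w i i'))

theorem ext_deg (l k w : ℕ) : deg _ 3 (ext l k w) = DD l w k := by
  unfold deg DD
  rw [Fintype.sum_prod_type, ← sum_fold l k]
  refine sum_congr rfl fun x _ => ?_
  rw [← sum_fold l k]
  refine sum_congr rfl fun y _ => ?_
  simp [ext, sqw]

theorem ext_not (l k w w' : ℕ) (h : OK l w) (h' : OK l w') (hd : ∀ κ, DD l w' κ ≠ DD l w κ) :
    ¬ ∀ c c' : (tri (l + 3 * k + 3)).Coloring (Fin 4), KempeEquiv (tri (l + 3 * k + 3)) c c' := by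
  have : Fact (1 < l + 3 * k + 3) := ⟨by omega⟩
  exact not_erg one_ne_zero (ext_proper l k w h) (ext_proper l k w' h')
    (by rw [ext_deg, ext_deg]; exact hd _)

theorem erg_of (n w : ℕ) [NeZero n] (h : Good (GG n) (dec (n * n) w) 0)
    (hs : ∀ x, ∃ i, ee n i = x) (c c' : (tri n).Coloring (Fin 4)) : KempeEquiv (tri n) c c' := by
  choose ψ hψ using hs
  have h1 := all_of_good h (c ∘ ee n) fun u v huv => c.valid huv
  have h2 := all_of_good h (c' ∘ ee n) fun u v huv => c'.valid huv
  have := equiv_comp (H := tri n) ψ (fun u v huv => show (tri n).Adj _ _ by rwa [hψ, hψ])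
    (h1.trans (equiv_symm h2))
  have e : ∀ c : ZMod n × ZMod n → Fin 4, (c ∘ ee n) ∘ ψ = c := fun c => funext fun x => by
    simp [hψ]
  rwa [e, e] at this

theorem tri_main (n : ℕ) (hn : 3 ≤ n) :
    (∀ c c' : (tri n).Coloring (Fin 4), KempeEquiv (tri n) c c') ↔
      n = 3 ∨ n = 4 ∨ n = 5 ∨ n = 7 := by
  constructor
  · intro h
    by_contra hne
    by_cases h6 : n = 6
    · subst h6
      exact not_erg (f := fun x => tb 2662855984078500070260419438491611037401358264176225 x.1.val x.2.val)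
        (f' := fun x => tb 1294890451209763584031455239904206301741947079886371 x.1.val x.2.val) (by decide)
        (by unfold PrT; decide +kernel) (by unfold PrT; decide +kernel) (by decide +kernel) h
    obtain ⟨k, hk | hk | hk⟩ : ∃ k, n = 5 + 3 * k + 3 ∨ n = 6 + 3 * k + 3 ∨ n = 7 + 3 * k + 3 :=
      ⟨(n - 8) / 3, by omega⟩ <;> subst hk
    · exact ext_not 5 k 1558311877501522285739616793992983347434265685309618075530608798855104295 1499134794660222327185469241328110912193628509712427686497648566499044571 (by decide +kernel) (by decide +kernel) (by decide +kernel) h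
    · exact ext_not 6 k 8740681652234230365394146859221837236658812463652162053747835366875601390006230113
        15941907472675545919467040738675514214771023222909505973275092662361735138597987110 (by decide +kernel) (by decide +kernel) (by decide +kernel) h
    · exact ext_not 7 k 149164147664415200633332989855961708223022512365695209395848998419780959964623084344282631481
        372580643689040731196621443242247405759868370696538839027977099594875112004939151175288926498 (by decide +kernel) (by decide +kernel) (by decide +kernel) h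
  · rintro (rfl | rfl | rfl | rfl)
    · exact erg_of 3 _ good3 (by decide +kernel)
    · exact erg_of 4 _ good4 (by decide +kernel)
    · exact erg_of 5 _ good5 (by decide +kernel)
    · exact erg_of 7 _ good7 (by decide +kernel)

end Pool.Agent.H9.Kempe
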