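import Pool.Agent.H9.KempeDefs

set_option autoImplicit false

namespace Pool.Agent.H9.Kempe

/-- The periodic triangular lattice on `(ZMod n)²`: `x` is joined to `x ± e₁`, `x ± e₂`,
`x ± (e₁ - e₂)`. -/
def tri (n : ℕ) : SimpleGraph (ZMod n × ZMod n) :=
  SimpleGraph.fromRel fun x y => y = x + (1, 0) ∨ y = x + (0, 1) ∨ y = x + (1, -1)

end Pool.Agent.H9.Kempe
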