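import Pool.Agent.H9.FC

set_option autoImplicit false

namespace Pool.Agent.H9.Uni

def upL : List ℕ := [103489, 78018, 29060, 58120, 117776, 117280, 69696, 12416, 24832, 49664,
  99328, 116736, 4096, 8192, 16384, 32768, 65536]

def dnL : List ℕ := [1, 2, 4, 8, 16, 32, 67, 134, 268, 552, 1041, 2096, 4295, 8590, 19260, 36409,
  68723]

def X : Type := Fin 17

instance : Fintype X := inferInstanceAs (Fintype (Fin 17))
instance : DecidableEq X := inferInstanceAs (DecidableEq (Fin 17))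

def vl (x : X) : ℕ := Fin.val x

def mk' (i : Fin 17) : X := i

instance : PartialOrder X where
  le a b := (upL.getD (vl a) 0).testBit (vl b) = true
  le_refl := by decide +kernel
  le_trans := by decide +kernel
  le_antisymm := by decide +kernel

instance : DecidableLE X := fun a b =>
  inferInstanceAs (Decidable ((upL.getD (vl a) 0).testBit (vl b) = true))

instance : TopologicalSpace X := Topology.upperSet X

instance : Topology.IsUpperSet X := ⟨rfl⟩

def PP (v y i : ℕ) : ℕ :=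
  (bif (upL.getD v 0).testBit i then upL.getD y 0 else 131071) &&&
    (bif (dnL.getD v 0).testBit i then dnL.getD y 0 else 131071)

def D0 : List ℕ := (List.range 17).map fun i => 131071 ^^^ (upL.getD i 0 ||| dnL.getD i 0)

theorem fc0 : fc PP 17 17 17 D0 0 = true := by decide +kernel

theorem hPP : ∀ a b c d : X, (a ≤ c → b ≤ d) → (c ≤ a → d ≤ b) →
    (PP (vl a) (vl b) (vl c)).testBit (vl d) = true := by
  have h1 : ∀ a b : X, (dnL.getD (vl a) 0).testBit (vl b) = (upL.getD (vl b) 0).testBit (vl a) := by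
    decide +kernel
  have h2 : ∀ a : X, Nat.testBit 131071 (vl a) = true := by decide +kernel
  intro a b c d e1 e2
  rw [PP, Nat.testBit_and, Bool.and_eq_true]
  constructor
  · cases h : (upL.getD (vl a) 0).testBit (vl c)
    · exact h2 d
    · exact e1 h
  · cases h : (dnL.getD (vl a) 0).testBit (vl c)
    · exact h2 d
    · rw [h1] at h
      exact (h1 b d).trans (e2 h)

theorem hD0 : ∀ a b : X, ¬ a ≤ b → ¬ b ≤ a → (D0.getD (vl a) 0).testBit (vl b) = true := by
  decide +kernel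

theorem fpp (f : X →o X) : ∃ x, f x = x := by
  by_contra h
  push Not at h
  have h1 : ∀ x, ¬ x ≤ f x := by
    intro x hx
    obtain ⟨m, hm⟩ := (Set.toFinite {y | y ≤ f y}).exists_maximal ⟨x, hx⟩
    exact h m (le_antisymm (hm.2 (f.mono hm.1) hm.1) hm.1)
  have h2 : ∀ x, ¬ f x ≤ x := by
    intro x hx
    obtain ⟨m, hm⟩ := (Set.toFinite {y | f y ≤ y}).exists_minimal ⟨x, hx⟩
    exact h m (le_antisymm hm.1 (hm.2 (f.mono hm.1) hm.1))
  refine fc_sound PP 17 17 (fun i => if hi : i < 17 then vl (f (mk' ⟨i, hi⟩)) else 0) ?_ ?_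
    17 D0 0 (by simp [D0]) ?_ fc0
  · intro i hi
    simp only [hi, dite_true]
    exact Fin.isLt _
  · intro v hv i hi
    simp only [hi, hv, dite_true]
    exact hPP (mk' ⟨v, hv⟩) _ (mk' ⟨i, hi⟩) _ (fun e => f.mono e) (fun e => f.mono e)
  · intro i hi
    simp only [hi, dite_true]
    exact hD0 (mk' ⟨i, hi⟩) _ (h1 _) (h2 _)

def S (m : ℕ) : Set X := {x | m.testBit (vl x) = true}

instance (m : ℕ) : DecidablePred (· ∈ S m) := fun x =>
  inferInstanceAs (Decidable (m.testBit (vl x) = true))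

theorem conn (m : ℕ) (r : X) (hr : r ∈ S m) (d : X → ℕ)
    (h : ∀ a ∈ S m, a = r ∨ ∃ b ∈ S m, (a ≤ b ∨ b ≤ a) ∧ d b < d a) : IsConnected (S m) := by
  refine ⟨⟨r, hr⟩, fun u v hu hv huv ⟨a, ha, hau⟩ ⟨b, hb, hbv⟩ => ?_⟩
  rw [Topology.IsUpperSet.isOpen_iff_isUpperSet] at hu hv
  by_contra hne
  have hd : ∀ x ∈ S m, x ∈ u → x ∈ v → False := fun x hx h1 h2 => hne ⟨x, hx, h1, h2⟩
  have hle : ∀ x ∈ S m, ∀ y ∈ S m, x ≤ y → (x ∈ u ↔ y ∈ u) := by
    intro x hx y hy hxy
    refine ⟨hu hxy, fun hyu => ?_⟩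
    by_contra hxu
    exact hd y hy hyu (hv hxy ((huv hx).resolve_left hxu))
  have key : ∀ k, ∀ x ∈ S m, d x = k → (x ∈ u ↔ r ∈ u) := by
    intro k
    induction k using Nat.strong_induction_on with
    | _ k ih =>
      intro x hx hk
      rcases h x hx with rfl | ⟨y, hy, hc, hlt⟩
      · rfl
      · refine Iff.trans ?_ (ih (d y) (hk ▸ hlt) y hy rfl)
        rcases hc with hc | hc
        · exact hle x hx y hy hc
        · exact (hle y hy x hx hc).symm
  exact hd b hb ((key _ b hb rfl).2 ((key _ a ha rfl).1 hau)) hbv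

theorem closedS (m : ℕ) (h : ∀ a b : X, b ≤ a → a ∈ S m → b ∈ S m) : IsClosed (S m) :=
  Topology.IsUpperSet.isClosed_iff_isLower.2 fun a b => h a b

theorem openS (m : ℕ) (h : ∀ a b : X, a ≤ b → a ∈ S m → b ∈ S m) : IsOpen (S m) :=
  Topology.IsUpperSet.isOpen_iff_isUpperSet.2 fun a b => h a b

theorem connA : IsConnected (S 118655) :=
  conn _ (mk' 16) (by decide +kernel)
    (fun x => [1, 1, 3, 3, 1, 1, 1, 0, 3, 3, 1, 1, 0, 0, 2, 2, 0].getD (vl x) 0) (by decide +kernel)

theorem connB : IsConnected (S 12751) :=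
  conn _ (mk' 7) (by decide +kernel)
    (fun x => [2, 1, 1, 2, 0, 0, 2, 0, 2, 0, 0, 0, 1, 1, 0, 0, 0].getD (vl x) 0) (by decide +kernel)

theorem cover : S 118655 ∪ S 12751 = Set.univ := by
  have : ∀ x : X, x ∈ S 118655 ∨ x ∈ S 12751 := by decide +kernel
  exact Set.eq_univ_of_forall this

theorem notconn : ¬ IsConnected (S 118655 ∩ S 12751) := by
  rintro ⟨-, h⟩
  have c1 : ∀ x : X, x ∈ S 118655 → x ∈ S 12751 → x ∈ S 111811 ∨ x ∈ S 62348 := by decide +kernel
  have c2 : ∀ x : X, x ∈ S 118655 → x ∈ S 12751 → x ∈ S 111811 → x ∈ S 62348 → False := by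
    decide +kernel
  obtain ⟨x, ⟨h1, h2⟩, h3, h4⟩ := h (S 111811) (S 62348) (openS _ (by decide +kernel))
    (openS _ (by decide +kernel)) (fun x hx => c1 x hx.1 hx.2)
    ⟨mk' 0, ⟨by decide +kernel, by decide +kernel⟩, by decide +kernel⟩
    ⟨mk' 2, ⟨by decide +kernel, by decide +kernel⟩, by decide +kernel⟩
  exact c2 x h1 h2 h3 h4

end Pool.Agent.H9.Uni
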