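import Mathlib

namespace Pool.Agent.H9.VR

open Finset

def Good {ι : Type} [Fintype ι] (r : ℕ) (A : Finset (ι → Bool)) : Prop :=
  (∀ x ∈ A, ∀ y ∈ A, hammingDist x y ≤ r) ∧ (∀ x ∈ A, ∃ y ∈ A, hammingDist x y = r) ∧
    ∀ x, x ∉ A → ∃ y ∈ A, r < hammingDist x y

variable {ι κ : Type} [Fintype ι] [Fintype κ] [DecidableEq ι] [DecidableEq κ]

omit [DecidableEq ι] [DecidableEq κ] in
theorem hd_sum (x y : ι ⊕ κ → Bool) : hammingDist x y =
    hammingDist (x ∘ Sum.inl) (y ∘ Sum.inl) + hammingDist (x ∘ Sum.inr) (y ∘ Sum.inr) := by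
  simp only [hammingDist, card_filter, Fintype.sum_sum_type]
  rfl

omit [DecidableEq ι] [DecidableEq κ] in
theorem hd_equiv (e : κ ≃ ι) (x y : ι → Bool) : hammingDist (x ∘ e) (y ∘ e) = hammingDist x y := by
  simp only [hammingDist, card_filter]
  exact e.sum_comp fun i => if x i ≠ y i then 1 else 0

omit [DecidableEq ι] [DecidableEq κ] in
theorem transport (e : κ ≃ ι) {r : ℕ} {A : Finset (ι → Bool)} (h : Good r A) :
    ∃ B : Finset (κ → Bool), Good r B ∧ B.card = A.card := by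
  have inj : Function.Injective fun x : ι → Bool => x ∘ e := e.surjective.injective_comp_right
  refine ⟨A.image fun x => x ∘ e, ⟨?_, ?_, fun x hx => ?_⟩, card_image_of_injective _ inj⟩
  · simp only [forall_mem_image, hd_equiv]; exact fun x hx y hy => h.1 x hx y hy
  · simp only [forall_mem_image]
    intro x hx
    obtain ⟨y, h1, h2⟩ := h.2.1 x hx
    exact ⟨_, mem_image_of_mem _ h1, by rw [hd_equiv, h2]⟩
  · have e1 : (x ∘ e.symm) ∘ e = x := by ext i; simp
    obtain ⟨y, h1, h2⟩ := h.2.2 (x ∘ e.symm) fun q => hx (mem_image.2 ⟨_, q, e1⟩)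
    exact ⟨_, mem_image_of_mem _ h1, by rw [← e1, hd_equiv]; exact h2⟩

def glue (F : (κ → Bool) → Finset (ι → Bool)) : Finset (ι ⊕ κ → Bool) :=
  univ.filter fun x => x ∘ Sum.inl ∈ F (x ∘ Sum.inr)

theorem mem_glue {F : (κ → Bool) → Finset (ι → Bool)} {x : ι ⊕ κ → Bool} :
    x ∈ glue F ↔ x ∘ Sum.inl ∈ F (x ∘ Sum.inr) := by simp [glue]

theorem card_glue (F : (κ → Bool) → Finset (ι → Bool)) : (glue F).card = ∑ y, (F y).card := by
  rw [← card_sigma]
  refine card_nbij' (fun x => ⟨x ∘ Sum.inr, x ∘ Sum.inl⟩) (fun p => Sum.elim p.2 p.1)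
    (fun x hx => by simpa using mem_glue.1 hx) (fun p hp => mem_glue.2 (by simpa using hp))
    (fun x _ => by ext (i | i) <;> rfl) fun p _ => rfl

omit [DecidableEq κ] in
theorem hd_not (y : κ → Bool) : hammingDist y (fun i => !y i) = Fintype.card κ := by
  simp [hammingDist]

omit [DecidableEq κ] in
theorem hd_lt {y z : κ → Bool} (h : z ≠ fun i => !y i) : hammingDist y z < Fintype.card κ := by
  obtain ⟨i, hi⟩ := Function.ne_iff.1 h
  refine card_lt_card (filter_ssubset.2 ⟨i, mem_univ _, ?_⟩)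
  cases a : y i <;> cases b : z i <;> simp_all

theorem twist {ρ : ℕ} (F : (κ → Bool) → Finset (ι → Bool)) (h1 : ∀ y, F (fun i => !y i) = F y)
    (h2 : ∀ y, Good ρ (F y)) (h3 : ∀ y z, ∀ a ∈ F y, ∀ b ∈ F z, hammingDist a b ≤ ρ + 1) :
    Good (ρ + Fintype.card κ) (glue F) := by
  refine ⟨fun x hx z hz => ?_, fun x hx => ?_, fun x hx => ?_⟩
  · rw [hd_sum]
    rw [mem_glue] at hx hz
    by_cases q : z ∘ Sum.inr = fun i => !(x ∘ Sum.inr) i
    · rw [q, h1] at hz
      exact add_le_add ((h2 _).1 _ hx _ hz) hammingDist_le_card_fintype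
    · have := hd_lt q
      have := h3 _ _ _ hx _ hz
      omega
  · obtain ⟨b, p1, p2⟩ := (h2 _).2.1 _ (mem_glue.1 hx)
    refine ⟨Sum.elim b fun i => !(x ∘ Sum.inr) i, mem_glue.2 (by rw [← h1] at p1; exact p1), ?_⟩
    rw [hd_sum, Sum.elim_comp_inl, Sum.elim_comp_inr, p2, hd_not]
  · obtain ⟨b, p1, p2⟩ := (h2 _).2.2 _ fun q => hx (mem_glue.2 q)
    refine ⟨Sum.elim b fun i => !(x ∘ Sum.inr) i, mem_glue.2 (by rw [← h1] at p1; exact p1), ?_⟩
    rw [hd_sum, Sum.elim_comp_inl, Sum.elim_comp_inr, hd_not]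
    omega

theorem pad {r : ℕ} {A : Finset (ι → Bool)} (h : Good r A) :
    ∃ B : Finset (ι ⊕ κ → Bool), Good r B ∧ B.card = A.card := by
  let q : κ → Bool := fun _ => true
  have m : ∀ x : ι ⊕ κ → Bool, x ∈ glue (fun y => if y = q then A else ∅) ↔
      x ∘ Sum.inr = q ∧ x ∘ Sum.inl ∈ A := fun x => by
    rw [mem_glue]; split_ifs with c <;> simp [c]
  refine ⟨glue fun y => if y = q then A else ∅, ⟨fun x hx z hz => ?_, fun x hx => ?_,
    fun x hx => ?_⟩, by simp [card_glue, apply_ite card]⟩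
  · rw [m] at hx hz
    rw [hd_sum, hx.1, hz.1, hammingDist_self]
    exact h.1 _ hx.2 _ hz.2
  · rw [m] at hx
    obtain ⟨b, p1, p2⟩ := h.2.1 _ hx.2
    refine ⟨Sum.elim b q, (m _).2 ⟨rfl, p1⟩, ?_⟩
    rw [hd_sum, Sum.elim_comp_inl, Sum.elim_comp_inr, p2, hx.1, hammingDist_self, add_zero]
  · rw [m] at hx
    by_cases c : x ∘ Sum.inl ∈ A
    · obtain ⟨b, p1, p2⟩ := h.2.1 _ c
      refine ⟨Sum.elim b q, (m _).2 ⟨rfl, p1⟩, ?_⟩
      rw [hd_sum, Sum.elim_comp_inl, Sum.elim_comp_inr, p2]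
      have := hammingDist_pos.2 fun e => hx ⟨e, c⟩
      omega
    · obtain ⟨b, p1, p2⟩ := h.2.2 _ c
      refine ⟨Sum.elim b q, (m _).2 ⟨rfl, p1⟩, ?_⟩
      rw [hd_sum, Sum.elim_comp_inl]
      omega

theorem place {r n : ℕ} {A : Finset (ι → Bool)} (h : Good r A) (hn : Fintype.card ι ≤ n) :
    ∃ B : Finset (Fin n → Bool), Good r B ∧ B.card = A.card := by
  obtain ⟨B, h1, h2⟩ := pad (κ := Fin (n - Fintype.card ι)) h
  obtain ⟨C, h3, h4⟩ := transport (κ := Fin n) (Fintype.equivOfCardEq (by simp; omega)) h1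
  exact ⟨C, h3, h4.trans h2⟩

def bits (k : ℕ) (a : ℕ) : Fin k → Bool := fun i => a.testBit i

theorem bits_surj (k : ℕ) (x : Fin k → Bool) : ∃ a < 2 ^ k, bits k a = x :=
  ⟨Nat.ofBits x, Nat.ofBits_lt_two_pow x, funext fun i => Nat.testBit_ofBits_lt x i i.2⟩

theorem good_of (k r : ℕ) (L : List ℕ)
    (h1 : ∀ a ∈ L, ∀ b ∈ L, hammingDist (bits k a) (bits k b) ≤ r)
    (h2 : ∀ a ∈ L, ∃ b ∈ L, hammingDist (bits k a) (bits k b) = r)
    (h3 : ∀ a < 2 ^ k, a ∈ L ∨ ∃ b ∈ L, r < hammingDist (bits k a) (bits k b)) :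
    Good r (L.map (bits k)).toFinset := by
  refine ⟨?_, ?_, fun x hx => ?_⟩
  · simpa using h1
  · simpa using h2
  · obtain ⟨a, p, rfl⟩ := bits_surj k x
    rcases h3 a p with q | q
    · exact absurd (by simpa using ⟨a, q, rfl⟩) hx
    · simpa using q

def L0 : List ℕ := [0, 1, 2, 4, 8, 15, 3, 5, 6, 7, 9, 14, 10, 13, 20, 19]
def L1 : List ℕ := [0, 30, 25, 7, 45, 42, 51, 52]
def L8 : List ℕ := (List.range 256).filter fun a =>
  ((List.range 8).countP fun i => a.testBit i) ∈ [0, 5, 6]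

theorem g0 : Good 4 (L0.map (bits 6)).toFinset :=
  good_of _ _ _ (by decide +kernel) (by decide +kernel) (by decide +kernel)
theorem g1 : Good 4 (L1.map (bits 6)).toFinset :=
  good_of _ _ _ (by decide +kernel) (by decide +kernel) (by decide +kernel)
theorem g8 : Good 6 (L8.map (bits 8)).toFinset :=
  good_of _ _ _ (by decide +kernel) (by decide +kernel) (by decide +kernel)
theorem c0 : (L0.map (bits 6)).toFinset.card = 16 := by decide +kernel
theorem c1 : (L1.map (bits 6)).toFinset.card = 8 := by decide +kernel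
theorem c8 : (L8.map (bits 8)).toFinset.card = 85 := by decide +kernel
theorem x01 : ∀ a ∈ L0 ++ L1, ∀ b ∈ L0 ++ L1, hammingDist (bits 6 a) (bits 6 b) ≤ 5 := by
  decide +kernel

theorem big (m n : ℕ) (hn : m + 8 ≤ n) :
    ∃ B : Finset (Fin n → Bool), Good (6 + m) B ∧ B.card = 85 * 2 ^ m := by
  have := twist (κ := Fin m) (fun _ => (L8.map (bits 8)).toFinset) (fun _ => rfl) (fun _ => g8)
    fun _ _ a ha b hb => (g8.1 a ha b hb).trans (by omega)
  rw [Fintype.card_fin] at this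
  obtain ⟨B, h1, h2⟩ := place (n := n) this (by simp; omega)
  exact ⟨B, h1, by rw [h2, card_glue]; simp [c8, mul_comm]⟩

theorem many (m n t : ℕ) (hn : m + 7 ≤ n) (ht : t ≤ 2 ^ m) :
    ∃ B : Finset (Fin n → Bool), Good (5 + m) B ∧ B.card + 16 * t = 32 * 2 ^ m := by
  obtain ⟨U, -, hU⟩ := exists_subset_card_eq (s := (univ : Finset (Fin m → Bool))) (n := t)
    (by simpa using ht)
  let τ : (Fin (m + 1) → Bool) → Fin m → Bool := fun y i => xor (y 0) (y i.succ)
  let F : (Fin (m + 1) → Bool) → Finset (Fin 6 → Bool) := fun y =>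
    if τ y ∈ U then (L1.map (bits 6)).toFinset else (L0.map (bits 6)).toFinset
  have sub : ∀ y, ∀ a ∈ F y, ∃ b ∈ L0 ++ L1, bits 6 b = a := fun y a ha => by
    simp only [F] at ha
    split_ifs at ha <;> obtain ⟨b, p, q⟩ := List.mem_map.1 (List.mem_toFinset.1 ha)
    · exact ⟨b, List.mem_append_right _ p, q⟩
    · exact ⟨b, List.mem_append_left _ p, q⟩
  have := twist F (fun y => by simp [F, τ]) (fun y => by
    simp only [F]; split_ifs; exacts [g1, g0]) fun y z a ha b hb => by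
      obtain ⟨a, p, rfl⟩ := sub _ _ ha
      obtain ⟨b, q, rfl⟩ := sub _ _ hb
      exact x01 a p b q
  rw [Fintype.card_fin, show 4 + (m + 1) = 5 + m by omega] at this
  obtain ⟨B, h1, h2⟩ := place (n := n) this (by simp; omega)
  refine ⟨B, h1, ?_⟩
  rw [h2, card_glue, ← (Fin.consEquiv fun _ => Bool).sum_comp, Fintype.sum_prod_type]
  have e : ∀ b : Bool, ∑ y : Fin m → Bool, (F (Fin.consEquiv (fun _ => Bool) (b, y))).card +
      8 * t = 16 * 2 ^ m := fun b => by
    let c : (Fin m → Bool) ≃ (Fin m → Bool) :=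
      Function.Involutive.toPerm (fun y i => xor b (y i)) fun y => by ext i; simp
    have : ∀ y, (F (Fin.consEquiv (fun _ => Bool) (b, y))).card =
        if c y ∈ U then 8 else 16 := fun y => by
      simp only [F, apply_ite card, c0, c1]; rfl
    simp only [this]
    rw [c.sum_comp fun y => if y ∈ U then 8 else 16, ← hU, mul_comm 8, ← smul_eq_mul, ← sum_const,
      ← sum_ite_mem_eq U, ← sum_add_distrib, sum_congr rfl (g := fun _ => 16)
        fun y _ => by split_ifs <;> rfl]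
    simp [mul_comm]
  have a := e true
  have b := e false
  rw [Fintype.sum_bool]
  omega

end Pool.Agent.H9.VR
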