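import Mathlib

set_option autoImplicit false

namespace Pool.Agent.H9.Wade

open SimpleGraph

/-- branching upper bound for independent sets inside a list -/
def mx {V : Type} (A : V → V → Bool) : ℕ → List V → ℕ
  | 0, l => l.length
  | _ + 1, [] => 0
  | f + 1, v :: l => max (mx A f l) (mx A f (l.filter fun w => !A v w) + 1)

theorem mx_sound {V : Type} [DecidableEq V] (G : SimpleGraph V) (A : V → V → Bool)
    (hA : ∀ u v, A u v = true → G.Adj u v) : ∀ f l (S : Finset V), (∀ x ∈ S, x ∈ l) →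
      G.IsIndepSet S → S.card ≤ mx A f l
  | 0, l, S, h, _ => (Finset.card_le_card fun x hx => List.mem_toFinset.2 (h x hx)).trans
      l.toFinset_card_le
  | _ + 1, [], S, h, _ => by
    obtain rfl : S = ∅ := Finset.eq_empty_of_forall_notMem fun x hx => by simpa using h x hx
    simp
  | f + 1, v :: l, S, h, hS => by
    rw [mx]
    by_cases hv : v ∈ S
    · refine le_max_of_le_right ?_
      rw [← Finset.card_erase_add_one hv]
      refine Nat.succ_le_succ (mx_sound G A hA f _ _ (fun x hx => ?_)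
        (hS.mono (by simp)))
      obtain ⟨h1, h2⟩ := Finset.mem_erase.1 hx
      refine List.mem_filter.2 ⟨(List.mem_cons.1 (h x h2)).resolve_left h1, ?_⟩
      have := hS hv h2 h1.symm
      cases e : A v x
      · rfl
      · exact absurd (hA _ _ e) this
    · exact le_max_of_le_left (mx_sound G A hA f _ _
        (fun x hx => (List.mem_cons.1 (h x hx)).resolve_left fun e => hv (e ▸ hx)) hS)

def A (u v : Fin 14) : Bool := ([50, 4105, 8960, 4738, 353, 2065, 1424, 1608, 596, 396, 2240, 1056, 8202, 4100].getD u.val 0).testBit v.val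

def G : SimpleGraph (Fin 14) where
  Adj u v := A u v = true
  symm := ⟨by decide +kernel⟩
  loopless := ⟨by decide +kernel⟩

instance : DecidableRel G.Adj := fun u v => inferInstanceAs (Decidable (A u v = true))

theorem alpha : G.indepNum = 5 := by
  apply le_antisymm
  · obtain ⟨S, hS⟩ := G.exists_isNIndepSet_indepNum
    rw [← hS.card_eq]
    exact (mx_sound G A (fun _ _ h => h) 14 (List.finRange 14) S (by simp) hS.isIndepSet).trans
      (by decide +kernel)
  · have : G.IsIndepSet ({0, 2, 3, 6, 11} : Finset (Fin 14)) := by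
      intro x hx y hy _
      revert x y
      decide +kernel
    simpa using this.card_le_indepNum

def W : List (Fin 14 × Fin 14 × Finset (Fin 14)) :=
  [(0, 1, {0, 1, 6, 9, 11, 13}), (0, 4, {0, 2, 4, 7, 11, 12}), (0, 5, {0, 3, 5, 8, 10, 13}), (1, 3, {1, 3, 5, 8, 10, 13}), (1, 12, {1, 2, 4, 7, 11, 12}), (2, 8, {0, 2, 7, 8, 11, 12}), (2, 9, {0, 2, 6, 9, 11, 12}), (2, 13, {0, 2, 3, 6, 11, 13}), (3, 7, {0, 3, 7, 8, 11, 13}), (3, 9, {0, 3, 6, 9, 11, 13}), (3, 12, {0, 2, 3, 6, 11, 12}), (4, 5, {1, 4, 5, 9, 10, 13}), (4, 6, {1, 4, 6, 9, 11, 13}), (4, 8, {1, 4, 7, 8, 11, 13}), (5, 11, {1, 5, 6, 9, 11, 13}), (6, 7, {0, 2, 6, 7, 11, 12}), (6, 8, {0, 3, 6, 8, 11, 13}), (6, 10, {1, 5, 6, 9, 10, 13}), (7, 9, {1, 4, 7, 9, 11, 13}), (7, 10, {1, 5, 7, 8, 10, 13}), (8, 9, {1, 5, 8, 9, 10, 13}), (10, 11, {0, 3, 8, 10, 11, 13}), (12, 13, {0, 6, 9, 11, 12, 13})]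

theorem crit (e : Sym2 (Fin 14)) (he : e ∈ G.edgeSet) :
    G.indepNum < (G.deleteEdges {e}).indepNum := by
  have h : ∀ u v, G.Adj u v → ∃ w ∈ W, s(u, v) = s(w.1, w.2.1) ∧ w.2.2.card = 6 ∧
      ∀ x ∈ w.2.2, ∀ y ∈ w.2.2, G.Adj x y → s(x, y) = s(w.1, w.2.1) := by decide +kernel
  induction e using Sym2.ind with
  | h u v =>
    obtain ⟨w, -, h1, h2, h3⟩ := h u v he
    have : (G.deleteEdges {s(u, v)}).IsIndepSet w.2.2 := fun x hx y hy _ hxy =>
      (deleteEdges_adj.1 hxy).2 (h1 ▸ h3 x hx y hy (deleteEdges_adj.1 hxy).1)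
    have := this.card_le_indepNum
    rw [alpha]
    omega

theorem hit (S : Finset (Fin 14)) (hS : G.IsIndepSet S) (hc : S.card = G.indepNum) :
    11 ∈ S ∨ 13 ∈ S := by
  by_contra hn
  push Not at hn
  have := mx_sound G A (fun _ _ h => h) 14 [0, 1, 2, 3, 4, 5, 6, 7, 8, 9, 10, 12] S (fun x hx => by
    have h1 : x ≠ 11 := fun e => hn.1 (e ▸ hx)
    have h2 : x ≠ 13 := fun e => hn.2 (e ▸ hx)
    clear hx
    revert x
    decide) hS
  have h4 : mx A 14 [0, 1, 2, 3, 4, 5, 6, 7, 8, 9, 10, 12] ≤ 4 := by decide +kernel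
  rw [alpha] at hc
  omega

end Pool.Agent.H9.Wade
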